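import Pool.Agent.Lib.MP_ca71b5_ntX.G0
set_option autoImplicit false

/-! Job A1 (easy). Elementary facts on `bF` and `tau1`; everything follows from
`Real.smoothTransition.zero_of_nonpos`, `one_of_one_le`, `pos_of_pos`, `lt_one_of_lt_one`,
`contDiff`, `nonneg`, `le_one` (file Mathlib/Analysis/SpecialFunctions/SmoothTransition.lean). -/

namespace Pool.Agent.MPca71X

theorem bF_contDiff (n : ℕ∞) : ContDiff ℝ n bF := by
  unfold bF
  exact (Real.smoothTransition.contDiff.comp ((contDiff_const.mul contDiff_id).sub contDiff_const)).mul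
    (Real.smoothTransition.contDiff.comp (contDiff_const.sub (contDiff_const.mul contDiff_id)))

theorem bF_nonneg (y : ℝ) : 0 ≤ bF y := by
  exact mul_nonneg (Real.smoothTransition.nonneg _) (Real.smoothTransition.nonneg _)

theorem bF_le_one (y : ℝ) : bF y ≤ 1 := by
  exact mul_le_one₀ (Real.smoothTransition.le_one _) (Real.smoothTransition.nonneg _)
    (Real.smoothTransition.le_one _)

theorem bF_zero_of_le (y : ℝ) (hy : y ≤ 1 / 4) : bF y = 0 := by
  unfold bF
  rw [Real.smoothTransition.zero_of_nonpos (by linarith), zero_mul]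

theorem bF_zero_of_ge (y : ℝ) (hy : 1 ≤ y) : bF y = 0 := by
  unfold bF
  rw [Real.smoothTransition.zero_of_nonpos (x := 4 - 4 * y) (by linarith), mul_zero]

theorem bF_eq_one (y : ℝ) (h1 : 1 / 2 ≤ y) (h2 : y ≤ 3 / 4) : bF y = 1 := by
  unfold bF
  rw [Real.smoothTransition.one_of_one_le (by linarith),
    Real.smoothTransition.one_of_one_le (by linarith), mul_one]

theorem tau1_contDiff (n : ℕ∞) : ContDiff ℝ n tau1 := by
  unfold tau1
  exact (Real.smoothTransition.contDiff.comp (contDiff_id.add contDiff_const)).sub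
    Real.smoothTransition.contDiff

/-- `Real.smoothTransition` is monotone (if this is not in Mathlib: `x ↦ expNegInvGlue x` is
monotone and `smoothTransition x = g x / (g x + g (1 - x))`). -/
theorem tau1_nonneg (t : ℝ) : 0 ≤ tau1 t := by
  unfold tau1
  exact sub_nonneg.2 (Real.smoothTransition.monotone (by linarith))

theorem tau1_le_one (t : ℝ) : tau1 t ≤ 1 := by
  unfold tau1
  linarith [Real.smoothTransition.le_one (t + 1), Real.smoothTransition.nonneg t]

theorem tau1_zero_of_le (t : ℝ) (ht : t ≤ -1) : tau1 t = 0 := by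
  unfold tau1
  rw [Real.smoothTransition.zero_of_nonpos (by linarith),
    Real.smoothTransition.zero_of_nonpos (by linarith), sub_zero]

theorem tau1_zero_of_ge (t : ℝ) (ht : 1 ≤ t) : tau1 t = 0 := by
  unfold tau1
  rw [Real.smoothTransition.one_of_one_le (by linarith),
    Real.smoothTransition.one_of_one_le (by linarith), sub_self]

theorem tau1_at_zero : tau1 0 = 1 := by
  unfold tau1
  rw [Real.smoothTransition.one_of_one_le (by norm_num), Real.smoothTransition.zero, sub_zero]

/-- Only the integers `k` with `-1 < t + k < 1` contribute, there are at most two of them; the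
sum telescopes: `∑_{k = a}^{b-1} tau1 (t + k) = S(t + b) - S(t + a)`, which is `1 - 0` for
`a` small and `b` large. -/
theorem tau1_hasSum (t : ℝ) : HasSum (fun k : ℤ => tau1 (t + k)) 1 := by
  obtain ⟨m, hm⟩ : ∃ m : ℤ, m = ⌊-t⌋ := ⟨_, rfl⟩
  have h1 : (m : ℝ) ≤ -t := by rw [hm]; exact Int.floor_le _
  have h2 : -t < m + 1 := by rw [hm]; exact Int.lt_floor_add_one _
  have hsum : ∑ k ∈ ({m, m + 1} : Finset ℤ), tau1 (t + k) = 1 := by
    rw [Finset.sum_pair (by omega)]
    unfold tau1
    push_cast
    rw [Real.smoothTransition.zero_of_nonpos (x := t + m) (by linarith),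
      Real.smoothTransition.one_of_one_le (x := t + (m + 1) + 1) (by linarith),
      show t + (m : ℝ) + 1 = t + (m + 1) by ring]
    ring
  rw [← hsum]
  refine hasSum_sum_of_ne_finset_zero fun k hk => ?_
  simp only [Finset.mem_insert, Finset.mem_singleton, not_or] at hk
  rcases lt_or_gt_of_ne hk.1 with h3 | h3
  · apply tau1_zero_of_le
    have h4 : (k : ℝ) ≤ m - 1 := by exact_mod_cast (by omega : k ≤ m - 1)
    linarith
  · apply tau1_zero_of_ge
    have h5 : m + 2 ≤ k := by
      have := hk.2
      omega
    have h4 : (m : ℝ) + 2 ≤ k := by exact_mod_cast h5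
    linarith

end Pool.Agent.MPca71X
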