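import Mathlib
import Pool.Agent.Lib.MP_ca71b5_ntX.A1

section
set_option autoImplicit false
open MeasureTheory
open scoped Pointwise

/-! Job A4 (medium). Sums of a Lipschitz function with compact support over a lattice. -/

namespace Pool.Agent.MPca71X

private theorem a4_fin {E : Type} [NormedAddCommGroup E] [NormedSpace ℝ E] [FiniteDimensional ℝ E]
    (L : Submodule ℤ E) [DiscreteTopology L] (ρ : ℝ) : {v : L | ‖(v : E)‖ ≤ ρ}.Finite := by
  have hcl : IsClosed (X := E) L := @AddSubgroup.isClosed_of_discrete _ _ _ _ _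
    L.toAddSubgroup (inferInstanceAs (DiscreteTopology L))
  have : ProperSpace E := FiniteDimensional.proper ℝ E
  have h1 : ((Metric.closedBall (0 : E) ρ) ∩ (L : Set E)).Finite :=
    Metric.finite_isBounded_inter_isClosed DiscreteTopology.isDiscrete
      Metric.isBounded_closedBall hcl
  refine (h1.preimage (Subtype.val_injective.injOn)).subset ?_
  intro v hv
  refine ⟨?_, v.2⟩
  rw [mem_closedBall_zero_iff]
  exact hv

/-- Let `D` be a bounded measurable fundamental domain of `L` (`ZSpan.fundamentalDomain` of a basis,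
`IsZLattice`), `‖x‖ ≤ r` on `D`, `μ D = covol`. Put `g(x) = f (T⁻¹ • (x + u))`. Then
`∫ g = T^n ∫ f` (`Measure.setIntegral_comp_smul`, translation invariance) and
`∫ g = ∑_{v ∈ L} ∫_{v + D} g` (`IsAddFundamentalDomain.integral_eq_tsum`), and
`|∫_{v+D} g - covol * g(v)| ≤ covol * C r / T`, both terms being `0` unless `‖v + u‖ ≤ R T + r`.
The number of such `v` is at most `μ(ball 0 (R T + 2 r + ‖u‖)) / covol ≤ C' T^n` (`T ≥ 1`;
the sets `v + D` are disjoint). Sum up. -/
theorem lattice_sum {E : Type} [NormedAddCommGroup E] [NormedSpace ℝ E] [FiniteDimensional ℝ E]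
    [MeasurableSpace E] [BorelSpace E] (μ : Measure E) [μ.IsAddHaarMeasure]
    (L : Submodule ℤ E) [DiscreteTopology L] [IsZLattice ℝ L] (f : E → ℝ) (C : NNReal)
    (hf : LipschitzWith C f) (R : ℝ) (hR : ∀ v, R < ‖v‖ → f v = 0) (u : E) :
    ∃ B : ℝ, ∀ T : ℝ, 1 ≤ T →
      |∑' v : L, f (T⁻¹ • ((v : E) + u)) -
        T ^ Module.finrank ℝ E * (∫ v, f v ∂μ) / ZLattice.covolume L μ| ≤
        B * T ^ Module.finrank ℝ E / T := by
  classical
  have hprop : ProperSpace E := FiniteDimensional.proper ℝ E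
  have hfree : Module.Free ℤ L := ZLattice.module_free ℝ L
  have hfin : Module.Finite ℤ L := ZLattice.module_finite ℝ L
  set n := Module.finrank ℝ E with hn
  let b := Module.Free.chooseBasis ℤ L
  set D : Set E := ZSpan.fundamentalDomain (b.ofZLatticeBasis ℝ) with hDdef
  have hD : IsAddFundamentalDomain L D μ := ZLattice.isAddFundamentalDomain b μ
  have hDm : MeasurableSet D := ZSpan.fundamentalDomain_measurableSet _
  have hDb : Bornology.IsBounded D := ZSpan.fundamentalDomain_isBounded _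
  obtain ⟨r, hr0, hr⟩ : ∃ r : ℝ, 0 ≤ r ∧ ∀ x ∈ D, ‖x‖ ≤ r := by
    obtain ⟨r, hr⟩ := hDb.exists_norm_le
    exact ⟨max r 0, le_max_right _ _, fun x hx => (hr x hx).trans (le_max_left _ _)⟩
  have hcov : ZLattice.covolume L μ = μ.real D :=
    ZLattice.covolume_eq_measure_fundamentalDomain L μ hD
  have hc : 0 < ZLattice.covolume L μ := ZLattice.covolume_pos L μ
  set c := ZLattice.covolume L μ with hcdef
  have hDfin : μ D < ⊤ := hDb.measure_lt_top
  set K : ℝ := |R| + 2 * r + ‖u‖ + 1 with hK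
  have hK0 : 0 < K := by
    have := abs_nonneg R
    have := norm_nonneg u
    linarith
  set V : ℝ := μ.real (Metric.ball (0 : E) 1) with hV
  refine ⟨K ^ n * V / c * (C * r), fun T hT => ?_⟩
  have hT0 : 0 < T := by linarith
  set g : E → ℝ := fun x => f (T⁻¹ • (x + u)) with hg
  have hgz : ∀ x, R * T < ‖x + u‖ → g x = 0 := by
    intro x hx
    apply hR
    rw [norm_smul, norm_inv, Real.norm_eq_abs, abs_of_pos hT0, inv_mul_eq_div, lt_div_iff₀ hT0]
    exact hx
  have hgl : ∀ x y, |g x - g y| ≤ C * (T⁻¹ * ‖x - y‖) := by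
    intro x y
    have h1 := hf.dist_le_mul (T⁻¹ • (x + u)) (T⁻¹ • (y + u))
    rw [Real.dist_eq, dist_eq_norm, ← smul_sub, add_sub_add_right_eq_sub, norm_smul, norm_inv,
      Real.norm_eq_abs, abs_of_pos hT0] at h1
    exact h1
  have hgc : Continuous g := hf.continuous.comp (by fun_prop)
  have hgi : Integrable g μ := by
    apply hgc.integrable_of_hasCompactSupport
    apply HasCompactSupport.of_support_subset_isCompact
      (isCompact_closedBall (0 : E) (R * T + ‖u‖))
    intro x hx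
    rw [mem_closedBall_zero_iff]
    have h1 : ‖x + u‖ ≤ R * T := by
      by_contra hcon
      exact hx (hgz x (not_le.mp hcon))
    have h2 : ‖x‖ ≤ ‖x + u‖ + ‖u‖ := by
      have := norm_sub_le (x + u) u
      rwa [add_sub_cancel_right] at this
    linarith
  have hint : ∫ x, g x ∂μ = T ^ n * ∫ v, f v ∂μ := by
    have h1 : ∫ x, g x ∂μ = ∫ x, f (T⁻¹ • x) ∂μ :=
      integral_add_right_eq_self (fun x => f (T⁻¹ • x)) u
    rw [h1, Measure.integral_comp_smul, smul_eq_mul, inv_pow, inv_inv, abs_of_pos (pow_pos hT0 _)]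
  have hvadd : VAddInvariantMeasure L E μ :=
    inferInstanceAs (VAddInvariantMeasure L.toAddSubgroup E μ)
  have hsum : ∫ x, g x ∂μ = ∑' v : L, ∫ x in D, g ((v : E) + x) ∂μ :=
    hD.integral_eq_tsum'' g hgi
  -- the finite set
  set S : Finset L := (a4_fin L (|R| * T + r + ‖u‖)).toFinset with hSdef
  have hS : ∀ v : L, v ∉ S → R * T + r < ‖(v : E) + u‖ := by
    intro v hv
    rw [hSdef, Set.Finite.mem_toFinset, Set.mem_ofPred_eq, not_le] at hv
    have h2 : ‖(v : E)‖ ≤ ‖(v : E) + u‖ + ‖u‖ := by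
      have := norm_sub_le ((v : E) + u) u
      rwa [add_sub_cancel_right] at this
    have h3 : R * T ≤ |R| * T := mul_le_mul_of_nonneg_right (le_abs_self R) hT0.le
    linarith
  have hsum1 : ∑' v : L, g v = ∑ v ∈ S, g v := by
    apply tsum_eq_sum
    intro v hv
    apply hgz
    have := hS v hv
    linarith
  have hsum2 : ∑' v : L, ∫ x in D, g ((v : E) + x) ∂μ = ∑ v ∈ S, ∫ x in D, g ((v : E) + x) ∂μ := by
    apply tsum_eq_sum
    intro v hv
    apply setIntegral_eq_zero_of_forall_eq_zero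
    intro x hx
    apply hgz
    have h1 := hS v hv
    have h2 := hr x hx
    have h3 : ‖(v : E) + u‖ ≤ ‖(v : E) + x + u‖ + ‖x‖ := by
      have := norm_sub_le ((v : E) + x + u) x
      rwa [show (v : E) + x + u - x = (v : E) + u by abel] at this
    linarith
  have hcard : (S.card : ℝ) * c ≤ K ^ n * T ^ n * V := by
    have h1 : ∑ v ∈ S, μ (v +ᵥ D) ≤ μ (Metric.ball (0 : E) (K * T)) := by
      rw [hD.measure_eq_tsum' (Metric.ball (0 : E) (K * T))]
      refine le_trans ?_ (ENNReal.sum_le_tsum S)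
      apply Finset.sum_le_sum
      intro v hv
      apply measure_mono
      apply Set.subset_inter ?_ subset_rfl
      rintro _ ⟨x, hx, rfl⟩
      rw [hSdef, Set.Finite.mem_toFinset, Set.mem_ofPred_eq] at hv
      rw [mem_ball_zero_iff]
      change ‖(v : E) + x‖ < K * T
      have h2 := hr x hx
      have h3 := norm_add_le (v : E) x
      have h4 : K * T = |R| * T + (2 * r + ‖u‖ + 1) * T := by rw [hK]; ring
      have h5 : (2 * r + ‖u‖ + 1) ≤ (2 * r + ‖u‖ + 1) * T := by
        apply le_mul_of_one_le_right _ hT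
        have := norm_nonneg u
        linarith
      rw [h4]
      linarith
    have h2 : ∀ v ∈ S, μ (v +ᵥ D) = μ D := fun v _ => measure_vadd μ v D
    rw [Finset.sum_congr rfl h2, Finset.sum_const, nsmul_eq_mul,
      Measure.addHaar_ball_of_pos μ _ (mul_pos hK0 hT0)] at h1
    have h3 := ENNReal.toReal_mono (by
      exact ENNReal.mul_ne_top ENNReal.ofReal_ne_top measure_ball_lt_top.ne) h1
    rw [ENNReal.toReal_mul, ENNReal.toReal_mul, ENNReal.toReal_natCast,
      ENNReal.toReal_ofReal (by positivity)] at h3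
    rw [hcov]
    refine h3.trans (le_of_eq ?_)
    rw [mul_pow]
    rfl
  have hterm : ∀ v ∈ S, |g v * c - ∫ x in D, g ((v : E) + x) ∂μ| ≤ C * r / T * c := by
    intro v _
    have h1 : ∫ x in D, (g v - g ((v : E) + x)) ∂μ =
        g v * c - ∫ x in D, g ((v : E) + x) ∂μ := by
      have hI1 : Integrable (fun _ : E => g v) (μ.restrict D) :=
        integrableOn_const hDfin.ne
      have hI2 : Integrable (fun x : E => g ((v : E) + x)) (μ.restrict D) :=
        (hgi.comp_add_left (v : E)).integrableOn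
      rw [integral_sub hI1 hI2, setIntegral_const, smul_eq_mul, hcov, mul_comm]
    rw [← h1, ← Real.norm_eq_abs, hcov]
    apply norm_setIntegral_le_of_norm_le_const hDfin
    intro x hx
    rw [Real.norm_eq_abs]
    refine (hgl _ _).trans ?_
    rw [sub_add_cancel_left, norm_neg, div_eq_mul_inv, mul_assoc, mul_comm r]
    exact mul_le_mul_of_nonneg_left (mul_le_mul_of_nonneg_left (hr x hx)
      (inv_nonneg.mpr hT0.le)) C.2
  have hmain : ∑' v : L, f (T⁻¹ • ((v : E) + u)) - T ^ n * (∫ v, f v ∂μ) / c =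
      (∑ v ∈ S, (g v * c - ∫ x in D, g ((v : E) + x) ∂μ)) / c := by
    rw [← hint, hsum, hsum2, Finset.sum_sub_distrib, ← Finset.sum_mul, sub_div,
      mul_div_assoc, div_self hc.ne', mul_one, ← hsum1]
  rw [hmain, abs_div, abs_of_pos hc, div_le_iff₀ hc]
  calc |∑ v ∈ S, (g v * c - ∫ x in D, g ((v : E) + x) ∂μ)|
      ≤ ∑ v ∈ S, |g v * c - ∫ x in D, g ((v : E) + x) ∂μ| := Finset.abs_sum_le_sum_abs _ _
    _ ≤ ∑ v ∈ S, C * r / T * c := Finset.sum_le_sum hterm
    _ = C * r / T * (S.card * c) := by rw [Finset.sum_const, nsmul_eq_mul]; ring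
    _ ≤ C * r / T * (K ^ n * T ^ n * V) := by
        apply mul_le_mul_of_nonneg_left hcard
        positivity
    _ = K ^ n * V / c * (C * r) * T ^ n / T * c := by
        field_simp

/-- For fixed `T > 0` only finitely many terms are nonzero (a discrete subgroup meets a bounded set
in a finite set). -/
theorem lattice_finite {E : Type} [NormedAddCommGroup E] [NormedSpace ℝ E] [FiniteDimensional ℝ E]
    (L : Submodule ℤ E) [DiscreteTopology L] (f : E → ℝ)
    (R : ℝ) (hR : ∀ v, R < ‖v‖ → f v = 0) (u : E) (T : ℝ) (hT : 0 < T) :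
    {v : L | f (T⁻¹ • ((v : E) + u)) ≠ 0}.Finite := by
  refine (a4_fin L (R * T + ‖u‖)).subset ?_
  intro v hv
  have h1 : ‖(v : E) + u‖ ≤ R * T := by
    by_contra hcon
    apply hv
    apply hR
    rw [norm_smul, norm_inv, Real.norm_eq_abs, abs_of_pos hT, inv_mul_eq_div, lt_div_iff₀ hT]
    exact not_le.mp hcon
  have h2 : ‖(v : E)‖ ≤ ‖(v : E) + u‖ + ‖u‖ := by
    have := norm_sub_le ((v : E) + u) u
    rwa [add_sub_cancel_right] at this
  change ‖(v : E)‖ ≤ R * T + ‖u‖
  linarith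

end Pool.Agent.MPca71X
end

section
set_option autoImplicit false
open scoped NumberField
open NumberField NumberField.mixedEmbedding NumberField.Units
  NumberField.Units.dirichletUnitTheorem

/-! Job A2 (medium). The sum of `psiK` over the units. -/

namespace Pool.Agent.MPca71X

variable (K : Type) [Field K] [NumberField K]

/-- `psiK` is homogeneous of degree `0` (`logMap_real_smul`). -/
theorem psiK_smul (v : mixedSpace K) (hv : mixedEmbedding.norm v ≠ 0) (c : ℝ) (hc : c ≠ 0) :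
    psiK K (c • v) = psiK K v := by
  unfold psiK tK
  rw [logMap_real_smul hv hc]

/-- For a unit `u = ζ ∏ (fundSystem K i) ^ (e i)` (`ζ` torsion, `e i ∈ ℤ`):
`tK K (u • v) i = tK K v i + e i`. By `logMap_unit_smul`, `logEmbedding_fundSystem`,
`logEmbedding` is additive and kills torsion, and the basis `ofZLatticeBasis` extends
`basisUnitLattice`. -/
theorem tK_unit_smul (v : mixedSpace K) (hv : mixedEmbedding.norm v ≠ 0) (ζ : (𝓞 K)ˣ)
    (hζ : ζ ∈ torsion K) (e : Fin (Units.rank K) → ℤ) (i : Fin (Units.rank K)) :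
    tK K ((ζ * ∏ j, fundSystem K j ^ e j) • v) i = tK K v i + e i := by
  classical
  unfold tK
  rw [logMap_unit_smul _ hv, map_add, Finsupp.add_apply, add_comm]
  congr 1
  have h1 : logEmbedding K (Additive.ofMul (ζ * ∏ j, fundSystem K j ^ e j)) =
      ∑ j, (e j : ℝ) • ((basisUnitLattice K).ofZLatticeBasis ℝ (unitLattice K)) j := by
    rw [ofMul_mul, map_add, logEmbedding_eq_zero_iff.2 hζ, zero_add, ofMul_prod, map_sum]
    refine Finset.sum_congr rfl fun j _ => ?_
    rw [ofMul_zpow, map_zsmul, logEmbedding_fundSystem, Module.Basis.ofZLatticeBasis_apply,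
      Int.cast_smul_eq_zsmul]
  rw [h1, map_sum, Finsupp.finsetSum_apply]
  simp only [map_smul, Module.Basis.repr_self, Finsupp.smul_apply, smul_eq_mul]
  rw [Finset.sum_eq_single i]
  · rw [Finsupp.single_eq_same, mul_one]
  · intro j _ hj
    rw [Finsupp.single_eq_of_ne (Ne.symm hj), mul_zero]
  · intro h
    exact absurd (Finset.mem_univ i) h

private theorem a2_zero (t : ℝ) (k : ℤ) (hk : k ∉ ({⌊-t⌋, ⌊-t⌋ + 1} : Finset ℤ)) :
    tau1 (t + k) = 0 := by
  obtain ⟨m, hm⟩ : ∃ m : ℤ, m = ⌊-t⌋ := ⟨_, rfl⟩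
  have h1 : (m : ℝ) ≤ -t := by rw [hm]; exact Int.floor_le _
  have h2 : -t < m + 1 := by rw [hm]; exact Int.lt_floor_add_one _
  rw [← hm] at hk
  simp only [Finset.mem_insert, Finset.mem_singleton, not_or] at hk
  rcases lt_or_gt_of_ne hk.1 with h3 | h3
  · apply tau1_zero_of_le
    have h4 : (k : ℝ) ≤ m - 1 := by exact_mod_cast (by omega : k ≤ m - 1)
    linarith
  · apply tau1_zero_of_ge
    have h5 : m + 2 ≤ k := by
      have := hk.2
      omega
    have h4 : (m : ℝ) + 2 ≤ k := by exact_mod_cast h5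
    linarith

/-- The sum over all units of `psiK (u • v)` is the number `w` of roots of unity: the units are
`ζ ∏ (fundSystem K i) ^ (e i)` uniquely (`exist_unique_eq_mul_prod`), so the sum is
`∑_ζ ∑_e ∏_i tau1 (tK v i + e i) = w ∏_i ∑_{k ∈ ℤ} tau1 (tK v i + k) = w` by `tau1_hasSum`
(all terms are nonnegative; product of sums over `Fin r → ℤ`: induction on `r`, or finite
supports). -/
theorem psiK_unit_hasSum (v : mixedSpace K) (hv : mixedEmbedding.norm v ≠ 0) :
    HasSum (fun u : (𝓞 K)ˣ => psiK K (u • v)) (torsionOrder K : ℝ) := by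
  classical
  have hft : Fintype (torsion K) := Fintype.ofFinite _
  obtain ⟨Φ, hΦ⟩ : ∃ Φ : (torsion K) × (Fin (Units.rank K) → ℤ) → (𝓞 K)ˣ,
    Φ = fun x => (x.1 : (𝓞 K)ˣ) * ∏ j, fundSystem K j ^ x.2 j := ⟨_, rfl⟩
  have hbij : Function.Bijective Φ := by
    rw [Function.bijective_iff_existsUnique]
    intro u
    obtain ⟨x, hx, hu⟩ := exist_unique_eq_mul_prod K u
    refine ⟨x, ?_, fun y hy => hu y ?_⟩
    · rw [hΦ]
      exact hx.symm
    · rw [hΦ] at hy
      exact hy.symm
  rw [← (Equiv.ofBijective Φ hbij).hasSum_iff]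
  obtain ⟨s, hs⟩ : ∃ s : Fin (Units.rank K) → Finset ℤ,
    s = fun i => {⌊-tK K v i⌋, ⌊-tK K v i⌋ + 1} := ⟨_, rfl⟩
  have hz : ∀ i, ∀ k ∉ s i, tau1 (tK K v i + k) = 0 := by
    intro i k hk
    rw [hs] at hk
    exact a2_zero _ _ hk
  have h1 : ∀ i, ∑ k ∈ s i, tau1 (tK K v i + k) = 1 := fun i =>
    (hasSum_sum_of_ne_finset_zero (hz i)).unique (tau1_hasSum (tK K v i))
  have hF : ∀ x : (torsion K) × (Fin (Units.rank K) → ℤ),
      ((fun u : (𝓞 K)ˣ => psiK K (u • v)) ∘ (Equiv.ofBijective Φ hbij)) x =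
        ∏ i, tau1 (tK K v i + x.2 i) := by
    rintro ⟨⟨ζ, hζ⟩, e⟩
    show psiK K (Φ (⟨ζ, hζ⟩, e) • v) = _
    unfold psiK
    refine Finset.prod_congr rfl fun i _ => ?_
    rw [hΦ]
    beta_reduce
    rw [tK_unit_smul K v hv ζ hζ e i]
  have h2 : ∀ x ∉ (Finset.univ : Finset (torsion K)) ×ˢ Fintype.piFinset s,
      ((fun u : (𝓞 K)ˣ => psiK K (u • v)) ∘ (Equiv.ofBijective Φ hbij)) x = 0 := by
    intro x hx
    rw [hF]
    rw [Finset.mem_product, Fintype.mem_piFinset] at hx
    push Not at hx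
    obtain ⟨i, hi⟩ := hx (Finset.mem_univ _)
    exact Finset.prod_eq_zero (Finset.mem_univ i) (hz i _ hi)
  have h3 : HasSum ((fun u : (𝓞 K)ˣ => psiK K (u • v)) ∘ (Equiv.ofBijective Φ hbij))
      (∑ x ∈ (Finset.univ : Finset (torsion K)) ×ˢ Fintype.piFinset s,
        ((fun u : (𝓞 K)ˣ => psiK K (u • v)) ∘ (Equiv.ofBijective Φ hbij)) x) :=
    hasSum_sum_of_ne_finset_zero h2
  have h4 : ∑ x ∈ (Finset.univ : Finset (torsion K)) ×ˢ Fintype.piFinset s,
      ((fun u : (𝓞 K)ˣ => psiK K (u • v)) ∘ (Equiv.ofBijective Φ hbij)) x =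
      (torsionOrder K : ℝ) := by
    rw [Finset.sum_congr rfl fun x _ => hF x, Finset.sum_product]
    have h5 : ∑ e ∈ Fintype.piFinset s, ∏ i, tau1 (tK K v i + e i) = 1 := by
      rw [← Finset.prod_univ_sum (fun i => s i) (fun i k => tau1 (tK K v i + k)),
        Finset.prod_congr rfl fun i _ => h1 i, Finset.prod_const_one]
    rw [Finset.sum_congr rfl fun x _ => h5, Finset.sum_const, Finset.card_univ, nsmul_eq_mul,
      mul_one, ← Nat.card_eq_fintype_card]
    rfl
  rw [h4] at h3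
  exact h3

end Pool.Agent.MPca71X
end

section
set_option autoImplicit false
open scoped NumberField
open NumberField NumberField.mixedEmbedding NumberField.Units MeasureTheory
  NumberField.Units.dirichletUnitTheorem

/-! Job A3 (medium). The test function `fK` is Lipschitz with compact support. -/

namespace Pool.Agent.MPca71X

variable (K : Type) [Field K] [NumberField K]

theorem fK_nonneg (v : mixedSpace K) : 0 ≤ fK K v :=
  mul_nonneg (bF_nonneg _) (Finset.prod_nonneg fun _ _ => tau1_nonneg _)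

private theorem A3_ne {v : mixedSpace K} (h : fK K v ≠ 0) :
    1 / 4 < mixedEmbedding.norm v ∧ mixedEmbedding.norm v < 1 ∧ ∀ i, |tK K v i| < 1 := by
  have h1 : bF (mixedEmbedding.norm v) ≠ 0 := left_ne_zero_of_mul h
  have h2 : psiK K v ≠ 0 := right_ne_zero_of_mul h
  refine ⟨?_, ?_, fun i => ?_⟩
  · by_contra h3
    exact h1 (bF_zero_of_le _ (not_lt.1 h3))
  · by_contra h3
    exact h1 (bF_zero_of_ge _ (not_lt.1 h3))
  · have h3 : tau1 (tK K v i) ≠ 0 := (Finset.prod_ne_zero_iff.1 h2) i (Finset.mem_univ i)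
    rw [abs_lt]
    constructor
    · by_contra h4
      exact h3 (tau1_zero_of_le _ (not_lt.1 h4))
    · by_contra h4
      exact h3 (tau1_zero_of_ge _ (not_lt.1 h4))

open scoped Classical in
private theorem A3_log (v : mixedSpace K) (h : ∀ i, |tK K v i| < 1)
    (w : {w : InfinitePlace K // w ≠ w₀}) :
    |logMap v w| ≤ ∑ i, |((basisUnitLattice K).ofZLatticeBasis ℝ (unitLattice K)) i w| := by
  have h1 := ((basisUnitLattice K).ofZLatticeBasis ℝ (unitLattice K)).sum_repr (logMap v)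
  have h2 : logMap v w = ∑ i, tK K v i *
      ((basisUnitLattice K).ofZLatticeBasis ℝ (unitLattice K)) i w := by
    conv_lhs => rw [← h1]
    rw [Finset.sum_apply]
    rfl
  rw [h2]
  refine (Finset.abs_sum_le_sum_abs _ _).trans (Finset.sum_le_sum fun i _ => ?_)
  rw [abs_mul]
  calc |tK K v i| * _ ≤ 1 * _ := mul_le_mul_of_nonneg_right (h i).le (abs_nonneg _)
    _ = _ := one_mul _

open scoped Classical in
/-- If `fK K v ≠ 0` then `1/4 < norm v < 1` and `|tK K v i| < 1` for all `i`. So `logMap v` is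
bounded (it is a linear combination of the basis vectors with coefficients in `[-1,1]`), so
`log (normAtPlace w v)` is bounded above for `w ≠ w₀`, below as well, and for `w₀` by
`norm v = ∏ (normAtPlace w v) ^ mult w`; so `‖v‖` is bounded. -/
theorem fK_bdd : ∃ R : ℝ, ∀ v : mixedSpace K, R < ‖v‖ → fK K v = 0 := by
  set L : ℝ := ∑ w : {w : InfinitePlace K // w ≠ w₀},
    ∑ i, |((basisUnitLattice K).ofZLatticeBasis ℝ (unitLattice K)) i w| with hL
  have hL0 : 0 ≤ L := Finset.sum_nonneg fun _ _ => Finset.sum_nonneg fun _ _ => abs_nonneg _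
  have hLw : ∀ w : {w : InfinitePlace K // w ≠ w₀},
      ∑ i, |((basisUnitLattice K).ofZLatticeBasis ℝ (unitLattice K)) i w| ≤ L := fun w =>
    Finset.single_le_sum (f := fun w : {w : InfinitePlace K // w ≠ w₀} =>
      ∑ i, |((basisUnitLattice K).ofZLatticeBasis ℝ (unitLattice K)) i w|)
      (fun _ _ => Finset.sum_nonneg fun _ _ => abs_nonneg _) (Finset.mem_univ w)
  have hl4 : 0 < Real.log 4 := Real.log_pos (by norm_num)
  set n : ℝ := (Module.finrank ℚ K : ℝ) with hn
  have hn1 : 1 ≤ n := by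
    rw [hn]
    exact_mod_cast Module.finrank_pos (R := ℚ) (M := K)
  set C : ℝ := n * (L + Real.log 4) with hC
  have hC0 : 0 ≤ C := by positivity
  refine ⟨Real.exp (C + L), fun v hv => ?_⟩
  by_contra hne
  obtain ⟨h1, h2, h3⟩ := A3_ne K hne
  have hpos : 0 < mixedEmbedding.norm v := by linarith
  have hw0 : ∀ w, 0 < normAtPlace w v := fun w =>
    lt_of_le_of_ne (normAtPlace_nonneg w v) (Ne.symm (mixedEmbedding.norm_ne_zero_iff.1 hpos.ne' w))
  have hlogn : Real.log (mixedEmbedding.norm v) < 0 := Real.log_neg hpos h2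
  have hlogn' : -Real.log 4 < Real.log (mixedEmbedding.norm v) := by
    rw [← Real.log_inv]
    exact Real.log_lt_log (by norm_num) (by linarith)
  have hm : ∀ w : InfinitePlace K, (1 : ℝ) ≤ (w.mult : ℝ) := fun w => by
    exact_mod_cast InfinitePlace.mult_pos
  have hwn : ∀ w : {w : InfinitePlace K // w ≠ w₀},
      |Real.log (normAtPlace w.1 v)| ≤ L + Real.log 4 := by
    intro w
    have h4 := (A3_log K v h3 w).trans (hLw w)
    rw [logMap_apply, abs_mul, abs_of_pos (by linarith [hm w.1] : (0 : ℝ) < (w.1.mult : ℝ))] at h4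
    have h5 : |Real.log (normAtPlace w.1 v) -
        Real.log (mixedEmbedding.norm v) * (Module.finrank ℚ K : ℝ)⁻¹| ≤ L :=
      le_trans (le_mul_of_one_le_left (abs_nonneg _) (hm w.1)) h4
    have h6 : |Real.log (mixedEmbedding.norm v) * (Module.finrank ℚ K : ℝ)⁻¹| ≤ Real.log 4 := by
      rw [abs_mul, abs_of_neg hlogn, abs_of_pos (inv_pos.2 (by rw [← hn]; linarith))]
      have h7 : (Module.finrank ℚ K : ℝ)⁻¹ ≤ 1 := inv_le_one_of_one_le₀ hn1
      nlinarith
    have h8 := abs_sub_abs_le_abs_sub (Real.log (normAtPlace w.1 v))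
      (Real.log (mixedEmbedding.norm v) * (Module.finrank ℚ K : ℝ)⁻¹)
    linarith
  have hsum : ∑ w : InfinitePlace K, (w.mult : ℝ) * Real.log (normAtPlace w v) =
      Real.log (mixedEmbedding.norm v) := by
    rw [mixedEmbedding.norm_apply, Real.log_prod (fun w _ => (pow_pos (hw0 w) _).ne')]
    exact Finset.sum_congr rfl fun w _ => (Real.log_pow _ _).symm
  have hmult : ∑ w : InfinitePlace K, (w.mult : ℝ) = n := by
    rw [hn]
    exact_mod_cast InfinitePlace.sum_mult_eq (K := K)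
  have hall : ∀ w : InfinitePlace K, Real.log (normAtPlace w v) ≤ C + L := by
    intro w
    by_cases hw : w = w₀
    · have h4 : (w.mult : ℝ) * Real.log (normAtPlace w v) ≤ C := by
        rw [← Finset.add_sum_erase _ _ (Finset.mem_univ w)] at hsum
        have h5 : -∑ w' ∈ Finset.univ.erase w, (w'.mult : ℝ) * Real.log (normAtPlace w' v) ≤
            ∑ w' ∈ Finset.univ.erase w, (w'.mult : ℝ) * (L + Real.log 4) := by
          rw [← Finset.sum_neg_distrib]
          refine Finset.sum_le_sum fun w' hw' => ?_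
          have h6 : w' ≠ w₀ := by
            rw [← hw]
            exact (Finset.mem_erase.1 hw').1
          have h7 := neg_abs_le (Real.log (normAtPlace w' v))
          have h8 := hwn ⟨w', h6⟩
          rw [← mul_neg]
          refine mul_le_mul_of_nonneg_left ?_ (by linarith [hm w'])
          simp only at h8
          linarith
        have h6 : ∑ w' ∈ Finset.univ.erase w, (w'.mult : ℝ) * (L + Real.log 4) ≤ C := by
          rw [hC, ← hmult, Finset.sum_mul]
          exact Finset.sum_le_sum_of_subset_of_nonneg (Finset.erase_subset _ _)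
            fun w' _ _ => mul_nonneg (by linarith [hm w']) (by linarith)
        linarith
      by_contra h5
      push Not at h5
      have h6 : Real.log (normAtPlace w v) ≤ (w.mult : ℝ) * Real.log (normAtPlace w v) :=
        le_mul_of_one_le_left (by linarith) (hm w)
      linarith
    · have h4 := (le_abs_self _).trans (hwn ⟨w, hw⟩)
      have h5 : Real.log 4 + L ≤ C := by
        rw [hC]
        nlinarith
      simp only at h4
      linarith
  have h4 : ‖v‖ ≤ Real.exp (C + L) := by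
    rw [norm_eq_sup'_normAtPlace]
    refine Finset.sup'_le _ _ fun w _ => ?_
    rw [← Real.log_le_iff_le_exp (hw0 w)]
    exact hall w
  linarith

open scoped Classical in
private theorem A3_place {w : InfinitePlace K} {v : mixedSpace K} (h : normAtPlace w v ≠ 0) :
    ContDiffAt ℝ 1 (fun v : mixedSpace K => normAtPlace w v) v := by
  rcases w.isReal_or_isComplex with hw | hw
  · have h1 : (fun v : mixedSpace K => normAtPlace w v) = fun v => ‖v.1 ⟨w, hw⟩‖ := by
      funext v
      exact normAtPlace_apply_of_isReal hw v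
    rw [normAtPlace_apply_of_isReal hw] at h
    rw [h1]
    have h2 : ContDiffAt ℝ 1 (fun v : mixedSpace K => v.1 ⟨w, hw⟩) v :=
      ((contDiff_apply ℝ ℝ (⟨w, hw⟩ : {w : InfinitePlace K // InfinitePlace.IsReal w})).comp
        contDiff_fst).contDiffAt
    exact h2.norm ℝ (norm_ne_zero_iff.1 h)
  · have h1 : (fun v : mixedSpace K => normAtPlace w v) = fun v => ‖v.2 ⟨w, hw⟩‖ := by
      funext v
      exact normAtPlace_apply_of_isComplex hw v
    rw [normAtPlace_apply_of_isComplex hw] at h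
    rw [h1]
    have h2 : ContDiffAt ℝ 1 (fun v : mixedSpace K => v.2 ⟨w, hw⟩) v :=
      ((contDiff_apply ℝ ℂ (⟨w, hw⟩ : {w : InfinitePlace K // InfinitePlace.IsComplex w})).comp
        contDiff_snd).contDiffAt
    exact h2.norm ℝ (norm_ne_zero_iff.1 h)

open scoped Classical in
private theorem A3_norm {v : mixedSpace K} (h : mixedEmbedding.norm v ≠ 0) :
    ContDiffAt ℝ 1 (fun v : mixedSpace K => mixedEmbedding.norm v) v := by
  have h1 : (fun v : mixedSpace K => mixedEmbedding.norm v) =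
      fun v => ∏ w, (normAtPlace w v) ^ (w.mult) := by
    funext v
    exact mixedEmbedding.norm_apply v
  rw [h1]
  exact contDiffAt_prod fun w _ => (A3_place K (mixedEmbedding.norm_ne_zero_iff.1 h w)).pow _

open scoped Classical in
private theorem A3_tK {v : mixedSpace K} (h : mixedEmbedding.norm v ≠ 0) (i : Fin (Units.rank K)) :
    ContDiffAt ℝ 1 (fun v : mixedSpace K => tK K v i) v := by
  have h1 : ContDiffAt ℝ 1 (fun v : mixedSpace K => logMap v) v := by
    rw [contDiffAt_pi]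
    intro w
    simp only [logMap_apply]
    exact contDiffAt_const.mul (((A3_place K (mixedEmbedding.norm_ne_zero_iff.1 h w.1)).log
      (mixedEmbedding.norm_ne_zero_iff.1 h w.1)).sub (((A3_norm K h).log h).mul contDiffAt_const))
  let c := LinearMap.toContinuousLinearMap
    (((basisUnitLattice K).ofZLatticeBasis ℝ (unitLattice K)).coord i)
  have h2 : (fun v : mixedSpace K => tK K v i) = fun v => c (logMap v) := rfl
  rw [h2]
  exact c.contDiff.contDiffAt.comp v h1

open scoped Classical in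
/-- `fK` is smooth: on the open set `norm v ≠ 0` the functions `normAtPlace w v` are smooth and
positive (absolute values on ℝ and ℂ away from `0`), so `logMap`, `tK`, `psiK` are smooth; and
`fK` vanishes on the open set `norm v < 1/4`. These two open sets cover the space. -/
theorem fK_contDiff : ContDiff ℝ 1 (fK K) := by
  rw [contDiff_iff_contDiffAt]
  intro v
  by_cases h : mixedEmbedding.norm v = 0
  · have h1 : ∀ᶠ x in nhds v, mixedEmbedding.norm x < 1 / 4 :=
      (mixedEmbedding.continuous_norm K).continuousAt.eventually_lt continuousAt_const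
        (by rw [h]; norm_num)
    refine (contDiffAt_const (c := (0 : ℝ))).congr_of_eventuallyEq ?_
    filter_upwards [h1] with x hx
    unfold fK
    rw [bF_zero_of_le _ hx.le, zero_mul]
  · unfold fK psiK
    refine ContDiffAt.mul ?_ (contDiffAt_prod fun i _ => ?_)
    · exact (bF_contDiff 1).contDiffAt.comp v (A3_norm K h)
    · exact (tau1_contDiff 1).contDiffAt.comp v (A3_tK K h i)

open scoped Classical in
private theorem A3_cpt : HasCompactSupport (fK K) := by
  obtain ⟨R, hR⟩ := fK_bdd K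
  refine HasCompactSupport.intro (isCompact_closedBall (0 : mixedSpace K) R) fun v hv => ?_
  refine hR v ?_
  rw [mem_closedBall_zero_iff, not_le] at hv
  exact hv

open scoped Classical in
/-- From `fK_contDiff` and `fK_bdd` (compact support):
`ContDiff.lipschitzWith_of_hasCompactSupport`. -/
theorem fK_lipschitz : ∃ C : NNReal, LipschitzWith C (fK K) :=
  ContDiff.lipschitzWith_of_hasCompactSupport (A3_cpt K) (fK_contDiff K) one_ne_zero

open scoped Classical in
/-- `fK` is continuous, nonnegative, integrable (compact support), and positive at the vector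
`c • 1` with `c ^ n = 5/8` (`norm = 5/8`, `logMap = 0`, `tau1 0 = 1`, `bF (5/8) = 1`). -/
theorem fK_integral_pos : 0 < ∫ v, fK K v := by
  have hn : 0 < Module.finrank ℚ K := Module.finrank_pos
  set c : ℝ := (5 / 8 : ℝ) ^ ((Module.finrank ℚ K : ℝ)⁻¹) with hc
  have hc0 : 0 < c := Real.rpow_pos_of_pos (by norm_num) _
  have hcn : c ^ (Module.finrank ℚ K) = 5 / 8 := by
    rw [hc, ← Real.rpow_natCast, ← Real.rpow_mul (by norm_num),
      inv_mul_cancel₀ (by exact_mod_cast hn.ne'), Real.rpow_one]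
  have h1 : fK K (c • (1 : mixedSpace K)) ≠ 0 := by
    have h2 : mixedEmbedding.norm (c • (1 : mixedSpace K)) = 5 / 8 := by
      rw [mixedEmbedding.norm_smul, map_one, mul_one, abs_of_pos hc0, hcn]
    have h3 : psiK K (c • (1 : mixedSpace K)) = 1 := by
      unfold psiK
      refine Finset.prod_eq_one fun i _ => ?_
      unfold tK
      rw [logMap_real, map_zero, Finsupp.zero_apply, tau1_at_zero]
    unfold fK
    rw [h2, h3, bF_eq_one _ (by norm_num) (by norm_num)]
    norm_num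
  exact (fK_contDiff K).continuous.integral_pos_of_hasCompactSupport_nonneg_nonzero (A3_cpt K)
    (fun v => fK_nonneg K v) h1

end Pool.Agent.MPca71X
end

section
set_option autoImplicit false
open scoped NumberField
open NumberField NumberField.mixedEmbedding NumberField.Units MeasureTheory
  NumberField.Units.dirichletUnitTheorem

/-! Job A5 (medium). Unfolding: sums over ideals and sums over elements. -/

namespace Pool.Agent.MPca71X

variable (K : Type) [Field K] [NumberField K]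

/-- Finitely many nonzero terms: the elements of `𝓞 K` in a bounded set are finitely many
(`lattice_finite` for `mixedEmbedding.integerLattice K`, or `NumberField.mixedEmbedding` API). -/
theorem elt_finite (T : ℝ) (hT : 0 < T) :
    {u : 𝓞 K | fK K (T⁻¹ • mixedEmbedding K (u : K)) ≠ 0}.Finite := by
  classical
  obtain ⟨R, hR⟩ := fK_bdd K
  have hfin := Embeddings.finite_of_norm_le K ℂ (T * R)
  refine Set.Finite.subset (hfin.preimage (f := fun u : 𝓞 K => (u : K)) ?_) ?_
  · exact fun a _ b _ h => RingOfIntegers.ext h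
  · intro u hu
    rw [Set.mem_ofPred_eq] at hu
    refine ⟨RingOfIntegers.isIntegral_coe u, fun φ => ?_⟩
    have h1 : ‖T⁻¹ • mixedEmbedding K (u : K)‖ ≤ R := by
      by_contra hc
      exact hu (hR _ (not_le.1 hc))
    have h2 : normAtPlace (InfinitePlace.mk φ) (T⁻¹ • mixedEmbedding K (u : K)) ≤
        ‖T⁻¹ • mixedEmbedding K (u : K)‖ := by
      rw [norm_eq_sup'_normAtPlace]
      exact Finset.le_sup' (f := fun w => normAtPlace w (T⁻¹ • mixedEmbedding K (u : K)))
        (Finset.mem_univ _)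
    rw [normAtPlace_smul, normAtPlace_apply, InfinitePlace.apply, abs_of_pos (inv_pos.2 hT)] at h2
    have h3 := h2.trans h1
    rwa [inv_mul_le_iff₀ hT] at h3

private abbrev AI (I : Ideal (𝓞 K)) : Type :=
  {a : Ideal (𝓞 K) // a ≠ ⊥ ∧ Submodule.IsPrincipal (a * I)}

omit [NumberField K] in
private theorem g_ne_zero (I : Ideal (𝓞 K)) (hI : I ≠ ⊥) (g : AI K I → 𝓞 K)
    (hg : ∀ a, Ideal.span {g a} = a.1 * I) (a : AI K I) : g a ≠ 0 := by
  intro h0
  have h1 := hg a
  rw [h0, Ideal.span_singleton_eq_bot.2 rfl] at h1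
  rcases mul_eq_zero.1 h1.symm with h2 | h2
  · exact a.2.1 h2
  · exact hI h2

omit [NumberField K] in
private theorem g_mem (I : Ideal (𝓞 K)) (g : AI K I → 𝓞 K)
    (hg : ∀ a, Ideal.span {g a} = a.1 * I) (a : AI K I) : g a ∈ I := by
  have h1 : g a ∈ a.1 * I := by
    rw [← hg a]
    exact Ideal.mem_span_singleton_self _
  exact Ideal.mul_le_right h1

private theorem pair_inj (I : Ideal (𝓞 K)) (hI : I ≠ ⊥) (g : AI K I → 𝓞 K)
    (hg : ∀ a, Ideal.span {g a} = a.1 * I) (a b : AI K I) (ε δ : (𝓞 K)ˣ)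
    (h1 : (ε : 𝓞 K) * g a = (δ : 𝓞 K) * g b) : (a, ε) = (b, δ) := by
  have h2 : a.1 * I = b.1 * I := by
    rw [← hg a, ← hg b, Ideal.span_singleton_eq_span_singleton]
    have h3 : Associated ((ε : 𝓞 K) * g a) (g a) :=
      associated_unit_mul_left _ _ ε.isUnit
    have h4 : Associated ((δ : 𝓞 K) * g b) (g b) :=
      associated_unit_mul_left _ _ δ.isUnit
    rw [h1] at h3
    exact h3.symm.trans h4
  have h5 : a = b := Subtype.ext (mul_right_cancel₀ hI h2)
  subst h5
  have h6 : (ε : 𝓞 K) = δ := mul_right_cancel₀ (g_ne_zero K I hI g hg a) h1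
  rw [Units.ext h6]

private theorem pair_surj (I : Ideal (𝓞 K)) (g : AI K I → 𝓞 K)
    (hg : ∀ a, Ideal.span {g a} = a.1 * I) (u : 𝓞 K) (hu : u ∈ I) (hu0 : u ≠ 0) :
    ∃ (a : AI K I) (ε : (𝓞 K)ˣ), (ε : 𝓞 K) * g a = u := by
  have hdvd : I ∣ Ideal.span {u} := by
    rw [Ideal.dvd_span_singleton]
    exact hu
  obtain ⟨a, ha⟩ := hdvd
  rw [mul_comm] at ha
  have ha0 : a ≠ ⊥ := by
    rintro rfl
    rw [Ideal.bot_mul, Ideal.span_singleton_eq_bot] at ha
    exact hu0 ha
  have hp : Submodule.IsPrincipal (a * I) := ⟨⟨u, ha.symm⟩⟩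
  have h1 : Ideal.span {g ⟨a, ha0, hp⟩} = Ideal.span {u} := by
    rw [hg, ha]
  rw [Ideal.span_singleton_eq_span_singleton] at h1
  obtain ⟨ε, hε⟩ := h1
  refine ⟨⟨a, ha0, hp⟩, ε, ?_⟩
  rw [mul_comm]
  exact hε

private theorem norm_g (I : Ideal (𝓞 K)) (x : 𝓞 K) (J : Ideal (𝓞 K))
    (hx : Ideal.span {x} = J * I) : mixedEmbedding.norm (mixedEmbedding K (x : K)) =
      (Ideal.absNorm J : ℝ) * (Ideal.absNorm I : ℝ) := by
  rw [norm_eq_norm, ← Nat.cast_mul, ← map_mul, ← hx, Ideal.absNorm_span_singleton,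
    Nat.cast_natAbs, ← Algebra.coe_norm_int]
  push_cast
  rfl

private theorem norm_g_ne (x : 𝓞 K) (hx : x ≠ 0) :
    mixedEmbedding.norm (mixedEmbedding K (x : K)) ≠ 0 := by
  rw [norm_eq_norm]
  have h1 : (x : K) ≠ 0 := by
    intro h0
    exact hx (RingOfIntegers.ext (by rw [h0]; rfl))
  have h2 : Algebra.norm ℚ (x : K) ≠ 0 := Algebra.norm_ne_zero_iff.2 h1
  rw [Rat.cast_abs, abs_ne_zero]
  exact Rat.cast_ne_zero.2 h2

private theorem fK_unit (v : mixedSpace K) (hv : mixedEmbedding.norm v ≠ 0) (ε : (𝓞 K)ˣ)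
    (T : ℝ) (hT : 0 < T) : fK K (T⁻¹ • (ε • v)) =
      bF (mixedEmbedding.norm v / T ^ Module.finrank ℚ K) * psiK K (ε • v) := by
  have h2 : mixedEmbedding.norm (ε • v) ≠ 0 := by
    rw [norm_unit_smul]
    exact hv
  unfold fK
  rw [psiK_smul K _ h2 _ (inv_ne_zero hT.ne'), mixedEmbedding.norm_smul, norm_unit_smul,
    abs_of_pos (inv_pos.2 hT), inv_pow, inv_mul_eq_div]

private theorem emb_unit (ε : (𝓞 K)ˣ) (x : 𝓞 K) :
    mixedEmbedding K (((ε : 𝓞 K) * x : 𝓞 K) : K) = ε • mixedEmbedding K (x : K) :=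
  (unit_smul_eq_iff_mul_eq.2 rfl).symm

private theorem step_a (I : Ideal (𝓞 K)) (J : Ideal (𝓞 K)) (h : 𝓞 K → ℂ)
    (hh : ∀ (ε : (𝓞 K)ˣ) (x : 𝓞 K), h (ε * x) = h x) (x : 𝓞 K) (hx0 : x ≠ 0)
    (hx : Ideal.span {x} = J * I) (T : ℝ) (hT : 0 < T) :
    ∑' ε : (𝓞 K)ˣ, h ((ε : 𝓞 K) * x) *
      ((fK K (T⁻¹ • mixedEmbedding K (((ε : 𝓞 K) * x : 𝓞 K) : K)) : ℝ) : ℂ) =
    (torsionOrder K : ℂ) * (h x * ((bF ((Ideal.absNorm J : ℝ) * (Ideal.absNorm I : ℝ) /
            T ^ Module.finrank ℚ K) : ℝ) : ℂ)) := by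
  have hterm : ∀ ε : (𝓞 K)ˣ, h ((ε : 𝓞 K) * x) *
      ((fK K (T⁻¹ • mixedEmbedding K (((ε : 𝓞 K) * x : 𝓞 K) : K)) : ℝ) : ℂ) =
      h x * ((bF ((Ideal.absNorm J : ℝ) * (Ideal.absNorm I : ℝ) /
            T ^ Module.finrank ℚ K) : ℝ) : ℂ) *
          ((psiK K (ε • mixedEmbedding K (x : K)) : ℝ) : ℂ) := by
    intro ε
    rw [hh, emb_unit, fK_unit K _ (norm_g_ne K x hx0) ε T hT, norm_g K I x J hx,
      Complex.ofReal_mul, mul_assoc]
  have hs := psiK_unit_hasSum K (mixedEmbedding K (x : K)) (norm_g_ne K x hx0)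
  have hs' : HasSum (fun ε : (𝓞 K)ˣ => ((psiK K (ε • mixedEmbedding K (x : K)) : ℝ) : ℂ))
      ((torsionOrder K : ℝ) : ℂ) := Complex.hasSum_ofReal.2 hs
  have hs2 := hs'.mul_left (h x * ((bF ((Ideal.absNorm J : ℝ) *
    (Ideal.absNorm I : ℝ) / T ^ Module.finrank ℚ K) : ℝ) : ℂ))
  rw [tsum_congr hterm, hs2.tsum_eq, mul_comm, Complex.ofReal_natCast]

/-- Let `I` be a nonzero ideal, `h` a function on `𝓞 K` invariant under units, `g a` a generator
of the ideal `a * I` for every nonzero ideal `a` with `a * I` principal. Group the nonzero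
`u ∈ I` according to the ideal `a` with `(u) = a * I` (`Ideal.dvd_iff_le`); those with the same
`a` are the `ε * g a`, `ε` a unit, each once; `fK` at `T⁻¹ • (ε • v)` is
`bF (norm v / T^n) * psiK (ε • v)` (`norm_unit_smul`, `psiK_smul`, the norm is homogeneous of
degree `n`), and the sum over `ε` is `w * bF (...)` by `psiK_unit_hasSum`; finally
`norm (mixedEmbedding (g a)) = |N(g a)| = absNorm (a * I) = absNorm a * absNorm I`. The element
`u = 0` contributes `0`. All sums have only finitely many nonzero terms (`elt_finite`). -/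
theorem unfold_sum (I : Ideal (𝓞 K)) (hI : I ≠ ⊥) (h : 𝓞 K → ℂ)
    (hh : ∀ (ε : (𝓞 K)ˣ) (x : 𝓞 K), h (ε * x) = h x)
    (g : {a : Ideal (𝓞 K) // a ≠ ⊥ ∧ Submodule.IsPrincipal (a * I)} → 𝓞 K)
    (hg : ∀ a, Ideal.span {g a} = a.1 * I) (T : ℝ) (hT : 0 < T) :
    ∑' u : I, h (u : 𝓞 K) * ((fK K (T⁻¹ • mixedEmbedding K ((u : 𝓞 K) : K)) : ℝ) : ℂ) =
      (torsionOrder K : ℂ) *
        ∑' a : {a : Ideal (𝓞 K) // a ≠ ⊥ ∧ Submodule.IsPrincipal (a * I)},
          h (g a) * ((bF ((Ideal.absNorm a.1 : ℝ) * (Ideal.absNorm I : ℝ) /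
            T ^ Module.finrank ℚ K) : ℝ) : ℂ) := by
  set F : 𝓞 K → ℂ := fun u =>
    h u * ((fK K (T⁻¹ • mixedEmbedding K (u : K)) : ℝ) : ℂ) with hF
  have hFin : (Function.support F).Finite := by
    refine (elt_finite K T hT).subset ?_
    intro u hu
    rw [Function.mem_support] at hu
    rw [Set.mem_ofPred_eq]
    intro h0
    apply hu
    simp only [hF, h0, Complex.ofReal_zero, mul_zero]
  let ι : AI K I × (𝓞 K)ˣ → I := fun q =>
    ⟨(q.2 : 𝓞 K) * g q.1, Ideal.mul_mem_left _ _ (g_mem K I g hg q.1)⟩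
  have hι : Function.Injective ι := by
    rintro ⟨a, ε⟩ ⟨b, δ⟩ hab
    exact pair_inj K I hI g hg a b ε δ (congrArg Subtype.val hab)
  have hsupp : Function.support (fun u : I => F u) ⊆ Set.range ι := by
    intro u hu
    rw [Function.mem_support] at hu
    have hu0 : (u : 𝓞 K) ≠ 0 := by
      intro h0
      apply hu
      have h1 : fK K 0 = 0 := by
        unfold fK
        rw [map_zero, bF_zero_of_le 0 (by norm_num), zero_mul]
      simp only [hF, h0, map_zero, smul_zero, h1, Complex.ofReal_zero, mul_zero]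
    obtain ⟨a, ε, hε⟩ := pair_surj K I g hg u u.2 hu0
    exact ⟨(a, ε), Subtype.ext hε⟩
  have hsum : Summable (fun q : AI K I × (𝓞 K)ˣ => F (ι q)) := by
    apply summable_of_hasFiniteSupport
    have h1 : Function.support (fun q : AI K I × (𝓞 K)ˣ => F (ι q)) =
        (fun q : AI K I × (𝓞 K)ˣ => ((ι q : I) : 𝓞 K)) ⁻¹' Function.support F := rfl
    change (Function.support (fun q : AI K I × (𝓞 K)ˣ => F (ι q))).Finite
    rw [h1]
    refine hFin.preimage ?_
    exact fun q _ q' _ hq => hι (Subtype.ext hq)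
  have step1 : ∑' u : I, F u = ∑' q : AI K I × (𝓞 K)ˣ, F (ι q) :=
    (hι.tsum_eq hsupp).symm
  have step2 : ∑' q : AI K I × (𝓞 K)ˣ, F (ι q) =
      ∑' a : AI K I, ∑' ε : (𝓞 K)ˣ, F (ι (a, ε)) :=
    hsum.tsum_prod
  have step3 : ∀ a : AI K I, ∑' ε : (𝓞 K)ˣ, F (ι (a, ε)) = (torsionOrder K : ℂ) *
      (h (g a) * ((bF ((Ideal.absNorm a.1 : ℝ) * (Ideal.absNorm I : ℝ) /
            T ^ Module.finrank ℚ K) : ℝ) : ℂ)) := fun a =>
    step_a K I a.1 h hh (g a) (g_ne_zero K I hI g hg a) (hg a) T hT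
  rw [step1, step2, tsum_congr step3, tsum_mul_left]

end Pool.Agent.MPca71X
end

section
set_option autoImplicit false
open scoped NumberField
open NumberField NumberField.mixedEmbedding NumberField.Units MeasureTheory
  NumberField.Units.dirichletUnitTheorem

/-! Job A6a (medium). The sum over a coset. -/

namespace Pool.Agent.MPca71X

variable (K : Type) [Field K] [NumberField K]

/-- Job A6a. The sum over one coset. `I` is prime to `m`, `u0 ∈ I`. The elements `u ∈ I` with
`u - u0 ∈ m` are `u0 + z`, `z ∈ I ⊓ m = I * m`; `lattice_sum` for the lattice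
`idealLattice K (FractionalIdeal.mk0 K (I * m))`, whose covolume is
`absNorm I * absNorm m * covol0` with `covol0 = (2⁻¹) ^ nrComplexPlaces * √|discr|`
(`covolume_idealLattice`). Here the finrank of `mixedSpace K` over `ℝ` is `[K : ℚ]`. -/
theorem coset_sum : ∃ c0 : ℝ, 0 < c0 ∧ ∀ (m I : Ideal (𝓞 K)), m ≠ ⊥ → I ≠ ⊥ → IsCoprime I m →
    ∀ u0 : 𝓞 K, u0 ∈ I → ∃ B : ℝ, ∀ T : ℝ, 1 ≤ T →
      |∑' u : {u : 𝓞 K // u ∈ I ∧ u - u0 ∈ m}, fK K (T⁻¹ • mixedEmbedding K ((u : 𝓞 K) : K)) -
        c0 * T ^ Module.finrank ℚ K / ((Ideal.absNorm I : ℝ) * (Ideal.absNorm m : ℝ))| ≤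
        B * T ^ Module.finrank ℚ K / T := by
  classical
  obtain ⟨C, hC⟩ := fK_lipschitz K
  obtain ⟨R, hR⟩ := fK_bdd K
  have hint := fK_integral_pos K
  obtain ⟨c, hc⟩ : ∃ c : ℝ, c = (2⁻¹ : ℝ) ^ InfinitePlace.nrComplexPlaces K *
      √|(discr K : ℝ)| := ⟨_, rfl⟩
  have hc0 : 0 < c := by
    rw [hc]
    have h0 : (discr K : ℝ) ≠ 0 := by exact_mod_cast discr_ne_zero K
    have h1 : 0 < |(discr K : ℝ)| := abs_pos.2 h0
    exact mul_pos (by positivity) (Real.sqrt_pos.2 h1)
  refine ⟨(∫ v, fK K v) / c, div_pos hint hc0, fun m I hm hI hcop u0 hu0 => ?_⟩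
  have hmI : I * m ∈ nonZeroDivisors (Ideal (𝓞 K)) :=
    mem_nonZeroDivisors_iff_ne_zero.2 (mul_ne_zero hI hm)
  obtain ⟨J, hJ⟩ : ∃ J, J = FractionalIdeal.mk0 K ⟨I * m, hmI⟩ := ⟨_, rfl⟩
  have hJm : ∀ y : K, y ∈ (J : FractionalIdeal (nonZeroDivisors (𝓞 K)) K) ↔
      ∃ z ∈ I * m, algebraMap (𝓞 K) K z = y := by
    intro y
    rw [hJ, FractionalIdeal.coe_mk0, FractionalIdeal.mem_coeIdeal]
  obtain ⟨B, hB⟩ := lattice_sum (volume : Measure (mixedSpace K)) (idealLattice K J) (fK K) C hC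
    R hR (mixedEmbedding K (u0 : K))
  refine ⟨B, fun T hT => ?_⟩
  have h1 := hB T hT
  have hinf : I ⊓ m = I * m := (Ideal.mul_eq_inf_of_isCoprime hcop).symm
  have hbij : Function.Bijective (fun u : {u : 𝓞 K // u ∈ I ∧ u - u0 ∈ m} =>
      (⟨mixedEmbedding K ((u.1 - u0 : 𝓞 K) : K), by
        rw [mem_idealLattice]
        refine ⟨((u.1 - u0 : 𝓞 K) : K), ?_, rfl⟩
        refine (hJm _).2 ⟨u.1 - u0, ?_, rfl⟩
        rw [← hinf]
        exact ⟨I.sub_mem u.2.1 hu0, u.2.2⟩⟩ : idealLattice K J)) := by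
    constructor
    · rintro ⟨u, hu⟩ ⟨v, hv⟩ h
      have h3 := congrArg Subtype.val h
      have h4 : ((u - u0 : 𝓞 K) : K) = ((v - u0 : 𝓞 K) : K) := (mixedEmbedding_injective K) h3
      have h5 : u - u0 = v - u0 := RingOfIntegers.coe_injective h4
      exact Subtype.ext (sub_left_injective h5)
    · rintro ⟨y, hy⟩
      obtain ⟨z, hz, hzy⟩ := (mem_idealLattice K J).1 hy
      obtain ⟨w, hw, rfl⟩ := (hJm z).1 hz
      rw [← hinf] at hw
      refine ⟨⟨w + u0, I.add_mem hw.1 hu0, ?_⟩, ?_⟩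
      · rw [add_sub_cancel_right]
        exact hw.2
      · apply Subtype.ext
        show mixedEmbedding K ((w + u0 - u0 : 𝓞 K) : K) = y
        rw [add_sub_cancel_right]
        exact hzy
  have h2 : ∑' u : {u : 𝓞 K // u ∈ I ∧ u - u0 ∈ m},
      fK K (T⁻¹ • mixedEmbedding K ((u : 𝓞 K) : K)) =
      ∑' v : idealLattice K J, fK K (T⁻¹ • ((v : mixedSpace K) + mixedEmbedding K (u0 : K))) := by
    rw [← (Equiv.ofBijective _ hbij).tsum_eq]
    refine tsum_congr fun u => ?_
    congr 2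
    show mixedEmbedding K ((u : 𝓞 K) : K) =
      mixedEmbedding K ((u.1 - u0 : 𝓞 K) : K) + mixedEmbedding K (u0 : K)
    rw [← map_add]
    congr 1
    push_cast
    ring
  have hnorm : ((FractionalIdeal.absNorm (J : FractionalIdeal (nonZeroDivisors (𝓞 K)) K) : ℚ) : ℝ) =
      (Ideal.absNorm I : ℝ) * (Ideal.absNorm m : ℝ) := by
    rw [hJ, FractionalIdeal.coe_mk0, FractionalIdeal.coeIdeal_absNorm, map_mul]
    push_cast
    rfl
  rw [h2]
  rw [mixedEmbedding.finrank, mixedEmbedding.covolume_idealLattice, hnorm, mul_assoc (_ * _), ← hc] at h1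
  have h3 : (∫ v, fK K v) / c * T ^ Module.finrank ℚ K /
      ((Ideal.absNorm I : ℝ) * (Ideal.absNorm m : ℝ)) =
      T ^ Module.finrank ℚ K * (∫ v, fK K v) /
      ((Ideal.absNorm I : ℝ) * (Ideal.absNorm m : ℝ) * c) := by
    rw [div_mul_eq_mul_div, div_div]
    congr 1
    · ring
    · ring
  rw [h3]
  exact h1

end Pool.Agent.MPca71X
end
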