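import Pool.Agent.Lib.MP_ca71b5_ntX.G0
import Pool.Agent.Lib.MP_ca71b5_ntX.A1

section
set_option autoImplicit false
open MeasureTheory

/-! Definitions for the abstract theorem on primes in classes (paper 286, 7.3 - 7.6): `Q` is the
set of primes, `Q →₀ ℕ` the free commutative monoid on it, `N` the norm of the primes, `cl` the
class of the primes in a finite abelian group `A`. -/

namespace Pool.Agent.MPca71X

/-- The norm on the free commutative monoid. -/
noncomputable def nmF {Q : Type} (N : Q → ℕ) (f : Q →₀ ℕ) : ℕ := f.prod (fun q k => N q ^ k)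

/-- The class on the free commutative monoid. -/
noncomputable def clF {Q A : Type} [AddCommGroup A] (cl : Q → A) (f : Q →₀ ℕ) : A :=
  f.sum (fun q k => k • cl q)

/-- The Dirichlet series of a character (real argument `s`). -/
noncomputable def Zf {Q A : Type} [AddCommGroup A] (N : Q → ℕ) (cl : Q → A) (χ : AddChar A ℂ)
    (s : ℝ) : ℂ :=
  ∑' f : Q →₀ ℕ, χ (clF cl f) * (((nmF N f : ℝ) ^ (-s) : ℝ) : ℂ)

/-- The smoothed summatory function. -/
noncomputable def Af {Q A : Type} [AddCommGroup A] (N : Q → ℕ) (cl : Q → A) (χ : AddChar A ℂ)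
    (x : ℝ) : ℂ :=
  ∑' f : Q →₀ ℕ, χ (clF cl f) * ((bF ((nmF N f : ℝ) / x) : ℝ) : ℂ)

/-- The Mellin transform of `bF`. -/
noncomputable def mF (s : ℝ) : ℝ := ∫ y in Set.Ioc (0 : ℝ) 1, bF y * y ^ (s - 1)

/-- The real part of the sum over the primes. -/
noncomputable def PR {Q A : Type} [AddCommGroup A] (N : Q → ℕ) (cl : Q → A) (χ : AddChar A ℂ)
    (s : ℝ) : ℝ :=
  ∑' q : Q, (χ (cl q)).re * (N q : ℝ) ^ (-s)

open scoped Classical in
/-- The hypothesis: norms at least `2`, finitely many elements of bounded norm, and smoothed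
asymptotic counting with a power saving error term. -/
structure ASys {Q A : Type} [AddCommGroup A] (N : Q → ℕ) (cl : Q → A) (θ κ C : ℝ) : Prop where
  two : ∀ q, 2 ≤ N q
  fin : ∀ x : ℕ, {f : Q →₀ ℕ | nmF N f ≤ x}.Finite
  theta_pos : 0 ≤ θ
  theta_lt : θ < 1
  kappa_pos : 0 < κ
  count : ∀ (χ : AddChar A ℂ) (x : ℝ), 1 ≤ x →
    ‖Af N cl χ x - (if χ = 0 then ((κ * x : ℝ) : ℂ) else 0)‖ ≤ C * x ^ θ

end Pool.Agent.MPca71X
end

section
set_option autoImplicit false
open MeasureTheory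

/-! Job B1a (medium): summability. -/

namespace Pool.Agent.MPca71X

variable {Q A : Type} [AddCommGroup A] [Finite A] {N : Q → ℕ} {cl : Q → A} {θ κ C : ℝ}

theorem nmF_pos (hS : ASys N cl θ κ C) (f : Q →₀ ℕ) : 1 ≤ nmF N f := by
  unfold nmF Finsupp.prod
  exact Nat.one_le_iff_ne_zero.2 (Finset.prod_ne_zero_iff.2 fun q _ =>
    pow_ne_zero _ (by have := hS.two q; omega))

/-- The set of primes is countable (finitely many of norm `≤ x` for every `x`: use
`Finsupp.single q 1`). -/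
theorem Q_countable (hS : ASys N cl θ κ C) : Countable Q := by
  have hn : ∀ q, nmF N (Finsupp.single q 1) = N q := by
    intro q
    unfold nmF
    rw [Finsupp.prod_single_index] <;> simp
  have h1 : ∀ x : ℕ, {q | N q ≤ x}.Finite := by
    intro x
    have h2 := hS.fin x
    refine Set.Finite.of_finite_image (f := fun q => (Finsupp.single q 1 : Q →₀ ℕ))
      (h2.subset ?_) ?_
    · rintro _ ⟨q, hq, rfl⟩
      show nmF N (Finsupp.single q 1) ≤ x
      rw [hn]
      exact hq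
    · intro q _ q' _ h
      exact (Finsupp.single_left_injective one_ne_zero) h
  have h2 : (Set.univ : Set Q) = ⋃ x : ℕ, {q | N q ≤ x} := by
    ext q
    simp only [Set.mem_univ, Set.mem_iUnion, true_iff]
    exact ⟨N q, le_refl (N q)⟩
  rw [← Set.countable_univ_iff, h2]
  exact Set.countable_iUnion fun x => (h1 x).countable

private theorem B1a_supp (hS : ASys N cl θ κ C) (x : ℝ) (hx : 0 < x) :
    {f : Q →₀ ℕ | bF ((nmF N f : ℝ) / x) ≠ 0}.Finite := by
  refine (hS.fin ⌈x⌉₊).subset fun f hf => ?_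
  by_contra hcon
  apply hf
  apply bF_zero_of_ge
  rw [one_le_div hx]
  have h1 : ⌈x⌉₊ < nmF N f := by
    simpa using hcon
  have h2 : (⌈x⌉₊ : ℝ) < (nmF N f : ℝ) := by exact_mod_cast h1
  exact (Nat.le_ceil x).trans h2.le

private theorem B1a_count (hS : ASys N cl θ κ C) (x : ℝ) (hx : 1 ≤ x) (T : Finset (Q →₀ ℕ))
    (hT : ∀ f ∈ T, x / 2 ≤ (nmF N f : ℝ) ∧ (nmF N f : ℝ) ≤ 3 * x / 4) :
    (T.card : ℝ) ≤ (κ + |C|) * x := by
  have hx0 : 0 < x := by linarith
  have hsum : Summable fun f : Q →₀ ℕ => bF ((nmF N f : ℝ) / x) :=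
    summable_of_hasFiniteSupport (B1a_supp hS x hx0)
  have h1 := hS.count 0 x hx
  have h2 : Af N cl (0 : AddChar A ℂ) x = ((∑' f : Q →₀ ℕ, bF ((nmF N f : ℝ) / x) : ℝ) : ℂ) := by
    unfold Af
    rw [Complex.ofReal_tsum]
    refine tsum_congr fun f => ?_
    rw [AddChar.zero_apply, one_mul]
  rw [if_pos rfl, h2, ← Complex.ofReal_sub, Complex.norm_real, Real.norm_eq_abs] at h1
  have h3 : (∑' f : Q →₀ ℕ, bF ((nmF N f : ℝ) / x)) - κ * x ≤ C * x ^ θ :=
    (le_abs_self _).trans h1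
  have h4 : (T.card : ℝ) ≤ ∑' f : Q →₀ ℕ, bF ((nmF N f : ℝ) / x) := by
    have h5 : ∑ f ∈ T, bF ((nmF N f : ℝ) / x) = T.card := by
      rw [Finset.sum_congr rfl (g := fun _ => (1 : ℝ))]
      · simp
      · intro f hf
        obtain ⟨ha, hb⟩ := hT f hf
        apply bF_eq_one
        · rw [le_div_iff₀ hx0]
          linarith
        · rw [div_le_iff₀ hx0]
          linarith
    rw [← h5]
    exact hsum.sum_le_tsum T fun f _ => bF_nonneg _
  have h5 : C * x ^ θ ≤ |C| * x := by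
    have h6 : x ^ θ ≤ x := by
      calc x ^ θ ≤ x ^ (1 : ℝ) := Real.rpow_le_rpow_of_exponent_le hx hS.theta_lt.le
        _ = x := Real.rpow_one x
    calc C * x ^ θ ≤ |C| * x ^ θ :=
          mul_le_mul_of_nonneg_right (le_abs_self C) (Real.rpow_nonneg hx0.le _)
      _ ≤ |C| * x := mul_le_mul_of_nonneg_left h6 (abs_nonneg C)
  linarith

/-- For `χ = 0` the sum `Af N cl 0 x` is a sum of nonnegative terms and is `≤ C' x` for `x ≥ 1`,
and every `f` with `x/2 ≤ nmF f ≤ 3x/4` contributes `1` (`bF_eq_one`). So there are at most `C' x`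
such `f`; cover `[1, ∞)` by the intervals `[(3/2)^j, (3/2)^(j+1)]` (`x = 2 (3/2)^j`):
`∑ nmF^(-s) ≤ ∑_j 2 C' (3/2)^j (3/2)^(-j s) < ∞`. (Alternatively: Tonelli in the Mellin
identity.) -/
theorem zeta_summable (hS : ASys N cl θ κ C) (s : ℝ) (hs : 1 < s) :
    Summable (fun f : Q →₀ ℕ => (nmF N f : ℝ) ^ (-s)) := by
  classical
  have hpos : ∀ f, (1 : ℝ) ≤ nmF N f := fun f => by exact_mod_cast nmF_pos hS f
  have hJ : ∀ f : Q →₀ ℕ, ∃ j : ℕ, (3 / 2 : ℝ) ^ j ≤ nmF N f ∧
      (nmF N f : ℝ) < (3 / 2) ^ (j + 1) :=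
    fun f => exists_nat_pow_near (hpos f) (by norm_num)
  choose J hJ1 hJ2 using hJ
  have hD : 0 ≤ κ + |C| := add_nonneg hS.kappa_pos.le (abs_nonneg C)
  obtain ⟨ρ, hρ⟩ : ∃ ρ : ℝ, ρ = (3 / 2 : ℝ) ^ (1 - s) := ⟨_, rfl⟩
  have hρ0 : 0 < ρ := by rw [hρ]; exact Real.rpow_pos_of_pos (by norm_num) _
  have hρ1 : ρ < 1 := by
    rw [hρ]
    exact Real.rpow_lt_one_of_one_lt_of_neg (by norm_num) (by linarith)
  have hg : Summable fun j : ℕ => (κ + |C|) * 2 * ρ ^ j :=
    (summable_geometric_of_lt_one hρ0.le hρ1).mul_left _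
  refine summable_of_sum_le (c := ∑' j : ℕ, (κ + |C|) * 2 * ρ ^ j)
    (fun f => Real.rpow_nonneg (by positivity) _) fun T => ?_
  rw [← Finset.sum_fiberwise_of_maps_to (t := T.image J) (g := J)
    (fun f hf => Finset.mem_image_of_mem J hf)]
  refine le_trans (Finset.sum_le_sum (g := fun j => (κ + |C|) * 2 * ρ ^ j) ?_)
    (hg.sum_le_tsum _ fun j _ => by positivity)
  intro j _
  have hj0 : (0 : ℝ) < (3 / 2) ^ j := by positivity
  have hj1 : (1 : ℝ) ≤ (3 / 2) ^ j := one_le_pow₀ (by norm_num)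
  have h1 : ∀ f ∈ T.filter (fun f => J f = j),
      (nmF N f : ℝ) ^ (-s) ≤ ((3 / 2 : ℝ) ^ j) ^ (-s) := by
    intro f hf
    rw [Finset.mem_filter] at hf
    have h2 := hJ1 f
    rw [hf.2] at h2
    exact Real.rpow_le_rpow_of_nonpos hj0 h2 (by linarith)
  have h2 := B1a_count hS (2 * (3 / 2) ^ j) (by linarith) (T.filter (fun f => J f = j)) (by
    intro f hf
    rw [Finset.mem_filter] at hf
    have h2 := hJ1 f
    have h3 := hJ2 f
    rw [hf.2] at h2 h3
    rw [pow_succ] at h3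
    constructor
    · linarith
    · linarith)
  calc ∑ f ∈ T.filter (fun f => J f = j), (nmF N f : ℝ) ^ (-s)
      ≤ ∑ f ∈ T.filter (fun f => J f = j), ((3 / 2 : ℝ) ^ j) ^ (-s) := Finset.sum_le_sum h1
    _ = ((T.filter (fun f => J f = j)).card : ℝ) * ((3 / 2 : ℝ) ^ j) ^ (-s) := by
        rw [Finset.sum_const, nsmul_eq_mul]
    _ ≤ ((κ + |C|) * (2 * (3 / 2) ^ j)) * ((3 / 2 : ℝ) ^ j) ^ (-s) :=
        mul_le_mul_of_nonneg_right h2 (Real.rpow_nonneg hj0.le _)
    _ = (κ + |C|) * 2 * ρ ^ j := by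
        have h3 : ρ ^ j = (3 / 2 : ℝ) ^ j * ((3 / 2 : ℝ) ^ j) ^ (-s) := by
          rw [hρ, ← Real.rpow_natCast, ← Real.rpow_natCast, ← Real.rpow_mul (by norm_num),
            ← Real.rpow_mul (by norm_num), ← Real.rpow_add (by norm_num)]
          congr 1
          ring
        rw [h3]
        ring

end Pool.Agent.MPca71X
end

section

section
set_option autoImplicit false
open scoped NumberField
open NumberField IsDedekindDomain

/-! Definitions: the group of ideals prime to `m` modulo the principal ideals `(x)`,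
`x = 1 mod m`, and modulo `p`-th powers. -/

namespace Pool.Agent.MPca71X

/-- `cl` maps the ideals prime to `m` onto the finite group `A` killed by `p`; the classes are
those of the relation `(x) a c^p = (y) b d^p`, `x, y = 1 mod m`. -/
structure ClPack {R : Type} [CommRing R] (m : Ideal R) (p : ℕ) {A : Type} [AddCommGroup A]
    (cl : Ideal R → A) : Prop where
  mul : ∀ a b, Cop m a → Cop m b → cl (a * b) = cl a + cl b
  surj : ∀ x : A, ∃ a, Cop m a ∧ cl a = x
  tors : ∀ x : A, p • x = 0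
  one : ∀ x : R, x ≠ 0 → x - 1 ∈ m → cl (Ideal.span {x}) = 0
  rel : ∀ a b, Cop m a → Cop m b → cl a = cl b → ∃ (x y : R) (c d : Ideal R), x ≠ 0 ∧ y ≠ 0 ∧
    x - 1 ∈ m ∧ y - 1 ∈ m ∧ c ≠ ⊥ ∧ d ≠ ⊥ ∧
    Ideal.span {x} * a * c ^ p = Ideal.span {y} * b * d ^ p

variable (K : Type) [Field K] [NumberField K]

/-- The primes not dividing `m`. -/
def Qm (m : Ideal (𝓞 K)) : Type := {v : HeightOneSpectrum (𝓞 K) // ¬ m ≤ v.asIdeal}

end Pool.Agent.MPca71X
end

section
set_option autoImplicit false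
open scoped NumberField
open NumberField IsDedekindDomain
set_option linter.unusedSectionVars false

/-! Job A7a (medium). The class group. -/

namespace Pool.Agent.MPca71X

variable (K : Type) [Field K] [NumberField K]

/-- Job A7a. Every ideal class contains an ideal prime to `m`: for `a ≠ 0` there are `x ≠ 0` and
`b` prime to `m` with `(x) = a * b` (`IsDedekindDomain.exists_sup_span_eq` with `I = a * m ≤ a`:
`a * m ⊔ (x) = a`, so `(x) = a b` with `m ⊔ b = 1`; take `x ≠ 0`, e.g. if `m = 1` any nonzero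
`x ∈ a`). -/
theorem exists_cop (m : Ideal (𝓞 K)) (hm : m ≠ ⊥) (a : Ideal (𝓞 K)) (ha : a ≠ ⊥) :
    ∃ (x : 𝓞 K) (b : Ideal (𝓞 K)), x ≠ 0 ∧ Cop m b ∧ Ideal.span {x} = a * b := by
  have ha' : a ≠ 0 := ha
  have hm' : m ≠ 0 := hm
  obtain ⟨x, hx⟩ := IsDedekindDomain.exists_sup_span_eq (I := a * m) (J := a) Ideal.mul_le_left
    (mul_ne_zero ha' hm')
  by_cases hx0 : x = 0
  · -- `m = 1`
    rw [hx0, Ideal.span_singleton_eq_bot.2 rfl, sup_bot_eq] at hx
    have hm1 : m = 1 := by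
      apply mul_left_cancel₀ ha'
      rw [hx, mul_one]
    obtain ⟨y, hy, hy0⟩ := Submodule.exists_mem_ne_zero_of_ne_bot ha
    have hle : Ideal.span {y} ≤ a := (Ideal.span_singleton_le_iff_mem a).2 hy
    obtain ⟨b, hb⟩ := Ideal.dvd_iff_le.2 hle
    refine ⟨y, b, hy0, ⟨?_, ?_⟩, hb⟩
    · rintro rfl
      rw [Ideal.mul_bot, Ideal.span_singleton_eq_bot] at hb
      exact hy0 hb
    · rw [hm1]
      exact isCoprime_one_right
  · have hle : Ideal.span {x} ≤ a := by
      rw [← hx]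
      exact le_sup_right
    obtain ⟨b, hb⟩ := Ideal.dvd_iff_le.2 hle
    refine ⟨x, b, hx0, ⟨?_, ?_⟩, hb⟩
    · rintro rfl
      rw [Ideal.mul_bot, Ideal.span_singleton_eq_bot] at hb
      exact hx0 hb
    · rw [hb, ← Ideal.mul_sup] at hx
      have h1 : m ⊔ b = 1 := by
        apply mul_left_cancel₀ ha'
        rw [hx, mul_one]
      rw [Ideal.isCoprime_iff_sup_eq, sup_comm, h1]
      exact Ideal.one_eq_top

/-- the submonoid of the ideals prime to `m` -/
private def a7aS (m : Ideal (𝓞 K)) : Submonoid (Ideal (𝓞 K)) where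
  carrier := {a | Cop m a}
  one_mem' := ⟨by rw [Ideal.one_eq_top]; exact top_ne_bot, isCoprime_one_left⟩
  mul_mem' := fun {a b} ha hb =>
    ⟨mul_ne_zero (M₀ := Ideal (𝓞 K)) ha.1 hb.1, ha.2.mul_left hb.2⟩

/-- the relation -/
private def a7aR (m : Ideal (𝓞 K)) (p : ℕ) (a b : Ideal (𝓞 K)) : Prop :=
  ∃ (x y : 𝓞 K) (c d : Ideal (𝓞 K)), x ≠ 0 ∧ y ≠ 0 ∧
    x - 1 ∈ m ∧ y - 1 ∈ m ∧ c ≠ ⊥ ∧ d ≠ ⊥ ∧
    Ideal.span {x} * a * c ^ p = Ideal.span {y} * b * d ^ p

private theorem a7a_one_ne : (1 : Ideal (𝓞 K)) ≠ ⊥ := by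
  rw [Ideal.one_eq_top]; exact top_ne_bot

private theorem a7a_sub {m : Ideal (𝓞 K)} {x y : 𝓞 K} (hx : x - 1 ∈ m) (hy : y - 1 ∈ m) :
    x * y - 1 ∈ m := by
  have h1 : x * y - 1 = y * (x - 1) + (y - 1) := by ring
  rw [h1]
  exact m.add_mem (m.mul_mem_left _ hx) hy

private theorem a7a_refl (m : Ideal (𝓞 K)) (p : ℕ) (a : Ideal (𝓞 K)) : a7aR K m p a a :=
  ⟨1, 1, 1, 1, one_ne_zero, one_ne_zero, by simp, by simp, a7a_one_ne K,
    a7a_one_ne K, rfl⟩

private theorem a7a_symm {m : Ideal (𝓞 K)} {p : ℕ} {a b : Ideal (𝓞 K)} (h : a7aR K m p a b) :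
    a7aR K m p b a := by
  obtain ⟨x, y, c, d, h1, h2, h3, h4, h5, h6, h7⟩ := h
  exact ⟨y, x, d, c, h2, h1, h4, h3, h6, h5, h7.symm⟩

private theorem a7a_trans {m : Ideal (𝓞 K)} {p : ℕ} {a b e : Ideal (𝓞 K)} (hb : b ≠ ⊥)
    (h : a7aR K m p a b) (h' : a7aR K m p b e) : a7aR K m p a e := by
  obtain ⟨x, y, c, d, h1, h2, h3, h4, h5, h6, h7⟩ := h
  obtain ⟨x', y', c', d', h1', h2', h3', h4', h5', h6', h7'⟩ := h'
  refine ⟨x * x', y * y', c * c', d * d', mul_ne_zero h1 h1', mul_ne_zero h2 h2',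
    a7a_sub K h3 h3', a7a_sub K h4 h4', mul_ne_zero (M₀ := Ideal (𝓞 K)) h5 h5',
    mul_ne_zero (M₀ := Ideal (𝓞 K)) h6 h6', ?_⟩
  apply mul_left_cancel₀ (show b ≠ 0 from hb)
  rw [← Ideal.span_singleton_mul_span_singleton, ← Ideal.span_singleton_mul_span_singleton,
    mul_pow, mul_pow]
  calc b * (Ideal.span {x} * Ideal.span {x'} * a * (c ^ p * c' ^ p))
      = (Ideal.span {x} * a * c ^ p) * (Ideal.span {x'} * b * c' ^ p) := by ring
    _ = (Ideal.span {y} * b * d ^ p) * (Ideal.span {y'} * e * d' ^ p) := by rw [h7, h7']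
    _ = _ := by ring

private theorem a7a_mul {m : Ideal (𝓞 K)} {p : ℕ} {a b a' b' : Ideal (𝓞 K)}
    (h : a7aR K m p a b) (h' : a7aR K m p a' b') : a7aR K m p (a * a') (b * b') := by
  obtain ⟨x, y, c, d, h1, h2, h3, h4, h5, h6, h7⟩ := h
  obtain ⟨x', y', c', d', h1', h2', h3', h4', h5', h6', h7'⟩ := h'
  refine ⟨x * x', y * y', c * c', d * d', mul_ne_zero h1 h1', mul_ne_zero h2 h2',
    a7a_sub K h3 h3', a7a_sub K h4 h4', mul_ne_zero (M₀ := Ideal (𝓞 K)) h5 h5',
    mul_ne_zero (M₀ := Ideal (𝓞 K)) h6 h6', ?_⟩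
  rw [← Ideal.span_singleton_mul_span_singleton, ← Ideal.span_singleton_mul_span_singleton,
    mul_pow, mul_pow]
  calc Ideal.span {x} * Ideal.span {x'} * (a * a') * (c ^ p * c' ^ p)
      = (Ideal.span {x} * a * c ^ p) * (Ideal.span {x'} * a' * c' ^ p) := by ring
    _ = (Ideal.span {y} * b * d ^ p) * (Ideal.span {y'} * b' * d' ^ p) := by rw [h7, h7']
    _ = _ := by ring

private theorem a7a_pow {m : Ideal (𝓞 K)} {p : ℕ} {a : Ideal (𝓞 K)} (ha : a ≠ ⊥) :
    a7aR K m p (a ^ p) 1 :=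
  ⟨1, 1, 1, a, one_ne_zero, one_ne_zero, by simp, by simp, a7a_one_ne K, ha, by
    rw [one_pow, mul_one, mul_one]⟩

private theorem a7a_span {m : Ideal (𝓞 K)} {p : ℕ} {x : 𝓞 K} (hx : x ≠ 0) (hx1 : x - 1 ∈ m) :
    a7aR K m p (Ideal.span {x}) 1 :=
  ⟨1, x, 1, 1, one_ne_zero, hx, by simp, hx1, a7a_one_ne K, a7a_one_ne K, by
    rw [Ideal.span_singleton_one, ← Ideal.one_eq_top, one_mul, mul_one]⟩

/-- the congruence relation -/
private def a7aC (m : Ideal (𝓞 K)) (p : ℕ) : Con (a7aS K m) where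
  r := fun a b => a7aR K m p a b
  iseqv :=
    { refl := fun a => a7a_refl K m p a
      symm := fun h => a7a_symm K h
      trans := fun {_ b _} h h' => a7a_trans K b.2.1 h h' }
  mul' := fun h h' => a7a_mul K h h'

private theorem a7a_eq {m : Ideal (𝓞 K)} {p : ℕ} (a b : a7aS K m) :
    ((a : (a7aC K m p).Quotient) = b) ↔ a7aR K m p a b := Con.eq _

private theorem a7a_qpow {m : Ideal (𝓞 K)} {p : ℕ} (q : (a7aC K m p).Quotient) :
    q ^ p = 1 := by
  induction q using Con.induction_on with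
  | H a =>
    have h1 : (a : (a7aC K m p).Quotient) ^ p = ((a ^ p : a7aS K m) : (a7aC K m p).Quotient) :=
      ((a7aC K m p).mk'.map_pow a p).symm
    have h2 : (1 : (a7aC K m p).Quotient) = ((1 : a7aS K m) : (a7aC K m p).Quotient) := rfl
    rw [h1, h2, a7a_eq]
    exact a7a_pow K a.2.1

private theorem a7a_unit {m : Ideal (𝓞 K)} {p : ℕ} (hp : 0 < p) (q : (a7aC K m p).Quotient) :
    IsUnit q := by
  refine IsUnit.of_mul_eq_one (q ^ (p - 1)) ?_
  rw [← pow_succ', Nat.sub_add_cancel hp]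
  exact a7a_qpow K q

/-- inverse classes prime to `m` -/
private theorem a7a_inv (m : Ideal (𝓞 K)) (hm : m ≠ ⊥) (c : ClassGroup (𝓞 K)) :
    ∃ b : Ideal (𝓞 K), Cop m b ∧ ∀ (a : Ideal (𝓞 K)) (ha : a ≠ ⊥),
      ClassGroup.mk0 ⟨a, mem_nonZeroDivisors_iff_ne_zero.2 ha⟩ = c →
        ∃ u : 𝓞 K, u ≠ 0 ∧ a * b = Ideal.span {u} := by
  obtain ⟨a₀, ha₀⟩ := ClassGroup.mk0_surjective c
  have ha₀' : (a₀ : Ideal (𝓞 K)) ≠ ⊥ := mem_nonZeroDivisors_iff_ne_zero.1 a₀.2
  obtain ⟨x, b, hx, hb, hxb⟩ := exists_cop K m hm a₀ ha₀'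
  refine ⟨b, hb, fun a ha hac => ?_⟩
  have hb0 : b ∈ nonZeroDivisors (Ideal (𝓞 K)) := mem_nonZeroDivisors_iff_ne_zero.2 hb.1
  have h1 : ClassGroup.mk0 a₀ * ClassGroup.mk0 ⟨b, hb0⟩ = 1 := by
    rw [← map_mul, ClassGroup.mk0_eq_one_iff]
    exact ⟨x, hxb.symm⟩
  have h2 : ClassGroup.mk0 (⟨a, mem_nonZeroDivisors_iff_ne_zero.2 ha⟩ *
      ⟨b, hb0⟩ : nonZeroDivisors (Ideal (𝓞 K))) = 1 := by
    rw [map_mul, hac, ← ha₀, h1]
  have h3 : (a * b).IsPrincipal :=
    (ClassGroup.mk0_eq_one_iff (mul_mem (mem_nonZeroDivisors_iff_ne_zero.2 ha) hb0)).1 h2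
  obtain ⟨u, hu⟩ := h3
  refine ⟨u, ?_, hu⟩
  rintro rfl
  have h4 : a * b = ⊥ := by
    rw [hu]
    exact Ideal.span_singleton_eq_bot.2 rfl
  exact mul_ne_zero (M₀ := Ideal (𝓞 K)) ha hb.1 h4

private theorem a7a_rel {m : Ideal (𝓞 K)} {p : ℕ} {a a' b : Ideal (𝓞 K)} (ha : Cop m a)
    (hb : Cop m b) {u u' : 𝓞 K} (hu0 : u ≠ 0) (hu0' : u' ≠ 0)
    (hu : a * b = Ideal.span {u}) (hu' : a' * b = Ideal.span {u'}) (huu : u - u' ∈ m) :
    a7aR K m p a a' := by
  have h1 : IsCoprime (Ideal.span {u}) m := by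
    rw [← hu]
    exact ha.2.mul_left hb.2
  have h2 : ∃ v : 𝓞 K, v ≠ 0 ∧ v * u - 1 ∈ m := by
    rw [Ideal.isCoprime_iff_exists] at h1
    obtain ⟨i, hi, j, hj, hij⟩ := h1
    obtain ⟨v, rfl⟩ := Ideal.mem_span_singleton'.1 hi
    by_cases hv : v = 0
    · refine ⟨1, one_ne_zero, ?_⟩
      rw [hv, zero_mul, zero_add] at hij
      have h3 : (1 : 𝓞 K) * u - 1 = (u - 1) * j := by rw [hij]; ring
      rw [h3]
      exact m.mul_mem_left _ hj
    · refine ⟨v, hv, ?_⟩
      have h3 : v * u - 1 = - j := by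
        rw [← hij]; ring
      rw [h3]
      exact m.neg_mem hj
  obtain ⟨v, hv, hvu⟩ := h2
  have hvu' : v * u' - 1 ∈ m := by
    have h3 : v * u' - 1 = (v * u - 1) - v * (u - u') := by ring
    rw [h3]
    exact m.sub_mem hvu (m.mul_mem_left _ huu)
  refine ⟨v * u', v * u, 1, 1, mul_ne_zero hv hu0', mul_ne_zero hv hu0, hvu', hvu,
    a7a_one_ne K, a7a_one_ne K, ?_⟩
  rw [one_pow, mul_one, mul_one]
  apply mul_left_cancel₀ (show b ≠ 0 from hb.1)
  rw [← Ideal.span_singleton_mul_span_singleton, ← Ideal.span_singleton_mul_span_singleton]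
  calc b * (Ideal.span {v} * Ideal.span {u'} * a)
      = Ideal.span {v} * Ideal.span {u'} * (a * b) := by ring
    _ = Ideal.span {v} * Ideal.span {u} * (a' * b) := by rw [hu, hu']; ring
    _ = _ := by ring

private theorem a7a_fin (m : Ideal (𝓞 K)) (hm : m ≠ ⊥) (p : ℕ) :
    Finite (a7aC K m p).Quotient := by
  classical
  choose bb hbb hb using a7a_inv K m hm
  have hfin : Finite (𝓞 K ⧸ m) := Ideal.finiteQuotientOfFreeOfNeBot m hm
  have hrep : ∀ q : (a7aC K m p).Quotient, ∃ a : a7aS K m, (a : (a7aC K m p).Quotient) = q := by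
    intro q
    induction q using Con.induction_on with
    | H a => exact ⟨a, rfl⟩
  choose rp hrp using hrep
  let cc : (a7aC K m p).Quotient → ClassGroup (𝓞 K) := fun q =>
    ClassGroup.mk0 ⟨(rp q : Ideal (𝓞 K)), mem_nonZeroDivisors_iff_ne_zero.2 (rp q).2.1⟩
  have hgen : ∀ q : (a7aC K m p).Quotient, ∃ u : 𝓞 K, u ≠ 0 ∧
      (rp q : Ideal (𝓞 K)) * bb (cc q) = Ideal.span {u} := fun q =>
    hb (cc q) _ (rp q).2.1 rfl
  choose uu huu0 huu using hgen
  refine Finite.of_injective (fun q => (cc q, Ideal.Quotient.mk m (uu q))) ?_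
  intro q q' h
  rw [Prod.mk.injEq] at h
  obtain ⟨h1, h2⟩ := h
  rw [← hrp q, ← hrp q', a7a_eq]
  refine a7a_rel K (rp q).2 (hbb (cc q)) (huu0 q) (huu0 q') (huu q) ?_
    (Ideal.Quotient.eq.1 h2)
  rw [h1]
  exact huu q'

private theorem a7a_pack {m : Ideal (𝓞 K)} {p : ℕ} (Q : Type) [CommMonoid Q] [Finite Q]
    (hu : ∀ q : Q, IsUnit q) (hq : ∀ q : Q, q ^ p = 1) (f : a7aS K m →* Q)
    (hf : Function.Surjective f) (hrel : ∀ a b : a7aS K m, f a = f b ↔ a7aR K m p a b) :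
    ∃ (A : Type) (_ : AddCommGroup A) (_ : Finite A) (cl : Ideal (𝓞 K) → A),
      ClPack m p cl := by
  classical
  let G : CommGroup Q := commGroupOfIsUnit hu
  refine ⟨Additive Q, @Additive.addCommGroup Q G, inferInstance,
    fun a => if h : Cop m a then Additive.ofMul (f ⟨a, h⟩) else Additive.ofMul 1, ?_, ?_, ?_, ?_, ?_⟩
  · intro a b ha hb
    have hab : Cop m (a * b) := (a7aS K m).mul_mem ha hb
    simp only [dif_pos ha, dif_pos hb, dif_pos hab]
    have h1 : f ⟨a * b, hab⟩ = f ⟨a, ha⟩ * f ⟨b, hb⟩ := by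
      rw [← map_mul]
      rfl
    rw [h1]
    rfl
  · intro x
    obtain ⟨a, ha⟩ := hf (Additive.toMul x)
    refine ⟨a, a.2, ?_⟩
    have h1 : Cop m (a : Ideal (𝓞 K)) := a.2
    simp only [dif_pos h1]
    have h2 : f ⟨a, h1⟩ = Additive.toMul x := ha
    rw [h2]
    rfl
  · intro x
    have h1 : (Additive.toMul x) ^ p = 1 := hq (Additive.toMul x)
    exact congrArg Additive.ofMul h1
  · intro x hx hx1
    have h1 : Cop m (Ideal.span {x}) := by
      refine ⟨fun h => hx (Ideal.span_singleton_eq_bot.1 h), ?_⟩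
      rw [Ideal.isCoprime_iff_exists]
      exact ⟨x, Ideal.mem_span_singleton_self x, -(x - 1), m.neg_mem hx1, by ring⟩
    simp only [dif_pos h1]
    have h2 : f ⟨Ideal.span {x}, h1⟩ = 1 := by
      rw [← map_one f, hrel]
      exact a7a_span K hx hx1
    rw [h2]
    rfl
  · intro a b ha hb h
    simp only [dif_pos ha, dif_pos hb] at h
    have h1 : f ⟨a, ha⟩ = f ⟨b, hb⟩ := Additive.ofMul.injective h
    have h2 : a7aR K m p a b := (hrel ⟨a, ha⟩ ⟨b, hb⟩).1 h1
    unfold a7aR at h2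
    exact h2

/-- Job A7a. Existence of the class group. Take the submonoid `{a // Cop m a}` of `Ideal (𝓞 K)`
and the congruence relation `a ~ b` iff `(x) a c^p = (y) b d^p` for some nonzero
`x, y ∈ 1 + m` and nonzero ideals `c, d` (`Con`; transitivity: multiply the two relations,
cancel `b`, `Ideal (𝓞 K)` is a cancel monoid with zero; `(x x') a (c c')^p = (y y') e (d d')^p`).
In the quotient `a^p = 1` (`a^p ~ 1`: `x = y = 1`, `c = 1`, `d = a`), so it is a commutative
group. Finite: let `b_c` (`c` in the class group, finite) be prime to `m` in the inverse of the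
class `c` (`exists_cop`); the class of `a` is determined by `c` and by the residue class mod `m`
of a generator `u` of `a * b_c`: if `a b = (u)`, `a' b = (u')`, `u - u' ∈ m`, take `v` with
`u v - 1 ∈ m` (`u` is a unit mod `m`), then `(v u) (a' b) = (v u') (a b)` with
`v u, v u' ∈ 1 + m`, so `a b ~ a' b`, `a ~ a'`. (`𝓞 K ⧸ m` is finite.) -/
theorem exists_clPack (m : Ideal (𝓞 K)) (hm : m ≠ ⊥) (p : ℕ) (hp : 0 < p) :
    ∃ (A : Type) (_ : AddCommGroup A) (_ : Finite A) (cl : Ideal (𝓞 K) → A),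
      ClPack m p cl := by
  have hfin : Finite (a7aC K m p).Quotient := a7a_fin K m hm p
  exact a7a_pack K (a7aC K m p).Quotient (a7a_unit K hp) (a7a_qpow K) (a7aC K m p).mk'
    Con.mk'_surjective (a7a_eq K)

end Pool.Agent.MPca71X
end

section
set_option autoImplicit false
open scoped NumberField
open NumberField IsDedekindDomain

/-! Job A7b (medium-easy). Unique factorization. -/

namespace Pool.Agent.MPca71X

variable (K : Type) [Field K] [NumberField K]

private theorem a7b_inj (m : Ideal (𝓞 K)) :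
    Function.Injective fun v : Qm K m => v.1.asIdeal := by
  intro v w h
  exact Subtype.ext (HeightOneSpectrum.ext h)

private theorem a7b_prod (m : Ideal (𝓞 K)) (f : Qm K m →₀ ℕ) :
    ((Finsupp.toMultiset f).map fun v : Qm K m => v.1.asIdeal).prod =
      f.prod (fun v k => v.1.asIdeal ^ k) := by
  rw [Finsupp.toMultiset_map, Finsupp.prod_toMultiset, Finsupp.prod_mapDomain_index
    (fun a => pow_zero a) (fun a b c => pow_add a b c)]

private theorem a7b_cop (m : Ideal (𝓞 K)) (f : Qm K m →₀ ℕ) :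
    Cop m (f.prod (fun v k => v.1.asIdeal ^ k)) := by
  constructor
  · rw [Finsupp.prod]
    exact Finset.prod_ne_zero_iff.mpr fun v _ => pow_ne_zero _ v.1.ne_bot
  · rw [Finsupp.prod]
    refine IsCoprime.prod_left fun v _ => IsCoprime.pow_left ?_
    rw [Ideal.isCoprime_iff_sup_eq]
    by_contra h
    have h1 : v.1.asIdeal = v.1.asIdeal ⊔ m := v.1.isMaximal.eq_of_le h le_sup_left
    exact v.2 (by rw [h1]; exact le_sup_right)

/-- Job A7b. Unique factorization: the ideals prime to `m` are the products of the primes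
not dividing `m`, uniquely. -/
theorem exists_fact (m : Ideal (𝓞 K)) (hm : m ≠ ⊥) :
    ∃ e : (Qm K m →₀ ℕ) ≃ {a : Ideal (𝓞 K) // Cop m a},
      ∀ f, (e f).1 = f.prod (fun v k => v.1.asIdeal ^ k) := by
  classical
  have _ := hm
  have hnf : ∀ f : Qm K m →₀ ℕ, UniqueFactorizationMonoid.normalizedFactors
      (f.prod (fun v k => v.1.asIdeal ^ k)) =
      (Finsupp.toMultiset f).map fun v : Qm K m => v.1.asIdeal := by
    intro f
    rw [← a7b_prod]
    refine UniqueFactorizationMonoid.normalizedFactors_prod_of_prime fun P hP => ?_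
    obtain ⟨v, _, rfl⟩ := Multiset.mem_map.mp hP
    exact v.1.prime
  let Φ : (Qm K m →₀ ℕ) → {a : Ideal (𝓞 K) // Cop m a} := fun f => ⟨_, a7b_cop K m f⟩
  have hΦ : Function.Bijective Φ := by
    constructor
    · intro f f' h
      have h1 : f.prod (fun v k => v.1.asIdeal ^ k) = f'.prod (fun v k => v.1.asIdeal ^ k) :=
        congrArg Subtype.val h
      have h2 := hnf f
      rw [h1, hnf f'] at h2
      have h3 := congrArg Multiset.toFinsupp (Multiset.map_injective (a7b_inj K m) h2)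
      rw [Finsupp.toMultiset_toFinsupp, Finsupp.toMultiset_toFinsupp] at h3
      exact h3.symm
    · rintro ⟨a, ha0, hac⟩
      have hlift : ∀ P ∈ UniqueFactorizationMonoid.normalizedFactors a,
          ∃ v : Qm K m, v.1.asIdeal = P := by
        intro P hP
        have hp := UniqueFactorizationMonoid.prime_of_normalized_factor P hP
        have hle : a ≤ P := Ideal.dvd_iff_le.mp (UniqueFactorizationMonoid.dvd_of_mem_normalizedFactors hP)
        have hpr : P.IsPrime := Ideal.isPrime_of_prime hp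
        refine ⟨⟨⟨P, hpr, hp.ne_zero⟩, fun hmP => ?_⟩, rfl⟩
        have h1 := Ideal.isCoprime_iff_sup_eq.mp hac
        exact hpr.ne_top (top_le_iff.mp (h1 ▸ sup_le hle hmP))
      obtain ⟨S, hS⟩ : ∃ S : Multiset (Qm K m), (S.map fun v : Qm K m => v.1.asIdeal) =
          UniqueFactorizationMonoid.normalizedFactors a := by
        generalize UniqueFactorizationMonoid.normalizedFactors a = N at hlift
        induction N using Multiset.induction_on with
        | empty => exact ⟨0, rfl⟩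
        | cons P N ih =>
          obtain ⟨v, hv⟩ := hlift P (Multiset.mem_cons_self P N)
          obtain ⟨S, hS⟩ := ih fun Q hQ => hlift Q (Multiset.mem_cons_of_mem hQ)
          exact ⟨v ::ₘ S, by rw [Multiset.map_cons, hv, hS]⟩
      refine ⟨Multiset.toFinsupp S, Subtype.ext ?_⟩
      show (Multiset.toFinsupp S).prod (fun v k => v.1.asIdeal ^ k) = a
      rw [← a7b_prod, Multiset.toFinsupp_toMultiset, hS]
      exact Ideal.prod_normalizedFactors_eq_self ha0
  exact ⟨Equiv.ofBijective Φ hΦ, fun f => rfl⟩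

end Pool.Agent.MPca71X
end

section
set_option autoImplicit false
open scoped NumberField
open NumberField IsDedekindDomain

/-! Job A8d (medium-easy): primes of non-prime norm. -/

namespace Pool.Agent.MPca71X

variable (K : Type) [Field K] [NumberField K]

/-- At most `[K : ℚ]` primes contain the prime number `l`. -/
private theorem a8d_fiber {l : ℕ} (hl : l.Prime) (T : Finset (HeightOneSpectrum (𝓞 K)))
    (hT : ∀ v ∈ T, (l : 𝓞 K) ∈ v.asIdeal) : T.card ≤ Module.finrank ℤ (𝓞 K) := by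
  classical
  have h1 : ∏ v ∈ T, v.asIdeal ∣ Ideal.span {(l : 𝓞 K)} := by
    have h2 := Finset.prod_primes_dvd (s := T.image HeightOneSpectrum.asIdeal)
      (Ideal.span {(l : 𝓞 K)}) (by
        intro I hI
        obtain ⟨v, -, rfl⟩ := Finset.mem_image.1 hI
        exact v.prime) (by
        intro I hI
        obtain ⟨v, hv, rfl⟩ := Finset.mem_image.1 hI
        rw [Ideal.dvd_iff_le, Ideal.span_singleton_le_iff_mem]
        exact hT v hv)
    rwa [Finset.prod_image (fun v _ w _ h => HeightOneSpectrum.ext h)] at h2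
  have h3 : ∏ v ∈ T, Ideal.absNorm v.asIdeal ∣ l ^ Module.finrank ℤ (𝓞 K) := by
    rw [← map_prod, ← Ideal.absNorm_span_natCast]
    exact Ideal.absNorm_dvd_absNorm_of_le (Ideal.dvd_iff_le.1 h1)
  have h4 : ∀ v ∈ T, l ≤ Ideal.absNorm v.asIdeal := by
    intro v hv
    have h5 : Ideal.absNorm v.asIdeal ∣ l ^ Module.finrank ℤ (𝓞 K) :=
      (Finset.dvd_prod_of_mem _ hv).trans h3
    obtain ⟨j, -, hj⟩ := (Nat.dvd_prime_pow hl).1 h5
    rw [hj]
    have hj0 : j ≠ 0 := by
      rintro rfl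
      rw [pow_zero, Ideal.absNorm_eq_one_iff] at hj
      exact v.isPrime.ne_top hj
    exact Nat.le_self_pow hj0 l
  have h5 : l ^ T.card ≤ ∏ v ∈ T, Ideal.absNorm v.asIdeal :=
    Finset.pow_card_le_prod T _ l h4
  have h6 : l ^ T.card ≤ l ^ Module.finrank ℤ (𝓞 K) :=
    h5.trans (Nat.le_of_dvd (pow_pos hl.pos _) h3)
  exact (Nat.pow_le_pow_iff_right hl.one_lt).1 h6

/-- Job A8d. The primes whose norm is not a prime number or is `≤ B` have summable inverse norms:
the norm is `l^f`, `f ≥ 2`, `l` the prime below; there are at most `[K : ℚ]` primes above `l`, so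
the sum is at most `∑_l [K:ℚ] / l²` plus finitely many terms. -/
theorem bad_summable (m : Ideal (𝓞 K)) (B : ℕ) :
    Summable (fun v : {v : Qm K m | ¬ ((Ideal.absNorm v.1.asIdeal).Prime ∧
      B < Ideal.absNorm v.1.asIdeal)} => ((Ideal.absNorm v.1.1.asIdeal : ℕ) : ℝ)⁻¹) := by
  classical
  obtain ⟨n, hn⟩ : ∃ n, n = Module.finrank ℤ (𝓞 K) := ⟨_, rfl⟩
  have hp : ∀ v : HeightOneSpectrum (𝓞 K), ∃ l k : ℕ, 0 < k ∧ (l : 𝓞 K) ∈ v.asIdeal ∧
      l.Prime ∧ Ideal.absNorm v.asIdeal = l ^ k := by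
    intro v
    have : v.asIdeal.IsMaximal := v.isPrime.isMaximal v.ne_bot
    exact Ideal.exists_prime_and_absNorm_eq_pow v.asIdeal
  choose l k hk hmem hl hN using hp
  have hfib : ∀ (q : ℕ) (s : Finset {v : HeightOneSpectrum (𝓞 K) // l v = q}), s.card ≤ n := by
    intro q s
    rcases s.eq_empty_or_nonempty with h0 | ⟨⟨v₀, hv₀⟩, -⟩
    · rw [h0, Finset.card_empty]
      exact Nat.zero_le _
    · have hq : q.Prime := by rw [← hv₀]; exact hl v₀
      have h1 := a8d_fiber K hq (s.map (Function.Embedding.subtype _)) (by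
        intro v hv
        obtain ⟨⟨w, hw⟩, -, rfl⟩ := Finset.mem_map.1 hv
        have h2 := hmem w
        rw [hw] at h2
        exact h2)
      rw [Finset.card_map, ← hn] at h1
      exact h1
  have hemb : ∀ q : ℕ, ∃ e : {v : HeightOneSpectrum (𝓞 K) // l v = q} → Fin n,
      Function.Injective e := by
    intro q
    have hfin : Finite {v : HeightOneSpectrum (𝓞 K) // l v = q} := by
      by_contra hinf
      rw [not_finite_iff_infinite] at hinf
      obtain ⟨s, hs⟩ := Infinite.exists_subset_card_eq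
        {v : HeightOneSpectrum (𝓞 K) // l v = q} (n + 1)
      have h1 := hfib q s
      omega
    have := Fintype.ofFinite {v : HeightOneSpectrum (𝓞 K) // l v = q}
    have hc : Fintype.card {v : HeightOneSpectrum (𝓞 K) // l v = q} ≤ Fintype.card (Fin n) := by
      rw [Fintype.card_fin]
      exact hfib q Finset.univ
    obtain ⟨e⟩ := Function.Embedding.nonempty_of_card_le hc
    exact ⟨e, e.injective⟩
  choose e he using hemb
  have hinj : Function.Injective
      (fun v : HeightOneSpectrum (𝓞 K) => ((l v, e (l v) ⟨v, rfl⟩) : ℕ × Fin n)) := by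
    intro v w h
    have h1 : l v = l w := congrArg Prod.fst h
    have h2 : e (l v) ⟨v, rfl⟩ = e (l w) ⟨w, rfl⟩ := congrArg Prod.snd h
    have h3 : ∀ (q : ℕ) (hq : l v = q), e q ⟨v, hq⟩ = e (l v) ⟨v, rfl⟩ := by
      rintro q rfl
      rfl
    have h4 : e (l w) ⟨v, h1⟩ = e (l w) ⟨w, rfl⟩ := by rw [h3 _ h1, h2]
    exact congrArg Subtype.val (he _ h4)
  have hbase : Summable (fun y : ℕ × Fin n => ((y.1 : ℝ) ^ 2)⁻¹ * (1 : ℝ)) :=
    Summable.mul_of_nonneg (f := fun a : ℕ => ((a : ℝ) ^ 2)⁻¹) (g := fun _ : Fin n => (1 : ℝ))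
      (Real.summable_nat_pow_inv.2 (by norm_num)) (hasSum_fintype _).summable
      (fun a => by positivity) (fun _ => zero_le_one)
  have h5 : Function.Injective (fun v : {v : Qm K m | ¬ ((Ideal.absNorm v.1.asIdeal).Prime ∧
      B < Ideal.absNorm v.1.asIdeal)} => v.1.1) := by
    intro v w h
    exact Subtype.ext (Subtype.ext h)
  have h6 := (hbase.comp_injective (hinj.comp h5)).mul_left ((B : ℝ) ^ 2 + 1)
  refine Summable.of_nonneg_of_le (fun v => by positivity) (fun v => ?_) h6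
  show ((Ideal.absNorm v.1.1.asIdeal : ℕ) : ℝ)⁻¹ ≤
    ((B : ℝ) ^ 2 + 1) * ((((l v.1.1 : ℕ) : ℝ) ^ 2)⁻¹ * 1)
  have hlpos : (0 : ℝ) < (l v.1.1 : ℕ) := by exact_mod_cast (hl v.1.1).pos
  have hl1 : 1 ≤ l v.1.1 := (hl v.1.1).one_lt.le
  rw [mul_one, ← div_eq_mul_inv, le_div_iff₀ (by positivity)]
  have hNpos : 0 < Ideal.absNorm v.1.1.asIdeal := by
    rw [hN]
    exact pow_pos (hl _).pos _
  have hNpos' : (0 : ℝ) < ((Ideal.absNorm v.1.1.asIdeal : ℕ) : ℝ) := by exact_mod_cast hNpos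
  rw [inv_mul_le_iff₀ hNpos']
  have hkey : (l v.1.1) ^ 2 ≤ Ideal.absNorm v.1.1.asIdeal * (B ^ 2 + 1) := by
    by_cases hk1 : k v.1.1 = 1
    · have hv := v.2
      have h7 := hN v.1.1
      rw [hk1, pow_one] at h7
      have h8 : ¬ B < Ideal.absNorm v.1.1.asIdeal := by
        intro hlt
        apply hv
        refine ⟨?_, hlt⟩
        show (Ideal.absNorm v.1.1.asIdeal).Prime
        rw [h7]
        exact hl _
      have h9 : l v.1.1 ≤ B := by
        rw [← h7]
        exact not_lt.1 h8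
      calc (l v.1.1) ^ 2 ≤ B ^ 2 := Nat.pow_le_pow_left h9 2
        _ ≤ 1 * (B ^ 2 + 1) := by omega
        _ ≤ Ideal.absNorm v.1.1.asIdeal * (B ^ 2 + 1) := Nat.mul_le_mul_right _ hNpos
    · have h7 : 2 ≤ k v.1.1 := by
        have := hk v.1.1
        omega
      calc (l v.1.1) ^ 2 ≤ (l v.1.1) ^ (k v.1.1) := Nat.pow_le_pow_right hl1 h7
        _ = Ideal.absNorm v.1.1.asIdeal * 1 := by rw [hN, mul_one]
        _ ≤ Ideal.absNorm v.1.1.asIdeal * (B ^ 2 + 1) := Nat.mul_le_mul_left _ (by omega)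
  exact_mod_cast hkey

end Pool.Agent.MPca71X
end

section
set_option autoImplicit false

/-! Job B3a (medium): finite Euler products. -/

namespace Pool.Agent.MPca71X

/-- For a finite set `S` of primes: the sum of `∏ z^f` over the `f` with support in `S` is
`∏_{q ∈ S} (1 - z q)⁻¹` (induction on `S`; `f` supported in `insert q S` is `f' + single q k`
uniquely). -/
theorem euler_finite {Q : Type} [DecidableEq Q] (z : Q → ℂ) (hz : ∀ q, ‖z q‖ < 1) (S : Finset Q) :
    HasSum (fun f : {f : Q →₀ ℕ // f.support ⊆ S} => f.1.prod (fun q k => z q ^ k))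
      (∏ q ∈ S, (1 - z q)⁻¹) := by
  induction S using Finset.induction_on with
  | empty =>
    rw [Finset.prod_empty]
    have huniq : ∀ f : {f : Q →₀ ℕ // f.support ⊆ (∅ : Finset Q)}, f = ⟨0, by simp⟩ := by
      rintro ⟨f, hf⟩
      apply Subtype.ext
      exact Finsupp.support_eq_empty.1 (Finset.subset_empty.1 hf)
    have h1 := hasSum_single (f := fun f : {f : Q →₀ ℕ // f.support ⊆ (∅ : Finset Q)} =>
      f.1.prod (fun q k => z q ^ k)) ⟨0, by simp⟩ (fun f hf => absurd (huniq f) hf)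
    have h2 : (⟨0, by simp⟩ : {f : Q →₀ ℕ // f.support ⊆ (∅ : Finset Q)}).1.prod
        (fun q k => z q ^ k) = 1 := Finsupp.prod_zero_index
    rw [h2] at h1
    exact h1
  | insert q S hq ih =>
    rw [Finset.prod_insert hq]
    have hgeo : HasSum (fun k : ℕ => z q ^ k) (1 - z q)⁻¹ := hasSum_geometric_of_norm_lt_one (hz q)
    obtain ⟨F, hF⟩ : ∃ F : {f : Q →₀ ℕ // f.support ⊆ S} → ℂ,
      F = fun f => f.1.prod (fun q k => z q ^ k) := ⟨_, rfl⟩
    rw [← hF] at ih
    have h1 : Summable fun k : ℕ => ‖z q ^ k‖ := hgeo.summable.norm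
    have h2 : Summable fun f => ‖F f‖ := ih.summable.norm
    have h3 : Summable fun y : ℕ × {f : Q →₀ ℕ // f.support ⊆ S} => z q ^ y.1 * F y.2 :=
      summable_mul_of_summable_norm h1 h2
    have hmul : HasSum (fun y : ℕ × {f : Q →₀ ℕ // f.support ⊆ S} => z q ^ y.1 * F y.2)
        ((1 - z q)⁻¹ * ∏ q ∈ S, (1 - z q)⁻¹) := HasSum.mul hgeo ih h3
    let e : {f : Q →₀ ℕ // f.support ⊆ insert q S} ≃ ℕ × {f : Q →₀ ℕ // f.support ⊆ S} :=
      { toFun := fun f => (f.1 q, ⟨f.1.erase q, by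
          rw [Finsupp.support_erase]
          intro a ha
          obtain ⟨h1, h2⟩ := Finset.mem_erase.1 ha
          exact (Finset.mem_insert.1 (f.2 h2)).resolve_left h1⟩)
        invFun := fun y => ⟨y.2.1 + Finsupp.single q y.1, by
          intro a ha
          rcases Finset.mem_union.1 (Finsupp.support_add ha) with h1 | h1
          · exact Finset.mem_insert_of_mem (y.2.2 h1)
          · rw [Finset.mem_singleton.1 (Finsupp.support_single_subset h1)]
            exact Finset.mem_insert_self q S⟩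
        left_inv := by
          rintro ⟨f, hf⟩
          apply Subtype.ext
          exact Finsupp.erase_add_single q f
        right_inv := by
          rintro ⟨k, g, hg⟩
          have hgq : g q = 0 := by
            by_contra h0
            exact hq (hg (Finsupp.mem_support_iff.2 h0))
          refine Prod.ext ?_ (Subtype.ext ?_)
          · show (g + Finsupp.single q k) q = k
            rw [Finsupp.add_apply, hgq, zero_add, Finsupp.single_eq_same]
          · show (g + Finsupp.single q k).erase q = g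
            ext a
            by_cases ha : a = q
            · rw [ha, Finsupp.erase_same, hgq]
            · rw [Finsupp.erase_ne ha, Finsupp.add_apply, Finsupp.single_eq_of_ne ha, add_zero] }
    rw [← e.hasSum_iff] at hmul
    have h4 : (fun f : {f : Q →₀ ℕ // f.support ⊆ insert q S} =>
        f.1.prod (fun q k => z q ^ k)) =
        (fun y : ℕ × {f : Q →₀ ℕ // f.support ⊆ S} => z q ^ y.1 * F y.2) ∘ e := by
      funext f
      rw [hF]
      show f.1.prod (fun q k => z q ^ k) = z q ^ f.1 q * (f.1.erase q).prod (fun q k => z q ^ k)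
      exact (Finsupp.mul_prod_erase' f.1 q _ (fun i => pow_zero (z i))).symm
    rw [h4]
    exact hmul

end Pool.Agent.MPca71X
end

section
set_option autoImplicit false
open MeasureTheory

/-! Job B1b (medium): the Mellin transform of the bump function. -/

namespace Pool.Agent.MPca71X

private theorem B1b_meas : Measurable bF := (bF_contDiff 0).continuous.measurable

private theorem B1b_int (s : ℝ) (h1 : 1 ≤ s) :
    IntegrableOn (fun y : ℝ => bF y * y ^ (s - 1)) (Set.Ioc 0 1) := by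
  refine Integrable.mono' (g := fun _ => (1 : ℝ)) (integrable_const _) ?_ ?_
  · exact (B1b_meas.mul (measurable_id.pow_const _)).aestronglyMeasurable
  · refine (ae_restrict_iff' measurableSet_Ioc).2 (ae_of_all _ fun y hy => ?_)
    rw [Real.norm_eq_abs, abs_of_nonneg (mul_nonneg (bF_nonneg y) (Real.rpow_nonneg hy.1.le _))]
    exact mul_le_one₀ (bF_le_one y) (Real.rpow_nonneg hy.1.le _)
      (Real.rpow_le_one hy.1.le hy.2 (by linarith))

/-- `mF` is bounded above and below by positive constants on `[1, 2]`: on `[1/2, 3/4]` the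
integrand is `≥ 1/2`, and it is `≤ 1` everywhere. -/
theorem mF_bounds : ∃ c D : ℝ, 0 < c ∧ ∀ s : ℝ, 1 ≤ s → s ≤ 2 → c ≤ mF s ∧ mF s ≤ D := by
  refine ⟨1 / 8, 1, by norm_num, fun s h1 h2 => ⟨?_, ?_⟩⟩
  · have hsub : Set.Ioc (1 / 2 : ℝ) (3 / 4) ⊆ Set.Ioc (0 : ℝ) 1 :=
      Set.Ioc_subset_Ioc (by norm_num) (by norm_num)
    have hA : ∫ _ in Set.Ioc (1 / 2 : ℝ) (3 / 4), (1 / 2 : ℝ) = 1 / 8 := by
      rw [setIntegral_const, Real.volume_real_Ioc_of_le (by norm_num)]
      norm_num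
    have hB : ∫ _ in Set.Ioc (1 / 2 : ℝ) (3 / 4), (1 / 2 : ℝ) ≤
        ∫ y in Set.Ioc (1 / 2 : ℝ) (3 / 4), bF y * y ^ (s - 1) := by
      refine setIntegral_mono_on ?_ ((B1b_int s h1).mono_set hsub) measurableSet_Ioc ?_
      · exact integrableOn_const (by simp)
      · intro y hy
        have hy0 : 0 < y := by linarith [hy.1]
        rw [bF_eq_one y hy.1.le hy.2, one_mul]
        calc (1 / 2 : ℝ) ≤ y := hy.1.le
          _ = y ^ (1 : ℝ) := (Real.rpow_one y).symm
          _ ≤ y ^ (s - 1) :=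
            Real.rpow_le_rpow_of_exponent_ge hy0 (by linarith [hy.2]) (by linarith)
    have hC : ∫ y in Set.Ioc (1 / 2 : ℝ) (3 / 4), bF y * y ^ (s - 1) ≤ mF s := by
      unfold mF
      refine setIntegral_mono_set (B1b_int s h1) ?_ hsub.eventuallyLE
      refine (ae_restrict_iff' measurableSet_Ioc).2 (ae_of_all _ fun y hy => ?_)
      exact mul_nonneg (bF_nonneg y) (Real.rpow_nonneg hy.1.le _)
    linarith
  · have hA : ∫ _ in Set.Ioc (0 : ℝ) 1, (1 : ℝ) = 1 := by
      rw [setIntegral_const, Real.volume_real_Ioc_of_le (by norm_num)]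
      norm_num
    rw [← hA]
    unfold mF
    refine setIntegral_mono_on (B1b_int s h1) (integrableOn_const (by simp)) measurableSet_Ioc ?_
    intro y hy
    exact mul_le_one₀ (bF_le_one y) (Real.rpow_nonneg hy.1.le _)
      (Real.rpow_le_one hy.1.le hy.2 (by linarith))

/-- For `n ≥ 1`, `s > 0`: `∫_1^∞ bF(n/x) x^(-s-1) dx = n^(-s) mF s` (substitution `y = n/x`,
`bF(y) = 0` for `y ≥ 1`; the integrand vanishes unless `n ≤ x ≤ 4 n`). -/
theorem bump_mellin (n : ℝ) (hn : 1 ≤ n) (s : ℝ) (hs : 0 < s) :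
    IntegrableOn (fun x : ℝ => bF (n / x) * x ^ (-s - 1)) (Set.Ioi 1) ∧
    ∫ x in Set.Ioi (1 : ℝ), bF (n / x) * x ^ (-s - 1) = n ^ (-s) * mF s := by
  have hn0 : 0 < n := by linarith
  refine ⟨?_, ?_⟩
  · refine Integrable.mono' (integrableOn_Ioi_rpow_of_lt (a := -s - 1) (by linarith) one_pos) ?_ ?_
    · exact ((B1b_meas.comp (measurable_const.div measurable_id)).mul
        (measurable_id.pow_const _)).aestronglyMeasurable
    · refine (ae_restrict_iff' measurableSet_Ioi).2 (ae_of_all _ fun x hx => ?_)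
      have hx0 : (0 : ℝ) < x := lt_trans one_pos hx
      rw [Real.norm_eq_abs, abs_of_nonneg (mul_nonneg (bF_nonneg _) (Real.rpow_nonneg hx0.le _))]
      exact mul_le_of_le_one_left (Real.rpow_nonneg hx0.le _) (bF_le_one _)
  · have h1 : ∫ x in Set.Ioi (1 : ℝ), bF (n / x) * x ^ (-s - 1) =
        ∫ x in Set.Ioi (0 : ℝ), bF (n / x) * x ^ (-s - 1) := by
      symm
      refine setIntegral_eq_of_subset_of_forall_sdiff_eq_zero measurableSet_Ioi
        (Set.Ioi_subset_Ioi zero_le_one) fun x hx => ?_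
      have hx0 : (0 : ℝ) < x := hx.1
      have hx1 : x ≤ 1 := not_lt.1 hx.2
      rw [bF_zero_of_ge, zero_mul]
      rw [one_le_div hx0]
      linarith
    have h2 : ∫ x in Set.Ioi (0 : ℝ), bF (n / x) * x ^ (-s - 1) =
        ∫ y in Set.Ioi (0 : ℝ), bF (n * y) * y ^ (s - 1) := by
      rw [← integral_comp_rpow_Ioi (fun y : ℝ => bF (n * y) * y ^ (s - 1))
        (p := -1) (by norm_num)]
      refine setIntegral_congr_fun measurableSet_Ioi fun x hx => ?_
      have hx0 : (0 : ℝ) < x := hx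
      simp only [smul_eq_mul]
      rw [← Real.rpow_mul hx0.le, Real.rpow_neg_one x, ← div_eq_mul_inv]
      have h3 : x ^ (-s - 1) = x ^ (-1 - 1 : ℝ) * x ^ (-1 * (s - 1)) := by
        rw [← Real.rpow_add hx0]
        congr 1
        ring
      rw [h3]
      norm_num
      ring
    have h4 : ∫ y in Set.Ioi (0 : ℝ), bF (n * y) * y ^ (s - 1) =
        n ^ (-s) * ∫ y in Set.Ioi (0 : ℝ), bF y * y ^ (s - 1) := by
      have h5 := integral_comp_mul_left_Ioi (fun y : ℝ => bF y * (y / n) ^ (s - 1)) 0 hn0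
      have h6 : ∀ y : ℝ, n * y / n = y := fun y => by field_simp
      simp only [h6, mul_zero, smul_eq_mul] at h5
      rw [h5, ← integral_const_mul, ← integral_const_mul]
      refine setIntegral_congr_fun measurableSet_Ioi fun y hy => ?_
      have hy0 : (0 : ℝ) < y := hy
      show n⁻¹ * (bF y * (y / n) ^ (s - 1)) = n ^ (-s) * (bF y * y ^ (s - 1))
      rw [Real.div_rpow hy0.le hn0.le]
      have h7 : n ^ (-s) = n⁻¹ * (n ^ (s - 1))⁻¹ := by
        rw [← Real.rpow_neg hn0.le, ← Real.rpow_neg_one n, ← Real.rpow_add hn0]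
        congr 1
        ring
      rw [h7]
      field_simp
    have h8 : ∫ y in Set.Ioi (0 : ℝ), bF y * y ^ (s - 1) = mF s := by
      unfold mF
      refine setIntegral_eq_of_subset_of_forall_sdiff_eq_zero measurableSet_Ioi
        (fun y hy => hy.1) fun y hy => ?_
      have hy0 : (0 : ℝ) < y := hy.1
      have hy1 : 1 < y := by
        by_contra hcon
        exact hy.2 ⟨hy0, not_lt.1 hcon⟩
      rw [bF_zero_of_ge y hy1.le, zero_mul]
    rw [h1, h2, h4, h8]

end Pool.Agent.MPca71X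
end

section
set_option autoImplicit false

/-! Job B3b (medium): Euler product over the free commutative monoid. -/

namespace Pool.Agent.MPca71X

/-- The sum over all `f` is the limit of the sums over `f` supported in `S`, `S → ∞` in
`Finset Q`. So `∏_{q ∈ S} ‖1 - z q‖⁻¹ → ‖∑ ...‖`. Moreover `∑ ‖z q‖ < ∞` (the terms
`f = single q 1`), so `∑ -log ‖1 - z q‖` converges absolutely (`|log ‖1 - z‖| ≤ 2 ‖z‖` for
`‖z‖ ≤ 1/2`; only finitely many `q` have `‖z q‖ > 1/2`), to `σ`, and the limit is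
`exp σ ≠ 0`. -/
theorem euler_abs {Q : Type} (z : Q → ℂ) (hz : ∀ q, ‖z q‖ < 1)
    (hs : Summable (fun f : Q →₀ ℕ => f.prod (fun q k => ‖z q‖ ^ k))) :
    Summable (fun q => ‖z q‖) ∧ (∑' f : Q →₀ ℕ, f.prod (fun q k => z q ^ k)) ≠ 0 ∧
      HasSum (fun q => - Real.log ‖1 - z q‖)
        (Real.log ‖∑' f : Q →₀ ℕ, f.prod (fun q k => z q ^ k)‖) := by
  classical
  have hF : ∀ f : Q →₀ ℕ, ‖f.prod (fun q k => z q ^ k)‖ = f.prod (fun q k => ‖z q‖ ^ k) := by
    intro f
    rw [Finsupp.prod, Finsupp.prod, norm_prod]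
    apply Finset.prod_congr rfl
    intro q _
    rw [norm_pow]
  have h1 : Summable (fun q => ‖z q‖) := by
    have h2 := hs.comp_injective (i := fun q => Finsupp.single q 1)
      (Finsupp.single_left_injective one_ne_zero)
    refine h2.congr ?_
    intro q
    simp only [Function.comp]
    have h3 := Finsupp.prod_single_index (a := q) (b := 1) (h := fun q k => ‖z q‖ ^ k) (pow_zero _)
    rw [h3, pow_one]
  have hFs : Summable (fun f : Q →₀ ℕ => f.prod (fun q k => z q ^ k)) := by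
    apply Summable.of_norm
    simp_rw [hF]
    exact hs
  have hne : ∀ q, (1 - z q) ≠ 0 := by
    intro q h
    have h2 := hz q
    rw [← sub_eq_zero.1 h, norm_one] at h2
    exact lt_irrefl _ h2
  have hg : Summable (fun q => - Real.log ‖1 - z q‖) := by
    have h3 : Summable (fun q => Complex.log (1 + -z q)) :=
      Complex.summable_log_one_add_of_summable (Summable.of_norm h1).neg
    have h4 := (Complex.hasSum_re h3.hasSum).summable.neg
    refine h4.congr ?_
    intro q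
    rw [Complex.log_re, ← sub_eq_add_neg]
  -- the partial products
  have t1 : Filter.Tendsto (fun S : Finset Q => ∏ q ∈ S, ‖1 - z q‖⁻¹) Filter.atTop
      (nhds (Real.exp (∑' q, - Real.log ‖1 - z q‖))) := by
    have h5 := (Real.continuous_exp.tendsto _).comp hg.hasSum
    refine h5.congr ?_
    intro S
    simp only [Function.comp]
    rw [Real.exp_sum]
    apply Finset.prod_congr rfl
    intro q _
    rw [Real.exp_neg, Real.exp_log (norm_pos_iff.2 (hne q))]
  have t2 : Filter.Tendsto (fun S : Finset Q => ∏ q ∈ S, ‖1 - z q‖⁻¹) Filter.atTop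
      (nhds ‖∑' f : Q →₀ ℕ, f.prod (fun q k => z q ^ k)‖) := by
    have h6 : Filter.Tendsto (fun S : Finset Q => ∑' f : Q →₀ ℕ,
        Set.indicator {f : Q →₀ ℕ | f.support ⊆ S} (fun f => f.prod (fun q k => z q ^ k)) f)
        Filter.atTop (nhds (∑' f : Q →₀ ℕ, f.prod (fun q k => z q ^ k))) := by
      apply tendsto_tsum_of_dominated_convergence hs
      · intro f
        apply tendsto_const_nhds.congr'
        filter_upwards [Filter.eventually_ge_atTop f.support] with S hS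
        rw [Set.indicator_of_mem]
        exact hS
      · filter_upwards with S f
        refine (norm_indicator_le_norm_self _ _).trans ?_
        rw [hF]
    refine h6.norm.congr ?_
    intro S
    have h7 := (euler_finite z hz S).tsum_eq
    have h8 : ∑' f : Q →₀ ℕ, Set.indicator {f : Q →₀ ℕ | f.support ⊆ S}
        (fun f => f.prod (fun q k => z q ^ k)) f =
        ∑' f : {f : Q →₀ ℕ // f.support ⊆ S}, f.1.prod (fun q k => z q ^ k) :=
      (tsum_subtype {f : Q →₀ ℕ | f.support ⊆ S} (fun f => f.prod (fun q k => z q ^ k))).symm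
    rw [h8, h7, norm_prod]
    apply Finset.prod_congr rfl
    intro q _
    rw [norm_inv]
  have h9 := tendsto_nhds_unique t2 t1
  refine ⟨h1, ?_, ?_⟩
  · intro h
    rw [h, norm_zero] at h9
    exact (Real.exp_pos _).ne h9
  · rw [h9, Real.log_exp]
    exact hg.hasSum

/-- For `‖z‖ ≤ 1/2`: `|-log ‖1 - z‖ - Re z| ≤ ‖z‖²`
(`Complex.norm_log_sub_logTaylor_le` or `Complex.log_one_sub...`; `log ‖w‖ = Re log w`). -/
theorem log_norm_one_sub (z : ℂ) (hz : ‖z‖ ≤ 1 / 2) :
    |- Real.log ‖1 - z‖ - z.re| ≤ ‖z‖ ^ 2 := by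
  have h1 : ‖-z‖ < 1 := by
    rw [norm_neg]
    linarith
  have h2 := Complex.norm_log_one_add_sub_self_le h1
  have h3 : - Real.log ‖1 - z‖ - z.re = -(Complex.log (1 + -z) - -z).re := by
    rw [Complex.sub_re, Complex.log_re, ← sub_eq_add_neg, Complex.neg_re]
    ring
  rw [h3, abs_neg]
  refine (Complex.abs_re_le_norm _).trans (h2.trans ?_)
  rw [norm_neg]
  have h4 : (1 - ‖z‖)⁻¹ ≤ 2 := by
    rw [inv_le_comm₀ (by linarith) (by norm_num)]
    linarith
  have h5 : 0 ≤ ‖z‖ ^ 2 := sq_nonneg _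
  nlinarith

end Pool.Agent.MPca71X
end

section
set_option autoImplicit false
open MeasureTheory

/-! Job B1c (medium): the Mellin identity. -/

namespace Pool.Agent.MPca71X

variable {Q A : Type} [AddCommGroup A] [Finite A] {N : Q → ℕ} {cl : Q → A} {θ κ C : ℝ}

/-- The Mellin identity: sum `bump_mellin` over `f` with the coefficients `χ (clF f)` of absolute
value `1` (`AddChar.norm_apply`); `∫ ∑ = ∑ ∫` by `zeta_summable` and `bump_mellin`
(`MeasureTheory.hasSum_integral_of_summable_integral_norm`). -/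
theorem mellin (hS : ASys N cl θ κ C) (χ : AddChar A ℂ) (s : ℝ) (hs : 1 < s) :
    ((mF s : ℝ) : ℂ) * Zf N cl χ s =
      ∫ x in Set.Ioi (1 : ℝ), Af N cl χ x * ((x ^ (-s - 1) : ℝ) : ℂ) := by
  classical
  have hQ : Countable Q := Q_countable hS
  have hs0 : 0 < s := by linarith
  obtain ⟨G, hG⟩ : ∃ G : (Q →₀ ℕ) → ℝ → ℂ, G = fun f x =>
    χ (clF cl f) * ((bF ((nmF N f : ℝ) / x) * x ^ (-s - 1) : ℝ) : ℂ) := ⟨_, rfl⟩
  have hn : ∀ f : Q →₀ ℕ, (1 : ℝ) ≤ (nmF N f : ℝ) := fun f => by exact_mod_cast nmF_pos hS f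
  have hbm := fun f : Q →₀ ℕ => bump_mellin (nmF N f : ℝ) (hn f) s hs0
  have hint : ∀ f, Integrable (G f) (volume.restrict (Set.Ioi 1)) := by
    intro f
    rw [hG]
    exact ((hbm f).1.ofReal (𝕜 := ℂ)).const_mul _
  have hGint : ∀ f, ∫ x in Set.Ioi (1 : ℝ), G f x =
      χ (clF cl f) * ((((nmF N f : ℝ) ^ (-s) : ℝ) : ℂ) * ((mF s : ℝ) : ℂ)) := by
    intro f
    rw [hG]
    simp only
    rw [integral_const_mul, integral_complex_ofReal, (hbm f).2]
    push_cast
    ring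
  have hGnorm : ∀ f, ∫ x in Set.Ioi (1 : ℝ), ‖G f x‖ = (nmF N f : ℝ) ^ (-s) * mF s := by
    intro f
    rw [← (hbm f).2]
    apply setIntegral_congr_fun measurableSet_Ioi
    intro x hx
    have hx' : (1 : ℝ) < x := hx
    simp only [hG]
    rw [norm_mul, AddChar.norm_apply, one_mul, Complex.norm_real, Real.norm_eq_abs, abs_of_nonneg]
    exact mul_nonneg (bF_nonneg _) (Real.rpow_nonneg (by linarith) _)
  have hsum := hasSum_integral_of_summable_integral_norm hint (by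
    simp_rw [hGnorm]
    exact (zeta_summable hS s hs).mul_right _)
  have e1 : ∀ x : ℝ, ∑' f, G f x = Af N cl χ x * ((x ^ (-s - 1) : ℝ) : ℂ) := by
    intro x
    unfold Af
    rw [← tsum_mul_right]
    apply tsum_congr
    intro f
    rw [hG]
    push_cast
    ring
  simp_rw [e1] at hsum
  rw [← hsum.tsum_eq]
  unfold Zf
  rw [← tsum_mul_left]
  apply tsum_congr
  intro f
  rw [hGint]
  ring

/-- `Af N cl χ` is continuous on `(0, ∞)`: locally a finite sum of continuous functions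
(`ASys.fin`). -/
theorem Af_continuousOn (hS : ASys N cl θ κ C) (χ : AddChar A ℂ) :
    ContinuousOn (Af N cl χ) (Set.Ioi 0) := by
  intro x0 hx0
  have hx0' : (0 : ℝ) < x0 := hx0
  apply ContinuousAt.continuousWithinAt
  obtain ⟨M, hM⟩ := exists_nat_gt x0
  have hfin := hS.fin M
  have hb : Continuous bF := (bF_contDiff 0).continuous
  have h1 : ContinuousAt (fun x : ℝ => ∑ f ∈ hfin.toFinset,
      χ (clF cl f) * ((bF ((nmF N f : ℝ) / x) : ℝ) : ℂ)) x0 := by
    apply tendsto_finsetSum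
    intro f _
    apply ContinuousAt.mul continuousAt_const
    apply Complex.continuous_ofReal.continuousAt.comp
    apply hb.continuousAt.comp
    exact continuousAt_const.div continuousAt_id hx0'.ne'
  apply h1.congr
  filter_upwards [Ioo_mem_nhds hx0' hM] with x hx
  symm
  apply tsum_eq_sum
  intro f hf
  rw [Set.Finite.mem_toFinset, Set.mem_ofPred_eq, not_le] at hf
  have h2 : (M : ℝ) < (nmF N f : ℝ) := by exact_mod_cast hf
  rw [bF_zero_of_ge, Complex.ofReal_zero, mul_zero]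
  rw [le_div_iff₀ hx.1]
  linarith [hx.2]

end Pool.Agent.MPca71X
end

section
set_option autoImplicit false
open MeasureTheory

/-! Job B2 (medium): the behaviour of the Dirichlet series near `1`. -/

namespace Pool.Agent.MPca71X

variable {Q A : Type} [AddCommGroup A] [Finite A] {N : Q → ℕ} {cl : Q → A} {θ κ C : ℝ}

private lemma b2_int_pow {a : ℝ} (ha : a < -1) :
    IntegrableOn (fun x : ℝ => x ^ a) (Set.Ioi 1) ∧
      ∫ x in Set.Ioi (1 : ℝ), x ^ a = 1 / (-a - 1) := by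
  refine ⟨integrableOn_Ioi_rpow_of_lt ha one_pos, ?_⟩
  rw [integral_Ioi_rpow_of_lt ha one_pos, Real.one_rpow]
  rw [show -a - 1 = -(a + 1) by ring, div_neg, neg_div]

private lemma b2_aesm {E : ℝ → ℂ} (hE : ContinuousOn E (Set.Ioi 1)) (s : ℝ) :
    AEStronglyMeasurable (fun x : ℝ => E x * ((x ^ (-s - 1) : ℝ) : ℂ))
      (volume.restrict (Set.Ioi 1)) := by
  refine ContinuousOn.aestronglyMeasurable ?_ measurableSet_Ioi
  refine hE.mul ?_
  refine Complex.continuous_ofReal.comp_continuousOn ?_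
  refine ContinuousOn.rpow_const continuousOn_id fun x hx => Or.inl ?_
  have : (1 : ℝ) < x := hx
  have h0 : (0 : ℝ) < x := by linarith
  exact h0.ne'

private lemma b2_int {E : ℝ → ℂ} (hE : ContinuousOn E (Set.Ioi 1)) {C θ : ℝ} (hθ : θ < 1)
    (hC : 0 ≤ C) (hb : ∀ x : ℝ, 1 ≤ x → ‖E x‖ ≤ C * x ^ θ) {s : ℝ} (hs : 1 ≤ s) :
    IntegrableOn (fun x : ℝ => E x * ((x ^ (-s - 1) : ℝ) : ℂ)) (Set.Ioi 1) ∧
      ‖∫ x in Set.Ioi (1 : ℝ), E x * ((x ^ (-s - 1) : ℝ) : ℂ)‖ ≤ C / (1 - θ) := by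
  obtain ⟨h1, h2⟩ := b2_int_pow (a := θ - 2) (by linarith)
  have h3 : IntegrableOn (fun x : ℝ => C * x ^ (θ - 2)) (Set.Ioi 1) := h1.const_mul C
  have h4 : ∀ᵐ x ∂(volume.restrict (Set.Ioi (1 : ℝ))),
      ‖E x * ((x ^ (-s - 1) : ℝ) : ℂ)‖ ≤ C * x ^ (θ - 2) := by
    filter_upwards [ae_restrict_mem measurableSet_Ioi] with x hx
    have hx1 : (1 : ℝ) < x := hx
    have hx0 : (0 : ℝ) < x := by linarith
    rw [norm_mul, Complex.norm_real, Real.norm_of_nonneg (by positivity)]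
    calc ‖E x‖ * x ^ (-s - 1) ≤ (C * x ^ θ) * x ^ (-s - 1) :=
          mul_le_mul_of_nonneg_right (hb x hx1.le) (by positivity)
      _ = C * x ^ (θ + (-s - 1)) := by
          rw [mul_assoc, ← Real.rpow_add hx0]
      _ ≤ C * x ^ (θ - 2) := by
          refine mul_le_mul_of_nonneg_left ?_ hC
          exact Real.rpow_le_rpow_of_exponent_le hx1.le (by linarith)
  refine ⟨Integrable.mono' h3 (b2_aesm hE s) h4, ?_⟩
  refine (norm_integral_le_of_norm_le h3 h4).trans ?_
  rw [integral_const_mul, h2]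
  have h5 : -(θ - 2) - 1 = 1 - θ := by ring
  rw [h5, mul_one_div]

private lemma b2_diff {E : ℝ → ℂ} (hE : ContinuousOn E (Set.Ioi 1)) {C θ : ℝ} (hθ : θ < 1)
    (hC : 0 ≤ C) (hb : ∀ x : ℝ, 1 ≤ x → ‖E x‖ ≤ C * x ^ θ) {s : ℝ} (hs : 1 ≤ s) :
    ‖(∫ x in Set.Ioi (1 : ℝ), E x * ((x ^ (-s - 1) : ℝ) : ℂ)) -
      ∫ x in Set.Ioi (1 : ℝ), E x * ((x ^ (-(1 : ℝ) - 1) : ℝ) : ℂ)‖ ≤
      (s - 1) * (C * (2 / (1 - θ)) ^ 2) := by
  have hi1 := (b2_int hE hθ hC hb hs).1
  have hi2 := (b2_int hE hθ hC hb (le_refl (1 : ℝ))).1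
  rw [← integral_sub hi1 hi2]
  obtain ⟨h1, h2⟩ := b2_int_pow (a := (θ - 3) / 2) (by linarith)
  have h3 : IntegrableOn (fun x : ℝ => ((s - 1) * (C * (2 / (1 - θ)))) * x ^ ((θ - 3) / 2))
      (Set.Ioi 1) := h1.const_mul _
  have hε : 0 < (1 - θ) / 2 := by linarith
  have h4 : ∀ᵐ x ∂(volume.restrict (Set.Ioi (1 : ℝ))),
      ‖E x * ((x ^ (-s - 1) : ℝ) : ℂ) - E x * ((x ^ (-(1 : ℝ) - 1) : ℝ) : ℂ)‖ ≤
        ((s - 1) * (C * (2 / (1 - θ)))) * x ^ ((θ - 3) / 2) := by
    filter_upwards [ae_restrict_mem measurableSet_Ioi] with x hx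
    have hx1 : (1 : ℝ) < x := hx
    have hx0 : (0 : ℝ) < x := by linarith
    rw [← mul_sub, ← Complex.ofReal_sub, norm_mul, Complex.norm_real, Real.norm_eq_abs]
    have hlog : 0 ≤ Real.log x := Real.log_nonneg hx1.le
    have h5 : x ^ (-s - 1) = x ^ (-(1 : ℝ) - 1) * x ^ (1 - s) := by
      rw [← Real.rpow_add hx0]
      congr 1
      ring
    have h6 : 1 - (s - 1) * Real.log x ≤ x ^ (1 - s) := by
      rw [Real.rpow_def_of_pos hx0]
      have := Real.add_one_le_exp (Real.log x * (1 - s))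
      linarith
    have h7 : x ^ (1 - s) ≤ 1 := Real.rpow_le_one_of_one_le_of_nonpos hx1.le (by linarith)
    have h8 : |x ^ (-s - 1) - x ^ (-(1 : ℝ) - 1)| ≤
        x ^ (-(1 : ℝ) - 1) * ((s - 1) * Real.log x) := by
      rw [h5]
      have h9 : x ^ (-(1 : ℝ) - 1) * x ^ (1 - s) - x ^ (-(1 : ℝ) - 1) =
          -(x ^ (-(1 : ℝ) - 1) * (1 - x ^ (1 - s))) := by ring
      rw [h9, abs_neg, abs_of_nonneg (mul_nonneg (by positivity) (by linarith))]
      exact mul_le_mul_of_nonneg_left (by linarith) (by positivity)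
    have h10 : Real.log x ≤ x ^ ((1 - θ) / 2) / ((1 - θ) / 2) :=
      Real.log_le_rpow_div hx0.le hε
    calc ‖E x‖ * |x ^ (-s - 1) - x ^ (-(1 : ℝ) - 1)|
        ≤ (C * x ^ θ) * (x ^ (-(1 : ℝ) - 1) * ((s - 1) * Real.log x)) :=
          mul_le_mul (hb x hx1.le) h8 (abs_nonneg _) (by positivity)
      _ ≤ (C * x ^ θ) * (x ^ (-(1 : ℝ) - 1) *
            ((s - 1) * (x ^ ((1 - θ) / 2) / ((1 - θ) / 2)))) := by
          refine mul_le_mul_of_nonneg_left ?_ (by positivity)
          refine mul_le_mul_of_nonneg_left ?_ (by positivity)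
          exact mul_le_mul_of_nonneg_left h10 (by linarith)
      _ = ((s - 1) * (C * (2 / (1 - θ)))) *
            (x ^ θ * x ^ (-(1 : ℝ) - 1) * x ^ ((1 - θ) / 2)) := by
          field_simp
      _ = ((s - 1) * (C * (2 / (1 - θ)))) * x ^ ((θ - 3) / 2) := by
          rw [← Real.rpow_add hx0, ← Real.rpow_add hx0]
          congr 2
          ring
  refine (norm_integral_le_of_norm_le h3 h4).trans ?_
  rw [integral_const_mul, h2]
  have h5 : -((θ - 3) / 2) - 1 = (1 - θ) / 2 := by ring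
  rw [h5]
  have h6 : (1 : ℝ) / ((1 - θ) / 2) = 2 / (1 - θ) := by
    rw [one_div, inv_div]
  rw [h6]
  apply le_of_eq
  ring

private lemma b2_C_nonneg (hS : ASys N cl θ κ C) : 0 ≤ C := by
  have h := (norm_nonneg _).trans (hS.count 0 1 le_rfl)
  simpa using h

/-- the error term -/
private noncomputable def b2E (N : Q → ℕ) (cl : Q → A) (κ : ℝ) (χ : AddChar A ℂ) (x : ℝ) : ℂ :=
  open scoped Classical in
  Af N cl χ x - (if χ = 0 then ((κ * x : ℝ) : ℂ) else 0)

private lemma b2E_cont (hS : ASys N cl θ κ C) (χ : AddChar A ℂ) :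
    ContinuousOn (b2E N cl κ χ) (Set.Ioi 1) := by
  unfold b2E
  refine ContinuousOn.sub ((Af_continuousOn hS χ).mono ?_) ?_
  · intro x hx
    have : (1 : ℝ) < x := hx
    exact Set.mem_Ioi.mpr (by linarith)
  · split_ifs
    · fun_prop
    · fun_prop

private lemma b2E_bound (hS : ASys N cl θ κ C) (χ : AddChar A ℂ) (x : ℝ) (hx : 1 ≤ x) :
    ‖b2E N cl κ χ x‖ ≤ C * x ^ θ := hS.count χ x hx

private lemma b2_mellin_ne (hS : ASys N cl θ κ C) {χ : AddChar A ℂ} (hχ : χ ≠ 0) (s : ℝ)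
    (hs : 1 < s) : ((mF s : ℝ) : ℂ) * Zf N cl χ s =
      ∫ x in Set.Ioi (1 : ℝ), b2E N cl κ χ x * ((x ^ (-s - 1) : ℝ) : ℂ) := by
  rw [mellin hS χ s hs]
  unfold b2E
  simp only [hχ, if_false, sub_zero]

private lemma b2_mellin_zero (hS : ASys N cl θ κ C) (s : ℝ) (hs : 1 < s) :
    ((mF s : ℝ) : ℂ) * Zf N cl 0 s = ((κ / (s - 1) : ℝ) : ℂ) +
      ∫ x in Set.Ioi (1 : ℝ), b2E N cl κ 0 x * ((x ^ (-s - 1) : ℝ) : ℂ) := by
  rw [mellin hS 0 s hs]
  obtain ⟨h1, h2⟩ := b2_int_pow (a := -s) (by linarith)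
  have h3 : IntegrableOn (fun x : ℝ => ((κ * x ^ (-s) : ℝ) : ℂ)) (Set.Ioi 1) :=
    (h1.const_mul κ).ofReal
  have h4 := (b2_int (b2E_cont hS 0) hS.theta_lt (b2_C_nonneg hS) (b2E_bound hS 0) hs.le).1
  have h5 : ((κ / (s - 1) : ℝ) : ℂ) = ∫ x in Set.Ioi (1 : ℝ), ((κ * x ^ (-s) : ℝ) : ℂ) := by
    rw [integral_complex_ofReal, integral_const_mul, h2]
    congr 1
    have : - -s - 1 = s - 1 := by ring
    rw [this, mul_one_div]
  rw [h5, ← integral_add h3 h4]
  refine setIntegral_congr_fun measurableSet_Ioi fun x hx => ?_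
  have hx1 : (1 : ℝ) < x := hx
  have hx0 : (0 : ℝ) < x := by linarith
  have h6 : κ * x ^ (-s) = κ * x * x ^ (-s - 1) := by
    have : x ^ (-s) = x * x ^ (-s - 1) := by
      nth_rewrite 2 [← Real.rpow_one x]
      rw [← Real.rpow_add hx0]
      congr 1
      ring
    rw [this]
    ring
  simp only [b2E, if_true]
  rw [h6]
  push_cast
  ring

private lemma b2_Z_ge_one (hS : ASys N cl θ κ C) (s : ℝ) (hs : 1 < s) :
    1 ≤ ‖Zf N cl 0 s‖ := by
  have h1 : Zf N cl 0 s = ((∑' f : Q →₀ ℕ, (nmF N f : ℝ) ^ (-s) : ℝ) : ℂ) := by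
    unfold Zf
    rw [Complex.ofReal_tsum]
    exact tsum_congr fun f => by simp
  have h2 := (zeta_summable hS s hs).le_tsum (0 : Q →₀ ℕ) (fun f _ => by positivity)
  have h3 : ((nmF N (0 : Q →₀ ℕ) : ℕ) : ℝ) ^ (-s) = 1 := by
    simp [nmF]
  rw [h3] at h2
  rw [h1, Complex.norm_real, Real.norm_of_nonneg (by linarith)]
  exact h2

/-- `mF s * Z(s) = ∫_1^∞ κ x x^(-s-1) dx + ∫_1^∞ (A(x) - κ x) x^(-s-1) dx`, the first integral is
`κ/(s-1)`, the second has absolute value `≤ ∫ C x^(θ-2) = C/(1-θ)`. So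
`|mF s Z(s) - κ/(s-1)| ≤ C/(1-θ)`. For the lower bound away from `1` use `‖Z(s)‖ ≥ 1`
(`Z(s)` is a sum of nonnegative reals with the term `f = 0` equal to `1`). -/
theorem Z_one_bounds (hS : ASys N cl θ κ C) :
    ∃ c D : ℝ, 0 < c ∧ ∀ s : ℝ, 1 < s → s ≤ 2 →
      c / (s - 1) ≤ ‖Zf N cl 0 s‖ ∧ ‖Zf N cl 0 s‖ ≤ D / (s - 1) := by
  obtain ⟨c1, D1, hc1, hm⟩ := mF_bounds
  have hC := b2_C_nonneg hS
  have hθ := hS.theta_lt
  have hκ := hS.kappa_pos
  set B : ℝ := C / (1 - θ) with hB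
  have hB0 : 0 ≤ B := div_nonneg hC (by linarith)
  have hD1 : 0 < D1 := by
    have := hm 1 le_rfl (by norm_num)
    linarith [this.1, this.2]
  have hkey : ∀ s : ℝ, 1 < s → s ≤ 2 → κ / (s - 1) - B ≤ mF s * ‖Zf N cl 0 s‖ ∧
      mF s * ‖Zf N cl 0 s‖ ≤ κ / (s - 1) + B := by
    intro s hs1 hs2
    have h1 := b2_mellin_zero hS s hs1
    have h2 := (b2_int (b2E_cont hS 0) hS.theta_lt hC (b2E_bound hS 0) hs1.le).2
    have hms := (hm s hs1.le hs2).1
    have h3 : mF s * ‖Zf N cl 0 s‖ = ‖((mF s : ℝ) : ℂ) * Zf N cl 0 s‖ := by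
      rw [norm_mul, Complex.norm_real, Real.norm_of_nonneg (by linarith)]
    have h4 : ‖((κ / (s - 1) : ℝ) : ℂ)‖ = κ / (s - 1) := by
      rw [Complex.norm_real, Real.norm_of_nonneg]
      exact div_nonneg hκ.le (by linarith)
    rw [h3, h1]
    constructor
    · have := norm_sub_le_norm_add ((κ / (s - 1) : ℝ) : ℂ)
        (∫ x in Set.Ioi (1 : ℝ), b2E N cl κ 0 x * ((x ^ (-s - 1) : ℝ) : ℂ))
      rw [h4] at this
      linarith
    · have := norm_add_le ((κ / (s - 1) : ℝ) : ℂ)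
        (∫ x in Set.Ioi (1 : ℝ), b2E N cl κ 0 x * ((x ^ (-s - 1) : ℝ) : ℂ))
      rw [h4] at this
      linarith
  set t0 : ℝ := κ / (2 * (B + 1)) with ht0
  have ht0pos : 0 < t0 := by positivity
  refine ⟨min (κ / (2 * D1)) t0, (κ + B) / c1, lt_min (by positivity) ht0pos,
    fun s hs1 hs2 => ⟨?_, ?_⟩⟩
  · have hs : 0 < s - 1 := by linarith
    by_cases hcase : s - 1 ≤ t0
    · refine le_trans (div_le_div_of_nonneg_right (min_le_left _ _) hs.le) ?_
      have h5 := (hkey s hs1 hs2).1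
      have hms := hm s hs1.le hs2
      have h6 : B ≤ κ / (s - 1) / 2 := by
        have h7 : κ / t0 ≤ κ / (s - 1) := div_le_div_of_nonneg_left hκ.le hs hcase
        have h8 : κ / t0 = 2 * (B + 1) := by
          rw [ht0]
          field_simp
        linarith
      have h9 : κ / (s - 1) / 2 ≤ D1 * ‖Zf N cl 0 s‖ :=
        calc κ / (s - 1) / 2 ≤ κ / (s - 1) - B := by linarith
          _ ≤ mF s * ‖Zf N cl 0 s‖ := h5
          _ ≤ D1 * ‖Zf N cl 0 s‖ := mul_le_mul_of_nonneg_right hms.2 (norm_nonneg _)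
      have h10 : κ / (2 * D1) / (s - 1) = κ / (s - 1) / 2 / D1 := by
        field_simp
      rw [h10, div_le_iff₀ hD1]
      linarith
    · refine le_trans (div_le_div_of_nonneg_right (min_le_right _ _) hs.le) ?_
      refine le_trans ?_ (b2_Z_ge_one (cl := cl) hS s hs1)
      rw [div_le_one hs]
      linarith
  · have hs : 0 < s - 1 := by linarith
    have h5 := (hkey s hs1 hs2).2
    have hms := hm s hs1.le hs2
    have h6 : c1 * ‖Zf N cl 0 s‖ ≤ κ / (s - 1) + B :=
      (mul_le_mul_of_nonneg_right hms.1 (norm_nonneg _)).trans h5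
    have h7 : B ≤ B / (s - 1) := by
      rw [le_div_iff₀ hs]
      nlinarith
    rw [div_div, mul_comm c1, ← div_div, le_div_iff₀ hc1, add_div]
    linarith

/-- Put `H(s) = ∫_1^∞ A_χ(x) x^(-s-1) dx`, `s ≥ 1`; `|A_χ(x)| ≤ C x^θ`, so `|H(s)| ≤ C/(1-θ)` and
`|H(s) - H(1)| ≤ ∫ C x^θ x^(-2) |x^(1-s) - 1| dx ≤ (s - 1) ∫ C x^(θ-2) log x dx = D (s-1)`.
If `H(1) = 0` this gives the second alternative, otherwise the first one. -/
theorem Z_chi_bounds (hS : ASys N cl θ κ C) (χ : AddChar A ℂ) (hχ : χ ≠ 0) :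
    ∃ D : ℝ, (∀ s : ℝ, 1 < s → s ≤ 2 → ‖Zf N cl χ s‖ ≤ D) ∧
      ((∃ c s0 : ℝ, 0 < c ∧ 1 < s0 ∧ ∀ s : ℝ, 1 < s → s ≤ s0 → c ≤ ‖Zf N cl χ s‖) ∨
        ∀ s : ℝ, 1 < s → s ≤ 2 → ‖Zf N cl χ s‖ ≤ D * (s - 1)) := by
  obtain ⟨c1, D1, hc1, hm⟩ := mF_bounds
  have hC := b2_C_nonneg hS
  have hθ := hS.theta_lt
  set B : ℝ := C / (1 - θ) with hB
  have hB0 : 0 ≤ B := div_nonneg hC (by linarith)
  set L : ℝ := C * (2 / (1 - θ)) ^ 2 with hL
  have hL0 : 0 ≤ L := by positivity
  have hD1 : 0 < D1 := by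
    have := hm 1 le_rfl (by norm_num)
    linarith [this.1, this.2]
  set H : ℝ → ℂ := fun s => ∫ x in Set.Ioi (1 : ℝ), b2E N cl κ χ x * ((x ^ (-s - 1) : ℝ) : ℂ)
    with hH
  have hZ : ∀ s : ℝ, 1 < s → s ≤ 2 → mF s * ‖Zf N cl χ s‖ = ‖H s‖ := by
    intro s hs1 hs2
    have hms := (hm s hs1.le hs2).1
    have h3 : mF s * ‖Zf N cl χ s‖ = ‖((mF s : ℝ) : ℂ) * Zf N cl χ s‖ := by
      rw [norm_mul, Complex.norm_real, Real.norm_of_nonneg (by linarith)]
    rw [h3, b2_mellin_ne hS hχ s hs1]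
  have hup : ∀ (s : ℝ), 1 < s → s ≤ 2 → ∀ R : ℝ, ‖H s‖ ≤ R → ‖Zf N cl χ s‖ ≤ R / c1 := by
    intro s hs1 hs2 R hR
    rw [le_div_iff₀ hc1, mul_comm]
    exact (mul_le_mul_of_nonneg_right (hm s hs1.le hs2).1 (norm_nonneg _)).trans
      ((hZ s hs1 hs2).le.trans hR)
  have hHB : ∀ s : ℝ, 1 ≤ s → ‖H s‖ ≤ B := fun s hs =>
    (b2_int (b2E_cont hS χ) hθ hC (b2E_bound hS χ) hs).2
  have hHd : ∀ s : ℝ, 1 ≤ s → ‖H s - H 1‖ ≤ (s - 1) * L := fun s hs =>
    b2_diff (b2E_cont hS χ) hθ hC (b2E_bound hS χ) hs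
  refine ⟨(B + L) / c1, fun s hs1 hs2 => ?_, ?_⟩
  · exact hup s hs1 hs2 (B + L) (by linarith [hHB s hs1.le])
  · by_cases h1 : H 1 = 0
    · right
      intro s hs1 hs2
      have h2 := hHd s hs1.le
      rw [h1, sub_zero] at h2
      have h3 := hup s hs1 hs2 _ h2
      refine h3.trans ?_
      rw [div_mul_eq_mul_div]
      refine div_le_div_of_nonneg_right ?_ hc1.le
      nlinarith [mul_nonneg hB0 (by linarith : (0 : ℝ) ≤ s - 1)]
    · left
      have hn : 0 < ‖H 1‖ := norm_pos_iff.mpr h1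
      refine ⟨‖H 1‖ / 2 / D1, min 2 (1 + ‖H 1‖ / (2 * (L + 1))), by positivity,
        lt_min (by norm_num) (by
          have : 0 < ‖H 1‖ / (2 * (L + 1)) := by positivity
          linarith), fun s hs1 hs2 => ?_⟩
      have hs2' : s ≤ 2 := hs2.trans (min_le_left _ _)
      have hs3 : s - 1 ≤ ‖H 1‖ / (2 * (L + 1)) := by
        have := hs2.trans (min_le_right _ _)
        linarith
      have h2 := hHd s hs1.le
      have h3 : (s - 1) * L ≤ ‖H 1‖ / 2 := by
        have h4 : (s - 1) * (L + 1) ≤ ‖H 1‖ / (2 * (L + 1)) * (L + 1) :=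
          mul_le_mul_of_nonneg_right hs3 (by linarith)
        have h5 : ‖H 1‖ / (2 * (L + 1)) * (L + 1) = ‖H 1‖ / 2 := by
          field_simp
        nlinarith
      have h6 : ‖H 1‖ - ‖H s‖ ≤ ‖H s - H 1‖ := by
        rw [norm_sub_rev]
        exact norm_sub_norm_le _ _
      have h7 : ‖H 1‖ / 2 ≤ ‖H s‖ := by linarith
      rw [div_le_iff₀ hD1]
      calc ‖H 1‖ / 2 ≤ ‖H s‖ := h7
        _ = mF s * ‖Zf N cl χ s‖ := (hZ s hs1 hs2').symm
        _ ≤ D1 * ‖Zf N cl χ s‖ :=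
            mul_le_mul_of_nonneg_right (hm s hs1.le hs2').2 (norm_nonneg _)
        _ = ‖Zf N cl χ s‖ * D1 := mul_comm _ _

end Pool.Agent.MPca71X
end

section
set_option autoImplicit false

/-! Job B6a (easy-medium): orthogonality. -/

namespace Pool.Agent.MPca71X

variable {A : Type} [AddCommGroup A] [Finite A]

open scoped Classical in
private theorem B6a_sum (x : A) : ∑ χ : AddChar A ℂ, (χ x).re =
    (Nat.card A : ℝ) * (if x = 0 then (1 : ℝ) else 0) := by
  cases nonempty_fintype A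
  have h := AddChar.sum_apply_eq_ite (α := A) x
  have h1 := congrArg Complex.re h
  rw [Complex.re_sum] at h1
  rw [h1]
  split_ifs <;> simp [Nat.card_eq_fintype_card]

private theorem B6a_re (x y : A) (χ : AddChar A ℂ) :
    (χ x).re * (χ y).re = ((χ (x + y)).re + (χ (x - y)).re) / 2 := by
  rw [sub_eq_add_neg, AddChar.map_add_eq_mul, AddChar.map_add_eq_mul, AddChar.map_neg_eq_conj]
  simp only [Complex.mul_re, Complex.conj_re, Complex.conj_im]
  ring

open scoped Classical in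
/-- Orthogonality: `Re u Re v = (Re (u v) + Re (u conj v)) / 2` and
`∑_χ χ x = #A` if `x = 0`, `0` otherwise (`AddChar.sum_apply_eq_ite`), applied to
`x = b - c • a` and `x = - c • a - b`. -/
theorem orth (p : ℕ) (a b : A) :
    ∑ χ : AddChar A ℂ, (∑ c ∈ Finset.Ico 1 p, (χ (-(c • a))).re) * (χ b).re =
      (Nat.card A : ℝ) * ∑ c ∈ Finset.Ico 1 p,
        (((if b = c • a then (1 : ℝ) else 0) + (if b = -(c • a) then (1 : ℝ) else 0)) / 2) := by
  simp_rw [Finset.sum_mul]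
  rw [Finset.sum_comm, Finset.mul_sum]
  refine Finset.sum_congr rfl fun c _ => ?_
  simp_rw [B6a_re]
  rw [← Finset.sum_div, Finset.sum_add_distrib, B6a_sum, B6a_sum]
  have e1 : (-(c • a) + b = 0) ↔ (b = c • a) := by
    rw [neg_add_eq_zero, eq_comm]
  have e2 : (-(c • a) - b = 0) ↔ (b = -(c • a)) := by
    rw [sub_eq_zero, eq_comm]
  simp only [e1, e2]
  ring

end Pool.Agent.MPca71X
end
end
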