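import Mathlib

section
set_option autoImplicit false
open scoped NumberField
open NumberField NumberField.mixedEmbedding NumberField.Units
  NumberField.Units.dirichletUnitTheorem

/-! Definitions for the analytic part (Dirichlet theorem for ray classes modulo p-th powers) of
the theorem on MP_ca71b5_nt, paper 286. -/

namespace Pool.Agent.MPca71X

/-- A smooth bump function: `0 ≤ bF ≤ 1`, `bF = 0` outside `[1/4, 1]`, `bF = 1` on
`[1/2, 3/4]`. -/
noncomputable def bF (y : ℝ) : ℝ :=
  Real.smoothTransition (4 * y - 1) * Real.smoothTransition (4 - 4 * y)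

/-- A smooth function with support in `[-1, 1]` whose integer translates sum up to `1`. -/
noncomputable def tau1 (t : ℝ) : ℝ := Real.smoothTransition (t + 1) - Real.smoothTransition t

section
variable (K : Type) [Field K] [NumberField K]

open scoped Classical in
/-- The coordinates of `logMap v` with respect to the basis of the unit lattice. -/
noncomputable def tK (v : mixedSpace K) (i : Fin (Units.rank K)) : ℝ :=
  ((basisUnitLattice K).ofZLatticeBasis ℝ (unitLattice K)).repr (logMap v) i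

/-- The partition of unity for the units. -/
noncomputable def psiK (v : mixedSpace K) : ℝ := ∏ i : Fin (Units.rank K), tau1 (tK K v i)

/-- The test function on the mixed space. -/
noncomputable def fK (v : mixedSpace K) : ℝ := bF (mixedEmbedding.norm v) * psiK K v

end

/-- A nonzero ideal prime to `m`. -/
def Cop {R : Type} [CommRing R] (m a : Ideal R) : Prop := a ≠ ⊥ ∧ IsCoprime a m

end Pool.Agent.MPca71X
end

section
set_option autoImplicit false
open scoped Matrix

/-! Definitions for the group theoretic part of paper 286 (MP_ca71b5_nt). -/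

namespace Pool.Agent.MPca71X

/-- The `ZMod p`-module of additive characters `Γ → ZMod p`. -/
def chs (p : ℕ) (Γ : Type) [Group Γ] : Submodule (ZMod p) (Γ → ZMod p) where
  carrier := {φ | ∀ x y, φ (x * y) = φ x + φ y}
  zero_mem' := fun x y => by simp
  add_mem' := fun {a b} ha hb x y => by
    simp only [Pi.add_apply, ha x y, hb x y]; ring
  smul_mem' := fun c a ha x y => by
    simp only [Pi.smul_apply, smul_eq_mul, ha x y]; ring

/-- The additive characters which vanish on `N`. -/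
def chsN (p : ℕ) {Γ : Type} [Group Γ] (N : Subgroup Γ) : Submodule (ZMod p) (Γ → ZMod p) where
  carrier := {φ | φ ∈ chs p Γ ∧ ∀ n ∈ N, φ n = 0}
  zero_mem' := ⟨(chs p Γ).zero_mem, fun _ _ => rfl⟩
  add_mem' := fun {a b} ha hb => ⟨(chs p Γ).add_mem ha.1 hb.1, fun n hn => by
    simp [ha.2 n hn, hb.2 n hn]⟩
  smul_mem' := fun c a ha => ⟨(chs p Γ).smul_mem c ha.1, fun n hn => by simp [ha.2 n hn]⟩

/-- The condition of (LA2): no nonzero form `B = Uᵀ C U` satisfies all the equations given by the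
rows of the code `G` and the residues `S`, `f`. -/
def GoodS (p t d r : ℕ) (G S : Matrix (Fin t) (Fin d) (ZMod p)) (f : Fin t → Fin t → ZMod p) :
    Prop :=
  ∀ (U : Matrix (Fin r) (Fin d) (ZMod p)) (C : Matrix (Fin r) (Fin r) (ZMod p)),
    Uᵀ * C * U ≠ 0 → ∃ j : Fin t, ∑ i, (G * (Uᵀ * C * U)) j i * S j i +
      ∑ j' ∈ Finset.univ.erase j, (G * (Uᵀ * C * U) * Gᵀ) j j' * f j j' ≠ 0

/-- The code property of (LA1): all row sums are `1` and `G b` has at least `δ` nonzero entries for
`b ≠ 0`. -/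
def IsCode (p t d δ : ℕ) (G : Matrix (Fin t) (Fin d) (ZMod p)) : Prop :=
  (∀ j, ∑ i, G j i = 1) ∧ ∀ b : Fin d → ZMod p, b ≠ 0 →
    δ ≤ (Finset.univ.filter (fun j => (G *ᵥ b) j ≠ 0)).card

/-- The data coming from number theory: `Γ = Gal(Ω/F)`, `I` the set of inertial elements, `K0` the
subgroup of index `p` belonging to `K`, characters `χ i`, inertia and Frobenius elements `x j`,
`y j`. -/
structure FMData (p t d r : ℕ) (Γ : Type) [Group Γ] [TopologicalSpace Γ] (I : Set Γ)
    (K0 : Subgroup Γ) (χ : Fin d → Γ → ZMod p) (x y : Fin t → Γ) (u : Fin t → ZMod p)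
    (G S : Matrix (Fin t) (Fin d) (ZMod p)) (f : Fin t → Fin t → ZMod p) : Prop where
  Iconj : ∀ g ∈ I, ∀ τ : Γ, τ * g * τ⁻¹ ∈ I
  Ipow : ∀ g ∈ I, ∀ k : ℕ, g ^ k ∈ I
  K0n : K0.Normal
  K0o : IsOpen (K0 : Set Γ)
  K0i : K0.index = p
  U : ∀ N : Subgroup Γ, N.Normal → IsOpen (N : Set Γ) → (∀ g : Γ, ∃ k : ℕ, g ^ p ^ k ∈ N) →
    I ⊆ N → N = ⊤
  GEN : ∀ φ ∈ chs p Γ, IsOpen {g : Γ | φ g = 0} → (∀ g ∈ I, g ∈ K0 → φ g = 0) →
    ∃ a : Fin d → ZMod p, ∀ g, φ g = ∑ i, a i * χ i g
  xy : ∀ j, x j * y j * (x j)⁻¹ * (y j)⁻¹ ∈ I ∧ x j * y j * (x j)⁻¹ * (y j)⁻¹ ∈ K0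
  chx : ∀ i j, χ i (x j) = u j * G j i
  une : ∀ j, u j ≠ 0
  chy : ∀ i j, χ i (y j) = S j i + ∑ j', G j' i * f j j'
  good : GoodS p t d r G S f

end Pool.Agent.MPca71X
end
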