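import Pool.Agent.Lib.MP_ca71b5_ntX.G0
set_option autoImplicit false

/-! Job G1 (medium): the commutator form of a nonabelian finite `p`-group. -/

namespace Pool.Agent.MPca71X

open scoped commutatorElement

private lemma g1_comm_mul_left {G : Type} [Group G] (hc : ∀ a b g : G, ⁅a, b⁆ * g = g * ⁅a, b⁆)
    (a b c : G) : ⁅a * b, c⁆ = ⁅a, c⁆ * ⁅b, c⁆ := by
  have h := hc b c a
  have h2 := hc b c ⁅a, c⁆
  have e : ⁅a * b, c⁆ = a * ⁅b, c⁆ * a⁻¹ * ⁅a, c⁆ := by
    simp only [commutatorElement_def]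
    group
  rw [e, ← h, mul_inv_cancel_right, h2]

private lemma g1_comm_mul_right {G : Type} [Group G] (hc : ∀ a b g : G, ⁅a, b⁆ * g = g * ⁅a, b⁆)
    (a b c : G) : ⁅a, b * c⁆ = ⁅a, b⁆ * ⁅a, c⁆ := by
  have h := hc a c b
  have e : ⁅a, b * c⁆ = ⁅a, b⁆ * (b * ⁅a, c⁆ * b⁻¹) := by
    simp only [commutatorElement_def]
    group
  rw [e, ← h, mul_inv_cancel_right]

private lemma g1_core (p : ℕ) [Fact p.Prime] {Q : Type} [Group Q] [Finite Q]
    (hQ : IsPGroup p Q) (hna : ¬ commutator Q ≤ (⊥ : Subgroup Q)) :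
    ∃ (N : Subgroup Q) (_ : N.Normal) (z : Q ⧸ N), orderOf z = p ∧ (∀ g, z * g = g * z) ∧
      (∀ x y : Q, ⁅(QuotientGroup.mk' N) x, (QuotientGroup.mk' N) y⁆ ∈ Subgroup.zpowers z) ∧
      ¬ commutator Q ≤ N := by
  classical
  have hfin : ({N : Subgroup Q | N.Normal ∧ ¬ commutator Q ≤ N}).Finite := Set.toFinite _
  obtain ⟨N, hN⟩ := hfin.exists_maximal ⟨⊥, inferInstance, hna⟩
  have hNn : N.Normal := hN.1.1
  have hNc : ¬ commutator Q ≤ N := hN.1.2
  have hp' : IsPGroup p (Q ⧸ N) := hQ.to_quotient N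
  have hnt : Nontrivial (Q ⧸ N) := by
    by_contra hh
    rw [not_nontrivial_iff_subsingleton] at hh
    refine hNc fun x _ => ?_
    have h1 : (QuotientGroup.mk' N) x = 1 := Subsingleton.elim _ _
    have h2 : x ∈ (QuotientGroup.mk' N).ker := h1
    rwa [QuotientGroup.ker_mk'] at h2
  have hct : Nontrivial (Subgroup.center (Q ⧸ N)) := hp'.center_nontrivial
  have hcp : IsPGroup p (Subgroup.center (Q ⧸ N)) := hp'.to_subgroup _
  obtain ⟨k, hk, hcard⟩ := hcp.nontrivial_iff_card.1 hct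
  have hdvd : p ∣ Nat.card (Subgroup.center (Q ⧸ N)) := by
    rw [hcard]
    exact dvd_pow_self p hk.ne'
  obtain ⟨z, hz⟩ := exists_prime_orderOf_dvd_card' p hdvd
  have hz' : orderOf (z : Q ⧸ N) = p := by
    rw [Subgroup.orderOf_coe]
    exact hz
  have hzc : ∀ g, (z : Q ⧸ N) * g = g * (z : Q ⧸ N) := fun g =>
    ((Subgroup.mem_center_iff.1 z.2) g).symm
  refine ⟨N, hNn, (z : Q ⧸ N), hz', hzc, ?_, hNc⟩
  have hle : Subgroup.zpowers (z : Q ⧸ N) ≤ Subgroup.center (Q ⧸ N) := by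
    rw [Subgroup.zpowers_le]
    exact z.2
  have hZn : (Subgroup.zpowers (z : Q ⧸ N)).Normal := by
    refine ⟨fun n hn g => ?_⟩
    have h1 := Subgroup.mem_center_iff.1 (hle hn) g
    rw [h1, mul_inv_cancel_right]
    exact hn
  have hM : commutator Q ≤ (Subgroup.zpowers (z : Q ⧸ N)).comap (QuotientGroup.mk' N) := by
    by_contra hM
    have hmem : (Subgroup.zpowers (z : Q ⧸ N)).comap (QuotientGroup.mk' N) ∈
        {N : Subgroup Q | N.Normal ∧ ¬ commutator Q ≤ N} := ⟨hZn.comap _, hM⟩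
    have hNM : N ≤ (Subgroup.zpowers (z : Q ⧸ N)).comap (QuotientGroup.mk' N) := by
      intro x hx
      rw [Subgroup.mem_comap]
      have h1 : (QuotientGroup.mk' N) x = 1 := by
        have : x ∈ (QuotientGroup.mk' N).ker := by rwa [QuotientGroup.ker_mk']
        exact this
      rw [h1]
      exact one_mem _
    have hMN := hN.2 hmem hNM
    obtain ⟨x, hx⟩ := QuotientGroup.mk'_surjective N (z : Q ⧸ N)
    have hxM : x ∈ (Subgroup.zpowers (z : Q ⧸ N)).comap (QuotientGroup.mk' N) := by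
      rw [Subgroup.mem_comap, hx]
      exact Subgroup.mem_zpowers _
    have hxN : x ∈ (QuotientGroup.mk' N).ker := by
      rw [QuotientGroup.ker_mk']
      exact hMN hxM
    have h1 : (QuotientGroup.mk' N) x = 1 := hxN
    rw [hx] at h1
    rw [h1, orderOf_one] at hz'
    exact (Fact.out : p.Prime).one_lt.ne hz'
  intro x y
  have h1 : ⁅x, y⁆ ∈ commutator Q :=
    Subgroup.commutator_mem_commutator (Subgroup.mem_top x) (Subgroup.mem_top y)
  have h2 := hM h1
  rw [Subgroup.mem_comap, map_commutatorElement] at h2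
  exact h2

/-- Let `N'` be a normal subgroup of `Q`, maximal among the normal subgroups with nonabelian
quotient (exists, `Q` finite, `N' = 1` is one). `Q' = Q/N'` is a nontrivial finite `p`-group, so
its center is nontrivial; let `Z0` be a subgroup of order `p` of the center
(`exists_prime_orderOf_dvd_card`). `Z0` is normal, and `Q'/Z0` is abelian by the maximality of
`N'` (the preimage of `Z0` in `Q` is strictly bigger than `N'`). So all commutators of `Q'` lie
in the central subgroup `Z0 ≃ ZMod p`, and `(x, y) ↦ [x, y]` is bimultiplicative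
(`[x x', y] = x [x', y] x⁻¹ [x, y] = [x', y] [x, y]` since commutators are central). It is `1` if
`x, y` commute, and not always `1` as `Q'` is nonabelian. Compose with `Q → Q'` and
`Z0 ≃ Multiplicative (ZMod p)` (cyclic of order `p`). -/
theorem exists_comm_form (p : ℕ) [Fact p.Prime] {Q : Type} [Group Q] [Finite Q]
    (hQ : IsPGroup p Q) (hna : ∃ x y : Q, x * y ≠ y * x) :
    ∃ b : Q → Q → ZMod p, (∀ x y z, b (x * y) z = b x z + b y z) ∧
      (∀ x y z, b x (y * z) = b x y + b x z) ∧ (∀ x y, x * y = y * x → b x y = 0) ∧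
      ∃ x y, b x y ≠ 0 := by
  classical
  have hna' : ¬ commutator Q ≤ (⊥ : Subgroup Q) := by
    intro h
    obtain ⟨x, y, hxy⟩ := hna
    have h1 : ⁅x, y⁆ ∈ commutator Q :=
      Subgroup.commutator_mem_commutator (Subgroup.mem_top x) (Subgroup.mem_top y)
    have h2 := h h1
    rw [Subgroup.mem_bot, commutatorElement_eq_one_iff_mul_comm] at h2
    exact hxy h2
  obtain ⟨N, hN, z, hz, hzc, hcm, hNc⟩ := g1_core p hQ hna'
  have hcard : Nat.card (Subgroup.zpowers z) = p := by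
    rw [Nat.card_zpowers, hz]
  have hcard2 : Nat.card (Multiplicative (ZMod p)) = p := by
    rw [Nat.card_eq_fintype_card, Fintype.card_multiplicative, ZMod.card]
  obtain ⟨e⟩ : Nonempty (Subgroup.zpowers z ≃* Multiplicative (ZMod p)) :=
    ⟨mulEquivOfPrimeCardEq hcard hcard2⟩
  have hcen : ∀ w ∈ Subgroup.zpowers z, ∀ g, w * g = g * w := by
    intro w hw g
    obtain ⟨n, rfl⟩ := Subgroup.mem_zpowers_iff.1 hw
    exact ((show Commute z g from hzc g).zpow_left n)
  have hcc : ∀ a b g : Q ⧸ N, ⁅a, b⁆ * g = g * ⁅a, b⁆ := by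
    intro a b g
    obtain ⟨x, rfl⟩ := QuotientGroup.mk'_surjective N a
    obtain ⟨y, rfl⟩ := QuotientGroup.mk'_surjective N b
    exact hcen _ (hcm x y) g
  refine ⟨fun x y => Multiplicative.toAdd
    (e ⟨⁅(QuotientGroup.mk' N) x, (QuotientGroup.mk' N) y⁆, hcm x y⟩), ?_, ?_, ?_, ?_⟩
  · intro x y w
    have h : (⟨⁅(QuotientGroup.mk' N) (x * y), (QuotientGroup.mk' N) w⁆, hcm (x * y) w⟩ :
        Subgroup.zpowers z) = ⟨⁅(QuotientGroup.mk' N) x, (QuotientGroup.mk' N) w⁆, hcm x w⟩ *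
          ⟨⁅(QuotientGroup.mk' N) y, (QuotientGroup.mk' N) w⁆, hcm y w⟩ := by
      apply Subtype.ext
      show ⁅(QuotientGroup.mk' N) (x * y), (QuotientGroup.mk' N) w⁆ =
        ⁅(QuotientGroup.mk' N) x, (QuotientGroup.mk' N) w⁆ *
          ⁅(QuotientGroup.mk' N) y, (QuotientGroup.mk' N) w⁆
      rw [map_mul]
      exact g1_comm_mul_left hcc _ _ _
    show Multiplicative.toAdd (e _) = Multiplicative.toAdd (e _) + Multiplicative.toAdd (e _)
    rw [h, map_mul, toAdd_mul]
  · intro x y w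
    have h : (⟨⁅(QuotientGroup.mk' N) x, (QuotientGroup.mk' N) (y * w)⁆, hcm x (y * w)⟩ :
        Subgroup.zpowers z) = ⟨⁅(QuotientGroup.mk' N) x, (QuotientGroup.mk' N) y⁆, hcm x y⟩ *
          ⟨⁅(QuotientGroup.mk' N) x, (QuotientGroup.mk' N) w⁆, hcm x w⟩ := by
      apply Subtype.ext
      show ⁅(QuotientGroup.mk' N) x, (QuotientGroup.mk' N) (y * w)⁆ =
        ⁅(QuotientGroup.mk' N) x, (QuotientGroup.mk' N) y⁆ *
          ⁅(QuotientGroup.mk' N) x, (QuotientGroup.mk' N) w⁆
      rw [map_mul]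
      exact g1_comm_mul_right hcc _ _ _
    show Multiplicative.toAdd (e _) = Multiplicative.toAdd (e _) + Multiplicative.toAdd (e _)
    rw [h, map_mul, toAdd_mul]
  · intro x y hxy
    have h : (⟨⁅(QuotientGroup.mk' N) x, (QuotientGroup.mk' N) y⁆, hcm x y⟩ :
        Subgroup.zpowers z) = 1 := by
      apply Subtype.ext
      show ⁅(QuotientGroup.mk' N) x, (QuotientGroup.mk' N) y⁆ = 1
      rw [commutatorElement_eq_one_iff_mul_comm, ← map_mul, ← map_mul, hxy]
    show Multiplicative.toAdd (e _) = 0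
    rw [h, map_one, toAdd_one]
  · by_contra hcon
    push Not at hcon
    refine hNc ?_
    rw [commutator_def, Subgroup.commutator_le]
    intro x _ y _
    have h1 : Multiplicative.toAdd
      (e ⟨⁅(QuotientGroup.mk' N) x, (QuotientGroup.mk' N) y⁆, hcm x y⟩) = 0 := hcon x y
    have h2 : e ⟨⁅(QuotientGroup.mk' N) x, (QuotientGroup.mk' N) y⁆, hcm x y⟩ = 1 :=
      toAdd_eq_zero.1 h1
    have h3 := (map_eq_one_iff e e.injective).1 h2
    have h4 : ⁅(QuotientGroup.mk' N) x, (QuotientGroup.mk' N) y⁆ = 1 :=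
      congrArg Subtype.val h3
    rw [← map_commutatorElement] at h4
    have h5 : ⁅x, y⁆ ∈ (QuotientGroup.mk' N).ker := h4
    rwa [QuotientGroup.ker_mk'] at h5

end Pool.Agent.MPca71X
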