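import Pool.Agent.Lib.MP_ca71b5_ntX.G0
set_option autoImplicit false

/-! Job G2 (easy-medium): bilinear forms in terms of characters. -/

namespace Pool.Agent.MPca71X

/-- Let `φ_1, …, φ_s` (`s = finrank ≤ r`) be a basis of `chsN p N`. For fixed `x` the function
`y ↦ b x y` is in `chsN p N` (`b x n = 0` for `n ∈ N`), so `b x y = ∑_l c_l(x) φ_l(y)` with
`c_l(x)` unique; `c_l ∈ chsN p N` by uniqueness (`b (x x') = b x + b x'`, `b n y = 0`); so
`c_l = ∑_k C_kl φ_k`. Pad with zeros to `Fin r`. -/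
theorem form_coords (p : ℕ) [Fact p.Prime] {Γ : Type} [Group Γ] (N : Subgroup Γ)
    (hfin : Module.Finite (ZMod p) (chsN p N)) (r : ℕ)
    (hr : Module.finrank (ZMod p) (chsN p N) ≤ r) (b : Γ → Γ → ZMod p)
    (h1 : ∀ x y z, b (x * y) z = b x z + b y z) (h2 : ∀ x y z, b x (y * z) = b x y + b x z)
    (h3 : ∀ x, ∀ n ∈ N, b x n = 0) (h4 : ∀ n ∈ N, ∀ x, b n x = 0) :
    ∃ (φ : Fin r → Γ → ZMod p) (C : Matrix (Fin r) (Fin r) (ZMod p)),
      (∀ a, φ a ∈ chsN p N) ∧ ∀ x y, b x y = ∑ a, ∑ c, C a c * φ a x * φ c y := by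
  classical
  -- a surjection `ψ : (Fin r → ZMod p) → chsN p N` with a section `σ`
  obtain ⟨ψ, hψ⟩ : ∃ ψ : (Fin r → ZMod p) →ₗ[ZMod p] chsN p N, Function.Surjective ψ := by
    let e : (Fin (Module.finrank (ZMod p) (chsN p N)) → ZMod p) ≃ₗ[ZMod p] chsN p N :=
      LinearEquiv.ofFinrankEq _ _ (by simp)
    refine ⟨e.toLinearMap ∘ₗ LinearMap.funLeft (ZMod p) (ZMod p) (Fin.castLE hr), ?_⟩
    exact e.surjective.comp
      (LinearMap.funLeft_surjective_of_injective _ _ _ (Fin.castLE_injective hr))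
  obtain ⟨σ, hσ⟩ := LinearMap.exists_rightInverse_of_surjective ψ (LinearMap.range_eq_top.mpr hψ)
  have hψσ : ∀ v, ψ (σ v) = v := fun v => LinearMap.congr_fun hσ v
  have hsum : ∀ (v : chsN p N) (y : Γ), (v : Γ → ZMod p) y =
      ∑ a, σ v a * (ψ (fun j => if a = j then 1 else 0) : Γ → ZMod p) y := by
    intro v y
    conv_lhs => rw [← hψσ v, LinearMap.pi_apply_eq_sum_univ ψ (σ v)]
    rw [Submodule.coe_sum, Finset.sum_apply]
    rfl
  -- the rows of the form
  let B : Γ → chsN p N := fun x => ⟨fun y => b x y, ⟨fun y z => h2 x y z, fun n hn => h3 x n hn⟩⟩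
  have hB : ∀ x x', B (x * x') = B x + B x' := fun x x' => Subtype.ext (funext fun y => h1 x x' y)
  have hBn : ∀ n ∈ N, B n = 0 := fun n hn => Subtype.ext (funext fun y => h4 n hn y)
  let c : Fin r → chsN p N := fun a => ⟨fun x => σ (B x) a, ⟨fun x x' => by
      show σ (B (x * x')) a = σ (B x) a + σ (B x') a
      rw [hB, map_add]
      rfl, fun n hn => by
      show σ (B n) a = 0
      rw [hBn n hn, map_zero]
      rfl⟩⟩
  refine ⟨fun a => (ψ (fun j => if a = j then 1 else 0) : Γ → ZMod p),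
    Matrix.of fun a d => σ (c d) a, fun a => (ψ (fun j => if a = j then 1 else 0)).2, fun x y => ?_⟩
  have e1 : b x y = ∑ d, σ (B x) d * (ψ (fun j => if d = j then 1 else 0) : Γ → ZMod p) y :=
    hsum (B x) y
  have e2 : ∀ d, σ (B x) d = ∑ a, σ (c d) a * (ψ (fun j => if a = j then 1 else 0) : Γ → ZMod p) x :=
    fun d => hsum (c d) x
  rw [e1, Finset.sum_comm]
  refine Finset.sum_congr rfl fun d _ => ?_
  rw [e2 d, Finset.sum_mul]
  rfl

/-- Only finitely many characters vanish on a subgroup of finite index (they factor through the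
finite set `Γ ⧸ N`). -/
theorem chsN_finite (p : ℕ) [Fact p.Prime] {Γ : Type} [Group Γ] (N : Subgroup Γ)
    [N.FiniteIndex] : Module.Finite (ZMod p) (chsN p N) := by
  have : Finite (Γ ⧸ N) := Subgroup.finite_quotient_of_finiteIndex
  let L : chsN p N →ₗ[ZMod p] (Γ ⧸ N → ZMod p) :=
    { toFun := fun φ q => (φ : Γ → ZMod p) (Quotient.out q)
      map_add' := fun φ φ' => rfl
      map_smul' := fun a φ => rfl }
  refine Module.Finite.of_injective L fun φ φ' h => ?_
  have key : ∀ (ψ : chsN p N) (x : Γ), (ψ : Γ → ZMod p) x = L ψ (QuotientGroup.mk x) := by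
    intro ψ x
    show (ψ : Γ → ZMod p) x = (ψ : Γ → ZMod p) (Quotient.out (QuotientGroup.mk x : Γ ⧸ N))
    obtain ⟨n, hn⟩ := QuotientGroup.mk_out_eq_mul N x
    rw [hn, ψ.2.1, ψ.2.2 n n.2, add_zero]
  refine Subtype.ext (funext fun x => ?_)
  rw [key φ x, key φ' x, h]

end Pool.Agent.MPca71X
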