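import Pool.Agent.Lib.MP_ca71b5_ntX.G1
import Pool.Agent.Lib.MP_ca71b5_ntX.G2
set_option autoImplicit false
open scoped Matrix

/-! Job G3 (medium): the quotients are abelian (paper 286, 6.3). -/

namespace Pool.Agent.MPca71X

private theorem G3_pgroup {p : ℕ} {Γ : Type} [Group Γ] (N : Subgroup Γ) [N.Normal]
    (hp : ∀ g : Γ, ∃ k : ℕ, g ^ p ^ k ∈ N) : IsPGroup p (Γ ⧸ N) := by
  intro q
  obtain ⟨g, rfl⟩ := QuotientGroup.mk_surjective q
  obtain ⟨k, hk⟩ := hp g
  exact ⟨k, by rw [← QuotientGroup.mk_pow]; exact (QuotientGroup.eq_one_iff _).2 hk⟩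

private theorem G3_comm {Γ : Type} [Group Γ] (N : Subgroup Γ) [N.Normal] {g g' : Γ} :
    g * g' * g⁻¹ * g'⁻¹ ∈ N ↔ (g : Γ ⧸ N) * (g' : Γ ⧸ N) = (g' : Γ ⧸ N) * (g : Γ ⧸ N) := by
  rw [← QuotientGroup.eq_one_iff]
  simp only [QuotientGroup.mk_mul, QuotientGroup.mk_inv]
  constructor
  · intro h
    rw [mul_inv_eq_one, mul_inv_eq_iff_eq_mul] at h
    exact h
  · intro h
    rw [h]
    group

/-- Suppose `Q = Γ ⧸ N` (a finite `p`-group) is not abelian. Take `b` from `exists_comm_form` for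
`Q` and compose with `Γ → Q`; by `form_coords` `b(x,y) = ∑ C a c φ a x φ c y` with
`φ a ∈ chsN p N`. `φ a` has open kernel (it contains the open subgroup `N`) and kills
`I ∩ K0 ⊆ N`, so by `GEN` `φ a = ∑ i, U a i χ i`. So `b(x,y) = ∑ B i i' χ i x χ i' y`,
`B = Uᵀ C U`, and `B ≠ 0` since `b ≠ 0`. `b (x j) (x j) = 0` gives `(u j)² (G B Gᵀ) j j = 0`, so
`(G B Gᵀ) j j = 0`. `x j` and `y j` commute modulo `N` (`xy`, `I ∩ K0 ⊆ N`), so
`0 = b (x j) (y j) = u j ∑ i', (G B) j i' χ i' (y j)
 = u j (∑ i', (G B) j i' S j i' + ∑ j', (G B Gᵀ) j j' f j j')`, and the term `j' = j` is `0`. So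
all the expressions in `GoodS` vanish for this `U, C`, a contradiction. -/
theorem quot_abelian {p t d r : ℕ} [Fact p.Prime] {Γ : Type} [Group Γ] [TopologicalSpace Γ]
    [IsTopologicalGroup Γ] {I : Set Γ} {K0 : Subgroup Γ} {χ : Fin d → Γ → ZMod p}
    {x y : Fin t → Γ} {u : Fin t → ZMod p} {G S : Matrix (Fin t) (Fin d) (ZMod p)}
    {f : Fin t → Fin t → ZMod p} (h : FMData p t d r Γ I K0 χ x y u G S f)
    (N : Subgroup Γ) [N.Normal] [N.FiniteIndex] (hNo : IsOpen (N : Set Γ))
    (hp : ∀ g : Γ, ∃ k : ℕ, g ^ p ^ k ∈ N) (hI : ∀ g ∈ I, g ∈ K0 → g ∈ N)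
    (hr : Module.finrank (ZMod p) (chsN p N) ≤ r) (g g' : Γ) :
    g * g' * g⁻¹ * g'⁻¹ ∈ N := by
  by_contra hna
  have hfinQ : Finite (Γ ⧸ N) := inferInstance
  obtain ⟨b, hb1, hb2, hb3, gx, gy, hb4⟩ := exists_comm_form p (G3_pgroup N hp)
    ⟨(g : Γ ⧸ N), (g' : Γ ⧸ N), fun hc => hna ((G3_comm N).2 hc)⟩
  have hb0 : ∀ q, b q 1 = 0 := fun q => by
    have := hb2 q 1 1
    rw [mul_one] at this
    exact (left_eq_add.1 this)
  have hb0' : ∀ q, b 1 q = 0 := fun q => by
    have := hb1 1 1 q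
    rw [mul_one] at this
    exact (left_eq_add.1 this)
  obtain ⟨φ, C, hφ, hbφ⟩ := form_coords p N (chsN_finite p N) r hr
    (fun x y => b (x : Γ ⧸ N) (y : Γ ⧸ N))
    (fun x y z => by rw [QuotientGroup.mk_mul]; exact hb1 _ _ _)
    (fun x y z => by rw [QuotientGroup.mk_mul]; exact hb2 _ _ _)
    (fun x n hn => by
      rw [(QuotientGroup.eq_one_iff n).2 hn]; exact hb0 _)
    (fun n hn x => by
      rw [(QuotientGroup.eq_one_iff n).2 hn]; exact hb0' _)
  -- the coordinates of the characters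
  have hU : ∀ a, ∃ U : Fin d → ZMod p, ∀ g, φ a g = ∑ i, U i * χ i g := by
    intro a
    refine h.GEN (φ a) (hφ a).1 ?_ fun g hg hgK => (hφ a).2 g (hI g hg hgK)
    have hadd := (hφ a).1
    have h1 : φ a 1 = 0 := (hφ a).2 1 N.one_mem
    let H : Subgroup Γ :=
      { carrier := {g : Γ | φ a g = 0}
        one_mem' := h1
        mul_mem' := fun {x y} hx hy => by
          show φ a (x * y) = 0
          rw [hadd x y, show φ a x = 0 from hx, show φ a y = 0 from hy, add_zero]
        inv_mem' := fun {x} hx => by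
          show φ a x⁻¹ = 0
          have h2 := hadd x x⁻¹
          rw [mul_inv_cancel, h1, show φ a x = 0 from hx, zero_add] at h2
          exact h2.symm }
    have hle : N ≤ H := fun n hn => (hφ a).2 n hn
    exact Subgroup.isOpen_mono hle hNo
  choose U0 hU0 using hU
  let U : Matrix (Fin r) (Fin d) (ZMod p) := Matrix.of U0
  set B : Matrix (Fin d) (Fin d) (ZMod p) := Uᵀ * C * U with hB
  have hφU : ∀ a g, φ a g = (U *ᵥ fun i => χ i g) a := fun a g => by
    rw [hU0 a g]
    rfl
  have hbB : ∀ x y : Γ, b (x : Γ ⧸ N) (y : Γ ⧸ N) = (fun i => χ i x) ⬝ᵥ (B *ᵥ fun i => χ i y) := by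
    intro x y
    have h1 := hbφ x y
    rw [h1, hB, ← Matrix.mulVec_mulVec, ← Matrix.mulVec_mulVec, Matrix.dotProduct_mulVec,
      Matrix.vecMul_transpose]
    simp only [dotProduct, Matrix.mulVec, Finset.mul_sum]
    refine Finset.sum_congr rfl fun a _ => Finset.sum_congr rfl fun c _ => ?_
    rw [hU0 a x, hU0 c y]
    simp only [U, Matrix.of_apply, Finset.mul_sum, Finset.sum_mul]
    refine Finset.sum_congr rfl fun i _ => Finset.sum_congr rfl fun i' _ => ?_
    ring
  have hBne : B ≠ 0 := by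
    intro hB0
    obtain ⟨x', rfl⟩ := QuotientGroup.mk_surjective gx
    obtain ⟨y', rfl⟩ := QuotientGroup.mk_surjective gy
    apply hb4
    rw [hbB, hB0]
    simp
  obtain ⟨j, hj⟩ := h.good U C hBne
  apply hj
  rw [← hB]
  -- the rows
  have hx : (fun i => χ i (x j)) = u j • G j := by
    funext i
    rw [h.chx i j]
    rfl
  have hGB : ∀ w : Fin d → ZMod p, G j ⬝ᵥ (B *ᵥ w) = ∑ i, (G * B) j i * w i := by
    intro w
    rw [Matrix.dotProduct_mulVec]
    rfl
  have hdiag : (G * B * Gᵀ) j j = 0 := by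
    have h1 : b (x j : Γ ⧸ N) (x j : Γ ⧸ N) = 0 := hb3 _ _ rfl
    rw [hbB, hx, Matrix.mulVec_smul, dotProduct_smul, smul_dotProduct, smul_smul,
      smul_eq_mul] at h1
    have h2 : G j ⬝ᵥ (B *ᵥ G j) = 0 := by
      rcases mul_eq_zero.1 h1 with h3 | h3
      · exact absurd h3 (mul_ne_zero (h.une j) (h.une j))
      · exact h3
    rw [hGB] at h2
    exact h2
  have hxy : ∑ i, (G * B) j i * χ i (y j) = 0 := by
    have h1 : b (x j : Γ ⧸ N) (y j : Γ ⧸ N) = 0 :=
      hb3 _ _ ((G3_comm N).1 (hI _ (h.xy j).1 (h.xy j).2))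
    rw [hbB, hx, smul_dotProduct, smul_eq_mul] at h1
    rcases mul_eq_zero.1 h1 with h3 | h3
    · exact absurd h3 (h.une j)
    · rwa [hGB] at h3
  have hsplit : ∑ i, (G * B) j i * χ i (y j) =
      ∑ i, (G * B) j i * S j i + ∑ j', (G * B * Gᵀ) j j' * f j j' := by
    have h1 : ∀ i, (G * B) j i * χ i (y j) =
        (G * B) j i * S j i + ∑ j', (G * B) j i * G j' i * f j j' := by
      intro i
      rw [h.chy i j, mul_add, Finset.mul_sum]
      congr 1
      exact Finset.sum_congr rfl fun j' _ => by ring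
    rw [Finset.sum_congr rfl fun i _ => h1 i, Finset.sum_add_distrib]
    congr 1
    rw [Finset.sum_comm]
    refine Finset.sum_congr rfl fun j' _ => ?_
    rw [Matrix.mul_apply, Finset.sum_mul]
    rfl
  rw [Finset.sum_erase Finset.univ (f := fun j' => (G * B * Gᵀ) j j' * f j j')
    (by rw [hdiag, zero_mul]), ← hsplit]
  exact hxy

/-- The subgroup generated by `N` and `I` is normal (`Iconj`), open, and contains `I`; by `U` it is
everything. For `x ∈ I`: `x ^ p ∈ K0` (`K0` normal of index `p`) and `x ^ p ∈ I`, so `x ^ p ∈ N`.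
Modulo `N` the group is abelian, so the elements with `g ^ p ∈ N` form a subgroup; it contains
`N` and `I`. -/
theorem quot_exponent {p t d r : ℕ} [Fact p.Prime] {Γ : Type} [Group Γ] [TopologicalSpace Γ]
    [IsTopologicalGroup Γ] {I : Set Γ} {K0 : Subgroup Γ} {χ : Fin d → Γ → ZMod p}
    {x y : Fin t → Γ} {u : Fin t → ZMod p} {G S : Matrix (Fin t) (Fin d) (ZMod p)}
    {f : Fin t → Fin t → ZMod p} (h : FMData p t d r Γ I K0 χ x y u G S f)
    (N : Subgroup Γ) [N.Normal] [N.FiniteIndex] (hNo : IsOpen (N : Set Γ))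
    (hp : ∀ g : Γ, ∃ k : ℕ, g ^ p ^ k ∈ N) (hI : ∀ g ∈ I, g ∈ K0 → g ∈ N)
    (hr : Module.finrank (ZMod p) (chsN p N) ≤ r) (g : Γ) : g ^ p ∈ N := by
  have hab := quot_abelian h N hNo hp hI hr
  let E : Subgroup Γ :=
    { carrier := {g : Γ | g ^ p ∈ N}
      one_mem' := by
        show (1 : Γ) ^ p ∈ N
        rw [one_pow]
        exact N.one_mem
      mul_mem' := fun {a b} ha hb => by
        show (a * b) ^ p ∈ N
        have ha' : ((a ^ p : Γ) : Γ ⧸ N) = 1 := (QuotientGroup.eq_one_iff _).2 ha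
        have hb' : ((b ^ p : Γ) : Γ ⧸ N) = 1 := (QuotientGroup.eq_one_iff _).2 hb
        have hc : Commute (a : Γ ⧸ N) (b : Γ ⧸ N) := (G3_comm N).1 (hab a b)
        rw [← QuotientGroup.eq_one_iff, QuotientGroup.mk_pow, QuotientGroup.mk_mul, hc.mul_pow,
          ← QuotientGroup.mk_pow, ← QuotientGroup.mk_pow, ha', hb', mul_one]
      inv_mem' := fun {a} ha => by
        show a⁻¹ ^ p ∈ N
        rw [inv_pow]
        exact N.inv_mem ha }
  have hNE : N ≤ E := fun n hn => N.pow_mem hn p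
  have hEn : E.Normal := ⟨fun n hn g => by
    show (g * n * g⁻¹) ^ p ∈ N
    rw [conj_pow]
    exact (inferInstance : N.Normal).conj_mem _ hn g⟩
  have hEo : IsOpen (E : Set Γ) := Subgroup.isOpen_mono hNE hNo
  have hEI : I ⊆ E := fun a ha => by
    show a ^ p ∈ N
    refine hI _ (h.Ipow a ha p) ?_
    have hK : K0.Normal := h.K0n
    have h1 := Subgroup.pow_index_mem K0 a
    rwa [h.K0i] at h1
  have hE : E = ⊤ := h.U E hEn hEo (fun g => by
    obtain ⟨k, hk⟩ := hp g
    exact ⟨k, hNE hk⟩) hEI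
  have : g ∈ E := by rw [hE]; exact Subgroup.mem_top g
  exact this

private theorem G3_card {p : ℕ} [Fact p.Prime] {Γ A : Type} [Group Γ] [AddCommGroup A]
    [Module (ZMod p) A] [Finite A] (N : Subgroup Γ)
    (π : Γ →* Multiplicative A) (hπ : Function.Surjective π) (hN : ∀ g, g ∈ N ↔ π g = 1) :
    Nat.card A = p ^ Module.finrank (ZMod p) (chsN p N) := by
  have hmf : Module.Finite (ZMod p) A := Module.Finite.of_finite
  have hcard : Nat.card A = p ^ Module.finrank (ZMod p) A := by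
    have := Module.natCard_eq_pow_finrank (K := ZMod p) (V := A)
    rwa [Nat.card_zmod] at this
  -- the dual
  let T : Module.Dual (ZMod p) A →ₗ[ZMod p] chsN p N :=
    { toFun := fun ℓ => ⟨fun g => ℓ (π g).toAdd,
        fun x y => by
          show ℓ (π (x * y)).toAdd = ℓ (π x).toAdd + ℓ (π y).toAdd
          rw [map_mul, toAdd_mul, map_add],
        fun n hn => by
          show ℓ (π n).toAdd = 0
          rw [(hN n).1 hn, toAdd_one, map_zero]⟩
      map_add' := fun a b => rfl
      map_smul' := fun a b => rfl }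
  have hT : Function.Bijective T := by
    constructor
    · intro a b hab'
      refine LinearMap.ext fun q => ?_
      obtain ⟨g, hg⟩ := hπ (Multiplicative.ofAdd q)
      have h1 : q = (π g).toAdd := by rw [hg]; rfl
      rw [h1]
      exact congrFun (congrArg Subtype.val hab') g
    · rintro ⟨φ, hφ1, hφ2⟩
      have h1 : φ 1 = 0 := hφ2 1 (Subgroup.one_mem _)
      let F : Γ →* Multiplicative (ZMod p) :=
        { toFun := fun g => Multiplicative.ofAdd (φ g)
          map_one' := by rw [h1]; rfl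
          map_mul' := fun a b => by rw [hφ1 a b]; rfl }
      have hF : π.ker ≤ F.ker := fun n hn => by
        rw [MonoidHom.mem_ker]
        show Multiplicative.ofAdd (φ n) = 1
        rw [hφ2 n ((hN n).2 hn)]
        rfl
      let F' : Multiplicative A →* Multiplicative (ZMod p) := π.liftOfSurjective hπ ⟨F, hF⟩
      have hF' : ∀ g, F' (π g) = F g := fun g =>
        MonoidHom.liftOfRightInverse_comp_apply _ _ _ ⟨F, hF⟩ g
      let B : A →+ ZMod p :=
        { toFun := fun q => (F' (Multiplicative.ofAdd q)).toAdd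
          map_zero' := by
            show (F' 1).toAdd = 0
            rw [map_one]
            rfl
          map_add' := fun a b => by
            show (F' (Multiplicative.ofAdd a * Multiplicative.ofAdd b)).toAdd = _
            rw [map_mul]
            rfl }
      refine ⟨B.toZModLinearMap p, ?_⟩
      apply Subtype.ext
      funext g
      show (F' (π g)).toAdd = φ g
      rw [hF']
      rfl
  have hrank := (LinearEquiv.ofBijective T hT).finrank_eq
  rw [hcard, ← hrank, Subspace.dual_finrank_eq]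

/-- `Γ ⧸ N` is a finite abelian group killed by `p`, i.e. a finite dimensional vector space over
`ZMod p`; its dual has the same dimension and is `chsN p N`. So the index is
`p ^ finrank (chsN p N) ≤ p ^ r`. -/
theorem quot_card {p : ℕ} [Fact p.Prime] {Γ : Type} [Group Γ]
    (N : Subgroup Γ) [N.Normal] [N.FiniteIndex] (hab : ∀ g g' : Γ, g * g' * g⁻¹ * g'⁻¹ ∈ N)
    (hexp : ∀ g : Γ, g ^ p ∈ N) : N.index = p ^ Module.finrank (ZMod p) (chsN p N) := by
  let inst : CommGroup (Γ ⧸ N) :=
    { (inferInstance : Group (Γ ⧸ N)) with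
      mul_comm := fun a b => by
        obtain ⟨a, rfl⟩ := QuotientGroup.mk_surjective a
        obtain ⟨b, rfl⟩ := QuotientGroup.mk_surjective b
        exact (G3_comm N).1 (hab a b) }
  let inst2 : AddCommGroup (Additive (Γ ⧸ N)) := Additive.addCommGroup
  have hkill : ∀ q : Additive (Γ ⧸ N), p • q = 0 := by
    intro q
    obtain ⟨g, hg⟩ := QuotientGroup.mk_surjective q.toMul
    have h1 : q = Additive.ofMul (g : Γ ⧸ N) := by rw [hg]; rfl
    rw [h1]
    exact congrArg Additive.ofMul ((QuotientGroup.eq_one_iff _).2 (hexp g))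
  let inst3 : Module (ZMod p) (Additive (Γ ⧸ N)) := AddCommGroup.zmodModule hkill
  have hfin : Finite (Additive (Γ ⧸ N)) := inferInstanceAs (Finite (Γ ⧸ N))
  let π : Γ →* Multiplicative (Additive (Γ ⧸ N)) :=
    { toFun := fun g => Multiplicative.ofAdd (Additive.ofMul (g : Γ ⧸ N))
      map_one' := rfl
      map_mul' := fun _ _ => rfl }
  have h1 := @G3_card p _ Γ (Additive (Γ ⧸ N)) _ inst2 inst3 hfin N π
    (fun q => by
      obtain ⟨g, hg⟩ := QuotientGroup.mk_surjective (Additive.toMul (Multiplicative.toAdd q))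
      exact ⟨g, congrArg (fun z => Multiplicative.ofAdd (Additive.ofMul z)) hg⟩)
    fun g => by
      constructor
      · intro hg
        exact congrArg (fun z => Multiplicative.ofAdd (Additive.ofMul z))
          ((QuotientGroup.eq_one_iff g).2 hg)
      · intro hg
        exact (QuotientGroup.eq_one_iff g).1
          (congrArg (fun z => Additive.toMul (Multiplicative.toAdd z)) hg)
  exact h1

end Pool.Agent.MPca71X
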