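import Pool.Agent.Lib.MP_ca71b5_ntX.G0
set_option autoImplicit false
open scoped Matrix

/-! Job L1 (medium): existence of the code (paper 286, LA1), by counting. -/

namespace Pool.Agent.MPca71X

/-- For `b ≠ 0` the number of `g : Fin d → ZMod p` with `∑ g = 1` and `∑ g i b i = 0` is at most
`p ^ (d - 1) / p`: if `b` is constant (`b = c ≠ 0`) then `∑ g i b i = c ≠ 0`; otherwise the two
linear forms `∑ g i`, `∑ g i b i` are independent, exactly `p ^ (d - 2)` solutions. And the number of `g`
with `∑ g = 1` is `p ^ (d - 1)`. Stated without division. -/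
theorem row_count (p : ℕ) [Fact p.Prime] (d : ℕ) (b : Fin d → ZMod p) (hb : b ≠ 0) :
    p * (Finset.univ.filter (fun g : Fin d → ZMod p => ∑ i, g i = 1 ∧ ∑ i, g i * b i = 0)).card ≤
      (Finset.univ.filter (fun g : Fin d → ZMod p => ∑ i, g i = 1)).card := by
  classical
  by_cases hcst : ∀ i j, b i = b j
  · have hemp : Finset.univ.filter
        (fun g : Fin d → ZMod p => ∑ i, g i = 1 ∧ ∑ i, g i * b i = 0) = ∅ := by
      refine Finset.filter_eq_empty_iff.2 fun g _ hg => ?_
      obtain ⟨i0, hi0⟩ := Function.ne_iff.1 hb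
      have h1 : ∑ i, g i * b i = (∑ i, g i) * b i0 := by
        rw [Finset.sum_mul]
        exact Finset.sum_congr rfl fun i _ => by rw [hcst i i0]
      rw [hg.1, one_mul, hg.2] at h1
      exact hi0 h1.symm
    rw [hemp]
    simp
  · push Not at hcst
    obtain ⟨i0, i1, h01⟩ := hcst
    have hne : i0 ≠ i1 := fun h => h01 (by rw [h])
    set v : Fin d → ZMod p := Pi.single i0 1 - Pi.single i1 1 with hv
    have hv0 : ∑ i, v i = 0 := by
      simp [hv, Finset.sum_sub_distrib]
    have hvb : ∑ i, v i * b i = b i0 - b i1 := by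
      simp [hv, sub_mul, Finset.sum_sub_distrib, Pi.single_apply]
    have hvb0 : b i0 - b i1 ≠ 0 := sub_ne_zero.2 h01
    calc p * (Finset.univ.filter
          (fun g : Fin d → ZMod p => ∑ i, g i = 1 ∧ ∑ i, g i * b i = 0)).card
        = ((Finset.univ : Finset (ZMod p)) ×ˢ (Finset.univ.filter
          (fun g : Fin d → ZMod p => ∑ i, g i = 1 ∧ ∑ i, g i * b i = 0))).card := by
          rw [Finset.card_product, Finset.card_univ, ZMod.card]
      _ ≤ _ := by
          refine Finset.card_le_card_of_injOn (fun z => z.2 + z.1 • v) ?_ ?_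
          · intro z hz
            simp only [Finset.coe_product, Finset.coe_univ, Finset.coe_filter, Set.mem_prod,
              Set.mem_univ, true_and, Finset.mem_univ, Set.mem_ofPred_eq] at hz ⊢
            simp only [Pi.add_apply, Pi.smul_apply, smul_eq_mul, Finset.sum_add_distrib,
              ← Finset.mul_sum, hv0, mul_zero, add_zero]
            exact hz.1
          · intro z hz z' hz' h
            simp only [Finset.coe_product, Finset.coe_univ, Finset.coe_filter, Set.mem_prod,
              Set.mem_univ, true_and, Finset.mem_univ, Set.mem_ofPred_eq] at hz hz'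
            have key : ∀ w : ZMod p × (Fin d → ZMod p), ∑ i, w.2 i * b i = 0 →
                ∑ i, (w.2 + w.1 • v) i * b i = w.1 * (b i0 - b i1) := by
              intro w hw
              simp only [Pi.add_apply, Pi.smul_apply, smul_eq_mul, add_mul,
                Finset.sum_add_distrib, hw, zero_add, mul_assoc, ← Finset.mul_sum, hvb]
            have h1 := key z hz.2
            have h2 := key z' hz'.2
            have h' : z.2 + z.1 • v = z'.2 + z'.1 • v := h
            rw [h', h2] at h1
            have h3 : z'.1 = z.1 := mul_right_cancel₀ hvb0 h1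
            rw [h3] at h'
            exact Prod.ext h3.symm (add_right_cancel h')

private theorem L1_bad {X : Type} [DecidableEq X] (p δ : ℕ) (hp : 1 ≤ p) (R Rb : Finset X)
    (h : p * Rb.card ≤ R.card) :
    p ^ (7 * δ) * ((Fintype.piFinset fun _ : Fin (8 * δ) => R).filter
      (fun G => (Finset.univ.filter (fun j => G j ∉ Rb)).card < δ)).card ≤
      2 ^ (8 * δ) * R.card ^ (8 * δ) := by
  classical
  have hsub : (Fintype.piFinset fun _ : Fin (8 * δ) => R).filter
      (fun G => (Finset.univ.filter (fun j => G j ∉ Rb)).card < δ) ⊆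
      ((Finset.univ : Finset (Finset (Fin (8 * δ)))).filter (fun J => J.card < δ)).biUnion
        (fun J => Fintype.piFinset fun j => if j ∈ J then R else Rb) := by
    intro G hG
    rw [Finset.mem_filter, Fintype.mem_piFinset] at hG
    rw [Finset.mem_biUnion]
    refine ⟨Finset.univ.filter (fun j => G j ∉ Rb), ?_, ?_⟩
    · rw [Finset.mem_filter]
      exact ⟨Finset.mem_univ _, hG.2⟩
    · rw [Fintype.mem_piFinset]
      intro j
      by_cases hj : G j ∈ Rb
      · rw [if_neg (by simp [hj])]; exact hj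
      · rw [if_pos (by simp [hj])]; exact hG.1 j
  have hJ : ∀ J ∈ (Finset.univ : Finset (Finset (Fin (8 * δ)))).filter (fun J => J.card < δ),
      p ^ (7 * δ) * (Fintype.piFinset fun j => if j ∈ J then R else Rb).card ≤
        R.card ^ (8 * δ) := by
    intro J hJ
    rw [Finset.mem_filter] at hJ
    have hJ' := hJ.2
    have e1 : ∏ j : Fin (8 * δ), (if j ∈ J then 1 else p) = p ^ (8 * δ - J.card) := by
      rw [Finset.prod_ite, Finset.prod_const_one, one_mul, Finset.prod_const]
      congr 1
      have : (Finset.univ.filter fun j => j ∉ J) = Jᶜ := by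
        ext j; simp
      rw [this, Finset.card_compl, Fintype.card_fin]
    calc p ^ (7 * δ) * (Fintype.piFinset fun j => if j ∈ J then R else Rb).card
        ≤ p ^ (8 * δ - J.card) * (Fintype.piFinset fun j => if j ∈ J then R else Rb).card :=
          Nat.mul_le_mul_right _ (Nat.pow_le_pow_right hp (by omega))
      _ = ∏ j : Fin (8 * δ), ((if j ∈ J then 1 else p) * (if j ∈ J then R else Rb).card) := by
          rw [← e1, Fintype.card_piFinset, Finset.prod_mul_distrib]
      _ ≤ ∏ _j : Fin (8 * δ), R.card := by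
          refine Finset.prod_le_prod (fun _ _ => Nat.zero_le _) fun j _ => ?_
          split_ifs
          · rw [one_mul]
          · exact h
      _ = R.card ^ (8 * δ) := by simp
  calc p ^ (7 * δ) * ((Fintype.piFinset fun _ : Fin (8 * δ) => R).filter
      (fun G => (Finset.univ.filter (fun j => G j ∉ Rb)).card < δ)).card
      ≤ p ^ (7 * δ) * ∑ J ∈ (Finset.univ : Finset (Finset (Fin (8 * δ)))).filter
          (fun J => J.card < δ), (Fintype.piFinset fun j => if j ∈ J then R else Rb).card :=
        Nat.mul_le_mul_left _ ((Finset.card_le_card hsub).trans Finset.card_biUnion_le)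
    _ = ∑ J ∈ (Finset.univ : Finset (Finset (Fin (8 * δ)))).filter (fun J => J.card < δ),
          p ^ (7 * δ) * (Fintype.piFinset fun j => if j ∈ J then R else Rb).card := by
        rw [Finset.mul_sum]
    _ ≤ ∑ _J ∈ (Finset.univ : Finset (Finset (Fin (8 * δ)))).filter (fun J => J.card < δ),
          R.card ^ (8 * δ) := Finset.sum_le_sum hJ
    _ ≤ 2 ^ (8 * δ) * R.card ^ (8 * δ) := by
        rw [Finset.sum_const, smul_eq_mul]
        refine Nat.mul_le_mul_right _ ((Finset.card_filter_le _ _).trans ?_)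
        rw [Finset.card_univ, Fintype.card_finset, Fintype.card_fin]

/-- Counting. Let `M = p ^ (d - 1)` be the number of rows with sum `1`. The matrices with row sums
`1` are `M ^ (8 δ)` many. For `b ≠ 0` those with fewer than `δ` nonzero entries in `G b`: choose
the set of the `j` with `(G b) j ≠ 0` (at most `2 ^ (8 δ)` sets, of size `< δ`), the other
`> 7 δ` rows have at most `M / p` choices: at most `2 ^ (8 δ) M ^ (8 δ) / p ^ (7 δ)`. Since
`p ^ d 2 ^ (8 δ) < p ^ (7 δ)` (`p ≥ 3`, `d ≤ δ`, `2 ^ 8 = 256 < 729 = 3 ^ 6`), not all matrices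
are bad. -/
theorem exists_code (p : ℕ) [Fact p.Prime] (hp : 3 ≤ p) (d δ : ℕ) (hd : 1 ≤ d) (hδ : d ≤ δ) :
    ∃ G : Matrix (Fin (8 * δ)) (Fin d) (ZMod p), IsCode p (8 * δ) d δ G := by
  classical
  by_contra hcon
  push Not at hcon
  set R : Finset (Fin d → ZMod p) := Finset.univ.filter (fun g => ∑ i, g i = 1) with hR
  set Rb : (Fin d → ZMod p) → Finset (Fin d → ZMod p) := fun b =>
    Finset.univ.filter (fun g => ∑ i, g i = 1 ∧ ∑ i, g i * b i = 0) with hRb
  have hRpos : 0 < R.card := by
    rw [Finset.card_pos]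
    refine ⟨Pi.single ⟨0, by omega⟩ 1, ?_⟩
    simp [hR]
  have hcover : (Fintype.piFinset fun _ : Fin (8 * δ) => R) ⊆
      ((Finset.univ : Finset (Fin d → ZMod p)).filter (fun b => b ≠ 0)).biUnion (fun b =>
        (Fintype.piFinset fun _ : Fin (8 * δ) => R).filter
      (fun G => (Finset.univ.filter (fun j => G j ∉ Rb b)).card < δ)) := by
    intro G hG
    rw [Fintype.mem_piFinset] at hG
    have hG1 : ∀ j, ∑ i, G j i = 1 := fun j => by
      have := hG j
      simpa [hR] using this
    have h1 := hcon G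
    unfold IsCode at h1
    push Not at h1
    obtain ⟨b, hb, hlt⟩ := h1 hG1
    rw [Finset.mem_biUnion]
    refine ⟨b, by simp [hb], ?_⟩
    rw [Finset.mem_filter, Fintype.mem_piFinset]
    refine ⟨hG, lt_of_le_of_lt (Finset.card_le_card ?_) hlt⟩
    intro j hj
    rw [Finset.mem_filter] at hj ⊢
    refine ⟨Finset.mem_univ _, fun h0 => hj.2 ?_⟩
    simp only [hRb, Finset.mem_filter, Finset.mem_univ, true_and]
    exact ⟨hG1 j, h0⟩
  have hcard := (Finset.card_le_card hcover).trans Finset.card_biUnion_le
  have h2 : p ^ (7 * δ) * R.card ^ (8 * δ) ≤ p ^ d * (2 ^ (8 * δ) * R.card ^ (8 * δ)) := by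
    calc p ^ (7 * δ) * R.card ^ (8 * δ)
        = p ^ (7 * δ) * (Fintype.piFinset fun _ : Fin (8 * δ) => R).card := by
          rw [Fintype.card_piFinset]; simp
      _ ≤ p ^ (7 * δ) * _ := Nat.mul_le_mul_left _ hcard
      _ = _ := Finset.mul_sum _ _ _
      _ ≤ ∑ _b ∈ (Finset.univ : Finset (Fin d → ZMod p)).filter (fun b => b ≠ 0),
            2 ^ (8 * δ) * R.card ^ (8 * δ) := by
          refine Finset.sum_le_sum fun b hb => ?_
          rw [Finset.mem_filter] at hb
          exact L1_bad p δ (by omega) R (Rb b) (row_count p d b hb.2)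
      _ ≤ p ^ d * (2 ^ (8 * δ) * R.card ^ (8 * δ)) := by
          rw [Finset.sum_const, smul_eq_mul]
          refine Nat.mul_le_mul_right _ ((Finset.card_filter_le _ _).trans ?_)
          rw [Finset.card_univ, Fintype.card_fun, Fintype.card_fin, ZMod.card]
  have h3 : p ^ d * 2 ^ (8 * δ) < p ^ (7 * δ) := by
    have h4 : p ^ d ≤ p ^ δ := Nat.pow_le_pow_right (by omega) hδ
    have h5 : 2 ^ (8 * δ) < p ^ (6 * δ) := by
      calc 2 ^ (8 * δ) = (2 ^ 8) ^ δ := by rw [pow_mul]
        _ < (3 ^ 6) ^ δ := Nat.pow_lt_pow_left (by norm_num) (by omega)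
        _ = 3 ^ (6 * δ) := by rw [pow_mul]
        _ ≤ p ^ (6 * δ) := Nat.pow_le_pow_left hp _
    calc p ^ d * 2 ^ (8 * δ) < p ^ δ * p ^ (6 * δ) :=
          Nat.mul_lt_mul_of_le_of_lt h4 h5 (Nat.pos_of_ne_zero (by positivity))
      _ = p ^ (7 * δ) := by rw [← pow_add]; congr 1; ring
  have h6 : 0 < R.card ^ (8 * δ) := Nat.pow_pos hRpos
  have h7 := Nat.mul_lt_mul_of_pos_right h3 h6
  rw [← mul_assoc] at h2
  omega

end Pool.Agent.MPca71X
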