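import Pool.Agent.Lib.MP_ca71b5_ntX.G0
set_option autoImplicit false
open scoped Matrix

/-! Job L2 (medium): existence of the residues (paper 286, LA2), by counting. -/

namespace Pool.Agent.MPca71X

private theorem L2_row (p : ℕ) [Fact p.Prime] (d : ℕ) (a : Fin d → ZMod p) (ha : a ≠ 0)
    (c : ZMod p) :
    p * (Finset.univ.filter (fun s : Fin d → ZMod p => ∑ i, a i * s i + c = 0)).card ≤ p ^ d := by
  classical
  obtain ⟨i0, hi0⟩ := Function.ne_iff.1 ha
  have hi0' : a i0 ≠ 0 := hi0
  set v : Fin d → ZMod p := Pi.single i0 1 with hv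
  have hav : ∑ i, a i * v i = a i0 := by
    simp [hv, Pi.single_apply]
  calc p * (Finset.univ.filter (fun s : Fin d → ZMod p => ∑ i, a i * s i + c = 0)).card
      = ((Finset.univ : Finset (ZMod p)) ×ˢ (Finset.univ.filter
          (fun s : Fin d → ZMod p => ∑ i, a i * s i + c = 0))).card := by
        rw [Finset.card_product, Finset.card_univ, ZMod.card]
    _ ≤ (Finset.univ : Finset (Fin d → ZMod p)).card := by
        refine Finset.card_le_card_of_injOn (fun z => z.2 + z.1 • v) (fun _ _ => by simp) ?_
        intro z hz z' hz' h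
        simp only [Finset.coe_product, Finset.coe_univ, Finset.coe_filter, Set.mem_prod,
          Set.mem_univ, true_and, Finset.mem_univ, Set.mem_ofPred_eq] at hz hz'
        have key : ∀ w : ZMod p × (Fin d → ZMod p), ∑ i, a i * w.2 i + c = 0 →
            ∑ i, a i * (w.2 + w.1 • v) i + c = w.1 * a i0 := by
          intro w hw
          have e : ∀ i, a i * (w.2 + w.1 • v) i = a i * w.2 i + w.1 * (a i * v i) := by
            intro i
            simp only [Pi.add_apply, Pi.smul_apply, smul_eq_mul]
            ring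
          simp only [e, Finset.sum_add_distrib, ← Finset.mul_sum, hav]
          linear_combination hw
        have h1 := key z hz
        have h2 := key z' hz'
        have h' : z.2 + z.1 • v = z'.2 + z'.1 • v := h
        rw [h', h2] at h1
        have h3 : z'.1 = z.1 := mul_right_cancel₀ hi0' h1
        rw [h3] at h'
        exact Prod.ext h3.symm (add_right_cancel h')
    _ = p ^ d := by
        rw [Finset.card_univ, Fintype.card_fun, Fintype.card_fin, ZMod.card]

/-- The set of the `S` which satisfy all the equations. -/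
private theorem L2_bad (p t d δ : ℕ) [Fact p.Prime] (a : Fin t → Fin d → ZMod p)
    (c : Fin t → ZMod p)
    (h : δ ≤ (Finset.univ.filter (fun j => a j ≠ 0)).card) :
    p ^ δ * (Finset.univ.filter (fun S : Fin t → Fin d → ZMod p =>
      ∀ j, ∑ i, a j i * S j i + c j = 0)).card ≤ p ^ (t * d) := by
  classical
  have hp : 1 ≤ p := (Fact.out : p.Prime).one_lt.le
  have e0 : (Finset.univ.filter (fun S : Fin t → Fin d → ZMod p =>
      ∀ j, ∑ i, a j i * S j i + c j = 0)) =
      Fintype.piFinset fun j => Finset.univ.filter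
        (fun s : Fin d → ZMod p => ∑ i, a j i * s i + c j = 0) := by
    ext S
    simp [Fintype.mem_piFinset]
  have e1 : ∏ j : Fin t, (if a j ≠ 0 then p else 1) =
      p ^ (Finset.univ.filter (fun j => a j ≠ 0)).card := by
    rw [Finset.prod_ite, Finset.prod_const_one, mul_one, Finset.prod_const]
  calc p ^ δ * (Finset.univ.filter (fun S : Fin t → Fin d → ZMod p =>
      ∀ j, ∑ i, a j i * S j i + c j = 0)).card
      ≤ (∏ j : Fin t, (if a j ≠ 0 then p else 1)) * (Finset.univ.filter
        (fun S : Fin t → Fin d → ZMod p => ∀ j, ∑ i, a j i * S j i + c j = 0)).card := by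
        rw [e1]
        exact Nat.mul_le_mul_right _ (Nat.pow_le_pow_right hp h)
    _ = ∏ j : Fin t, ((if a j ≠ 0 then p else 1) * (Finset.univ.filter
        (fun s : Fin d → ZMod p => ∑ i, a j i * s i + c j = 0)).card) := by
        rw [e0, Fintype.card_piFinset, Finset.prod_mul_distrib]
    _ ≤ ∏ _j : Fin t, p ^ d := by
        refine Finset.prod_le_prod (fun _ _ => Nat.zero_le _) fun j _ => ?_
        split_ifs with hj
        · exact L2_row p d (a j) hj (c j)
        · rw [one_mul]
          refine (Finset.card_filter_le _ _).trans ?_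
          rw [Finset.card_univ, Fintype.card_fun, Fintype.card_fin, ZMod.card]
    _ = p ^ (t * d) := by
        rw [Finset.prod_const, Finset.card_univ, Fintype.card_fin, ← pow_mul, mul_comm]

/-- For given `(U, C)` with `B = Uᵀ C U ≠ 0` the set of the `S` which satisfy all equations
`∑ i (G B) j i S j i = - ∑_{j' ≠ j} (G B Gᵀ) j j' f j j'` is a product over the rows `j`; if
`(G B) j ≠ 0` the row has `p ^ (d - 1)` solutions, in any case at most `p ^ d`. Some column `b` of
`B` is nonzero, `(G b) j ≠ 0` for at least `δ` rows `j`, and then `(G B) j ≠ 0`. So there are at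
most `p ^ (t d - δ)` such `S`, and at most `p ^ (r d + r ^ 2)` pairs `(U, C)`; since
`r d + r ^ 2 < δ` these do not exhaust the `p ^ (t d)` matrices `S`. -/
theorem exists_goodS (p t d r δ : ℕ) [Fact p.Prime] (hδ : r * d + r ^ 2 < δ)
    (G : Matrix (Fin t) (Fin d) (ZMod p)) (hG : IsCode p t d δ G) (f : Fin t → Fin t → ZMod p) :
    ∃ S : Matrix (Fin t) (Fin d) (ZMod p), GoodS p t d r G S f := by
  classical
  have hp1 : 1 < p := (Fact.out : p.Prime).one_lt
  by_contra hcon
  push Not at hcon
  let P : Type := (Fin r → Fin d → ZMod p) × (Fin r → Fin r → ZMod p)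
  let B : P → Matrix (Fin d) (Fin d) (ZMod p) := fun z =>
    (Matrix.of z.1)ᵀ * (Matrix.of z.2) * (Matrix.of z.1)
  let cc : P → Fin t → ZMod p := fun z j =>
    ∑ j' ∈ Finset.univ.erase j, (G * B z * Gᵀ) j j' * f j j'
  let bad : P → Finset (Fin t → Fin d → ZMod p) := fun z =>
    Finset.univ.filter (fun S : Fin t → Fin d → ZMod p =>
      ∀ j, ∑ i, (G * B z) j i * S j i + cc z j = 0)
  have hcover : (Finset.univ : Finset (Fin t → Fin d → ZMod p)) ⊆
      ((Finset.univ : Finset P).filter (fun z => B z ≠ 0)).biUnion bad := by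
    intro S _
    have h1 := hcon S
    unfold GoodS at h1
    push Not at h1
    obtain ⟨U, C, hUC, hall⟩ := h1
    rw [Finset.mem_biUnion]
    refine ⟨(U, C), ?_, ?_⟩
    · rw [Finset.mem_filter]
      exact ⟨Finset.mem_univ _, hUC⟩
    · simp only [bad, Finset.mem_filter, Finset.mem_univ, true_and]
      exact hall
  have hcard := (Finset.card_le_card hcover).trans Finset.card_biUnion_le
  have hbad : ∀ z ∈ (Finset.univ : Finset P).filter (fun z => B z ≠ 0),
      p ^ δ * (bad z).card ≤ p ^ (t * d) := by
    intro z hz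
    rw [Finset.mem_filter] at hz
    refine L2_bad p t d δ (fun j i => (G * B z) j i) (cc z) ?_
    have h1 : ∃ i1 : Fin d, (fun i => B z i i1) ≠ 0 := by
      by_contra h
      push Not at h
      exact hz.2 (by ext i j; exact congrFun (h j) i)
    obtain ⟨i1, hi1⟩ := h1
    refine (hG.2 _ hi1).trans (Finset.card_le_card ?_)
    intro j hj
    rw [Finset.mem_filter] at hj ⊢
    refine ⟨Finset.mem_univ _, fun h0 => hj.2 ?_⟩
    have h2 : (G * B z) j i1 = 0 := congrFun h0 i1
    rw [Matrix.mul_apply] at h2
    exact h2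
  have h2 : p ^ δ * p ^ (t * d) ≤ p ^ (r * d + r ^ 2) * p ^ (t * d) := by
    calc p ^ δ * p ^ (t * d)
        = p ^ δ * (Finset.univ : Finset (Fin t → Fin d → ZMod p)).card := by
          rw [Finset.card_univ, Fintype.card_fun, Fintype.card_fun, Fintype.card_fin,
            Fintype.card_fin, ZMod.card, ← pow_mul, mul_comm t d]
      _ ≤ p ^ δ * _ := Nat.mul_le_mul_left _ hcard
      _ = _ := Finset.mul_sum _ _ _
      _ ≤ ∑ _z ∈ (Finset.univ : Finset P).filter (fun z => B z ≠ 0), p ^ (t * d) :=
          Finset.sum_le_sum hbad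
      _ ≤ p ^ (r * d + r ^ 2) * p ^ (t * d) := by
          rw [Finset.sum_const, smul_eq_mul]
          refine Nat.mul_le_mul_right _ ((Finset.card_filter_le _ _).trans ?_)
          rw [Finset.card_univ, Fintype.card_prod, Fintype.card_fun, Fintype.card_fun,
            Fintype.card_fun, Fintype.card_fun, Fintype.card_fin, Fintype.card_fin, ZMod.card,
            ← pow_mul, ← pow_mul, ← pow_add, mul_comm d r, sq]
  have h3 : p ^ (r * d + r ^ 2) < p ^ δ := Nat.pow_lt_pow_right hp1 hδ
  have h4 := Nat.mul_lt_mul_of_pos_right h3 (Nat.pow_pos (by omega : 0 < p) : 0 < p ^ (t * d))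
  omega

end Pool.Agent.MPca71X
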