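import Pool.Agent.Lib.MP_ca71b5_ntX.N0
set_option autoImplicit false
open scoped NumberField
open NumberField

/-! Job N1b (medium-easy): the subgroups `HC`, `GF` and the reduction `rd`. -/

namespace Pool.Agent.MPca71X

open Pool.Agent.MPca71W

variable {Ω : Type} [Field Ω] [Algebra ℚ Ω] [IsAlgClosed Ω] [Algebra.IsAlgebraic ℚ Ω] {p k : ℕ}
  [Fact p.Prime]

theorem rd_mul (a b : (ZMod (p ^ (k + 1)))ˣ) : rd (a * b) = rd a * rd b := by
  unfold rd
  rw [Units.val_mul, map_mul]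

theorem rd_one : rd (1 : (ZMod (p ^ (k + 1)))ˣ) = 1 := by
  unfold rd
  rw [Units.val_one, map_one]

theorem rd_ne_zero (a : (ZMod (p ^ (k + 1)))ˣ) : rd a ≠ 0 := by
  intro h
  have h1 : rd (a * a⁻¹) = 0 := by rw [rd_mul, h, zero_mul]
  rw [mul_inv_cancel, rd_one] at h1
  exact one_ne_zero h1

theorem rd_inv (a : (ZMod (p ^ (k + 1)))ˣ) : rd a⁻¹ = (rd a)⁻¹ := by
  refine eq_inv_of_mul_eq_one_left ?_
  rw [← rd_mul, inv_mul_cancel, rd_one]

theorem rd_val (a : (ZMod (p ^ (k + 1)))ˣ) :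
    rd a = (((a : ZMod (p ^ (k + 1))).val : ℕ) : ZMod p) := by
  unfold rd
  have hp : NeZero (p ^ (k + 1)) := ⟨pow_ne_zero _ (Fact.out : p.Prime).ne_zero⟩
  rw [ZMod.castHom_apply, ZMod.natCast_val]

private theorem n1b_pow (a : (ZMod (p ^ (k + 1)))ˣ) (m : ℕ) : rd (a ^ m) = rd a ^ m := by
  induction m with
  | zero => rw [pow_zero, pow_zero, rd_one]
  | succ m ih => rw [pow_succ a m, rd_mul, ih, pow_succ (rd a) m]

/-- If `a ^ (p-1) = b ^ (p-1) = 1` and `a = b mod p` then `a = b`: `a b⁻¹` is in the kernel of the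
reduction `(ℤ/p^(k+1))ˣ → (ℤ/p)ˣ`, a group of order `p ^ k`, and its order divides `p - 1`. -/
theorem rd_inj (a b : (ZMod (p ^ (k + 1)))ˣ) (ha : a ^ (p - 1) = 1) (hb : b ^ (p - 1) = 1)
    (h : rd a = rd b) : a = b := by
  have hpp : p.Prime := Fact.out
  have hp : NeZero (p ^ (k + 1)) := ⟨pow_ne_zero _ hpp.ne_zero⟩
  have h1 : (p : ZMod (p ^ (k + 1))) ∣ (a : ZMod (p ^ (k + 1))) - (b : ZMod (p ^ (k + 1))) := by
    rw [rd_val, rd_val] at h
    have h2 : (((a : ZMod (p ^ (k + 1))).val : ℤ) : ZMod p) =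
        (((b : ZMod (p ^ (k + 1))).val : ℤ) : ZMod p) := by exact_mod_cast h
    rw [← sub_eq_zero, ← Int.cast_sub, ZMod.intCast_zmod_eq_zero_iff_dvd] at h2
    obtain ⟨c, hc⟩ := h2
    refine ⟨(c : ZMod (p ^ (k + 1))), ?_⟩
    have h3 := congrArg (fun z : ℤ => (z : ZMod (p ^ (k + 1)))) hc
    have e1 : ∀ y : ZMod (p ^ (k + 1)), ((y.val : ℤ) : ZMod (p ^ (k + 1))) = y := by
      intro y
      rw [Int.cast_natCast, ZMod.natCast_zmod_val]
    simp only [Int.cast_sub, e1, Int.cast_mul] at h3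
    rw [Int.cast_natCast] at h3
    exact h3
  have h2 := dvd_sub_pow_of_dvd_sub h1 k
  have h3 : ((p : ZMod (p ^ (k + 1))) ^ (k + 1)) = 0 := by
    have h4 := ZMod.natCast_self (p ^ (k + 1))
    rwa [Nat.cast_pow] at h4
  rw [h3, zero_dvd_iff, sub_eq_zero] at h2
  have h4 : a ^ (p ^ k) = b ^ (p ^ k) := by
    apply Units.ext
    rw [Units.val_pow_eq_pow_val, Units.val_pow_eq_pow_val]
    exact h2
  have h5 : (a * b⁻¹) ^ (p ^ k) = 1 := by
    rw [mul_pow, inv_pow, h4, mul_inv_cancel]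
  have h6 : (a * b⁻¹) ^ (p - 1) = 1 := by
    rw [mul_pow, inv_pow, ha, hb, inv_one, mul_one]
  have h7 := pow_gcd_eq_one.2 ⟨h5, h6⟩
  have h8 : Nat.gcd (p ^ k) (p - 1) = 1 := by
    apply Nat.Coprime.pow_left
    rw [Nat.Prime.coprime_iff_not_dvd hpp]
    intro hd
    have h9 := Nat.le_of_dvd (by have := hpp.two_le; omega) hd
    have := hpp.two_le
    omega
  rw [h8, pow_one] at h7
  exact mul_inv_eq_one.1 h7

/-- Take a lift `x` of `c` to a unit modulo `p ^ (k+1)` and `a = x ^ (p ^ k)`. -/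
theorem rd_surj (c : ZMod p) (hc : c ≠ 0) :
    ∃ a : (ZMod (p ^ (k + 1)))ˣ, a ^ (p - 1) = 1 ∧ rd a = c := by
  have hpp : p.Prime := Fact.out
  have hp : NeZero (p ^ (k + 1)) := ⟨pow_ne_zero _ hpp.ne_zero⟩
  obtain ⟨y, hy⟩ := ZMod.unitsMap_surjective (dvd_pow_self p (Nat.succ_ne_zero k)) (Units.mk0 c hc)
  have hyc : rd y = c := by
    have h1 := congrArg (fun u : (ZMod p)ˣ => (u : ZMod p)) hy
    exact h1
  refine ⟨y ^ (p ^ k), ?_, ?_⟩
  · rw [← pow_mul]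
    have h2 := ZMod.pow_totient y
    rw [Nat.totient_prime_pow_succ hpp] at h2
    exact h2
  · rw [n1b_pow, hyc]
    exact ZMod.pow_card_pow c

/-- The number of elements with `a ^ (p-1) = 1` is `p - 1` (`rd_inj`, `rd_surj`). -/
theorem card_delta : (Finset.univ.filter (fun a : (ZMod (p ^ (k + 1)))ˣ => a ^ (p - 1) = 1)).card =
    p - 1 := by
  have hpp : p.Prime := Fact.out
  have h1 : (Finset.univ.erase (0 : ZMod p)).card = p - 1 := by
    rw [Finset.card_erase_of_mem (Finset.mem_univ _), Finset.card_univ, ZMod.card]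
  refine (Finset.card_bij (fun a _ => rd a) ?_ ?_ ?_).trans h1
  · intro a _
    exact Finset.mem_erase.2 ⟨rd_ne_zero a, Finset.mem_univ _⟩
  · intro a ha b hb h
    exact rd_inj a b (Finset.mem_filter.1 ha).2 (Finset.mem_filter.1 hb).2 h
  · intro c hc
    obtain ⟨a, ha, hac⟩ := rd_surj (k := k) c (Finset.mem_erase.1 hc).1
    exact ⟨a, Finset.mem_filter.2 ⟨Finset.mem_univ _, ha⟩, hac⟩

/-- The cyclotomic characters modulo `p` and modulo `p ^ (k+1)` are compatible. -/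
theorem kap_p (g : Ω ≃ₐ[ℚ] Ω) :
    ((kap Ω p g : (ZMod p)ˣ) : ZMod p) = rd (kap Ω (p ^ (k + 1)) g) := by
  have hpp : p.Prime := Fact.out
  have hp : NeZero (p ^ (k + 1)) := ⟨pow_ne_zero _ hpp.ne_zero⟩
  have h0 : CharZero Ω := charZero_of_injective_algebraMap (algebraMap ℚ Ω).injective
  have hpΩ : NeZero (p : Ω) := ⟨Nat.cast_ne_zero.2 hpp.ne_zero⟩
  obtain ⟨z, hz⟩ : ∃ z : Ω, IsPrimitiveRoot z p := HasEnoughRootsOfUnity.exists_primitiveRoot Ω p
  have h1 := kap_spec p g z hz.pow_eq_one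
  have h2 := kap_spec (p ^ (k + 1)) g z (by
    rw [pow_succ', pow_mul, hz.pow_eq_one, one_pow])
  rw [h1, ← pow_mod_orderOf z (((kap Ω (p ^ (k + 1)) g : (ZMod (p ^ (k + 1)))ˣ) :
    ZMod (p ^ (k + 1))).val), ← hz.eq_orderOf] at h2
  have h3 := hz.pow_inj (ZMod.val_lt _) (Nat.mod_lt _ hpp.pos) h2
  rw [rd_val, ← ZMod.natCast_mod, ← h3, ZMod.natCast_zmod_val]

end Pool.Agent.MPca71X
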