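import Pool.Agent.Lib.MP_ca71b5_ntX.N0
import Pool.Agent.Lib.MP_ca71b5_ntX.N1b

section
set_option autoImplicit false
open scoped NumberField
open NumberField

/-! Job N1a (medium-easy): the action of `G` on `𝓞 C`. -/

namespace Pool.Agent.MPca71X

open Pool.Agent.MPca71W

variable {Ω C : Type} [Field Ω] [Algebra ℚ Ω] [IsAlgClosed Ω] [Algebra.IsAlgebraic ℚ Ω] {p k : ℕ}
  [Fact p.Prime] [Field C] [NumberField C] [IsCyclotomicExtension {p ^ (k + 1)} ℚ C] [Algebra C Ω]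
  [IsScalarTower ℚ C Ω]

theorem io_injective : Function.Injective (io C Ω) := by
  unfold io
  rw [RingHom.coe_comp]
  exact (algebraMap C Ω).injective.comp (RingOfIntegers.coe_injective)

/-- The coercion of the action of `C ≃ₐ[ℚ] C` on `𝓞 C`. -/
theorem N1a_coe_smul {C : Type} [Field C] [NumberField C] (σ : C ≃ₐ[ℚ] C) (x : 𝓞 C) :
    algebraMap (𝓞 C) C (σ • x) = σ (algebraMap (𝓞 C) C x) := rfl

theorem N1a_sga_coe {C : Type} [Field C] [NumberField C] (N : ℕ) [NeZero N]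
    [IsCyclotomicExtension {N} ℚ C] (a : (ZMod N)ˣ) (x : 𝓞 C) :
    algebraMap (𝓞 C) C (sga N C a x) =
      (IsCyclotomicExtension.Rat.galEquivZMod N C).symm a (algebraMap (𝓞 C) C x) := rfl

theorem N1a_kap_restrict (g : Ω ≃ₐ[ℚ] Ω) :
    haveI := IsCyclotomicExtension.isGalois {p ^ (k + 1)} ℚ C
    IsCyclotomicExtension.Rat.galEquivZMod (p ^ (k + 1)) C (g.restrictNormal C) =
      kap Ω (p ^ (k + 1)) g := by
  have := IsCyclotomicExtension.isGalois {p ^ (k + 1)} ℚ C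
  have hζ := IsCyclotomicExtension.zeta_spec (p ^ (k + 1)) ℚ C
  set ζ := IsCyclotomicExtension.zeta (p ^ (k + 1)) ℚ C with hζd
  apply Units.ext
  apply ZMod.val_injective
  apply hζ.pow_inj (ZMod.val_lt _) (ZMod.val_lt _)
  apply (algebraMap C Ω).injective
  rw [← IsCyclotomicExtension.Rat.galEquivZMod_apply_of_pow_eq _ _ _ hζ.pow_eq_one,
    AlgEquiv.restrictNormal_commutes, kap_spec (p ^ (k + 1)) g _ (by
      rw [← map_pow, hζ.pow_eq_one, map_one]), map_pow]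

/-- Both sides are ring homomorphisms in `x`; `g` restricts to an automorphism `σ` of `C`
(`AlgEquiv.restrictNormal`), and `galEquivZMod N C σ = kap Ω N g` since both describe the action on the
`N`-th roots of unity (`kap_spec`, `galEquivZMod_apply_of_pow_eq`, `N = p ^ (k+1)`; a primitive
root of `C` maps to a primitive root of `Ω`). The action `σ • x` on `𝓞 C` is the restriction
of `σ`. -/
theorem sga_spec (g : Ω ≃ₐ[ℚ] Ω) (x : 𝓞 C) :
    g (io C Ω x) = io C Ω (sga (p ^ (k + 1)) C (kap Ω (p ^ (k + 1)) g) x) := by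
  have := IsCyclotomicExtension.isGalois {p ^ (k + 1)} ℚ C
  have h := N1a_kap_restrict (C := C) (p := p) (k := k) g
  unfold io
  rw [RingHom.comp_apply, RingHom.comp_apply, N1a_sga_coe, ← h, MulEquiv.symm_apply_apply,
    AlgEquiv.restrictNormal_commutes]

theorem sga_one (x : 𝓞 C) : sga (p ^ (k + 1)) C 1 x = x := by
  apply RingOfIntegers.coe_injective
  rw [N1a_sga_coe, map_one]
  rfl

theorem sga_mul (a b : (ZMod (p ^ (k + 1)))ˣ) (x : 𝓞 C) :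
    sga (p ^ (k + 1)) C (a * b) x = sga (p ^ (k + 1)) C a (sga (p ^ (k + 1)) C b x) := by
  apply RingOfIntegers.coe_injective
  rw [N1a_sga_coe, N1a_sga_coe, N1a_sga_coe, map_mul]
  rfl

/-- The action on roots of unity. -/
theorem sga_root (a : (ZMod (p ^ (k + 1)))ˣ) (z : 𝓞 C) (hz : z ^ (p ^ (k + 1)) = 1) :
    sga (p ^ (k + 1)) C a z = z ^ ((a : ZMod (p ^ (k + 1))).val) := by
  apply RingOfIntegers.coe_injective
  rw [N1a_sga_coe, map_pow, IsCyclotomicExtension.Rat.galEquivZMod_apply_of_pow_eq (p ^ (k + 1)) C _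
    (by rw [← map_pow, hz, map_one]), MulEquiv.apply_symm_apply]

/-- `HC` fixes `C` (`sga_spec`, `sga_one`; `C` is the fraction field of `𝓞 C`). -/
theorem HC_fixes (g : Ω ≃ₐ[ℚ] Ω) (hg : g ∈ HC Ω p k) (x : C) :
    g (algebraMap C Ω x) = algebraMap C Ω x := by
  have := IsCyclotomicExtension.isGalois {p ^ (k + 1)} ℚ C
  have h := N1a_kap_restrict (C := C) (p := p) (k := k) g
  have hg' : kap Ω (p ^ (k + 1)) g = 1 := hg
  rw [hg'] at h
  have h1 : g.restrictNormal C = 1 := by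
    apply (IsCyclotomicExtension.Rat.galEquivZMod (p ^ (k + 1)) C).injective
    rw [h, map_one]
  rw [← AlgEquiv.restrictNormal_commutes, h1]
  rfl

/-- Conversely an automorphism which fixes `C` fixes the roots of unity of order `p^(k+1)`, which
are all in the image of `C`. -/
theorem HC_of_fixes (g : Ω ≃ₐ[ℚ] Ω) (hg : ∀ x : C, g (algebraMap C Ω x) = algebraMap C Ω x) :
    g ∈ HC Ω p k := by
  have := IsCyclotomicExtension.isGalois {p ^ (k + 1)} ℚ C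
  have h := N1a_kap_restrict (C := C) (p := p) (k := k) g
  have h1 : g.restrictNormal C = 1 := by
    ext x
    apply (algebraMap C Ω).injective
    rw [AlgEquiv.restrictNormal_commutes, hg]
    rfl
  unfold HC
  rw [MonoidHom.mem_ker, ← h, h1, map_one]

/-- Galois theory for `Ω / C` (`Ω` is an algebraic closure of `C`, characteristic zero): every
`C`-automorphism of `Ω` is (as `ℚ`-automorphism) in `HC` by `HC_of_fixes`; an element fixed by all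
of them is in `C`. -/
theorem mem_of_fixed (x : Ω) (hx : ∀ g ∈ HC Ω p k, g x = x) :
    ∃ y : C, algebraMap C Ω y = x := by
  have : Algebra.IsAlgebraic C Ω := Algebra.IsAlgebraic.tower_top (K := ℚ) C
  have : CharZero C := inferInstance
  have : IsAlgClosure C Ω := ⟨inferInstance, inferInstance⟩
  have : Normal C Ω := IsAlgClosure.normal C Ω
  have : IsGalois C Ω := ⟨⟩
  have := (InfiniteGalois.mem_bot_iff_fixed (k := C) (K := Ω) x).2 (fun f => by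
    have h := hx (f.restrictScalars ℚ) (HC_of_fixes (C := C) _ (fun y => by
      simp))
    exact h)
  rw [IntermediateField.mem_bot] at this
  exact this

end Pool.Agent.MPca71X
end

section
set_option autoImplicit false
open scoped NumberField
open NumberField

/-! Jobs N2 (medium): the Kummer symbol. `zp` is a primitive `p`-th root of unity. -/

namespace Pool.Agent.MPca71X

open Pool.Agent.MPca71W

variable {Ω C : Type} [Field Ω] [Algebra ℚ Ω] [IsAlgClosed Ω] [Algebra.IsAlgebraic ℚ Ω] {p k : ℕ}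
  [Fact p.Prime] [Field C] [NumberField C] [IsCyclotomicExtension {p ^ (k + 1)} ℚ C] [Algebra C Ω]
  [IsScalarTower ℚ C Ω]

theorem N2_io_ne (α : 𝓞 C) (hα : α ≠ 0) : io C Ω α ≠ 0 := by
  intro h
  exact hα (io_injective (C := C) (Ω := Ω) (by rw [h, map_zero]))

theorem N2_prim (zp : 𝓞 C) (hz : IsPrimitiveRoot zp p) : IsPrimitiveRoot (io C Ω zp) p :=
  hz.map_of_injective io_injective

theorem N2_fix (α : 𝓞 C) (g : Ω ≃ₐ[ℚ] Ω) (hg : g ∈ HC Ω p k) : g (io C Ω α) = io C Ω α :=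
  HC_fixes g hg _

/-- Existence of an exponent for every root. -/
theorem N2_exists (zp : 𝓞 C) (hz : IsPrimitiveRoot zp p) (α : 𝓞 C) (hα : α ≠ 0) (g : Ω ≃ₐ[ℚ] Ω)
    (hg : g ∈ HC Ω p k) (θ : Ω) (hθ : θ ^ p = io C Ω α) :
    θ ≠ 0 ∧ ∃ c : ZMod p, g θ = io C Ω zp ^ c.val * θ := by
  have hp : p.Prime := Fact.out
  have hne : θ ≠ 0 := by
    rintro rfl
    rw [zero_pow hp.ne_zero] at hθ
    exact N2_io_ne α hα hθ.symm
  refine ⟨hne, ?_⟩
  have hprim := N2_prim (Ω := Ω) zp hz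
  have h1 : (g θ / θ) ^ p = 1 := by
    rw [div_pow, ← map_pow, hθ, N2_fix α g hg, div_self (N2_io_ne α hα)]
  obtain ⟨i, hi, hi'⟩ := hprim.eq_pow_of_pow_eq_one h1
  refine ⟨(i : ZMod p), ?_⟩
  rw [ZMod.val_natCast_of_lt hi, hi', div_mul_cancel₀ _ hne]

/-- `g` fixes `io α` and `io zp`; `(g θ / θ) ^ p = 1`, so `g θ = zp ^ c θ` with a unique
`c : ZMod p`, independent of `θ` (`θ' = zp ^ j θ`). -/
theorem kum_spec (zp : 𝓞 C) (hz : IsPrimitiveRoot zp p) (α : 𝓞 C) (hα : α ≠ 0) (g : Ω ≃ₐ[ℚ] Ω)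
    (hg : g ∈ HC Ω p k) (θ : Ω) (hθ : θ ^ p = io C Ω α) :
    g θ = io C Ω zp ^ (kum Ω C p zp α g).val * θ := by
  classical
  have hp : p.Prime := Fact.out
  have hprim := N2_prim (Ω := Ω) zp hz
  have hex : ∃ (c : ZMod p) (θ : Ω), θ ^ p = io C Ω α ∧ θ ≠ 0 ∧ g θ = io C Ω zp ^ c.val * θ := by
    obtain ⟨h1, c, hc⟩ := N2_exists zp hz α hα g hg θ hθ
    exact ⟨c, θ, hθ, h1, hc⟩
  obtain ⟨θ₀, h1, h2, h3⟩ := hex.choose_spec
  have hk : kum Ω C p zp α g = hex.choose := by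
    unfold kum
    rw [dif_pos hex]
  rw [hk]
  -- θ = zp ^ j * θ₀
  have h4 : (θ / θ₀) ^ p = 1 := by
    rw [div_pow, hθ, h1, div_self (N2_io_ne α hα)]
  obtain ⟨j, -, hj⟩ := hprim.eq_pow_of_pow_eq_one h4
  have h5 : θ = io C Ω zp ^ j * θ₀ := by
    rw [hj, div_mul_cancel₀ _ h2]
  conv_lhs => rw [h5]
  rw [map_mul, map_pow, N2_fix zp g hg, h3]
  conv_rhs => rw [h5]
  ring

theorem kum_unique (zp : 𝓞 C) (hz : IsPrimitiveRoot zp p) (α : 𝓞 C) (hα : α ≠ 0)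
    (g : Ω ≃ₐ[ℚ] Ω) (hg : g ∈ HC Ω p k) (θ : Ω) (hθ : θ ^ p = io C Ω α) (c : ZMod p)
    (hc : g θ = io C Ω zp ^ c.val * θ) : kum Ω C p zp α g = c := by
  have hprim := N2_prim (Ω := Ω) zp hz
  have h := kum_spec zp hz α hα g hg θ hθ
  obtain ⟨hne, -⟩ := N2_exists zp hz α hα g hg θ hθ
  rw [hc] at h
  have h' := mul_right_cancel₀ hne h
  exact (ZMod.val_injective p (hprim.pow_inj (ZMod.val_lt _) (ZMod.val_lt _) h')).symm

/-- Powers of `zp` by elements of `ZMod p`. -/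
theorem N2_pow_val_add (zp : 𝓞 C) (hz : IsPrimitiveRoot zp p) (a b : ZMod p) :
    io C Ω zp ^ (a + b).val = io C Ω zp ^ a.val * io C Ω zp ^ b.val := by
  have hprim := N2_prim (Ω := Ω) zp hz
  rw [← pow_add, ZMod.val_add, ← pow_eq_pow_mod _ hprim.pow_eq_one]

theorem N2_root (Ω : Type) [Field Ω] [IsAlgClosed Ω] (C : Type) [Field C] [Algebra C Ω]
    (α : 𝓞 C) (p : ℕ) [Fact p.Prime] : ∃ θ : Ω, θ ^ p = io C Ω α := by
  have hp : p.Prime := Fact.out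
  exact IsAlgClosed.exists_pow_nat_eq _ hp.pos

theorem kum_mul (zp : 𝓞 C) (hz : IsPrimitiveRoot zp p) (α β : 𝓞 C) (hα : α ≠ 0) (hβ : β ≠ 0)
    (g : Ω ≃ₐ[ℚ] Ω) (hg : g ∈ HC Ω p k) :
    kum Ω C p zp (α * β) g = kum Ω C p zp α g + kum Ω C p zp β g := by
  obtain ⟨θ, hθ⟩ := N2_root Ω C α p
  obtain ⟨η, hη⟩ := N2_root Ω C β p
  refine kum_unique zp hz (α * β) (mul_ne_zero hα hβ) g hg (θ * η) ?_ _ ?_
  · rw [mul_pow, hθ, hη, map_mul]
  · rw [map_mul, kum_spec zp hz α hα g hg θ hθ, kum_spec zp hz β hβ g hg η hη,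
      N2_pow_val_add zp hz]
    ring

theorem N2_kum_one (zp : 𝓞 C) (hz : IsPrimitiveRoot zp p) (g : Ω ≃ₐ[ℚ] Ω) (hg : g ∈ HC Ω p k) :
    kum Ω C p zp 1 g = 0 := by
  refine kum_unique zp hz 1 one_ne_zero g hg 1 ?_ _ ?_
  · rw [one_pow, map_one]
  · rw [map_one, ZMod.val_zero, pow_zero, one_mul]

theorem kum_pow (zp : 𝓞 C) (hz : IsPrimitiveRoot zp p) (α : 𝓞 C) (hα : α ≠ 0) (m : ℕ)
    (g : Ω ≃ₐ[ℚ] Ω) (hg : g ∈ HC Ω p k) :
    kum Ω C p zp (α ^ m) g = (m : ZMod p) * kum Ω C p zp α g := by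
  induction m with
  | zero => rw [pow_zero, N2_kum_one zp hz g hg]; simp
  | succ m ih =>
    rw [pow_succ, kum_mul zp hz _ _ (pow_ne_zero _ hα) hα g hg, ih]
    push_cast
    ring

theorem kum_prod (zp : 𝓞 C) (hz : IsPrimitiveRoot zp p) {ι : Type} (s : Finset ι) (α : ι → 𝓞 C)
    (hα : ∀ i ∈ s, α i ≠ 0) (g : Ω ≃ₐ[ℚ] Ω) (hg : g ∈ HC Ω p k) :
    kum Ω C p zp (∏ i ∈ s, α i) g = ∑ i ∈ s, kum Ω C p zp (α i) g := by
  classical
  induction s using Finset.induction_on with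
  | empty => rw [Finset.prod_empty, Finset.sum_empty, N2_kum_one zp hz g hg]
  | insert i s hi ih =>
    rw [Finset.prod_insert hi, Finset.sum_insert hi, kum_mul zp hz _ _
      (hα i (Finset.mem_insert_self i s))
      (Finset.prod_ne_zero_iff.2 (fun j hj => hα j (Finset.mem_insert_of_mem hj))) g hg,
      ih (fun j hj => hα j (Finset.mem_insert_of_mem hj))]

theorem kum_gmul (zp : 𝓞 C) (hz : IsPrimitiveRoot zp p) (α : 𝓞 C) (hα : α ≠ 0)
    (g h : Ω ≃ₐ[ℚ] Ω) (hg : g ∈ HC Ω p k) (hh : h ∈ HC Ω p k) :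
    kum Ω C p zp α (g * h) = kum Ω C p zp α g + kum Ω C p zp α h := by
  obtain ⟨θ, hθ⟩ := N2_root Ω C α p
  refine kum_unique zp hz α hα (g * h) ((HC Ω p k).mul_mem hg hh) θ hθ _ ?_
  rw [AlgEquiv.mul_apply, kum_spec zp hz α hα h hh θ hθ, map_mul, map_pow, N2_fix zp g hg,
    kum_spec zp hz α hα g hg θ hθ, N2_pow_val_add zp hz]
  ring

theorem kum_gpow (zp : 𝓞 C) (hz : IsPrimitiveRoot zp p) (α : 𝓞 C) (hα : α ≠ 0)
    (g : Ω ≃ₐ[ℚ] Ω) (hg : g ∈ HC Ω p k) (m : ℕ) :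
    kum Ω C p zp α (g ^ m) = (m : ZMod p) * kum Ω C p zp α g := by
  induction m with
  | zero =>
    obtain ⟨θ, hθ⟩ := N2_root Ω C α p
    rw [pow_zero, Nat.cast_zero, zero_mul]
    refine kum_unique zp hz α hα 1 ((HC Ω p k).one_mem) θ hθ _ ?_
    rw [ZMod.val_zero, pow_zero, one_mul]
    rfl
  | succ m ih =>
    rw [pow_succ, kum_gmul zp hz α hα _ _ ((HC Ω p k).pow_mem hg m) hg, ih]
    push_cast
    ring

/-- `α c^p = β b^p` gives the same symbol (`kum_mul`, `kum_pow`). -/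
theorem kum_congr (zp : 𝓞 C) (hz : IsPrimitiveRoot zp p) (α β b c : 𝓞 C) (hα : α ≠ 0)
    (hβ : β ≠ 0) (hb : b ≠ 0) (hc : c ≠ 0) (h : α * c ^ p = β * b ^ p) (g : Ω ≃ₐ[ℚ] Ω)
    (hg : g ∈ HC Ω p k) : kum Ω C p zp α g = kum Ω C p zp β g := by
  have h1 := kum_mul zp hz α (c ^ p) hα (pow_ne_zero _ hc) g hg
  have h2 := kum_mul zp hz β (b ^ p) hβ (pow_ne_zero _ hb) g hg
  rw [kum_pow zp hz c hc p g hg] at h1
  rw [kum_pow zp hz b hb p g hg] at h2
  rw [h] at h1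
  simp only [CharP.cast_eq_zero, zero_mul, add_zero] at h1 h2
  rw [← h1, h2]

end Pool.Agent.MPca71X
end

section
set_option autoImplicit false
open scoped NumberField
open NumberField

/-! Job N3 (medium-easy): multiplicities of prime ideals. -/

namespace Pool.Agent.MPca71X

open Pool.Agent.MPca71W

variable {Ω C : Type} [Field Ω] [Algebra ℚ Ω] [IsAlgClosed Ω] [Algebra.IsAlgebraic ℚ Ω] {p k : ℕ}
  [Fact p.Prime] [Field C] [NumberField C] [IsCyclotomicExtension {p ^ (k + 1)} ℚ C] [Algebra C Ω]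
  [IsScalarTower ℚ C Ω]

private theorem n3_span_ne (x : 𝓞 C) (hx : x ≠ 0) : Ideal.span {x} ≠ (0 : Ideal (𝓞 C)) := by
  rw [Ideal.zero_eq_bot, Ne, Ideal.span_singleton_eq_bot]
  exact hx

theorem vQ_mul (Q : Ideal (𝓞 C)) (hQ : Q.IsPrime) (hQ0 : Q ≠ ⊥) (x y : 𝓞 C) (hx : x ≠ 0)
    (hy : y ≠ 0) : vQ Q (x * y) = vQ Q x + vQ Q y := by
  have hp : Prime Q := Ideal.prime_of_isPrime hQ0 hQ
  unfold vQ
  rw [← Ideal.span_singleton_mul_span_singleton]
  exact multiplicity_mul hp (FiniteMultiplicity.of_prime_left hp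
    (mul_ne_zero (n3_span_ne x hx) (n3_span_ne y hy)))

theorem vQ_pow (Q : Ideal (𝓞 C)) (hQ : Q.IsPrime) (hQ0 : Q ≠ ⊥) (x : 𝓞 C) (hx : x ≠ 0) (m : ℕ) :
    vQ Q (x ^ m) = m * vQ Q x := by
  have hp : Prime Q := Ideal.prime_of_isPrime hQ0 hQ
  unfold vQ
  rw [← Ideal.span_singleton_pow]
  exact FiniteMultiplicity.multiplicity_pow hp
    (FiniteMultiplicity.of_prime_left hp (n3_span_ne x hx))

theorem vQ_prod (Q : Ideal (𝓞 C)) (hQ : Q.IsPrime) (hQ0 : Q ≠ ⊥) {ι : Type} (s : Finset ι)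
    (x : ι → 𝓞 C) (hx : ∀ i ∈ s, x i ≠ 0) : vQ Q (∏ i ∈ s, x i) = ∑ i ∈ s, vQ Q (x i) := by
  classical
  induction s using Finset.induction_on with
  | empty =>
    have := vQ_pow Q hQ hQ0 (1 : 𝓞 C) one_ne_zero 0
    simpa using this
  | insert a s ha ih =>
    rw [Finset.prod_insert ha, Finset.sum_insert ha, vQ_mul Q hQ hQ0 _ _
      (hx a (Finset.mem_insert_self a s))
      (Finset.prod_ne_zero_iff.2 fun i hi => hx i (Finset.mem_insert_of_mem hi)),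
      ih fun i hi => hx i (Finset.mem_insert_of_mem hi)]

theorem vQ_eq_zero_iff (Q : Ideal (𝓞 C)) (hQ : Q.IsPrime) (hQ0 : Q ≠ ⊥) (x : 𝓞 C) (hx : x ≠ 0) :
    vQ Q x = 0 ↔ x ∉ Q := by
  unfold vQ
  rw [multiplicity_eq_zero, Ideal.dvd_span_singleton]

theorem vQ_sga (Q : Ideal (𝓞 C)) (a : (ZMod (p ^ (k + 1)))ˣ) (x : 𝓞 C) :
    vQ Q (sga (p ^ (k + 1)) C a x) = vQ (Q.comap (sga (p ^ (k + 1)) C a : 𝓞 C →+* 𝓞 C)) x := by
  unfold vQ
  apply multiplicity_eq_of_emultiplicity_eq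
  rw [emultiplicity_eq_emultiplicity_iff]
  intro n
  rw [Ideal.dvd_span_singleton, Ideal.dvd_span_singleton]
  have h1 : Q.comap (sga (p ^ (k + 1)) C a : 𝓞 C →+* 𝓞 C) =
      Q.map ((sga (p ^ (k + 1)) C a).symm : 𝓞 C →+* 𝓞 C) :=
    (Ideal.map_symm (I := Q) (sga (p ^ (k + 1)) C a)).symm
  have h2 : (Q ^ n).comap (sga (p ^ (k + 1)) C a : 𝓞 C →+* 𝓞 C) =
      (Q ^ n).map ((sga (p ^ (k + 1)) C a).symm : 𝓞 C →+* 𝓞 C) :=
    (Ideal.map_symm (I := Q ^ n) (sga (p ^ (k + 1)) C a)).symm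
  rw [h1, ← Ideal.map_pow, ← h2, Ideal.mem_comap]
  rfl

/-- `(g) = q ^ e b ^ p`: the multiplicity of `q` is `e` modulo `p`, of any other prime `0`. -/
theorem vQ_fact (q b : Ideal (𝓞 C)) (g : 𝓞 C) (hg : g ≠ 0) (e : ℕ)
    (h : Ideal.span {g} = q ^ e * b ^ p) (hq : q.IsPrime) (hq0 : q ≠ ⊥) (Q : Ideal (𝓞 C))
    (hQ : Q.IsPrime) (hQ0 : Q ≠ ⊥) :
    ((vQ Q g : ℕ) : ZMod p) = if Q = q then (e : ZMod p) else 0 := by
  have hpQ : Prime Q := Ideal.prime_of_isPrime hQ0 hQ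
  have hq0' : q ≠ 0 := by rw [Ideal.zero_eq_bot]; exact hq0
  have hp0 : p ≠ 0 := (Fact.out : p.Prime).ne_zero
  have hb0 : b ≠ 0 := by
    intro hb
    rw [hb, zero_pow hp0, mul_zero] at h
    exact n3_span_ne g hg h
  have hqe : q ^ e ≠ 0 := pow_ne_zero _ hq0'
  have hbp : b ^ p ≠ 0 := pow_ne_zero _ hb0
  have h1 : vQ Q g = e * multiplicity Q q + p * multiplicity Q b := by
    unfold vQ
    rw [h, multiplicity_mul hpQ (FiniteMultiplicity.of_prime_left hpQ (mul_ne_zero hqe hbp)),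
      FiniteMultiplicity.multiplicity_pow hpQ (FiniteMultiplicity.of_prime_left hpQ hq0'),
      FiniteMultiplicity.multiplicity_pow hpQ (FiniteMultiplicity.of_prime_left hpQ hb0)]
  rw [h1]
  push_cast
  rw [CharP.cast_eq_zero (ZMod p) p, zero_mul, add_zero]
  split_ifs with hQq
  · subst hQq
    rw [multiplicity_self (a := Q)]
    simp
  · have : multiplicity Q q = 0 := by
      rw [multiplicity_eq_zero, Ideal.dvd_iff_le]
      intro hle
      have hqm : q.IsMaximal := Ring.DimensionLEOne.maximalOfPrime hq0 hq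
      exact hQq (hqm.eq_of_le hQ.ne_top hle).symm
    rw [this]
    simp

/-- Local `p`-th powers: if `p ∣ vQ Q x` there are `c, a ∉ Q`, `η ≠ 0` with
`x c^p = η^p a`. Put `v = vQ Q x = p w`, choose `η ∈ Q^w \ Q^(w+1)`, `(η) = Q^w I` with `I` prime
to `Q`, `c ∈ I \ Q`. Then `(x c^p)` is divisible by `Q^(p w) I^p = (η)^p`, so `x c^p = η^p a`, and
`vQ Q a = 0`. -/
theorem vQ_local (Q : Ideal (𝓞 C)) (hQ : Q.IsPrime) (hQ0 : Q ≠ ⊥) (x : 𝓞 C) (hx : x ≠ 0)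
    (h : p ∣ vQ Q x) : ∃ c η a : 𝓞 C, c ∉ Q ∧ a ∉ Q ∧ η ≠ 0 ∧ x * c ^ p = η ^ p * a := by
  have hpQ : Prime Q := Ideal.prime_of_isPrime hQ0 hQ
  have hp0 : p ≠ 0 := (Fact.out : p.Prime).ne_zero
  obtain ⟨w, hw⟩ := h
  obtain ⟨η, hη1, hη2⟩ := Ideal.exists_mem_pow_notMem_pow_succ Q hQ0 hQ.ne_top w
  have hη0 : η ≠ 0 := by
    intro h0
    rw [h0] at hη2
    exact hη2 (zero_mem _)
  obtain ⟨I, hI⟩ := Ideal.dvd_span_singleton.2 hη1
  have hIQ : ¬ I ≤ Q := by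
    intro hle
    obtain ⟨J, hJ⟩ := Ideal.dvd_iff_le.2 hle
    apply hη2
    rw [← Ideal.dvd_span_singleton, hI, hJ]
    exact ⟨J, by rw [pow_succ, mul_assoc]⟩
  obtain ⟨c, hcI, hcQ⟩ := Set.not_subset.1 hIQ
  have hc0 : c ≠ 0 := by
    intro h0
    rw [h0] at hcQ
    exact hcQ (zero_mem _)
  have hx1 : Q ^ (p * w) ∣ Ideal.span {x} := by
    rw [← hw]
    exact pow_multiplicity_dvd Q _
  have hx2 : x ∈ Q ^ (p * w) := Ideal.dvd_span_singleton.1 hx1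
  have hmem : x * c ^ p ∈ Ideal.span {η ^ p} := by
    have e1 : Ideal.span {η ^ p} = Q ^ (p * w) * I ^ p := by
      rw [← Ideal.span_singleton_pow, hI, mul_pow, ← pow_mul, mul_comm w p]
    rw [e1]
    exact Ideal.mul_mem_mul hx2 (Ideal.pow_mem_pow hcI p)
  obtain ⟨a, ha⟩ := Ideal.mem_span_singleton.1 hmem
  have hxc : x * c ^ p ≠ 0 := mul_ne_zero hx (pow_ne_zero _ hc0)
  have ha0 : a ≠ 0 := by
    intro h0
    rw [h0, mul_zero] at ha
    exact hxc ha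
  have hvη : vQ Q η = w := by
    unfold vQ
    exact multiplicity_eq_of_dvd_of_not_dvd (Ideal.dvd_span_singleton.2 hη1)
      (fun hd => hη2 (Ideal.dvd_span_singleton.1 hd))
  refine ⟨c, η, a, hcQ, ?_, hη0, ha⟩
  rw [← vQ_eq_zero_iff Q hQ hQ0 a ha0]
  have h1 := vQ_mul Q hQ hQ0 x (c ^ p) hx (pow_ne_zero _ hc0)
  have h2 := vQ_mul Q hQ hQ0 (η ^ p) a (pow_ne_zero _ hη0) ha0
  rw [vQ_pow Q hQ hQ0 c hc0, (vQ_eq_zero_iff Q hQ hQ0 c hc0).2 hcQ, ha] at h1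
  rw [vQ_pow Q hQ hQ0 η hη0, hvη] at h2
  rw [h2, hw] at h1
  omega

end Pool.Agent.MPca71X
end
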