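import Pool.Agent.Lib.MP_ca71b5_ntW.RED3
import Pool.Agent.Lib.MP_ca71b5_ntX.G0
set_option autoImplicit false
open scoped NumberField
open NumberField

/-! Definitions for the number theoretic part of paper 286 (MP_ca71b5_nt). Everything takes place in
`G = Gal(Ω/ℚ) = Ω ≃ₐ[ℚ] Ω`; `kap Ω N : G →* (ZMod N)ˣ` is the cyclotomic character, `inG P` the
inertia group of the maximal ideal `P` of `𝓞 Ω` (files KA, KB, KC, KD of MP_ca71b5_ntW).
`C = ℚ(ζ_N)`, `N = p ^ (k+1)`, is an abstract cyclotomic field with `Algebra C Ω`. -/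

namespace Pool.Agent.MPca71X

open Pool.Agent.MPca71W

section groups
variable (Ω : Type) [Field Ω] [Algebra ℚ Ω] [IsAlgClosed Ω] (p k : ℕ) [Fact p.Prime]

/-- `G_C`, the automorphisms fixing the `p^(k+1)`-th roots of unity. -/
noncomputable def HC : Subgroup (Ω ≃ₐ[ℚ] Ω) := (kap Ω (p ^ (k + 1))).ker

/-- `G_F`, `F` the layer of degree `p ^ k` of the cyclotomic `ℤ_p`-extension. -/
noncomputable def GF : Subgroup (Ω ≃ₐ[ℚ] Ω) :=
  ((powMonoidHom (p - 1)).comp (kap Ω (p ^ (k + 1)))).ker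

end groups

/-- Reduction modulo `p` of a unit modulo `p ^ (k+1)`. -/
def rd {p k : ℕ} (a : (ZMod (p ^ (k + 1)))ˣ) : ZMod p :=
  ZMod.castHom (dvd_pow_self p (Nat.succ_ne_zero k)) (ZMod p) (a : ZMod (p ^ (k + 1)))

/-- The embedding of `𝓞 C` in `Ω`. -/
noncomputable def io (C Ω : Type) [Field C] [Field Ω] [Algebra C Ω] : 𝓞 C →+* Ω :=
  (algebraMap C Ω).comp (algebraMap (𝓞 C) C)

/-- The automorphism of `𝓞 C` with `z ↦ z ^ a` on the `N`-th roots of unity. -/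
noncomputable def sga (N : ℕ) [NeZero N] (C : Type) [Field C] [NumberField C]
    [IsCyclotomicExtension {N} ℚ C] (a : (ZMod N)ˣ) : 𝓞 C ≃+* 𝓞 C :=
  MulSemiringAction.toRingEquiv (C ≃ₐ[ℚ] C) (𝓞 C)
    ((IsCyclotomicExtension.Rat.galEquivZMod N C).symm a)

/-- The multiplicity of the ideal `Q` in `(x)`. -/
noncomputable def vQ {C : Type} [Field C] (Q : Ideal (𝓞 C)) (x : 𝓞 C) : ℕ :=
  multiplicity Q (Ideal.span {x})

/-- The prime of `𝓞 C` below the maximal ideal `P` of `𝓞 Ω`. -/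
noncomputable def PC (C : Type) {Ω : Type} [Field C] [Field Ω] [Algebra C Ω] (P : Ideal (𝓞 Ω)) :
    Ideal (𝓞 C) := P.comap (algebraMap (𝓞 C) (𝓞 Ω))

open scoped Classical in
/-- The Kummer symbol: `g θ = zp ^ (kum α g) θ` for `θ ^ p = α`. -/
noncomputable def kum (Ω C : Type) [Field C] [Field Ω] [Algebra ℚ Ω] [Algebra C Ω] (p : ℕ)
    (zp α : 𝓞 C) (g : Ω ≃ₐ[ℚ] Ω) : ZMod p :=
  if h : ∃ (c : ZMod p) (θ : Ω), θ ^ p = io C Ω α ∧ θ ≠ 0 ∧ g θ = io C Ω zp ^ c.val * θ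
  then h.choose else 0

section cyc
variable (Ω C : Type) [Field Ω] [Algebra ℚ Ω] [IsAlgClosed Ω] (p k : ℕ) [Fact p.Prime]
  [Field C] [NumberField C] [IsCyclotomicExtension {p ^ (k + 1)} ℚ C]

/-- `α` is an eigenvector for `GF`: `τ α = α ^ (τ) β ^ p` with `β = b / c`. -/
def Eig (α : 𝓞 C) : Prop :=
  ∀ τ ∈ GF Ω p k, ∃ b c : 𝓞 C, b ≠ 0 ∧ c ≠ 0 ∧
    sga (p ^ (k + 1)) C (kap Ω (p ^ (k + 1)) τ) α * c ^ p =
      α ^ (rd (kap Ω (p ^ (k + 1)) τ)).val * b ^ p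

/-- The projection to the eigenspace: `∏ a(γ) ^ c(a)`, `a` in the group of order `p - 1`,
`c(a) = a⁻¹ mod p`, `c(1) = 1`. -/
noncomputable def eg (γ : 𝓞 C) : 𝓞 C :=
  ∏ a ∈ Finset.univ.filter (fun a : (ZMod (p ^ (k + 1)))ˣ => a ^ (p - 1) = 1),
    (sga (p ^ (k + 1)) C a γ) ^ ((rd a)⁻¹).val

end cyc

end Pool.Agent.MPca71X
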