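import Pool.Agent.Lib.MP_ca71b5_ntX.N3
import Pool.Agent.Lib.MP_ca71b5_ntW.AR2
import Pool.Agent.Lib.MP_ca71b5_ntX.N0

section
set_option autoImplicit false
open scoped NumberField
open NumberField

/-! Job N6 (medium-easy): the Kummer symbol on tame inertia, vanishing (paper 286, V1). -/

namespace Pool.Agent.MPca71X

open Pool.Agent.MPca71W

variable {Ω C : Type} [Field Ω] [Algebra ℚ Ω] [IsAlgClosed Ω] [Algebra.IsAlgebraic ℚ Ω] {p k : ℕ}
  [Fact p.Prime] [Field C] [NumberField C] [IsCyclotomicExtension {p ^ (k + 1)} ℚ C] [Algebra C Ω]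
  [IsScalarTower ℚ C Ω]

/-- `PC C P` is a nonzero prime ideal. -/
theorem PC_prime (P : Ideal (𝓞 Ω)) (hP : P.IsMaximal) : (PC C P).IsPrime ∧ PC C P ≠ ⊥ := by
  have h1 : P.IsPrime := hP.isPrime
  refine ⟨Ideal.comap_isPrime _ _, ?_⟩
  obtain ⟨q, hq, hqP⟩ := exists_prime_mem P hP
  intro h
  have h2 : (q : 𝓞 C) ∈ PC C P := by
    unfold PC
    rw [Ideal.mem_comap, map_natCast]
    exact hqP
  rw [h, Ideal.mem_bot] at h2
  exact hq.ne_zero (by exact_mod_cast h2)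

omit [NumberField C] [Algebra ℚ Ω] [IsAlgClosed Ω] [Algebra.IsAlgebraic ℚ Ω]
  [IsScalarTower ℚ C Ω] in
private theorem n6_coe (x : 𝓞 C) :
    algebraMap (𝓞 Ω) Ω (algebraMap (𝓞 C) (𝓞 Ω) x) = io C Ω x := rfl

private theorem n6_root {R : Type} [CommRing R] [IsDomain R] (Q : Ideal R) (w : R) (m : ℕ)
    (h1 : w ^ m = 1) (h2 : w ≠ 1) (h3 : w - 1 ∈ Q) : (m : R) ∈ Q := by
  have h4 : (w - 1) * ∑ i ∈ Finset.range m, w ^ i = 0 := by
    rw [mul_geom_sum, h1, sub_self]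
  have h5 : ∑ i ∈ Finset.range m, w ^ i = 0 := by
    rcases mul_eq_zero.1 h4 with h | h
    · exact absurd (sub_eq_zero.1 h) h2
    · exact h
  have h6 : ∑ i ∈ Finset.range m, (w ^ i - 1) ∈ Q := by
    refine Q.sum_mem fun i _ => ?_
    obtain ⟨d, hd⟩ := (by simpa using sub_dvd_pow_sub_pow w 1 i : w - 1 ∣ w ^ i - 1)
    rw [hd]
    exact Q.mul_mem_right _ h3
  rw [Finset.sum_sub_distrib, h5, Finset.sum_const, Finset.card_range, nsmul_eq_mul, mul_one,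
    zero_sub] at h6
  exact (Q.neg_mem_iff).1 h6

/-- (V1) Let `x c^p = η^p a` as in `vQ_local` for `Q = PC C P`; `kum x = kum a` (`kum_congr`).
`θ ^ p = a`, `θ` is an algebraic integer, not in `P`; `g θ - θ = (zp ^ c - 1) θ ∈ P`, so
`zp ^ c - 1 ∈ P`; if `c ≠ 0` then `zp ^ c - 1` divides `p` (`∏_{j=1}^{p-1} (1 - zp ^ j) = p`), so
`p ∈ P`, a contradiction. -/
theorem kum_tame_zero (zp : 𝓞 C) (hz : IsPrimitiveRoot zp p) (P : Ideal (𝓞 Ω))
    (hP : P.IsMaximal) (hp : (p : 𝓞 Ω) ∉ P) (x : 𝓞 C) (hx : x ≠ 0) (hv : p ∣ vQ (PC C P) x)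
    (g : Ω ≃ₐ[ℚ] Ω) (hg : g ∈ HC Ω p k) (hgP : g ∈ inG P) : kum Ω C p zp x g = 0 := by
  have hpp : p.Prime := Fact.out
  have hPp : P.IsPrime := hP.isPrime
  obtain ⟨hQ, hQ0⟩ := PC_prime (C := C) P hP
  obtain ⟨c, η, a, hc, ha, hη, hxa⟩ := vQ_local (PC C P) hQ hQ0 x hx hv
  have ha0 : a ≠ 0 := fun h => ha (by rw [h]; exact zero_mem _)
  have hc0 : c ≠ 0 := fun h => hc (by rw [h]; exact zero_mem _)
  rw [kum_congr zp hz x a η c hx ha0 hη hc0 (by rw [hxa, mul_comm]) g hg]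
  obtain ⟨θ, hθ⟩ := IsAlgClosed.exists_pow_nat_eq (io C Ω a) hpp.pos
  have hint : IsIntegral ℤ θ := by
    refine IsIntegral.of_pow hpp.pos ?_
    rw [hθ, ← n6_coe]
    exact (algebraMap (𝓞 C) (𝓞 Ω) a).2
  obtain ⟨t, ht⟩ : ∃ t : 𝓞 Ω, algebraMap (𝓞 Ω) Ω t = θ := ⟨⟨θ, hint⟩, rfl⟩
  have htp : t ^ p = algebraMap (𝓞 C) (𝓞 Ω) a := by
    apply RingOfIntegers.coe_injective
    rw [n6_coe, ← hθ, map_pow, ht]
  have htP : t ∉ P := by
    intro h
    apply ha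
    unfold PC
    rw [Ideal.mem_comap, ← htp]
    exact Ideal.pow_mem_of_mem P h p hpp.pos
  have hspec := kum_spec zp hz a ha0 g hg θ hθ
  obtain ⟨m, hm⟩ : ∃ m, m = (kum Ω C p zp a g).val := ⟨_, rfl⟩
  rw [← hm] at hspec
  by_contra hne
  have hm0 : m ≠ 0 := by
    intro h
    apply hne
    rw [hm] at h
    exact (ZMod.val_eq_zero _).1 h
  have hmp : m < p := by rw [hm]; exact ZMod.val_lt _
  obtain ⟨y, hy, hgy⟩ := hgP t
  have h1 : (algebraMap (𝓞 C) (𝓞 Ω) zp ^ m - 1) * t = y := by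
    apply RingOfIntegers.coe_injective
    have hgy' : g (algebraMap (𝓞 Ω) Ω t) - algebraMap (𝓞 Ω) Ω t = algebraMap (𝓞 Ω) Ω y := hgy
    rw [← hgy', map_mul, map_sub, map_pow, map_one, n6_coe, ht, hspec]
    ring
  have h2 : algebraMap (𝓞 C) (𝓞 Ω) zp ^ m - 1 ∈ P := by
    rw [← h1] at hy
    exact (hPp.mem_or_mem hy).resolve_right htP
  have hinj : Function.Injective (algebraMap (𝓞 C) (𝓞 Ω)) := by
    intro u v huv
    apply io_injective (C := C) (Ω := Ω)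
    rw [← n6_coe, ← n6_coe, huv]
  have h3 : algebraMap (𝓞 C) (𝓞 Ω) zp ^ m ≠ 1 := by
    rw [← map_pow]
    intro h
    have h4 : zp ^ m = 1 := hinj (by rw [h, map_one])
    exact hz.pow_ne_one_of_pos_of_lt hm0 hmp h4
  have h4 : (algebraMap (𝓞 C) (𝓞 Ω) zp ^ m) ^ p = 1 := by
    rw [← pow_mul, mul_comm, pow_mul, ← map_pow, hz.pow_eq_one, map_one, one_pow]
  exact hp (n6_root P _ p h4 h3 h2)

/-- On tame inertia the symbol depends only on the multiplicity: if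
`e * vQ x = e' * vQ y` modulo `p` then `e kum x g = e' kum y g` (apply `kum_tame_zero` to
`x ^ e * y ^ (m)` with `m = e' (p-1)`). -/
theorem kum_tame_prop (zp : 𝓞 C) (hz : IsPrimitiveRoot zp p) (P : Ideal (𝓞 Ω))
    (hP : P.IsMaximal) (hp : (p : 𝓞 Ω) ∉ P) (x y : 𝓞 C) (hx : x ≠ 0) (hy : y ≠ 0) (e e' : ℕ)
    (hv : (e : ZMod p) * (vQ (PC C P) x : ZMod p) = (e' : ZMod p) * (vQ (PC C P) y : ZMod p))
    (g : Ω ≃ₐ[ℚ] Ω) (hg : g ∈ HC Ω p k) (hgP : g ∈ inG P) :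
    (e : ZMod p) * kum Ω C p zp x g = (e' : ZMod p) * kum Ω C p zp y g := by
  have hpp : p.Prime := Fact.out
  obtain ⟨hQ, hQ0⟩ := PC_prime (C := C) P hP
  have hm1 : ((e' * (p - 1) : ℕ) : ZMod p) = -(e' : ZMod p) := by
    rw [Nat.cast_mul, Nat.cast_sub hpp.one_lt.le, ZMod.natCast_self, Nat.cast_one, zero_sub,
      mul_neg, mul_one]
  have hxe : x ^ e ≠ 0 := pow_ne_zero _ hx
  have hye : y ^ (e' * (p - 1)) ≠ 0 := pow_ne_zero _ hy
  have hv' : p ∣ vQ (PC C P) (x ^ e * y ^ (e' * (p - 1))) := by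
    rw [← ZMod.natCast_eq_zero_iff, vQ_mul _ hQ hQ0 _ _ hxe hye, vQ_pow _ hQ hQ0 _ hx,
      vQ_pow _ hQ hQ0 _ hy, Nat.cast_add, Nat.cast_mul, Nat.cast_mul, hm1, hv]
    ring
  have h1 := kum_tame_zero zp hz P hP hp (x ^ e * y ^ (e' * (p - 1))) (mul_ne_zero hxe hye) hv' g
    hg hgP
  rw [kum_mul zp hz _ _ hxe hye g hg, kum_pow zp hz _ hx _ g hg, kum_pow zp hz _ hy _ g hg,
    hm1] at h1
  linear_combination h1

end Pool.Agent.MPca71X
end

section
set_option autoImplicit false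
open scoped NumberField
open NumberField

/-! Job M5a (medium): primes of `𝓞 C` of prime norm `ℓ ≠ p`. -/

namespace Pool.Agent.MPca71X

open Pool.Agent.MPca71W

variable {Ω C : Type} [Field Ω] [Algebra ℚ Ω] [IsAlgClosed Ω] [Algebra.IsAlgebraic ℚ Ω] {p k : ℕ}
  [Fact p.Prime] [Field C] [NumberField C] [IsCyclotomicExtension {p ^ (k + 1)} ℚ C] [Algebra C Ω]
  [IsScalarTower ℚ C Ω]

/-- If `z ^ N = 1`, `z ≠ 1` and `z - 1` lies in the ideal `Q`, then so does `N`. -/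
private theorem m5a_root {R : Type} [CommRing R] [IsDomain R] (Q : Ideal R) (z : R)
    (N : ℕ) (hz : z ^ N = 1) (h1 : z ≠ 1) (hQ : z - 1 ∈ Q) : (N : R) ∈ Q := by
  have hsum : ∑ i ∈ Finset.range N, z ^ i = 0 := by
    have h := mul_geom_sum z N
    rw [hz, sub_self] at h
    rcases mul_eq_zero.1 h with h | h
    · exact absurd (sub_eq_zero.1 h) h1
    · exact h
  have hmem : ∑ i ∈ Finset.range N, (z ^ i - 1) ∈ Q := by
    refine Ideal.sum_mem Q (fun i _ => ?_)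
    have hd : z - 1 ∣ z ^ i - 1 := by
      have := sub_dvd_pow_sub_pow z 1 i
      rwa [one_pow] at this
    exact Ideal.mem_of_dvd Q hd hQ
  rw [Finset.sum_sub_distrib, hsum, zero_sub, Finset.sum_const, Finset.card_range,
    nsmul_eq_mul, mul_one] at hmem
  exact (neg_mem_iff).1 hmem

private theorem m5a_pow_eq {R : Type} [CommRing R] [IsDomain R] (Q : Ideal R) (hQ : Q.IsPrime)
    (l N : ℕ) (hN : ∃ e, N = l ^ e) (hN0 : 0 < N) (hl : (l : R) ∉ Q) (z : R) (hz : z ^ N = 1)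
    (a m : ℕ) (h : z ^ a - z ^ m ∈ Q) : z ^ a = z ^ m := by
  set w : R := z ^ a * (z ^ (N - 1)) ^ m with hw
  have hN1 : N - 1 + 1 = N := Nat.sub_add_cancel hN0
  have hzz : (z ^ (N - 1)) ^ m * z ^ m = 1 := by
    rw [← mul_pow, ← pow_succ, hN1, hz, one_pow]
  have hwN : w ^ N = 1 := by
    rw [hw, mul_pow, ← pow_mul, ← pow_mul, ← pow_mul]
    have e1 : z ^ (a * N) = 1 := by rw [mul_comm, pow_mul, hz, one_pow]
    have e2 : z ^ ((N - 1) * (m * N)) = 1 := by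
      rw [show (N - 1) * (m * N) = N * ((N - 1) * m) by ring, pow_mul, hz, one_pow]
    rw [e1, one_mul]
    exact e2
  have hwQ : w - 1 ∈ Q := by
    have : w - 1 = (z ^ (N - 1)) ^ m * (z ^ a - z ^ m) := by
      rw [mul_sub, hzz, hw, mul_comm]
    rw [this]
    exact Ideal.mul_mem_left Q _ h
  have hw1 : w = 1 := by
    by_contra hne
    have hmem := m5a_root Q w N hwN hne hwQ
    obtain ⟨e, he⟩ := hN
    rw [he, Nat.cast_pow] at hmem
    exact hl (hQ.mem_of_pow_mem e hmem)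
  calc z ^ a = z ^ a * ((z ^ (N - 1)) ^ m * z ^ m) := by rw [hzz, mul_one]
    _ = w * z ^ m := by rw [hw]; ring
    _ = z ^ m := by rw [hw1, one_mul]

/-- A natural number lies in `Q` iff it is divisible by `ℓ = absNorm Q`. -/
theorem split_mem (Q : Ideal (𝓞 C)) (hQ : Q.IsPrime) (hl : (Ideal.absNorm Q).Prime) (n : ℕ) :
    (n : 𝓞 C) ∈ Q ↔ Ideal.absNorm Q ∣ n := by
  constructor
  · intro h
    by_contra hn
    have hc : Nat.Coprime (Ideal.absNorm Q) n := (Nat.Prime.coprime_iff_not_dvd hl).2 hn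
    obtain ⟨a, b, hab⟩ := Nat.isCoprime_iff_coprime.2 hc
    apply hQ.ne_top
    rw [Ideal.eq_top_iff_one]
    have h1 : (1 : 𝓞 C) = (a : 𝓞 C) * (Ideal.absNorm Q : 𝓞 C) + (b : 𝓞 C) * (n : 𝓞 C) := by
      have h2 := congrArg (fun z : ℤ => (z : 𝓞 C)) hab
      push_cast at h2
      exact h2.symm
    rw [h1]
    exact Q.add_mem (Q.mul_mem_left _ (Ideal.absNorm_mem Q)) (Q.mul_mem_left _ h)
  · rintro ⟨m, rfl⟩
    rw [Nat.cast_mul]
    exact Q.mul_mem_right _ (Ideal.absNorm_mem Q)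

private theorem m5a_pnot (Q : Ideal (𝓞 C)) (hQ : Q.IsPrime) (hl : (Ideal.absNorm Q).Prime)
    (hp : Ideal.absNorm Q ≠ p) : (p : 𝓞 C) ∉ Q := by
  rw [split_mem Q hQ hl]
  intro h
  exact hp ((Nat.prime_dvd_prime_iff_eq hl Fact.out).1 h)

private theorem m5a_zeta (C : Type) [Field C] [NumberField C] (p k : ℕ) [Fact p.Prime]
    [IsCyclotomicExtension {p ^ (k + 1)} ℚ C] : ∃ z : 𝓞 C, IsPrimitiveRoot z (p ^ (k + 1)) := by
  have h := IsCyclotomicExtension.zeta_spec (p ^ (k + 1)) ℚ C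
  exact ⟨h.toInteger, h.toInteger_isPrimitiveRoot⟩

/-- The primitive root `z` of order `p^(k+1)` is still primitive in the residue field
(`p ∉ Q`), which has `ℓ` elements. -/
theorem split_mod (Q : Ideal (𝓞 C)) (hQ : Q.IsPrime) (hl : (Ideal.absNorm Q).Prime)
    (hp : Ideal.absNorm Q ≠ p) : p ^ (k + 1) ∣ Ideal.absNorm Q - 1 := by
  obtain ⟨z, hz⟩ := m5a_zeta C p k
  have hN : 0 < p ^ (k + 1) := pow_pos (Fact.out : p.Prime).pos _
  have hpQ := m5a_pnot (p := p) Q hQ hl hp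
  have hQ0 : Q ≠ ⊥ := by
    rintro rfl
    rw [Ideal.absNorm_bot] at hl
    exact Nat.not_prime_zero hl
  have hmax : Q.IsMaximal := hQ.isMaximal hQ0
  let _ : Field (𝓞 C ⧸ Q) := Ideal.Quotient.field Q
  have hcard : Nat.card (𝓞 C ⧸ Q) = Ideal.absNorm Q := by
    rw [Ideal.absNorm_apply, Submodule.cardQuot_apply]
  have hfin : Finite (𝓞 C ⧸ Q) := (Ideal.absNorm_ne_zero_iff Q).1 hl.ne_zero
  have hprim : IsPrimitiveRoot (Ideal.Quotient.mk Q z) (p ^ (k + 1)) := by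
    refine ⟨by rw [← map_pow, hz.pow_eq_one, map_one], fun m hm => ?_⟩
    rw [← map_pow, ← map_one (Ideal.Quotient.mk Q), Ideal.Quotient.eq] at hm
    refine hz.dvd_of_pow_eq_one m ?_
    have := m5a_pow_eq Q hQ p (p ^ (k + 1)) ⟨k + 1, rfl⟩ hN hpQ z hz.pow_eq_one m 0
      (by rw [pow_zero]; exact hm)
    rwa [pow_zero] at this
  have hu : IsUnit (Ideal.Quotient.mk Q z) := hprim.isUnit hN.ne'
  have h1 : orderOf hu.unit = p ^ (k + 1) := by
    rw [← orderOf_units, IsUnit.unit_spec, ← hprim.eq_orderOf]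
  have h2 : orderOf hu.unit ∣ Nat.card (𝓞 C ⧸ Q)ˣ := orderOf_dvd_natCard _
  rw [h1, Nat.card_units, hcard] at h2
  exact h2

/-- `absNorm (Q.comap (sga a)) = absNorm Q`, and it is prime. -/
theorem comap_norm (Q : Ideal (𝓞 C)) (a : (ZMod (p ^ (k + 1)))ˣ) :
    Ideal.absNorm (Q.comap (sga (p ^ (k + 1)) C a : 𝓞 C →+* 𝓞 C)) = Ideal.absNorm Q := by
  rw [Ideal.absNorm_apply, Submodule.cardQuot_apply, Ideal.absNorm_apply, Submodule.cardQuot_apply]
  refine Nat.card_congr (Ideal.quotientEquiv _ _ (sga (p ^ (k + 1)) C a) ?_).toEquiv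
  exact (Ideal.map_comap_of_surjective _ (sga (p ^ (k + 1)) C a).surjective Q).symm

private theorem m5a_nat (Q : Ideal (𝓞 C)) (hQ : Q.IsPrime) (hl : (Ideal.absNorm Q).Prime)
    (z : 𝓞 C) : ∃ t : ℕ, z - (t : 𝓞 C) ∈ Q := by
  have hcard : Nat.card (𝓞 C ⧸ Q) = Ideal.absNorm Q := by
    rw [Ideal.absNorm_apply, Submodule.cardQuot_apply]
  have hfin : Finite (𝓞 C ⧸ Q) := (Ideal.absNorm_ne_zero_iff Q).1 hl.ne_zero
  let f : Fin (Ideal.absNorm Q) → 𝓞 C ⧸ Q := fun t => Ideal.Quotient.mk Q ((t : ℕ) : 𝓞 C)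
  have key : ∀ s t : Fin (Ideal.absNorm Q), (s : ℕ) ≤ t → f s = f t → s = t := by
    intro s t hst h
    have h1 : ((t : ℕ) : 𝓞 C) - ((s : ℕ) : 𝓞 C) ∈ Q := Ideal.Quotient.eq.1 h.symm
    rw [← Nat.cast_sub hst, split_mem Q hQ hl] at h1
    have h2 : (t : ℕ) - s = 0 := by
      by_contra h0
      have := Nat.le_of_dvd (Nat.pos_of_ne_zero h0) h1
      have := t.2
      omega
    exact Fin.ext (by omega)
  have hinj : Function.Injective f := by
    intro s t h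
    rcases le_total (s : ℕ) t with hst | hst
    · exact key s t hst h
    · exact (key t s hst h.symm).symm
  have hsurj : Function.Surjective f := by
    refine (Function.Injective.bijective_of_nat_card_le hinj ?_).2
    rw [hcard, Nat.card_eq_fintype_card, Fintype.card_fin]
  obtain ⟨t, ht⟩ := hsurj (Ideal.Quotient.mk Q z)
  exact ⟨t, Ideal.Quotient.eq.1 ht.symm⟩

/-- The stabilizer of `Q` is trivial: if `Q.comap (sga a) = Q` then `sga a` acts on the residue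
field `𝔽_ℓ`, trivially, so `z ^ a = z` modulo `Q`, so `a = 1` as `z` is primitive modulo `Q`. -/
theorem split_free (Q : Ideal (𝓞 C)) (hQ : Q.IsPrime) (hl : (Ideal.absNorm Q).Prime)
    (hp : Ideal.absNorm Q ≠ p) (a b : (ZMod (p ^ (k + 1)))ˣ)
    (h : Q.comap (sga (p ^ (k + 1)) C a : 𝓞 C →+* 𝓞 C) =
      Q.comap (sga (p ^ (k + 1)) C b : 𝓞 C →+* 𝓞 C)) : a = b := by
  obtain ⟨z, hz⟩ := m5a_zeta C p k
  have hN : 0 < p ^ (k + 1) := pow_pos (Fact.out : p.Prime).pos _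
  have hpQ := m5a_pnot (p := p) Q hQ hl hp
  have hQ' : (Q.comap (sga (p ^ (k + 1)) C a : 𝓞 C →+* 𝓞 C)).IsPrime := hQ.comap _
  have hl' : (Ideal.absNorm (Q.comap (sga (p ^ (k + 1)) C a : 𝓞 C →+* 𝓞 C))).Prime := by
    rw [comap_norm]
    exact hl
  obtain ⟨t, ht⟩ := m5a_nat _ hQ' hl' z
  have ht' := ht
  rw [h] at ht'
  rw [Ideal.mem_comap, map_sub, map_natCast] at ht ht'
  have h1 : sga (p ^ (k + 1)) C a z - sga (p ^ (k + 1)) C b z ∈ Q := by
    have := Q.sub_mem ht ht'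
    rw [sub_sub_sub_cancel_right] at this
    exact this
  rw [sga_root a z hz.pow_eq_one, sga_root b z hz.pow_eq_one] at h1
  have h2 := m5a_pow_eq Q hQ p (p ^ (k + 1)) ⟨k + 1, rfl⟩ hN hpQ z hz.pow_eq_one _ _ h1
  have : NeZero (p ^ (k + 1)) := ⟨hN.ne'⟩
  have h3 := hz.pow_inj (ZMod.val_lt _) (ZMod.val_lt _) h2
  exact Units.ext (ZMod.val_injective _ h3)

/-- Lying over for the integral extension `𝓞 Ω / 𝓞 C`. -/
theorem exists_P (Q : Ideal (𝓞 C)) (hQ : Q.IsPrime) (hQ0 : Q ≠ ⊥) :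
    ∃ P : Ideal (𝓞 Ω), P.IsMaximal ∧ PC C P = Q := by
  have hmax : Q.IsMaximal := hQ.isMaximal hQ0
  obtain ⟨P, hP, hPQ⟩ := Ideal.exists_ideal_over_maximal_of_isIntegral (S := 𝓞 Ω) Q (by
    rw [RingOfIntegers.ker_algebraMap_eq_bot C Ω]
    exact bot_le)
  exact ⟨P, hP, hPQ⟩

/-- A Frobenius element at `P ∣ ℓ` is in `HC` (`kap_frob`: `kap φ = ℓ = 1` modulo `p^(k+1)`). -/
theorem frob_HC (P : Ideal (𝓞 Ω)) (hP : P.IsMaximal) (hl : (Ideal.absNorm (PC C P)).Prime)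
    (hp : Ideal.absNorm (PC C P) ≠ p) (φ : Ω ≃ₐ[ℚ] Ω)
    (hφ : ∀ x : 𝓞 Ω, ∃ y : 𝓞 Ω, y ∈ P ∧
      φ (x : Ω) - (x : Ω) ^ (Ideal.absNorm (PC C P)) = (y : Ω)) : φ ∈ HC Ω p k := by
  have hQ := (PC_prime (C := C) P hP).1
  have hpP : (p : 𝓞 Ω) ∉ P := by
    intro h
    refine m5a_pnot (p := p) (PC C P) hQ hl hp ?_
    show algebraMap (𝓞 C) (𝓞 Ω) (p : 𝓞 C) ∈ P
    rwa [map_natCast]
  have : NeZero (p ^ (k + 1)) := ⟨(pow_pos (Fact.out : p.Prime).pos _).ne'⟩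
  have h1 := kap_frob (Ideal.absNorm (PC C P)) p (p ^ (k + 1)) ⟨k + 1, rfl⟩ P hP hpP φ hφ
  have h2 := split_mod (k := k) (PC C P) hQ hl hp
  unfold HC
  rw [MonoidHom.mem_ker]
  apply Units.ext
  rw [h1, Units.val_one]
  have h3 : Ideal.absNorm (PC C P) = (Ideal.absNorm (PC C P) - 1) + 1 :=
    (Nat.sub_add_cancel hl.one_lt.le).symm
  rw [h3, Nat.cast_add, (ZMod.natCast_eq_zero_iff _ _).2 h2, zero_add, Nat.cast_one]

/-- Evaluation of the symbol at a Frobenius element: `θ ^ p = x`, `φ θ = θ ^ ℓ` modulo `P`,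
`φ θ = zp ^ c θ`, `θ ∉ P`, so `zp ^ c = θ ^ (ℓ-1) = x ^ ((ℓ-1)/p)` modulo `P`. -/
theorem kum_frob (zp : 𝓞 C) (hz : IsPrimitiveRoot zp p) (P : Ideal (𝓞 Ω)) (hP : P.IsMaximal)
    (hl : (Ideal.absNorm (PC C P)).Prime) (hp : Ideal.absNorm (PC C P) ≠ p) (φ : Ω ≃ₐ[ℚ] Ω)
    (hφ : ∀ x : 𝓞 Ω, ∃ y : 𝓞 Ω, y ∈ P ∧
      φ (x : Ω) - (x : Ω) ^ (Ideal.absNorm (PC C P)) = (y : Ω)) (hk : φ ∈ HC Ω p k)
    (x : 𝓞 C) (hx : x ∉ PC C P) :
    zp ^ (kum Ω C p zp x φ).val - x ^ ((Ideal.absNorm (PC C P) - 1) / p) ∈ PC C P := by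
  have hQ := (PC_prime (C := C) P hP).1
  have hx0 : x ≠ 0 := by
    rintro rfl
    exact hx (Ideal.zero_mem _)
  have hp0 : 0 < p := (Fact.out : p.Prime).pos
  obtain ⟨θ, hθ⟩ := IsAlgClosed.exists_pow_nat_eq (io C Ω x) hp0
  have hint : IsIntegral ℤ θ := by
    apply IsIntegral.of_pow hp0
    rw [hθ]
    exact (RingOfIntegers.isIntegral_coe x).map (algebraMap C Ω).toIntAlgHom
  obtain ⟨t, ht⟩ : ∃ t : 𝓞 Ω, (t : Ω) = θ := ⟨⟨θ, hint⟩, rfl⟩
  have hinj : ∀ u v : 𝓞 Ω, (u : Ω) = (v : Ω) → u = v := fun u v h => RingOfIntegers.ext h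
  have htp : t ^ p = algebraMap (𝓞 C) (𝓞 Ω) x := by
    apply hinj
    rw [show ((t ^ p : 𝓞 Ω) : Ω) = (t : Ω) ^ p from map_pow _ _ _, ht, hθ]
    rfl
  have htP : t ∉ P := by
    intro h
    apply hx
    show algebraMap (𝓞 C) (𝓞 Ω) x ∈ P
    rw [← htp]
    exact P.pow_mem_of_mem h p hp0
  obtain ⟨y, hy, hyt⟩ := hφ t
  have hspec := kum_spec zp hz x hx0 φ hk θ hθ
  obtain ⟨c, hc⟩ : ∃ c, c = (kum Ω C p zp x φ).val := ⟨_, rfl⟩
  rw [← hc] at hspec ⊢
  have h1 : y = algebraMap (𝓞 C) (𝓞 Ω) zp ^ c * t - t ^ (Ideal.absNorm (PC C P)) := by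
    apply hinj
    rw [← hyt, ht, hspec]
    show _ = algebraMap (𝓞 Ω) Ω (algebraMap (𝓞 C) (𝓞 Ω) zp ^ c * t - t ^ (Ideal.absNorm (PC C P)))
    rw [map_sub, map_mul, map_pow, map_pow]
    show _ = io C Ω zp ^ c * (t : Ω) - (t : Ω) ^ _
    rw [ht]
  have h2 : p ∣ Ideal.absNorm (PC C P) - 1 :=
    (dvd_pow_self p (Nat.succ_ne_zero k)).trans (split_mod (k := k) (PC C P) hQ hl hp)
  obtain ⟨m, hm⟩ := h2
  have h3 : Ideal.absNorm (PC C P) = p * m + 1 := by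
    have := hl.one_lt
    omega
  have h4 : y = t * algebraMap (𝓞 C) (𝓞 Ω) (zp ^ c - x ^ m) := by
    rw [h1, h3, pow_succ, pow_mul, htp, map_sub, map_pow, map_pow]
    ring
  rw [h4] at hy
  have h5 := (hP.isPrime.mem_or_mem hy).resolve_left htP
  rw [hm, Nat.mul_div_cancel_left m hp0]
  exact h5

end Pool.Agent.MPca71X
end

section

section
set_option autoImplicit false
open scoped NumberField
open NumberField

/-! Job N7 (medium): inertia at finite level (paper 286, proof of V2). -/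

namespace Pool.Agent.MPca71X

open Pool.Agent.MPca71W

open scoped Pointwise in
private theorem n7_lift {k Ω : Type} [Field k] [NumberField k] [Field Ω] [Algebra k Ω]
    [IsAlgClosed Ω] [Algebra.IsAlgebraic k Ω] (L : IntermediateField k Ω) [FiniteDimensional k L]
    [IsGalois k L] (P : Ideal (𝓞 L)) (Q : Ideal (𝓞 Ω)) (hQ : Q.IsMaximal)
    (hQP' : P = Q.under (𝓞 L)) (g : L ≃ₐ[k] L) (hg : g ∈ P.inertia (L ≃ₐ[k] L)) :
    ∃ h : Ω ≃ₐ[k] Ω, h ∈ inG Q ∧ ∀ x : L, h (x : Ω) = ((g x : L) : Ω) := by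
  have : NumberField L := NumberField.of_module_finite k L
  have : CharZero Ω := charZero_of_injective_algebraMap (algebraMap k Ω).injective
  have hAC : IsAlgClosure k Ω := ⟨inferInstance, inferInstance⟩
  have : Normal k Ω := IsAlgClosure.normal k Ω
  have hAC' : Algebra.IsAlgebraic L Ω := Algebra.IsAlgebraic.tower_top (K := k) L
  have hAC2 : IsAlgClosure L Ω := ⟨inferInstance, inferInstance⟩
  have : Normal L Ω := IsAlgClosure.normal L Ω
  have : IsGalois L Ω := inferInstance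
  have hint : Algebra.IsIntegral (𝓞 L) (𝓞 Ω) := inferInstance
  have hQP : Q.LiesOver P := ⟨hQP'⟩
  let G := Ω ≃ₐ[L] Ω
  let _ : TopologicalSpace (𝓞 Ω) := ⊥
  have : DiscreteTopology (𝓞 Ω) := ⟨rfl⟩
  have hsm : ∀ (n : G) (x : 𝓞 Ω), ((n • x : 𝓞 Ω) : Ω) = n (x : Ω) := fun n x => rfl
  have hsm1 : ∀ (n : Ω ≃ₐ[k] Ω) (x : 𝓞 Ω), ((n • x : 𝓞 Ω) : Ω) = n (x : Ω) := fun n x => rfl
  have hmul : ∀ (x y : 𝓞 Ω), ((x * y : 𝓞 Ω) : Ω) = (x : Ω) * (y : Ω) :=
    fun x y => map_mul (algebraMap (𝓞 Ω) Ω) x y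
  have hcs : ContinuousSMul G (𝓞 Ω) := by
    rw [continuousSMul_iff_stabilizer_isOpen]
    intro x
    have h1 := stabilizer_isOpen_of_isIntegral (K := L) (L := Ω) (x : Ω)
    convert h1 using 2
    ext n
    simp only [MulAction.mem_stabilizer_iff]
    constructor
    · intro h
      have := congrArg (fun z : 𝓞 Ω => (z : Ω)) h
      exact this
    · intro h
      apply NumberField.RingOfIntegers.ext
      exact h
  have hcomm : SMulCommClass G (𝓞 L) (𝓞 Ω) := by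
    constructor
    intro n a b
    apply NumberField.RingOfIntegers.ext
    rw [hsm, Algebra.smul_def, Algebra.smul_def]
    rw [hmul, hmul, hsm, map_mul]
    congr 1
    exact n.commutes (a : L)
  have hinv : Algebra.IsInvariant (𝓞 L) (𝓞 Ω) G := by
    constructor
    intro b hb
    have h1 : (b : Ω) ∈ Set.range (algebraMap L Ω) := by
      rw [InfiniteGalois.mem_range_algebraMap_iff_fixed]
      intro f
      have := congrArg (fun z : 𝓞 Ω => (z : Ω)) (hb f)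
      exact this
    obtain ⟨a, ha⟩ := h1
    have hai : IsIntegral ℤ a := by
      have h2 : IsIntegral ℤ (algebraMap L Ω a) := by
        rw [ha]
        exact NumberField.RingOfIntegers.isIntegral_coe b
      exact (isIntegral_algebraMap_iff (algebraMap L Ω).injective).mp h2
    refine ⟨⟨a, hai⟩, ?_⟩
    apply NumberField.RingOfIntegers.ext
    exact ha
  let g1 : Ω ≃ₐ[k] Ω := AlgEquiv.liftNormal g Ω
  have hg1 : ∀ x : L, g1 (algebraMap L Ω x) = algebraMap L Ω (g x) :=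
    fun x => AlgEquiv.liftNormal_commutes g Ω x
  have hgin : ∀ x : 𝓞 L, g • x - x ∈ P := hg
  have hgin2 : ∀ x : 𝓞 L, g⁻¹ • x - x ∈ P := (inv_mem hg : g⁻¹ ∈ P.inertia (L ≃ₐ[k] L))
  have hg1inv : ∀ x : 𝓞 L, g1⁻¹ • (algebraMap (𝓞 L) (𝓞 Ω) x) = algebraMap (𝓞 L) (𝓞 Ω) (g⁻¹ • x) := by
    intro x
    rw [inv_smul_eq_iff]
    apply NumberField.RingOfIntegers.ext
    rw [hsm1]
    change algebraMap L Ω (x : L) = g1 (algebraMap L Ω ((g⁻¹ • x : 𝓞 L) : L))
    rw [hg1]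
    congr 1
    change (x : L) = g (g⁻¹ (x : L))
    exact (g.apply_symm_apply (x : L)).symm
  have hunder : (g1 • Q).under (𝓞 L) = Q.under (𝓞 L) := by
    ext x
    rw [Ideal.under_def, Ideal.under_def, Ideal.mem_comap, Ideal.mem_comap,
      Ideal.mem_pointwise_smul_iff_inv_smul_mem, hg1inv]
    have h1 : algebraMap (𝓞 L) (𝓞 Ω) (g⁻¹ • x - x) ∈ Q := by
      have := hgin2 x
      rw [hQP'] at this
      exact this
    rw [map_sub] at h1
    constructor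
    · intro h2
      have := Q.sub_mem h2 h1
      simpa using this
    · intro h2
      have := Q.add_mem h2 h1
      simpa using this
  have hQp : Q.IsPrime := hQ.isPrime
  have hgQ : (g1 • Q).IsPrime := inferInstance
  obtain ⟨n, hn⟩ := Algebra.IsInvariant.exists_smul_of_under_eq_of_profinite (A := 𝓞 L) (B := 𝓞 Ω)
    (G := G) (g1 • Q) Q hunder
  let g2 : Ω ≃ₐ[k] Ω := (AlgEquiv.restrictScalars k n) * g1
  have hg2 : ∀ x : L, g2 (algebraMap L Ω x) = algebraMap L Ω (g x) := by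
    intro x
    change n (g1 (algebraMap L Ω x)) = _
    rw [hg1]
    exact n.commutes (g x)
  have hg2s : ∀ x : 𝓞 Ω, g2 • x = n • (g1 • x) := by
    intro x
    apply NumberField.RingOfIntegers.ext
    rw [hsm1, hsm, hsm1]
    rfl
  have hg2Q : Q = g2 • Q := by
    ext x
    rw [Ideal.mem_pointwise_smul_iff_inv_smul_mem]
    have e : x = g2 • (g2⁻¹ • x) := (smul_inv_smul g2 x).symm
    constructor
    · intro hx
      rw [hn, e, hg2s, Ideal.smul_mem_pointwise_smul_iff, Ideal.smul_mem_pointwise_smul_iff] at hx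
      exact hx
    · intro hx
      rw [hn, e, hg2s, Ideal.smul_mem_pointwise_smul_iff, Ideal.smul_mem_pointwise_smul_iff]
      exact hx
  let σ0 : (𝓞 Ω ⧸ Q) ≃+* (𝓞 Ω ⧸ Q) :=
    Ideal.quotientEquiv Q Q (MulSemiringAction.toRingEquiv _ (𝓞 Ω) g2) (by
      exact hg2Q)
  have hσ0 : ∀ x : 𝓞 Ω, σ0 (Ideal.Quotient.mk Q x) = Ideal.Quotient.mk Q (g2 • x) := fun x => rfl
  let σ : (𝓞 Ω ⧸ Q) ≃ₐ[𝓞 L ⧸ P] (𝓞 Ω ⧸ Q) := AlgEquiv.ofRingEquiv (f := σ0) (by
    intro r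
    obtain ⟨r, rfl⟩ := Ideal.Quotient.mk_surjective r
    change σ0 (Ideal.Quotient.mk Q (algebraMap (𝓞 L) (𝓞 Ω) r)) =
      Ideal.Quotient.mk Q (algebraMap (𝓞 L) (𝓞 Ω) r)
    rw [hσ0, Ideal.Quotient.eq]
    have h1 : g2 • (algebraMap (𝓞 L) (𝓞 Ω) r) = algebraMap (𝓞 L) (𝓞 Ω) (g • r) := by
      apply NumberField.RingOfIntegers.ext
      rw [hsm1]
      exact hg2 (r : L)
    rw [h1, ← map_sub]
    have := hgin r
    rw [hQP'] at this
    exact this)
  obtain ⟨m, hm⟩ := Ideal.Quotient.stabilizerHom_surjective_of_profinite (G := G) P Q σ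
  have hm2 : ∀ x : 𝓞 Ω, (m : G) • x - g2 • x ∈ Q := by
    intro x
    rw [← Ideal.Quotient.eq]
    have h1 := congrArg (fun f : (𝓞 Ω ⧸ Q) ≃ₐ[𝓞 L ⧸ P] (𝓞 Ω ⧸ Q) => f (Ideal.Quotient.mk Q x)) hm
    exact h1
  have hmQ : (m : G) • Q = Q := m.2
  refine ⟨(AlgEquiv.restrictScalars k (m : G)⁻¹) * g2, ?_, ?_⟩
  · intro x
    refine ⟨(m : G)⁻¹ • (g2 • x) - x, ?_, ?_⟩
    · have h1 : (m : G) • ((m : G)⁻¹ • (g2 • x) - x) ∈ (m : G) • Q := by
        rw [smul_sub, smul_inv_smul, hmQ, ← neg_sub]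
        exact Q.neg_mem (hm2 x)
      rwa [Ideal.smul_mem_pointwise_smul_iff] at h1
    · rw [show (((m : G)⁻¹ • (g2 • x) - x : 𝓞 Ω) : Ω) =
        (((m : G)⁻¹ • (g2 • x) : 𝓞 Ω) : Ω) - (x : Ω) from map_sub (algebraMap (𝓞 Ω) Ω) _ _]
      rfl
  · intro x
    change (m : G)⁻¹ (g2 (algebraMap L Ω x)) = algebraMap L Ω (g x)
    rw [hg2]
    exact (m : G)⁻¹.commutes (g x)

/-- A finite Galois extension `M / C` in `Ω`, `P` a maximal ideal of `𝓞 Ω`, `𝔓 = P ∩ 𝓞 M`. Every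
element `g` of the inertia group of `𝔓` in `Gal(M/C)` lifts to an element of `inG P`: by the proof
of `exists_lift_inertial` (ntW/AR2) there are a maximal ideal `P'` above `𝔓` and a lift
`h ∈ inG P'`; `Gal(Ω/M)` acts transitively on the maximal ideals of `𝓞 Ω` above `𝔓`
(`Algebra.IsInvariant.exists_smul_of_under_eq` for profinite groups, see `exists_conj_prime` in
ntW/KC), take `t` with `t P' = P`; `t h t⁻¹ ∈ inG P` restricts to `g`. -/
theorem lift_inG {C Ω : Type} [Field C] [NumberField C] [Field Ω] [Algebra C Ω] [IsAlgClosed Ω]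
    [Algebra.IsAlgebraic C Ω] (M : IntermediateField C Ω) [FiniteDimensional C M] [IsGalois C M]
    (P : Ideal (𝓞 Ω)) (hP : P.IsMaximal) (g : M ≃ₐ[C] M)
    (hg : g ∈ (P.comap (algebraMap (𝓞 M) (𝓞 Ω))).inertia (M ≃ₐ[C] M)) :
    ∃ h : Ω ≃ₐ[C] Ω, h ∈ inG P ∧ ∀ x : M, h (x : Ω) = ((g x : M) : Ω) := by
  exact n7_lift M (P.comap (algebraMap (𝓞 M) (𝓞 Ω))) P hP rfl g hg

/-- If `inG P ∩ Gal(Ω/C)` fixes `M` then the inertia group of `𝔓 = P ∩ 𝓞 M` in `Gal(M/C)` is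
trivial (`lift_inG`), so the ramification index of `𝔓` over `P ∩ 𝓞 C` is `1`
(`Ideal.card_inertia_eq_ramificationIdxIn`), so multiplicities of elements of `𝓞 C` do not
change. -/
theorem mult_eq_of_inG {C Ω : Type} [Field C] [NumberField C] [Field Ω] [Algebra C Ω]
    [IsAlgClosed Ω] [Algebra.IsAlgebraic C Ω] (M : IntermediateField C Ω) [FiniteDimensional C M]
    [IsGalois C M] (P : Ideal (𝓞 Ω)) (hP : P.IsMaximal)
    (hM : ∀ h : Ω ≃ₐ[C] Ω, h ∈ inG P → ∀ x : M, h (x : Ω) = (x : Ω)) (x : 𝓞 C) (hx : x ≠ 0) :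
    multiplicity (P.comap (algebraMap (𝓞 M) (𝓞 Ω))) (Ideal.span {algebraMap (𝓞 C) (𝓞 M) x}) =
      vQ (PC C P) x := by
  have : NumberField M := NumberField.of_module_finite C M
  have hPp : P.IsPrime := hP.isPrime
  have : CharZero Ω := charZero_of_injective_algebraMap (algebraMap C Ω).injective
  have hAC' : Algebra.IsAlgebraic M Ω := Algebra.IsAlgebraic.tower_top (K := C) M
  have hint : Algebra.IsIntegral (𝓞 M) (𝓞 Ω) := inferInstance
  set 𝔓 : Ideal (𝓞 M) := P.comap (algebraMap (𝓞 M) (𝓞 Ω)) with h𝔓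
  have h𝔓m : 𝔓.IsMaximal := Ideal.isMaximal_comap_of_isIntegral_of_isMaximal P
  have h𝔓p : 𝔓.IsPrime := h𝔓m.isPrime
  have hPC : PC C P = 𝔓.under (𝓞 C) := by
    unfold PC
    rw [Ideal.under_def, h𝔓, Ideal.comap_comap]
    congr 1
  rw [hPC]
  have hv : (𝔓.under (𝓞 C)).IsMaximal := Ideal.isMaximal_comap_of_isIntegral_of_isMaximal 𝔓
  have h𝔓b : 𝔓 ≠ ⊥ := by
    intro h
    have h1 := NumberField.RingOfIntegers.not_isField M
    rw [h] at h𝔓m
    exact h1 (Ring.isField_iff_maximal_bot.2 h𝔓m)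
  have hvb : 𝔓.under (𝓞 C) ≠ ⊥ := by
    intro h
    have h1 := NumberField.RingOfIntegers.not_isField C
    rw [h] at hv
    exact h1 (Ring.isField_iff_maximal_bot.2 hv)
  have hirr : Irreducible 𝔓 := (Ideal.prime_of_isPrime h𝔓b h𝔓p).irreducible
  have hirr2 : Irreducible (𝔓.under (𝓞 C)) := (Ideal.prime_of_isPrime hvb hv.isPrime).irreducible
  have hmap : (𝔓.under (𝓞 C)).map (algebraMap (𝓞 C) (𝓞 M)) ≠ ⊥ := Ideal.map_ne_bot_of_ne_bot hvb
  have he : (𝔓.under (𝓞 C)).ramificationIdx' 𝔓 = 1 := by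
    rw [Ideal.IsDedekindDomain.ramificationIdx'_eq_multiplicity hmap h𝔓p,
      ← Ideal.IsDedekindDomain.ramificationIdx_eq_multiplicity (𝔓.under (𝓞 C)) 𝔓 hmap,
      ← Ideal.ramificationIdxIn_eq_ramificationIdx (𝔓.under (𝓞 C)) 𝔓 (M ≃ₐ[C] M),
      ← Ideal.card_inertia_eq_ramificationIdxIn (G := M ≃ₐ[C] M) (𝔓.under (𝓞 C)) 𝔓]
    have h1 : 𝔓.inertia (M ≃ₐ[C] M) = ⊥ := by
      rw [Subgroup.eq_bot_iff_forall]
      intro g hg
      obtain ⟨h, hh, hx⟩ := lift_inG M P hP g hg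
      ext x
      have h2 := hM h hh x
      rw [hx x] at h2
      simpa using h2
    rw [h1]
    simp
  have hx0 : Ideal.span {x} ≠ ⊥ := by
    rw [Ne, Ideal.span_singleton_eq_bot]
    exact hx
  have h5 := Ideal.IsDedekindDomain.emultiplicity_map_eq_ramificationIdx'_mul hx0 hirr2 hirr h𝔓b
  rw [he, Nat.cast_one, one_mul, Ideal.map_span, Set.image_singleton] at h5
  unfold vQ multiplicity
  rw [h5]

end Pool.Agent.MPca71X
end

section
set_option autoImplicit false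
open scoped NumberField
open NumberField

/-! Job N8 (medium): tame ramification (paper 286, V2). -/

namespace Pool.Agent.MPca71X

open Pool.Agent.MPca71W

variable {Ω C : Type} [Field Ω] [Algebra ℚ Ω] [IsAlgClosed Ω] [Algebra.IsAlgebraic ℚ Ω] {p k : ℕ}
  [Fact p.Prime] [Field C] [NumberField C] [IsCyclotomicExtension {p ^ (k + 1)} ℚ C] [Algebra C Ω]
  [IsScalarTower ℚ C Ω]

/-- The Kummer extension. If all `g ∈ HC ∩ inG P` have `kum x g = 0` then for `θ ^ p = x` the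
extension `M = C(θ)` of `C` is finite Galois (splitting field of `X^p - x`, `zp ∈ C`) and is fixed
by `inG P ∩ Gal(Ω/C)` (elements of `Gal(Ω/C)` are in `HC` as `ℚ`-automorphisms:
`HC_of_fixes`). -/
theorem kummer_ext (zp : 𝓞 C) (hz : IsPrimitiveRoot zp p) (P : Ideal (𝓞 Ω)) (hP : P.IsMaximal)
    (x : 𝓞 C) (hx : x ≠ 0)
    (h : ∀ g ∈ HC Ω p k, g ∈ inG P → kum Ω C p zp x g = 0) :
    ∃ (M : IntermediateField C Ω) (θ : 𝓞 M), FiniteDimensional C M ∧ IsGalois C M ∧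
      θ ^ p = algebraMap (𝓞 C) (𝓞 M) x ∧
      ∀ h : Ω ≃ₐ[C] Ω, h ∈ inG P → ∀ y : M, h (y : Ω) = (y : Ω) := by
  classical
  have hp := (Fact.out : p.Prime)
  have hCZ : CharZero C := inferInstance
  obtain ⟨f, hf⟩ : ∃ f : Polynomial C, f = Polynomial.X ^ p - Polynomial.C (x : C) := ⟨_, rfl⟩
  have hxC : (x : C) ≠ 0 := fun h0 => hx (RingOfIntegers.coe_injective (h0.trans rfl))
  have hf0 : f ≠ 0 := by rw [hf]; exact Polynomial.X_pow_sub_C_ne_zero hp.pos _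
  have hsep : f.Separable := by
    rw [hf]
    exact Polynomial.separable_X_pow_sub_C _ (Nat.cast_ne_zero.2 hp.ne_zero) hxC
  have hroot : ∀ θ : Ω, θ ∈ f.rootSet Ω ↔ θ ^ p = io C Ω x := by
    intro θ
    rw [Polynomial.mem_rootSet, hf]
    simp only [map_sub, map_pow, Polynomial.aeval_X, Polynomial.aeval_C, sub_eq_zero]
    exact ⟨fun h1 => h1.2, fun h1 => ⟨hf ▸ hf0, h1⟩⟩
  have hsplit : (f.map (algebraMap C Ω)).Splits := IsAlgClosed.splits _
  have hfd : FiniteDimensional C (IntermediateField.adjoin C (f.rootSet Ω)) := by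
    have hs := IntermediateField.adjoin_rootSet_isSplittingField hsplit
    exact Polynomial.IsSplittingField.finiteDimensional _ f
  have hgal : IsGalois C (IntermediateField.adjoin C (f.rootSet Ω)) := by
    have hs := IntermediateField.adjoin_rootSet_isSplittingField hsplit
    exact IsGalois.of_separable_splitting_field hsep
  obtain ⟨θ₀, hθ₀⟩ := IsAlgClosed.exists_pow_nat_eq (io C Ω x) hp.pos
  have hmem : θ₀ ∈ IntermediateField.adjoin C (f.rootSet Ω) :=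
    IntermediateField.subset_adjoin _ _ ((hroot θ₀).2 hθ₀)
  have hpow : (⟨θ₀, hmem⟩ : IntermediateField.adjoin C (f.rootSet Ω)) ^ p =
      algebraMap C (IntermediateField.adjoin C (f.rootSet Ω)) (x : C) := by
    apply Subtype.ext
    rw [SubmonoidClass.coe_pow]
    exact hθ₀
  have hint : IsIntegral ℤ (⟨θ₀, hmem⟩ : IntermediateField.adjoin C (f.rootSet Ω)) := by
    apply IsIntegral.of_pow hp.pos
    rw [hpow]
    exact x.isIntegral_coe.map (Algebra.algHom ℤ C _)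
  refine ⟨IntermediateField.adjoin C (f.rootSet Ω), ⟨⟨θ₀, hmem⟩, hint⟩, hfd, hgal, ?_, ?_⟩
  · apply RingOfIntegers.coe_injective
    rw [map_pow]
    exact hpow
  · intro g hg y
    obtain ⟨y, hy⟩ := y
    change g y = y
    have hgH : g.restrictScalars ℚ ∈ HC Ω p k := HC_of_fixes (C := C) _ fun c => g.commutes c
    have hgP : (g.restrictScalars ℚ : Ω ≃ₐ[ℚ] Ω) ∈ inG P := hg
    have hk := h _ hgH hgP
    induction hy using IntermediateField.adjoin_induction with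
    | mem θ hθ =>
      have h1 := kum_spec zp hz x hx _ hgH θ ((hroot θ).1 hθ)
      rw [hk, ZMod.val_zero, pow_zero, one_mul] at h1
      exact h1
    | algebraMap c => exact g.commutes c
    | add a b _ _ ha hb => rw [map_add, ha, hb]
    | inv a _ ha => rw [map_inv₀, ha]
    | mul a b _ _ ha hb => rw [map_mul, ha, hb]

/-- (V2) Otherwise by `kummer_ext`, `mult_eq_of_inG`: `vQ x` is the multiplicity of
`𝔓` in `(θ ^ p)`, which is divisible by `p`. -/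
theorem exists_tame (zp : 𝓞 C) (hz : IsPrimitiveRoot zp p) (P : Ideal (𝓞 Ω)) (hP : P.IsMaximal)
    (x : 𝓞 C) (hx : x ≠ 0) (hv : ¬ p ∣ vQ (PC C P) x) :
    ∃ g ∈ HC Ω p k, g ∈ inG P ∧ kum Ω C p zp x g ≠ 0 := by
  classical
  by_contra hcon
  push Not at hcon
  obtain ⟨M, θ, hfd, hgal, hθ, hM⟩ := kummer_ext zp hz P hP x hx hcon
  have hCΩ : Algebra.IsAlgebraic C Ω := Algebra.IsAlgebraic.tower_top (K := ℚ) C
  have hNF : NumberField M := NumberField.of_module_finite C M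
  have h1 := mult_eq_of_inG M P hP hM x hx
  have hPp : P.IsPrime := hP.isPrime
  have h𝔓p : (P.comap (algebraMap (𝓞 M) (𝓞 Ω))).IsPrime := Ideal.comap_isPrime _ _
  have h𝔓0 : P.comap (algebraMap (𝓞 M) (𝓞 Ω)) ≠ ⊥ := by
    obtain ⟨y, hy, hy0⟩ := (Submodule.ne_bot_iff _).1 (PC_prime (C := C) P hP).2
    intro h0
    have h2 : algebraMap (𝓞 C) (𝓞 M) y ∈ P.comap (algebraMap (𝓞 M) (𝓞 Ω)) := by
      rw [Ideal.mem_comap]
      exact hy
    rw [h0, Ideal.mem_bot] at h2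
    apply hy0
    have h3 := congrArg (fun w : 𝓞 M => (w : M)) h2
    have h4 : algebraMap C M (y : C) = 0 := h3
    rw [map_eq_zero] at h4
    exact RingOfIntegers.coe_injective (h4.trans rfl)
  have hprime : Prime (P.comap (algebraMap (𝓞 M) (𝓞 Ω))) := Ideal.prime_of_isPrime h𝔓0 h𝔓p
  have hθ0 : θ ≠ 0 := by
    rintro rfl
    rw [zero_pow (Fact.out : p.Prime).ne_zero] at hθ
    apply hx
    have h3 := congrArg (fun w : 𝓞 M => (w : M)) hθ.symm
    have h4 : algebraMap C M (x : C) = 0 := h3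
    rw [map_eq_zero] at h4
    exact RingOfIntegers.coe_injective (h4.trans rfl)
  have hfm : FiniteMultiplicity (P.comap (algebraMap (𝓞 M) (𝓞 Ω))) (Ideal.span {θ}) := by
    apply FiniteMultiplicity.of_prime_left hprime
    rw [Ne, Ideal.zero_eq_bot, Ideal.span_singleton_eq_bot]
    exact hθ0
  rw [← hθ, ← Ideal.span_singleton_pow, FiniteMultiplicity.multiplicity_pow hprime hfm] at h1
  exact hv ⟨_, h1.symm⟩

end Pool.Agent.MPca71X
end
end

section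
set_option autoImplicit false
open scoped NumberField
open NumberField

/-! Job N9 (medium): arithmetic of `𝓞 C` at `p`. `z` is a primitive root of unity of order `p^(k+1)`, `π = 1 - z`. -/

namespace Pool.Agent.MPca71X

open Pool.Agent.MPca71W

variable {Ω C : Type} [Field Ω] [Algebra ℚ Ω] [IsAlgClosed Ω] [Algebra.IsAlgebraic ℚ Ω] {p k : ℕ}
  [Fact p.Prime] [Field C] [NumberField C] [IsCyclotomicExtension {p ^ (k + 1)} ℚ C] [Algebra C Ω]
  [IsScalarTower ℚ C Ω]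

theorem n9_root (z : 𝓞 C) (hz : IsPrimitiveRoot z (p ^ (k + 1))) :
    IsPrimitiveRoot (z : C) (p ^ (k + 1)) :=
  hz.map_of_injective RingOfIntegers.coe_injective

theorem n9_int (z : 𝓞 C) (hz : IsPrimitiveRoot z (p ^ (k + 1))) :
    (n9_root z hz).toInteger = z := by
  ext
  rfl

/-- `Mathlib/NumberTheory/NumberField/Cyclotomic/{Basic,Ideal}.lean`: `zeta_sub_one_prime`,
`map_eq_span_zeta_sub_one_pow`, ... -/
theorem pi_prime (z : 𝓞 C) (hz : IsPrimitiveRoot z (p ^ (k + 1))) : Prime (1 - z) := by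
  have h1 := (n9_root z hz).zeta_sub_one_prime
  rw [n9_int z hz] at h1
  have h2 := h1.neg
  rwa [neg_sub] at h2

/-- `p` is a unit times `π ^ ((p-1) p^k)`. -/
theorem n9_assoc (z : 𝓞 C) (hz : IsPrimitiveRoot z (p ^ (k + 1))) :
    Associated (p : 𝓞 C) ((1 - z) ^ ((p - 1) * p ^ k)) := by
  have h1 := IsCyclotomicExtension.Rat.map_eq_span_zeta_sub_one_pow p k (n9_root z hz)
  have hirr : Irreducible (Polynomial.cyclotomic (p ^ (k + 1)) ℚ) :=
    Polynomial.cyclotomic.irreducible_rat (Nat.pos_of_ne_zero (NeZero.ne _))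
  rw [n9_int z hz, IsCyclotomicExtension.finrank C hirr,
    Nat.totient_prime_pow_succ (Fact.out : p.Prime), Ideal.map_span, Set.image_singleton,
    Ideal.span_singleton_pow, Ideal.span_singleton_eq_span_singleton] at h1
  have h2 : Associated (z - 1) (1 - z) := by
    have h3 : Associated (z - 1) (-(z - 1)) := (Associated.refl _).neg_right
    rwa [neg_sub] at h3
  have h4 := h1.trans (h2.pow_pow (n := p ^ k * (p - 1)))
  rw [mul_comm (p ^ k)] at h4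
  simpa using h4

/-- Any maximal ideal above `p` is above `(1 - z)`. -/
theorem PC_eq (z : 𝓞 C) (hz : IsPrimitiveRoot z (p ^ (k + 1))) (P : Ideal (𝓞 Ω))
    (hP : P.IsMaximal) (hp : (p : 𝓞 Ω) ∈ P) : PC C P = Ideal.span {1 - z} := by
  have hprime := pi_prime z hz
  have hPp : P.IsPrime := hP.isPrime
  have hPCp : (PC C P).IsPrime := Ideal.comap_isPrime _ _
  have h1 : (p : 𝓞 C) ∈ PC C P := by
    unfold PC
    rw [Ideal.mem_comap, map_natCast]
    exact hp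
  have h2 : (1 - z) ∈ PC C P := by
    have h3 : (1 - z) ^ ((p - 1) * p ^ k) ∈ PC C P := by
      obtain ⟨u, hu⟩ := n9_assoc z hz
      rw [← hu]
      exact Ideal.mul_mem_right _ _ h1
    exact hPCp.mem_of_pow_mem _ h3
  have h4 : (Ideal.span {1 - z}).IsMaximal := by
    have h5 : (Ideal.span {1 - z}).IsPrime := (Ideal.span_singleton_prime hprime.ne_zero).2 hprime
    refine h5.isMaximal ?_
    rw [Ne, Ideal.span_singleton_eq_bot]
    exact hprime.ne_zero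
  exact (h4.eq_of_le hPCp.ne_top ((Ideal.span_singleton_le_iff_mem _).2 h2)).symm

theorem n9_dvd_int (z : 𝓞 C) (hz : IsPrimitiveRoot z (p ^ (k + 1))) (m : ℤ) :
    (1 - z) ∣ (m : 𝓞 C) ↔ (p : ℤ) ∣ m := by
  have h1 := IsCyclotomicExtension.Rat.zeta_sub_one_dvd_intCast_iff p k (n9_root z hz) (n := m)
  rw [n9_int z hz] at h1
  rw [← h1, ← neg_dvd, neg_sub]

/-- The residue field is `𝔽_p`. -/
theorem res_int (z : 𝓞 C) (hz : IsPrimitiveRoot z (p ^ (k + 1))) (x : 𝓞 C) :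
    ∃ m : ℕ, m < p ∧ (1 - z) ∣ x - (m : 𝓞 C) := by
  have hcard : Nat.card (𝓞 C ⧸ Ideal.span {1 - z}) = p := by
    have h1 := IsCyclotomicExtension.Rat.absNorm_span_zeta_sub_one p k (n9_root z hz)
    rw [n9_int z hz] at h1
    have h2 : Ideal.span {z - 1} = Ideal.span {1 - z} := by
      rw [← neg_sub, Ideal.span_singleton_neg]
    rw [h2] at h1
    exact h1
  have hinj : Function.Injective
      (fun m : Fin p => (((m : ℕ) : 𝓞 C ⧸ Ideal.span {1 - z}))) := by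
    intro a b hab
    have h1 : (1 - z) ∣ (((a : ℕ) : ℤ) - ((b : ℕ) : ℤ) : ℤ) := by
      rw [← Ideal.mem_span_singleton, ← Ideal.Quotient.eq_zero_iff_mem]
      push_cast
      rw [map_sub, map_natCast, map_natCast, sub_eq_zero]
      exact hab
    rw [n9_dvd_int z hz] at h1
    have h2 : ((a : ℕ) : ℤ) ≡ ((b : ℕ) : ℤ) [ZMOD p] := (Int.modEq_iff_dvd.2 h1).symm
    have h3 : (a : ℕ) ≡ (b : ℕ) [MOD p] := (Int.natCast_modEq_iff).1 h2
    exact Fin.ext (Nat.ModEq.eq_of_lt_of_lt h3 a.2 b.2)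
  have hfin : Finite (𝓞 C ⧸ Ideal.span {1 - z}) :=
    Nat.finite_of_card_ne_zero (by rw [hcard]; exact (Fact.out : p.Prime).ne_zero)
  have hsurj := (hinj.bijective_of_nat_card_le (by rw [hcard, Nat.card_eq_fintype_card,
    Fintype.card_fin])).2
  obtain ⟨m, hm⟩ := hsurj (Ideal.Quotient.mk _ x)
  refine ⟨m, m.2, ?_⟩
  rw [← Ideal.mem_span_singleton, ← Ideal.Quotient.eq_zero_iff_mem, map_sub, map_natCast,
    sub_eq_zero]
  exact hm.symm

theorem pi_dvd_nat (z : 𝓞 C) (hz : IsPrimitiveRoot z (p ^ (k + 1))) (m : ℕ) :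
    (1 - z) ∣ (m : 𝓞 C) ↔ p ∣ m := by
  have h1 := n9_dvd_int z hz m
  rwa [Int.cast_natCast, Int.natCast_dvd_natCast] at h1

/-- `p` is a unit times `π ^ ((p-1) p^k)`. -/
theorem p_assoc (z : 𝓞 C) (hz : IsPrimitiveRoot z (p ^ (k + 1))) :
    Associated (p : 𝓞 C) ((1 - z) ^ ((p - 1) * p ^ k)) := n9_assoc z hz

/-- `1 - z ^ (p ^ k)` is a unit times `π ^ (p^k)` (norms, or: `(1 - zp)^(p-1)` is associated to
`p`). -/
theorem lam_assoc (z : 𝓞 C) (hz : IsPrimitiveRoot z (p ^ (k + 1))) :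
    Associated (1 - z ^ (p ^ k)) ((1 - z) ^ (p ^ k)) := by
  have hp := (Fact.out : p.Prime)
  have hprime := pi_prime z hz
  have hzp : IsPrimitiveRoot (z ^ (p ^ k)) p :=
    hz.pow (Nat.pos_of_ne_zero (NeZero.ne _)) (by rw [pow_succ])
  have hzpC : IsPrimitiveRoot ((z ^ (p ^ k) : 𝓞 C) : C) p :=
    hzp.map_of_injective RingOfIntegers.coe_injective
  have hint : hzpC.toInteger = z ^ (p ^ k) := by
    ext
    rfl
  have h1 := IsCyclotomicExtension.Rat.associated_zeta_sub_one_pow_prime p hzpC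
  rw [hint] at h1
  have h2 : Associated ((1 - z ^ (p ^ k)) ^ (p - 1)) (p : 𝓞 C) := by
    have h3 : Associated (1 - z ^ (p ^ k)) (z ^ (p ^ k) - 1) := by
      have h4 : Associated (1 - z ^ (p ^ k)) (-(1 - z ^ (p ^ k))) := (Associated.refl _).neg_right
      rwa [neg_sub] at h4
    exact (h3.pow_pow).trans h1
  have h5 := h2.trans (n9_assoc z hz)
  have h6 : (1 - z ^ (p ^ k)) ∣ (1 - z) ^ ((p - 1) * p ^ k) :=
    (dvd_pow_self _ (by have := hp.two_le; omega)).trans h5.dvd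
  obtain ⟨j, _, hj⟩ := (dvd_prime_pow hprime _).1 h6
  have h7 : Associated ((1 - z) ^ (j * (p - 1))) ((1 - z) ^ ((p - 1) * p ^ k)) := by
    rw [pow_mul]
    exact (hj.pow_pow).symm.trans h5
  have h8 : j * (p - 1) = (p - 1) * p ^ k :=
    le_antisymm ((pow_dvd_pow_iff hprime.ne_zero hprime.not_isUnit).1 h7.dvd)
      ((pow_dvd_pow_iff hprime.ne_zero hprime.not_isUnit).1 h7.symm.dvd)
  have h9 : j = p ^ k := by
    rw [mul_comm] at h8
    exact Nat.eq_of_mul_eq_mul_left (by have := hp.two_le; omega) h8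
  rwa [h9] at hj

/-- `x ^ p = x` modulo `π`. -/
theorem frob_pi (z : 𝓞 C) (hz : IsPrimitiveRoot z (p ^ (k + 1))) (x : 𝓞 C) :
    (1 - z) ∣ x ^ p - x := by
  obtain ⟨m, _, hm⟩ := res_int z hz x
  have h1 : (p : ℤ) ∣ (m : ℤ) ^ p - m := by
    rw [← ZMod.intCast_zmod_eq_zero_iff_dvd]
    push_cast
    rw [ZMod.pow_card, sub_self]
  have h2 := (n9_dvd_int z hz _).2 h1
  push_cast at h2
  have h3 : (1 - z) ∣ x ^ p - (m : 𝓞 C) ^ p := hm.trans (sub_dvd_pow_sub_pow _ _ p)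
  have h4 : x ^ p - x = (x ^ p - (m : 𝓞 C) ^ p) + ((m : 𝓞 C) ^ p - m) - (x - m) := by ring
  rw [h4]
  exact dvd_sub (dvd_add h3 h2) hm

/-- `sga a` acts trivially on the residue field, and maps `π = 1 - z` to
`1 - z ^ a = a π` modulo `π²`; so `sga a (π ^ m y) = rd(a)^m π^m y` modulo `π^(m+1)`: for a natural
number `d` with `(d : ZMod p) = rd a`. -/
theorem sga_pi (z : 𝓞 C) (hz : IsPrimitiveRoot z (p ^ (k + 1))) (a : (ZMod (p ^ (k + 1)))ˣ)
    (d : ℕ) (hd : (d : ZMod p) = rd a) (m : ℕ) (y : 𝓞 C) :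
    (1 - z) ^ (m + 1) ∣
      sga (p ^ (k + 1)) C a ((1 - z) ^ m * y) - (d : 𝓞 C) ^ m * ((1 - z) ^ m * y) := by
  obtain ⟨j, hj⟩ : ∃ j : ℕ, j = (a : ZMod (p ^ (k + 1))).val := ⟨_, rfl⟩
  obtain ⟨u, hu⟩ : ∃ u : 𝓞 C, u = ∑ i ∈ Finset.range j, z ^ i := ⟨_, rfl⟩
  have h1 : sga (p ^ (k + 1)) C a (1 - z) = (1 - z) * u := by
    rw [map_sub, map_one, sga_root a z hz.pow_eq_one, ← hj, hu, mul_neg_geom_sum]
  have h2 : (1 - z) ∣ u - (j : 𝓞 C) := by
    have h3 : u - (j : 𝓞 C) = ∑ i ∈ Finset.range j, (z ^ i - 1) := by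
      rw [Finset.sum_sub_distrib, hu, Finset.sum_const, Finset.card_range, nsmul_one]
    rw [h3]
    refine Finset.dvd_sum fun i _ => ?_
    have h4 := sub_dvd_pow_sub_pow z 1 i
    rw [one_pow] at h4
    rw [← neg_sub, neg_dvd]
    exact h4
  have h5 : (1 - z) ∣ u - (d : 𝓞 C) := by
    have h6 : (1 - z) ∣ ((((j : ℕ) : ℤ) - ((d : ℕ) : ℤ) : ℤ) : 𝓞 C) := by
      rw [n9_dvd_int z hz, ← ZMod.intCast_zmod_eq_zero_iff_dvd]
      push_cast
      rw [hd, rd_val, ← hj, sub_self]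
    push_cast at h6
    have h7 : u - (d : 𝓞 C) = (u - (j : 𝓞 C)) + ((j : 𝓞 C) - (d : 𝓞 C)) := by ring
    rw [h7]
    exact dvd_add h2 h6
  have h8 : (1 - z) ∣ sga (p ^ (k + 1)) C a y - y := by
    obtain ⟨c, _, y', hy'⟩ := res_int z hz y
    have h9 : sga (p ^ (k + 1)) C a y - y =
        sga (p ^ (k + 1)) C a (y - (c : 𝓞 C)) - (y - (c : 𝓞 C)) := by
      rw [map_sub, map_natCast]
      ring
    rw [h9, hy', map_mul, h1, mul_assoc]
    exact dvd_sub (dvd_mul_right _ _) (dvd_mul_right _ _)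
  have h10 : (1 - z) ∣ u ^ m * sga (p ^ (k + 1)) C a y - (d : 𝓞 C) ^ m * y := by
    have h11 : u ^ m * sga (p ^ (k + 1)) C a y - (d : 𝓞 C) ^ m * y =
        (u ^ m - (d : 𝓞 C) ^ m) * sga (p ^ (k + 1)) C a y +
          (d : 𝓞 C) ^ m * (sga (p ^ (k + 1)) C a y - y) := by ring
    rw [h11]
    exact dvd_add ((h5.trans (sub_dvd_pow_sub_pow _ _ m)).mul_right _) (h8.mul_left _)
  have h12 : sga (p ^ (k + 1)) C a ((1 - z) ^ m * y) - (d : 𝓞 C) ^ m * ((1 - z) ^ m * y) =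
      (1 - z) ^ m * (u ^ m * sga (p ^ (k + 1)) C a y - (d : 𝓞 C) ^ m * y) := by
    rw [map_mul, map_pow, h1, mul_pow]
    ring
  rw [h12, pow_succ]
  exact mul_dvd_mul_left _ h10

end Pool.Agent.MPca71X
end
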