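import Pool.Agent.Lib.MP_ca71b5_ntX.N0
import Pool.Agent.Lib.MP_ca71b5_ntX.N1b
import Pool.Agent.Lib.MP_ca71b5_ntX.N3
import Pool.Agent.Lib.MP_ca71b5_ntX.G0
import Pool.Agent.Lib.MP_ca71b5_ntX.N9
import Pool.Agent.Lib.MP_ca71b5_ntW.RED3

section
set_option autoImplicit false
open scoped NumberField
open NumberField

/-! Definitions for the assembly (paper 286, section 5). -/

namespace Pool.Agent.MPca71X

open Pool.Agent.MPca71W

variable {Ω C : Type} [Field Ω] [Algebra ℚ Ω] [IsAlgClosed Ω] [Algebra.IsAlgebraic ℚ Ω] {p k : ℕ}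
  [Fact p.Prime] [Field C] [NumberField C] [IsCyclotomicExtension {p ^ (k + 1)} ℚ C] [Algebra C Ω]
  [IsScalarTower ℚ C Ω]

variable (p k) in
/-- A family of primes `Q s` of `𝓞 C` of prime norm, generators `g s` of `Q s ^ e s * b s ^ p`,
maximal ideals `P s` of `𝓞 Ω` above them, and inertia elements `x s` with nonzero symbol. -/
structure PDat (z : 𝓞 C) {S : Type} (Q : S → Ideal (𝓞 C)) (g : S → 𝓞 C) (e : S → ℕ)
    (b : S → Ideal (𝓞 C)) (P : S → Ideal (𝓞 Ω)) (x : S → (Ω ≃ₐ[ℚ] Ω)) : Prop where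
  hz : IsPrimitiveRoot z (p ^ (k + 1))
  prime : ∀ s, (Q s).IsPrime
  nprime : ∀ s, (Ideal.absNorm (Q s)).Prime
  nep : ∀ s, Ideal.absNorm (Q s) ≠ p
  inj : ∀ s s', Ideal.absNorm (Q s) = Ideal.absNorm (Q s') → s = s'
  gne : ∀ s, g s ≠ 0
  e1 : ∀ s, 1 ≤ e s
  e2 : ∀ s, e s < p
  fact : ∀ s, Ideal.span {g s} = Q s ^ e s * b s ^ p
  Pm : ∀ s, (P s).IsMaximal
  PQ : ∀ s, PC C (P s) = Q s
  xH : ∀ s, x s ∈ HC Ω p k
  xP : ∀ s, x s ∈ inG (P s)
  xk : ∀ s, kum Ω C p (z ^ (p ^ k)) (eg C p k (g s)) (x s) ≠ 0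

variable (p k) in
/-- The congruences modulo `π ^ (p^(k+1))`, `π = 1 - z`, with exponents `m j`. -/
structure CDat (z : 𝓞 C) {t d : ℕ} (g : Fin t ⊕ Fin d → 𝓞 C)
    (G : Matrix (Fin t) (Fin d) (ZMod p)) (m : Fin t → ℕ) : Prop where
  minj : Function.Injective m
  m1 : ∀ j, 1 < m j
  m2 : ∀ j, m j < p ^ (k + 1)
  m3 : ∀ j, ¬ p ∣ m j
  m4 : ∀ j, (p - 1) ∣ (m j - 1)
  cl : ∀ j, (1 - z) ^ (p ^ (k + 1)) ∣ g (Sum.inl j) - (1 + (1 - z) ^ m j)
  cr : ∀ i, (1 - z) ^ (p ^ (k + 1)) ∣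
    g (Sum.inr i) - ∏ j, (1 + (1 - z) ^ m j) ^ (p - (G j i).val)

variable (C p k) in
/-- The elements `β_i`. -/
noncomputable def bt {t d : ℕ} (g : Fin t ⊕ Fin d → 𝓞 C) (G : Matrix (Fin t) (Fin d) (ZMod p))
    (i : Fin d) : 𝓞 C :=
  eg C p k (g (Sum.inr i)) * ∏ j, eg C p k (g (Sum.inl j)) ^ (G j i).val

/-- The weights. -/
def wt {t d : ℕ} (G : Matrix (Fin t) (Fin d) (ZMod p)) (s : Fin t ⊕ Fin d) (i : Fin d) : ZMod p :=
  match s with
  | Sum.inl j => G j i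
  | Sum.inr i' => if i' = i then 1 else 0

variable (Ω p k) in
/-- The subgroup `K0` of `GF`. -/
def K0 {d : ℕ} (χ : Fin d → (GF Ω p k) → ZMod p) (hχ : ∀ i, χ i ∈ chs p (GF Ω p k)) :
    Subgroup (GF Ω p k) where
  carrier := {g | ∑ i, χ i g = 0}
  one_mem' := by
    have h : ∀ i, χ i 1 = 0 := fun i => by
      have := hχ i 1 1
      rw [mul_one] at this
      simpa using this
    simp [h]
  mul_mem' := by
    intro a b ha hb
    have h : ∀ i, χ i (a * b) = χ i a + χ i b := fun i => hχ i a b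
    change ∑ i, χ i (a * b) = 0
    have ha' : ∑ i, χ i a = 0 := ha
    have hb' : ∑ i, χ i b = 0 := hb
    simp only [h, Finset.sum_add_distrib, ha', hb', add_zero]
  inv_mem' := by
    intro a ha
    have h : ∀ i, χ i a⁻¹ = - χ i a := fun i => by
      have h1 := hχ i a a⁻¹
      rw [mul_inv_cancel] at h1
      have h2 := hχ i 1 1
      rw [mul_one] at h2
      have h3 : χ i 1 = 0 := by simpa using h2
      rw [h3] at h1
      exact (neg_eq_of_add_eq_zero_right h1.symm).symm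
    change ∑ i, χ i a⁻¹ = 0
    have ha' : ∑ i, χ i a = 0 := ha
    simp only [h, Finset.sum_neg_distrib, ha', neg_zero]

end Pool.Agent.MPca71X
end

section
set_option autoImplicit false
open scoped NumberField
open NumberField

/-! Job N1c (medium-easy): the subgroups `HC` and `GF`. -/

namespace Pool.Agent.MPca71X

open Pool.Agent.MPca71W

variable {Ω : Type} [Field Ω] [Algebra ℚ Ω] [IsAlgClosed Ω] [Algebra.IsAlgebraic ℚ Ω] {p k : ℕ}
  [Fact p.Prime]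

variable (Ω p k)

omit [Algebra.IsAlgebraic ℚ Ω] in
theorem N1c_mem_HC (g : Ω ≃ₐ[ℚ] Ω) : g ∈ HC Ω p k ↔ kap Ω (p ^ (k + 1)) g = 1 :=
  MonoidHom.mem_ker

omit [Algebra.IsAlgebraic ℚ Ω] in
theorem N1c_mem_GF (g : Ω ≃ₐ[ℚ] Ω) :
    g ∈ GF Ω p k ↔ (kap Ω (p ^ (k + 1)) g) ^ (p - 1) = 1 := by
  rw [GF, MonoidHom.mem_ker]
  rfl

theorem HC_le_GF : HC Ω p k ≤ GF Ω p k := by
  intro g hg
  rw [N1c_mem_HC] at hg
  rw [N1c_mem_GF, hg, one_pow]

theorem GF_pow_mem (g : Ω ≃ₐ[ℚ] Ω) (hg : g ∈ GF Ω p k) : g ^ (p - 1) ∈ HC Ω p k := by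
  rw [N1c_mem_GF] at hg
  rw [N1c_mem_HC, map_pow, hg]

/-- Both are kernels of homomorphisms; the target is commutative. -/
theorem GF_normal : (GF Ω p k).Normal := by
  unfold GF
  infer_instance

theorem HC_normal : (HC Ω p k).Normal := by
  unfold HC
  infer_instance

/-- `kap_ker_open`. -/
theorem HC_open : IsOpen ((HC Ω p k : Subgroup (Ω ≃ₐ[ℚ] Ω)) : Set (Ω ≃ₐ[ℚ] Ω)) :=
  kap_ker_open (p ^ (k + 1))

theorem GF_open : IsOpen ((GF Ω p k : Subgroup (Ω ≃ₐ[ℚ] Ω)) : Set (Ω ≃ₐ[ℚ] Ω)) :=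
  Subgroup.isOpen_mono (HC_le_GF Ω p k) (HC_open Ω p k)

/-- `G / GF` is the quotient of `(ℤ/p^(k+1))ˣ` (order `p^k (p-1)`, `kap_surj`) by the subgroup of
the elements with `a ^ (p-1) = 1` (order `p - 1`, `card_delta`). -/
theorem GF_index : (GF Ω p k).index = p ^ k := by
  classical
  have hp : p.Prime := Fact.out
  have hp1 : 0 < p - 1 := Nat.sub_pos_of_lt hp.one_lt
  rw [GF, Subgroup.index_ker]
  have hr : ((powMonoidHom (p - 1)).comp (kap Ω (p ^ (k + 1)))).range =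
      (powMonoidHom (p - 1) : (ZMod (p ^ (k + 1)))ˣ →* (ZMod (p ^ (k + 1)))ˣ).range := by
    rw [MonoidHom.range_comp, MonoidHom.range_eq_top.2 (kap_surj (p ^ (k + 1))),
      ← MonoidHom.range_eq_map]
  rw [hr, ← Subgroup.index_ker]
  have h1 := Subgroup.card_mul_index
    (powMonoidHom (p - 1) : (ZMod (p ^ (k + 1)))ˣ →* (ZMod (p ^ (k + 1)))ˣ).ker
  have h2 : Nat.card (powMonoidHom (p - 1) : (ZMod (p ^ (k + 1)))ˣ →* (ZMod (p ^ (k + 1)))ˣ).ker =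
      p - 1 := by
    refine Eq.trans ?_ (card_delta (p := p) (k := k))
    rw [Nat.card_eq_fintype_card, Fintype.card_subtype]
    congr 1
    ext x
    simp only [Finset.mem_filter, MonoidHom.mem_ker, powMonoidHom_apply]
  have h3 : Nat.card (ZMod (p ^ (k + 1)))ˣ = (p - 1) * p ^ k := by
    rw [Nat.card_eq_fintype_card, ZMod.card_units_eq_totient, Nat.totient_prime_pow_succ hp,
      mul_comm]
  rw [h2, h3] at h1
  exact Nat.eq_of_mul_eq_mul_left hp1 h1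

/-- `GF / HC` embeds in the cyclic group `(ℤ/p)ˣ` via `rd ∘ kap` (`rd_inj`). -/
theorem GF_quot_cyclic :
    ∃ π : (GF Ω p k) →* (ZMod p)ˣ, ∀ g : GF Ω p k, π g = 1 ↔ (g : Ω ≃ₐ[ℚ] Ω) ∈ HC Ω p k := by
  refine ⟨(Units.map ((ZMod.castHom (dvd_pow_self p (Nat.succ_ne_zero k))
    (ZMod p)) : ZMod (p ^ (k + 1)) →* ZMod p)).comp
    ((kap Ω (p ^ (k + 1))).comp (GF Ω p k).subtype), fun g => ?_⟩
  rw [N1c_mem_HC, Units.ext_iff]
  have hg := (N1c_mem_GF Ω p k _).1 g.2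
  constructor
  · intro h
    refine rd_inj _ _ hg (one_pow _) ?_
    rw [rd_one]
    exact h
  · intro h
    have h1 := rd_one (p := p) (k := k)
    rw [← h] at h1
    exact h1

/-- `kap_surj` and `rd_surj`. -/
theorem exists_GF (c : ZMod p) (hc : c ≠ 0) :
    ∃ τ ∈ GF Ω p k, rd (kap Ω (p ^ (k + 1)) τ) = c := by
  obtain ⟨a, ha, hac⟩ := rd_surj (p := p) (k := k) c hc
  obtain ⟨τ, rfl⟩ := kap_surj (Ω := Ω) (p ^ (k + 1)) a
  exact ⟨τ, (N1c_mem_GF Ω p k τ).2 ha, hac⟩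

/-- Inertia groups at the primes not above `p` lie in `HC` (`kap_inertial`). -/
theorem inG_le_HC (P : Ideal (𝓞 Ω)) (hP : P.IsMaximal) (hp : (p : 𝓞 Ω) ∉ P) (g : Ω ≃ₐ[ℚ] Ω)
    (hg : g ∈ inG P) : g ∈ HC Ω p k := by
  rw [N1c_mem_HC]
  exact kap_inertial p (p ^ (k + 1)) ⟨k + 1, rfl⟩ P hP hp g hg

theorem GF_zero : GF Ω p 0 = ⊤ := by
  have hp : p.Prime := Fact.out
  rw [eq_top_iff]
  intro g _
  rw [N1c_mem_GF]
  have h := ZMod.pow_totient (kap Ω (p ^ (0 + 1)) g)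
  rw [Nat.totient_prime_pow_succ hp, pow_zero, one_mul] at h
  exact h

end Pool.Agent.MPca71X
end

section
set_option autoImplicit false
open scoped NumberField
open NumberField

/-! Job M4a (medium-easy): the projection `eg` to the eigenspace. -/

namespace Pool.Agent.MPca71X

open Pool.Agent.MPca71W

variable {Ω C : Type} [Field Ω] [Algebra ℚ Ω] [IsAlgClosed Ω] [Algebra.IsAlgebraic ℚ Ω] {p k : ℕ}
  [Fact p.Prime] [Field C] [NumberField C] [IsCyclotomicExtension {p ^ (k + 1)} ℚ C] [Algebra C Ω]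
  [IsScalarTower ℚ C Ω]

theorem eg_ne_zero (x : 𝓞 C) (hx : x ≠ 0) : eg C p k x ≠ 0 := by
  unfold eg
  rw [Finset.prod_ne_zero_iff]
  intro a _
  exact pow_ne_zero _ ((map_ne_zero_iff _ (sga (p ^ (k + 1)) C a).injective).2 hx)

theorem eg_mul (x y : 𝓞 C) : eg C p k (x * y) = eg C p k x * eg C p k y := by
  unfold eg
  rw [← Finset.prod_mul_distrib]
  exact Finset.prod_congr rfl fun a _ => by rw [map_mul, mul_pow]

private theorem M4a_eg_one : eg C p k 1 = 1 := by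
  unfold eg
  exact Finset.prod_eq_one fun a _ => by rw [map_one, one_pow]

theorem eg_pow (x : 𝓞 C) (m : ℕ) : eg C p k (x ^ m) = eg C p k x ^ m := by
  induction m with
  | zero => rw [pow_zero, pow_zero, M4a_eg_one]
  | succ m ih => rw [pow_succ, pow_succ, eg_mul, ih]

theorem eg_prod {ι : Type} (s : Finset ι) (x : ι → 𝓞 C) :
    eg C p k (∏ i ∈ s, x i) = ∏ i ∈ s, eg C p k (x i) := by
  classical
  induction s using Finset.induction_on with
  | empty => rw [Finset.prod_empty, Finset.prod_empty, M4a_eg_one]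
  | insert a s ha ih => rw [Finset.prod_insert ha, Finset.prod_insert ha, eg_mul, ih]

private theorem M4a_exp {u v q : ℕ} (h : ((u : ℕ) : ZMod q) = ((v : ℕ) : ZMod q)) :
    u + q * (v / q) = v + q * (u / q) := by
  have h1 : u % q = v % q := (ZMod.natCast_eq_natCast_iff' u v q).1 h
  have h2 := Nat.div_add_mod u q
  have h3 := Nat.div_add_mod v q
  omega

private theorem M4a_sga_eg (a0 : (ZMod (p ^ (k + 1)))ˣ) (h0 : a0 ^ (p - 1) = 1) (x : 𝓞 C) :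
    sga (p ^ (k + 1)) C a0 (eg C p k x) =
      ∏ a ∈ Finset.univ.filter (fun a : (ZMod (p ^ (k + 1)))ˣ => a ^ (p - 1) = 1),
        (sga (p ^ (k + 1)) C a x) ^ ((rd (a0⁻¹ * a))⁻¹).val := by
  unfold eg
  rw [map_prod]
  refine Finset.prod_bij (fun a _ => a0 * a) ?_ ?_ ?_ ?_
  · intro a ha
    rw [Finset.mem_filter] at ha ⊢
    exact ⟨Finset.mem_univ _, by rw [mul_pow, h0, ha.2, one_mul]⟩
  · intro a _ b _ h
    exact mul_left_cancel h
  · intro b hb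
    rw [Finset.mem_filter] at hb
    refine ⟨a0⁻¹ * b, ?_, by rw [mul_inv_cancel_left]⟩
    rw [Finset.mem_filter]
    exact ⟨Finset.mem_univ _, by rw [mul_pow, inv_pow, h0, hb.2, inv_one, one_mul]⟩
  · intro a _
    rw [map_pow, ← sga_mul, inv_mul_cancel_left]

/-- For `τ ∈ GF`, `a0 = kap τ`, `a0 ^ (p-1) = 1`:
`sga a0 (eg x) = ∏_a (sga (a0 a) x) ^ c(a) = ∏_a (sga a x) ^ c(a0⁻¹ a)` and
`c(a0⁻¹ a) = rd a0 * c(a)` modulo `p` (`c(a) = ((rd a)⁻¹).val`), so it differs from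
`(eg x) ^ (rd a0).val` by a `p`-th power of a quotient: for exponents `u, v : ℕ` with
`u = v mod p` one has `X ^ u * (X ^ m)^p = X ^ v * (X ^ m')^p` for suitable `m, m'`. -/
theorem eg_Eig (x : 𝓞 C) (hx : x ≠ 0) : Eig Ω C p k (eg C p k x) := by
  intro τ hτ
  have h0 : (kap Ω (p ^ (k + 1)) τ) ^ (p - 1) = 1 := hτ
  set a0 := kap Ω (p ^ (k + 1)) τ with ha0
  have hX : ∀ a : (ZMod (p ^ (k + 1)))ˣ, sga (p ^ (k + 1)) C a x ≠ 0 := fun a =>
    (map_ne_zero_iff _ (sga (p ^ (k + 1)) C a).injective).2 hx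
  refine ⟨∏ a ∈ Finset.univ.filter (fun a : (ZMod (p ^ (k + 1)))ˣ => a ^ (p - 1) = 1),
      (sga (p ^ (k + 1)) C a x) ^ (((rd (a0⁻¹ * a))⁻¹).val / p),
    ∏ a ∈ Finset.univ.filter (fun a : (ZMod (p ^ (k + 1)))ˣ => a ^ (p - 1) = 1),
      (sga (p ^ (k + 1)) C a x) ^ ((((rd a)⁻¹).val * (rd a0).val) / p), ?_, ?_, ?_⟩
  · exact Finset.prod_ne_zero_iff.2 fun a _ => pow_ne_zero _ (hX a)
  · exact Finset.prod_ne_zero_iff.2 fun a _ => pow_ne_zero _ (hX a)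
  · rw [M4a_sga_eg a0 h0 x, ← Finset.prod_pow, ← Finset.prod_mul_distrib]
    unfold eg
    rw [← Finset.prod_pow, ← Finset.prod_pow, ← Finset.prod_mul_distrib]
    refine Finset.prod_congr rfl fun a _ => ?_
    rw [← pow_mul, ← pow_add, ← pow_mul, ← pow_mul, ← pow_add]
    congr 1
    have h1 : ((((rd (a0⁻¹ * a))⁻¹).val : ℕ) : ZMod p) =
        ((((rd a)⁻¹).val * (rd a0).val : ℕ) : ZMod p) := by
      rw [Nat.cast_mul, ZMod.natCast_zmod_val, ZMod.natCast_zmod_val, ZMod.natCast_zmod_val,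
        rd_mul, rd_inv, mul_inv, inv_inv, mul_comm]
    have h2 := M4a_exp h1
    rw [mul_comm (((rd a)⁻¹).val * (rd a0).val / p) p, mul_comm (((rd (a0⁻¹ * a))⁻¹).val / p) p]
    exact h2

/-- `vQ_prod`, `vQ_pow`, `vQ_sga`. -/
theorem vQ_eg (Q : Ideal (𝓞 C)) (hQ : Q.IsPrime) (hQ0 : Q ≠ ⊥) (x : 𝓞 C) (hx : x ≠ 0) :
    ((vQ Q (eg C p k x) : ℕ) : ZMod p) =
      ∑ a ∈ Finset.univ.filter (fun a : (ZMod (p ^ (k + 1)))ˣ => a ^ (p - 1) = 1),
        (rd a)⁻¹ * ((vQ (Q.comap (sga (p ^ (k + 1)) C a : 𝓞 C →+* 𝓞 C)) x : ℕ) : ZMod p) := by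
  have hX : ∀ a : (ZMod (p ^ (k + 1)))ˣ, sga (p ^ (k + 1)) C a x ≠ 0 := fun a =>
    (map_ne_zero_iff _ (sga (p ^ (k + 1)) C a).injective).2 hx
  unfold eg
  rw [vQ_prod Q hQ hQ0 _ _ (fun a _ => pow_ne_zero _ (hX a)), Nat.cast_sum]
  refine Finset.sum_congr rfl fun a _ => ?_
  rw [vQ_pow Q hQ hQ0 _ (hX a), Nat.cast_mul, ZMod.natCast_zmod_val, vQ_sga]

/-- The exponent of `a = 1` is `1`, all other factors are `1` modulo `Q`. -/
theorem eg_residue (Q : Ideal (𝓞 C)) (x r : 𝓞 C) (h1 : x - r ∈ Q)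
    (h : ∀ a : (ZMod (p ^ (k + 1)))ˣ, a ^ (p - 1) = 1 → a ≠ 1 →
      sga (p ^ (k + 1)) C a x - 1 ∈ Q) : eg C p k x - r ∈ Q := by
  rw [← Ideal.Quotient.eq] at h1 ⊢
  rw [← h1]
  unfold eg
  rw [map_prod, Finset.prod_eq_single (1 : (ZMod (p ^ (k + 1)))ˣ)]
  · have hp : Fact (1 < p) := ⟨(Fact.out : p.Prime).one_lt⟩
    rw [sga_one, rd_one, inv_one, ZMod.val_one, pow_one]
  · intro a ha ha1
    rw [Finset.mem_filter] at ha
    have h2 := h a ha.2 ha1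
    rw [← Ideal.Quotient.eq, map_one] at h2
    rw [map_pow, h2, one_pow]
  · intro h2
    refine absurd ?_ h2
    rw [Finset.mem_filter]
    exact ⟨Finset.mem_univ _, one_pow _⟩

end Pool.Agent.MPca71X
end

section

section
set_option autoImplicit false

/-! Job N4a (easy-medium): extension of invariant characters (paper 286, Lemma 0.1). -/

namespace Pool.Agent.MPca71X

private theorem N4a_pow (p : ℕ) {Γ : Type} [Group Γ] (H : Subgroup Γ) (ψ : Γ → ZMod p)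
    (hψ : ∀ g ∈ H, ∀ h ∈ H, ψ (g * h) = ψ g + ψ h) {h : Γ} (hh : h ∈ H) (k : ℕ) :
    ψ (h ^ k) = k * ψ h := by
  induction k with
  | zero =>
    have h1 := hψ 1 H.one_mem 1 H.one_mem
    rw [mul_one] at h1
    have h2 : ψ 1 = 0 := by
      have := h1
      rwa [left_eq_add] at this
    simpa using h2
  | succ k ih =>
    rw [pow_succ, hψ _ (H.pow_mem hh k) _ hh, ih]
    push_cast
    ring

private theorem N4a_neg (p : ℕ) [Fact p.Prime] : (((p - 1 : ℕ)) : ZMod p) = -1 := by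
  have hp : p.Prime := Fact.out
  rw [Nat.cast_sub hp.one_lt.le, ZMod.natCast_self, Nat.cast_one, zero_sub]

/-- `N' = {h ∈ H : ψ h = 0}` is normal in `Γ`; modulo `N'` the group `H` is central and the quotient
by it is cyclic (it embeds via `π` into the units of a field), so `Γ / N'` is abelian
(`commutative_of_cyclic_center_quotient` style). Put `χ g = - ψ (g ^ (p-1))`. Since
`(g g') ^ (p-1) = g ^ (p-1) g' ^ (p-1)` modulo `N'`, `χ` is additive; on `H`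
`χ h = - (p-1) ψ h = ψ h` as `p = 0`. -/
theorem exists_ext (p : ℕ) [Fact p.Prime] {Γ : Type} [Group Γ] (H : Subgroup Γ)
    (hn : H.Normal) (ψ : Γ → ZMod p) (hψ : ∀ g ∈ H, ∀ h ∈ H, ψ (g * h) = ψ g + ψ h)
    (hinv : ∀ τ : Γ, ∀ h ∈ H, ψ (τ * h * τ⁻¹) = ψ h)
    (π : Γ →* (ZMod p)ˣ) (hπ : ∀ g, π g = 1 ↔ g ∈ H) :
    ∃ χ ∈ chs p Γ, ∀ h ∈ H, χ h = ψ h := by
  have h1 : ψ 1 = 0 := by
    have h1 := hψ 1 H.one_mem 1 H.one_mem
    rw [mul_one] at h1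
    rwa [left_eq_add] at h1
  have hi : ∀ h ∈ H, ψ h⁻¹ = -ψ h := by
    intro h hh
    have h2 := hψ h hh h⁻¹ (H.inv_mem hh)
    rw [mul_inv_cancel, h1] at h2
    exact (neg_eq_of_add_eq_zero_right h2.symm).symm
  obtain ⟨N, hN⟩ : ∃ N : Subgroup Γ, ∀ g, g ∈ N ↔ g ∈ H ∧ ψ g = 0 := by
    refine ⟨{ carrier := {g | g ∈ H ∧ ψ g = 0}, mul_mem' := ?_, one_mem' := ⟨H.one_mem, h1⟩,
              inv_mem' := ?_ }, fun g => Iff.rfl⟩
    · rintro a b ⟨ha, ha'⟩ ⟨hb, hb'⟩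
      exact ⟨H.mul_mem ha hb, by rw [hψ a ha b hb, ha', hb', add_zero]⟩
    · rintro a ⟨ha, ha'⟩
      exact ⟨H.inv_mem ha, by rw [hi a ha, ha', neg_zero]⟩
  have hNn : N.Normal := by
    constructor
    intro h hh g
    rw [hN] at hh ⊢
    exact ⟨hn.conj_mem h hh.1 g, by rw [hinv g h hh.1, hh.2]⟩
  have hNH : ∀ g ∈ N, π g = 1 := fun g hg => (hπ g).2 ((hN g).1 hg).1
  have hcomm : ∀ a b : Γ ⧸ N, a * b = b * a := by
    refine commutative_of_cyclic_center_quotient (QuotientGroup.lift N π hNH) ?_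
    intro x hx
    obtain ⟨h, rfl⟩ := QuotientGroup.mk'_surjective N x
    rw [MonoidHom.mem_ker, QuotientGroup.mk'_apply, QuotientGroup.lift_mk] at hx
    have hh : h ∈ H := (hπ h).1 hx
    rw [Subgroup.mem_center_iff]
    intro y
    obtain ⟨τ, rfl⟩ := QuotientGroup.mk'_surjective N y
    rw [← map_mul, ← map_mul, QuotientGroup.mk'_eq_mk']
    refine ⟨(τ * h)⁻¹ * (h * τ), ?_, by group⟩
    rw [hN]
    have h3 : (τ * h)⁻¹ * (h * τ) = h⁻¹ * (τ⁻¹ * h * τ⁻¹⁻¹) := by group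
    have h4 : τ⁻¹ * h * τ⁻¹⁻¹ ∈ H := hn.conj_mem h hh τ⁻¹
    rw [h3]
    exact ⟨H.mul_mem (H.inv_mem hh) h4, by
      rw [hψ _ (H.inv_mem hh) _ h4, hi h hh, hinv τ⁻¹ h hh, neg_add_cancel]⟩
  have hpH : ∀ g : Γ, g ^ (p - 1) ∈ H := by
    intro g
    rw [← hπ, map_pow]
    exact ZMod.units_pow_card_sub_one_eq_one p (π g)
  refine ⟨fun g => -ψ (g ^ (p - 1)), ?_, ?_⟩
  · intro g g'
    have h5 : QuotientGroup.mk' N ((g * g') ^ (p - 1)) =
        QuotientGroup.mk' N (g ^ (p - 1) * g' ^ (p - 1)) := by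
      rw [map_mul, map_pow, map_pow, map_pow, map_mul]
      exact Commute.mul_pow (hcomm _ _) _
    rw [QuotientGroup.mk'_eq_mk'] at h5
    obtain ⟨n, hn', h6⟩ := h5
    have h7 := (hN n).1 hn'
    have h8 : ψ (g ^ (p - 1) * g' ^ (p - 1)) = ψ ((g * g') ^ (p - 1)) := by
      rw [← h6, hψ _ (hpH _) _ h7.1, h7.2, add_zero]
    rw [hψ _ (hpH g) _ (hpH g')] at h8
    show -ψ ((g * g') ^ (p - 1)) = -ψ (g ^ (p - 1)) + -ψ (g' ^ (p - 1))
    rw [← h8]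
    ring
  · intro h hh
    show -ψ (h ^ (p - 1)) = ψ h
    rw [N4a_pow p H ψ hψ hh, N4a_neg]
    ring

/-- `(p - 1) χ g = χ (g ^ (p-1))` and `g ^ (p-1) ∈ H`. -/
theorem chi_unique (p : ℕ) [Fact p.Prime] {Γ : Type} [Group Γ] (H : Subgroup Γ)
    (hH : ∀ g : Γ, g ^ (p - 1) ∈ H) (χ χ' : Γ → ZMod p) (hχ : χ ∈ chs p Γ) (hχ' : χ' ∈ chs p Γ)
    (h : ∀ g ∈ H, χ g = χ' g) : χ = χ' := by
  have key : ∀ φ ∈ chs p Γ, ∀ g : Γ, φ (g ^ (p - 1)) = -φ g := by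
    intro φ hφ g
    rw [N4a_pow p ⊤ φ (fun a _ b _ => hφ a b) (Subgroup.mem_top g), N4a_neg]
    ring
  funext g
  have h1 := h _ (hH g)
  rw [key χ hχ, key χ' hχ'] at h1
  exact neg_injective h1

/-- `χ g = - χ (g ^ (p-1))`. -/
theorem chi_pow (p : ℕ) [Fact p.Prime] {Γ : Type} [Group Γ] (χ : Γ → ZMod p)
    (hχ : χ ∈ chs p Γ) (g : Γ) : χ (g ^ (p - 1)) = - χ g := by
  rw [N4a_pow p ⊤ χ (fun a _ b _ => hχ a b) (Subgroup.mem_top g), N4a_neg]
  ring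

end Pool.Agent.MPca71X
end

section
set_option autoImplicit false
open scoped NumberField
open NumberField

/-! Job N2b (medium): Galois action, kernel and continuity of the Kummer symbol. -/

namespace Pool.Agent.MPca71X

open Pool.Agent.MPca71W

variable {Ω C : Type} [Field Ω] [Algebra ℚ Ω] [IsAlgClosed Ω] [Algebra.IsAlgebraic ℚ Ω] {p k : ℕ}
  [Fact p.Prime] [Field C] [NumberField C] [IsCyclotomicExtension {p ^ (k + 1)} ℚ C] [Algebra C Ω]
  [IsScalarTower ℚ C Ω]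

/-- `θ ^ p = α` gives `(τ θ) ^ p = τ α` (`sga_spec`), and
`(τ h τ⁻¹)(τ θ) = τ (h θ) = τ (zp ^ c θ) = (zp ^ (kap τ)) ^ c τ θ`; `τ zp = zp ^ (kap_p τ)`
(`sga_root`, or `kap_spec` with `N = p`, and `kap_p`). -/
theorem kum_conj (zp : 𝓞 C) (hz : IsPrimitiveRoot zp p) (α : 𝓞 C) (hα : α ≠ 0)
    (τ h : Ω ≃ₐ[ℚ] Ω) (hh : h ∈ HC Ω p k) :
    kum Ω C p zp (sga (p ^ (k + 1)) C (kap Ω (p ^ (k + 1)) τ) α) (τ * h * τ⁻¹) =
      rd (kap Ω (p ^ (k + 1)) τ) * kum Ω C p zp α h := by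
  have hprim := N2_prim (Ω := Ω) zp hz
  obtain ⟨θ, hθ⟩ := N2_root Ω C α p
  have hα' : sga (p ^ (k + 1)) C (kap Ω (p ^ (k + 1)) τ) α ≠ 0 := by
    intro h0
    exact hα ((sga (p ^ (k + 1)) C (kap Ω (p ^ (k + 1)) τ)).injective (by rw [h0, map_zero]))
  refine kum_unique zp hz _ hα' _ ((HC_normal Ω p k).conj_mem h hh τ) (τ θ) ?_ _ ?_
  · rw [← map_pow, hθ, sga_spec (p := p) (k := k)]
  · have h1 : (τ * h * τ⁻¹) (τ θ) = τ (h θ) := by
      rw [AlgEquiv.mul_apply, AlgEquiv.mul_apply]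
      congr 2
      exact τ.symm_apply_apply θ
    have h2 : τ (io C Ω zp) = io C Ω zp ^ (rd (kap Ω (p ^ (k + 1)) τ)).val := by
      rw [kap_spec p τ _ hprim.pow_eq_one, kap_p (k := k)]
    rw [h1, kum_spec zp hz α hα h hh θ hθ, map_mul, map_pow, h2, ← pow_mul]
    congr 1
    rw [ZMod.val_mul]
    exact pow_eq_pow_mod _ hprim.pow_eq_one

/-- If the symbol vanishes then `θ` is fixed by `HC`, so `θ ∈ C` (`mem_of_fixed`), `θ = b / c`. -/
theorem kum_all_zero (zp : 𝓞 C) (hz : IsPrimitiveRoot zp p) (α : 𝓞 C) (hα : α ≠ 0)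
    (h : ∀ g ∈ HC Ω p k, kum Ω C p zp α g = 0) :
    ∃ b c : 𝓞 C, b ≠ 0 ∧ c ≠ 0 ∧ α * c ^ p = b ^ p := by
  have hp : p.Prime := Fact.out
  obtain ⟨θ, hθ⟩ := N2_root Ω C α p
  have hfix : ∀ g ∈ HC Ω p k, g θ = θ := by
    intro g hg
    rw [kum_spec zp hz α hα g hg θ hθ, h g hg, ZMod.val_zero, pow_zero, one_mul]
  obtain ⟨y, hy⟩ := mem_of_fixed (C := C) θ hfix
  obtain ⟨b, c, hc, hbc⟩ := IsFractionRing.div_surjective (A := 𝓞 C) y
  have hc0 : c ≠ 0 := nonZeroDivisors.ne_zero hc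
  have hcC : algebraMap (𝓞 C) C c ≠ 0 := by
    intro h0
    exact hc0 (RingOfIntegers.coe_injective (by rw [map_zero]; exact h0))
  have hθ0 : θ ≠ 0 := by
    rintro rfl
    rw [zero_pow hp.ne_zero] at hθ
    exact N2_io_ne α hα hθ.symm
  refine ⟨b, c, ?_, hc0, ?_⟩
  · rintro rfl
    rw [map_zero, zero_div] at hbc
    rw [← hbc, map_zero] at hy
    exact hθ0 hy.symm
  · apply RingOfIntegers.coe_injective
    apply (algebraMap C Ω).injective
    have h1 : y ^ p = algebraMap (𝓞 C) C α := by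
      apply (algebraMap C Ω).injective
      rw [map_pow, hy, hθ]
      rfl
    rw [← hbc, div_pow, div_eq_iff (pow_ne_zero _ hcC)] at h1
    rw [map_mul, map_pow, map_pow, h1]

/-- `{g ∈ HC : g θ = θ}` is a subgroup containing the open subgroup of the automorphisms which fix
`θ` and lie in `HC`; open in the Krull topology. -/
theorem kum_open (zp : 𝓞 C) (hz : IsPrimitiveRoot zp p) (α : 𝓞 C) (hα : α ≠ 0) :
    IsOpen {g : Ω ≃ₐ[ℚ] Ω | g ∈ HC Ω p k ∧ kum Ω C p zp α g = 0} := by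
  obtain ⟨θ, hθ⟩ := N2_root Ω C α p
  have hint : IsIntegral ℚ θ := Algebra.IsIntegral.isIntegral θ
  have hfd : FiniteDimensional ℚ (IntermediateField.adjoin ℚ {θ}) :=
    IntermediateField.adjoin.finiteDimensional hint
  have hne : θ ≠ 0 := (N2_exists zp hz α hα 1 ((HC Ω p k).one_mem) θ hθ).1
  have h1 : {g : Ω ≃ₐ[ℚ] Ω | g ∈ HC Ω p k ∧ kum Ω C p zp α g = 0} =
      ((HC Ω p k ⊓ (IntermediateField.adjoin ℚ {θ}).fixingSubgroup : Subgroup (Ω ≃ₐ[ℚ] Ω)) :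
        Set (Ω ≃ₐ[ℚ] Ω)) := by
    ext g
    rw [Set.mem_ofPred_eq, SetLike.mem_coe, Subgroup.mem_inf]
    refine and_congr_right (fun hg => ?_)
    constructor
    · intro h0
      have h2 : g θ = θ := by
        rw [kum_spec zp hz α hα g hg θ hθ, h0, ZMod.val_zero, pow_zero, one_mul]
      rw [IntermediateField.mem_fixingSubgroup_iff]
      intro x hx
      have h3 : IntermediateField.adjoin ℚ {θ} ≤
          IntermediateField.fixedField (Subgroup.zpowers g) := by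
        rw [IntermediateField.adjoin_simple_le_iff, IntermediateField.mem_fixedField_iff]
        intro f hf
        have h5 : Subgroup.zpowers g ≤ MulAction.stabilizer (Ω ≃ₐ[ℚ] Ω) θ := by
          rw [Subgroup.zpowers_le, MulAction.mem_stabilizer_iff]
          exact h2
        exact MulAction.mem_stabilizer_iff.1 (h5 hf)
      have h4 := h3 hx
      rw [IntermediateField.mem_fixedField_iff] at h4
      exact h4 g (Subgroup.mem_zpowers g)
    · intro h0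
      rw [IntermediateField.mem_fixingSubgroup_iff] at h0
      have h2 : g θ = θ := h0 θ (IntermediateField.mem_adjoin_simple_self ℚ θ)
      refine kum_unique zp hz α hα g hg θ hθ 0 ?_
      rw [h2, ZMod.val_zero, pow_zero, one_mul]
  rw [h1]
  exact (HC_open Ω p k).inter (IntermediateField.fixingSubgroup_isOpen _)

/-- Eigenvectors have invariant symbols: `kum_conj`, `kum_congr`, `kum_pow`, and `rd ≠ 0`. -/
theorem kum_eig (zp : 𝓞 C) (hz : IsPrimitiveRoot zp p) (α : 𝓞 C) (hα : α ≠ 0)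
    (hE : Eig Ω C p k α) (τ h : Ω ≃ₐ[ℚ] Ω) (hτ : τ ∈ GF Ω p k) (hh : h ∈ HC Ω p k) :
    kum Ω C p zp α (τ * h * τ⁻¹) = kum Ω C p zp α h := by
  obtain ⟨b, c, hb, hc, hbc⟩ := hE τ hτ
  have hα' : sga (p ^ (k + 1)) C (kap Ω (p ^ (k + 1)) τ) α ≠ 0 := by
    intro h0
    exact hα ((sga (p ^ (k + 1)) C (kap Ω (p ^ (k + 1)) τ)).injective (by rw [h0, map_zero]))
  have hh' : τ * h * τ⁻¹ ∈ HC Ω p k := (HC_normal Ω p k).conj_mem h hh τ
  have h1 := kum_conj zp hz α hα τ h hh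
  have h2 := kum_congr zp hz _ _ b c hα' (pow_ne_zero _ hα) hb hc hbc (τ * h * τ⁻¹) hh'
  rw [h1, kum_pow zp hz α hα _ _ hh'] at h2
  have h3 : (((rd (kap Ω (p ^ (k + 1)) τ)).val : ℕ) : ZMod p) = rd (kap Ω (p ^ (k + 1)) τ) := by
    rw [ZMod.natCast_val, ZMod.cast_id]
  rw [h3] at h2
  exact (mul_left_cancel₀ (rd_ne_zero _) h2).symm

end Pool.Agent.MPca71X
end

section
set_option autoImplicit false
open scoped NumberField
open NumberField

/-! Job N4 (medium-easy): the character of an eigenvector (paper 286, K2). -/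

namespace Pool.Agent.MPca71X

open Pool.Agent.MPca71W

variable {Ω C : Type} [Field Ω] [Algebra ℚ Ω] [IsAlgClosed Ω] [Algebra.IsAlgebraic ℚ Ω] {p k : ℕ}
  [Fact p.Prime] [Field C] [NumberField C] [IsCyclotomicExtension {p ^ (k + 1)} ℚ C] [Algebra C Ω]
  [IsScalarTower ℚ C Ω]

/-- `exists_ext` for `Γ = GF`, `H = HC`, `ψ = kum α` (`kum_gmul`, `kum_eig`, `GF_quot_cyclic`).
The kernel is a subgroup which contains the open set of `kum_open`, so it is open. -/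
theorem exists_chi (zp : 𝓞 C) (hz : IsPrimitiveRoot zp p) (α : 𝓞 C) (hα : α ≠ 0)
    (hE : Eig Ω C p k α) :
    ∃ χ ∈ chs p (GF Ω p k), (∀ h : GF Ω p k, (h : Ω ≃ₐ[ℚ] Ω) ∈ HC Ω p k →
      χ h = kum Ω C p zp α (h : Ω ≃ₐ[ℚ] Ω)) ∧ IsOpen {g : GF Ω p k | χ g = 0} := by
  obtain ⟨π, hπ⟩ := GF_quot_cyclic Ω p k
  have hHn := HC_normal Ω p k
  have hn' : ((HC Ω p k).subgroupOf (GF Ω p k)).Normal := inferInstance
  obtain ⟨χ, hχ, hχH⟩ := exists_ext p ((HC Ω p k).subgroupOf (GF Ω p k)) hn'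
    (fun g : GF Ω p k => kum Ω C p zp α (g : Ω ≃ₐ[ℚ] Ω))
    (fun g hg h hh => by
      rw [Subgroup.mem_subgroupOf] at hg hh
      exact kum_gmul (Ω := Ω) (p := p) (k := k) zp hz α hα (g : Ω ≃ₐ[ℚ] Ω) (h : Ω ≃ₐ[ℚ] Ω) hg hh)
    (fun τ h hh => by
      rw [Subgroup.mem_subgroupOf] at hh
      exact kum_eig (Ω := Ω) (p := p) (k := k) zp hz α hα hE (τ : Ω ≃ₐ[ℚ] Ω) (h : Ω ≃ₐ[ℚ] Ω) τ.2 hh) π
    (fun g => by
      rw [Subgroup.mem_subgroupOf]
      exact hπ g)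
  have hχm : ∀ x y, χ (x * y) = χ x + χ y := hχ
  have hχH' : ∀ h : GF Ω p k, (h : Ω ≃ₐ[ℚ] Ω) ∈ HC Ω p k →
      χ h = kum Ω C p zp α (h : Ω ≃ₐ[ℚ] Ω) := fun h hh =>
    hχH h (Subgroup.mem_subgroupOf.2 hh)
  have h1 : χ 1 = 0 := by
    have := hχm 1 1
    rw [mul_one] at this
    exact left_eq_add.1 this
  let K : Subgroup (GF Ω p k) :=
    { carrier := {g | χ g = 0}
      one_mem' := h1
      mul_mem' := fun {a b} ha hb => by
        have ha' : χ a = 0 := ha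
        have hb' : χ b = 0 := hb
        change χ (a * b) = 0
        rw [hχm, ha', hb', add_zero]
      inv_mem' := fun {a} ha => by
        have ha' : χ a = 0 := ha
        change χ a⁻¹ = 0
        have := hχm a a⁻¹
        rw [mul_inv_cancel, h1, ha', zero_add] at this
        exact this.symm }
  refine ⟨χ, hχ, hχH', ?_⟩
  have hopen := (kum_open (Ω := Ω) (p := p) (k := k) zp hz α hα).preimage
    (continuous_subtype_val (p := fun g => g ∈ GF Ω p k))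
  have hk1 : kum Ω C p zp α (1 : Ω ≃ₐ[ℚ] Ω) = 0 := by
    have := kum_gmul (Ω := Ω) (p := p) (k := k) zp hz α hα (1 : Ω ≃ₐ[ℚ] Ω) 1 (HC Ω p k).one_mem (HC Ω p k).one_mem
    rw [mul_one] at this
    exact left_eq_add.1 this
  have hK : IsOpen (K : Set (GF Ω p k)) := by
    refine Subgroup.isOpen_of_mem_nhds K (g := 1) ?_
    refine Filter.mem_of_superset (hopen.mem_nhds ?_) ?_
    · exact ⟨(HC Ω p k).one_mem, hk1⟩
    · intro g hg
      change χ g = 0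
      rw [hχH' g hg.1]
      exact hg.2
  exact hK

/-- `chi_unique` for `GF`, `HC` (`GF_pow_mem`). -/
theorem GF_chi_unique (χ χ' : (GF Ω p k) → ZMod p) (hχ : χ ∈ chs p (GF Ω p k))
    (hχ' : χ' ∈ chs p (GF Ω p k))
    (h : ∀ g : GF Ω p k, (g : Ω ≃ₐ[ℚ] Ω) ∈ HC Ω p k → χ g = χ' g) : χ = χ' := by
  refine chi_unique p ((HC Ω p k).subgroupOf (GF Ω p k)) (fun g => ?_) χ χ' hχ hχ' (fun g hg => ?_)
  · rw [Subgroup.mem_subgroupOf]
    exact GF_pow_mem Ω p k g g.2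
  · rw [Subgroup.mem_subgroupOf] at hg
    exact h g hg

end Pool.Agent.MPca71X
end
end

section

section
set_option autoImplicit false
open scoped NumberField
open NumberField

/-! Job N10 (medium): no ramification at `p` (paper 286, L3). -/

namespace Pool.Agent.MPca71X

open Pool.Agent.MPca71W

variable {Ω C : Type} [Field Ω] [Algebra ℚ Ω] [IsAlgClosed Ω] [Algebra.IsAlgebraic ℚ Ω] {p k : ℕ}
  [Fact p.Prime] [Field C] [NumberField C] [IsCyclotomicExtension {p ^ (k + 1)} ℚ C] [Algebra C Ω]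
  [IsScalarTower ℚ C Ω]

/-- the coefficients of the polynomial of `(θ - 1)/λ` -/
private noncomputable def n10_F {R : Type} [CommRing R] (p : ℕ) (L U E : R) : ℕ → R
  | 0 => -E
  | (i + 1) => ((p.choose (i + 1) / p : ℕ) : R) * U * L ^ i

private lemma n10_int {K : Type} [Field K] (p : ℕ) (hp : p.Prime) (L U E : 𝓞 K)
    (hL : (L : K) ≠ 0) (hU : (p : 𝓞 K) = U * L ^ (p - 1)) (t : K)
    (ht : (1 + (L : K) * t) ^ p = 1 + (L : K) ^ p * (E : K)) : IsIntegral ℤ t := by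
  obtain ⟨q, rfl⟩ : ∃ q, p = q + 1 := ⟨p - 1, (Nat.sub_add_cancel hp.one_le).symm⟩
  have hU' : ((q + 1 : ℕ) : K) = (U : K) * (L : K) ^ q := by
    have h := congrArg (fun y : 𝓞 K => (y : K)) hU
    simp only [Nat.add_sub_cancel] at h
    push_cast at h ⊢
    exact h
  have hint : IsIntegral (𝓞 K) t := by
    refine ⟨Polynomial.X ^ (q + 1) + ∑ i : Fin (q + 1),
      Polynomial.C (n10_F (q + 1) L U E i) * Polynomial.X ^ (i : ℕ),
      Polynomial.monic_X_pow_add (Polynomial.degree_sum_fin_lt _), ?_⟩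
    have e1 : Polynomial.eval₂ (algebraMap (𝓞 K) K) t (Polynomial.X ^ (q + 1) +
        ∑ i : Fin (q + 1), Polynomial.C (n10_F (q + 1) L U E i) * Polynomial.X ^ (i : ℕ)) =
        t ^ (q + 1) + ∑ i ∈ Finset.range (q + 1), ((n10_F (q + 1) L U E i : 𝓞 K) : K) * t ^ i := by
      rw [Finset.sum_range (fun i : ℕ => ((n10_F (q + 1) L U E i : 𝓞 K) : K) * t ^ i)]
      simp only [Polynomial.eval₂_add, Polynomial.eval₂_pow, Polynomial.eval₂_X,
        Polynomial.eval₂_finsetSum, Polynomial.eval₂_mul, Polynomial.eval₂_C]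
    rw [e1]
    have key : (L : K) ^ (q + 1) * (t ^ (q + 1) +
        ∑ i ∈ Finset.range (q + 1), ((n10_F (q + 1) L U E i : 𝓞 K) : K) * t ^ i) = 0 := by
      rw [Finset.sum_range_succ']
      have e2 : ((n10_F (q + 1) L U E 0 : 𝓞 K) : K) = -(E : K) := by
        show ((-E : 𝓞 K) : K) = _
        push_cast
        ring
      have e3 : ∀ i ∈ Finset.range q, (L : K) ^ (q + 1) *
          (((n10_F (q + 1) L U E (i + 1) : 𝓞 K) : K) * t ^ (i + 1)) =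
          ((L : K) * t) ^ (i + 1) * 1 ^ (q + 1 - (i + 1)) * (((q + 1).choose (i + 1) : ℕ) : K) := by
        intro i hi
        rw [Finset.mem_range] at hi
        have hd : (q + 1) ∣ (q + 1).choose (i + 1) :=
          hp.dvd_choose_self (Nat.succ_ne_zero i) (by omega)
        have hc : (((q + 1).choose (i + 1) : ℕ) : K) =
            ((q + 1 : ℕ) : K) * (((q + 1).choose (i + 1) / (q + 1) : ℕ) : K) := by
          rw [← Nat.cast_mul, Nat.mul_div_cancel' hd]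
        have e4 : ((n10_F (q + 1) L U E (i + 1) : 𝓞 K) : K) =
            (((q + 1).choose (i + 1) / (q + 1) : ℕ) : K) * (U : K) * (L : K) ^ i := by
          show (((((q + 1).choose (i + 1) / (q + 1) : ℕ) : 𝓞 K) * U * L ^ i : 𝓞 K) : K) = _
          push_cast
          ring
        rw [e4, hc, hU', one_pow, mul_pow]
        ring
      rw [e2, mul_add, mul_add, Finset.mul_sum, Finset.sum_congr rfl e3]
      have e5 : (1 + (L : K) * t) ^ (q + 1) =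
          ∑ i ∈ Finset.range q, ((L : K) * t) ^ (i + 1) * 1 ^ (q + 1 - (i + 1)) *
            (((q + 1).choose (i + 1) : ℕ) : K) + 1 + ((L : K) * t) ^ (q + 1) := by
        rw [add_comm 1 ((L : K) * t), add_pow, Finset.sum_range_succ, Finset.sum_range_succ']
        simp only [Nat.choose_zero_right, Nat.choose_self, Nat.cast_one, mul_one, pow_zero,
          one_pow, Nat.sub_self]
      rw [e5] at ht
      rw [mul_pow] at ht
      linear_combination ht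
    exact (mul_eq_zero.1 key).resolve_left (pow_ne_zero _ hL)
  exact isIntegral_trans (R := ℤ) (A := 𝓞 K) t hint

/-- (L3) `zp = z ^ (p^k)`, `λ = 1 - zp`, `λ ^ p` is associated to `π ^ (p^(k+1))` (`lam_assoc`).
`θ ^ p = x`; `x ≠ 0` as `π ∤ x`. `θ' = (θ - 1)/λ ∈ Ω` is integral: it is a root of the monic
polynomial `((1 + λ X)^p - x)/λ^p ∈ 𝓞 C [X]`: the coefficient of `X^i`, `0 < i < p`, is
`choose p i λ^i / λ^p`, and `λ^(p-1)` is associated to `p`. Then `g θ' - θ' ∈ P`, and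
`g θ' - θ' = (zp ^ c - 1) θ / λ`; if `c ≠ 0` then `(zp ^ c - 1)/λ` is a unit, and `θ ∉ P` since
`θ ^ p = x = 1 mod π`: a contradiction. -/
theorem kum_wild_zero (z : 𝓞 C) (hz : IsPrimitiveRoot z (p ^ (k + 1))) (P : Ideal (𝓞 Ω))
    (hP : P.IsMaximal) (hp : (p : 𝓞 Ω) ∈ P) (x : 𝓞 C) (hx : (1 - z) ^ (p ^ (k + 1)) ∣ x - 1)
    (g : Ω ≃ₐ[ℚ] Ω) (hg : g ∈ HC Ω p k) (hgP : g ∈ inG P) :
    kum Ω C p (z ^ (p ^ k)) x g = 0 := by
  classical
  have hprime : p.Prime := Fact.out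
  have hπ := pi_prime z hz
  have hPC := PC_eq (Ω := Ω) z hz P hP hp
  have hlam := lam_assoc z hz
  set lam : 𝓞 C := 1 - z ^ (p ^ k) with hlam_def
  have hzp : IsPrimitiveRoot (z ^ (p ^ k)) p :=
    hz.pow (pow_pos hprime.pos _) (by rw [pow_succ])
  have hj : ∀ y : 𝓞 C, ((algebraMap (𝓞 C) (𝓞 Ω) y : 𝓞 Ω) : Ω) = io C Ω y := fun y => rfl
  have hmem : ∀ y : 𝓞 C, algebraMap (𝓞 C) (𝓞 Ω) y ∈ P → (1 - z) ∣ y := by
    intro y hy
    have h1 : y ∈ PC C P := hy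
    rw [hPC] at h1
    exact Ideal.mem_span_singleton.1 h1
  have hpN : 0 < p ^ (k + 1) := pow_pos hprime.pos _
  have hπx1 : (1 - z) ∣ x - 1 := (dvd_pow_self _ hpN.ne').trans hx
  have hπx : ¬ (1 - z) ∣ x := by
    intro h
    have h1 : (1 - z) ∣ x - (x - 1) := dvd_sub h hπx1
    rw [sub_sub_cancel] at h1
    exact hπ.not_isUnit (isUnit_of_dvd_one h1)
  have hx0 : x ≠ 0 := fun h => hπx (h ▸ dvd_zero _)
  have hlp : Associated (lam ^ p) ((1 - z) ^ (p ^ (k + 1))) := by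
    have h1 := hlam.pow_pow (n := p)
    rw [← pow_mul, ← pow_succ] at h1
    exact h1
  obtain ⟨e, he⟩ : lam ^ p ∣ x - 1 := hlp.dvd.trans hx
  have hx' : x = 1 + lam ^ p * e := by rw [← he]; ring
  have hpa : Associated (p : 𝓞 C) (lam ^ (p - 1)) := by
    have h1 := hlam.pow_pow (n := p - 1)
    rw [← pow_mul, mul_comm (p ^ k) (p - 1)] at h1
    exact (p_assoc z hz).trans h1.symm
  obtain ⟨u, hu⟩ : ∃ u : 𝓞 C, (p : 𝓞 C) = u * lam ^ (p - 1) := by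
    obtain ⟨u, hu⟩ := hpa.symm
    exact ⟨u, by rw [← hu]; ring⟩
  have hlam0 : lam ≠ 0 := by
    intro h
    rw [h] at hlam
    have h1 := (hlam.symm.dvd : (1 - z) ^ (p ^ k) ∣ 0)
    have h2 : (1 - z) ^ (p ^ k) = 0 := by
      have := hlam.dvd
      rwa [zero_dvd_iff] at this
    exact hπ.ne_zero (pow_eq_zero_iff (pow_pos hprime.pos k).ne' |>.1 h2)
  have hioinj : Function.Injective (io C Ω) := io_injective
  have hlamΩ : io C Ω lam ≠ 0 := by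
    intro h
    exact hlam0 (hioinj (by rw [h, map_zero]))
  obtain ⟨θ, hθ⟩ := IsAlgClosed.exists_pow_nat_eq (io C Ω x) hprime.pos
  by_contra hc
  have hspec := kum_spec (z ^ (p ^ k)) hzp x hx0 g hg θ hθ
  set c := kum Ω C p (z ^ (p ^ k)) x g with hcdef
  have hcv0 : c.val ≠ 0 := fun h => hc ((ZMod.val_eq_zero c).1 h)
  -- the integral element
  have hint : IsIntegral ℤ ((θ - 1) / io C Ω lam) := by
    refine n10_int p hprime (algebraMap (𝓞 C) (𝓞 Ω) lam) (algebraMap (𝓞 C) (𝓞 Ω) u)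
      (algebraMap (𝓞 C) (𝓞 Ω) e) ?_ ?_ _ ?_
    · rw [hj]; exact hlamΩ
    · rw [← map_pow, ← map_mul, ← hu, map_natCast]
    · rw [hj, hj, mul_div_cancel₀ _ hlamΩ, add_sub_cancel, hθ, hx', map_add, map_one, map_mul,
        map_pow]
  have hθint : IsIntegral ℤ θ := by
    refine IsIntegral.of_pow hprime.pos ?_
    rw [hθ, ← hj]
    exact (algebraMap (𝓞 C) (𝓞 Ω) x).2
  obtain ⟨θo, hθo⟩ : ∃ θo : 𝓞 Ω, (θo : Ω) = θ := ⟨⟨θ, hθint⟩, rfl⟩
  obtain ⟨y, hyP, hy⟩ := hgP ⟨(θ - 1) / io C Ω lam, hint⟩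
  have hgio : ∀ w : 𝓞 C, g (io C Ω w) = io C Ω w := fun w => HC_fixes (p := p) (k := k) g hg (w : C)
  have hval : g ((θ - 1) / io C Ω lam) - (θ - 1) / io C Ω lam =
      -(io C Ω (∑ j ∈ Finset.range c.val, (z ^ (p ^ k)) ^ j) * θ) := by
    rw [map_div₀, hgio, map_sub, map_one, hspec]
    have h1 : io C Ω (∑ j ∈ Finset.range c.val, (z ^ (p ^ k)) ^ j) * io C Ω lam =
        1 - io C Ω (z ^ (p ^ k)) ^ c.val := by
      rw [← map_mul, hlam_def, geom_sum_mul_neg, map_sub, map_one, map_pow]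
    field_simp
    linear_combination θ * h1
  have hyP' : (algebraMap (𝓞 C) (𝓞 Ω) (∑ j ∈ Finset.range c.val, (z ^ (p ^ k)) ^ j)) *
      θo ∈ P := by
    have h1 : (algebraMap (𝓞 C) (𝓞 Ω) (∑ j ∈ Finset.range c.val, (z ^ (p ^ k)) ^ j)) *
        θo = -y := by
      apply RingOfIntegers.ext
      have h2 : (y : Ω) = -(io C Ω (∑ j ∈ Finset.range c.val, (z ^ (p ^ k)) ^ j) * θ) := by
        rw [← hval]; exact hy.symm
      have h3 : ((-y : 𝓞 Ω) : Ω) = -(y : Ω) := map_neg _ _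
      rw [h3, h2, neg_neg]
      show ((algebraMap (𝓞 C) (𝓞 Ω) (∑ j ∈ Finset.range c.val, (z ^ (p ^ k)) ^ j) : 𝓞 Ω) : Ω) *
        (θo : Ω) = _
      rw [hj, hθo]
    rw [h1]
    exact P.neg_mem hyP
  rcases hP.isPrime.mem_or_mem hyP' with h | h
  · have h1 := hmem _ h
    have h2 : (1 - z) ∣ (∑ j ∈ Finset.range c.val, (z ^ (p ^ k)) ^ j) - ((c.val : ℕ) : 𝓞 C) := by
      have h3 : (∑ j ∈ Finset.range c.val, (z ^ (p ^ k)) ^ j) - ((c.val : ℕ) : 𝓞 C) =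
          ∑ j ∈ Finset.range c.val, ((z ^ (p ^ k)) ^ j - 1) := by
        rw [Finset.sum_sub_distrib, Finset.sum_const, Finset.card_range, nsmul_eq_mul, mul_one]
      rw [h3]
      refine Finset.dvd_sum fun j _ => ?_
      rw [← pow_mul]
      have h4 := sub_dvd_pow_sub_pow (1 : 𝓞 C) z (p ^ k * j)
      rw [one_pow] at h4
      have h5 : z ^ (p ^ k * j) - 1 = -(1 - z ^ (p ^ k * j)) := by ring
      rw [h5]
      exact h4.neg_right
    have h3 : (1 - z) ∣ ((c.val : ℕ) : 𝓞 C) := by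
      have h4 := dvd_sub h1 h2
      rwa [sub_sub_cancel] at h4
    have h4 := (pi_dvd_nat z hz c.val).1 h3
    exact absurd (Nat.le_of_dvd (Nat.pos_of_ne_zero hcv0) h4) (not_le.2 (ZMod.val_lt c))
  · have h1 : θo ^ p ∈ P := P.pow_mem_of_mem h p hprime.pos
    have h2 : θo ^ p = algebraMap (𝓞 C) (𝓞 Ω) x := by
      apply RingOfIntegers.ext
      have h2 : ((θo ^ p : 𝓞 Ω) : Ω) = (θo : Ω) ^ p := map_pow (algebraMap (𝓞 Ω) Ω) θo p
      rw [h2, hj, hθo]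
      exact hθ
    rw [h2] at h1
    exact hπx (hmem x h1)

/-- (L3') Choose `w` with `y w = 1` modulo `π^(p^(k+1))` (`y` is a unit modulo `π`); apply
`kum_wild_zero` to `x w` and `y w`. -/
theorem kum_wild_congr (z : 𝓞 C) (hz : IsPrimitiveRoot z (p ^ (k + 1))) (P : Ideal (𝓞 Ω))
    (hP : P.IsMaximal) (hp : (p : 𝓞 Ω) ∈ P) (x y : 𝓞 C) (hy : ¬ (1 - z) ∣ y)
    (hxy : (1 - z) ^ (p ^ (k + 1)) ∣ x - y)
    (g : Ω ≃ₐ[ℚ] Ω) (hg : g ∈ HC Ω p k) (hgP : g ∈ inG P) :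
    kum Ω C p (z ^ (p ^ k)) x g = kum Ω C p (z ^ (p ^ k)) y g := by
  have hprime : p.Prime := Fact.out
  have hπ := pi_prime z hz
  have hpN : 0 < p ^ (k + 1) := pow_pos hprime.pos _
  have hzp : IsPrimitiveRoot (z ^ (p ^ k)) p :=
    hz.pow (pow_pos hprime.pos _) (by rw [pow_succ])
  have hy0 : y ≠ 0 := fun h => hy (h ▸ dvd_zero _)
  have hπxy : (1 - z) ∣ x - y := (dvd_pow_self _ hpN.ne').trans hxy
  have hx0 : x ≠ 0 := by
    rintro rfl
    apply hy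
    rw [zero_sub] at hπxy
    exact (dvd_neg).1 hπxy
  have hmax : (Ideal.span {1 - z} : Ideal (𝓞 C)).IsMaximal := by
    have hpr : (Ideal.span {1 - z} : Ideal (𝓞 C)).IsPrime :=
      (Ideal.span_singleton_prime hπ.ne_zero).2 hπ
    exact hpr.isMaximal (by
      rw [Ne, Ideal.span_singleton_eq_bot]
      exact hπ.ne_zero)
  have hcop : IsCoprime y ((1 - z) ^ (p ^ (k + 1))) := by
    refine IsCoprime.pow_right ?_
    obtain ⟨b, hb⟩ := hmax.exists_inv (x := y) (fun h => hy (Ideal.mem_span_singleton.1 h))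
    obtain ⟨i, hi, hbi⟩ := hb
    obtain ⟨r, hr⟩ := Ideal.mem_span_singleton.1 hi
    refine ⟨b, r, ?_⟩
    linear_combination hbi - hr
  obtain ⟨w, v, hwv⟩ := hcop
  have hw0 : w ≠ 0 := by
    rintro rfl
    rw [zero_mul, zero_add] at hwv
    have h1 : (1 - z) ∣ v * (1 - z) ^ (p ^ (k + 1)) := (dvd_pow_self _ hpN.ne').mul_left _
    rw [hwv] at h1
    exact hπ.not_isUnit (isUnit_of_dvd_one h1)
  have hyw : (1 - z) ^ (p ^ (k + 1)) ∣ y * w - 1 := ⟨-v, by linear_combination hwv⟩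
  have hxw : (1 - z) ^ (p ^ (k + 1)) ∣ x * w - 1 := by
    have h1 : x * w - 1 = (x - y) * w + (y * w - 1) := by ring
    rw [h1]
    exact dvd_add (hxy.mul_right w) hyw
  have h1 := kum_wild_zero z hz P hP hp (x * w) hxw g hg hgP
  have h2 := kum_wild_zero z hz P hP hp (y * w) hyw g hg hgP
  rw [kum_mul _ hzp x w hx0 hw0 g hg] at h1
  rw [kum_mul _ hzp y w hy0 hw0 g hg] at h2
  exact add_right_cancel (h1.trans h2.symm)

end Pool.Agent.MPca71X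
end

section
set_option autoImplicit false
open scoped NumberField
open NumberField

/-! Job N5 (medium): every character comes from an eigenvector (paper 286, Lemma 0.2). -/

namespace Pool.Agent.MPca71X

open Pool.Agent.MPca71W

variable {Ω C : Type} [Field Ω] [Algebra ℚ Ω] [IsAlgClosed Ω] [Algebra.IsAlgebraic ℚ Ω] {p k : ℕ}
  [Fact p.Prime] [Field C] [NumberField C] [IsCyclotomicExtension {p ^ (k + 1)} ℚ C] [Algebra C Ω]
  [IsScalarTower ℚ C Ω]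

theorem N5_aux {A : Type} [CommRing A] (a b : A) : -a + b + a = b := by ring

theorem N5_aux2 (u x : ZMod p) : u * x + ((p - 1 : ℕ) : ZMod p) * ((u.val : ℕ) * x) = 0 := by
  have hp : p.Prime := Fact.out
  rw [ZMod.natCast_val, ZMod.cast_id, Nat.cast_sub hp.one_le]
  simp

theorem N5_aux3 {A : Type} [CommRing A] (s a b c : A) (n p : ℕ) (hp : 1 ≤ p)
    (h : s * (a ^ n) ^ (p - 1) * c ^ p = b ^ p) : s * (a ^ n * c) ^ p = a ^ n * b ^ p := by
  obtain ⟨q, rfl⟩ : ∃ q, p = q + 1 := ⟨p - 1, by omega⟩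
  rw [Nat.add_sub_cancel] at h
  rw [← h]
  ring

theorem N5_one {Γ : Type} [Group Γ] (χ : Γ → ZMod p) (hχ : χ ∈ chs p Γ) : χ 1 = 0 := by
  have h := hχ 1 1
  rw [mul_one] at h
  simpa using h

theorem N5_inv {Γ : Type} [Group Γ] (χ : Γ → ZMod p) (hχ : χ ∈ chs p Γ) (g : Γ) :
    χ g⁻¹ = - χ g := by
  have h := hχ g⁻¹ g
  rw [inv_mul_cancel, N5_one χ hχ] at h
  exact eq_neg_of_add_eq_zero_left h.symm

/-- The subgroup `{h ∈ HC : χ h = 0}` of `G`. -/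
def N5_V (Ω : Type) [Field Ω] [Algebra ℚ Ω] [IsAlgClosed Ω] (p k : ℕ) [Fact p.Prime]
    (χ : (GF Ω p k) → ZMod p) (hχ : χ ∈ chs p (GF Ω p k)) : Subgroup (Ω ≃ₐ[ℚ] Ω) where
  carrier := {g | g ∈ HC Ω p k ∧ ∃ hg : g ∈ GF Ω p k, χ ⟨g, hg⟩ = 0}
  one_mem' := ⟨(HC Ω p k).one_mem, (GF Ω p k).one_mem, N5_one χ hχ⟩
  mul_mem' := by
    rintro a b ⟨h1, h2, h3⟩ ⟨h4, h5, h6⟩
    refine ⟨(HC Ω p k).mul_mem h1 h4, (GF Ω p k).mul_mem h2 h5, ?_⟩
    have := hχ ⟨a, h2⟩ ⟨b, h5⟩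
    rw [h3, h6, add_zero] at this
    exact this
  inv_mem' := by
    rintro a ⟨h1, h2, h3⟩
    refine ⟨(HC Ω p k).inv_mem h1, (GF Ω p k).inv_mem h2, ?_⟩
    have := N5_inv χ hχ ⟨a, h2⟩
    rw [h3, neg_zero] at this
    exact this

theorem N5_mem {Ω : Type} [Field Ω] [Algebra ℚ Ω] [IsAlgClosed Ω] {p k : ℕ} [Fact p.Prime]
    (χ : (GF Ω p k) → ZMod p) (hχ : χ ∈ chs p (GF Ω p k)) (g : GF Ω p k) :
    (g : Ω ≃ₐ[ℚ] Ω) ∈ N5_V Ω p k χ hχ ↔ (g : Ω ≃ₐ[ℚ] Ω) ∈ HC Ω p k ∧ χ g = 0 :=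
  ⟨fun h => ⟨h.1, h.2.2⟩, fun h => ⟨h.1, g.2, h.2⟩⟩

theorem N5_open (χ : (GF Ω p k) → ZMod p) (hχ : χ ∈ chs p (GF Ω p k))
    (ho : IsOpen {g : GF Ω p k | χ g = 0}) :
    IsOpen ((N5_V Ω p k χ hχ : Subgroup (Ω ≃ₐ[ℚ] Ω)) : Set (Ω ≃ₐ[ℚ] Ω)) := by
  have h1 : ((N5_V Ω p k χ hχ : Subgroup (Ω ≃ₐ[ℚ] Ω)) : Set (Ω ≃ₐ[ℚ] Ω)) =
      ((HC Ω p k : Subgroup (Ω ≃ₐ[ℚ] Ω)) : Set (Ω ≃ₐ[ℚ] Ω)) ∩
        ((Subtype.val : GF Ω p k → (Ω ≃ₐ[ℚ] Ω)) '' {g : GF Ω p k | χ g = 0}) := by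
    ext g
    constructor
    · rintro ⟨h1, h2, h3⟩
      exact ⟨h1, ⟨g, h2⟩, h3, rfl⟩
    · rintro ⟨h1, ⟨g', h2, rfl⟩⟩
      exact ⟨h1, g'.2, h2⟩
  rw [h1]
  exact (HC_open Ω p k).inter ((GF_open Ω p k).isOpenMap_subtype_val _ ho)

/-- Hilbert 90. The set `V = {h ∈ HC : χ h = 0}` is an open normal subgroup of `HC = Gal(Ω/C)`; it
contains the automorphisms fixing a finite Galois extension `M / C`. On `Gal(M/C)` the map
`h ↦ zp ^ (χ h) ∈ Mˣ` is a homomorphism with values in `C`, hence a 1-cocycle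
(`groupCohomology.isMulCoboundary₁_of_isMulCocycle₁_of_aut_to_units`), so there is `θ ∈ Mˣ` with
`h θ = zp ^ (χ h) θ`. -/
theorem exists_theta (zp : 𝓞 C) (hz : IsPrimitiveRoot zp p) (χ : (GF Ω p k) → ZMod p)
    (hχ : χ ∈ chs p (GF Ω p k)) (ho : IsOpen {g : GF Ω p k | χ g = 0}) :
    ∃ θ : Ω, θ ≠ 0 ∧ ∀ h : GF Ω p k, (h : Ω ≃ₐ[ℚ] Ω) ∈ HC Ω p k →
      (h : Ω ≃ₐ[ℚ] Ω) θ = io C Ω zp ^ (χ h).val * θ := by
  classical
  have hprim := N2_prim (Ω := Ω) zp hz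
  have hp : p.Prime := Fact.out
  by_cases htriv : ∀ h : GF Ω p k, (h : Ω ≃ₐ[ℚ] Ω) ∈ HC Ω p k → χ h = 0
  · refine ⟨1, one_ne_zero, fun h hh => ?_⟩
    rw [htriv h hh, map_one, ZMod.val_zero, pow_zero, one_mul]
  push Not at htriv
  obtain ⟨h₀, hh₀, hχ₀⟩ := htriv
  -- elements of `HC` with given character value
  have hex : ∀ c : ZMod p, ∃ h : GF Ω p k, (h : Ω ≃ₐ[ℚ] Ω) ∈ HC Ω p k ∧ χ h = c := by
    intro c
    have hpow : ∀ m : ℕ, χ (h₀ ^ m) = (m : ZMod p) * χ h₀ := by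
      intro m
      induction m with
      | zero => rw [pow_zero, N5_one χ hχ]; simp
      | succ m ih => rw [pow_succ, hχ, ih]; push_cast; ring
    refine ⟨h₀ ^ ((c * (χ h₀)⁻¹).val), ?_, ?_⟩
    · rw [SubgroupClass.coe_pow]
      exact (HC Ω p k).pow_mem hh₀ _
    · rw [hpow, ZMod.natCast_val, ZMod.cast_id, mul_assoc, inv_mul_cancel₀ hχ₀, mul_one]
  choose hc hcH hcχ using hex
  set V := N5_V Ω p k χ hχ with hV
  have hVo : IsOpen (V : Set (Ω ≃ₐ[ℚ] Ω)) := N5_open χ hχ ho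
  have hVc : IsClosed (V : Set (Ω ≃ₐ[ℚ] Ω)) := Subgroup.isClosed_of_isOpen V hVo
  have : CharZero Ω := charZero_of_injective_algebraMap (algebraMap ℚ Ω).injective
  have : IsAlgClosure ℚ Ω := ⟨inferInstance, inferInstance⟩
  have : Normal ℚ Ω := IsAlgClosure.normal ℚ Ω
  have : IsGalois ℚ Ω := ⟨⟩
  let F' : IntermediateField ℚ Ω := IntermediateField.fixedField V
  have hfix : F'.fixingSubgroup = V :=
    InfiniteGalois.fixingSubgroup_fixedField (k := ℚ) (K := Ω) ⟨V, hVc⟩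
  -- the characters
  let φ : ZMod p → (F' →* Ω) := fun c =>
    (((hc c : Ω ≃ₐ[ℚ] Ω) : Ω →+* Ω).comp (F'.val : F' →+* Ω) : F' →+* Ω)
  have hφ : ∀ c (y : F'), φ c y = (hc c : Ω ≃ₐ[ℚ] Ω) (y : Ω) := fun c y => rfl
  have hinj : Function.Injective φ := by
    intro a b hab
    have h1 : ((hc b)⁻¹ * hc a : GF Ω p k).1 ∈ V := by
      rw [← hfix, IntermediateField.mem_fixingSubgroup_iff]
      intro x hx
      have h2 := DFunLike.congr_fun hab (⟨x, hx⟩ : F')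
      rw [hφ, hφ] at h2
      change ((hc b : Ω ≃ₐ[ℚ] Ω)⁻¹ * (hc a : Ω ≃ₐ[ℚ] Ω)) x = x
      rw [AlgEquiv.mul_apply]
      change (hc a : Ω ≃ₐ[ℚ] Ω) x = (hc b : Ω ≃ₐ[ℚ] Ω) x at h2
      rw [h2]
      exact (hc b : Ω ≃ₐ[ℚ] Ω).symm_apply_apply x
    have h3 := ((N5_mem χ hχ _).1 h1).2
    rw [hχ, N5_inv χ hχ, hcχ, hcχ] at h3
    exact (neg_add_eq_zero.1 h3).symm
  have hli : LinearIndependent Ω (fun c => (φ c : F' → Ω)) :=
    (linearIndependent_monoidHom F' Ω).comp φ hinj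
  -- the Lagrange resolvent
  have hne : ∃ y : F', ∑ c : ZMod p, (io C Ω zp ^ c.val)⁻¹ * (hc c : Ω ≃ₐ[ℚ] Ω) (y : Ω) ≠ 0 := by
    by_contra hcon
    push Not at hcon
    have h1 : ∑ c : ZMod p, (io C Ω zp ^ c.val)⁻¹ • (φ c : F' → Ω) = 0 := by
      funext y
      rw [Finset.sum_apply, Pi.zero_apply, ← hcon y]
      rfl
    have h2 := (Fintype.linearIndependent_iff.1 hli) _ h1 0
    rw [ZMod.val_zero, pow_zero, inv_one] at h2
    exact one_ne_zero h2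
  obtain ⟨y, hy⟩ := hne
  have hy' : ∀ v ∈ V, v (y : Ω) = y := fun v hv =>
    (IntermediateField.mem_fixedField_iff V (y : Ω)).1 y.2 v hv
  refine ⟨_, hy, fun h hh => ?_⟩
  rw [map_sum, Finset.mul_sum]
  have key : ∀ c : ZMod p, (h : Ω ≃ₐ[ℚ] Ω) ((io C Ω zp ^ c.val)⁻¹ * (hc c : Ω ≃ₐ[ℚ] Ω) (y : Ω)) =
      io C Ω zp ^ (χ h).val * ((io C Ω zp ^ (c + χ h).val)⁻¹ *
        (hc (c + χ h) : Ω ≃ₐ[ℚ] Ω) (y : Ω)) := by
    intro c
    have h1 : ((hc (c + χ h))⁻¹ * (h * hc c) : GF Ω p k).1 ∈ V := by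
      rw [hV, N5_mem]
      refine ⟨(HC Ω p k).mul_mem ((HC Ω p k).inv_mem (hcH _)) ((HC Ω p k).mul_mem hh (hcH _)), ?_⟩
      rw [hχ, hχ, N5_inv χ hχ, hcχ, hcχ]
      ring
    have h2 := hy' _ h1
    have h3 : (h : Ω ≃ₐ[ℚ] Ω) ((hc c : Ω ≃ₐ[ℚ] Ω) (y : Ω)) =
        (hc (c + χ h) : Ω ≃ₐ[ℚ] Ω) (y : Ω) := by
      conv_rhs => rw [← h2]
      exact ((hc (c + χ h) : Ω ≃ₐ[ℚ] Ω).apply_symm_apply _).symm
    rw [map_mul, h3, map_inv₀, map_pow, N2_fix zp (h : Ω ≃ₐ[ℚ] Ω) hh, N2_pow_val_add zp hz]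
    have e1 : io C Ω zp ^ c.val ≠ 0 := pow_ne_zero _ (hprim.ne_zero hp.ne_zero)
    have e2 : io C Ω zp ^ (χ h).val ≠ 0 := pow_ne_zero _ (hprim.ne_zero hp.ne_zero)
    field_simp
  rw [Finset.sum_congr rfl (fun c _ => key c)]
  exact Fintype.sum_equiv (Equiv.addRight (χ h)) _ _ (fun c => rfl)

/-- `θ ^ p` is fixed by `HC`, so it is in `C` (`mem_of_fixed`), `= a / b` with `a, b ∈ 𝓞 C`; put
`α = a b^(p-1)`, `(b θ) ^ p = α`. So `kum α = χ` on `HC` (`kum_unique`). Eigenvector: for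
`τ ∈ GF`, `h ∈ HC`: `kum (τ α) h = rd τ * kum α (τ⁻¹ h τ) = rd τ * χ h = kum (α ^ (rd τ)) h`
(`kum_conj`, `χ` is invariant under conjugation as a character of `GF`), so
`τ α * (α ^ (rd τ).val) ^ (p-1)` has vanishing symbol and is a `p`-th power of a fraction
(`kum_all_zero`), which gives `Eig`. -/
theorem exists_alpha (zp : 𝓞 C) (hz : IsPrimitiveRoot zp p) (χ : (GF Ω p k) → ZMod p)
    (hχ : χ ∈ chs p (GF Ω p k)) (ho : IsOpen {g : GF Ω p k | χ g = 0}) :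
    ∃ α : 𝓞 C, α ≠ 0 ∧ Eig Ω C p k α ∧ ∀ h : GF Ω p k, (h : Ω ≃ₐ[ℚ] Ω) ∈ HC Ω p k →
      χ h = kum Ω C p zp α (h : Ω ≃ₐ[ℚ] Ω) := by
  have hp : p.Prime := Fact.out
  have hprim := N2_prim (Ω := Ω) zp hz
  obtain ⟨θ, hθ0, hθ⟩ := exists_theta zp hz χ hχ ho
  have hfix : ∀ g ∈ HC Ω p k, g (θ ^ p) = θ ^ p := by
    intro g hg
    have h1 := hθ ⟨g, HC_le_GF Ω p k hg⟩ hg
    rw [map_pow]
    change (g θ) ^ p = θ ^ p
    change g θ = _ at h1
    rw [h1, mul_pow, ← pow_mul, mul_comm _ p, pow_mul, hprim.pow_eq_one, one_pow, one_mul]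
  obtain ⟨y, hy⟩ := mem_of_fixed (C := C) (θ ^ p) hfix
  obtain ⟨a, b, hb, hab⟩ := IsFractionRing.div_surjective (A := 𝓞 C) y
  have hb0 : b ≠ 0 := nonZeroDivisors.ne_zero hb
  have hbC : algebraMap (𝓞 C) C b ≠ 0 := by
    intro h0
    exact hb0 (RingOfIntegers.coe_injective (by rw [map_zero]; exact h0))
  have hbΩ : io C Ω b ≠ 0 := N2_io_ne b hb0
  have hα : (io C Ω b * θ) ^ p = io C Ω (a * b ^ (p - 1)) := by
    have h1 : θ ^ p = io C Ω a / io C Ω b := by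
      rw [← hy, ← hab, map_div₀]
      rfl
    rw [mul_pow, h1, map_mul, map_pow]
    obtain ⟨q, hq⟩ : ∃ q, p = q + 1 := ⟨p - 1, by have := hp.pos; omega⟩
    have hq' : p - 1 = q := by omega
    rw [hq']
    conv_lhs => rw [hq, pow_succ]
    field_simp
  have hα0 : a * b ^ (p - 1) ≠ 0 := by
    intro h0
    rw [h0, map_zero] at hα
    exact (pow_ne_zero p (mul_ne_zero hbΩ hθ0)) hα
  set α := a * b ^ (p - 1) with hαd
  have hkum : ∀ h : GF Ω p k, (h : Ω ≃ₐ[ℚ] Ω) ∈ HC Ω p k →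
      χ h = kum Ω C p zp α (h : Ω ≃ₐ[ℚ] Ω) := by
    intro h hh
    refine (kum_unique zp hz α hα0 _ hh (io C Ω b * θ) hα (χ h) ?_).symm
    rw [map_mul, N2_fix b _ hh, hθ h hh]
    ring
  refine ⟨α, hα0, ?_, hkum⟩
  intro τ hτ
  set u := rd (kap Ω (p ^ (k + 1)) τ) with hu
  have hα' : sga (p ^ (k + 1)) C (kap Ω (p ^ (k + 1)) τ) α ≠ 0 := by
    intro h0
    exact hα0 ((sga (p ^ (k + 1)) C (kap Ω (p ^ (k + 1)) τ)).injective (by rw [h0, map_zero]))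
  have hvan : ∀ g ∈ HC Ω p k, kum Ω C p zp
      (sga (p ^ (k + 1)) C (kap Ω (p ^ (k + 1)) τ) α * (α ^ u.val) ^ (p - 1)) g = 0 := by
    intro g hg
    have hn := HC_normal Ω p k
    have hg' : τ⁻¹ * g * τ ∈ HC Ω p k := by
      have := hn.conj_mem g hg τ⁻¹
      rwa [inv_inv] at this
    rw [kum_mul zp hz _ _ hα' (pow_ne_zero _ (pow_ne_zero _ hα0)) g hg,
      kum_pow zp hz _ (pow_ne_zero _ hα0) _ g hg, kum_pow zp hz _ hα0 _ g hg]
    have h1 : kum Ω C p zp (sga (p ^ (k + 1)) C (kap Ω (p ^ (k + 1)) τ) α) g =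
        u * kum Ω C p zp α (τ⁻¹ * g * τ) := by
      have h2 := kum_conj zp hz α hα0 τ (τ⁻¹ * g * τ) hg'
      have h3 : τ * (τ⁻¹ * g * τ) * τ⁻¹ = g := by group
      rw [h3] at h2
      exact h2
    have h4 : kum Ω C p zp α (τ⁻¹ * g * τ) = kum Ω C p zp α g := by
      let t : GF Ω p k := ⟨τ, hτ⟩
      let g' : GF Ω p k := ⟨g, HC_le_GF Ω p k hg⟩
      have hc : ((t⁻¹ * g' * t : GF Ω p k) : Ω ≃ₐ[ℚ] Ω) = τ⁻¹ * g * τ := by
        rw [Subgroup.coe_mul, Subgroup.coe_mul, Subgroup.coe_inv]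
      have h5 : χ (t⁻¹ * g' * t) = χ g' := by
        rw [hχ, hχ, N5_inv χ hχ]
        exact N5_aux _ _
      have h6 := hkum (t⁻¹ * g' * t) (by rw [hc]; exact hg')
      rw [hc] at h6
      rw [← h6, h5]
      exact hkum g' hg
    rw [h1, h4]
    exact N5_aux2 _ _
  obtain ⟨b', c', hb', hc', hbc⟩ := kum_all_zero zp hz _
    (mul_ne_zero hα' (pow_ne_zero _ (pow_ne_zero _ hα0))) hvan
  exact ⟨b', α ^ u.val * c', hb', mul_ne_zero (pow_ne_zero _ hα0) hc',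
    N5_aux3 _ _ _ _ _ _ hp.one_le hbc⟩

end Pool.Agent.MPca71X
end

section
set_option autoImplicit false
open scoped NumberField
open NumberField

/-! Job P1 (medium-easy): multiplicities and symbols for the prime data (paper 286, 5.1). -/

namespace Pool.Agent.MPca71X

open Pool.Agent.MPca71W

variable {Ω C : Type} [Field Ω] [Algebra ℚ Ω] [IsAlgClosed Ω] [Algebra.IsAlgebraic ℚ Ω] {p k : ℕ}
  [Fact p.Prime] [Field C] [NumberField C] [IsCyclotomicExtension {p ^ (k + 1)} ℚ C] [Algebra C Ω]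
  [IsScalarTower ℚ C Ω]

/-- The contraction of a nonzero ideal is nonzero. -/
private theorem p1_comap_ne (Q' : Ideal (𝓞 C)) (hQ0 : Q' ≠ ⊥) (a : (ZMod (p ^ (k + 1)))ˣ) :
    Q'.comap (sga (p ^ (k + 1)) C a : 𝓞 C →+* 𝓞 C) ≠ ⊥ := by
  intro h0
  apply hQ0
  rw [← Ideal.absNorm_eq_zero_iff, ← comap_norm Q' a, h0, Ideal.absNorm_bot]

/-- The prime data has `Q s ≠ ⊥` and `p ∉ P s`, `p ∉ Q s`. -/
theorem pd_basic {S : Type} {z : 𝓞 C} {Q : S → Ideal (𝓞 C)} {g : S → 𝓞 C} {e : S → ℕ}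
    {b : S → Ideal (𝓞 C)} {P : S → Ideal (𝓞 Ω)} {x : S → (Ω ≃ₐ[ℚ] Ω)}
    (h : PDat p k z Q g e b P x) (s : S) :
    Q s ≠ ⊥ ∧ (p : 𝓞 Ω) ∉ P s ∧ (p : 𝓞 C) ∉ Q s := by
  have hp : p.Prime := Fact.out
  have h2 : (p : 𝓞 C) ∉ Q s := by
    intro hmem
    have h3 := (split_mem (Q s) (h.prime s) (h.nprime s) p).1 hmem
    exact h.nep s ((Nat.prime_dvd_prime_iff_eq (h.nprime s) hp).1 h3)
  refine ⟨?_, ?_, h2⟩
  · intro h0
    have h3 := h.nprime s
    rw [h0, Ideal.absNorm_bot] at h3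
    exact Nat.not_prime_zero h3
  · intro hmem
    apply h2
    rw [← h.PQ s]
    change (p : 𝓞 C) ∈ (P s).comap (algebraMap (𝓞 C) (𝓞 Ω))
    rw [Ideal.mem_comap, map_natCast]
    exact hmem

/-- At a prime `Q'` with `Q'.comap (sga a) = Q s`, `a ^ (p-1) = 1`: in `vQ_eg` only the term `a`
contributes (`split_free` and `vQ_fact`). -/
theorem vQ_orbit {S : Type} {z : 𝓞 C} {Q : S → Ideal (𝓞 C)} {g : S → 𝓞 C} {e : S → ℕ}
    {b : S → Ideal (𝓞 C)} {P : S → Ideal (𝓞 Ω)} {x : S → (Ω ≃ₐ[ℚ] Ω)}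
    (h : PDat p k z Q g e b P x) (s : S) (Q' : Ideal (𝓞 C)) (hQ' : Q'.IsPrime) (hQ0 : Q' ≠ ⊥)
    (a : (ZMod (p ^ (k + 1)))ˣ) (ha : a ^ (p - 1) = 1)
    (hQ : Q'.comap (sga (p ^ (k + 1)) C a : 𝓞 C →+* 𝓞 C) = Q s) :
    ((vQ Q' (eg C p k (g s)) : ℕ) : ZMod p) = (rd a)⁻¹ * (e s : ZMod p) := by
  classical
  have hb := pd_basic h s
  have hn : Ideal.absNorm Q' = Ideal.absNorm (Q s) := by rw [← hQ, comap_norm]
  rw [vQ_eg Q' hQ' hQ0 (g s) (h.gne s), Finset.sum_eq_single a]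
  · rw [vQ_fact (Q s) (b s) (g s) (h.gne s) (e s) (h.fact s) (h.prime s) hb.1 _
      (hQ.symm ▸ h.prime s) (hQ.symm ▸ hb.1), if_pos hQ]
  · intro a' ha' hne
    have hpr : (Q'.comap (sga (p ^ (k + 1)) C a' : 𝓞 C →+* 𝓞 C)).IsPrime :=
      Ideal.IsPrime.comap _
    rw [vQ_fact (Q s) (b s) (g s) (h.gne s) (e s) (h.fact s) (h.prime s) hb.1 _ hpr
      (p1_comap_ne Q' hQ0 a'), if_neg, mul_zero]
    intro heq
    exact hne (split_free Q' hQ' (hn ▸ h.nprime s) (hn ▸ h.nep s) a' a (heq.trans hQ.symm))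
  · intro hna
    exact absurd (Finset.mem_filter.2 ⟨Finset.mem_univ a, ha⟩) hna

/-- At all other primes the multiplicity is `0` modulo `p`. -/
theorem vQ_other {S : Type} {z : 𝓞 C} {Q : S → Ideal (𝓞 C)} {g : S → 𝓞 C} {e : S → ℕ}
    {b : S → Ideal (𝓞 C)} {P : S → Ideal (𝓞 Ω)} {x : S → (Ω ≃ₐ[ℚ] Ω)}
    (h : PDat p k z Q g e b P x) (s : S) (Q' : Ideal (𝓞 C)) (hQ' : Q'.IsPrime) (hQ0 : Q' ≠ ⊥)
    (hQ : ∀ a : (ZMod (p ^ (k + 1)))ˣ, a ^ (p - 1) = 1 →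
      Q'.comap (sga (p ^ (k + 1)) C a : 𝓞 C →+* 𝓞 C) ≠ Q s) :
    ((vQ Q' (eg C p k (g s)) : ℕ) : ZMod p) = 0 := by
  classical
  have hb := pd_basic h s
  rw [vQ_eg Q' hQ' hQ0 (g s) (h.gne s)]
  refine Finset.sum_eq_zero fun a ha => ?_
  have hpr : (Q'.comap (sga (p ^ (k + 1)) C a : 𝓞 C →+* 𝓞 C)).IsPrime :=
    Ideal.IsPrime.comap _
  rw [vQ_fact (Q s) (b s) (g s) (h.gne s) (e s) (h.fact s) (h.prime s) hb.1 _ hpr
    (p1_comap_ne Q' hQ0 a), if_neg (hQ a (Finset.mem_filter.1 ha).2), mul_zero]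

/-- A prime is in the orbit of at most one `Q s` (norms: `comap_norm`, `inj`). -/
theorem orbit_unique {S : Type} {z : 𝓞 C} {Q : S → Ideal (𝓞 C)} {g : S → 𝓞 C} {e : S → ℕ}
    {b : S → Ideal (𝓞 C)} {P : S → Ideal (𝓞 Ω)} {x : S → (Ω ≃ₐ[ℚ] Ω)}
    (h : PDat p k z Q g e b P x) (s s' : S) (Q' : Ideal (𝓞 C)) (a a' : (ZMod (p ^ (k + 1)))ˣ)
    (h1 : Q'.comap (sga (p ^ (k + 1)) C a : 𝓞 C →+* 𝓞 C) = Q s)
    (h2 : Q'.comap (sga (p ^ (k + 1)) C a' : 𝓞 C →+* 𝓞 C) = Q s') : s = s' := by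
  apply h.inj
  rw [← h1, ← h2, comap_norm, comap_norm]

/-- `kum_tame_zero`, `vQ_other`. -/
theorem kum_x_other {S : Type} {z : 𝓞 C} {Q : S → Ideal (𝓞 C)} {g : S → 𝓞 C} {e : S → ℕ}
    {b : S → Ideal (𝓞 C)} {P : S → Ideal (𝓞 Ω)} {x : S → (Ω ≃ₐ[ℚ] Ω)}
    (h : PDat p k z Q g e b P x) (s s' : S) (hs : s ≠ s') :
    kum Ω C p (z ^ (p ^ k)) (eg C p k (g s')) (x s) = 0 := by
  have hp : p.Prime := Fact.out
  have hb := pd_basic h s
  have hzp : IsPrimitiveRoot (z ^ (p ^ k)) p :=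
    h.hz.pow (pow_pos hp.pos _) (pow_succ p k)
  refine kum_tame_zero (z ^ (p ^ k)) hzp (P s) (h.Pm s) hb.2.1 _ (eg_ne_zero _ (h.gne s')) ?_
    (x s) (h.xH s) (h.xP s)
  rw [h.PQ s, ← ZMod.natCast_eq_zero_iff]
  refine vQ_other h s' (Q s) (h.prime s) hb.1 fun a _ heq => hs (h.inj s s' ?_)
  rw [← heq, comap_norm]

end Pool.Agent.MPca71X
end
end

section

section
set_option autoImplicit false

/-! Job M0 (medium-easy): group theory of finite p-quotients. -/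

namespace Pool.Agent.MPca71X

/-- A proper subgroup of a finite `p`-group is contained in a normal subgroup of index `p`
(`IsPGroup.isNilpotent`, maximal subgroups of nilpotent groups are normal, the quotient by a
maximal normal subgroup is simple, hence of order `p`), i.e. in the kernel of a nonzero additive
character. Apply this to the image of `H` in `Γ / N`. -/
theorem exists_char_of_ne (p : ℕ) [Fact p.Prime] {Γ : Type} [Group Γ] (N : Subgroup Γ)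
    (hn : N.Normal) [N.FiniteIndex] (hp : ∀ g : Γ, ∃ j : ℕ, g ^ p ^ j ∈ N) (H : Subgroup Γ)
    (hH : H ⊔ N ≠ ⊤) :
    ∃ f ∈ chs p Γ, (∃ g, f g ≠ 0) ∧ (∀ g ∈ N, f g = 0) ∧ ∀ g ∈ H, f g = 0 := by
  have hQp : IsPGroup p (Γ ⧸ N) := by
    intro q
    obtain ⟨g, rfl⟩ := QuotientGroup.mk_surjective q
    obtain ⟨j, hj⟩ := hp g
    refine ⟨j, ?_⟩
    rw [← QuotientGroup.mk_pow, QuotientGroup.eq_one_iff]
    exact hj
  have hfinQ : Finite (Γ ⧸ N) := inferInstance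
  have hH' : H.map (QuotientGroup.mk' N) ≠ ⊤ := by
    intro h
    apply hH
    have h1 := congrArg (Subgroup.comap (QuotientGroup.mk' N)) h
    rw [Subgroup.comap_map_eq, QuotientGroup.ker_mk', Subgroup.comap_top] at h1
    exact h1
  obtain ⟨M, hM, hHM⟩ := (eq_top_or_exists_le_coatom (H.map (QuotientGroup.mk' N))).resolve_left hH'
  have hnil : Group.IsNilpotent (Γ ⧸ N) := hQp.isNilpotent
  have hMn : M.Normal :=
    Subgroup.NormalizerCondition.normal_of_coatom M Group.normalizerCondition_of_isNilpotent hM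
  have hQMp : IsPGroup p ((Γ ⧸ N) ⧸ M) := hQp.to_quotient M
  have hnt : Nontrivial ((Γ ⧸ N) ⧸ M) := by
    rw [QuotientGroup.nontrivial_iff]
    exact hM.1
  have hcard : Nat.card ((Γ ⧸ N) ⧸ M) = p := by
    have hdvd : p ∣ Nat.card ((Γ ⧸ N) ⧸ M) := by
      obtain ⟨n, hn0, hn⟩ := (hQMp.nontrivial_iff_card).mp hnt
      rw [hn]
      exact dvd_pow_self p hn0.ne'
    obtain ⟨g, hg⟩ := exists_prime_orderOf_dvd_card' p hdvd
    have hg1 : g ≠ 1 := by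
      rintro rfl
      rw [orderOf_one] at hg
      exact (Fact.out : p.Prime).one_lt.ne hg
    have hMK : M < (Subgroup.zpowers g).comap (QuotientGroup.mk' M) := by
      refine lt_of_le_of_ne ?_ ?_
      · intro x hx
        rw [Subgroup.mem_comap]
        have : QuotientGroup.mk' M x = 1 := (QuotientGroup.eq_one_iff x).mpr hx
        rw [this]
        exact Subgroup.one_mem _
      · intro h
        obtain ⟨x, rfl⟩ := QuotientGroup.mk_surjective g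
        apply hg1
        have hx : x ∈ (Subgroup.zpowers (x : (Γ ⧸ N) ⧸ M)).comap (QuotientGroup.mk' M) :=
          Subgroup.mem_zpowers _
        rw [← h] at hx
        exact (QuotientGroup.eq_one_iff x).mpr hx
    have htop := hM.2 _ hMK
    have hz : Subgroup.zpowers g = ⊤ := by
      rw [Subgroup.eq_top_iff']
      intro y
      obtain ⟨x, rfl⟩ := QuotientGroup.mk_surjective y
      have hx : x ∈ (Subgroup.zpowers g).comap (QuotientGroup.mk' M) := by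
        rw [htop]
        exact Subgroup.mem_top x
      exact hx
    rw [← hg, ← Nat.card_zpowers, hz, Subgroup.card_top]
  have hcard2 : Nat.card (Multiplicative (ZMod p)) = p := by
    rw [Nat.card_congr Multiplicative.toAdd, Nat.card_zmod]
  let e : (Γ ⧸ N) ⧸ M ≃* Multiplicative (ZMod p) := mulEquivOfPrimeCardEq hcard hcard2
  let ψ : Γ →* Multiplicative (ZMod p) :=
    e.toMonoidHom.comp ((QuotientGroup.mk' M).comp (QuotientGroup.mk' N))
  have hψ : ∀ g, QuotientGroup.mk' N g ∈ M → ψ g = 1 := by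
    intro g hg
    change e (QuotientGroup.mk' M (QuotientGroup.mk' N g)) = 1
    have : QuotientGroup.mk' M (QuotientGroup.mk' N g) = 1 := (QuotientGroup.eq_one_iff _).mpr hg
    rw [this, map_one]
  refine ⟨fun g => Multiplicative.toAdd (ψ g), ?_, ?_, ?_, ?_⟩
  · intro x y
    change Multiplicative.toAdd (ψ (x * y)) = _
    rw [map_mul, toAdd_mul]
  · obtain ⟨y, hy⟩ := exists_ne (1 : (Γ ⧸ N) ⧸ M)
    obtain ⟨q, rfl⟩ := QuotientGroup.mk_surjective y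
    obtain ⟨g, rfl⟩ := QuotientGroup.mk_surjective q
    refine ⟨g, ?_⟩
    intro h0
    apply hy
    apply e.injective
    rw [map_one]
    exact Multiplicative.toAdd.injective h0
  · intro g hg
    have h1 : QuotientGroup.mk' N g = 1 := (QuotientGroup.eq_one_iff g).mpr hg
    have h2 : ψ g = 1 := hψ g (by rw [h1]; exact M.one_mem)
    change Multiplicative.toAdd (ψ g) = 0
    rw [h2, toAdd_one]
  · intro g hg
    have h2 : ψ g = 1 := hψ g (hHM (Subgroup.mem_map_of_mem _ hg))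
    change Multiplicative.toAdd (ψ g) = 0
    rw [h2, toAdd_one]

/-- If any two characters of `Γ` which vanish on `N` are dependent then `Γ / N` is cyclic: if
there is a nonzero one, `f`, take `g` with `f g ≠ 0`; if `⟨g⟩ N ≠ Γ`, `exists_char_of_ne` gives a
nonzero `f'` with `f' g = 0`, `s f + t f' = 0` gives `s = 0`, `t = 0`. If all are zero,
`exists_char_of_ne` with `H = ⊥` gives `N = Γ`. -/
theorem cyclic_of_dependent (p : ℕ) [Fact p.Prime] {Γ : Type} [Group Γ] (N : Subgroup Γ)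
    (hn : N.Normal) [N.FiniteIndex] (hp : ∀ g : Γ, ∃ j : ℕ, g ^ p ^ j ∈ N)
    (h : ∀ f ∈ chs p Γ, ∀ f' ∈ chs p Γ, (∀ g ∈ N, f g = 0) → (∀ g ∈ N, f' g = 0) →
      ∃ s t : ZMod p, (s ≠ 0 ∨ t ≠ 0) ∧ ∀ g, s * f g + t * f' g = 0) :
    ∃ g : Γ, Subgroup.zpowers g ⊔ N = ⊤ := by
  by_cases hex : ∃ f ∈ chs p Γ, (∃ g, f g ≠ 0) ∧ ∀ g ∈ N, f g = 0
  · obtain ⟨f, hf, ⟨g, hg⟩, hfN⟩ := hex
    refine ⟨g, ?_⟩
    by_contra hcon
    obtain ⟨f', hf', ⟨g', hg'⟩, hfN', hfH⟩ := exists_char_of_ne p N hn hp _ hcon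
    obtain ⟨s, t, hst, hs⟩ := h f hf f' hf' hfN hfN'
    have h1 := hs g
    rw [hfH g (Subgroup.mem_zpowers g), mul_zero, add_zero, mul_eq_zero] at h1
    have hs0 : s = 0 := h1.resolve_right hg
    have h2 := hs g'
    rw [hs0, zero_mul, zero_add, mul_eq_zero] at h2
    have ht0 : t = 0 := h2.resolve_right hg'
    rcases hst with h3 | h3
    · exact h3 hs0
    · exact h3 ht0
  · refine ⟨1, ?_⟩
    by_contra hcon
    obtain ⟨f', hf', hne, hfN', _⟩ := exists_char_of_ne p N hn hp _ hcon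
    exact hex ⟨f', hf', hne, hfN'⟩

/-- Then any two characters of a subgroup `H ≥ N` which vanish on `N` are dependent: `Γ / N` is
cyclic, so `H / N` is cyclic, generated by the class of some `h0 ∈ H`, and the characters are
determined by their values at `h0`. -/
theorem dependent_sub (p : ℕ) [Fact p.Prime] {Γ : Type} [Group Γ] (N H : Subgroup Γ)
    (hn : N.Normal) [N.FiniteIndex] (hNH : N ≤ H) (hcyc : ∃ g : Γ, Subgroup.zpowers g ⊔ N = ⊤)
    (f f' : H → ZMod p) (hf : f ∈ chs p H) (hf' : f' ∈ chs p H)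
    (h1 : ∀ g : H, (g : Γ) ∈ N → f g = 0) (h2 : ∀ g : H, (g : Γ) ∈ N → f' g = 0)
    (h3 : ∃ g, f' g ≠ 0) : ∃ c : ZMod p, ∀ g, f g = c * f' g := by
  obtain ⟨g0, hg0⟩ := hcyc
  have hcy : IsCyclic (Γ ⧸ N) := by
    refine ⟨⟨(g0 : Γ ⧸ N), ?_⟩⟩
    intro q
    obtain ⟨g, rfl⟩ := QuotientGroup.mk_surjective q
    have h4 : g ∈ Subgroup.zpowers g0 ⊔ N := by
      rw [hg0]
      exact Subgroup.mem_top g
    rw [← SetLike.mem_coe, Subgroup.mul_normal, Set.mem_mul] at h4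
    obtain ⟨a, ha, b, hb, hab⟩ := h4
    obtain ⟨k, rfl⟩ := Subgroup.mem_zpowers_iff.mp ha
    refine ⟨k, ?_⟩
    change (g0 : Γ ⧸ N) ^ k = (g : Γ ⧸ N)
    rw [← hab, QuotientGroup.mk_mul, QuotientGroup.mk_zpow, (QuotientGroup.eq_one_iff b).mpr hb,
      mul_one]
  have hcyH : IsCyclic (H.map (QuotientGroup.mk' N)) := inferInstance
  obtain ⟨⟨q0, hq0⟩, hgen⟩ := hcyH.exists_generator
  obtain ⟨h0, hh0, hmk⟩ := Subgroup.mem_map.mp hq0
  have key : ∀ g : H, ∃ k : ℤ, ∃ n : H, (n : Γ) ∈ N ∧ g = (⟨h0, hh0⟩ : H) ^ k * n := by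
    intro g
    obtain ⟨k, hk⟩ := Subgroup.mem_zpowers_iff.mp
      (hgen ⟨QuotientGroup.mk' N g, Subgroup.mem_map_of_mem _ g.2⟩)
    have hk1 : q0 ^ k = QuotientGroup.mk' N g := by
      have := congrArg Subtype.val hk
      simpa using this
    rw [← hmk, ← map_zpow] at hk1
    refine ⟨k, ((⟨h0, hh0⟩ : H) ^ k)⁻¹ * g, ?_, by group⟩
    have h5 : (h0 ^ k)⁻¹ * (g : Γ) ∈ N := QuotientGroup.eq.mp hk1
    simpa using h5
  have hpow : ∀ F : H → ZMod p, F ∈ chs p H → (∀ g : H, (g : Γ) ∈ N → F g = 0) →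
      ∀ (k : ℤ) (n : H), (n : Γ) ∈ N →
        F ((⟨h0, hh0⟩ : H) ^ k * n) = (k : ZMod p) * F ⟨h0, hh0⟩ := by
    intro F hF hFN k n hn'
    let Fh : H →* Multiplicative (ZMod p) :=
      { toFun := fun x => Multiplicative.ofAdd (F x)
        map_one' := by
          have h6 := hF 1 1
          rw [mul_one] at h6
          have h7 : F 1 = 0 := (add_eq_left.mp h6.symm)
          rw [h7, ofAdd_zero]
        map_mul' := fun x y => by rw [hF x y, ofAdd_add] }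
    have h8 : F ((⟨h0, hh0⟩ : H) ^ k) = (k : ZMod p) * F ⟨h0, hh0⟩ := by
      have h9 := map_zpow Fh (⟨h0, hh0⟩ : H) k
      have h10 := congrArg Multiplicative.toAdd h9
      rw [toAdd_zpow] at h10
      change F ((⟨h0, hh0⟩ : H) ^ k) = k • F ⟨h0, hh0⟩ at h10
      rw [h10, zsmul_eq_mul]
    rw [hF, h8, hFN n hn', add_zero]
  have hne : f' ⟨h0, hh0⟩ ≠ 0 := by
    obtain ⟨g, hg⟩ := h3
    intro h4
    obtain ⟨k, n, hn', hgk⟩ := key g
    apply hg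
    rw [hgk, hpow f' hf' h2 k n hn', h4, mul_zero]
  refine ⟨f ⟨h0, hh0⟩ / f' ⟨h0, hh0⟩, ?_⟩
  intro g
  obtain ⟨k, n, hn', hgk⟩ := key g
  rw [hgk, hpow f hf h1 k n hn', hpow f' hf' h2 k n hn']
  field_simp

end Pool.Agent.MPca71X
end

section
set_option autoImplicit false
open scoped NumberField
open NumberField

/-! Job M1 (medium): `F` has no unramified `p`-extension (paper 286, U). -/

namespace Pool.Agent.MPca71X

open Pool.Agent.MPca71W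

variable {Ω : Type} [Field Ω] [Algebra ℚ Ω] [IsAlgClosed Ω] [Algebra.IsAlgebraic ℚ Ω] {p k : ℕ}
  [Fact p.Prime]

/-- The inertial elements of `GF`. -/
def IS (Ω : Type) [Field Ω] [Algebra ℚ Ω] [IsAlgClosed Ω] (p k : ℕ) [Fact p.Prime] :
    Set (GF Ω p k) :=
  {g | ∃ P : Ideal (𝓞 Ω), P.IsMaximal ∧ (g : Ω ≃ₐ[ℚ] Ω) ∈ inG P}

/-- `τ g τ⁻¹ ∈ inG (τ P)` for `g ∈ inG P` (`inertial_conj`, ntW/AR3), and `τ P` contains the same
rational integers. -/
theorem inG_conj_prime (P : Ideal (𝓞 Ω)) (hP : P.IsMaximal) (τ : Ω ≃ₐ[ℚ] Ω) :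
    ∃ P' : Ideal (𝓞 Ω), P'.IsMaximal ∧ (∀ n : ℕ, (n : 𝓞 Ω) ∈ P' ↔ (n : 𝓞 Ω) ∈ P) ∧
      ∀ g ∈ inG P, τ * g * τ⁻¹ ∈ inG P' := by
  let e : 𝓞 Ω ≃+* 𝓞 Ω := NumberField.RingOfIntegers.mapRingEquiv τ.toRingEquiv
  have he : ∀ x : 𝓞 Ω, ((e x : 𝓞 Ω) : Ω) = τ (x : Ω) := fun x => rfl
  have hes : ∀ x : 𝓞 Ω, ((e.symm x : 𝓞 Ω) : Ω) = τ⁻¹ (x : Ω) := fun x => rfl
  refine ⟨P.comap e.symm, Ideal.comap_isMaximal_of_equiv e.symm, ?_, ?_⟩
  · intro n
    rw [Ideal.mem_comap, map_natCast]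
  · intro g hg x
    obtain ⟨z, hz, hzz⟩ := hg (e.symm x)
    refine ⟨e z, ?_, ?_⟩
    · rw [Ideal.mem_comap]
      simpa using hz
    · rw [he, ← hzz, map_sub, hes]
      change τ (g (τ⁻¹ (x : Ω))) - (x : Ω) = τ (g (τ⁻¹ (x : Ω))) - τ (τ⁻¹ (x : Ω))
      rw [show τ (τ⁻¹ (x : Ω)) = (x : Ω) from τ.apply_symm_apply (x : Ω)]

private theorem m1_compact : CompactSpace (Ω ≃ₐ[ℚ] Ω) := by
  have : CharZero Ω := charZero_of_injective_algebraMap (algebraMap ℚ Ω).injective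
  have hAC : IsAlgClosure ℚ Ω := ⟨inferInstance, inferInstance⟩
  have : Normal ℚ Ω := IsAlgClosure.normal ℚ Ω
  have : IsGalois ℚ Ω := inferInstance
  infer_instance

private theorem m1_exists_max (Ω : Type) [Field Ω] [Algebra ℚ Ω] (p : ℕ) [Fact p.Prime] :
    ∃ P : Ideal (𝓞 Ω), P.IsMaximal ∧ (p : 𝓞 Ω) ∈ P := by
  have hp : p.Prime := Fact.out
  have : CharZero Ω := charZero_of_injective_algebraMap (algebraMap ℚ Ω).injective
  have h1 : ¬ IsUnit ((p : ℕ) : 𝓞 Ω) := by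
    intro hu
    obtain ⟨v, hv⟩ := hu.exists_right_inv
    have hv' : ((p : ℕ) : Ω) * (v : Ω) = 1 := by
      have := congrArg (algebraMap (𝓞 Ω) Ω) hv
      rw [map_mul, map_natCast, map_one] at this
      exact this
    have hp0 : ((p : ℕ) : Ω) ≠ 0 := Nat.cast_ne_zero.2 hp.ne_zero
    have hvq : (v : Ω) = algebraMap ℚ Ω ((p : ℚ)⁻¹) := by
      rw [map_inv₀, map_natCast]
      exact eq_inv_of_mul_eq_one_right hv'
    have hai : IsIntegral ℤ ((p : ℚ)⁻¹) := by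
      have h2 : IsIntegral ℤ (algebraMap ℚ Ω ((p : ℚ)⁻¹)) := by
        rw [← hvq]
        exact NumberField.RingOfIntegers.isIntegral_coe v
      exact (isIntegral_algebraMap_iff (algebraMap ℚ Ω).injective).mp h2
    obtain ⟨n, hn⟩ := IsIntegrallyClosed.isIntegral_iff.mp hai
    have h3 : ((n * p : ℤ) : ℚ) = ((1 : ℤ) : ℚ) := by
      have h4 : (n : ℚ) = (p : ℚ)⁻¹ := by simpa using hn
      push_cast
      rw [h4]
      exact inv_mul_cancel₀ (Nat.cast_ne_zero.2 hp.ne_zero)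
    have h5 : n * (p : ℤ) = 1 := by exact_mod_cast h3
    have h6 : (p : ℤ) ∣ 1 := ⟨n, by rw [mul_comm]; exact h5.symm⟩
    have h7 : p ∣ 1 := by exact_mod_cast h6
    exact hp.one_lt.ne' (Nat.dvd_one.1 h7)
  obtain ⟨M, hM, hle⟩ := Ideal.exists_le_maximal (Ideal.span {((p : ℕ) : 𝓞 Ω)})
    (by rwa [Ne, Ideal.span_singleton_eq_top])
  exact ⟨M, hM, hle (Ideal.mem_span_singleton_self _)⟩

/-- The normal core in `G` of an open subgroup `N ≤ GF` which is normal in `GF` with `p`-quotient: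
`N'' = ⋂ τ N τ⁻¹`, a finite intersection. -/
theorem exists_core (N : Subgroup (GF Ω p k)) (hn : N.Normal)
    (ho : IsOpen (N : Set (GF Ω p k))) (hp : ∀ g : GF Ω p k, ∃ j : ℕ, g ^ p ^ j ∈ N) :
    ∃ N' : Subgroup (Ω ≃ₐ[ℚ] Ω), N'.Normal ∧ N'.FiniteIndex ∧
      IsOpen (N' : Set (Ω ≃ₐ[ℚ] Ω)) ∧ (∀ g : Ω ≃ₐ[ℚ] Ω, ∃ j : ℕ, g ^ p ^ j ∈ N') ∧
      N' ≤ N.map (GF Ω p k).subtype ∧
      ∀ g : Ω ≃ₐ[ℚ] Ω, (∀ τ : Ω ≃ₐ[ℚ] Ω, τ * g * τ⁻¹ ∈ N.map (GF Ω p k).subtype) → g ∈ N' := by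
  have hG : CompactSpace (Ω ≃ₐ[ℚ] Ω) := m1_compact
  have hGFo := GF_open Ω p k
  have hGFn := GF_normal Ω p k
  have hGFc : IsClosed ((GF Ω p k : Subgroup (Ω ≃ₐ[ℚ] Ω)) : Set (Ω ≃ₐ[ℚ] Ω)) :=
    Subgroup.isClosed_of_isOpen _ hGFo
  have hGFcomp : CompactSpace (GF Ω p k) := isCompact_iff_compactSpace.1 hGFc.isCompact
  set Nm : Subgroup (Ω ≃ₐ[ℚ] Ω) := N.map (GF Ω p k).subtype with hNm
  have hNmo : IsOpen (Nm : Set (Ω ≃ₐ[ℚ] Ω)) := by
    have h1 : (Nm : Set (Ω ≃ₐ[ℚ] Ω)) = (fun x : GF Ω p k => (x : Ω ≃ₐ[ℚ] Ω)) '' (N : Set (GF Ω p k)) :=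
      rfl
    rw [h1]
    exact hGFo.isOpenMap_subtype_val _ ho
  have hfinq : Finite ((Ω ≃ₐ[ℚ] Ω) ⧸ Nm) := Subgroup.quotient_finite_of_isOpen Nm hNmo
  have hNmfi : Nm.FiniteIndex := Subgroup.finiteIndex_of_finite_quotient
  have hfinN : Finite ((GF Ω p k) ⧸ N) := Subgroup.quotient_finite_of_isOpen N ho
  -- exponents
  have hpg : IsPGroup p ((GF Ω p k) ⧸ N) := by
    intro q
    obtain ⟨g, rfl⟩ := QuotientGroup.mk_surjective q
    obtain ⟨j, hj⟩ := hp g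
    refine ⟨j, ?_⟩
    rw [← QuotientGroup.mk_pow]
    exact (QuotientGroup.eq_one_iff _).2 hj
  obtain ⟨m, hm⟩ := IsPGroup.iff_card.1 hpg
  have hpow : ∀ g : Ω ≃ₐ[ℚ] Ω, g ^ (p ^ (k + m)) ∈ Nm := by
    intro g
    have h1 : g ^ (p ^ k) ∈ GF Ω p k := by
      have h2 := Subgroup.pow_index_mem (GF Ω p k) g
      rwa [GF_index] at h2
    have h3 : (⟨g ^ (p ^ k), h1⟩ : GF Ω p k) ^ (p ^ m) ∈ N := by
      have h4 := Subgroup.pow_index_mem N (⟨g ^ (p ^ k), h1⟩ : GF Ω p k)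
      have h5 : N.index = p ^ m := hm
      rwa [h5] at h4
    refine ⟨_, h3, ?_⟩
    rw [pow_add, pow_mul]
    rfl
  refine ⟨Nm.normalCore, inferInstance, inferInstance, ?_, ?_, Nm.normalCore_le, ?_⟩
  · have hc : IsClosed (Nm.normalCore : Set (Ω ≃ₐ[ℚ] Ω)) :=
      Subgroup.normalCore_isClosed Nm (Subgroup.isClosed_of_isOpen _ hNmo)
    exact Subgroup.isOpen_of_isClosed_of_finiteIndex _ hc
  · intro g
    refine ⟨k + m, ?_⟩
    intro τ
    have h1 := hpow (τ * g * τ⁻¹)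
    rwa [conj_pow] at h1
  · intro g hg τ
    exact hg τ

/-- (U). Let `N''` be from `exists_core`; it contains all inertial elements of `GF`
(`inG_conj_prime`, `GF` normal). Fix `P0 ∋ p`, `I0 = inG P0` (a subgroup). If
`I0 ⊔ N'' ≠ ⊤`, let `f ≠ 0` be a character killing `N''` and `I0` (`exists_char_of_ne`). `f` kills
`inG P` for `p ∉ P` (it is in `HC ≤ GF`, `inG_le_HC`, so in `N''`) and for `p ∈ P`
(`exists_conj_prime`). By Minkowski (`hom_eq_one` in ntW/RED3) `f = 0`, a contradiction. So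
`g ∈ GF` is `x n`, `x ∈ I0`, `n ∈ N''`; `x ∈ I0 ∩ GF` is in `N''`. -/
theorem GF_U (N : Subgroup (GF Ω p k)) (hn : N.Normal)
    (ho : IsOpen (N : Set (GF Ω p k))) (hp : ∀ g : GF Ω p k, ∃ j : ℕ, g ^ p ^ j ∈ N)
    (hI : IS Ω p k ⊆ N) : N = ⊤ := by
  obtain ⟨N', hN'n, hN'f, hN'o, hN'p, hN'le, hN'u⟩ := exists_core N hn ho hp
  have hGFn := GF_normal Ω p k
  have hin : ∀ (P : Ideal (𝓞 Ω)), P.IsMaximal → ∀ g ∈ inG P, g ∈ GF Ω p k → g ∈ N' := by
    intro P hP g hg hgF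
    apply hN'u
    intro τ
    obtain ⟨P', hP', -, hconj⟩ := inG_conj_prime P hP τ
    have h1 : τ * g * τ⁻¹ ∈ GF Ω p k := hGFn.conj_mem g hgF τ
    exact ⟨⟨τ * g * τ⁻¹, h1⟩, hI ⟨P', hP', hconj g hg⟩, rfl⟩
  obtain ⟨P0, hP0, hpP0⟩ := m1_exists_max Ω p
  let I0 : Subgroup (Ω ≃ₐ[ℚ] Ω) :=
    { carrier := inG P0
      one_mem' := by
        intro x
        refine ⟨0, P0.zero_mem, ?_⟩
        simp
      mul_mem' := fun {a b} ha hb => inG_mul P0 a b ha hb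
      inv_mem' := fun {a} ha => inG_inv P0 a ha }
  have htop : I0 ⊔ N' = ⊤ := by
    by_contra hne
    obtain ⟨f, hf, ⟨g0, hg0⟩, hfN, hfI⟩ := exists_char_of_ne p N' hN'n hN'p I0 hne
    have hfm : ∀ x y, f (x * y) = f x + f y := hf
    have hf1 : f 1 = 0 := hfN 1 N'.one_mem
    let F : (Ω ≃ₐ[ℚ] Ω) →* Multiplicative (ZMod p) :=
      { toFun := fun g => Multiplicative.ofAdd (f g)
        map_one' := by rw [hf1, ofAdd_zero]
        map_mul' := fun x y => by rw [hfm, ofAdd_add] }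
    have hF : ∀ g, F g = Multiplicative.ofAdd (f g) := fun g => rfl
    have hker : IsOpen (F.ker : Set (Ω ≃ₐ[ℚ] Ω)) := by
      refine Subgroup.isOpen_mono ?_ hN'o
      intro g hg
      rw [MonoidHom.mem_ker, hF, hfN g hg, ofAdd_zero]
    have hF1 : F = 1 := by
      refine hom_eq_one F hker ?_
      rintro s ⟨Q, hQ, hs⟩
      have hs' : s ∈ inG Q := hs
      have h0 : f s = 0 := by
        by_cases hpQ : (p : 𝓞 Ω) ∈ Q
        · obtain ⟨g, hg⟩ := exists_conj_prime p Q P0 hQ hP0 hpQ hpP0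
          have h1 : f (g * s * g⁻¹) = 0 := hfI _ (hg s hs')
          have h2 : f g + f g⁻¹ = 0 := by rw [← hfm, mul_inv_cancel, hf1]
          rw [hfm, hfm] at h1
          have h3 : f s = f g + f s + f g⁻¹ - (f g + f g⁻¹) := by ring
          rw [h3, h1, h2, sub_zero]
        · have h1 : s ∈ HC Ω p k := inG_le_HC Ω p k Q hQ hpQ s hs'
          exact hfN s (hin Q hQ s hs' (HC_le_GF Ω p k h1))
      rw [hF, h0, ofAdd_zero]
    apply hg0
    have h1 := DFunLike.congr_fun hF1 g0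
    rw [hF, MonoidHom.one_apply] at h1
    exact Multiplicative.ofAdd.injective (h1.trans ofAdd_zero.symm)
  rw [eq_top_iff]
  rintro ⟨g, hg⟩ -
  have h1 : g ∈ I0 ⊔ N' := by rw [htop]; trivial
  rw [Subgroup.mem_sup_of_normal_right] at h1
  obtain ⟨x, hx, n, hn', hxn⟩ := h1
  have hnF : n ∈ GF Ω p k := by
    obtain ⟨y, _, hy⟩ := hN'le hn'
    rw [← hy]
    exact y.2
  have hxF : x ∈ GF Ω p k := by
    have h2 : x = g * n⁻¹ := by rw [← hxn]; group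
    rw [h2]
    exact mul_mem hg (inv_mem hnF)
  have hxN : x ∈ N' := hin P0 hP0 x hx hxF
  have hgN : g ∈ N.map (GF Ω p k).subtype := by
    rw [← hxn]
    exact hN'le (mul_mem hxN hn')
  obtain ⟨y, hy, hyg⟩ := hgN
  have h3 : y = ⟨g, hg⟩ := Subtype.ext hyg
  rw [← h3]
  exact hy

end Pool.Agent.MPca71X
end

section
set_option autoImplicit false
open scoped NumberField
open NumberField

/-! Job M4b (medium-easy): `eg` modulo powers of `π = 1 - z`. -/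

namespace Pool.Agent.MPca71X

open Pool.Agent.MPca71W

variable {Ω C : Type} [Field Ω] [Algebra ℚ Ω] [IsAlgClosed Ω] [Algebra.IsAlgebraic ℚ Ω] {p k : ℕ}
  [Fact p.Prime] [Field C] [NumberField C] [IsCyclotomicExtension {p ^ (k + 1)} ℚ C] [Algebra C Ω]
  [IsScalarTower ℚ C Ω]

private theorem m4b_pow {R : Type} [CommRing R] (P : R) (h : P * P = 0) (u : R) (c : ℕ) :
    (1 + u * P) ^ c = 1 + c * u * P := by
  induction c with
  | zero => simp
  | succ c ih =>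
    rw [pow_succ, ih]
    push_cast
    linear_combination (c * u * u) * h

private theorem m4b_prod {R ι : Type} [CommRing R] (P : R) (h : P * P = 0) (s : Finset ι)
    (e : ι → R) : ∏ i ∈ s, (1 + e i * P) = 1 + (∑ i ∈ s, e i) * P := by
  classical
  induction s using Finset.induction_on with
  | empty => simp
  | insert a s ha ih =>
    rw [Finset.prod_insert ha, Finset.sum_insert ha, ih]
    linear_combination (e a * ∑ i ∈ s, e i) * h

private theorem m4b_gen {R ι : Type} [CommRing R] (q : R) (m : ℕ) (hm : 1 ≤ m) (s : Finset ι)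
    (x u : ι → R) (c : ι → ℕ) (hx : ∀ i ∈ s, c i ≠ 0 → q ^ (m + 1) ∣ x i - (1 + u i * q ^ m)) :
    q ^ (m + 1) ∣ ∏ i ∈ s, x i ^ c i - (1 + (∑ i ∈ s, (c i : R) * u i) * q ^ m) := by
  have hP : (Ideal.Quotient.mk (Ideal.span {q ^ (m + 1)})) (q ^ m) *
      (Ideal.Quotient.mk (Ideal.span {q ^ (m + 1)})) (q ^ m) = 0 := by
    rw [← map_mul, ← pow_add, Ideal.Quotient.eq_zero_iff_dvd]
    exact pow_dvd_pow q (by omega)
  rw [← Ideal.Quotient.eq_zero_iff_dvd, map_sub, map_prod, map_add, map_mul, map_one, map_sum,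
    sub_eq_zero, ← m4b_prod _ hP]
  refine Finset.prod_congr rfl fun i hi => ?_
  rw [map_pow, map_mul, map_natCast]
  by_cases hc : c i = 0
  · rw [hc, pow_zero, Nat.cast_zero, zero_mul, zero_mul, add_zero]
  · have h1 := hx i hi hc
    rw [← Ideal.Quotient.eq_zero_iff_dvd, map_sub, sub_eq_zero, map_add, map_one, map_mul] at h1
    rw [h1, m4b_pow _ hP]

private theorem m4b_congr {R ι : Type} [CommRing R] (q : R) (s : Finset ι)
    (x y : ι → R) (c : ι → ℕ) (hx : ∀ i ∈ s, q ∣ x i - y i) :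
    q ∣ ∏ i ∈ s, x i ^ c i - ∏ i ∈ s, y i ^ c i := by
  rw [← Ideal.Quotient.eq_zero_iff_dvd, map_sub, map_prod, map_prod, sub_eq_zero]
  refine Finset.prod_congr rfl fun i hi => ?_
  have h1 := hx i hi
  rw [← Ideal.Quotient.eq_zero_iff_dvd, map_sub, sub_eq_zero] at h1
  rw [map_pow, map_pow, h1]

/-- `sga a` maps `(π^M)` to itself (`1 - z^a` is associated to `1 - z`, or it is divisible by it),
products and powers of congruent elements are congruent. -/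
theorem eg_dvd_sub (z : 𝓞 C) (hz : IsPrimitiveRoot z (p ^ (k + 1))) (M : ℕ) (x y : 𝓞 C)
    (h : (1 - z) ^ M ∣ x - y) : (1 - z) ^ M ∣ eg C p k x - eg C p k y := by
  unfold eg
  refine m4b_congr _ _ _ _ _ fun a _ => ?_
  rw [← map_sub]
  obtain ⟨w, hw⟩ := h
  rw [hw, map_mul, map_pow, map_sub, map_one, sga_root a z hz.pow_eq_one]
  have h1 : 1 - z ∣ 1 - z ^ ((a : ZMod (p ^ (k + 1))).val) := by
    have := sub_dvd_pow_sub_pow (1 : 𝓞 C) z ((a : ZMod (p ^ (k + 1))).val)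
    rwa [one_pow] at this
  exact (pow_dvd_pow_of_dvd h1 M).mul_right _

/-- `sga a (1 + π^m) = 1 + d^m π^m` modulo `π^(m+1)`, `d = rd a` (`sga_pi`); its
`c(a)`-th power is `1 + c(a) d^m π^m`, the product over the `a` with `a^(p-1) = 1` is
`1 + (∑_a c(a) d^m) π^m`; `c(a) d^m = d^(m-1) = 1` modulo `p` as `(p-1) ∣ m - 1`, so the sum is
`p - 1 = -1` modulo `p` (`card_delta`), and `π ∣ p`. -/
theorem eg_leading (z : 𝓞 C) (hz : IsPrimitiveRoot z (p ^ (k + 1))) (m : ℕ) (hm : 1 ≤ m)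
    (hm' : (p - 1) ∣ (m - 1)) :
    (1 - z) ^ (m + 1) ∣ eg C p k (1 + (1 - z) ^ m) - 1 + (1 - z) ^ m := by
  have hp : 1 < p := (Fact.out : p.Prime).one_lt
  have hgen := m4b_gen (1 - z) m hm
    (Finset.univ.filter (fun a : (ZMod (p ^ (k + 1)))ˣ => a ^ (p - 1) = 1))
    (fun a => sga (p ^ (k + 1)) C a (1 + (1 - z) ^ m))
    (fun a => (((rd a).val : ℕ) : 𝓞 C) ^ m) (fun a => ((rd a)⁻¹).val) (by
      intro a _ _
      have h1 := sga_pi z hz a (rd a).val (ZMod.natCast_zmod_val _) m 1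
      rw [mul_one] at h1
      rw [map_add, map_one]
      have h2 : 1 + sga (p ^ (k + 1)) C a ((1 - z) ^ m) -
          (1 + (((rd a).val : ℕ) : 𝓞 C) ^ m * (1 - z) ^ m) =
          sga (p ^ (k + 1)) C a ((1 - z) ^ m) - (((rd a).val : ℕ) : 𝓞 C) ^ m * (1 - z) ^ m := by
        ring
      rw [h2]
      exact h1)
  have hsum : (1 - z) ∣ ∑ a ∈ Finset.univ.filter (fun a : (ZMod (p ^ (k + 1)))ˣ =>
      a ^ (p - 1) = 1), (((rd a)⁻¹).val : 𝓞 C) * (((rd a).val : ℕ) : 𝓞 C) ^ m + 1 := by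
    have h1 := (pi_dvd_nat z hz (∑ a ∈ Finset.univ.filter (fun a : (ZMod (p ^ (k + 1)))ˣ =>
      a ^ (p - 1) = 1), ((rd a)⁻¹).val * (rd a).val ^ m + 1)).2 (by
        rw [← ZMod.natCast_eq_zero_iff]
        push_cast
        have h2 : ∀ a ∈ Finset.univ.filter (fun a : (ZMod (p ^ (k + 1)))ˣ => a ^ (p - 1) = 1),
            ((((rd a)⁻¹).val : ℕ) : ZMod p) * (((rd a).val : ℕ) : ZMod p) ^ m = 1 := by
          intro a _
          rw [ZMod.natCast_zmod_val, ZMod.natCast_zmod_val]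
          have h3 : rd a ≠ 0 := rd_ne_zero a
          obtain ⟨w, hw⟩ := hm'
          have h4 : m = (p - 1) * w + 1 := by omega
          rw [h4, pow_succ, pow_mul, ZMod.pow_card_sub_one_eq_one h3, one_pow, one_mul,
            inv_mul_cancel₀ h3]
        rw [Finset.sum_congr rfl h2, Finset.sum_const, card_delta, nsmul_one,
          Nat.cast_sub hp.le]
        simp)
    exact_mod_cast h1
  have hfin : eg C p k (1 + (1 - z) ^ m) - 1 + (1 - z) ^ m =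
      (∏ a ∈ Finset.univ.filter (fun a : (ZMod (p ^ (k + 1)))ˣ => a ^ (p - 1) = 1),
        sga (p ^ (k + 1)) C a (1 + (1 - z) ^ m) ^ ((rd a)⁻¹).val -
      (1 + (∑ a ∈ Finset.univ.filter (fun a : (ZMod (p ^ (k + 1)))ˣ =>
      a ^ (p - 1) = 1), (((rd a)⁻¹).val : 𝓞 C) * (((rd a).val : ℕ) : 𝓞 C) ^ m) *
        (1 - z) ^ m)) +
      (∑ a ∈ Finset.univ.filter (fun a : (ZMod (p ^ (k + 1)))ˣ =>
      a ^ (p - 1) = 1), (((rd a)⁻¹).val : 𝓞 C) * (((rd a).val : ℕ) : 𝓞 C) ^ m + 1) *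
        (1 - z) ^ m := by
    unfold eg
    ring
  rw [hfin]
  refine dvd_add hgen ?_
  rw [pow_succ, mul_comm ((1 - z) ^ m) (1 - z)]
  exact mul_dvd_mul_right hsum _

/-- Leading terms. The factors are `z^b = 1 - b π` modulo `π^2` and
`eg (1 + π^(m j)) ^ (c j) = 1 - (c j) π^(m j)` modulo `π^(m j + 1)`; the exponents `1, m j` are
distinct. Let `M` be the smallest exponent with nonzero coefficient (`b` for `1`, `c j` for `m j`);
the product is `1 - coeff π^M` modulo `π^(M+1)`. -/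
theorem lead (z : 𝓞 C) (hz : IsPrimitiveRoot z (p ^ (k + 1))) {t : ℕ} (m : Fin t → ℕ)
    (hinj : Function.Injective m) (h1 : ∀ j, 1 < m j) (h2 : ∀ j, m j < p ^ (k + 1))
    (h3 : ∀ j, ¬ p ∣ m j) (h4 : ∀ j, (p - 1) ∣ (m j - 1)) (b : ℕ) (hb : b < p) (c : Fin t → ℕ)
    (hc : ∀ j, c j < p) (hne : b ≠ 0 ∨ ∃ j, c j ≠ 0) :
    ∃ (M : ℕ) (a : 𝓞 C), 1 ≤ M ∧ M < p ^ (k + 1) ∧ ¬ p ∣ M ∧ ¬ (1 - z) ∣ a ∧
      (1 - z) ^ (M + 1) ∣
        z ^ b * ∏ j, eg C p k (1 + (1 - z) ^ m j) ^ c j - 1 - a * (1 - z) ^ M := by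
  classical
  have hp : 1 < p := (Fact.out : p.Prime).one_lt
  -- uniform notation
  let μ : Option (Fin t) → ℕ := fun i => i.elim 1 m
  let x : Option (Fin t) → 𝓞 C := fun i => i.elim z (fun j => eg C p k (1 + (1 - z) ^ m j))
  let e : Option (Fin t) → ℕ := fun i => i.elim b c
  have hμinj : Function.Injective μ := by
    rintro (_ | i) (_ | j) h
    · rfl
    · exact absurd h (h1 j).ne
    · exact absurd h.symm (h1 i).ne
    · exact congrArg some (hinj h)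
  have hμ1 : ∀ i, 1 ≤ μ i := by
    rintro (_ | i)
    · exact le_rfl
    · exact (h1 i).le
  have hμ2 : ∀ i, μ i < p ^ (k + 1) := by
    rintro (_ | i)
    · exact Nat.one_lt_pow (Nat.succ_ne_zero k) hp
    · exact h2 i
  have hμ3 : ∀ i, ¬ p ∣ μ i := by
    rintro (_ | i)
    · exact fun h => absurd (Nat.dvd_one.1 h) hp.ne'
    · exact h3 i
  have hx : ∀ i, (1 - z) ^ (μ i + 1) ∣ x i - 1 + (1 - z) ^ μ i := by
    rintro (_ | i)
    · change (1 - z) ^ (1 + 1) ∣ z - 1 + (1 - z) ^ 1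
      rw [pow_one, show z - 1 + (1 - z) = 0 by ring]
      exact dvd_zero _
    · exact eg_leading z hz (m i) (h1 i).le (h4 i)
  have he : ∀ i, e i < p := by
    rintro (_ | i)
    · exact hb
    · exact hc i
  have hne' : (Finset.univ.filter (fun i => e i ≠ 0)).Nonempty := by
    rcases hne with h | ⟨j, hj⟩
    · exact ⟨none, by simpa [e] using h⟩
    · exact ⟨some j, by simpa [e] using hj⟩
  obtain ⟨i0, hi0, hmin⟩ := Finset.exists_min_image _ μ hne'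
  rw [Finset.mem_filter] at hi0
  have hgen := m4b_gen (1 - z) (μ i0) (hμ1 i0) Finset.univ x
    (fun i => if i = i0 then -1 else 0) e (by
      intro i _ hi
      by_cases hii : i = i0
      · rw [if_pos hii, hii]
        have h5 := hx i0
        have h6 : x i0 - (1 + -1 * (1 - z) ^ μ i0) = x i0 - 1 + (1 - z) ^ μ i0 := by ring
        rw [h6]
        exact h5
      · rw [if_neg hii, zero_mul, add_zero]
        have h5 : μ i0 ≤ μ i := hmin i (by rw [Finset.mem_filter]; exact ⟨Finset.mem_univ _, hi⟩)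
        have h6 : μ i0 ≠ μ i := fun h => hii (hμinj h).symm
        have h7 : μ i0 + 1 ≤ μ i := by omega
        have h8 : (1 - z) ^ μ i ∣ x i - 1 := by
          have h9 := (pow_dvd_pow (1 - z) (Nat.le_succ (μ i))).trans (hx i)
          exact (dvd_add_left dvd_rfl).1 h9
        exact (pow_dvd_pow _ h7).trans h8)
  refine ⟨μ i0, -((e i0 : ℕ) : 𝓞 C), hμ1 i0, hμ2 i0, hμ3 i0, ?_, ?_⟩
  · rw [dvd_neg, pi_dvd_nat z hz]
    intro h5
    exact absurd (Nat.le_of_dvd (Nat.pos_of_ne_zero hi0.2) h5) (not_le.2 (he i0))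
  · have hs : ∑ i, (e i : 𝓞 C) * (if i = i0 then -1 else 0) = -((e i0 : ℕ) : 𝓞 C) := by
      rw [Finset.sum_eq_single i0]
      · rw [if_pos rfl, mul_neg_one]
      · intro i _ hi
        rw [if_neg hi, mul_zero]
      · intro h5
        exact absurd (Finset.mem_univ _) h5
    have hpr : ∏ i, x i ^ e i = z ^ b * ∏ j, eg C p k (1 + (1 - z) ^ m j) ^ c j := by
      rw [Fintype.prod_option]
      rfl
    rw [hs, hpr] at hgen
    have h5 : z ^ b * ∏ j, eg C p k (1 + (1 - z) ^ m j) ^ c j - 1 -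
        -((e i0 : ℕ) : 𝓞 C) * (1 - z) ^ μ i0 =
        z ^ b * ∏ j, eg C p k (1 + (1 - z) ^ m j) ^ c j -
          (1 + -((e i0 : ℕ) : 𝓞 C) * (1 - z) ^ μ i0) := by ring
    rw [h5]
    exact hgen

end Pool.Agent.MPca71X
end
end
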