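import Pool.Agent.Lib.MP_ca71b5_nt.E2
import Pool.Agent.Lib.MP_ca71b5_nt.E7
import Pool.Agent.Lib.MP_ca71b5_ntW.Fin5
import Pool.Agent.Lib.MP_ca71b5_ntX.N0
import Pool.Agent.Lib.MP_ca71b5_ntW.C2
import Pool.Agent.Lib.MP_ca71b5_ntW.C4a
import Pool.Agent.Lib.MP_ca71b5_ntW.Fin4
import Pool.Agent.Lib.MP_ca71b5_ntW.RED6
import Pool.Agent.Lib.MP_ca71b5_ntX.N9
import Pool.Agent.Lib.MP_ca71b5_nt.C4
import Pool.Agent.Lib.MP_ca71b5_ntX.G0

section
set_option autoImplicit false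
open scoped NumberField

/-! Job T1 (easy): additivity of the logarithm on commuting matrices, congruences. -/

namespace Pool.Agent.MPca71X

open Pool.Agent.MPca71W

variable {p : ℕ} [Fact p.Prime] {ι : Type} [Fintype ι] [DecidableEq ι]

open Pool.Agent.Lib.MP_ca71b5_nt in
private theorem t1_tendsto_one (g : GLZ p ι) (N : ℕ) (hg : Deep 2 N g) :
    Filter.Tendsto (fun m : ℕ => gm g ^ (p ^ m)) Filter.atTop (nhds 1) := by
  have h := tendsto_zero_of_small (f := fun m : ℕ => gm g ^ (p ^ m) - 1)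
    (fun t => by
      obtain ⟨-, h2, h3⟩ := ell_tendsto g N hg
      filter_upwards [Filter.eventually_ge_atTop (N + t.toNat)] with m hm
      have e : gm g ^ (p ^ m) - 1 = (gm g ^ (p ^ m) - 1 - ((p : ℚ_[p]) ^ m) • ell g) +
          ((p : ℚ_[p]) ^ m) • ell g := by abel
      rw [e]
      refine Small.add ((h2 m (by omega)).mono ?_) ((h3.p_smul m).mono ?_)
      · omega
      · omega)
  have h2 := h.add_const (1 : MQ p ι)
  rw [zero_add] at h2
  refine h2.congr fun m => ?_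
  simp

open Pool.Agent.Lib.MP_ca71b5_nt in
/-- `(u v)^(p^m) = u^(p^m) v^(p^m)`, so
`p^(-m) ((u v)^(p^m) - 1) = (p^(-m) (u^(p^m) - 1)) v^(p^m) + p^(-m) (v^(p^m) - 1)`; the limit is
`ell u + ell v` (`ell_tendsto`; `v^(p^m) → 1`, compare `e3_tendsto_one` in nt/E3, private there);
`ell_eq_of_tendsto`. -/
theorem ell_mul_of_commute (u v : GLZ p ι) (N : ℕ) (hu : Deep 2 N u) (hv : Deep 2 N v)
    (h : u * v = v * u) : ell (u * v) = ell u + ell v := by
  refine ell_eq_of_tendsto _ _ ?_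
  have h1 := (ell_tendsto u N hu).1
  have h2 := (ell_tendsto v N hv).1
  have h3 := t1_tendsto_one v N hv
  have h4 := (h1.mul h3).add h2
  rw [mul_one] at h4
  have hcomm : Commute (gm u) (gm v) := by
    show gm u * gm v = gm v * gm u
    rw [← gm_mul, ← gm_mul, h]
  refine h4.congr fun m => ?_
  rw [gm_mul, hcomm.mul_pow, smul_mul_assoc, ← smul_add, sub_mul, one_mul]
  congr 1
  abel

open Pool.Agent.Lib.MP_ca71b5_nt in
/-- Entries divisible by `p ^ 2` means norm `≤ p ^ (-2)`. -/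
theorem small_of_dvd {n : ℕ} (u : Matrix.GeneralLinearGroup (Fin n) (PadicInt p))
    (h : ∀ i j, ((p : ℤ_[p]) ^ 2) ∣ ((u : Matrix (Fin n) (Fin n) ℤ_[p]) - 1) i j) :
    Small (2 : ℤ) (gm u - 1) ∧ Deep 2 0 u := by
  have key : Small (2 : ℤ) (gm u - 1) := by
    intro i j
    obtain ⟨c, hc⟩ := h i j
    have h1 : (gm u - 1) i j = ((((u : Matrix (Fin n) (Fin n) ℤ_[p]) - 1) i j : ℤ_[p]) : ℚ_[p]) := by
      have e : (gm u - 1 : MQ p (Fin n)) = toQ ((u : MZ p (Fin n)) - 1) := by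
        rw [map_sub, map_one]
        rfl
      rw [e]
      rfl
    rw [h1, hc, PadicInt.coe_mul, norm_mul]
    have h2 : ‖(((p : ℤ_[p]) ^ 2 : ℤ_[p]) : ℚ_[p])‖ = (p : ℝ) ^ (-(2:ℤ)) := by
      have : (((p : ℤ_[p]) ^ 2 : ℤ_[p]) : ℚ_[p]) = (p : ℚ_[p]) ^ 2 := by norm_cast
      rw [this, Padic.norm_p_pow]
      norm_cast
    rw [h2]
    have h3 : ‖(c : ℚ_[p])‖ ≤ 1 := c.2
    have h4 : (0 : ℝ) ≤ (p : ℝ) ^ (-(2:ℤ)) := by positivity
    calc (p : ℝ) ^ (-(2:ℤ)) * ‖(c : ℚ_[p])‖ ≤ (p : ℝ) ^ (-(2:ℤ)) * 1 :=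
        mul_le_mul_of_nonneg_left h3 h4
      _ = (p : ℝ) ^ (-(2:ℤ)) := mul_one _
  refine ⟨key, ?_⟩
  show Small ((2 : ℕ) : ℤ) (gm u ^ (p ^ 0) - 1)
  rw [pow_zero, pow_one]
  exact key

end Pool.Agent.MPca71X
end

section
set_option autoImplicit false
open scoped NumberField
open NumberField

/-! Job T4 (easy): conjugation and the span of the logarithms (copied from the proof of `finite_of_lie` in ntW/Fin5). -/

namespace Pool.Agent.MPca71X

open Pool.Agent.MPca71W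

variable {p : ℕ} [Fact p.Prime] {G : Type} [Group G] {n : ℕ}

/-- A conjugate of a matrix congruent to `1` mod `p` is congruent to `1` mod `p`. -/
theorem conj_cong (g u : Matrix.GeneralLinearGroup (Fin n) (PadicInt p))
    (hu : ∀ i j, (p : ℤ_[p]) ∣ ((u : Matrix (Fin n) (Fin n) ℤ_[p]) - 1) i j) :
    ∀ i j, (p : ℤ_[p]) ∣ (((g * u * g⁻¹ : Matrix.GeneralLinearGroup (Fin n) (PadicInt p)) :
      Matrix (Fin n) (Fin n) ℤ_[p]) - 1) i j := by
  intro i j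
  have h : (((g * u * g⁻¹ : Matrix.GeneralLinearGroup (Fin n) (PadicInt p)) :
      Matrix (Fin n) (Fin n) ℤ_[p]) - 1) =
      (g : Matrix (Fin n) (Fin n) ℤ_[p]) * ((u : Matrix (Fin n) (Fin n) ℤ_[p]) - 1) *
        (g⁻¹ : Matrix.GeneralLinearGroup (Fin n) (PadicInt p)).val := by
    rw [Units.val_mul, Units.val_mul, mul_sub, sub_mul, mul_one, Units.mul_inv]
  rw [h, Matrix.mul_apply]
  refine Finset.dvd_sum fun k _ => Dvd.dvd.mul_right ?_ _
  rw [Matrix.mul_apply]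
  exact Finset.dvd_sum fun l _ => Dvd.dvd.mul_left (hu l k) _

/-- `hstab` in the proof of `finite_of_lie` (ntW/Fin5). -/
theorem lieSpan_stab (ρ : G →* Matrix.GeneralLinearGroup (Fin n) (PadicInt p)) (g : G)
    (X : Matrix (Fin n) (Fin n) ℚ_[p]) (hX : X ∈ lieSpan p ρ) :
    toQp p (ρ g : Matrix (Fin n) (Fin n) ℤ_[p]) * X *
      toQp p ((ρ g)⁻¹ : Matrix.GeneralLinearGroup (Fin n) (PadicInt p)).val ∈ lieSpan p ρ := by
  induction hX using Submodule.span_induction with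
  | mem X hX =>
    obtain ⟨u, hu1, rfl⟩ := hX
    rw [← mlog_conj p _ hu1 (ρ g)]
    refine Submodule.subset_span ⟨g * u * g⁻¹, ?_, ?_⟩
    · rw [map_mul, map_mul, map_inv]
      exact conj_cong (ρ g) (ρ u) hu1
    · rw [map_mul, map_mul, map_inv, Units.val_mul, Units.val_mul]
  | zero => simp
  | add X Y _ _ hX hY =>
    rw [mul_add, add_mul]
    exact Submodule.add_mem _ hX hY
  | smul c X _ hX =>
    rw [Matrix.mul_smul, Matrix.smul_mul]
    exact Submodule.smul_mem _ c hX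

/-- `hcomm` in the proof of `finite_of_lie` (ntW/Fin5): `mlog (ρ u) ∈ lieSpan p ρ` commutes with
`ρ h`, so `mlog (ρ h ρ u (ρ h)⁻¹) = mlog (ρ u)` (`mlog_conj`), `mlog_inj`. -/
theorem comm_of_span (hp2 : p ≠ 2) (ρ : G →* Matrix.GeneralLinearGroup (Fin n) (PadicInt p))
    (u h : G) (hu : ∀ i j, (p : ℤ_[p]) ∣ ((ρ u : Matrix (Fin n) (Fin n) ℤ_[p]) - 1) i j)
    (hh : ∀ X ∈ lieSpan p ρ, toQp p (ρ h : Matrix (Fin n) (Fin n) ℤ_[p]) * X =
      X * toQp p (ρ h : Matrix (Fin n) (Fin n) ℤ_[p])) : ρ u * ρ h = ρ h * ρ u := by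
  have h2 : mlog p (ρ u : Matrix (Fin n) (Fin n) ℤ_[p]) ∈ lieSpan p ρ :=
    Submodule.subset_span ⟨u, hu, rfl⟩
  have h3 := hh _ h2
  have h4 := mlog_conj p _ hu (ρ h)
  rw [h3, mul_assoc (mlog p (ρ u : Matrix (Fin n) (Fin n) ℤ_[p]))] at h4
  have h5 : toQp p (ρ h : Matrix (Fin n) (Fin n) ℤ_[p]) *
      toQp p ((ρ h)⁻¹ : Matrix.GeneralLinearGroup (Fin n) (PadicInt p)).val = 1 := by
    have h6 : (ρ h : Matrix (Fin n) (Fin n) ℤ_[p]) *
      ((ρ h)⁻¹ : Matrix.GeneralLinearGroup (Fin n) (PadicInt p)).val = 1 := Units.mul_inv _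
    have h7 := congrArg (fun M : Matrix (Fin n) (Fin n) ℤ_[p] =>
      M.map (PadicInt.Coe.ringHom (p := p))) h6
    simp only [Matrix.map_mul] at h7
    have h8 : (1 : Matrix (Fin n) (Fin n) ℤ_[p]).map (PadicInt.Coe.ringHom (p := p)) = 1 :=
      Matrix.map_one _ (map_zero _) (map_one _)
    rw [h8] at h7
    exact h7
  rw [h5, mul_one] at h4
  have h9 : ∀ i j, (p : ℤ_[p]) ∣ ((ρ h : Matrix (Fin n) (Fin n) ℤ_[p]) * ρ u *
      ((ρ h)⁻¹ : Matrix.GeneralLinearGroup (Fin n) (PadicInt p)).val - 1) i j := by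
    have := conj_cong (ρ h) (ρ u) hu
    rw [Units.val_mul, Units.val_mul] at this
    exact this
  have h10 := mlog_inj p hp2 _ _ h9 hu h4
  have h11 : ρ h * ρ u * (ρ h)⁻¹ = ρ u := by
    apply Units.ext
    rw [Units.val_mul, Units.val_mul]
    exact h10
  rw [mul_inv_eq_iff_eq_mul] at h11
  exact h11.symm

end Pool.Agent.MPca71X
end

section
set_option autoImplicit false
open scoped NumberField
open NumberField

/-! Job P8a (medium): representations of `Gal(Ω/K)` (K an intermediate field of Ω / ℚ) as representations of the open subgroup. -/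

namespace Pool.Agent.MPca71X

open Pool.Agent.MPca71W

/-- The reduction modulo `p^m` of an unramified pro-`p` representation `ρ` of `Gal(Ω/K)` has
`p`-group image: the kernel `V` of `ρ mod p^m` is an open normal subgroup; its fixed field is a
finite Galois extension of `K` inside the field of `ρ`, so of `p`-power degree, so
`[Gal : V]` is a power of `p` and `g ^ [Gal : V] ∈ V`. (Compare `nilp_of_le` in ntW/AD4 and
`rho_inertial` in ntW/Inv.) -/
theorem rho_pgroup {p : ℕ} [Fact p.Prime] {K Ω : Type} [Field K] [NumberField K]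
    [Field Ω] [Algebra K Ω] [IsAlgClosed Ω] [Algebra.IsAlgebraic K Ω] {n : ℕ}
    (ρ : (Ω ≃ₐ[K] Ω) →* Matrix.GeneralLinearGroup (Fin n) (PadicInt p)) (hc : Continuous ρ)
    (hu : UnrProP p K Ω ρ) (m : ℕ) (g : Ω ≃ₐ[K] Ω) : ∃ j : ℕ, ∀ a b,
      ((p : ℤ_[p]) ^ m) ∣ ((ρ (g ^ p ^ j) : Matrix (Fin n) (Fin n) ℤ_[p]) - 1) a b := by
  classical
  have hnorm : Normal K Ω := by
    have := IsAlgClosure.mk (R := K) (K := Ω) inferInstance inferInstance
    exact IsAlgClosure.normal K Ω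
  have hgal : IsGalois K Ω := ⟨⟩
  set red : Matrix (Fin n) (Fin n) ℤ_[p] →+* Matrix (Fin n) (Fin n) (ZMod (p ^ m)) :=
    (PadicInt.toZModPow (p := p) m).mapMatrix with hred
  set rb : (Ω ≃ₐ[K] Ω) →* (Matrix (Fin n) (Fin n) (ZMod (p ^ m))) :=
    ((red : Matrix (Fin n) (Fin n) ℤ_[p] →* _).comp (Units.coeHom _)).comp ρ with hrb
  have hrbapp : ∀ g, rb g = red (ρ g : Matrix (Fin n) (Fin n) ℤ_[p]) := fun g => rfl
  set rbu : (Ω ≃ₐ[K] Ω) →* (Matrix (Fin n) (Fin n) (ZMod (p ^ m)))ˣ := rb.toHomUnits with hrbu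
  have hrbu' : ∀ g, ((rbu g : (Matrix (Fin n) (Fin n) (ZMod (p ^ m)))ˣ) : Matrix _ _ _) = rb g :=
    fun g => rfl
  set N : Subgroup (Ω ≃ₐ[K] Ω) := rbu.ker with hN
  have hmem' : ∀ g, g ∈ N ↔ ∀ a b,
      ((p : ℤ_[p]) ^ m) ∣ ((ρ g : Matrix (Fin n) (Fin n) ℤ_[p]) - 1) a b := by
    intro g
    rw [hN, MonoidHom.mem_ker, ← Units.val_inj, hrbu', hrbapp]
    constructor
    · intro h a b
      rw [← Ideal.mem_span_singleton, ← PadicInt.ker_toZModPow, RingHom.mem_ker]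
      have h1 : red ((ρ g : Matrix (Fin n) (Fin n) ℤ_[p]) - 1) = 0 := by
        rw [map_sub, h]; simp
      have h2 := congrFun (congrFun h1 a) b
      simpa [hred, RingHom.mapMatrix_apply, Matrix.map_apply] using h2
    · intro h
      have h1 : red ((ρ g : Matrix (Fin n) (Fin n) ℤ_[p]) - 1) = 0 := by
        ext a b
        have h2 := h a b
        rw [← Ideal.mem_span_singleton, ← PadicInt.ker_toZModPow, RingHom.mem_ker] at h2
        simpa [hred, RingHom.mapMatrix_apply, Matrix.map_apply] using h2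
      rw [map_sub, map_one, sub_eq_zero] at h1
      rw [h1]; rfl
  have hmem : ∀ g, g ∈ N ↔ ∀ a b, ‖((ρ g : Matrix (Fin n) (Fin n) ℤ_[p]) - 1) a b‖ <
      (p : ℝ) ^ (-(m : ℤ) + 1) := by
    intro g
    rw [hmem']
    refine forall_congr' fun a => forall_congr' fun b => ?_
    rw [← PadicInt.norm_le_pow_iff_norm_lt_pow_add_one, PadicInt.norm_le_pow_iff_mem_span_pow,
      Ideal.mem_span_singleton]
  have hcoe : Continuous (fun g => ((ρ g : Matrix (Fin n) (Fin n) ℤ_[p]) - 1)) :=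
    (Units.continuous_val.comp hc).sub continuous_const
  have hopen : IsOpen (N : Set (Ω ≃ₐ[K] Ω)) := by
    have : (N : Set (Ω ≃ₐ[K] Ω)) =
        ⋂ a, ⋂ b, {g | ‖((ρ g : Matrix (Fin n) (Fin n) ℤ_[p]) - 1) a b‖ <
          (p : ℝ) ^ (-(m : ℤ) + 1)} := by
      ext g
      simp only [SetLike.mem_coe, hmem, Set.mem_iInter, Set.mem_ofPred_eq]
    rw [this]
    refine isOpen_iInter_of_finite fun a => isOpen_iInter_of_finite fun b => ?_
    exact isOpen_lt (continuous_norm.comp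
      ((continuous_apply b).comp ((continuous_apply a).comp hcoe))) continuous_const
  have hNn : N.Normal := MonoidHom.normal_ker _
  let H : ClosedSubgroup (Ω ≃ₐ[K] Ω) := ⟨N, Subgroup.isClosed_of_isOpen N hopen⟩
  have hHN : H.toSubgroup = N := rfl
  have hHn : H.Normal := hNn
  set L : IntermediateField K Ω := IntermediateField.fixedField N with hL
  have hfix : L.fixingSubgroup = N := InfiniteGalois.fixingSubgroup_fixedField H
  have hfin : FiniteDimensional K L := by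
    rw [← InfiniteGalois.isOpen_iff_finite, hfix]
    exact hopen
  have hgalL : IsGalois K L := by
    rw [← InfiniteGalois.normal_iff_isGalois, hfix]
    exact hNn
  have hle : L ≤ IntermediateField.fixedField ρ.ker := by
    apply IntermediateField.fixedField_le
    intro g hg
    rw [MonoidHom.mem_ker] at hg
    rw [hmem']
    intro a b
    rw [hg]
    simp
  obtain ⟨⟨e, he⟩, -⟩ := hu L hle hfin hgalL
  let E := InfiniteGalois.normalAutEquivQuotient H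
  have hcard : Nat.card ((Ω ≃ₐ[K] Ω) ⧸ N) = p ^ e := by
    rw [Nat.card_congr E.toEquiv, ← he]
    exact IsGalois.card_aut_eq_finrank K L
  refine ⟨e, (hmem' _).1 ?_⟩
  rw [← QuotientGroup.eq_one_iff, QuotientGroup.mk_pow, ← hcard]
  exact pow_card_eq_one'

/-- The group isomorphism between `Gal(Ω/K)` and the fixing subgroup of `K`, and its continuity in
both directions (`IntermediateField.fixingSubgroupEquiv`; Krull topologies, compare
`comap_rs_open` in ntW/RED6 and `nhds_of_restrict` in ntW/Fin2). -/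
theorem exists_galEquiv {Ω : Type} [Field Ω] [Algebra ℚ Ω] [IsAlgClosed Ω]
    [Algebra.IsAlgebraic ℚ Ω] (K : IntermediateField ℚ Ω) [FiniteDimensional ℚ K] :
    ∃ φ : K.fixingSubgroup ≃* (Ω ≃ₐ[K] Ω), Continuous φ ∧ Continuous φ.symm ∧
      ∀ (g : K.fixingSubgroup) (x : Ω), φ g x = (g : Ω ≃ₐ[ℚ] Ω) x := by
  let φ : K.fixingSubgroup ≃* (Ω ≃ₐ[K] Ω) := IntermediateField.fixingSubgroupEquiv K
  have hφ : ∀ (g : K.fixingSubgroup) (x : Ω), φ g x = (g : Ω ≃ₐ[ℚ] Ω) x := fun g x => rfl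
  have hφs : ∀ (h : Ω ≃ₐ[K] Ω), ((φ.symm h : K.fixingSubgroup) : Ω ≃ₐ[ℚ] Ω) =
      h.restrictScalars ℚ := by
    intro h
    ext x
    rw [← hφ, MulEquiv.apply_symm_apply]
    rfl
  refine ⟨φ, ?_, ?_, hφ⟩
  · refine continuous_of_continuousAt_one φ ?_
    rw [ContinuousAt, map_one]
    intro V hV
    rw [krullTopology_mem_nhds_one_iff] at hV
    obtain ⟨E, hE, hEV⟩ := hV
    have h1 : FiniteDimensional ℚ (E.restrictScalars ℚ) := by
      have : FiniteDimensional ℚ E := FiniteDimensional.trans ℚ K E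
      exact this
    have h2 : ((E.restrictScalars ℚ).fixingSubgroup : Set (Ω ≃ₐ[ℚ] Ω)) ∈
        nhds (1 : Ω ≃ₐ[ℚ] Ω) :=
      (IntermediateField.fixingSubgroup_isOpen _).mem_nhds (one_mem _)
    have h3 : (Subtype.val : K.fixingSubgroup → (Ω ≃ₐ[ℚ] Ω)) ⁻¹'
        ((E.restrictScalars ℚ).fixingSubgroup : Set (Ω ≃ₐ[ℚ] Ω)) ∈
        nhds (1 : K.fixingSubgroup) :=
      continuous_subtype_val.continuousAt.preimage_mem_nhds h2
    rw [Filter.mem_map]
    refine Filter.mem_of_superset h3 ?_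
    intro g hg
    refine hEV ?_
    rw [SetLike.mem_coe, IntermediateField.mem_fixingSubgroup_iff]
    intro x hx
    rw [hφ]
    exact (IntermediateField.mem_fixingSubgroup_iff _ _).1 hg x hx
  · have h0 : Continuous (fun h : Ω ≃ₐ[K] Ω =>
        (AlgEquiv.restrictScalarsHom ℚ : (Ω ≃ₐ[K] Ω) →* (Ω ≃ₐ[ℚ] Ω)) h) := by
      refine continuous_of_continuousAt_one _ ?_
      rw [ContinuousAt, map_one]
      intro V hV
      rw [krullTopology_mem_nhds_one_iff] at hV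
      obtain ⟨E, hE, hEV⟩ := hV
      have : Algebra.IsAlgebraic K Ω := Algebra.IsAlgebraic.tower_top (K := ℚ) K
      have h1 := comap_rs_open (K := K) E.fixingSubgroup (IntermediateField.fixingSubgroup_isOpen E)
      rw [Filter.mem_map]
      refine Filter.mem_of_superset (h1.mem_nhds (one_mem _)) ?_
      intro h hh
      exact hEV hh
    refine continuous_induced_rng.2 ?_
    refine h0.congr (fun h => ?_)
    exact (hφs h).symm

end Pool.Agent.MPca71X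
end

section
set_option autoImplicit false
open scoped NumberField
open NumberField

/-! Job M5b (medium-easy): residues. -/

namespace Pool.Agent.MPca71X

open Pool.Agent.MPca71W

variable {Ω C : Type} [Field Ω] [Algebra ℚ Ω] [IsAlgClosed Ω] [Algebra.IsAlgebraic ℚ Ω] {p k : ℕ}
  [Fact p.Prime] [Field C] [NumberField C] [IsCyclotomicExtension {p ^ (k + 1)} ℚ C] [Algebra C Ω]
  [IsScalarTower ℚ C Ω]

private theorem M5b_aux (zp : 𝓞 C) (hz : IsPrimitiveRoot zp p) (Q : Ideal (𝓞 C))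
    (hpQ : (p : 𝓞 C) ∉ Q) (a b : ℕ) (hab : a < b) (hb : b < p) : zp ^ a - zp ^ b ∉ Q := by
  intro h
  have hu : IsUnit zp := hz.isUnit (Fact.out : p.Prime).ne_zero
  obtain ⟨u, hu⟩ := hu.pow a
  have h1 : zp ^ (b - a) - 1 ∈ Q := by
    have h2 : zp ^ (b - a) - 1 = -((u⁻¹ : (𝓞 C)ˣ) : 𝓞 C) * (zp ^ a - zp ^ b) := by
      have h3 : zp ^ b = zp ^ a * zp ^ (b - a) := by
        rw [← pow_add]
        congr 1
        omega
      rw [h3, ← hu]
      have h4 : ((u⁻¹ : (𝓞 C)ˣ) : 𝓞 C) * (u : 𝓞 C) = 1 := by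
        rw [← Units.val_mul, inv_mul_cancel, Units.val_one]
      linear_combination (1 - zp ^ (b - a)) * h4
    rw [h2]
    exact Q.mul_mem_left _ h
  obtain ⟨x, hx⟩ : ∃ x : 𝓞 C, x = zp ^ (b - a) := ⟨_, rfl⟩
  rw [← hx] at h1
  have hx1 : x ≠ 1 := by
    rw [hx]
    intro h5
    have h6 := (hz.pow_eq_one_iff_dvd (b - a)).1 h5
    have h7 := Nat.le_of_dvd (by omega) h6
    omega
  have hxp : x ^ p = 1 := by
    rw [hx, ← pow_mul, mul_comm, pow_mul, hz.pow_eq_one, one_pow]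
  have hsum : ∑ i ∈ Finset.range p, x ^ i = 0 := by
    have h8 := geom_sum_mul x p
    rw [hxp, sub_self] at h8
    rcases mul_eq_zero.1 h8 with h9 | h9
    · exact h9
    · exact absurd (sub_eq_zero.1 h9) hx1
  apply hpQ
  rw [← Ideal.Quotient.eq_zero_iff_mem]
  have h10 : Ideal.Quotient.mk Q x = 1 := by
    rw [← map_one (Ideal.Quotient.mk Q), Ideal.Quotient.mk_eq_mk_iff_sub_mem]
    exact h1
  have h11 := congrArg (Ideal.Quotient.mk Q) hsum
  rw [map_sum, map_zero] at h11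
  simp only [map_pow, h10, one_pow, Finset.sum_const, Finset.card_range, nsmul_eq_mul,
    mul_one] at h11
  rw [map_natCast]
  exact h11

/-- `zp` is primitive modulo `Q`. -/
theorem root_inj (zp : 𝓞 C) (hz : IsPrimitiveRoot zp p) (Q : Ideal (𝓞 C)) (hQ : Q.IsPrime)
    (hpQ : (p : 𝓞 C) ∉ Q) (c c' : ZMod p) (h : zp ^ c.val - zp ^ c'.val ∈ Q) : c = c' := by
  have _ := hQ
  have h1 := ZMod.val_lt c
  have h2 := ZMod.val_lt c'
  rcases lt_trichotomy c.val c'.val with h3 | h3 | h3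
  · exact absurd h (M5b_aux zp hz Q hpQ _ _ h3 h2)
  · exact ZMod.val_injective p h3
  · refine absurd ?_ (M5b_aux zp hz Q hpQ _ _ h3 h1)
    have h4 := Q.neg_mem h
    rwa [neg_sub] at h4

/-- In the cyclic group of order `ℓ - 1` of the residue field the map `r ↦ r ^ ((ℓ-1)/p)` is onto
the group of the `p`-th roots of unity. -/
theorem exists_residue (zp : 𝓞 C) (hz : IsPrimitiveRoot zp p) (Q : Ideal (𝓞 C)) (hQ : Q.IsPrime)
    (hl : (Ideal.absNorm Q).Prime) (hp : p ∣ Ideal.absNorm Q - 1) (hpQ : (p : 𝓞 C) ∉ Q)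
    (c : ZMod p) : ∃ r : 𝓞 C, r ∉ Q ∧ zp ^ c.val - r ^ ((Ideal.absNorm Q - 1) / p) ∈ Q := by
  have hp0 : p.Prime := Fact.out
  have hQ0 : Q ≠ ⊥ := by
    rintro rfl
    rw [Ideal.absNorm_bot] at hl
    exact Nat.not_prime_zero hl
  have hmax : Q.IsMaximal := hQ.isMaximal hQ0
  let _ : Field (𝓞 C ⧸ Q) := Ideal.Quotient.field Q
  have hcard : Nat.card (𝓞 C ⧸ Q) = Ideal.absNorm Q := by
    rw [Ideal.absNorm_apply, Submodule.cardQuot_apply]
  have hfin : Finite (𝓞 C ⧸ Q) := Nat.finite_of_card_ne_zero (by rw [hcard]; exact hl.ne_zero)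
  have hcu : Nat.card (𝓞 C ⧸ Q)ˣ = Ideal.absNorm Q - 1 := by
    rw [Nat.card_units, hcard]
  obtain ⟨g, hg⟩ := IsCyclic.exists_generator (α := (𝓞 C ⧸ Q)ˣ)
  have hog : orderOf g = Ideal.absNorm Q - 1 := by
    rw [orderOf_eq_card_of_forall_mem_zpowers hg, hcu]
  -- the unit of the root
  have hzp : (Ideal.Quotient.mk Q (zp ^ c.val)) ^ p = 1 := by
    rw [← map_pow, ← pow_mul, mul_comm, pow_mul, hz.pow_eq_one, one_pow, map_one]
  obtain ⟨u, hu⟩ : ∃ u : (𝓞 C ⧸ Q)ˣ, (u : 𝓞 C ⧸ Q) = Ideal.Quotient.mk Q (zp ^ c.val) :=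
    ⟨(IsUnit.of_pow_eq_one hzp hp0.ne_zero).unit, rfl⟩
  have hup : u ^ p = 1 := by
    apply Units.ext
    rw [Units.val_pow_eq_pow_val, hu, hzp, Units.val_one]
  obtain ⟨m, hm⟩ : ∃ m : ℕ, g ^ m = u := by
    have h1 := hg u
    rw [← mem_powers_iff_mem_zpowers] at h1
    exact h1
  obtain ⟨q, hq⟩ := hp
  have hq0 : 0 < q := by
    rcases Nat.eq_zero_or_pos q with rfl | h
    · have := hl.two_le
      omega
    · exact h
  have h2 : Ideal.absNorm Q - 1 ∣ m * p := by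
    rw [← hog, orderOf_dvd_iff_pow_eq_one, pow_mul, hm, hup]
  have h3 : q ∣ m := by
    rw [hq, mul_comm m p] at h2
    exact Nat.dvd_of_mul_dvd_mul_left hp0.pos h2
  obtain ⟨s, rfl⟩ := h3
  obtain ⟨r, hr⟩ := Ideal.Quotient.mk_surjective ((g ^ s : (𝓞 C ⧸ Q)ˣ) : 𝓞 C ⧸ Q)
  refine ⟨r, ?_, ?_⟩
  · intro h4
    rw [← Ideal.Quotient.eq_zero_iff_mem, hr] at h4
    exact Units.ne_zero _ h4
  · rw [hq, Nat.mul_div_cancel_left _ hp0.pos, ← Ideal.Quotient.mk_eq_mk_iff_sub_mem,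
      map_pow (Ideal.Quotient.mk Q) r q, hr,
      ← hu, ← hm, ← Units.val_pow_eq_pow_val, ← pow_mul, mul_comm s q]

/-- The symbol at a Frobenius element is determined by the residue: `kum_frob`, `root_inj`. -/
theorem kum_frob_eq (zp : 𝓞 C) (hz : IsPrimitiveRoot zp p) (P : Ideal (𝓞 Ω)) (hP : P.IsMaximal)
    (hl : (Ideal.absNorm (PC C P)).Prime) (hp : Ideal.absNorm (PC C P) ≠ p) (φ : Ω ≃ₐ[ℚ] Ω)
    (hφ : ∀ x : 𝓞 Ω, ∃ y : 𝓞 Ω, y ∈ P ∧
      φ (x : Ω) - (x : Ω) ^ (Ideal.absNorm (PC C P)) = (y : Ω)) (hk : φ ∈ HC Ω p k)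
    (x r : 𝓞 C) (hr : r ∉ PC C P)
    (hx : x - r ∈ PC C P) (c : ZMod p)
    (hc : zp ^ c.val - r ^ ((Ideal.absNorm (PC C P) - 1) / p) ∈ PC C P) :
    kum Ω C p zp x φ = c := by
  obtain ⟨hPC, hPC0⟩ := PC_prime (C := C) P hP
  have hpQ : (p : 𝓞 C) ∉ PC C P := by
    intro h1
    rw [split_mem (C := C) (PC C P) hPC hl] at h1
    exact hp ((Nat.prime_dvd_prime_iff_eq hl (Fact.out : p.Prime)).1 h1)
  have hxP : x ∉ PC C P := by
    intro h1
    apply hr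
    have h2 := (PC C P).sub_mem h1 hx
    rwa [sub_sub_cancel] at h2
  have h3 := kum_frob zp hz P hP hl hp φ hφ hk x hxP
  have h4 : x ^ ((Ideal.absNorm (PC C P) - 1) / p) - r ^ ((Ideal.absNorm (PC C P) - 1) / p) ∈
      PC C P := by
    obtain ⟨y, hy⟩ := sub_dvd_pow_sub_pow x r ((Ideal.absNorm (PC C P) - 1) / p)
    rw [hy]
    exact (PC C P).mul_mem_right _ hx
  apply root_inj zp hz (PC C P) hPC hpQ
  have h5 := (PC C P).sub_mem ((PC C P).add_mem h3 h4) hc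
  have h6 : zp ^ (kum Ω C p zp x φ).val - x ^ ((Ideal.absNorm (PC C P) - 1) / p) +
      (x ^ ((Ideal.absNorm (PC C P) - 1) / p) - r ^ ((Ideal.absNorm (PC C P) - 1) / p)) -
      (zp ^ c.val - r ^ ((Ideal.absNorm (PC C P) - 1) / p)) =
      zp ^ (kum Ω C p zp x φ).val - zp ^ c.val := by ring
  rwa [h6] at h5

end Pool.Agent.MPca71X
end

section
set_option autoImplicit false
open scoped NumberField
open NumberField

/-! Job N11 (medium): ramification at `p` (paper 286, R). -/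

namespace Pool.Agent.MPca71X

open Pool.Agent.MPca71W

variable {Ω C : Type} [Field Ω] [Algebra ℚ Ω] [IsAlgClosed Ω] [Algebra.IsAlgebraic ℚ Ω] {p k : ℕ}
  [Fact p.Prime] [Field C] [NumberField C] [IsCyclotomicExtension {p ^ (k + 1)} ℚ C] [Algebra C Ω]
  [IsScalarTower ℚ C Ω]

private theorem n11_mem {K : Type} [Field K] [NumberField K] (Q : Ideal (𝓞 K)) (hQ : Q.IsPrime)
    (hQ0 : Q ≠ ⊥) (y : 𝓞 K) (hy : y ≠ 0) (r : ℕ) : r ≤ vQ Q y ↔ y ∈ Q ^ r := by
  have hf : FiniteMultiplicity Q (Ideal.span {y}) := by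
    refine FiniteMultiplicity.of_prime_left (Ideal.prime_of_isPrime hQ0 hQ) ?_
    rw [Ideal.zero_eq_bot, Ne, Ideal.span_singleton_eq_bot]
    exact hy
  unfold vQ
  rw [← hf.pow_dvd_iff_le_multiplicity, Ideal.dvd_iff_le, Ideal.span_singleton_le_iff_mem]

private theorem n11_vpi (π : 𝓞 C) (hπ : Prime π) : vQ (Ideal.span {π}) π = 1 := by
  have hQ0 : Ideal.span {π} ≠ ⊥ := by
    rw [Ne, Ideal.span_singleton_eq_bot]
    exact hπ.ne_zero
  have hQ : (Ideal.span {π}).IsPrime := (Ideal.span_singleton_prime hπ.ne_zero).2 hπ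
  refine le_antisymm ?_ ?_
  · by_contra hcon
    have h1 : 2 ≤ vQ (Ideal.span {π}) π := by omega
    rw [n11_mem _ hQ hQ0 _ hπ.ne_zero, Ideal.span_singleton_pow, Ideal.mem_span_singleton] at h1
    obtain ⟨c, hc⟩ := h1
    have h2 : π * 1 = π * (π * c) := by rw [mul_one, ← mul_assoc, ← pow_two]; exact hc
    have h3 := mul_left_cancel₀ hπ.ne_zero h2
    exact hπ.not_isUnit (IsUnit.of_mul_eq_one _ h3.symm)
  · rw [n11_mem _ hQ hQ0 _ hπ.ne_zero, pow_one]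
    exact Ideal.mem_span_singleton_self π

/-- (R) Otherwise take `M, θ` from `kummer_ext`; let `v` be the multiplicity of
`𝔓 = P ∩ 𝓞 M` (`mult_eq_of_inG`: `v(π) = 1`). `∏_{j<p} (θ - zp^j) = θ^p - 1 = x - 1` has
`v = m`, and `v(1 - zp^j) = p^k` for `0 < j < p` (`lam_assoc`). If `v(θ - 1) < p^k` then
`v(θ - zp^j) = v(θ - 1)` for all `j`, so `m = p v(θ - 1)`, a contradiction. Otherwise all
`v(θ - zp^j) ≥ p^k`, so `m ≥ p^(k+1)`, a contradiction. (`x ≠ 0` as `π ∤ x`.) -/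
theorem exists_wild (z : 𝓞 C) (hz : IsPrimitiveRoot z (p ^ (k + 1))) (P : Ideal (𝓞 Ω))
    (hP : P.IsMaximal) (hp : (p : 𝓞 Ω) ∈ P) (x a : 𝓞 C) (m : ℕ) (hm : 1 ≤ m)
    (hm' : m < p ^ (k + 1)) (hpm : ¬ p ∣ m) (ha : ¬ (1 - z) ∣ a)
    (hx : (1 - z) ^ (m + 1) ∣ x - 1 - a * (1 - z) ^ m) :
    ∃ g ∈ HC Ω p k, g ∈ inG P ∧ kum Ω C p (z ^ (p ^ k)) x g ≠ 0 := by
  have hpp : p.Prime := Fact.out
  have hPp : P.IsPrime := hP.isPrime
  by_contra hcon
  push Not at hcon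
  have hπ := pi_prime z hz
  obtain ⟨π, hπe⟩ : ∃ π, π = 1 - z := ⟨_, rfl⟩
  rw [← hπe] at hπ ha hx
  have hzp : IsPrimitiveRoot (z ^ (p ^ k)) p := by
    refine hz.pow (pow_pos hpp.pos _) ?_
    rw [pow_succ]
  obtain ⟨zp, hzpe⟩ : ∃ zp, zp = z ^ (p ^ k) := ⟨_, rfl⟩
  rw [← hzpe] at hzp hcon
  -- the value of `x - 1`
  obtain ⟨b, hb⟩ := hx
  have hx1 : x - 1 = π ^ m * (a + π * b) := by
    have h1 : x - 1 = a * π ^ m + π ^ (m + 1) * b := by rw [← hb]; ring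
    rw [h1, pow_succ]
    ring
  have hab : ¬ π ∣ a + π * b := fun h => ha ((dvd_add_left (dvd_mul_right π b)).1 h)
  have hab0 : a + π * b ≠ 0 := fun h => hab (by rw [h]; exact dvd_zero _)
  have hπm : π ^ m ≠ 0 := pow_ne_zero _ hπ.ne_zero
  have hx10 : x - 1 ≠ 0 := by rw [hx1]; exact mul_ne_zero hπm hab0
  have hx0 : x ≠ 0 := by
    intro h
    apply hπ.not_isUnit
    have h1 : π ∣ x - 1 := by
      rw [hx1]
      exact Dvd.dvd.mul_right (dvd_pow_self π (by omega)) _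
    rw [h, zero_sub, dvd_neg] at h1
    exact isUnit_of_dvd_one h1
  have hQe : PC C P = Ideal.span {π} := by rw [hπe]; exact PC_eq z hz P hP hp
  obtain ⟨hQ, hQ0⟩ := PC_prime (C := C) P hP
  have hvπ : vQ (PC C P) π = 1 := by rw [hQe]; exact n11_vpi π hπ
  have hvx1 : vQ (PC C P) (x - 1) = m := by
    have h1 : vQ (PC C P) (a + π * b) = 0 := by
      rw [vQ_eq_zero_iff _ hQ hQ0 _ hab0, hQe, Ideal.mem_span_singleton]
      exact hab
    rw [hx1, vQ_mul _ hQ hQ0 _ _ hπm hab0, vQ_pow _ hQ hQ0 _ hπ.ne_zero, hvπ, h1, mul_one, add_zero]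
  -- the Kummer extension
  obtain ⟨M, θ, hfd, hgal, hθ, hfix⟩ := kummer_ext zp hzp P hP x hx0 hcon
  have hnf : NumberField M := NumberField.of_module_finite C M
  have hCΩ : Algebra.IsAlgebraic C Ω := Algebra.IsAlgebraic.tower_top (K := ℚ) C
  obtain ⟨𝔓, h𝔓⟩ : ∃ 𝔓, 𝔓 = P.comap (algebraMap (𝓞 M) (𝓞 Ω)) := ⟨_, rfl⟩
  have hmult : ∀ y : 𝓞 C, y ≠ 0 → vQ 𝔓 (algebraMap (𝓞 C) (𝓞 M) y) = vQ (PC C P) y := by
    intro y hy
    rw [h𝔓]
    exact mult_eq_of_inG M P hP hfix y hy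
  have h𝔓p : 𝔓.IsPrime := by rw [h𝔓]; exact Ideal.comap_isPrime _ _
  have h𝔓0 : 𝔓 ≠ ⊥ := by
    intro h
    have h1 : (p : 𝓞 M) ∈ 𝔓 := by
      rw [h𝔓, Ideal.mem_comap, map_natCast]
      exact hp
    rw [h, Ideal.mem_bot] at h1
    exact hpp.ne_zero (by exact_mod_cast h1)
  have hinj : Function.Injective (algebraMap (𝓞 C) (𝓞 M)) := by
    intro u v huv
    have h1 := congrArg (algebraMap (𝓞 M) M) huv
    have h2 : algebraMap C M (algebraMap (𝓞 C) C u) = algebraMap C M (algebraMap (𝓞 C) C v) := h1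
    exact RingOfIntegers.coe_injective ((algebraMap C M).injective h2)
  have hζ : IsPrimitiveRoot (algebraMap (𝓞 C) (𝓞 M) zp) p := hzp.map_of_injective hinj
  have hprod : algebraMap (𝓞 C) (𝓞 M) (x - 1) =
      ∏ ζ ∈ Polynomial.nthRootsFinset p (1 : 𝓞 M), (θ - ζ) := by
    have h1 := hζ.pow_sub_pow_eq_prod_sub_mul θ 1 hpp.pos
    rw [one_pow, hθ] at h1
    rw [map_sub, map_one, h1]
    exact Finset.prod_congr rfl fun ζ _ => by rw [mul_one]
  have hne : ∀ ζ ∈ Polynomial.nthRootsFinset p (1 : 𝓞 M), θ - ζ ≠ 0 := by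
    have h1 : algebraMap (𝓞 C) (𝓞 M) (x - 1) ≠ 0 := by
      intro h
      exact hx10 (hinj (by rw [h, map_zero]))
    rw [hprod] at h1
    exact Finset.prod_ne_zero_iff.1 h1
  have hsum : m = ∑ ζ ∈ Polynomial.nthRootsFinset p (1 : 𝓞 M), vQ 𝔓 (θ - ζ) := by
    rw [← vQ_prod 𝔓 h𝔓p h𝔓0 _ _ hne, ← hprod, hmult _ hx10, hvx1]
  have hcard : (Polynomial.nthRootsFinset p (1 : 𝓞 M)).card = p := hζ.card_nthRootsFinset
  -- the roots of unity
  have hroot : ∀ ζ ∈ Polynomial.nthRootsFinset p (1 : 𝓞 M), 1 - ζ ∈ 𝔓 ^ (p ^ k) := by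
    intro ζ hζ1
    rw [Polynomial.mem_nthRootsFinset hpp.pos] at hζ1
    have : NeZero p := ⟨hpp.ne_zero⟩
    obtain ⟨j, -, rfl⟩ := hζ.eq_pow_of_pow_eq_one hζ1
    have h1 : 1 - algebraMap (𝓞 C) (𝓞 M) zp ∈ 𝔓 ^ (p ^ k) := by
      have hlam := lam_assoc z hz
      rw [← hzpe, ← hπe] at hlam
      have hl0 : 1 - zp ≠ 0 := by
        intro h
        rw [h] at hlam
        exact pow_ne_zero _ hπ.ne_zero (hlam.symm.eq_zero_iff.2 rfl)
      have h2 : 1 - algebraMap (𝓞 C) (𝓞 M) zp = algebraMap (𝓞 C) (𝓞 M) (1 - zp) := by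
        rw [map_sub, map_one]
      have h3 : algebraMap (𝓞 C) (𝓞 M) (1 - zp) ≠ 0 := by
        intro h
        exact hl0 (hinj (by rw [h, map_zero]))
      rw [h2, ← n11_mem 𝔓 h𝔓p h𝔓0 _ h3, hmult _ hl0, n11_mem _ hQ hQ0 _ hl0, hQe,
        Ideal.span_singleton_pow, Ideal.mem_span_singleton]
      exact hlam.symm.dvd
    have h2 : 1 - algebraMap (𝓞 C) (𝓞 M) zp ∣ 1 - algebraMap (𝓞 C) (𝓞 M) zp ^ j := by
      have h3 := sub_dvd_pow_sub_pow (1 : 𝓞 M) (algebraMap (𝓞 C) (𝓞 M) zp) j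
      rwa [one_pow] at h3
    obtain ⟨d, hd⟩ := h2
    rw [hd]
    exact Ideal.mul_mem_right _ _ h1
  have h1mem : (1 : 𝓞 M) ∈ Polynomial.nthRootsFinset p (1 : 𝓞 M) := by
    rw [Polynomial.mem_nthRootsFinset hpp.pos, one_pow]
  rcases lt_or_ge (vQ 𝔓 (θ - 1)) (p ^ k) with hlt | hge
  · have hall : ∀ ζ ∈ Polynomial.nthRootsFinset p (1 : 𝓞 M), vQ 𝔓 (θ - ζ) = vQ 𝔓 (θ - 1) := by
      intro ζ hζ1
      obtain ⟨r, hr⟩ : ∃ r, r = vQ 𝔓 (θ - 1) := ⟨_, rfl⟩
      rw [← hr]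
      have e1 : θ - ζ = (θ - 1) + (1 - ζ) := by ring
      have e2 : θ - 1 ∈ 𝔓 ^ r := (n11_mem 𝔓 h𝔓p h𝔓0 _ (hne 1 h1mem) r).1 hr.le
      have e3 : θ - 1 ∉ 𝔓 ^ (r + 1) := by
        rw [← n11_mem 𝔓 h𝔓p h𝔓0 _ (hne 1 h1mem)]
        omega
      have e4 : 1 - ζ ∈ 𝔓 ^ (r + 1) := Ideal.pow_le_pow_right (by omega) (hroot ζ hζ1)
      refine le_antisymm ?_ ?_
      · by_contra hc
        have e5 : r + 1 ≤ vQ 𝔓 (θ - ζ) := by omega
        rw [n11_mem 𝔓 h𝔓p h𝔓0 _ (hne ζ hζ1)] at e5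
        apply e3
        have e6 : θ - 1 = (θ - ζ) - (1 - ζ) := by ring
        rw [e6]
        exact Ideal.sub_mem _ e5 e4
      · rw [n11_mem 𝔓 h𝔓p h𝔓0 _ (hne ζ hζ1), e1]
        exact Ideal.add_mem _ e2 (Ideal.pow_le_pow_right (Nat.le_succ r) e4)
    rw [Finset.sum_congr rfl hall, Finset.sum_const, hcard, smul_eq_mul] at hsum
    exact hpm ⟨_, hsum⟩
  · have hall : ∀ ζ ∈ Polynomial.nthRootsFinset p (1 : 𝓞 M), p ^ k ≤ vQ 𝔓 (θ - ζ) := by
      intro ζ hζ1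
      rw [n11_mem 𝔓 h𝔓p h𝔓0 _ (hne ζ hζ1)]
      rw [n11_mem 𝔓 h𝔓p h𝔓0 _ (hne 1 h1mem)] at hge
      have e1 : θ - ζ = (θ - 1) + (1 - ζ) := by ring
      rw [e1]
      exact Ideal.add_mem _ hge (hroot ζ hζ1)
    have h5 : ∑ _ζ ∈ Polynomial.nthRootsFinset p (1 : 𝓞 M), p ^ k ≤ m := by
      rw [hsum]
      exact Finset.sum_le_sum hall
    rw [Finset.sum_const, hcard, smul_eq_mul, ← pow_succ'] at h5
    omega

end Pool.Agent.MPca71X
end

section
set_option autoImplicit false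
open scoped NumberField
open NumberField

/-! Job T2 (medium): a number field has no unramified p-adic character. -/

namespace Pool.Agent.MPca71X

open Pool.Agent.MPca71W

variable {E Ω : Type} [Field E] [NumberField E] [Field Ω] [Algebra E Ω] [IsAlgClosed Ω]
  [Algebra.IsAlgebraic E Ω]

/-- For every `m` a cyclic unramified extension: `ker χ` is open, normal, of index `p ^ m`
(`χ` onto), `exists_unramified_of_open` (ntW/Fin1) gives `L` with `L.fixingSubgroup = ker χ`,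
`[L : E] = p ^ m`, unramified, `Gal(L/E) ≃ Gal(Ω/E) / ker χ` cyclic. So `p ^ m ≤ B` with the bound `B` of
`cyclic_bound E` (nt/C4). Compare `c5_key` in nt/C5. -/
theorem unr_char_le (p : ℕ) [Fact p.Prime] (B : ℕ)
    (hB : ∀ (E' : Type) [Field E'] [NumberField E'] [Algebra E E'] [IsGalois E E']
      [IsCyclic (E' ≃ₐ[E] E')], Algebra.Unramified (𝓞 E) (𝓞 E') → Module.finrank E E' ≤ B)
    (m : ℕ) (χ : (Ω ≃ₐ[E] Ω) →* Multiplicative (ZMod (p ^ m))) (hs : Function.Surjective χ)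
    (ho : IsOpen (χ.ker : Set (Ω ≃ₐ[E] Ω)))
    (hI : ∀ h : Ω ≃ₐ[E] Ω, Inertial Ω h.toRingEquiv → χ h = 1) : p ^ m ≤ B := by
  classical
  have hG : IsGalois E Ω := isGalois_acl
  obtain ⟨L, h1, -, h2, h3, h4, h5⟩ := exists_unramified_of_open χ.ker (MonoidHom.normal_ker χ) ho
    (fun h hh => MonoidHom.mem_ker.2 (hI h hh))
  have hNL : NumberField L := NumberField.of_module_finite E L
  have hker : (AlgEquiv.restrictNormalHom L : (Ω ≃ₐ[E] Ω) →* (L ≃ₐ[E] L)).ker = χ.ker := by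
    rw [IntermediateField.restrictNormalHom_ker, h1]
  have hsurj : Function.Surjective (AlgEquiv.restrictNormalHom L : (Ω ≃ₐ[E] Ω) →* (L ≃ₐ[E] L)) :=
    AlgEquiv.restrictNormalHom_surjective Ω
  have e1 : ((Ω ≃ₐ[E] Ω) ⧸ (AlgEquiv.restrictNormalHom L : (Ω ≃ₐ[E] Ω) →* (L ≃ₐ[E] L)).ker) ≃*
      (L ≃ₐ[E] L) := QuotientGroup.quotientKerEquivOfSurjective _ hsurj
  have e2 : ((Ω ≃ₐ[E] Ω) ⧸ χ.ker) ≃* Multiplicative (ZMod (p ^ m)) :=
    QuotientGroup.quotientKerEquivOfSurjective χ hs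
  have e3 := QuotientGroup.quotientMulEquivOfEq hker
  have hcyc : IsCyclic (L ≃ₐ[E] L) :=
    ((e1.symm.trans e3).trans e2).isCyclic.2 inferInstance
  have h6 := hB L h5
  rw [h4, Subgroup.index_ker, MonoidHom.range_eq_top.2 hs] at h6
  have hc : Nat.card (⊤ : Subgroup (Multiplicative (ZMod (p ^ m)))) = p ^ m := by
    rw [Subgroup.card_top, Nat.card_congr Multiplicative.toAdd, Nat.card_zmod]
  rwa [hc] at h6

/-- As in the proof of `fAb_of_unrPro` (nt/C5): if `ψ ≠ 0`, choose `a1` with `‖ψ a1‖` maximal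
(`Gal(Ω/E)` is compact), `φ = ψ / ψ(a1)` has values in `ℤ_p` and `φ(a1) = 1`; reduce modulo `p ^ m`:
a surjective homomorphism with open kernel which kills the inertial elements; `unr_char_le`,
`Nat.lt_pow_self`. -/
theorem no_Zp (p : ℕ) [Fact p.Prime] (ψ : (Ω ≃ₐ[E] Ω) → ℚ_[p]) (hc : Continuous ψ)
    (hadd : ∀ a b, ψ (a * b) = ψ a + ψ b)
    (hI : ∀ h : Ω ≃ₐ[E] Ω, Inertial Ω h.toRingEquiv → ψ h = 0) (a : Ω ≃ₐ[E] Ω) : ψ a = 0 := by
  classical
  by_contra ha0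
  have hG : IsGalois E Ω := isGalois_acl
  obtain ⟨a1, -, ha1⟩ := (isCompact_univ (X := (Ω ≃ₐ[E] Ω))).exists_isMaxOn Set.univ_nonempty
    (f := fun a : (Ω ≃ₐ[E] Ω) => ‖ψ a‖) hc.norm.continuousOn
  have hmax : ∀ a : (Ω ≃ₐ[E] Ω), ‖ψ a‖ ≤ ‖ψ a1‖ := fun a => ha1 (Set.mem_univ a)
  have h1 : ψ a1 ≠ 0 := by
    intro h0
    have := hmax a
    rw [h0, norm_zero] at this
    exact ha0 (norm_le_zero_iff.1 this)
  have h1n : 0 < ‖ψ a1‖ := norm_pos_iff.2 h1
  have hle1 : ∀ a : (Ω ≃ₐ[E] Ω), ‖(ψ a1)⁻¹ * ψ a‖ ≤ 1 := by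
    intro a
    rw [norm_mul, norm_inv, inv_mul_le_iff₀ h1n, mul_one]
    exact hmax a
  let φ : (Ω ≃ₐ[E] Ω) → ℤ_[p] := fun a => ⟨(ψ a1)⁻¹ * ψ a, hle1 a⟩
  have hφa : ∀ a b : (Ω ≃ₐ[E] Ω), φ (a * b) = φ a + φ b := by
    intro a b
    apply Subtype.ext
    show (ψ a1)⁻¹ * ψ (a * b) = (ψ a1)⁻¹ * ψ a + (ψ a1)⁻¹ * ψ b
    rw [hadd, mul_add]
  have hφc : Continuous φ := by
    refine Continuous.subtype_mk ?_ _
    exact continuous_const.mul hc
  have hφ1 : φ a1 = 1 := by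
    apply Subtype.ext
    show (ψ a1)⁻¹ * ψ a1 = 1
    exact inv_mul_cancel₀ h1
  have hφ0 : φ 1 = 0 := by
    have := hφa 1 1
    rw [mul_one] at this
    exact left_eq_add.1 this
  let χ : ∀ m : ℕ, (Ω ≃ₐ[E] Ω) →* Multiplicative (ZMod (p ^ m)) := fun m =>
    { toFun := fun a => Multiplicative.ofAdd (PadicInt.toZModPow m (φ a))
      map_one' := by rw [hφ0, map_zero]; rfl
      map_mul' := fun a b => by rw [hφa, map_add]; rfl }
  have hpow : ∀ (a : (Ω ≃ₐ[E] Ω)) (k : ℕ), φ (a ^ k) = k * φ a := by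
    intro a k
    induction k with
    | zero => rw [pow_zero, hφ0]; simp
    | succ k ih => rw [pow_succ, hφa, ih]; push_cast; ring
  have hχs : ∀ m, Function.Surjective (χ m) := by
    intro m z
    have hne : NeZero (p ^ m) := ⟨pow_ne_zero _ (Fact.out : p.Prime).ne_zero⟩
    refine ⟨a1 ^ (Multiplicative.toAdd z).val, ?_⟩
    show Multiplicative.ofAdd (PadicInt.toZModPow m (φ (a1 ^ (Multiplicative.toAdd z).val))) = z
    rw [hpow, hφ1, mul_one, map_natCast, ZMod.natCast_zmod_val]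
    rfl
  have hopen : ∀ m, IsOpen ((χ m).ker : Set (Ω ≃ₐ[E] Ω)) := by
    intro m
    have hset : (((χ m).ker : Subgroup (Ω ≃ₐ[E] Ω)) : Set (Ω ≃ₐ[E] Ω)) =
        φ ⁻¹' (Metric.closedBall 0 ((p : ℝ) ^ (-m : ℤ))) := by
      ext a
      rw [SetLike.mem_coe, MonoidHom.mem_ker, Set.mem_preimage, mem_closedBall_zero_iff,
        PadicInt.norm_le_pow_iff_mem_span_pow, ← PadicInt.ker_toZModPow, RingHom.mem_ker]
      rfl
    rw [hset]
    refine (IsUltrametricDist.isOpen_closedBall _ ?_).preimage hφc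
    have : (0:ℝ) < p := by exact_mod_cast (Fact.out : p.Prime).pos
    positivity
  have hin : ∀ m, ∀ h : Ω ≃ₐ[E] Ω, Inertial Ω h.toRingEquiv → χ m h = 1 := by
    intro m h hh
    have h2 : φ h = 0 := by
      apply Subtype.ext
      show (ψ a1)⁻¹ * ψ h = 0
      rw [hI h hh, mul_zero]
    show Multiplicative.ofAdd (PadicInt.toZModPow m (φ h)) = 1
    rw [h2, map_zero]
    rfl
  obtain ⟨B, hB⟩ := Pool.Agent.Lib.MP_ca71b5_nt.cyclic_bound E
  have hall : ∀ m : ℕ, p ^ m ≤ B := fun m =>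
    unr_char_le p B (fun E' _ _ _ _ _ hE' => hB E' hE') m (χ m) (hχs m) (hopen m) (hin m)
  have h3 := hall B
  have h4 : B < p ^ B := Nat.lt_pow_self (Fact.out : p.Prime).one_lt
  omega

end Pool.Agent.MPca71X
end

section
set_option autoImplicit false
open scoped NumberField
open NumberField

/-! Job T3 (easy): the same for an open subgroup. -/

namespace Pool.Agent.MPca71X

open Pool.Agent.MPca71W

variable {K Ω : Type} [Field K] [NumberField K] [Field Ω] [Algebra K Ω] [IsAlgClosed Ω]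
  [Algebra.IsAlgebraic K Ω]

/-- Let `E` be the fixed field of the open subgroup `H` (`E/K` finite, so a number field;
`InfiniteGalois`: `H` is closed, so `E.fixingSubgroup = H`). Composing `ψ` with
`Gal(Ω/E) → H` (restriction of scalars; onto, continuous; compare `c5θ` in nt/C5 and
`exists_galEquiv` in P8a) gives a character as in `no_Zp` for `E`. -/
theorem no_Zp_open (p : ℕ) [Fact p.Prime] (H : Subgroup (Ω ≃ₐ[K] Ω))
    (hH : IsOpen (H : Set (Ω ≃ₐ[K] Ω))) (ψ : H → ℚ_[p]) (hc : Continuous ψ)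
    (hadd : ∀ a b, ψ (a * b) = ψ a + ψ b)
    (hI : ∀ h : H, Inertial Ω (h : Ω ≃ₐ[K] Ω).toRingEquiv → ψ h = 0) (a : H) : ψ a = 0 := by
  classical
  have hG : IsGalois K Ω := isGalois_acl
  have hclosed : IsClosed (H : Set (Ω ≃ₐ[K] Ω)) := Subgroup.isClosed_of_isOpen _ hH
  let Hc : ClosedSubgroup (Ω ≃ₐ[K] Ω) := ⟨H, hclosed⟩
  have hfix : (IntermediateField.fixedField H).fixingSubgroup = H :=
    InfiniteGalois.fixingSubgroup_fixedField Hc
  obtain ⟨E, hE⟩ : ∃ E : IntermediateField K Ω, E = IntermediateField.fixedField H := ⟨_, rfl⟩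
  rw [← hE] at hfix
  have hmem : ∀ g : Ω ≃ₐ[K] Ω, g ∈ H ↔ ∀ x ∈ E, g x = x := by
    intro g
    conv_lhs => rw [← hfix]
    rw [IntermediateField.mem_fixingSubgroup_iff]
  have hfd : FiniteDimensional K E := by
    rw [← InfiniteGalois.isOpen_iff_finite, hfix]; exact hH
  have hNE : NumberField E := NumberField.of_module_finite K E
  have halg : Algebra.IsAlgebraic E Ω := Algebra.IsAlgebraic.tower_top (K := K) E
  let θ : (Ω ≃ₐ[E] Ω) →* H :=
    (AlgEquiv.restrictScalarsHom K : (Ω ≃ₐ[E] Ω) →* (Ω ≃ₐ[K] Ω)).codRestrict H (fun σ =>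
      (hmem _).2 (fun x hx => σ.commutes ⟨x, hx⟩))
  have hθ : ∀ (σ : Ω ≃ₐ[E] Ω) (x : Ω), (θ σ : Ω ≃ₐ[K] Ω) x = σ x := fun σ x => rfl
  have hθs : Function.Surjective θ := by
    intro h
    refine ⟨AlgEquiv.ofRingEquiv (f := (h : Ω ≃ₐ[K] Ω).toRingEquiv) (fun e => ?_), ?_⟩
    · exact (hmem _).1 h.2 e e.2
    · apply Subtype.ext
      ext x
      rfl
  have hθc : Continuous θ := by
    refine continuous_induced_rng.2 ?_
    show Continuous (fun h : Ω ≃ₐ[E] Ω =>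
        (AlgEquiv.restrictScalarsHom K : (Ω ≃ₐ[E] Ω) →* (Ω ≃ₐ[K] Ω)) h)
    refine continuous_of_continuousAt_one _ ?_
    rw [ContinuousAt, map_one]
    intro V hV
    rw [krullTopology_mem_nhds_one_iff] at hV
    obtain ⟨F, hF, hFV⟩ := hV
    have h1 := comap_rs_open (K := E) F.fixingSubgroup (IntermediateField.fixingSubgroup_isOpen F)
    rw [Filter.mem_map]
    refine Filter.mem_of_superset (h1.mem_nhds (one_mem _)) ?_
    intro h hh
    exact hFV hh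
  obtain ⟨σ, rfl⟩ := hθs a
  refine no_Zp p (fun σ : Ω ≃ₐ[E] Ω => ψ (θ σ)) (hc.comp hθc) ?_ ?_ σ
  · intro a b
    show ψ (θ (a * b)) = ψ (θ a) + ψ (θ b)
    rw [map_mul, hadd]
  · intro h hh
    exact hI (θ h) hh

end Pool.Agent.MPca71X
end

section
set_option autoImplicit false
open scoped NumberField
open NumberField

/-! Job T5 (medium, helper46): images of dimension `≤ n`. -/

namespace Pool.Agent.MPca71X

open Pool.Agent.MPca71W

variable {K Ω : Type} [Field K] [NumberField K] [Field Ω] [Algebra K Ω] [IsAlgClosed Ω]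
  [Algebra.IsAlgebraic K Ω]

/-- If all unramified pro-`p` representations of dimension `≤ n` have finite image then so does
every unramified pro-`p` representation whose image has dimension `≤ n`. -/
theorem finite_of_dim (p : ℕ) [Fact p.Prime] (hp2 : p ≠ 2) (n : ℕ)
    (h1 : ∀ m ≤ n, ∀ ρ : (Ω ≃ₐ[K] Ω) →* Matrix.GeneralLinearGroup (Fin m) (PadicInt p),
      Continuous ρ → UnrProP p K Ω ρ → (Set.range ρ).Finite)
    (m : ℕ) (ρ : (Ω ≃ₐ[K] Ω) →* Matrix.GeneralLinearGroup (Fin m) (PadicInt p))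
    (hc : Continuous ρ) (hu : UnrProP p K Ω ρ)
    (hd : Module.finrank ℚ_[p] (lieSpan p ρ) ≤ n) : (Set.range ρ).Finite := by
  have hp : p.Prime := Fact.out
  obtain ⟨ρW, hWc, hW1, hW2⟩ := exists_lattice_rep p ρ hc (lieSpan p ρ) (lieSpan_stab ρ)
  have hWf : (Set.range ρW).Finite := h1 _ hd ρW hWc (unrProP_of_ker_le ρ ρW hu hW1)
  have hWo : IsOpen (ρW.ker : Set (Ω ≃ₐ[K] Ω)) := by
    have h2 : IsClosed (ρW ⁻¹' (Set.range ρW \ {1})) := (hWf.sdiff.isClosed).preimage hWc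
    have h3 : (ρW.ker : Set (Ω ≃ₐ[K] Ω)) = (ρW ⁻¹' (Set.range ρW \ {1}))ᶜ := by
      ext g
      simp [MonoidHom.mem_ker]
    rw [h3]
    exact h2.isOpen_compl
  let σ : (Ω ≃ₐ[K] Ω) ≃* (Ω ≃ₐ[K] Ω) := MulEquiv.refl _
  let U := congrSub p ρ σ 1 2
  have hUn : U.Normal := congrSub_normal p ρ σ 1 2
  have hUo : IsOpen (U : Set (Ω ≃ₐ[K] Ω)) := congrSub_open p ρ hc σ continuous_id 1 2
  have hdvd : ∀ x : ℤ_[p], ‖x‖ ≤ (p : ℝ) ^ (-(2 : ℕ) : ℤ) ↔ ((p : ℤ_[p]) ^ 2) ∣ x := by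
    intro x
    have := PadicInt.norm_le_pow_iff_mem_span_pow x 2
    rw [Ideal.mem_span_singleton] at this
    exact this
  have hU : ∀ g ∈ U, ∀ i j, ((p : ℤ_[p]) ^ 2) ∣ ((ρ g : Matrix (Fin m) (Fin m) ℤ_[p]) - 1) i j := by
    intro g hg i j
    rw [← hdvd]
    exact hg 0 (by norm_num) i j
  let H : Subgroup (Ω ≃ₐ[K] Ω) := U ⊓ ρW.ker
  have hHn : H.Normal := by
    constructor
    intro g hg x
    exact ⟨hUn.conj_mem g hg.1 x, (MonoidHom.normal_ker ρW).conj_mem g hg.2 x⟩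
  have hHo : IsOpen (H : Set (Ω ≃ₐ[K] Ω)) := hUo.inter hWo
  have hsm : ∀ g ∈ H, Pool.Agent.Lib.MP_ca71b5_nt.Small (2 : ℤ)
      (Pool.Agent.Lib.MP_ca71b5_nt.gm (ρ g) - 1) ∧ Pool.Agent.Lib.MP_ca71b5_nt.Deep 2 0 (ρ g) :=
    fun g hg => small_of_dvd (ρ g) (hU g hg.1)
  have hcomm : ∀ u ∈ H, ∀ h ∈ H, ρ u * ρ h = ρ h * ρ u := by
    intro u hu0 h hh0
    refine comm_of_span hp2 ρ u h (fun i j => ?_) (hW2 h (MonoidHom.mem_ker.1 hh0.2))
    exact (dvd_pow_self _ (by norm_num)).trans (hU u hu0.1 i j)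
  have hell : ∀ (i j : Fin m) (a : H),
      Pool.Agent.Lib.MP_ca71b5_nt.ell (ρ (a : Ω ≃ₐ[K] Ω)) i j = 0 := by
    intro i j
    refine no_Zp_open p H hHo
      (fun a => Pool.Agent.Lib.MP_ca71b5_nt.ell (ρ (a : Ω ≃ₐ[K] Ω)) i j) ?_ ?_ ?_
    · have h2 := Pool.Agent.Lib.MP_ca71b5_nt.ell_continuous (fun a : H => ρ (a : Ω ≃ₐ[K] Ω))
        (hc.comp continuous_subtype_val) 0 (fun a => (hsm a a.2).2)
      exact h2.matrix_elem i j
    · intro a b
      have h2 : ρ ((a * b : H) : Ω ≃ₐ[K] Ω) = ρ (a : Ω ≃ₐ[K] Ω) * ρ (b : Ω ≃ₐ[K] Ω) := by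
        rw [Subgroup.coe_mul, map_mul]
      have h3 := ell_mul_of_commute (ρ (a : Ω ≃ₐ[K] Ω)) (ρ (b : Ω ≃ₐ[K] Ω)) 0 (hsm a a.2).2
        (hsm b b.2).2 (hcomm a a.2 b b.2)
      simp only [h2, h3, Matrix.add_apply]
    · intro h hI
      have h2 : ρ (h : Ω ≃ₐ[K] Ω) = 1 := rho_inertial ρ hc hu h hI
      simp only [h2, Pool.Agent.Lib.MP_ca71b5_nt.ell_one, Matrix.zero_apply]
  have hHk : H ≤ ρ.ker := by
    intro g hg
    rw [MonoidHom.mem_ker]
    refine Pool.Agent.Lib.MP_ca71b5_nt.eq_one_of_ell_eq_zero (ρ g) (hsm g hg).1 ?_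
    ext i j
    exact hell i j ⟨g, hg⟩
  obtain ⟨L, -, -, hLf, -, hLi⟩ := exists_field_of_open H hHn hHo
  have hidx : H.index ≠ 0 := by rw [← hLi]; exact Module.finrank_pos.ne'
  have hki : ρ.ker.index ≠ 0 := by
    intro h0
    have := Subgroup.index_dvd_of_le hHk
    rw [h0] at this
    exact hidx (Nat.eq_zero_of_zero_dvd this)
  rw [Subgroup.index_ker] at hki
  have hfin : Finite ρ.range := Nat.finite_of_card_ne_zero hki
  have h3 : ((ρ.range : Subgroup _) : Set (Matrix.GeneralLinearGroup (Fin m) (PadicInt p))).Finite :=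
    hfin
  rwa [MonoidHom.coe_range] at h3

end Pool.Agent.MPca71X
end

section
set_option autoImplicit false

/-! Job M4c (easy-medium): the exponents. -/

namespace Pool.Agent.MPca71X

/-- `J = {m : 1 < m < p^(k+1), p ∤ m, m = 1 mod p-1}` has `p ^ k - 1` elements: `m = 1 + (p-1) s`,
`0 ≤ s < 1 + p + … + p^k`, minus the multiples `p m'` of `p` (`m' = 1 mod p-1`, `m' < p^k`:
`1 + p + … + p^(k-1)` many), minus `m = 1`. -/
theorem exists_exps (p : ℕ) [Fact p.Prime] (hp2 : p ≠ 2) (k t : ℕ) (ht : t + 1 ≤ p ^ k) :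
    ∃ m : Fin t → ℕ, Function.Injective m ∧ ∀ j, 1 < m j ∧ m j < p ^ (k + 1) ∧ ¬ p ∣ m j ∧
      (p - 1) ∣ (m j - 1) := by
  have hp : p.Prime := Fact.out
  have hp3 : 3 ≤ p := by
    have := hp.two_le
    omega
  have hr : ∀ n : ℕ, ((p - 2) * n) % (p - 1) < p - 1 := fun n => Nat.mod_lt _ (by omega)
  refine ⟨fun j => p * (j + 1) + 1 + ((p - 2) * (j + 1)) % (p - 1), ?_, ?_⟩
  · intro i j hij
    have hij' : p * ((i : ℕ) + 1) + 1 + ((p - 2) * ((i : ℕ) + 1)) % (p - 1) =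
      p * ((j : ℕ) + 1) + 1 + ((p - 2) * ((j : ℕ) + 1)) % (p - 1) := hij
    have hdiv : ∀ n : ℕ, (p * n + 1 + ((p - 2) * n) % (p - 1)) / p = n := by
      intro n
      rw [add_assoc, Nat.mul_add_div (by omega), Nat.div_eq_of_lt (by have := hr n; omega),
        add_zero]
    have h1 := congrArg (fun x => x / p) hij'
    simp only [hdiv] at h1
    exact Fin.ext (by omega)
  · intro j
    have hj := j.2
    obtain ⟨n, hn⟩ : ∃ n : ℕ, n = (j : ℕ) + 1 := ⟨_, rfl⟩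
    have hn1 : 1 ≤ n := by omega
    have hn2 : n + 1 ≤ p ^ k := by omega
    have hrn := hr n
    have hmod : p * n + ((p - 2) * n) % (p - 1) = (p - 1) * (2 * n - ((p - 2) * n) / (p - 1)) := by
      obtain ⟨q, rfl⟩ : ∃ q, p = q + 2 := ⟨p - 2, by omega⟩
      have h2 := Nat.div_add_mod ((q + 2 - 2) * n) (q + 2 - 1)
      have h3 : (q + 2 - 2) = q := by omega
      have h4 : (q + 2 - 1) = q + 1 := by omega
      rw [h3, h4] at h2 ⊢
      have h5 : q * n / (q + 1) ≤ n := by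
        apply Nat.div_le_of_le_mul
        nlinarith
      obtain ⟨s, hs⟩ : ∃ s, 2 * n = q * n / (q + 1) + s := ⟨2 * n - q * n / (q + 1), by omega⟩
      have h6 : 2 * n - q * n / (q + 1) = s := by omega
      rw [h6]
      have h7 : (q + 1) * (2 * n) = (q + 1) * (q * n / (q + 1)) + (q + 1) * s := by
        rw [← mul_add, ← hs]
      nlinarith
    have hval : p * ((j : ℕ) + 1) + 1 + ((p - 2) * ((j : ℕ) + 1)) % (p - 1) =
        p * n + 1 + ((p - 2) * n) % (p - 1) := by rw [hn]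
    change 1 < p * ((j : ℕ) + 1) + 1 + ((p - 2) * ((j : ℕ) + 1)) % (p - 1) ∧
      p * ((j : ℕ) + 1) + 1 + ((p - 2) * ((j : ℕ) + 1)) % (p - 1) < p ^ (k + 1) ∧
      ¬ p ∣ p * ((j : ℕ) + 1) + 1 + ((p - 2) * ((j : ℕ) + 1)) % (p - 1) ∧
      (p - 1) ∣ p * ((j : ℕ) + 1) + 1 + ((p - 2) * ((j : ℕ) + 1)) % (p - 1) - 1
    rw [hval]
    refine ⟨?_, ?_, ?_, ?_⟩
    · have : 1 ≤ p * n := Nat.mul_pos (by omega) hn1
      omega
    · have h8 : p * (n + 1) ≤ p * p ^ k := Nat.mul_le_mul_left p hn2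
      rw [pow_succ, mul_comm (p ^ k) p]
      rw [mul_add, mul_one] at h8
      omega
    · intro h9
      rw [add_assoc, Nat.dvd_add_right (dvd_mul_right p n)] at h9
      have := Nat.le_of_dvd (by omega) h9
      omega
    · have h10 : p * n + 1 + ((p - 2) * n) % (p - 1) - 1 = p * n + ((p - 2) * n) % (p - 1) := by
        omega
      rw [h10, hmod]
      exact dvd_mul_right _ _

end Pool.Agent.MPca71X
end
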