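import Pool.Agent.Lib.MP_ca71b5_ntX.B6a
import Pool.Agent.Lib.MP_ca71b5_ntX.A6a

section
set_option autoImplicit false

/-! Job B4 (medium-easy): the logarithm of the Dirichlet series. -/

namespace Pool.Agent.MPca71X

variable {Q A : Type} [AddCommGroup A] [Finite A] {N : Q → ℕ} {cl : Q → A} {θ κ C : ℝ}

/-- `zeta_summable`, restricted to `f = single q 1`. -/
theorem prime_summable (hS : ASys N cl θ κ C) (s : ℝ) (hs : 1 < s) :
    Summable (fun q : Q => (N q : ℝ) ^ (-s)) := by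
  have h := (zeta_summable hS s hs).comp_injective
    (Finsupp.single_left_injective (α := Q) (M := ℕ) one_ne_zero)
  refine h.congr fun q => ?_
  simp only [Function.comp_apply, nmF]
  rw [Finsupp.prod_single_index (by simp)]
  simp

private lemma b4_sum (χ : AddChar A ℂ) (S : Finset Q) (g : Q → A) :
    χ (∑ q ∈ S, g q) = ∏ q ∈ S, χ (g q) := by
  classical
  induction S using Finset.induction_on with
  | empty => simp
  | insert a S ha ih => rw [Finset.sum_insert ha, Finset.prod_insert ha, AddChar.map_add_eq_mul, ih]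

private lemma b4_prod (χ : AddChar A ℂ) (s : ℝ) (f : Q →₀ ℕ) :
    f.prod (fun q k => (χ (cl q) * (((N q : ℝ) ^ (-s) : ℝ) : ℂ)) ^ k) =
      χ (clF cl f) * (((nmF N f : ℝ) ^ (-s) : ℝ) : ℂ) := by
  classical
  have h1 : χ (clF cl f) = f.prod (fun q k => χ (cl q) ^ k) := by
    unfold clF Finsupp.sum Finsupp.prod
    rw [b4_sum]
    exact Finset.prod_congr rfl fun q _ => AddChar.map_nsmul_eq_pow _ _ _
  have h2 : (((nmF N f : ℝ) ^ (-s) : ℝ) : ℂ) =
      f.prod (fun q k => (((N q : ℝ) ^ (-s) : ℝ) : ℂ) ^ k) := by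
    unfold nmF Finsupp.prod
    push_cast
    rw [← Real.finsetProd_rpow _ _ (fun q _ => by positivity)]
    rw [Complex.ofReal_prod]
    refine Finset.prod_congr rfl fun q _ => ?_
    rw [← Complex.ofReal_pow]
    congr 1
    rw [← Real.rpow_natCast, ← Real.rpow_natCast, ← Real.rpow_mul (by positivity),
      ← Real.rpow_mul (by positivity), mul_comm]
  rw [h1, h2]
  unfold Finsupp.prod
  rw [← Finset.prod_mul_distrib]
  exact Finset.prod_congr rfl fun q _ => mul_pow _ _ _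

private lemma b4_norm (χ : AddChar A ℂ) (s : ℝ) (q : Q) :
    ‖χ (cl q) * (((N q : ℝ) ^ (-s) : ℝ) : ℂ)‖ = (N q : ℝ) ^ (-s) := by
  rw [norm_mul, AddChar.norm_apply, one_mul, Complex.norm_real, Real.norm_of_nonneg]
  positivity

/-- `euler_abs` with `z q = χ (cl q) (N q)^(-s)`, `‖z q‖ = (N q)^(-s) ≤ 1/2` and
`χ (clF f) nmF^(-s) = ∏ z^f`; then `log_norm_one_sub` and
`∑ (N q)^(-2s) ≤ ∑ (N q)^(-2) = D`. -/
theorem log_Z (hS : ASys N cl θ κ C) : ∃ D : ℝ, ∀ (χ : AddChar A ℂ) (s : ℝ), 1 < s →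
    Zf N cl χ s ≠ 0 ∧ |Real.log ‖Zf N cl χ s‖ - PR N cl χ s| ≤ D := by
  refine ⟨∑' q : Q, (N q : ℝ) ^ (-(2 : ℝ)), fun χ s hs => ?_⟩
  set z : Q → ℂ := fun q => χ (cl q) * (((N q : ℝ) ^ (-s) : ℝ) : ℂ) with hz
  have hzn : ∀ q, ‖z q‖ = (N q : ℝ) ^ (-s) := fun q => b4_norm χ s q
  have hN : ∀ q, (2 : ℝ) ≤ N q := fun q => by exact_mod_cast hS.two q
  have hzle : ∀ q, ‖z q‖ ≤ 1 / 2 := by
    intro q
    rw [hzn]
    calc (N q : ℝ) ^ (-s) ≤ (2 : ℝ) ^ (-s) :=
          Real.rpow_le_rpow_of_nonpos (by norm_num) (hN q) (by linarith)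
      _ ≤ (2 : ℝ) ^ (-1 : ℝ) := Real.rpow_le_rpow_of_exponent_le (by norm_num) (by linarith)
      _ = 1 / 2 := by
          rw [Real.rpow_neg_one]
          norm_num
  have hzlt : ∀ q, ‖z q‖ < 1 := fun q => lt_of_le_of_lt (hzle q) (by norm_num)
  have hprod : ∀ f : Q →₀ ℕ, f.prod (fun q k => z q ^ k) =
      χ (clF cl f) * (((nmF N f : ℝ) ^ (-s) : ℝ) : ℂ) := fun f => b4_prod χ s f
  have hsum : Summable (fun f : Q →₀ ℕ => f.prod (fun q k => ‖z q‖ ^ k)) := by
    refine (zeta_summable hS s hs).congr fun f => ?_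
    have h1 : f.prod (fun q k => ‖z q‖ ^ k) = ‖f.prod (fun q k => z q ^ k)‖ := by
      unfold Finsupp.prod
      rw [norm_prod]
      exact Finset.prod_congr rfl fun q _ => (norm_pow _ _).symm
    rw [h1, hprod, norm_mul, AddChar.norm_apply, one_mul, Complex.norm_real, Real.norm_of_nonneg]
    positivity
  obtain ⟨hs1, hne, hlog⟩ := euler_abs z hzlt hsum
  have hZ : (∑' f : Q →₀ ℕ, f.prod (fun q k => z q ^ k)) = Zf N cl χ s := by
    unfold Zf
    exact tsum_congr hprod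
  rw [hZ] at hne hlog
  refine ⟨hne, ?_⟩
  have hre : ∀ q, (χ (cl q)).re * (N q : ℝ) ^ (-s) = (z q).re := by
    intro q
    simp only [hz]
    rw [mul_comm, mul_comm (χ (cl q)), Complex.re_ofReal_mul]
  have hPRs : Summable (fun q : Q => (z q).re) :=
    Summable.of_norm_bounded hs1 fun q => by
      rw [Real.norm_eq_abs]
      exact Complex.abs_re_le_norm _
  have hPR : HasSum (fun q : Q => (z q).re) (PR N cl χ s) := by
    have : PR N cl χ s = ∑' q : Q, (z q).re := by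
      unfold PR
      exact tsum_congr hre
    rw [this]
    exact hPRs.hasSum
  have hdiff := hlog.sub hPR
  have h2 : Summable (fun q : Q => (N q : ℝ) ^ (-(2 : ℝ))) :=
    prime_summable hS 2 (by norm_num)
  have hb : ∀ q, ‖- Real.log ‖1 - z q‖ - (z q).re‖ ≤ (N q : ℝ) ^ (-(2 : ℝ)) := by
    intro q
    rw [Real.norm_eq_abs]
    refine (log_norm_one_sub (z q) (hzle q)).trans ?_
    rw [hzn, ← Real.rpow_natCast, ← Real.rpow_mul (by positivity)]
    refine Real.rpow_le_rpow_of_exponent_le (by linarith [hN q]) ?_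
    push_cast
    linarith
  rw [← Real.norm_eq_abs, ← hdiff.tsum_eq]
  exact tsum_of_norm_bounded h2.hasSum hb

end Pool.Agent.MPca71X
end

section
set_option autoImplicit false
open scoped NumberField
open NumberField NumberField.mixedEmbedding NumberField.Units MeasureTheory
  NumberField.Units.dirichletUnitTheorem

/-! Job A6 (medium). The counting lemma for one ideal class. -/

namespace Pool.Agent.MPca71X

variable (K : Type) [Field K] [NumberField K]

/-- Job A6b. The core lemma. `w ∑_a h(g a) bF(N a N I / T^n) = ∑_{u ∈ I} h(u mod m) fK(u/T)`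
by `unfold_sum`; split into the residue classes `r` modulo `m` (for each `r` choose `u0 ∈ I`
with `u0 = r mod m`, `I + m = 1`), apply `coset_sum`, put `T = (x N I)^(1/n)`
(`T ≥ 1` as `x ≥ 1`, `N I ≥ 1`). `c1 = c0 / (w N m)`. -/
theorem core_sum (m : Ideal (𝓞 K)) (hm : m ≠ ⊥) [Fintype (𝓞 K ⧸ m)] :
    ∃ c1 : ℝ, 0 < c1 ∧ ∀ (I : Ideal (𝓞 K)), I ≠ ⊥ → IsCoprime I m →
    ∀ h : (𝓞 K ⧸ m) → ℂ, (∀ (ε : (𝓞 K)ˣ) (x : 𝓞 K),
      h (Ideal.Quotient.mk m (ε * x)) = h (Ideal.Quotient.mk m x)) →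
    ∀ g : {a : Ideal (𝓞 K) // a ≠ ⊥ ∧ Submodule.IsPrincipal (a * I)} → 𝓞 K,
      (∀ a, Ideal.span {g a} = a.1 * I) → ∃ B : ℝ, ∀ x : ℝ, 1 ≤ x →
      ‖∑' a : {a : Ideal (𝓞 K) // a ≠ ⊥ ∧ Submodule.IsPrincipal (a * I)},
          h (Ideal.Quotient.mk m (g a)) * ((bF ((Ideal.absNorm a.1 : ℝ) / x) : ℝ) : ℂ) -
        ((c1 * x : ℝ) : ℂ) * ∑ r, h r‖ ≤ B * x ^ (1 - (1 : ℝ) / Module.finrank ℚ K) := by
  classical
  obtain ⟨c0, hc0, H⟩ := coset_sum K
  have hw : (0 : ℝ) < (torsionOrder K : ℝ) := by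
    exact_mod_cast Nat.pos_of_ne_zero (torsionOrder_ne_zero K)
  have hNm : (0 : ℝ) < (Ideal.absNorm m : ℝ) := by
    exact_mod_cast Nat.pos_of_ne_zero (by rwa [Ne, Ideal.absNorm_eq_zero_iff])
  have hn : 0 < Module.finrank ℚ K := Module.finrank_pos
  refine ⟨c0 / (torsionOrder K * Ideal.absNorm m), by positivity, ?_⟩
  intro I hI hcop h hh g hg
  have hNI0 : 0 < Ideal.absNorm I := Nat.pos_of_ne_zero (by rwa [Ne, Ideal.absNorm_eq_zero_iff])
  have hNI : (0 : ℝ) < (Ideal.absNorm I : ℝ) := by exact_mod_cast hNI0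
  have hNI1 : (1 : ℝ) ≤ (Ideal.absNorm I : ℝ) := by exact_mod_cast hNI0
  -- representatives
  have hrep : ∀ r : 𝓞 K ⧸ m, ∃ u0 : 𝓞 K, u0 ∈ I ∧ Ideal.Quotient.mk m u0 = r := by
    intro r
    obtain ⟨t, rfl⟩ := Ideal.Quotient.mk_surjective r
    obtain ⟨i, hi, j, hj, hij⟩ := Ideal.isCoprime_iff_exists.1 hcop
    refine ⟨i * t, I.mul_mem_right t hi, ?_⟩
    rw [Ideal.Quotient.eq]
    have : i * t - t = -(j * t) := by
      have h1 : i = 1 - j := by rw [← hij]; ring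
      rw [h1]; ring
    rw [this]
    exact m.neg_mem (m.mul_mem_right t hj)
  choose u0 hu0I hu0 using hrep
  choose Br hBr using fun r => H m I hm hI hcop (u0 r) (hu0I r)
  refine ⟨(torsionOrder K : ℝ)⁻¹ * ∑ r, ‖h r‖ * (|Br r| * Ideal.absNorm I), ?_⟩
  intro x hx
  have hx0 : 0 < x := by linarith
  set n := Module.finrank ℚ K with hndef
  have hnR : (0 : ℝ) < (n : ℝ) := by exact_mod_cast hn
  set T : ℝ := (x * Ideal.absNorm I) ^ ((1 : ℝ) / n) with hT
  have hxN : 0 < x * (Ideal.absNorm I : ℝ) := by positivity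
  have hT0 : 0 < T := Real.rpow_pos_of_pos hxN _
  have hTn : T ^ n = x * Ideal.absNorm I := by
    rw [hT, ← Real.rpow_natCast, ← Real.rpow_mul hxN.le, one_div, inv_mul_cancel₀ hnR.ne',
      Real.rpow_one]
  have hT1 : 1 ≤ T := by
    rw [hT]
    exact Real.one_le_rpow (by nlinarith) (by positivity)
  have hTx : x ^ ((1 : ℝ) / n) ≤ T := by
    rw [hT]
    exact Real.rpow_le_rpow hx0.le (by nlinarith) (by positivity)
  -- the unfolded sum
  have hU := unfold_sum K I hI (fun y => h (Ideal.Quotient.mk m y)) hh g hg T hT0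
  have hfin := elt_finite K T hT0
  set Fk : 𝓞 K → ℝ := fun u => fK K (T⁻¹ • mixedEmbedding K (u : K)) with hFk
  set A : (𝓞 K ⧸ m) → Set (𝓞 K) := fun r => {u | u ∈ I ∧ u - u0 r ∈ m} with hA
  have hS : ∀ r, ∑' u : {u : 𝓞 K // u ∈ I ∧ u - u0 r ∈ m},
      fK K (T⁻¹ • mixedEmbedding K ((u : 𝓞 K) : K)) = ∑' u, (A r).indicator Fk u := by
    intro r
    exact tsum_subtype (A r) Fk
  have hpt : ∀ u : 𝓞 K, (I : Set (𝓞 K)).indicator
      (fun u => h (Ideal.Quotient.mk m u) * ((Fk u : ℝ) : ℂ)) u =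
      ∑ r, h r * (((A r).indicator Fk u : ℝ) : ℂ) := by
    intro u
    by_cases huI : u ∈ I
    · rw [Set.indicator_of_mem (by exact huI), Finset.sum_eq_single (Ideal.Quotient.mk m u)]
      · rw [Set.indicator_of_mem]
        refine ⟨huI, ?_⟩
        rw [← Ideal.Quotient.eq, hu0]
      · intro r _ hr
        rw [Set.indicator_of_notMem, Complex.ofReal_zero, mul_zero]
        rintro ⟨_, h2⟩
        apply hr
        rw [← Ideal.Quotient.eq, hu0] at h2
        exact h2.symm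
      · intro h1
        exact absurd (Finset.mem_univ _) h1
    · rw [Set.indicator_of_notMem (by exact huI)]
      symm
      refine Finset.sum_eq_zero fun r _ => ?_
      rw [Set.indicator_of_notMem, Complex.ofReal_zero, mul_zero]
      rintro ⟨h1, _⟩
      exact huI h1
  have hsummR : ∀ r, Summable ((A r).indicator Fk) := by
    intro r
    refine summable_of_hasFiniteSupport (hfin.subset ?_)
    intro u hu
    rw [Function.mem_support] at hu
    exact fun h0 => hu (by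
      by_cases huA : u ∈ A r
      · rw [Set.indicator_of_mem huA]; exact h0
      · rw [Set.indicator_of_notMem huA])
  have hL : ∑' u : I, h (Ideal.Quotient.mk m (u : 𝓞 K)) *
      ((fK K (T⁻¹ • mixedEmbedding K ((u : 𝓞 K) : K)) : ℝ) : ℂ) =
      ∑ r, h r * ((∑' u : {u : 𝓞 K // u ∈ I ∧ u - u0 r ∈ m},
        fK K (T⁻¹ • mixedEmbedding K ((u : 𝓞 K) : K)) : ℝ) : ℂ) := by
    have e1 : ∑' u : I, h (Ideal.Quotient.mk m (u : 𝓞 K)) *
        ((fK K (T⁻¹ • mixedEmbedding K ((u : 𝓞 K) : K)) : ℝ) : ℂ) =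
        ∑' u : 𝓞 K, (I : Set (𝓞 K)).indicator
          (fun u => h (Ideal.Quotient.mk m u) * ((Fk u : ℝ) : ℂ)) u :=
      tsum_subtype (I : Set (𝓞 K)) (fun u => h (Ideal.Quotient.mk m u) * ((Fk u : ℝ) : ℂ))
    rw [e1, tsum_congr hpt, Summable.tsum_finsetSum]
    · refine Finset.sum_congr rfl fun r _ => ?_
      rw [tsum_mul_left, hS r, Complex.ofReal_tsum]
    · intro r _
      exact (Complex.summable_ofReal.2 (hsummR r)).mul_left _
  rw [hL] at hU
  have hbF : ∀ a : {a : Ideal (𝓞 K) // a ≠ ⊥ ∧ Submodule.IsPrincipal (a * I)},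
      (Ideal.absNorm a.1 : ℝ) * (Ideal.absNorm I : ℝ) / T ^ n = (Ideal.absNorm a.1 : ℝ) / x := by
    intro a
    rw [hTn]
    field_simp
  rw [← hndef] at hU
  simp only [hbF] at hU
  set S := ∑' a : {a : Ideal (𝓞 K) // a ≠ ⊥ ∧ Submodule.IsPrincipal (a * I)},
    h (Ideal.Quotient.mk m (g a)) * ((bF ((Ideal.absNorm a.1 : ℝ) / x) : ℝ) : ℂ) with hSdef
  set Sr : (𝓞 K ⧸ m) → ℝ := fun r => ∑' u : {u : 𝓞 K // u ∈ I ∧ u - u0 r ∈ m},
    fK K (T⁻¹ • mixedEmbedding K ((u : 𝓞 K) : K)) with hSr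
  have hwC : (torsionOrder K : ℂ) ≠ 0 := by exact_mod_cast hw.ne'
  have hSeq : S - ((c0 / (torsionOrder K * Ideal.absNorm m) * x : ℝ) : ℂ) * ∑ r, h r =
      (torsionOrder K : ℂ)⁻¹ * ∑ r, h r * (((Sr r - c0 * x / Ideal.absNorm m : ℝ)) : ℂ) := by
    have e2 : S = (torsionOrder K : ℂ)⁻¹ * ∑ r, h r * ((Sr r : ℝ) : ℂ) := by
      rw [hU, ← mul_assoc, inv_mul_cancel₀ hwC, one_mul]
    rw [e2]
    simp only [Complex.ofReal_sub, mul_sub, Finset.sum_sub_distrib, ← Finset.sum_mul]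
    congr 1
    have hNmC : ((Ideal.absNorm m : ℝ) : ℂ) ≠ 0 := by exact_mod_cast hNm.ne'
    push_cast
    push_cast at hNmC
    field_simp
  rw [hSeq, norm_mul, norm_inv, mul_assoc]
  have hnw : ‖(torsionOrder K : ℂ)‖ = (torsionOrder K : ℝ) := by
    rw [Complex.norm_natCast]
  rw [hnw]
  refine mul_le_mul_of_nonneg_left ?_ (by positivity)
  rw [Finset.sum_mul]
  refine (norm_sum_le _ _).trans (Finset.sum_le_sum fun r _ => ?_)
  rw [norm_mul, mul_assoc]
  refine mul_le_mul_of_nonneg_left ?_ (norm_nonneg _)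
  rw [Complex.norm_real, Real.norm_eq_abs]
  have h1 := hBr r T hT1
  have h2 : c0 * T ^ n / ((Ideal.absNorm I : ℝ) * (Ideal.absNorm m : ℝ)) =
      c0 * x / Ideal.absNorm m := by
    rw [hTn]
    field_simp
  rw [h2] at h1
  refine h1.trans ?_
  have h3 : x / T ≤ x ^ (1 - (1 : ℝ) / n) := by
    rw [Real.rpow_sub hx0, Real.rpow_one]
    exact div_le_div_of_nonneg_left hx0.le (Real.rpow_pos_of_pos hx0 _) hTx
  calc Br r * T ^ n / T = Br r * ((Ideal.absNorm I : ℝ) * (x / T)) := by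
        rw [hTn]; ring
    _ ≤ |Br r| * ((Ideal.absNorm I : ℝ) * (x / T)) :=
        mul_le_mul_of_nonneg_right (le_abs_self _) (by positivity)
    _ ≤ |Br r| * ((Ideal.absNorm I : ℝ) * x ^ (1 - (1 : ℝ) / n)) := by gcongr
    _ = |Br r| * (Ideal.absNorm I : ℝ) * x ^ (1 - (1 : ℝ) / n) := by ring

end Pool.Agent.MPca71X
end

section
set_option autoImplicit false
open scoped NumberField
open NumberField IsDedekindDomain

/-! Job A8a (medium): asymptotic counting for characters of the class group. -/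

namespace Pool.Agent.MPca71X

variable (K : Type) [Field K] [NumberField K]

/-- Job A8a. The class of a principal ideal `(u)` prime to `m` depends only on `u mod m`: if
`u - u' ∈ m`, take `v` with `u v - 1 ∈ m`; `cl (v u) = 0 = cl (v u')`. -/
theorem cl_congr {m : Ideal (𝓞 K)} {p : ℕ} {A : Type} [AddCommGroup A] {cl : Ideal (𝓞 K) → A}
    (hcl : ClPack m p cl) (u u' : 𝓞 K) (hu : Cop m (Ideal.span {u}))
    (hu' : Cop m (Ideal.span {u'})) (h : u - u' ∈ m) :
    cl (Ideal.span {u}) = cl (Ideal.span {u'}) := by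
  have hu0 : u ≠ 0 := by
    rintro rfl
    exact hu.1 (by simp)
  have hu0' : u' ≠ 0 := by
    rintro rfl
    exact hu'.1 (by simp)
  obtain ⟨v, hv0, hv⟩ : ∃ v : 𝓞 K, v ≠ 0 ∧ v * u - 1 ∈ m := by
    obtain ⟨a, ha, b, hb, hab⟩ := Ideal.isCoprime_iff_exists.1 hu.2
    obtain ⟨v, rfl⟩ := Ideal.mem_span_singleton'.1 ha
    by_cases hv : v = 0
    · rw [hv, zero_mul, zero_add] at hab
      have h1 : m = ⊤ := (Ideal.eq_top_iff_one m).2 (by rw [← hab]; exact hb)
      exact ⟨1, one_ne_zero, by rw [h1]; exact Submodule.mem_top⟩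
    · refine ⟨v, hv, ?_⟩
      have h1 : v * u - 1 = -b := by rw [← hab]; ring
      rw [h1]
      exact m.neg_mem hb
  have hvC : Cop m (Ideal.span {v}) := by
    refine ⟨?_, Ideal.isCoprime_iff_exists.2 ⟨v * u, ?_, 1 - v * u, ?_, by ring⟩⟩
    · rw [Ne, Ideal.span_singleton_eq_bot]
      exact hv0
    · exact Ideal.mem_span_singleton'.2 ⟨u, by ring⟩
    · have h1 : 1 - v * u = -(v * u - 1) := by ring
      rw [h1]
      exact m.neg_mem hv
  have hv' : v * u' - 1 ∈ m := by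
    have h1 : v * u' - 1 = (v * u - 1) - v * (u - u') := by ring
    rw [h1]
    exact m.sub_mem hv (m.mul_mem_left v h)
  have h1 : cl (Ideal.span {v}) + cl (Ideal.span {u}) = 0 := by
    rw [← hcl.mul _ _ hvC hu, Ideal.span_singleton_mul_span_singleton]
    exact hcl.one _ (mul_ne_zero hv0 hu0) hv
  have h2 : cl (Ideal.span {v}) + cl (Ideal.span {u'}) = 0 := by
    rw [← hcl.mul _ _ hvC hu', Ideal.span_singleton_mul_span_singleton]
    exact hcl.one _ (mul_ne_zero hv0 hu0') hv'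
  exact add_left_cancel (h1.trans h2.symm)

/-- The class of an ideal in the class group. -/
private theorem A8a_class : ∃ cg : Ideal (𝓞 K) → ClassGroup (𝓞 K),
    (∀ a b, a ≠ ⊥ → b ≠ ⊥ → cg (a * b) = cg a * cg b) ∧
      (∀ a, a ≠ ⊥ → (cg a = 1 ↔ Submodule.IsPrincipal a)) ∧ ∀ c, ∃ a, a ≠ ⊥ ∧ cg a = c := by
  classical
  refine ⟨fun a => if h : a = ⊥ then 1 else
    ClassGroup.mk0 ⟨a, mem_nonZeroDivisors_of_ne_zero h⟩, ?_, ?_, ?_⟩
  · intro a b ha hb
    have hab : a * b ≠ ⊥ := mul_ne_zero ha hb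
    simp only [ha, hb, hab, dif_neg, not_false_eq_true]
    rw [← map_mul]
    rfl
  · intro a ha
    simp only [ha, dif_neg, not_false_eq_true]
    exact ClassGroup.mk0_eq_one_iff _
  · intro c
    obtain ⟨⟨a, ha⟩, rfl⟩ := ClassGroup.mk0_surjective c
    have ha0 : a ≠ ⊥ := nonZeroDivisors.ne_zero ha
    refine ⟨a, ha0, ?_⟩
    simp only [ha0, dif_neg, not_false_eq_true]

private theorem A8a_unit (m : Ideal (𝓞 K)) {u : 𝓞 K} (hu : u ≠ 0) :
    Cop m (Ideal.span {u}) ↔ IsUnit (Ideal.Quotient.mk m u) := by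
  constructor
  · rintro ⟨-, h⟩
    obtain ⟨a, ha, b, hb, hab⟩ := Ideal.isCoprime_iff_exists.1 h
    obtain ⟨v, rfl⟩ := Ideal.mem_span_singleton'.1 ha
    refine isUnit_iff_exists_inv.2 ⟨Ideal.Quotient.mk m v, ?_⟩
    rw [← map_mul, ← map_one (Ideal.Quotient.mk m), Ideal.Quotient.mk_eq_mk_iff_sub_mem]
    have h1 : u * v - 1 = -b := by rw [← hab]; ring
    rw [h1]
    exact m.neg_mem hb
  · intro h
    obtain ⟨w, hw⟩ := isUnit_iff_exists_inv.1 h
    obtain ⟨v, rfl⟩ := Ideal.Quotient.mk_surjective w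
    rw [← map_mul, ← map_one (Ideal.Quotient.mk m), Ideal.Quotient.mk_eq_mk_iff_sub_mem] at hw
    refine ⟨?_, Ideal.isCoprime_iff_exists.2 ⟨u * v, ?_, 1 - u * v, ?_, by ring⟩⟩
    · rw [Ne, Ideal.span_singleton_eq_bot]
      exact hu
    · exact Ideal.mem_span_singleton'.2 ⟨v, by ring⟩
    · have h1 : 1 - u * v = -(u * v - 1) := by ring
      rw [h1]
      exact m.neg_mem hw

private theorem A8a_lift (m : Ideal (𝓞 K)) (hm : m ≠ ⊥) (r : 𝓞 K ⧸ m) :
    ∃ u : 𝓞 K, u ≠ 0 ∧ Ideal.Quotient.mk m u = r := by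
  obtain ⟨u, rfl⟩ := Ideal.Quotient.mk_surjective r
  by_cases hu : u = 0
  · obtain ⟨z, hz, hz0⟩ := Submodule.exists_mem_ne_zero_of_ne_bot hm
    refine ⟨z, hz0, ?_⟩
    rw [hu, map_zero, Ideal.Quotient.eq_zero_iff_mem]
    exact hz
  · exact ⟨u, hu, rfl⟩

/-- The function on the residue classes given by a character. -/
private theorem A8a_h (m : Ideal (𝓞 K)) (hm : m ≠ ⊥) {p : ℕ} {A : Type} [AddCommGroup A]
    {cl : Ideal (𝓞 K) → A} (hcl : ClPack m p cl) (χ : AddChar A ℂ) :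
    ∃ h : (𝓞 K ⧸ m) → ℂ,
      (∀ u, Cop m (Ideal.span {u}) → h (Ideal.Quotient.mk m u) = χ (cl (Ideal.span {u}))) ∧
      (∀ r, ¬ IsUnit r → h r = 0) ∧ (∀ r r', IsUnit r → h (r * r') = h r * h r') ∧
      (∀ (ε : (𝓞 K)ˣ) (x : 𝓞 K),
        h (Ideal.Quotient.mk m (ε * x)) = h (Ideal.Quotient.mk m x)) := by
  classical
  choose L hL0 hL using A8a_lift K m hm
  obtain ⟨h, hh⟩ : ∃ h : (𝓞 K ⧸ m) → ℂ,
      ∀ r, h r = if IsUnit r then χ (cl (Ideal.span {L r})) else 0 := ⟨_, fun r => rfl⟩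
  have h1 : ∀ u, Cop m (Ideal.span {u}) →
      h (Ideal.Quotient.mk m u) = χ (cl (Ideal.span {u})) := by
    intro u hu
    have hu0 : u ≠ 0 := by
      rintro rfl
      exact hu.1 (by simp)
    have hunit := (A8a_unit K m hu0).1 hu
    rw [hh, if_pos hunit]
    congr 1
    refine cl_congr K hcl _ _ ?_ hu ?_
    · rw [A8a_unit K m (hL0 _), hL]
      exact hunit
    · rw [← Ideal.Quotient.mk_eq_mk_iff_sub_mem, hL]
  have h2 : ∀ r, ¬ IsUnit r → h r = 0 := fun r hr => by rw [hh, if_neg hr]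
  have h3 : ∀ r r', IsUnit r → h (r * r') = h r * h r' := by
    intro r r' hr
    by_cases hr' : IsUnit r'
    · have e : r * r' = Ideal.Quotient.mk m (L r * L r') := by rw [map_mul, hL, hL]
      have c1 : Cop m (Ideal.span {L r}) := by rw [A8a_unit K m (hL0 _), hL]; exact hr
      have c2 : Cop m (Ideal.span {L r'}) := by rw [A8a_unit K m (hL0 _), hL]; exact hr'
      have c3 : Cop m (Ideal.span {L r * L r'}) := by
        rw [A8a_unit K m (mul_ne_zero (hL0 _) (hL0 _)), map_mul, hL, hL]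
        exact hr.mul hr'
      rw [e, h1 _ c3, ← Ideal.span_singleton_mul_span_singleton, hcl.mul _ _ c1 c2,
        AddChar.map_add_eq_mul, ← h1 _ c1, ← h1 _ c2, hL, hL]
    · rw [h2 r' hr', mul_zero, h2]
      intro h
      exact hr' (isUnit_of_mul_isUnit_right h)
  refine ⟨h, h1, h2, h3, ?_⟩
  intro ε x
  have hε : IsUnit (Ideal.Quotient.mk m (ε : 𝓞 K)) := ε.isUnit.map _
  have hε0 : (ε : 𝓞 K) ≠ 0 := ε.ne_zero
  rw [map_mul, h3 _ _ hε, h1 _ ((A8a_unit K m hε0).2 hε)]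
  have e : (Ideal.span {(ε : 𝓞 K)} : Ideal (𝓞 K)) = Ideal.span {1} := by
    rw [Ideal.span_singleton_one, Ideal.span_singleton_eq_top.2 ε.isUnit]
  rw [e, hcl.one 1 one_ne_zero (by rw [sub_self]; exact m.zero_mem), AddChar.map_zero_eq_one,
    one_mul]

private theorem A8a_copmul {m a b : Ideal (𝓞 K)} (ha : Cop m a) (hb : Cop m b) :
    Cop m (a * b) := ⟨mul_ne_zero ha.1 hb.1, IsCoprime.mul_left ha.2 hb.2⟩

/-- Orthogonality. -/
private theorem A8a_orth (m : Ideal (𝓞 K)) (hm : m ≠ ⊥) [Fintype (𝓞 K ⧸ m)] {p : ℕ} {A : Type}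
    [AddCommGroup A] {cl : Ideal (𝓞 K) → A} (hcl : ClPack m p cl) (χ : AddChar A ℂ)
    (cg : Ideal (𝓞 K) → ClassGroup (𝓞 K))
    (hcg : ∀ a b, a ≠ ⊥ → b ≠ ⊥ → cg (a * b) = cg a * cg b)
    (hcg1 : ∀ a, a ≠ ⊥ → (cg a = 1 ↔ Submodule.IsPrincipal a))
    (b : ClassGroup (𝓞 K) → Ideal (𝓞 K)) (hb : ∀ c, Cop m (b c)) (hbc : ∀ c, cg (b c) = c⁻¹)
    (h : (𝓞 K ⧸ m) → ℂ)
    (h1 : ∀ u, Cop m (Ideal.span {u}) → h (Ideal.Quotient.mk m u) = χ (cl (Ideal.span {u})))
    (h2 : ∀ r, ¬ IsUnit r → h r = 0) (h3 : ∀ r r', IsUnit r → h (r * r') = h r * h r')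
    (hχ : χ ≠ 0) : (∑ c, χ (-cl (b c))) * (∑ r, h r) = 0 := by
  classical
  by_cases hcase : ∃ r₀, IsUnit r₀ ∧ h r₀ ≠ 1
  · obtain ⟨r₀, hr₀, hne⟩ := hcase
    obtain ⟨w, rfl⟩ := hr₀
    have e : ∑ r, h r = h w * ∑ r, h r := by
      rw [Finset.mul_sum, ← Equiv.sum_comp (Units.mulLeft w)]
      exact Finset.sum_congr rfl fun r _ => h3 _ _ w.isUnit
    have e2 : (1 - h w) * ∑ r, h r = 0 := by
      rw [sub_mul, one_mul, ← e, sub_self]
    rcases mul_eq_zero.1 e2 with h4 | h4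
    · exact absurd (sub_eq_zero.1 h4).symm hne
    · rw [h4, mul_zero]
  · push Not at hcase
    have hprin : ∀ a, Cop m a → Submodule.IsPrincipal a → χ (cl a) = 1 := by
      intro a ha hap
      obtain ⟨u, hu⟩ := hap.principal
      have hu' : a = Ideal.span {u} := hu
      rw [hu'] at ha ⊢
      have hu0 : u ≠ 0 := by
        rintro rfl
        exact ha.1 (by simp)
      rw [← h1 u ha]
      exact hcase _ ((A8a_unit K m hu0).1 ha)
    -- the value of `χ` depends only on the class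
    have hφ : ∀ a c, Cop m a → cg a = c → χ (-cl (b c)) = χ (cl a) := by
      intro a c ha hac
      have h4 : Submodule.IsPrincipal (a * b c) := by
        rw [← hcg1 _ (A8a_copmul K ha (hb c)).1, hcg _ _ ha.1 (hb c).1, hac, hbc, mul_inv_cancel]
      have h5 := hprin _ (A8a_copmul K ha (hb c)) h4
      rw [hcl.mul _ _ ha (hb c), AddChar.map_add_eq_mul] at h5
      have h6 : χ (cl (b c)) * χ (-cl (b c)) = 1 := by
        rw [← AddChar.map_add_eq_mul, add_neg_cancel, AddChar.map_zero_eq_one]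
      calc χ (-cl (b c)) = (χ (cl a) * χ (cl (b c))) * χ (-cl (b c)) := by rw [h5, one_mul]
        _ = χ (cl a) * (χ (cl (b c)) * χ (-cl (b c))) := by ring
        _ = χ (cl a) := by rw [h6, mul_one]
    obtain ⟨x, hx⟩ : ∃ x, χ x ≠ 1 := by
      by_contra hno
      push Not at hno
      apply hχ
      ext x
      rw [hno, AddChar.zero_apply]
    obtain ⟨a₀, ha₀, rfl⟩ := hcl.surj x
    have e : ∑ c, χ (-cl (b c)) = χ (cl a₀) * ∑ c, χ (-cl (b c)) := by
      rw [Finset.mul_sum, ← Equiv.sum_comp (Equiv.mulLeft (cg a₀))]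
      refine Finset.sum_congr rfl fun c _ => ?_
      have h4 : cg (b c⁻¹) = c := by rw [hbc, inv_inv]
      rw [Equiv.coe_mulLeft, hφ (b c⁻¹) c (hb _) h4,
        hφ (a₀ * b c⁻¹) (cg a₀ * c) (A8a_copmul K ha₀ (hb _)) (by
          rw [hcg _ _ ha₀.1 (hb _).1, h4]), hcl.mul _ _ ha₀ (hb _), AddChar.map_add_eq_mul]
    have e2 : (1 - χ (cl a₀)) * ∑ c, χ (-cl (b c)) = 0 := by
      rw [sub_mul, one_mul, ← e, sub_self]
    rcases mul_eq_zero.1 e2 with h4 | h4
    · exact absurd (sub_eq_zero.1 h4).symm hx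
    · rw [h4, zero_mul]

/-- The decomposition of the sum. -/
private theorem A8a_dec (m : Ideal (𝓞 K)) {p : ℕ} {A : Type}
    [AddCommGroup A] {cl : Ideal (𝓞 K) → A} (hcl : ClPack m p cl) (χ : AddChar A ℂ)
    (cg : Ideal (𝓞 K) → ClassGroup (𝓞 K))
    (hcg : ∀ a b, a ≠ ⊥ → b ≠ ⊥ → cg (a * b) = cg a * cg b)
    (hcg1 : ∀ a, a ≠ ⊥ → (cg a = 1 ↔ Submodule.IsPrincipal a))
    (b : ClassGroup (𝓞 K) → Ideal (𝓞 K)) (hb : ∀ c, Cop m (b c)) (hbc : ∀ c, cg (b c) = c⁻¹)
    (h : (𝓞 K ⧸ m) → ℂ)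
    (h1 : ∀ u, Cop m (Ideal.span {u}) → h (Ideal.Quotient.mk m u) = χ (cl (Ideal.span {u})))
    (h2 : ∀ r, ¬ IsUnit r → h r = 0)
    (g : ∀ c, {a : Ideal (𝓞 K) // a ≠ ⊥ ∧ Submodule.IsPrincipal (a * b c)} → 𝓞 K)
    (hg : ∀ c a, Ideal.span {g c a} = a.1 * b c) (x : ℝ) (hx : 1 ≤ x) :
    ∑' a : {a : Ideal (𝓞 K) // Cop m a}, χ (cl a.1) *
          ((bF ((Ideal.absNorm a.1 : ℝ) / x) : ℝ) : ℂ) =
      ∑ c, χ (-cl (b c)) * ∑' a : {a : Ideal (𝓞 K) // a ≠ ⊥ ∧ Submodule.IsPrincipal (a * b c)},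
        h (Ideal.Quotient.mk m (g c a)) * ((bF ((Ideal.absNorm a.1 : ℝ) / x) : ℝ) : ℂ) := by
  classical
  have hx0 : 0 < x := by linarith
  obtain ⟨W, hW⟩ : ∃ W : Ideal (𝓞 K) → ℂ, ∀ a, W a =
      if Cop m a then χ (cl a) * ((bF ((Ideal.absNorm a : ℝ) / x) : ℝ) : ℂ) else 0 :=
    ⟨_, fun a => rfl⟩
  have hWf : (Function.support W).Finite := by
    refine (Ideal.finite_setOfPred_absNorm_le (S := 𝓞 K) ⌈x⌉₊).subset fun a ha => ?_
    by_contra hcon
    apply ha
    rw [hW]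
    split_ifs
    · have h4 : ⌈x⌉₊ < Ideal.absNorm a := by simpa using hcon
      have h5 : (⌈x⌉₊ : ℝ) < (Ideal.absNorm a : ℝ) := by exact_mod_cast h4
      rw [bF_zero_of_ge _ (by rw [one_le_div hx0]; exact (Nat.le_ceil x).trans h5.le)]
      simp
    · rfl
  obtain ⟨G, hG⟩ : ∃ G : ClassGroup (𝓞 K) → Ideal (𝓞 K) → ℂ, ∀ c a, G c a =
      if a ≠ ⊥ ∧ Submodule.IsPrincipal (a * b c) then χ (cl (b c)) * W a else 0 :=
    ⟨_, fun c a => rfl⟩
  have hGf : ∀ c, (Function.support (G c)).Finite := by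
    intro c
    refine hWf.subset fun a ha => ?_
    intro h4
    apply ha
    rw [hG, h4, mul_zero]
    split_ifs <;> rfl
  have e1 : ∑' a : {a : Ideal (𝓞 K) // Cop m a}, χ (cl a.1) *
          ((bF ((Ideal.absNorm a.1 : ℝ) / x) : ℝ) : ℂ) = ∑' a, W a := by
    rw [← Function.Injective.tsum_eq (g := (Subtype.val : {a : Ideal (𝓞 K) // Cop m a} → _))
      Subtype.val_injective]
    · refine tsum_congr fun a => ?_
      rw [hW, if_pos a.2]
    · intro a ha
      by_contra hcon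
      apply ha
      rw [hW, if_neg]
      intro h4
      exact hcon ⟨⟨a, h4⟩, rfl⟩
  have e2 : ∀ c, ∑' a : {a : Ideal (𝓞 K) // a ≠ ⊥ ∧ Submodule.IsPrincipal (a * b c)},
        h (Ideal.Quotient.mk m (g c a)) * ((bF ((Ideal.absNorm a.1 : ℝ) / x) : ℝ) : ℂ) =
      ∑' a, G c a := by
    intro c
    rw [← Function.Injective.tsum_eq
      (g := (Subtype.val : {a : Ideal (𝓞 K) // a ≠ ⊥ ∧ Submodule.IsPrincipal (a * b c)} → _))
      Subtype.val_injective]
    · refine tsum_congr fun a => ?_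
      rw [hG, if_pos a.2, hW]
      have hga := hg c a
      have hg0 : g c a ≠ 0 := by
        intro h0
        rw [h0] at hga
        have h4 : a.1 * b c = ⊥ := by rw [← hga]; simp
        exact mul_ne_zero a.2.1 (hb c).1 h4
      by_cases hca : Cop m a.1
      · rw [if_pos hca]
        have h4 : Cop m (Ideal.span {g c a}) := by
          rw [hga]
          exact A8a_copmul K hca (hb c)
        rw [h1 _ h4, hga, hcl.mul _ _ hca (hb c), AddChar.map_add_eq_mul]
        ring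
      · rw [if_neg hca, mul_zero, h2, zero_mul]
        intro h4
        rw [← A8a_unit K m hg0, hga] at h4
        exact hca ⟨a.2.1, h4.2.of_mul_left_left⟩
    · intro a ha
      by_contra hcon
      apply ha
      rw [hG, if_neg]
      intro h4
      exact hcon ⟨⟨a, h4⟩, rfl⟩
  rw [e1]
  simp_rw [e2, ← tsum_mul_left]
  rw [← Summable.tsum_finsetSum]
  · refine tsum_congr fun a => ?_
    by_cases ha : a = ⊥
    · rw [hW, if_neg (fun h4 => h4.1 ha)]
      symm
      refine Finset.sum_eq_zero fun c _ => ?_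
      rw [hG, if_neg (fun h4 => h4.1 ha), mul_zero]
    · rw [Finset.sum_eq_single (cg a)]
      · rw [hG, if_pos, ← mul_assoc, ← AddChar.map_add_eq_mul, neg_add_cancel,
          AddChar.map_zero_eq_one, one_mul]
        refine ⟨ha, ?_⟩
        rw [← hcg1 _ (mul_ne_zero ha (hb _).1), hcg _ _ ha (hb _).1, hbc, mul_inv_cancel]
      · intro c _ hc
        rw [hG, if_neg, mul_zero]
        rintro ⟨-, h4⟩
        rw [← hcg1 _ (mul_ne_zero ha (hb _).1), hcg _ _ ha (hb _).1, hbc,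
          mul_inv_eq_one] at h4
        exact hc h4.symm
      · intro h4
        exact absurd (Finset.mem_univ _) h4
  · intro c _
    exact (summable_of_hasFiniteSupport (hGf c)).mul_left _

open scoped Classical in
/-- Job A8b. For every class `c` of the class group of `𝓞 K` choose `b_c` prime to `m` in the class
`c⁻¹` (`exists_cop`). Every `a` prime to `m` lies in exactly one class, `a * b_c = (u)`, and
`χ (cl a) = χ (cl b_c)⁻¹ χ (cl (u))`. So
`∑_a χ(cl a) bF(N a / x) = ∑_c χ(cl b_c)⁻¹ ∑_{a b_c = (u)} h(u mod m) bF(N a / x)`, with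
`h(r) = χ (cl (u))` for a unit `r = u mod m` (`cl_congr`) and `0` for non-units. By `core_sum`
this is `c1 x (∑_c χ(cl b_c)⁻¹)(∑_r h r) + O(x^(1-1/n))`. For `χ = 0` the main term is
`c1 * h_K * #(𝓞/m)ˣ * x = κ x`. For `χ ≠ 0`: if `h ≠ 1` on the units then `∑ h = 0` (sum of a
nontrivial character of a finite group); if `h = 1` on the units then `χ ∘ cl` is trivial on
principal ideals, hence `c ↦ χ(cl b_c)⁻¹` is a character of the class group, nontrivial since
`cl` is onto and `χ ≠ 0`; so `∑_c = 0`. There are only finitely many `χ`, so `C` can be taken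
independent of `χ`. -/
theorem chi_count (m : Ideal (𝓞 K)) (hm : m ≠ ⊥) {p : ℕ} {A : Type} [AddCommGroup A] [Finite A]
    {cl : Ideal (𝓞 K) → A} (hcl : ClPack m p cl) :
    ∃ κ C : ℝ, 0 < κ ∧ ∀ (χ : AddChar A ℂ) (x : ℝ), 1 ≤ x →
      ‖∑' a : {a : Ideal (𝓞 K) // Cop m a}, χ (cl a.1) *
          ((bF ((Ideal.absNorm a.1 : ℝ) / x) : ℝ) : ℂ) -
        (if χ = 0 then ((κ * x : ℝ) : ℂ) else 0)‖ ≤
        C * x ^ (1 - (1 : ℝ) / Module.finrank ℚ K) := by
  haveI : Finite (𝓞 K ⧸ m) := Ideal.finiteQuotientOfFreeOfNeBot m hm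
  haveI : Fintype (𝓞 K ⧸ m) := Fintype.ofFinite _
  obtain ⟨c1, hc1, hcore⟩ := core_sum K m hm
  obtain ⟨cg, hcg, hcg1, hcgs⟩ := A8a_class K
  have hbex : ∀ c, ∃ b, Cop m b ∧ cg b = c⁻¹ := by
    intro c
    obtain ⟨a, ha, rfl⟩ := hcgs c
    obtain ⟨x, b, hx, hb, hxb⟩ := exists_cop K m hm a ha
    refine ⟨b, hb, ?_⟩
    have h4 : cg (a * b) = 1 := by
      rw [hcg1 _ (mul_ne_zero ha hb.1), ← hxb]
      exact ⟨⟨x, rfl⟩⟩
    rw [hcg _ _ ha hb.1] at h4
    exact (eq_inv_of_mul_eq_one_right h4)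
  choose b hb hbc using hbex
  have hgex : ∀ c (a : {a : Ideal (𝓞 K) // a ≠ ⊥ ∧ Submodule.IsPrincipal (a * b c)}),
      ∃ u : 𝓞 K, Ideal.span {u} = a.1 * b c := by
    intro c a
    obtain ⟨u, hu⟩ := a.2.2.principal
    exact ⟨u, hu.symm⟩
  choose g hg using hgex
  choose h h1 h2 h3 h4 using fun χ : AddChar A ℂ => A8a_h K m hm hcl χ
  choose B hB using fun (χ : AddChar A ℂ) (c : ClassGroup (𝓞 K)) =>
    hcore (b c) (hb c).1 (hb c).2 (h χ) (h4 χ) (g c) (hg c)
  obtain ⟨n, hn⟩ : ∃ n : ℕ, n = (Finset.univ.filter (fun r : 𝓞 K ⧸ m => IsUnit r)).card :=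
    ⟨_, rfl⟩
  have hn0 : 0 < n := by
    rw [hn]
    exact Finset.card_pos.2 ⟨1, by simp⟩
  have hcc : 0 < Fintype.card (ClassGroup (𝓞 K)) := Fintype.card_pos
  refine ⟨c1 * (Fintype.card (ClassGroup (𝓞 K)) * n), ∑ χ, ∑ c, |B χ c|, by positivity, ?_⟩
  intro χ x hx
  have hx0 : 0 < x := by linarith
  rw [A8a_dec K m hcl χ cg hcg hcg1 b hb hbc (h χ) (h1 χ) (h2 χ) g hg x hx]
  have hmain : (if χ = 0 then (((c1 * (Fintype.card (ClassGroup (𝓞 K)) * n)) * x : ℝ) : ℂ) else 0) =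
      ∑ c, χ (-cl (b c)) * (((c1 * x : ℝ) : ℂ) * ∑ r, h χ r) := by
    rw [← Finset.sum_mul]
    by_cases hχ : χ = 0
    · rw [if_pos hχ]
      have e1 : ∑ c, χ (-cl (b c)) = (Fintype.card (ClassGroup (𝓞 K)) : ℂ) := by
        rw [hχ]
        simp
      have e2 : ∑ r, h χ r = (n : ℂ) := by
        rw [hn, Finset.card_filter]
        push_cast
        refine Finset.sum_congr rfl fun r _ => ?_
        by_cases hr : IsUnit r
        · rw [if_pos hr]
          obtain ⟨u, hu0, rfl⟩ := A8a_lift K m hm r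
          rw [h1 χ u ((A8a_unit K m hu0).2 hr), hχ, AddChar.zero_apply]
        · rw [if_neg hr, h2 χ r hr]
      rw [e1, e2]
      push_cast
      ring
    · rw [if_neg hχ]
      have e := A8a_orth K m hm hcl χ cg hcg hcg1 b hb hbc (h χ) (h1 χ) (h2 χ) (h3 χ) hχ
      calc (0 : ℂ) = ((c1 * x : ℝ) : ℂ) * ((∑ c, χ (-cl (b c))) * (∑ r, h χ r)) := by
            rw [e, mul_zero]
        _ = _ := by ring
  rw [hmain, ← Finset.sum_sub_distrib]
  have hpow : 0 ≤ x ^ (1 - (1 : ℝ) / Module.finrank ℚ K) := Real.rpow_nonneg hx0.le _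
  calc ‖∑ c, (χ (-cl (b c)) * (∑' a : {a : Ideal (𝓞 K) // a ≠ ⊥ ∧
            Submodule.IsPrincipal (a * b c)}, h χ (Ideal.Quotient.mk m (g c a)) *
              ((bF ((Ideal.absNorm a.1 : ℝ) / x) : ℝ) : ℂ)) -
          χ (-cl (b c)) * (((c1 * x : ℝ) : ℂ) * ∑ r, h χ r))‖
      ≤ ∑ c, |B χ c| * x ^ (1 - (1 : ℝ) / Module.finrank ℚ K) := by
        refine (norm_sum_le _ _).trans (Finset.sum_le_sum fun c _ => ?_)
        rw [← mul_sub, norm_mul, AddChar.norm_apply, one_mul]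
        refine (hB χ c x hx).trans ?_
        exact mul_le_mul_of_nonneg_right (le_abs_self _) hpow
    _ = (∑ c, |B χ c|) * x ^ (1 - (1 : ℝ) / Module.finrank ℚ K) := by rw [Finset.sum_mul]
    _ ≤ (∑ χ, ∑ c, |B χ c|) * x ^ (1 - (1 : ℝ) / Module.finrank ℚ K) := by
        refine mul_le_mul_of_nonneg_right ?_ hpow
        exact Finset.single_le_sum (f := fun χ => ∑ c, |B χ c|)
          (fun χ _ => Finset.sum_nonneg fun c _ => abs_nonneg _) (Finset.mem_univ χ)

end Pool.Agent.MPca71X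
end

section
set_option autoImplicit false

/-! Job B5 (medium): nonvanishing at `1`. -/

namespace Pool.Agent.MPca71X

variable {Q A : Type} [AddCommGroup A] [Finite A] {N : Q → ℕ} {cl : Q → A} {θ κ C : ℝ}

/-- `∑_χ PR χ s = #A ∑_{cl q = 0} (N q)^(-s) ≥ 0` (`AddChar.sum_apply_eq_ite`). -/
theorem sum_PR_nonneg (hS : ASys N cl θ κ C) (s : ℝ) (hs : 1 < s) :
    0 ≤ ∑ χ : AddChar A ℂ, PR N cl χ s := by
  classical
  have := Fintype.ofFinite A
  have hsum : ∀ χ : AddChar A ℂ, Summable (fun q : Q => (χ (cl q)).re * (N q : ℝ) ^ (-s)) := by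
    intro χ
    refine Summable.of_norm_bounded (prime_summable hS s hs) fun q => ?_
    rw [norm_mul, Real.norm_of_nonneg (r := (N q : ℝ) ^ (-s)) (by positivity)]
    have h1 : ‖(χ (cl q)).re‖ ≤ 1 := by
      rw [Real.norm_eq_abs]
      exact (Complex.abs_re_le_norm _).trans (AddChar.norm_apply χ (cl q)).le
    calc ‖(χ (cl q)).re‖ * (N q : ℝ) ^ (-s) ≤ 1 * (N q : ℝ) ^ (-s) :=
          mul_le_mul_of_nonneg_right h1 (by positivity)
      _ = (N q : ℝ) ^ (-s) := one_mul _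
  unfold PR
  rw [← Summable.tsum_finsetSum (fun χ _ => hsum χ)]
  refine tsum_nonneg fun q => ?_
  rw [← Finset.sum_mul]
  refine mul_nonneg ?_ (by positivity)
  have h2 : ∑ χ : AddChar A ℂ, (χ (cl q)).re = (∑ χ : AddChar A ℂ, χ (cl q)).re := by
    rw [Complex.re_sum]
  rw [h2, AddChar.sum_apply_eq_ite]
  split_ifs
  · simp
  · simp

/-- `Z` of the conjugate character `-χ` is the complex conjugate. -/
theorem Z_conj (χ : AddChar A ℂ) (s : ℝ) : ‖Zf N cl (-χ) s‖ = ‖Zf N cl χ s‖ := by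
  have h : Zf N cl (-χ) s = (starRingEnd ℂ) (Zf N cl χ s) := by
    unfold Zf
    rw [Complex.conj_tsum]
    refine tsum_congr fun f => ?_
    rw [map_mul, Complex.conj_ofReal, AddChar.neg_apply', AddChar.inv_apply_eq_conj]
  rw [h, Complex.norm_conj]

private lemma b5_log_le {c D y : ℝ} (hc : 0 < c) (h1 : c ≤ y) (h2 : y ≤ D) :
    |Real.log y| ≤ |Real.log c| + |Real.log D| := by
  have h3 := Real.log_le_log hc h1
  have h4 := Real.log_le_log (hc.trans_le h1) h2
  rw [abs_le]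
  constructor
  · have := neg_abs_le (Real.log c)
    have := abs_nonneg (Real.log D)
    linarith
  · have := le_abs_self (Real.log D)
    have := abs_nonneg (Real.log c)
    linarith

/-- Nonvanishing. `A` is killed by the odd prime `p`, so `χ ≠ 0` implies `-χ ≠ χ`. If the second
alternative of `Z_chi_bounds` held for `χ0` then (by `Z_conj`) `‖Z_χ0‖, ‖Z_{-χ0}‖ ≤ D (s-1)`,
`‖Z_0‖ ≤ D/(s-1)`, all others `≤ D`, so `∑_χ log ‖Z_χ(s)‖ ≤ log(s-1) + D'' → -∞` as `s → 1`; but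
`∑_χ log ‖Z_χ‖ ≥ ∑_χ PR χ s - #A D' ≥ - #A D'` by `log_Z`, `sum_PR_nonneg`. -/
theorem PR_bounded (hS : ASys N cl θ κ C) (p : ℕ) [Fact p.Prime] (hp2 : p ≠ 2)
    (hpA : ∀ a : A, p • a = 0) (χ : AddChar A ℂ) (hχ : χ ≠ 0) :
    ∃ D s0 : ℝ, 1 < s0 ∧ ∀ s : ℝ, 1 < s → s ≤ s0 → |PR N cl χ s| ≤ D := by
  classical
  obtain ⟨D', hD'⟩ := log_Z hS
  obtain ⟨D1, hD1, halt⟩ := Z_chi_bounds hS χ hχ
  rcases halt with ⟨c, s0, hc, hs0, hlow⟩ | hsmall
  · refine ⟨|Real.log c| + |Real.log D1| + D', min s0 2, lt_min hs0 (by norm_num),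
      fun s hs1 hs2 => ?_⟩
    have h1 := b5_log_le hc (hlow s hs1 (hs2.trans (min_le_left _ _)))
      (hD1 s hs1 (hs2.trans (min_le_right _ _)))
    have h2 := (hD' χ s hs1).2
    have h3 : |PR N cl χ s| ≤ |Real.log ‖Zf N cl χ s‖| +
        |Real.log ‖Zf N cl χ s‖ - PR N cl χ s| := by
      have := abs_sub_abs_le_abs_sub (PR N cl χ s) (Real.log ‖Zf N cl χ s‖)
      rw [abs_sub_comm] at this
      linarith
    linarith
  · exfalso
    have hpχ : p • χ = 0 := by
      ext a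
      rw [AddChar.nsmul_apply, ← AddChar.map_nsmul_eq_pow, hpA a]
      simp
    have hne : -χ ≠ χ := by
      intro h
      have h2 : (2 : ℕ) • χ = 0 := by
        rw [two_nsmul]
        nth_rewrite 1 [← h]
        exact neg_add_cancel χ
      have hp : p.Prime := Fact.out
      have hcop : Nat.Coprime 2 p := by
        rw [Nat.coprime_primes Nat.prime_two hp]
        exact fun h => hp2 h.symm
      have hd2 : addOrderOf χ ∣ 2 := addOrderOf_dvd_of_nsmul_eq_zero h2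
      have hdp : addOrderOf χ ∣ p := addOrderOf_dvd_of_nsmul_eq_zero hpχ
      have h1 : addOrderOf χ = 1 := Nat.eq_one_of_dvd_coprimes hcop hd2 hdp
      exact hχ (AddMonoid.addOrderOf_eq_one_iff.mp h1)
    have hnχ : -χ ≠ 0 := by
      intro h
      exact hχ (neg_eq_zero.mp h)
    set e : AddChar A ℂ → ℝ := fun ψ =>
      (if ψ = 0 then (-1 : ℝ) else 0) + (if ψ = χ then (1 : ℝ) else 0) +
        (if ψ = -χ then (1 : ℝ) else 0) with he
    have hesum : ∑ ψ : AddChar A ℂ, e ψ = 1 := by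
      simp only [he, Finset.sum_add_distrib, Finset.sum_ite_eq', Finset.mem_univ, if_true]
      norm_num
    obtain ⟨c0, D0, hc0, h0⟩ := Z_one_bounds hS
    have hD0 : 0 < D0 := by
      have := h0 2 (by norm_num) le_rfl
      have h3 : c0 / (2 - 1) ≤ D0 / (2 - 1) := this.1.trans this.2
      norm_num at h3
      linarith
    have hpos : ∀ (ψ : AddChar A ℂ) (s : ℝ), 1 < s → 0 < ‖Zf N cl ψ s‖ := fun ψ s hs =>
      norm_pos_iff.mpr (hD' ψ s hs).1
    have hD1pos : 0 < D1 := by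
      have h3 := hsmall 2 (by norm_num) le_rfl
      have h4 := hpos χ 2 (by norm_num)
      norm_num at h3
      linarith
    have hu : ∀ ψ : AddChar A ℂ, ∃ u : ℝ, ∀ s : ℝ, 1 < s → s ≤ 2 →
        Real.log ‖Zf N cl ψ s‖ ≤ u + e ψ * Real.log (s - 1) := by
      intro ψ
      by_cases hψ0 : ψ = 0
      · have he0 : e ψ = -1 := by
          simp only [he, hψ0]
          rw [if_true, if_neg (Ne.symm hχ), if_neg (Ne.symm hnχ)]
          norm_num
        refine ⟨Real.log D0, fun s hs1 hs2 => ?_⟩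
        have h3 := (h0 s hs1 hs2).2
        rw [he0, hψ0]
        have h4 := Real.log_le_log (hpos 0 s hs1) h3
        rw [Real.log_div hD0.ne' (by linarith)] at h4
        linarith
      · by_cases hψχ : ψ = χ
        · have he0 : e ψ = 1 := by
            simp only [he, hψχ]
            rw [if_neg hχ, if_true, if_neg (Ne.symm hne)]
            norm_num
          refine ⟨Real.log D1, fun s hs1 hs2 => ?_⟩
          have h3 := hsmall s hs1 hs2
          rw [he0, hψχ]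
          have h4 := Real.log_le_log (hpos χ s hs1) h3
          rw [Real.log_mul hD1pos.ne' (by linarith)] at h4
          linarith
        · by_cases hψn : ψ = -χ
          · have he0 : e ψ = 1 := by
              simp only [he, hψn]
              rw [if_neg hnχ, if_neg hne, if_true]
              norm_num
            refine ⟨Real.log D1, fun s hs1 hs2 => ?_⟩
            have h3 := hsmall s hs1 hs2
            rw [he0, hψn, Z_conj]
            have h4 := Real.log_le_log (hpos χ s hs1) h3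
            rw [Real.log_mul hD1pos.ne' (by linarith)] at h4
            linarith
          · have he0 : e ψ = 0 := by
              simp only [he]
              rw [if_neg hψ0, if_neg hψχ, if_neg hψn]
              norm_num
            obtain ⟨D2, hD2, -⟩ := Z_chi_bounds hS ψ hψ0
            refine ⟨Real.log D2, fun s hs1 hs2 => ?_⟩
            rw [he0]
            have h4 := Real.log_le_log (hpos ψ s hs1) (hD2 s hs1 hs2)
            linarith
    choose u hu using hu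
    set n : ℝ := (Fintype.card (AddChar A ℂ) : ℝ) with hn
    set U : ℝ := ∑ ψ : AddChar A ℂ, u ψ with hU
    have hkey : ∀ s : ℝ, 1 < s → s ≤ 2 → -(n * D') ≤ U + Real.log (s - 1) := by
      intro s hs1 hs2
      have h5 : ∑ ψ : AddChar A ℂ, Real.log ‖Zf N cl ψ s‖ ≤ U + Real.log (s - 1) := by
        calc ∑ ψ : AddChar A ℂ, Real.log ‖Zf N cl ψ s‖
            ≤ ∑ ψ : AddChar A ℂ, (u ψ + e ψ * Real.log (s - 1)) :=
              Finset.sum_le_sum fun ψ _ => hu ψ s hs1 hs2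
          _ = U + Real.log (s - 1) := by
              rw [Finset.sum_add_distrib, ← Finset.sum_mul, hesum, one_mul]
      have h6 : ∑ ψ : AddChar A ℂ, (PR N cl ψ s - D') ≤
          ∑ ψ : AddChar A ℂ, Real.log ‖Zf N cl ψ s‖ := by
        refine Finset.sum_le_sum fun ψ _ => ?_
        have := (abs_le.mp (hD' ψ s hs1).2).1
        linarith
      have h7 := sum_PR_nonneg (cl := cl) hS s hs1
      rw [Finset.sum_sub_distrib, Finset.sum_const, Finset.card_univ, nsmul_eq_mul] at h6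
      linarith
    set M : ℝ := max (U + n * D' + 1) 0 with hM
    have h8 := hkey (1 + Real.exp (-M)) (by linarith [Real.exp_pos (-M)]) (by
      have : Real.exp (-M) ≤ 1 := Real.exp_le_one_iff.mpr (by
        have := le_max_right (U + n * D' + 1) 0
        linarith)
      linarith)
    rw [add_sub_cancel_left, Real.log_exp] at h8
    have h9 := le_max_left (U + n * D' + 1) 0
    linarith

/-- `|PR 0 s - log (1/(s-1))| ≤ D` by `Z_one_bounds` and `log_Z`. -/
theorem PR_zero (hS : ASys N cl θ κ C) :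
    ∃ D : ℝ, ∀ s : ℝ, 1 < s → s ≤ 2 → |PR N cl 0 s - Real.log (1 / (s - 1))| ≤ D := by
  obtain ⟨D', hD'⟩ := log_Z (cl := cl) hS
  obtain ⟨c0, D0, hc0, h0⟩ := Z_one_bounds (cl := cl) hS
  refine ⟨|Real.log c0| + |Real.log D0| + D', fun s hs1 hs2 => ?_⟩
  have hs : 0 < s - 1 := by linarith
  obtain ⟨h1, h2⟩ := h0 s hs1 hs2
  obtain ⟨hne, h3⟩ := hD' 0 s hs1
  have hpos : 0 < ‖Zf N cl 0 s‖ := norm_pos_iff.mpr hne
  have h4 : c0 ≤ ‖Zf N cl 0 s‖ * (s - 1) := (div_le_iff₀ hs).mp h1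
  have h5 : ‖Zf N cl 0 s‖ * (s - 1) ≤ D0 := (le_div_iff₀ hs).mp h2
  have h6 := b5_log_le hc0 h4 h5
  rw [Real.log_mul hpos.ne' hs.ne'] at h6
  rw [one_div, Real.log_inv]
  rw [abs_le] at h3 h6 ⊢
  constructor <;> linarith [h3.1, h3.2, h6.1, h6.2]

end Pool.Agent.MPca71X
end

section
set_option autoImplicit false
set_option linter.unusedSectionVars false

/-! Job B6 (medium): the abstract theorem on primes in classes. -/

namespace Pool.Agent.MPca71X

variable {Q A : Type} [AddCommGroup A] [Finite A] {N : Q → ℕ} {cl : Q → A} {θ κ C : ℝ}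

open scoped Classical in
/-- The multiplicity of `b` in the orthogonality relation. -/
private noncomputable def B6mu (p : ℕ) (a b : A) : ℝ :=
  ∑ c ∈ Finset.Ico 1 p,
    (((if b = c • a then (1 : ℝ) else 0) + (if b = -(c • a) then (1 : ℝ) else 0)) / 2)

private theorem B6mu_nonneg (p : ℕ) (a b : A) : 0 ≤ B6mu p a b := by
  unfold B6mu
  refine Finset.sum_nonneg fun c _ => ?_
  split_ifs <;> norm_num

private theorem B6mu_le (p : ℕ) (a b : A) : B6mu p a b ≤ p := by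
  unfold B6mu
  calc _ ≤ ∑ _c ∈ Finset.Ico 1 p, (1 : ℝ) := by
        refine Finset.sum_le_sum fun c _ => ?_
        split_ifs <;> norm_num
    _ ≤ p := by
        rw [Finset.sum_const, Nat.card_Ico, nsmul_eq_mul, mul_one]
        exact_mod_cast Nat.sub_le _ _

private theorem B6mu_zero (p : ℕ) (hpA : ∀ a : A, p • a = 0) (a b : A)
    (h : ∀ c : ℕ, 1 ≤ c → c < p → b ≠ c • a) : B6mu p a b = 0 := by
  unfold B6mu
  refine Finset.sum_eq_zero fun c hc => ?_
  rw [Finset.mem_Ico] at hc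
  have h1 : b ≠ c • a := h c hc.1 hc.2
  have h2 : b ≠ -(c • a) := by
    intro h3
    refine h (p - c) (by omega) (by omega) ?_
    rw [h3, eq_comm, ← sub_eq_zero, sub_neg_eq_add, ← add_nsmul, Nat.sub_add_cancel hc.2.le]
    exact hpA a
  rw [if_neg h1, if_neg h2]
  norm_num

/-- Primes in classes. If all primes `q` with `cl q ∈ {c • a : 1 ≤ c < p}` were in `T`, then
`∑_{cl q ∈ F_p^* a} (N q)^(-s) ≤ ∑_T (N q)^(-1)` would be bounded for `s → 1+`. Multiply `orth`
(with `b = cl q`) by `(N q)^(-s)` and sum over `q`: the right side is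
`#A ∑_q mult(q) (N q)^(-s)`, `0 ≤ mult(q)`, where `mult(q) = 0` unless `cl q ∈ F_p^* a`
(note `-(c • a) = (p - c) • a`); the left side is `∑_χ w_χ PR χ s` with
`w_χ = ∑_c Re χ(-(c a))`, `w_0 = p - 1 > 0`; by `PR_zero`, `PR_bounded` it tends to `∞` as
`s → 1+`. Contradiction. -/
theorem primes_in_classes (hS : ASys N cl θ κ C) (p : ℕ) [Fact p.Prime] (hp2 : p ≠ 2)
    (hpA : ∀ a : A, p • a = 0) (T : Set Q) (hT : Summable (fun q : T => (N q : ℝ)⁻¹)) (a : A) :
    ∃ q : Q, q ∉ T ∧ ∃ c : ℕ, 1 ≤ c ∧ c < p ∧ cl q = c • a := by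
  classical
  by_contra hcon
  push Not at hcon
  have hp : p.Prime := Fact.out
  have hp3 : 2 ≤ p := hp.two_le
  set w : AddChar A ℂ → ℝ := fun χ => ∑ c ∈ Finset.Ico 1 p, (χ (-(c • a))).re with hw
  have hw0 : w 0 = ((p - 1 : ℕ) : ℝ) := by
    simp [hw]
  have hw1 : 1 ≤ w 0 := by
    rw [hw0]; exact_mod_cast (by omega : 1 ≤ p - 1)
  have hN2 : ∀ q, (2 : ℝ) ≤ (N q : ℝ) := fun q => by exact_mod_cast hS.two q
  -- the sum over the characters
  have hmain : ∀ s : ℝ, 1 < s → ∑ χ : AddChar A ℂ, w χ * PR N cl χ s ≤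
      (Nat.card A : ℝ) * (p * ∑' q : T, (N q : ℝ)⁻¹) := by
    intro s hs
    have hsum := prime_summable hS s hs
    have hsχ : ∀ χ : AddChar A ℂ, Summable fun q : Q => (χ (cl q)).re * (N q : ℝ) ^ (-s) := by
      intro χ
      refine Summable.of_norm_bounded hsum fun q => ?_
      have h0 : (0 : ℝ) ≤ (N q : ℝ) ^ (-s) := Real.rpow_nonneg (Nat.cast_nonneg _) _
      rw [norm_mul, Real.norm_of_nonneg h0]
      have h1 : ‖(χ (cl q)).re‖ ≤ 1 := by
        rw [Real.norm_eq_abs]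
        exact (Complex.abs_re_le_norm _).trans (AddChar.norm_apply χ _).le
      exact mul_le_of_le_one_left h0 h1
    have e1 : ∑ χ : AddChar A ℂ, w χ * PR N cl χ s =
        ∑' q : Q, (Nat.card A : ℝ) * (B6mu p a (cl q) * (N q : ℝ) ^ (-s)) := by
      have e2 : ∀ χ : AddChar A ℂ, w χ * PR N cl χ s =
          ∑' q : Q, w χ * ((χ (cl q)).re * (N q : ℝ) ^ (-s)) := by
        intro χ
        rw [tsum_mul_left]; rfl
      simp_rw [e2]
      rw [← Summable.tsum_finsetSum fun χ _ => (hsχ χ).mul_left _]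
      refine tsum_congr fun q => ?_
      have h3 := orth p a (cl q)
      calc ∑ χ : AddChar A ℂ, w χ * ((χ (cl q)).re * (N q : ℝ) ^ (-s))
          = (∑ χ : AddChar A ℂ, w χ * (χ (cl q)).re) * (N q : ℝ) ^ (-s) := by
            rw [Finset.sum_mul]
            exact Finset.sum_congr rfl fun χ _ => by ring
        _ = ((Nat.card A : ℝ) * B6mu p a (cl q)) * (N q : ℝ) ^ (-s) := by
            congr 1
        _ = _ := by ring
    rw [e1, tsum_mul_left]
    refine mul_le_mul_of_nonneg_left ?_ (Nat.cast_nonneg _)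
    have hz : ∀ q, q ∉ T → B6mu p a (cl q) = 0 := fun q hq =>
      B6mu_zero p hpA a (cl q) fun c h1 h2 => hcon q hq c h1 h2
    have hsuppT : Function.support (fun q : Q => B6mu p a (cl q) * (N q : ℝ) ^ (-s)) ⊆ T := by
      intro q hq
      by_contra hqT
      exact hq (by simp [hz q hqT])
    rw [← tsum_subtype_eq_of_support_subset hsuppT, ← tsum_mul_left]
    have hle : ∀ q : T, B6mu p a (cl q) * (N (q : Q) : ℝ) ^ (-s) ≤ p * (N (q : Q) : ℝ)⁻¹ := by
      intro q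
      have h1 : (N (q : Q) : ℝ) ^ (-s) ≤ (N (q : Q) : ℝ)⁻¹ := by
        rw [← Real.rpow_neg_one]
        exact Real.rpow_le_rpow_of_exponent_le (by linarith [hN2 q]) (by linarith)
      exact mul_le_mul (B6mu_le _ _ _) h1 (Real.rpow_nonneg (Nat.cast_nonneg _) _)
        (Nat.cast_nonneg _)
    refine Summable.tsum_le_tsum hle ?_ (hT.mul_left _)
    refine Summable.of_nonneg_of_le (fun q => mul_nonneg (B6mu_nonneg _ _ _)
      (Real.rpow_nonneg (Nat.cast_nonneg _) _)) hle (hT.mul_left _)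
  -- lower bound
  obtain ⟨D0, hD0⟩ := PR_zero hS
  have hch : ∀ χ : AddChar A ℂ, ∃ D s0 : ℝ, χ ≠ 0 → 1 < s0 ∧ ∀ s : ℝ, 1 < s → s ≤ s0 →
      |PR N cl χ s| ≤ D := by
    intro χ
    by_cases h : χ = 0
    · exact ⟨0, 0, fun h' => absurd h h'⟩
    · obtain ⟨D, s0, h1, h2⟩ := PR_bounded hS p hp2 hpA χ h
      exact ⟨D, s0, fun _ => ⟨h1, h2⟩⟩
  choose D s0 hDs using hch
  set K : ℝ := (Nat.card A : ℝ) * (p * ∑' q : T, (N q : ℝ)⁻¹) with hK
  set E : ℝ := ∑ χ ∈ Finset.univ.erase (0 : AddChar A ℂ), |w χ| * D χ with hE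
  -- choose s close to 1
  have hev : ∀ᶠ s in nhdsWithin (1 : ℝ) (Set.Ioi 1), ∀ χ : AddChar A ℂ, χ ≠ 0 → s ≤ s0 χ := by
    rw [Filter.eventually_all]
    intro χ
    by_cases h : χ = 0
    · exact Filter.Eventually.of_forall fun s h' => absurd h h'
    · filter_upwards [nhdsWithin_le_nhds (Iic_mem_nhds (hDs χ h).1)] with s hs _
      exact hs
  have hev2 : ∀ᶠ s in nhdsWithin (1 : ℝ) (Set.Ioi 1), s ≤ 2 :=
    nhdsWithin_le_nhds (Iic_mem_nhds (by norm_num))
  have hev3 : ∀ᶠ s in nhdsWithin (1 : ℝ) (Set.Ioi 1), (1 : ℝ) < s := self_mem_nhdsWithin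
  have hlim : Filter.Tendsto (fun s : ℝ => Real.log (1 / (s - 1)))
      (nhdsWithin (1 : ℝ) (Set.Ioi 1)) Filter.atTop := by
    refine Real.tendsto_log_atTop.comp ?_
    have h1 : Filter.Tendsto (fun s : ℝ => s - 1) (nhdsWithin (1 : ℝ) (Set.Ioi 1))
        (nhdsWithin 0 (Set.Ioi 0)) := by
      refine tendsto_nhdsWithin_of_tendsto_nhds_of_eventually_within _ ?_ ?_
      · have : Filter.Tendsto (fun s : ℝ => s - 1) (nhds 1) (nhds (1 - 1)) :=
          (continuous_id.sub continuous_const).tendsto 1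
        rw [sub_self] at this
        exact this.mono_left nhdsWithin_le_nhds
      · filter_upwards [hev3] with s hs
        exact sub_pos.2 hs
    have h2 := tendsto_inv_nhdsGT_zero.comp h1
    refine h2.congr fun s => ?_
    simp
  have hev4 := hlim.eventually_gt_atTop (|K| + E + D0 + 1)
  obtain ⟨s, h1, h2, h3, h4⟩ := (((hev.and hev2).and (hev3.and hev4)).exists.imp
    fun s h => (⟨h.1.1, h.1.2, h.2.1, h.2.2⟩ : _ ∧ _ ∧ _ ∧ _))
  have h5 := hmain s h3
  have h6 := hD0 s h3 h2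
  have h7 : |K| + E + 1 < PR N cl 0 s := by
    have := (abs_le.1 h6).1
    linarith
  have hE0 : 0 ≤ E := by
    refine Finset.sum_nonneg fun χ hχ => mul_nonneg (abs_nonneg _) ?_
    have h8 := hDs χ (Finset.ne_of_mem_erase hχ)
    exact (abs_nonneg _).trans (h8.2 s h3 (h1 χ (Finset.ne_of_mem_erase hχ)))
  rw [← Finset.add_sum_erase _ _ (Finset.mem_univ (0 : AddChar A ℂ))] at h5
  have h8 : -E ≤ ∑ χ ∈ Finset.univ.erase (0 : AddChar A ℂ), w χ * PR N cl χ s := by
    rw [hE, ← Finset.sum_neg_distrib]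
    refine Finset.sum_le_sum fun χ hχ => ?_
    have h9 := (hDs χ (Finset.ne_of_mem_erase hχ)).2 s h3 (h1 χ (Finset.ne_of_mem_erase hχ))
    have h10 : |w χ * PR N cl χ s| ≤ |w χ| * D χ := by
      rw [abs_mul]; exact mul_le_mul_of_nonneg_left h9 (abs_nonneg _)
    linarith [(abs_le.1 h10).1]
  have h9 : PR N cl 0 s ≤ w 0 * PR N cl 0 s := by
    have : 0 ≤ PR N cl 0 s := by linarith [abs_nonneg K]
    nlinarith
  have h10 : K ≤ |K| := le_abs_self K
  linarith

end Pool.Agent.MPca71X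
end

section
set_option autoImplicit false
open scoped NumberField
open NumberField IsDedekindDomain

/-! Job A8c (medium): transport to the free monoid. -/

namespace Pool.Agent.MPca71X

variable (K : Type) [Field K] [NumberField K]

omit [NumberField K] in
private theorem A8c_cop_one (m : Ideal (𝓞 K)) : Cop m (1 : Ideal (𝓞 K)) :=
  ⟨one_ne_zero, isCoprime_one_left⟩

omit [NumberField K] in
private theorem A8c_cop_mul {m a b : Ideal (𝓞 K)} (ha : Cop m a) (hb : Cop m b) :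
    Cop m (a * b) :=
  ⟨mul_ne_zero ha.1 hb.1, ha.2.mul_left hb.2⟩

private theorem A8c_cop_prime {m : Ideal (𝓞 K)} (v : Qm K m) : Cop m v.1.asIdeal := by
  refine ⟨v.1.ne_bot, ?_⟩
  rw [Ideal.isCoprime_iff_sup_eq]
  exact v.1.isMaximal.out.2 _ (left_lt_sup.2 v.2)

private theorem A8c_cl_one {m : Ideal (𝓞 K)} {p : ℕ} {A : Type} [AddCommGroup A]
    {cl : Ideal (𝓞 K) → A} (hcl : ClPack m p cl) : cl 1 = 0 := by
  have h := hcl.mul 1 1 (A8c_cop_one K m) (A8c_cop_one K m)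
  rw [mul_one] at h
  exact left_eq_add.1 h

private theorem A8c_pow {m : Ideal (𝓞 K)} {p : ℕ} {A : Type} [AddCommGroup A]
    {cl : Ideal (𝓞 K) → A} (hcl : ClPack m p cl) {a : Ideal (𝓞 K)} (ha : Cop m a) (k : ℕ) :
    Cop m (a ^ k) ∧ cl (a ^ k) = k • cl a := by
  induction k with
  | zero =>
    rw [pow_zero, zero_smul]
    exact ⟨A8c_cop_one K m, A8c_cl_one K hcl⟩
  | succ k ih =>
    rw [pow_succ]
    refine ⟨A8c_cop_mul K ih.1 ha, ?_⟩
    rw [hcl.mul _ _ ih.1 ha, ih.2, succ_nsmul]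

private theorem A8c_prod {m : Ideal (𝓞 K)} {p : ℕ} {A : Type} [AddCommGroup A]
    {cl : Ideal (𝓞 K) → A} (hcl : ClPack m p cl) (f : Qm K m → ℕ) (s : Finset (Qm K m)) :
    Cop m (∏ v ∈ s, v.1.asIdeal ^ f v) ∧
      cl (∏ v ∈ s, v.1.asIdeal ^ f v) = ∑ v ∈ s, f v • cl v.1.asIdeal := by
  classical
  induction s using Finset.induction_on with
  | empty =>
    rw [Finset.prod_empty, Finset.sum_empty]
    exact ⟨A8c_cop_one K m, A8c_cl_one K hcl⟩
  | insert v s hv ih =>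
    rw [Finset.prod_insert hv, Finset.sum_insert hv]
    have h := A8c_pow K hcl (A8c_cop_prime K v) (f v)
    refine ⟨A8c_cop_mul K h.1 ih.1, ?_⟩
    rw [hcl.mul _ _ h.1 ih.1, h.2, ih.2]

/-- Job A8c. The hypotheses of the abstract theorem hold for `Q = Qm K m`, `N v = absNorm v`
(transport `chi_count` along `exists_fact`: `absNorm` and `cl` of `∏ v^k`; the ideals of
bounded norm are finitely many). -/
theorem exists_asys (m : Ideal (𝓞 K)) (hm : m ≠ ⊥) {p : ℕ} {A : Type} [AddCommGroup A] [Finite A]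
    {cl : Ideal (𝓞 K) → A} (hcl : ClPack m p cl) :
    ∃ θ κ C : ℝ, ASys (fun v : Qm K m => Ideal.absNorm v.1.asIdeal)
      (fun v : Qm K m => cl v.1.asIdeal) θ κ C := by
  obtain ⟨e, he⟩ := exists_fact K m hm
  obtain ⟨κ, C, hκ, hcount⟩ := chi_count K m hm hcl
  have hnm : ∀ f : Qm K m →₀ ℕ,
      nmF (fun v : Qm K m => Ideal.absNorm v.1.asIdeal) f = Ideal.absNorm (e f).1 := by
    intro f
    rw [he f, nmF, Finsupp.prod, Finsupp.prod, map_prod]
    refine Finset.prod_congr rfl fun v _ => ?_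
    rw [map_pow]
  have hcf : ∀ f : Qm K m →₀ ℕ,
      clF (fun v : Qm K m => cl v.1.asIdeal) f = cl (e f).1 := by
    intro f
    rw [he f, clF, Finsupp.sum, Finsupp.prod]
    exact ((A8c_prod K hcl f f.support).2).symm
  have hn : (1 : ℝ) ≤ Module.finrank ℚ K := by
    exact_mod_cast (Module.finrank_pos (R := ℚ) (M := K))
  refine ⟨1 - (1 : ℝ) / Module.finrank ℚ K, κ, C, ⟨?_, ?_, ?_, ?_, hκ, ?_⟩⟩
  · intro v
    have h0 : Ideal.absNorm v.1.asIdeal ≠ 0 := by
      rw [Ne, Ideal.absNorm_eq_zero_iff]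
      exact v.1.ne_bot
    have h1 : Ideal.absNorm v.1.asIdeal ≠ 1 := by
      rw [Ne, Ideal.absNorm_eq_one_iff]
      exact v.1.isPrime.ne_top
    show 2 ≤ Ideal.absNorm v.1.asIdeal
    omega
  · intro x
    have h1 : {I : Ideal (𝓞 K) | Ideal.absNorm I ≤ x}.Finite := Ideal.finite_setOfPred_absNorm_le x
    refine Set.Finite.of_finite_image (f := fun f => (e f).1) (h1.subset ?_) ?_
    · rintro _ ⟨f, hf, rfl⟩
      have hf' : nmF (fun v : Qm K m => Ideal.absNorm v.1.asIdeal) f ≤ x := hf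
      rw [hnm] at hf'
      exact hf'
    · intro f _ f' _ h
      exact e.injective (Subtype.ext h)
  · rw [sub_nonneg, div_le_one (by linarith)]
    exact hn
  · have : (0 : ℝ) < 1 / Module.finrank ℚ K := by positivity
    linarith
  · intro χ x hx
    have h1 : Af (fun v : Qm K m => Ideal.absNorm v.1.asIdeal)
        (fun v : Qm K m => cl v.1.asIdeal) χ x =
        ∑' a : {a : Ideal (𝓞 K) // Cop m a}, χ (cl a.1) *
          ((bF ((Ideal.absNorm a.1 : ℝ) / x) : ℝ) : ℂ) := by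
      rw [Af, ← e.tsum_eq]
      refine tsum_congr fun f => ?_
      rw [hnm, hcf]
    rw [h1]
    exact hcount χ x hx

end Pool.Agent.MPca71X
end

section
set_option autoImplicit false
open scoped NumberField
open NumberField IsDedekindDomain

/-! Job A9: Dirichlet's theorem for ray classes modulo `p`-th powers. -/

namespace Pool.Agent.MPca71X

variable (K : Type) [Field K] [NumberField K]

/-- `d ^ p ∣ v ^ e * X ^ p` with `e < p` implies `d ∣ X`, `v` prime. -/
private theorem A9_dvd {R : Type} [CommRing R] [IsDedekindDomain R] {p e : ℕ} (he : e < p)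
    {v d X G : Ideal R} (hv : Prime v) (hd : d ≠ ⊥) (h : G * d ^ p = v ^ e * X ^ p) : d ∣ X := by
  obtain ⟨d', X', c', hrel, h1, h2⟩ :=
    UniqueFactorizationMonoid.exists_reduced_factors d hd X
  have hc' : c' ≠ 0 := by
    rintro rfl
    rw [zero_mul] at h1
    exact hd h1.symm
  have h3 : G * d' ^ p = v ^ e * X' ^ p := by
    have h4 : c' ^ p * (G * d' ^ p) = c' ^ p * (v ^ e * X' ^ p) := by
      rw [← h1, ← h2, mul_pow, mul_pow] at h
      calc c' ^ p * (G * d' ^ p) = G * (c' ^ p * d' ^ p) := by ring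
        _ = v ^ e * (c' ^ p * X' ^ p) := h
        _ = c' ^ p * (v ^ e * X' ^ p) := by ring
    exact mul_left_cancel₀ (pow_ne_zero p hc') h4
  have h5 : d' ^ p ∣ v ^ e := by
    have h6 : IsRelPrime (d' ^ p) (X' ^ p) := hrel.pow
    exact h6.dvd_of_dvd_mul_right ⟨G, by rw [← h3, mul_comm]⟩
  have hp0 : p ≠ 0 := by omega
  have h7 : d' ∣ v ^ e := (dvd_pow_self d' hp0).trans h5
  obtain ⟨i, hi, hi'⟩ := (dvd_prime_pow hv e).1 h7
  have h8 : d' = v ^ i := associated_iff_eq.1 hi'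
  rw [h8, ← pow_mul] at h5
  have h9 : i * p ≤ e := (pow_dvd_pow_iff hv.ne_zero hv.not_isUnit).1 h5
  have h10 : i = 0 := by
    by_contra h0
    have : 1 * p ≤ i * p := Nat.mul_le_mul_right p (by omega)
    omega
  rw [h10, pow_zero] at h8
  rw [h8, mul_one] at h1
  exact ⟨X', by rw [← h1, h2]⟩

private theorem A9_cop {R : Type} [CommRing R] [IsDedekindDomain R] {m v : Ideal R}
    (hv : v.IsMaximal) (hv0 : v ≠ ⊥) (hm : ¬ m ≤ v) : Cop m v := by
  refine ⟨hv0, ?_⟩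
  rw [Ideal.isCoprime_iff_sup_eq]
  have h1 : v < v ⊔ m := lt_of_le_of_ne le_sup_left (fun h => hm (by rw [h]; exact le_sup_right))
  exact hv.1.2 _ h1

private theorem A9_cop_pow {R : Type} [CommRing R] [IsDedekindDomain R] {m v : Ideal R}
    (h : Cop m v) (k : ℕ) : Cop m (v ^ k) :=
  ⟨pow_ne_zero k h.1, h.2.pow_left⟩

private theorem A9_cl_pow {R : Type} [CommRing R] [IsDedekindDomain R] {m v : Ideal R} {p : ℕ}
    {A : Type} [AddCommGroup A] {cl : Ideal R → A} (hcl : ClPack m p cl)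
    (h : Cop m v) (k : ℕ) : cl (v ^ k) = k • cl v := by
  induction k with
  | zero =>
    have h1 := hcl.one 1 one_ne_zero (by rw [sub_self]; exact m.zero_mem)
    rw [Ideal.span_singleton_one] at h1
    rw [pow_zero, zero_smul, Ideal.one_eq_top]
    exact h1
  | succ k ih => rw [pow_succ, hcl.mul _ _ (A9_cop_pow h k) h, ih, succ_nsmul]

/-- the inverse modulo `p` -/
private theorem A9_inv (p : ℕ) [Fact p.Prime] {c : ℕ} (h1 : 1 ≤ c) (h2 : c < p) :
    ∃ e k : ℕ, 1 ≤ e ∧ e < p ∧ e * c = p * k + 1 := by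
  have hp : p.Prime := Fact.out
  have hc : ((c : ℕ) : ZMod p) ≠ 0 := by
    intro h
    rw [ZMod.natCast_eq_zero_iff] at h
    exact absurd (Nat.le_of_dvd (by omega) h) (by omega)
  refine ⟨((c : ZMod p)⁻¹).val, ((c : ZMod p)⁻¹).val * c / p, ?_, ZMod.val_lt _, ?_⟩
  · rw [Nat.one_le_iff_ne_zero]
    intro h
    rw [ZMod.val_eq_zero] at h
    exact inv_ne_zero hc h
  · have h3 : ((((c : ZMod p)⁻¹).val * c : ℕ) : ZMod p) = ((1 : ℕ) : ZMod p) := by
      rw [Nat.cast_mul, ZMod.natCast_zmod_val, inv_mul_cancel₀ hc, Nat.cast_one]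
    rw [ZMod.natCast_eq_natCast_iff] at h3
    have h4 : ((c : ZMod p)⁻¹).val * c % p = 1 := by
      rw [h3, Nat.mod_eq_of_lt hp.one_lt]
    have h5 := Nat.div_add_mod (((c : ZMod p)⁻¹).val * c) p
    rw [h4] at h5
    exact h5.symm

private theorem A9_main (p : ℕ) [Fact p.Prime] (hp2 : p ≠ 2) (m : Ideal (𝓞 K)) (hm : m ≠ ⊥)
    (a : 𝓞 K) (ha : IsCoprime (Ideal.span {a}) m) (ha0 : a ≠ 0) (B : ℕ) :
    ∃ (q : Ideal (𝓞 K)) (g : 𝓞 K) (e : ℕ) (b : Ideal (𝓞 K)), q.IsPrime ∧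
      (Ideal.absNorm q).Prime ∧ B < Ideal.absNorm q ∧ g ≠ 0 ∧ g - a ∈ m ∧ 1 ≤ e ∧ e < p ∧
      Ideal.span {g} = q ^ e * b ^ p := by
  have hp : p.Prime := Fact.out
  obtain ⟨A, i1, i2, cl, hcl⟩ := exists_clPack K m hm p hp.pos
  obtain ⟨θ, κ, C, hS⟩ := exists_asys K m hm hcl
  obtain ⟨v, hvT, c, hc1, hcp, hcl1⟩ := primes_in_classes hS p hp2 hcl.tors _
    (bad_summable K m B) (cl (Ideal.span {a}))
  simp only [Set.mem_setOf_eq, not_not] at hvT
  obtain ⟨hvN, hvB⟩ := hvT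
  have hcopv : Cop m v.1.asIdeal := A9_cop v.1.isMaximal v.1.ne_bot v.2
  have hcopa : Cop m (Ideal.span {a}) := ⟨by simpa using ha0, ha⟩
  obtain ⟨e, k, he1, hep, hek⟩ := A9_inv p hc1 hcp
  have hcle : cl (v.1.asIdeal ^ e) = cl (Ideal.span {a}) := by
    rw [A9_cl_pow hcl hcopv, hcl1, ← mul_smul, hek, add_smul, one_smul, mul_comm, mul_smul,
      hcl.tors, smul_zero, zero_add]
  obtain ⟨x, y, c', d, hx, hy, hx1, hy1, hc', hd, h⟩ :=
    hcl.rel _ _ (A9_cop_pow hcopv e) hcopa hcle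
  have hvp : Prime v.1.asIdeal := v.1.prime
  have hg : Ideal.span {y * a * x ^ (p - 1)} * d ^ p =
      v.1.asIdeal ^ e * (Ideal.span {x} * c') ^ p := by
    rw [← Ideal.span_singleton_mul_span_singleton, ← Ideal.span_singleton_mul_span_singleton,
      ← Ideal.span_singleton_pow]
    have h1 : p = (p - 1) + 1 := by have := hp.pos; omega
    calc Ideal.span {y} * Ideal.span {a} * Ideal.span {x} ^ (p - 1) * d ^ p =
          Ideal.span {x} ^ (p - 1) * (Ideal.span {y} * Ideal.span {a} * d ^ p) := by ring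
      _ = Ideal.span {x} ^ (p - 1) * (Ideal.span {x} * v.1.asIdeal ^ e * c' ^ p) := by rw [h]
      _ = v.1.asIdeal ^ e * (Ideal.span {x} ^ ((p - 1) + 1) * c' ^ p) := by ring
      _ = v.1.asIdeal ^ e * (Ideal.span {x} * c') ^ p := by rw [← h1, mul_pow]
  obtain ⟨b, hb⟩ := A9_dvd hep hvp hd hg
  refine ⟨v.1.asIdeal, y * a * x ^ (p - 1), e, b, v.1.isPrime, hvN, hvB, ?_, ?_, he1, hep, ?_⟩
  · exact mul_ne_zero (mul_ne_zero hy ha0) (pow_ne_zero _ hx)
  · rw [← Ideal.Quotient.eq_zero_iff_mem, map_sub, map_mul, map_mul, map_pow]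
    have h1 : Ideal.Quotient.mk m x = 1 := by
      rw [← map_one (Ideal.Quotient.mk m), Ideal.Quotient.mk_eq_mk_iff_sub_mem]; exact hx1
    have h2 : Ideal.Quotient.mk m y = 1 := by
      rw [← map_one (Ideal.Quotient.mk m), Ideal.Quotient.mk_eq_mk_iff_sub_mem]; exact hy1
    rw [h1, h2, one_pow, one_mul, mul_one, sub_self]
  · rw [hb, mul_pow] at hg
    apply mul_right_cancel₀ (pow_ne_zero p hd)
    rw [hg]
    ring

/-- From `exists_clPack`, `exists_asys`, `bad_summable`, `primes_in_classes` (with the class of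
`(a)`; note `Cop m (a)`): a prime `v` of prime norm `> B` with `cl v = c • cl (a)`, `1 ≤ c < p`.
Choose `1 ≤ e < p` with `e c = 1 mod p`: `cl (v^e) = e c cl (a) = cl (a)`. `ClPack.rel`:
`(x) v^e c^p = (y) (a) d^p`. Put `g = y a x^(p-1)`; `g - a ∈ m`, `(g) d^p = v^e ((x) c)^p`.
Comparing multiplicities at all primes (`e < p`) gives `d ∣ (x) c`, `(x) c = d b`,
`(g) = v^e b^p`. If `a = 0` (only possible for `m = 1`) replace `a` by `1`. -/
theorem dirichlet_ray (p : ℕ) [Fact p.Prime] (hp2 : p ≠ 2) (m : Ideal (𝓞 K)) (hm : m ≠ ⊥)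
    (a : 𝓞 K) (ha : IsCoprime (Ideal.span {a}) m) (B : ℕ) :
    ∃ (q : Ideal (𝓞 K)) (g : 𝓞 K) (e : ℕ) (b : Ideal (𝓞 K)), q.IsPrime ∧
      (Ideal.absNorm q).Prime ∧ B < Ideal.absNorm q ∧ g ≠ 0 ∧ g - a ∈ m ∧ 1 ≤ e ∧ e < p ∧
      Ideal.span {g} = q ^ e * b ^ p := by
  by_cases ha0 : a = 0
  · have hm1 : m = ⊤ := by
      rw [ha0, Ideal.isCoprime_iff_sup_eq] at ha
      simpa using ha
    obtain ⟨q, g, e, b, h1, h2, h3, h4, _, h6⟩ := A9_main K p hp2 m hm 1
      (by rw [hm1, Ideal.isCoprime_iff_sup_eq]; simp) one_ne_zero B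
    exact ⟨q, g, e, b, h1, h2, h3, h4, by rw [hm1]; trivial, h6⟩
  · exact A9_main K p hp2 m hm a ha ha0 B

end Pool.Agent.MPca71X
end

section
set_option autoImplicit false
open scoped NumberField
open NumberField

/-! Job M6 (easy-medium): several primes (induction from `dirichlet_ray`). -/

namespace Pool.Agent.MPca71X

/-- Induction on `n`; the bound `B` for the next prime is the maximum of `B` and the previous
norms. -/
theorem exists_primes (K : Type) [Field K] [NumberField K] (p : ℕ) [Fact p.Prime] (hp2 : p ≠ 2)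
    (m : Ideal (𝓞 K)) (hm : m ≠ ⊥) (n : ℕ) (a : Fin n → 𝓞 K)
    (ha : ∀ i, IsCoprime (Ideal.span {a i}) m) (B : ℕ) :
    ∃ (Q : Fin n → Ideal (𝓞 K)) (g : Fin n → 𝓞 K) (e : Fin n → ℕ) (b : Fin n → Ideal (𝓞 K)),
      (∀ i, (Q i).IsPrime ∧ (Ideal.absNorm (Q i)).Prime ∧ B < Ideal.absNorm (Q i) ∧ g i ≠ 0 ∧
        g i - a i ∈ m ∧ 1 ≤ e i ∧ e i < p ∧ Ideal.span {g i} = Q i ^ e i * b i ^ p) ∧
      ∀ i j, Ideal.absNorm (Q i) = Ideal.absNorm (Q j) → i = j := by
  induction n with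
  | zero =>
    exact ⟨fun i => i.elim0, fun i => i.elim0, fun i => i.elim0, fun i => i.elim0,
      fun i => i.elim0, fun i => i.elim0⟩
  | succ n ih =>
    obtain ⟨Q, g, e, b, h1, h2⟩ := ih (fun i => a i.castSucc) (fun i => ha i.castSucc)
    obtain ⟨q, g', e', b', k1, k2, k3, k4, k5, k6, k7, k8⟩ := dirichlet_ray K p hp2 m hm
      (a (Fin.last n)) (ha (Fin.last n)) (B + ∑ i, Ideal.absNorm (Q i))
    have hlt : ∀ i, Ideal.absNorm (Q i) < Ideal.absNorm q := by
      intro i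
      have h3 : Ideal.absNorm (Q i) ≤ ∑ i, Ideal.absNorm (Q i) :=
        Finset.single_le_sum (f := fun i => Ideal.absNorm (Q i)) (fun _ _ => Nat.zero_le _)
          (Finset.mem_univ i)
      omega
    refine ⟨Fin.snoc (α := fun _ => Ideal (𝓞 K)) Q q, Fin.snoc (α := fun _ => 𝓞 K) g g',
      Fin.snoc (α := fun _ => ℕ) e e', Fin.snoc (α := fun _ => Ideal (𝓞 K)) b b', ?_, ?_⟩
    · intro i
      induction i using Fin.lastCases with
      | last =>
        simp only [Fin.snoc_last]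
        exact ⟨k1, k2, by omega, k4, k5, k6, k7, k8⟩
      | cast i =>
        simp only [Fin.snoc_castSucc]
        exact h1 i
    · intro i j
      induction i using Fin.lastCases with
      | last =>
        induction j using Fin.lastCases with
        | last => exact fun _ => rfl
        | cast j =>
          simp only [Fin.snoc_last, Fin.snoc_castSucc]
          intro h
          exact absurd h (hlt j).ne'
      | cast i =>
        induction j using Fin.lastCases with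
        | last =>
          simp only [Fin.snoc_last, Fin.snoc_castSucc]
          intro h
          exact absurd h (hlt i).ne
        | cast j =>
          simp only [Fin.snoc_castSucc]
          intro h
          rw [h2 i j h]

end Pool.Agent.MPca71X
end
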