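import Pool.Agent.Lib.MP_ca71b5_ntX.P9
import Pool.Agent.Lib.MP_ca71b5_ntW.Fin5
set_option autoImplicit false
open scoped NumberField
open NumberField

/-! P10: the explicit form of theorem (FM), for all dimensions `m ≤ n`. -/

namespace Pool.Agent.MPca71X

open Pool.Agent.MPca71W

/-- Padding by an identity block: a continuous injective homomorphism `GL_m → GL_n`, `m ≤ n`. -/
theorem exists_pad (p : ℕ) [Fact p.Prime] {m n : ℕ} (h : m ≤ n) :
    ∃ φ : Matrix.GeneralLinearGroup (Fin m) (PadicInt p) →*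
        Matrix.GeneralLinearGroup (Fin n) (PadicInt p),
      Continuous φ ∧ Function.Injective φ := by
  obtain ⟨e⟩ : Nonempty (Fin m ⊕ Fin (n - m) ≃ Fin n) := by
    refine ⟨finSumFinEquiv.trans (finCongr (by omega))⟩
  let f0 : Matrix (Fin m) (Fin m) (PadicInt p) →* Matrix (Fin n) (Fin n) (PadicInt p) :=
    { toFun := fun A => Matrix.reindex e e (Matrix.fromBlocks A 0 0 1)
      map_one' := by
        rw [Matrix.fromBlocks_one]
        simp
      map_mul' := by
        intro A B
        have : Matrix.fromBlocks (A * B) 0 0 (1 : Matrix (Fin (n - m)) (Fin (n - m)) (PadicInt p)) =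
            Matrix.fromBlocks A 0 0 1 * Matrix.fromBlocks B 0 0 1 := by
          rw [Matrix.fromBlocks_multiply]
          simp
        rw [this]
        simp only [Matrix.reindex_apply]
        rw [Matrix.submatrix_mul_equiv] }
  have hf0 : Continuous f0 := by
    change Continuous fun A : Matrix (Fin m) (Fin m) (PadicInt p) =>
      Matrix.reindex e e (Matrix.fromBlocks A 0 0 1)
    refine continuous_matrix fun i j => ?_
    rw [← e.apply_symm_apply i, ← e.apply_symm_apply j]
    generalize e.symm i = i'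
    generalize e.symm j = j'
    simp only [Matrix.reindex_apply, Matrix.submatrix_apply, Equiv.symm_apply_apply]
    rcases i' with i' | i' <;> rcases j' with j' | j' <;>
      simp only [Matrix.fromBlocks_apply₁₁, Matrix.fromBlocks_apply₁₂, Matrix.fromBlocks_apply₂₁,
        Matrix.fromBlocks_apply₂₂]
    · exact continuous_id.matrix_elem i' j'
    · exact continuous_const
    · exact continuous_const
    · exact continuous_const
  refine ⟨Units.map f0, Continuous.units_map f0 hf0, ?_⟩
  refine Units.map_injective ?_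
  intro A B hAB
  have h1 : Matrix.fromBlocks A 0 0 (1 : Matrix (Fin (n - m)) (Fin (n - m)) (PadicInt p)) =
      Matrix.fromBlocks B 0 0 1 := (Matrix.reindex e e).injective hAB
  exact (Matrix.fromBlocks_inj.1 h1).1

private theorem P10_isAlg :
    @Algebra.IsAlgebraic ℚ (AlgebraicClosure ℚ) _ _ DivisionRing.toRatAlgebra := by
  have h : (DivisionRing.toRatAlgebra : Algebra ℚ (AlgebraicClosure ℚ)) =
    AlgebraicClosure.instAlgebra ℚ := Subsingleton.elim _ _
  rw [h]
  exact AlgebraicClosure.isAlgebraic ℚ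

private theorem P10_finrank {M : Type} [AddCommGroup M] (i j : Module ℚ M) :
    @Module.finrank ℚ M _ _ i = @Module.finrank ℚ M _ _ j := by
  have h : i = j := Subsingleton.elim _ _
  rw [h]

/-- (FM), explicit form. -/
theorem fm_explicit (p : ℕ) [Fact p.Prime] (hp2 : p ≠ 2) (n s : ℕ) :
    ∃ (K : Type) (_ : Field K) (_ : NumberField K),
      Module.finrank ℚ K ≤
        8 * p ^ 2 * ((2 * p * n ^ 2 + 1) * (s + 1) + (2 * p * n ^ 2 + 1) ^ 2 + 1) ∧
      UnrElem p s K (AlgebraicClosure K) ∧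
      ∀ m ≤ n, ∀ ρ : (AlgebraicClosure K ≃ₐ[K] AlgebraicClosure K) →*
          Matrix.GeneralLinearGroup (Fin m) (PadicInt p),
        Continuous ρ → UnrProP p K (AlgebraicClosure K) ρ →
        (Set.range ρ).Finite ∧ (∀ g, ρ g ^ p = 1) ∧ ∀ g g', ρ g * ρ g' = ρ g' * ρ g := by
  have := P10_isAlg
  obtain ⟨K, hK, h1, h2, h3⟩ := field_package (AlgebraicClosure ℚ) p hp2 n (s + 1) (by omega)
  have : Algebra.IsAlgebraic K (AlgebraicClosure ℚ) :=
    Algebra.IsAlgebraic.tower_top (K := ℚ) K
  have : IsAlgClosure K (AlgebraicClosure ℚ) := ⟨inferInstance, inferInstance⟩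
  have ψ : AlgebraicClosure ℚ ≃ₐ[K] AlgebraicClosure K :=
    IsAlgClosure.equiv K (AlgebraicClosure ℚ) (AlgebraicClosure K)
  refine ⟨K, inferInstance, hK, ?_, ?_, ?_⟩
  · refine (le_of_eq (P10_finrank _ _)).trans (h1.trans (le_of_eq ?_))
    ring
  · exact unrElem_transfer p (s + 1 - 1) K _ _ ψ h2
  · intro m hm ρ hc hu
    obtain ⟨φ, hφc, hφi⟩ := exists_pad p hm
    obtain ⟨ρ', hc', hu', h4⟩ := rho_transfer p K _ _ ψ (φ.comp ρ) (hφc.comp hc)
      (unrProP_of_ker_le ρ (φ.comp ρ) hu fun g hg => by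
        rw [MonoidHom.comp_apply, hg, map_one])
    obtain ⟨h5, h6, h7⟩ := h3 ρ' hc' hu'
    refine ⟨?_, ?_, ?_⟩
    · refine Set.Finite.of_finite_image (f := φ) (h5.subset ?_) hφi.injOn
      rintro _ ⟨_, ⟨g, rfl⟩, rfl⟩
      obtain ⟨g', hg'⟩ := h4 g
      exact ⟨g', hg'⟩
    · intro g
      obtain ⟨g', hg'⟩ := h4 g
      apply hφi
      rw [map_pow, map_one]
      have : φ (ρ g) = ρ' g' := hg'.symm
      rw [this]
      exact h6 g'
    · intro g₁ g₂
      obtain ⟨g₁', hg₁'⟩ := h4 g₁
      obtain ⟨g₂', hg₂'⟩ := h4 g₂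
      apply hφi
      rw [map_mul, map_mul]
      have e1 : φ (ρ g₁) = ρ' g₁' := hg₁'.symm
      have e2 : φ (ρ g₂) = ρ' g₂' := hg₂'.symm
      rw [e1, e2]
      exact h7 g₁' g₂'

end Pool.Agent.MPca71X
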