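import Pool.Agent.Lib.MP_ca71b5_ntX.P10
import Pool.Agent.Lib.MP_ca71b5_ntX.T5
set_option autoImplicit false
open scoped NumberField
open NumberField

/-! P11: theorem (FM) for representations of dimension `≤ n` and for images of dimension `≤ n`. -/

namespace Pool.Agent.MPca71X

open Pool.Agent.MPca71W

/-- (FM), final form. -/
theorem fm_plus (p : ℕ) [Fact p.Prime] (hp2 : p ≠ 2) (n s : ℕ) :
    ∃ (K : Type) (_ : Field K) (_ : NumberField K),
      Module.finrank ℚ K ≤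
        8 * p ^ 2 * ((2 * p * n ^ 2 + 1) * (s + 1) + (2 * p * n ^ 2 + 1) ^ 2 + 1) ∧
      UnrElem p s K (AlgebraicClosure K) ∧
      ∀ (m : ℕ) (ρ : (AlgebraicClosure K ≃ₐ[K] AlgebraicClosure K) →*
          Matrix.GeneralLinearGroup (Fin m) (PadicInt p)),
        Continuous ρ → UnrProP p K (AlgebraicClosure K) ρ →
        (m ≤ n → (Set.range ρ).Finite ∧ (∀ g, ρ g ^ p = 1) ∧ ∀ g g', ρ g * ρ g' = ρ g' * ρ g) ∧
        (Module.finrank ℚ_[p] (lieSpan p ρ) ≤ n → (Set.range ρ).Finite) := by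
  obtain ⟨K, hK, hN, h1, h2, h3⟩ := fm_explicit p hp2 n s
  refine ⟨K, hK, hN, h1, h2, fun m ρ hc hu => ⟨fun hm => h3 m hm ρ hc hu, fun hd => ?_⟩⟩
  exact finite_of_dim p hp2 n (fun m' hm' ρ' hc' hu' => (h3 m' hm' ρ' hc' hu').1) m ρ hc hu hd

end Pool.Agent.MPca71X
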