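import Pool.Agent.Lib.MP_ca71b5_ntX.P11
set_option autoImplicit false
open scoped NumberField
open NumberField

/-! P12: the elementary abelian form of P8, P9a, P10, P11 (the unramified extension `L / K` is
elementary abelian of rank `s`, so the `p`-class group of `K` has rank at least `s`). -/

namespace Pool.Agent.MPca71X

open Pool.Agent.MPca71W

/-- `K` has a Galois extension of degree `p ^ s` inside `Ω`, unramified at all finite primes, whose
Galois group is abelian and killed by `p`: an elementary abelian extension of rank `s`. -/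
def UnrElem (p s : ℕ) (K Ω : Type) [Field K] [Field Ω] [Algebra K Ω] : Prop :=
  ∃ L : IntermediateField K Ω, IsGalois K L ∧ Module.finrank K L = p ^ s ∧
    Algebra.Unramified (𝓞 K) (𝓞 L) ∧ (∀ g : L ≃ₐ[K] L, g ^ p = 1) ∧
      ∀ g h : L ≃ₐ[K] L, g * h = h * g

/-- `K` is the fixed field of `KK` (`InfiniteGalois`: `KK` open, so closed; `K.fixingSubgroup = KK`,
`[K : ℚ] = KK.index`). `L / K`: the subgroup of `Gal(Ω/K)` corresponding to `DD` under
`exists_galEquiv` is open, normal (it contains the commutators), of index `p^(d-1)`, contains all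
inertial elements: `exists_unramified_of_open` (ntW/Fin1); exponent `p`. For `ρ`: transport to
`KK` along `exists_galEquiv`, use `rho_inertial` (ntW/Inv), `rho_pgroup`. -/
theorem field_package_ab (Ω : Type) [Field Ω] [Algebra ℚ Ω] [IsAlgClosed Ω]
    [Algebra.IsAlgebraic ℚ Ω] (p : ℕ) [Fact p.Prime] (hp2 : p ≠ 2) (n d : ℕ) (hd : 1 ≤ d) :
    ∃ (K : IntermediateField ℚ Ω) (_ : NumberField K),
      Module.finrank ℚ K ≤
        p ^ 2 * (8 * ((2 * (p * n ^ 2) + 1) * d + (2 * (p * n ^ 2) + 1) ^ 2 + 1)) ∧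
      UnrElem p (d - 1) K Ω ∧
      ∀ ρ : (Ω ≃ₐ[K] Ω) →* Matrix.GeneralLinearGroup (Fin n) (PadicInt p), Continuous ρ →
        UnrProP p K Ω ρ →
        (Set.range ρ).Finite ∧ (∀ g, ρ g ^ p = 1) ∧ ∀ g g', ρ g * ρ g' = ρ g' * ρ g := by
  classical
  obtain ⟨k, KK, DD, hle, hKo, hDo, hidx, hbd, hrel, hcomm, hpow, hin, hrho⟩ :=
    exists_package Ω p hp2 n d hd
  have hG : IsGalois ℚ Ω := isGalois_acl
  obtain ⟨K, hK⟩ : ∃ K : IntermediateField ℚ Ω, K.fixingSubgroup = KK :=
    ⟨IntermediateField.fixedField KK, InfiniteGalois.fixingSubgroup_fixedField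
      (⟨KK, Subgroup.isClosed_of_isOpen _ hKo⟩ : ClosedSubgroup (Ω ≃ₐ[ℚ] Ω))⟩
  subst hK
  have hfd : FiniteDimensional ℚ K := (InfiniteGalois.isOpen_iff_finite K).1 hKo
  have hnf : NumberField K :=
    { to_charZero := inferInstance
      to_finiteDimensional := by
        convert hfd
        exact Subsingleton.elim _ _ }
  have hfr : Module.finrank ℚ K = p ^ (k + 1) := by
    rw [IntermediateField.finrank_eq_fixingSubgroup_index, hidx]
  have hac : Algebra.IsAlgebraic K Ω := inferInstance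
  obtain ⟨φ, hφ, hφ', hφx⟩ := exists_galEquiv K
  have hφsx : ∀ (h : Ω ≃ₐ[K] Ω) (x : Ω), ((φ.symm h : K.fixingSubgroup) : Ω ≃ₐ[ℚ] Ω) x = h x := by
    intro h x
    rw [← hφx, MulEquiv.apply_symm_apply]
  refine ⟨K, hnf, hfr.le.trans hbd, ?_, ?_⟩
  · let N : Subgroup (Ω ≃ₐ[K] Ω) := (DD.subgroupOf K.fixingSubgroup).comap φ.symm.toMonoidHom
    have hmem : ∀ g : Ω ≃ₐ[K] Ω, g ∈ N ↔ ((φ.symm g : K.fixingSubgroup) : Ω ≃ₐ[ℚ] Ω) ∈ DD :=
      fun g => Iff.rfl
    have hNn : N.Normal := by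
      refine ⟨fun a ha g => ?_⟩
      rw [hmem] at ha ⊢
      have h1 := hcomm _ (φ.symm g).2 _ (φ.symm a).2
      have h2 := DD.mul_mem h1 ha
      rw [inv_mul_cancel_right] at h2
      rw [map_mul, map_mul, map_inv]
      exact h2
    have hNo : IsOpen (N : Set (Ω ≃ₐ[K] Ω)) :=
      (hDo.preimage continuous_subtype_val).preimage hφ'
    have hNI : ∀ h : Ω ≃ₐ[K] Ω, Inertial Ω h.toRingEquiv → h ∈ N := by
      intro h hh
      rw [hmem]
      exact hin _ (φ.symm h).2 (inertial_congr (fun x => (hφsx h x).symm) hh)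
    obtain ⟨L, h1, -, h2, h3, h4, h5⟩ := exists_unramified_of_open N hNn hNo hNI
    refine ⟨L, h3, ?_, h5, ?_, ?_⟩
    · rw [h4]
      change ((DD.subgroupOf K.fixingSubgroup).comap φ.symm.toMonoidHom).index = _
      rw [Subgroup.index_comap_of_surjective _ φ.symm.surjective]
      exact hrel
    · intro g
      have hGK : IsGalois K Ω := isGalois_acl
      have hn : Normal K L := h3.to_normal
      obtain ⟨g', rfl⟩ := AlgEquiv.restrictNormalHom_surjective (F := K) (K₁ := L) Ω g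
      rw [← map_pow]
      have h6 : g' ^ p ∈ N := by
        rw [hmem, map_pow]
        exact hpow _ (φ.symm g').2
      rw [← h1, IntermediateField.mem_fixingSubgroup_iff] at h6
      ext x
      have h7 := h6 (x : Ω) x.2
      have h8 := AlgEquiv.restrictNormal_commutes (g' ^ p) L x
      change ((AlgEquiv.restrictNormal (g' ^ p) L) x : Ω) = x
      exact h8.trans h7
    · intro g h
      have hGK : IsGalois K Ω := isGalois_acl
      have hn : Normal K L := h3.to_normal
      obtain ⟨g', rfl⟩ := AlgEquiv.restrictNormalHom_surjective (F := K) (K₁ := L) Ω g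
      obtain ⟨h', rfl⟩ := AlgEquiv.restrictNormalHom_surjective (F := K) (K₁ := L) Ω h
      have h6 : g' * h' * g'⁻¹ * h'⁻¹ ∈ N := by
        rw [hmem, map_mul, map_mul, map_mul, map_inv, map_inv]
        exact hcomm _ (φ.symm g').2 _ (φ.symm h').2
      have h9 : AlgEquiv.restrictNormalHom L (g' * h' * g'⁻¹ * h'⁻¹) = 1 := by
        rw [← h1, IntermediateField.mem_fixingSubgroup_iff] at h6
        ext x
        have h7 := h6 (x : Ω) x.2
        have h8 := AlgEquiv.restrictNormal_commutes (g' * h' * g'⁻¹ * h'⁻¹) L x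
        change ((AlgEquiv.restrictNormal (g' * h' * g'⁻¹ * h'⁻¹) L) x : Ω) = x
        exact h8.trans h7
      rw [map_mul, map_mul, map_mul, map_inv, map_inv] at h9
      calc _ = AlgEquiv.restrictNormalHom L g' * AlgEquiv.restrictNormalHom L h' *
            (AlgEquiv.restrictNormalHom L g')⁻¹ * (AlgEquiv.restrictNormalHom L h')⁻¹ *
            (AlgEquiv.restrictNormalHom L h' * AlgEquiv.restrictNormalHom L g') := by group
        _ = _ := by rw [h9, one_mul]
  · intro ρ hc hu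
    have hcont : Continuous (ρ.comp φ.toMonoidHom) := hc.comp hφ
    obtain ⟨r1, r2, r3⟩ := hrho (ρ.comp φ.toMonoidHom) hcont (by
      intro g hg
      exact rho_inertial ρ hc hu (φ g) (inertial_congr (fun x => (hφx g x).symm) hg)) (by
      intro m g
      obtain ⟨j, hj⟩ := rho_pgroup ρ hc hu m (φ g)
      refine ⟨j, fun a b => ?_⟩
      have h1 : (ρ.comp φ.toMonoidHom) (g ^ p ^ j) = ρ ((φ g) ^ p ^ j) := by
        change ρ (φ (g ^ p ^ j)) = _
        rw [map_pow]
      rw [h1]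
      exact hj a b)
    have hval : ∀ g : Ω ≃ₐ[K] Ω, ρ g = (ρ.comp φ.toMonoidHom) (φ.symm g) := by
      intro g
      change ρ g = ρ (φ (φ.symm g))
      rw [MulEquiv.apply_symm_apply]
    refine ⟨r1.subset ?_, fun g => ?_, fun g g' => ?_⟩
    · rintro _ ⟨g, rfl⟩
      exact ⟨φ.symm g, (hval g).symm⟩
    · rw [hval]
      exact r2 _
    · rw [hval g, hval g']
      exact r3 _ _

/-- `UnrElem` does not depend on the algebraic closure. -/
theorem unrElem_transfer (p s : ℕ) (K Ω Ω' : Type) [Field K] [NumberField K] [Field Ω] [Field Ω']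
    [Algebra K Ω] [Algebra K Ω'] (ψ : Ω ≃ₐ[K] Ω') (h : UnrElem p s K Ω) : UnrElem p s K Ω' := by
  obtain ⟨L, hG, hf, hU, hp, hab⟩ := h
  let e : L ≃ₐ[K] L.map ψ.toAlgHom := IntermediateField.intermediateFieldMap ψ L
  refine ⟨L.map ψ.toAlgHom, IsGalois.of_algEquiv e, ?_, ?_, ?_, ?_⟩
  · rw [← hf]
    exact (LinearEquiv.finrank_eq e.toLinearEquiv).symm
  · exact Algebra.Unramified.of_equiv (RingOfIntegers.mapAlgEquiv e)
  · intro g
    have h1 := hp (e.autCongr.symm g)
    rw [← map_pow] at h1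
    exact e.autCongr.symm.injective (by rw [h1, map_one])
  · intro g h
    have h1 := hab (e.autCongr.symm g) (e.autCongr.symm h)
    rw [← map_mul, ← map_mul] at h1
    exact e.autCongr.symm.injective h1

private theorem P12_isAlg :
    @Algebra.IsAlgebraic ℚ (AlgebraicClosure ℚ) _ _ DivisionRing.toRatAlgebra := by
  have h : (DivisionRing.toRatAlgebra : Algebra ℚ (AlgebraicClosure ℚ)) =
    AlgebraicClosure.instAlgebra ℚ := Subsingleton.elim _ _
  rw [h]
  exact AlgebraicClosure.isAlgebraic ℚ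

private theorem P12_finrank {M : Type} [AddCommGroup M] (i j : Module ℚ M) :
    @Module.finrank ℚ M _ _ i = @Module.finrank ℚ M _ _ j := by
  have h : i = j := Subsingleton.elim _ _
  rw [h]

/-- (FM), explicit form, with an elementary abelian extension. -/
theorem fm_explicit_ab (p : ℕ) [Fact p.Prime] (hp2 : p ≠ 2) (n s : ℕ) :
    ∃ (K : Type) (_ : Field K) (_ : NumberField K),
      Module.finrank ℚ K ≤
        8 * p ^ 2 * ((2 * p * n ^ 2 + 1) * (s + 1) + (2 * p * n ^ 2 + 1) ^ 2 + 1) ∧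
      UnrElem p s K (AlgebraicClosure K) ∧
      ∀ m ≤ n, ∀ ρ : (AlgebraicClosure K ≃ₐ[K] AlgebraicClosure K) →*
          Matrix.GeneralLinearGroup (Fin m) (PadicInt p),
        Continuous ρ → UnrProP p K (AlgebraicClosure K) ρ →
        (Set.range ρ).Finite ∧ (∀ g, ρ g ^ p = 1) ∧ ∀ g g', ρ g * ρ g' = ρ g' * ρ g := by
  have := P12_isAlg
  obtain ⟨K, hK, h1, h2, h3⟩ := field_package_ab (AlgebraicClosure ℚ) p hp2 n (s + 1) (by omega)
  have : Algebra.IsAlgebraic K (AlgebraicClosure ℚ) :=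
    Algebra.IsAlgebraic.tower_top (K := ℚ) K
  have : IsAlgClosure K (AlgebraicClosure ℚ) := ⟨inferInstance, inferInstance⟩
  have ψ : AlgebraicClosure ℚ ≃ₐ[K] AlgebraicClosure K :=
    IsAlgClosure.equiv K (AlgebraicClosure ℚ) (AlgebraicClosure K)
  refine ⟨K, inferInstance, hK, ?_, ?_, ?_⟩
  · refine (le_of_eq (P12_finrank _ _)).trans (h1.trans (le_of_eq ?_))
    ring
  · exact unrElem_transfer p (s + 1 - 1) K _ _ ψ h2
  · intro m hm ρ hc hu
    obtain ⟨φ, hφc, hφi⟩ := exists_pad p hm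
    obtain ⟨ρ', hc', hu', h4⟩ := rho_transfer p K _ _ ψ (φ.comp ρ) (hφc.comp hc)
      (unrProP_of_ker_le ρ (φ.comp ρ) hu fun g hg => by
        rw [MonoidHom.comp_apply, hg, map_one])
    obtain ⟨h5, h6, h7⟩ := h3 ρ' hc' hu'
    refine ⟨?_, ?_, ?_⟩
    · refine Set.Finite.of_finite_image (f := φ) (h5.subset ?_) hφi.injOn
      rintro _ ⟨_, ⟨g, rfl⟩, rfl⟩
      obtain ⟨g', hg'⟩ := h4 g
      exact ⟨g', hg'⟩
    · intro g
      obtain ⟨g', hg'⟩ := h4 g
      apply hφi
      rw [map_pow, map_one]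
      have : φ (ρ g) = ρ' g' := hg'.symm
      rw [this]
      exact h6 g'
    · intro g₁ g₂
      obtain ⟨g₁', hg₁'⟩ := h4 g₁
      obtain ⟨g₂', hg₂'⟩ := h4 g₂
      apply hφi
      rw [map_mul, map_mul]
      have e1 : φ (ρ g₁) = ρ' g₁' := hg₁'.symm
      have e2 : φ (ρ g₂) = ρ' g₂' := hg₂'.symm
      rw [e1, e2]
      exact h7 g₁' g₂'

/-- (FM), final form: `L / K` is elementary abelian. -/
theorem fm_plus_ab (p : ℕ) [Fact p.Prime] (hp2 : p ≠ 2) (n s : ℕ) :
    ∃ (K : Type) (_ : Field K) (_ : NumberField K),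
      Module.finrank ℚ K ≤
        8 * p ^ 2 * ((2 * p * n ^ 2 + 1) * (s + 1) + (2 * p * n ^ 2 + 1) ^ 2 + 1) ∧
      UnrElem p s K (AlgebraicClosure K) ∧
      ∀ (m : ℕ) (ρ : (AlgebraicClosure K ≃ₐ[K] AlgebraicClosure K) →*
          Matrix.GeneralLinearGroup (Fin m) (PadicInt p)),
        Continuous ρ → UnrProP p K (AlgebraicClosure K) ρ →
        (m ≤ n → (Set.range ρ).Finite ∧ (∀ g, ρ g ^ p = 1) ∧ ∀ g g', ρ g * ρ g' = ρ g' * ρ g) ∧
        (Module.finrank ℚ_[p] (lieSpan p ρ) ≤ n → (Set.range ρ).Finite) := by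
  obtain ⟨K, hK, hN, h1, h2, h3⟩ := fm_explicit_ab p hp2 n s
  refine ⟨K, hK, hN, h1, h2, fun m ρ hc hu => ⟨fun hm => h3 m hm ρ hc hu, fun hd => ?_⟩⟩
  exact finite_of_dim p hp2 n (fun m' hm' ρ' hc' hu' => (h3 m' hm' ρ' hc' hu').1) m ρ hc hu hd

end Pool.Agent.MPca71X
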