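import Pool.Agent.Lib.MP_ca71b5_ntX.M4b
import Pool.Agent.Lib.MP_ca71b5_ntX.N9
import Pool.Agent.Lib.MP_ca71b5_ntW.RED4

section
set_option autoImplicit false
open scoped NumberField
open NumberField

/-! Job P2 (medium-easy): the elements `β_i` (paper 286, 5.1, 5.4). -/

namespace Pool.Agent.MPca71X

open Pool.Agent.MPca71W

variable {Ω C : Type} [Field Ω] [Algebra ℚ Ω] [IsAlgClosed Ω] [Algebra.IsAlgebraic ℚ Ω] {p k : ℕ}
  [Fact p.Prime] [Field C] [NumberField C] [IsCyclotomicExtension {p ^ (k + 1)} ℚ C] [Algebra C Ω]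
  [IsScalarTower ℚ C Ω]

theorem p2_root {z : 𝓞 C} (hz : IsPrimitiveRoot z (p ^ (k + 1))) :
    IsPrimitiveRoot (z ^ (p ^ k)) p :=
  hz.pow (Nat.pos_of_ne_zero (pow_ne_zero _ (Fact.out : p.Prime).ne_zero)) (by rw [pow_succ])

theorem bt_ne_zero {t d : ℕ} {z : 𝓞 C} {Q : Fin t ⊕ Fin d → Ideal (𝓞 C)}
    {g : Fin t ⊕ Fin d → 𝓞 C} {e : Fin t ⊕ Fin d → ℕ} {b : Fin t ⊕ Fin d → Ideal (𝓞 C)}
    {P : Fin t ⊕ Fin d → Ideal (𝓞 Ω)} {x : Fin t ⊕ Fin d → (Ω ≃ₐ[ℚ] Ω)}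
    (h : PDat p k z Q g e b P x) (G : Matrix (Fin t) (Fin d) (ZMod p)) (i : Fin d) :
    bt C p k g G i ≠ 0 :=
  mul_ne_zero (eg_ne_zero _ (h.gne _))
    (Finset.prod_ne_zero_iff.2 fun _ _ => pow_ne_zero _ (eg_ne_zero _ (h.gne _)))

/-- `bt` is `eg` of a product (`eg_mul`, `eg_pow`, `eg_prod`), `eg_Eig`. -/
theorem bt_Eig {t d : ℕ} {z : 𝓞 C} {Q : Fin t ⊕ Fin d → Ideal (𝓞 C)}
    {g : Fin t ⊕ Fin d → 𝓞 C} {e : Fin t ⊕ Fin d → ℕ} {b : Fin t ⊕ Fin d → Ideal (𝓞 C)}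
    {P : Fin t ⊕ Fin d → Ideal (𝓞 Ω)} {x : Fin t ⊕ Fin d → (Ω ≃ₐ[ℚ] Ω)}
    (h : PDat p k z Q g e b P x) (G : Matrix (Fin t) (Fin d) (ZMod p)) (i : Fin d) :
    Eig Ω C p k (bt C p k g G i) := by
  have h1 : bt C p k g G i =
      eg C p k (g (Sum.inr i) * ∏ j, g (Sum.inl j) ^ (G j i).val) := by
    rw [eg_mul, eg_prod]
    unfold bt
    congr 1
    exact Finset.prod_congr rfl fun j _ => (eg_pow _ _).symm
  rw [h1]
  exact eg_Eig _ (mul_ne_zero (h.gne _)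
    (Finset.prod_ne_zero_iff.2 fun _ _ => pow_ne_zero _ (h.gne _)))

/-- `kum_mul`, `kum_prod`, `kum_pow`. -/
theorem kum_bt {t d : ℕ} {z : 𝓞 C} {Q : Fin t ⊕ Fin d → Ideal (𝓞 C)}
    {g : Fin t ⊕ Fin d → 𝓞 C} {e : Fin t ⊕ Fin d → ℕ} {b : Fin t ⊕ Fin d → Ideal (𝓞 C)}
    {P : Fin t ⊕ Fin d → Ideal (𝓞 Ω)} {x : Fin t ⊕ Fin d → (Ω ≃ₐ[ℚ] Ω)}
    (h : PDat p k z Q g e b P x) (G : Matrix (Fin t) (Fin d) (ZMod p)) (i : Fin d)
    (σ : Ω ≃ₐ[ℚ] Ω) (hσ : σ ∈ HC Ω p k) :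
    kum Ω C p (z ^ (p ^ k)) (bt C p k g G i) σ =
      kum Ω C p (z ^ (p ^ k)) (eg C p k (g (Sum.inr i))) σ +
        ∑ j, G j i * kum Ω C p (z ^ (p ^ k)) (eg C p k (g (Sum.inl j))) σ := by
  have hzp := p2_root (C := C) h.hz
  unfold bt
  rw [kum_mul _ hzp _ _ (eg_ne_zero _ (h.gne _))
    (Finset.prod_ne_zero_iff.2 fun _ _ => pow_ne_zero _ (eg_ne_zero _ (h.gne _))) σ hσ,
    kum_prod _ hzp _ _ (fun _ _ => pow_ne_zero _ (eg_ne_zero _ (h.gne _))) σ hσ]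
  congr 1
  refine Finset.sum_congr rfl fun j _ => ?_
  rw [kum_pow _ hzp _ (eg_ne_zero _ (h.gne _)) _ σ hσ, ZMod.natCast_zmod_val]

theorem p2_aux {t d : ℕ} {z : 𝓞 C} {Q : Fin t ⊕ Fin d → Ideal (𝓞 C)}
    {g : Fin t ⊕ Fin d → 𝓞 C} {e : Fin t ⊕ Fin d → ℕ} {b : Fin t ⊕ Fin d → Ideal (𝓞 C)}
    {P : Fin t ⊕ Fin d → Ideal (𝓞 Ω)} {x : Fin t ⊕ Fin d → (Ω ≃ₐ[ℚ] Ω)}
    (h : PDat p k z Q g e b P x) (G : Matrix (Fin t) (Fin d) (ZMod p)) (i : Fin d)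
    (σ : Ω ≃ₐ[ℚ] Ω) (hσ : σ ∈ HC Ω p k) (s : Fin t ⊕ Fin d)
    (hs : ∀ s', s ≠ s' → kum Ω C p (z ^ (p ^ k)) (eg C p k (g s')) σ = 0) :
    kum Ω C p (z ^ (p ^ k)) (bt C p k g G i) σ =
      wt G s i * kum Ω C p (z ^ (p ^ k)) (eg C p k (g s)) σ := by
  rw [kum_bt h G i σ hσ]
  rcases s with j | i'
  · rw [hs _ Sum.inl_ne_inr, zero_add, Finset.sum_eq_single j]
    · rfl
    · intro j' _ hj'
      rw [hs _ (fun h1 => hj' (Sum.inl.inj h1).symm), mul_zero]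
    · intro h1
      exact absurd (Finset.mem_univ j) h1
  · rw [Finset.sum_eq_zero fun j _ => by rw [hs _ Sum.inr_ne_inl, mul_zero], add_zero]
    change _ = (if i' = i then 1 else 0) * _
    by_cases h1 : i' = i
    · rw [if_pos h1, one_mul, h1]
    · rw [if_neg h1, zero_mul, hs _ (fun h2 => h1 (Sum.inr.inj h2))]

/-- `kum_bt` and `kum_x_other`. -/
theorem kum_bt_x {t d : ℕ} {z : 𝓞 C} {Q : Fin t ⊕ Fin d → Ideal (𝓞 C)}
    {g : Fin t ⊕ Fin d → 𝓞 C} {e : Fin t ⊕ Fin d → ℕ} {b : Fin t ⊕ Fin d → Ideal (𝓞 C)}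
    {P : Fin t ⊕ Fin d → Ideal (𝓞 Ω)} {x : Fin t ⊕ Fin d → (Ω ≃ₐ[ℚ] Ω)}
    (h : PDat p k z Q g e b P x) (G : Matrix (Fin t) (Fin d) (ZMod p)) (i : Fin d)
    (s : Fin t ⊕ Fin d) :
    kum Ω C p (z ^ (p ^ k)) (bt C p k g G i) (x s) =
      wt G s i * kum Ω C p (z ^ (p ^ k)) (eg C p k (g s)) (x s) :=
  p2_aux h G i (x s) (h.xH s) s fun s' hs' => kum_x_other h s s' hs'

/-- The row sums. -/
theorem wt_sum {t d : ℕ} (G : Matrix (Fin t) (Fin d) (ZMod p)) (hG : ∀ j, ∑ i, G j i = 1)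
    (s : Fin t ⊕ Fin d) : ∑ i, wt G s i = 1 := by
  rcases s with j | i'
  · exact hG j
  · change ∑ i, (if i' = i then (1 : ZMod p) else 0) = 1
    rw [Finset.sum_ite_eq Finset.univ i', if_pos (Finset.mem_univ _)]

/-- (5.4) `σ ∈ HC ∩ inG P'`, `p ∉ P'`. If `Q' = PC C P'` is in no orbit then all multiplicities of
the `eg (g s)` at `Q'` are `0` modulo `p` (`vQ_other`), all symbols vanish, `c = 0`. If
`Q'.comap (sga a) = Q s`, `a^(p-1) = 1`, then `vQ Q' (bt i) = wt s i * vQ Q' (eg (g s))` modulo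
`p` (`vQ_orbit`, `vQ_other`, `orbit_unique`), so by `kum_tame_prop`
`kum (bt i) σ = wt s i * kum (eg (g s)) σ`. -/
theorem kum_bt_tame {t d : ℕ} {z : 𝓞 C} {Q : Fin t ⊕ Fin d → Ideal (𝓞 C)}
    {g : Fin t ⊕ Fin d → 𝓞 C} {e : Fin t ⊕ Fin d → ℕ} {b : Fin t ⊕ Fin d → Ideal (𝓞 C)}
    {P : Fin t ⊕ Fin d → Ideal (𝓞 Ω)} {x : Fin t ⊕ Fin d → (Ω ≃ₐ[ℚ] Ω)}
    (h : PDat p k z Q g e b P x) (G : Matrix (Fin t) (Fin d) (ZMod p))
    (hG : ∀ j, ∑ i, G j i = 1) (P' : Ideal (𝓞 Ω)) (hP' : P'.IsMaximal) (hp : (p : 𝓞 Ω) ∉ P')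
    (σ : Ω ≃ₐ[ℚ] Ω) (hσ : σ ∈ HC Ω p k) (hσP : σ ∈ inG P') :
    (∀ i, ∑ i', kum Ω C p (z ^ (p ^ k)) (bt C p k g G i') σ = 0 →
      kum Ω C p (z ^ (p ^ k)) (bt C p k g G i) σ = 0) ∧
    ((∀ (s : Fin t ⊕ Fin d) (a : (ZMod (p ^ (k + 1)))ˣ), a ^ (p - 1) = 1 →
      (PC C P').comap (sga (p ^ (k + 1)) C a : 𝓞 C →+* 𝓞 C) ≠ Q s) →
      ∀ i, kum Ω C p (z ^ (p ^ k)) (bt C p k g G i) σ = 0) := by
  have hzp := p2_root (C := C) h.hz
  obtain ⟨hQ'p, hQ'0⟩ := PC_prime (C := C) P' hP'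
  have hvan : ∀ s', (∀ a : (ZMod (p ^ (k + 1)))ˣ, a ^ (p - 1) = 1 →
      (PC C P').comap (sga (p ^ (k + 1)) C a : 𝓞 C →+* 𝓞 C) ≠ Q s') →
      kum Ω C p (z ^ (p ^ k)) (eg C p k (g s')) σ = 0 := by
    intro s' hs'
    have h1 := vQ_other h s' (PC C P') hQ'p hQ'0 hs'
    exact kum_tame_zero _ hzp P' hP' hp _ (eg_ne_zero _ (h.gne _))
      ((ZMod.natCast_eq_zero_iff _ _).1 h1) σ hσ hσP
  have hall : (∀ (s : Fin t ⊕ Fin d) (a : (ZMod (p ^ (k + 1)))ˣ), a ^ (p - 1) = 1 →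
      (PC C P').comap (sga (p ^ (k + 1)) C a : 𝓞 C →+* 𝓞 C) ≠ Q s) →
      ∀ i, kum Ω C p (z ^ (p ^ k)) (bt C p k g G i) σ = 0 := by
    intro h1 i
    rw [kum_bt h G i σ hσ, hvan _ (h1 _), zero_add]
    exact Finset.sum_eq_zero fun j _ => by rw [hvan _ (h1 _), mul_zero]
  refine ⟨?_, hall⟩
  intro i hsum
  by_cases hcase : ∀ (s : Fin t ⊕ Fin d) (a : (ZMod (p ^ (k + 1)))ˣ), a ^ (p - 1) = 1 →
      (PC C P').comap (sga (p ^ (k + 1)) C a : 𝓞 C →+* 𝓞 C) ≠ Q s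
  · exact hall hcase i
  · push Not at hcase
    obtain ⟨s, a, ha, hQ⟩ := hcase
    have h2 : ∀ i, kum Ω C p (z ^ (p ^ k)) (bt C p k g G i) σ =
        wt G s i * kum Ω C p (z ^ (p ^ k)) (eg C p k (g s)) σ := fun i =>
      p2_aux h G i σ hσ s fun s' hs' => hvan s' fun a' ha' hQ' =>
        hs' (orbit_unique h s s' (PC C P') a a' hQ hQ')
    have h3 : kum Ω C p (z ^ (p ^ k)) (eg C p k (g s)) σ = 0 := by
      rw [Finset.sum_congr rfl fun i' _ => h2 i', ← Finset.sum_mul, wt_sum G hG s, one_mul] at hsum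
      exact hsum
    rw [h2 i, h3, mul_zero]

end Pool.Agent.MPca71X
end

section
set_option autoImplicit false
open scoped NumberField
open NumberField

/-! Job M2a (medium): eigenvectors and a normal form (paper 286, KW). -/

namespace Pool.Agent.MPca71X

open Pool.Agent.MPca71W

variable {Ω C : Type} [Field Ω] [Algebra ℚ Ω] [IsAlgClosed Ω] [Algebra.IsAlgebraic ℚ Ω] {p k : ℕ}
  [Fact p.Prime] [Field C] [NumberField C] [IsCyclotomicExtension {p ^ (k + 1)} ℚ C] [Algebra C Ω]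
  [IsScalarTower ℚ C Ω]

/-- Invariant symbols belong to eigenvectors (same proof as in `exists_alpha`: `kum_conj`,
`kum_all_zero`). -/
theorem eig_of_kum (zp : 𝓞 C) (hz : IsPrimitiveRoot zp p) (x : 𝓞 C) (hx : x ≠ 0)
    (h : ∀ τ ∈ GF Ω p k, ∀ g ∈ HC Ω p k,
      kum Ω C p zp x (τ * g * τ⁻¹) = kum Ω C p zp x g) : Eig Ω C p k x := by
  intro τ hτ
  set σ := kap Ω (p ^ (k + 1)) τ with hσ
  set r := rd σ with hr
  have hy : sga (p ^ (k + 1)) C σ x ≠ 0 := by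
    intro h0
    exact hx ((sga (p ^ (k + 1)) C σ).injective (by rw [h0, map_zero]))
  have hxr : x ^ r.val ≠ 0 := pow_ne_zero _ hx
  have hxr1 : (x ^ r.val) ^ (p - 1) ≠ 0 := pow_ne_zero _ hxr
  have hp1 : 1 ≤ p := (Fact.out : p.Prime).one_le
  have hk : ∀ g ∈ HC Ω p k,
      kum Ω C p zp (sga (p ^ (k + 1)) C σ x * (x ^ r.val) ^ (p - 1)) g = 0 := by
    intro g hg
    have hN := HC_normal (Ω := Ω) (p := p) (k := k)
    have hg' : τ⁻¹ * g * τ ∈ HC Ω p k := by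
      have := hN.conj_mem g hg τ⁻¹
      simpa using this
    have h1 := kum_conj (Ω := Ω) (C := C) (k := k) zp hz x hx τ (τ⁻¹ * g * τ) hg'
    have e1 : τ * (τ⁻¹ * g * τ) * τ⁻¹ = g := by group
    rw [e1] at h1
    have h2 := h τ⁻¹ ((GF Ω p k).inv_mem hτ) g hg
    rw [inv_inv] at h2
    rw [h2] at h1
    rw [kum_mul zp hz _ _ hy hxr1 g hg, kum_pow zp hz _ hxr _ g hg, kum_pow zp hz _ hx _ g hg,
      ← hσ] at *
    rw [h1, ← hr, ZMod.natCast_zmod_val, Nat.cast_sub hp1]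
    simp
  obtain ⟨b, c, hb, hc, hbc⟩ := kum_all_zero zp hz _ (mul_ne_zero hy hxr1) hk
  refine ⟨b, x ^ r.val * c, hb, mul_ne_zero hxr hc, ?_⟩
  calc sga (p ^ (k + 1)) C σ x * (x ^ r.val * c) ^ p
      = x ^ r.val * (sga (p ^ (k + 1)) C σ x * (x ^ r.val) ^ (p - 1) * c ^ p) := by
        obtain ⟨q, rfl⟩ : ∃ q, p = q + 1 := ⟨p - 1, by omega⟩
        simp only [Nat.add_sub_cancel]
        ring
    _ = _ := by rw [hbc]

/-- Multiplicities of an eigenvector: `τ x c^p = x^d b^p` with `kap τ = a`, `d = rd a`, and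
`vQ_sga`. -/
theorem vQ_eig (x : 𝓞 C) (hx : x ≠ 0) (hE : Eig Ω C p k x) (a : (ZMod (p ^ (k + 1)))ˣ)
    (ha : a ^ (p - 1) = 1) (Q : Ideal (𝓞 C)) (hQ : Q.IsPrime) (hQ0 : Q ≠ ⊥) :
    ((vQ (Q.comap (sga (p ^ (k + 1)) C a : 𝓞 C →+* 𝓞 C)) x : ℕ) : ZMod p) =
      rd a * ((vQ Q x : ℕ) : ZMod p) := by
  obtain ⟨τ, hτ, hra⟩ := exists_GF (Ω := Ω) (p := p) (k := k) (rd a) (rd_ne_zero a)
  have hτ' : (kap Ω (p ^ (k + 1)) τ) ^ (p - 1) = 1 := by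
    have := hτ
    rw [GF, MonoidHom.mem_ker] at this
    exact this
  have hka : kap Ω (p ^ (k + 1)) τ = a := rd_inj _ _ hτ' ha hra
  obtain ⟨b, c, hb, hc, h⟩ := hE τ hτ
  rw [hka] at h
  have hy : sga (p ^ (k + 1)) C a x ≠ 0 := by
    intro h0
    exact hx ((sga (p ^ (k + 1)) C a).injective (by rw [h0, map_zero]))
  have h' := congrArg (vQ Q) h
  rw [vQ_mul Q hQ hQ0 _ _ hy (pow_ne_zero _ hc), vQ_mul Q hQ hQ0 _ _ (pow_ne_zero _ hx)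
    (pow_ne_zero _ hb), vQ_pow Q hQ hQ0 _ hc, vQ_pow Q hQ hQ0 _ hb, vQ_pow Q hQ hQ0 _ hx,
    vQ_sga] at h'
  have h2 := congrArg (Nat.cast : ℕ → ZMod p) h'
  push_cast at h2
  simpa using h2

/-- Normal form. Start with `α` from `exists_alpha`. `p ∣ vQ (PC C P) α` for `p ∉ P` by
`exists_tame`. `p ∣ vQ (π) α`: `vQ_eig` for `Q = (π)`, which is stable under `sga a`, with
`rd a ≠ 1` (`p` odd). By `vQ_local` for `Q = (π)`, `α c^p = η^p x0`, `π ∤ x0`,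
`kum x0 = kum α`. Put `x = x0 ^ ((p-1)^2)`, `(p-1)^2 = 1 mod p`, `x = 1 mod π` by `frob_pi`
(`x0^(p-1) = 1 mod π`). `Eig x` by `eig_of_kum`, `kum_eig`. The last statement by
`exists_tame` again. -/
theorem exists_normal (hp2 : p ≠ 2) (z : 𝓞 C) (hz : IsPrimitiveRoot z (p ^ (k + 1)))
    (χ : (GF Ω p k) → ZMod p)
    (hχ : χ ∈ chs p (GF Ω p k)) (ho : IsOpen {g : GF Ω p k | χ g = 0})
    (hI : ∀ (P : Ideal (𝓞 Ω)), P.IsMaximal → (p : 𝓞 Ω) ∉ P → ∀ g : GF Ω p k,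
      (g : Ω ≃ₐ[ℚ] Ω) ∈ inG P → χ g = 0) :
    ∃ x : 𝓞 C, x ≠ 0 ∧ Eig Ω C p k x ∧ (1 - z) ∣ x - 1 ∧
      (∀ h : GF Ω p k, (h : Ω ≃ₐ[ℚ] Ω) ∈ HC Ω p k →
        χ h = kum Ω C p (z ^ (p ^ k)) x (h : Ω ≃ₐ[ℚ] Ω)) ∧
      ∀ (P : Ideal (𝓞 Ω)), P.IsMaximal → (p : 𝓞 Ω) ∉ P → p ∣ vQ (PC C P) x := by
  have hp : p.Prime := Fact.out
  have hzp : IsPrimitiveRoot (z ^ (p ^ k)) p :=
    hz.pow (pow_pos hp.pos _) (pow_succ p k)
  obtain ⟨α, hα, hEα, hαχ⟩ := exists_alpha (k := k) (z ^ (p ^ k)) hzp χ hχ ho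
  have hπ : Prime (1 - z) := pi_prime (k := k) z hz
  set Q : Ideal (𝓞 C) := Ideal.span {1 - z} with hQdef
  have hQ : Q.IsPrime := (Ideal.span_singleton_prime hπ.ne_zero).2 hπ
  have hQ0 : Q ≠ ⊥ := by
    rw [hQdef, Ne, Ideal.span_singleton_eq_bot]; exact hπ.ne_zero
  have hQm : Q.IsMaximal := hQ.isMaximal hQ0
  -- the multiplicity at π
  obtain ⟨a, ha, hra⟩ := rd_surj (p := p) (k := k) (-1) (by simp)
  have hcomap : Q.comap (sga (p ^ (k + 1)) C a : 𝓞 C →+* 𝓞 C) = Q := by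
    have hle : Q ≤ Q.comap (sga (p ^ (k + 1)) C a : 𝓞 C →+* 𝓞 C) := by
      rw [hQdef, Ideal.span_singleton_le_iff_mem, Ideal.mem_comap, Ideal.mem_span_singleton]
      have h1 := sga_pi (k := k) z hz a (rd a).val (by simp) 1 1
      have h2 : (1 - z) ∣ sga (p ^ (k + 1)) C a ((1 - z) ^ 1 * 1) -
          (((rd a).val : ℕ) : 𝓞 C) ^ 1 * ((1 - z) ^ 1 * 1) :=
        (Dvd.intro_left ((1 - z) ^ 1) (by ring)).trans h1
      have h3 : (1 - z) ∣ (((rd a).val : ℕ) : 𝓞 C) ^ 1 * ((1 - z) ^ 1 * 1) :=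
        ⟨((rd a).val : ℕ), by ring⟩
      have h4 := (dvd_sub_left h3).1 h2
      simpa using h4
    have hne : Q.comap (sga (p ^ (k + 1)) C a : 𝓞 C →+* 𝓞 C) ≠ ⊤ := by
      have : (Q.comap (sga (p ^ (k + 1)) C a : 𝓞 C →+* 𝓞 C)).IsPrime := Ideal.comap_isPrime _ _
      exact Ideal.IsPrime.ne_top inferInstance
    exact (hQm.eq_of_le hne hle).symm
  have hv0 : p ∣ vQ Q α := by
    have h1 := vQ_eig α hα hEα a ha Q hQ hQ0
    rw [hcomap, hra] at h1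
    have h2 : (2 : ZMod p) * ((vQ Q α : ℕ) : ZMod p) = 0 := by linear_combination h1
    have h3 : (2 : ZMod p) ≠ 0 := by
      intro h0
      have h0' : ((2 : ℕ) : ZMod p) = 0 := by exact_mod_cast h0
      have := (ZMod.natCast_eq_zero_iff 2 p).1 h0'
      exact hp2 ((Nat.prime_dvd_prime_iff_eq hp Nat.prime_two).1 this)
    exact (ZMod.natCast_eq_zero_iff _ p).1 ((mul_eq_zero.1 h2).resolve_left h3)
  obtain ⟨c, η, x0, hcQ, hx0Q, hη, hc⟩ := vQ_local Q hQ hQ0 α hα hv0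
  have hc0 : c ≠ 0 := fun h0 => hcQ (by rw [h0]; exact Q.zero_mem)
  have hx00 : x0 ≠ 0 := fun h0 => hx0Q (by rw [h0]; exact Q.zero_mem)
  have hk0 : ∀ g ∈ HC Ω p k, kum Ω C p (z ^ (p ^ k)) α g = kum Ω C p (z ^ (p ^ k)) x0 g := by
    intro g hg
    exact kum_congr _ hzp α x0 η c hα hx00 hη hc0 (by rw [hc]; ring) g hg
  have hk1 : ∀ g ∈ HC Ω p k, kum Ω C p (z ^ (p ^ k)) (x0 ^ ((p - 1) * (p - 1))) g =
      kum Ω C p (z ^ (p ^ k)) α g := by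
    intro g hg
    rw [kum_pow _ hzp _ hx00 _ g hg, hk0 g hg]
    have e : (((p - 1) * (p - 1) : ℕ) : ZMod p) = 1 := by
      rw [Nat.cast_mul, Nat.cast_sub hp.one_le]
      simp
    rw [e, one_mul]
  have hxx : x0 ^ ((p - 1) * (p - 1)) ≠ 0 := pow_ne_zero _ hx00
  have hN := HC_normal (Ω := Ω) (p := p) (k := k)
  have hχx : ∀ h : GF Ω p k, (h : Ω ≃ₐ[ℚ] Ω) ∈ HC Ω p k →
      χ h = kum Ω C p (z ^ (p ^ k)) (x0 ^ ((p - 1) * (p - 1))) (h : Ω ≃ₐ[ℚ] Ω) := by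
    intro h hh
    rw [hk1 _ hh]
    exact hαχ h hh
  refine ⟨x0 ^ ((p - 1) * (p - 1)), hxx, ?_, ?_, hχx, ?_⟩
  · refine eig_of_kum (z ^ (p ^ k)) hzp _ hxx ?_
    intro τ hτ g hg
    rw [hk1 _ (hN.conj_mem g hg τ), hk1 _ hg]
    exact kum_eig _ hzp α hα hEα τ g hτ hg
  · have h1 : (1 - z) ∣ x0 ^ (p - 1) - 1 := by
      have h2 := frob_pi (k := k) z hz x0
      have e : x0 ^ p - x0 = x0 * (x0 ^ (p - 1) - 1) := by
        obtain ⟨q, rfl⟩ : ∃ q, p = q + 1 := ⟨p - 1, by have := hp.one_le; omega⟩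
        simp only [Nat.add_sub_cancel]
        ring
      rw [e] at h2
      refine (hπ.dvd_or_dvd h2).resolve_left ?_
      intro h3
      exact hx0Q (Ideal.mem_span_singleton.2 h3)
    rw [pow_mul]
    have h2 := sub_dvd_pow_sub_pow (x0 ^ (p - 1)) 1 (p - 1)
    rw [one_pow] at h2
    exact h1.trans h2
  · intro P hP hpP
    by_contra hcon
    obtain ⟨g, hg, hgP, hne⟩ := exists_tame (k := k) _ hzp P hP _ hxx hcon
    have h1 := hI P hP hpP ⟨g, HC_le_GF Ω p k hg⟩ hgP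
    rw [hχx ⟨g, HC_le_GF Ω p k hg⟩ hg] at h1
    exact hne h1

end Pool.Agent.MPca71X
end

section
set_option autoImplicit false
open scoped NumberField
open NumberField

/-! Job P3 (medium-easy): congruences (paper 286, 5.3 and the end of 5.5). -/

namespace Pool.Agent.MPca71X

open Pool.Agent.MPca71W

variable {Ω C : Type} [Field Ω] [Algebra ℚ Ω] [IsAlgClosed Ω] [Algebra.IsAlgebraic ℚ Ω] {p k : ℕ}
  [Fact p.Prime] [Field C] [NumberField C] [IsCyclotomicExtension {p ^ (k + 1)} ℚ C] [Algebra C Ω]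
  [IsScalarTower ℚ C Ω]

theorem p3_one (z : 𝓞 C) (hz : IsPrimitiveRoot z (p ^ (k + 1))) (m : ℕ) (hm : 1 ≤ m)
    (hm' : (p - 1) ∣ (m - 1)) : ¬ (1 - z) ∣ eg C p k (1 + (1 - z) ^ m) := by
  intro h1
  have hprime := pi_prime (p := p) (k := k) z hz
  have h2 := (dvd_pow_self (1 - z) (Nat.succ_ne_zero m)).trans (eg_leading z hz m hm hm')
  have h3 : (1 - z) ∣ (1 - z) ^ m := dvd_pow_self _ (by omega)
  apply hprime.not_isUnit
  rw [isUnit_iff_dvd_one]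
  have h4 : eg C p k (1 + (1 - z) ^ m) + (1 - z) ^ m -
      (eg C p k (1 + (1 - z) ^ m) - 1 + (1 - z) ^ m) = 1 := by ring
  have h5 := dvd_sub (dvd_add h1 h3) h2
  rwa [h4] at h5

/-- For exponents `n s` (`s ∈ Fin t ⊕ Fin d`) put
`c j = (n (inl j) - ∑ i, G j i * n (inr i) : ZMod p).val < p`. Modulo `π^(p^(k+1))`:
`z^b ∏_s eg(g s)^(n s) = z^b ∏_j eg(1 + π^(m j))^(n (inl j) + ∑_i (p - G j i) n (inr i))`
(`eg_dvd_sub`, `CDat`), the exponent is `c j + p q j` with `q j : ℕ`, so it is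
`z^b ∏_j eg(1 + π^(m j))^(c j) * η^p`, `η = ∏_j eg(1 + π^(m j))^(q j)`, `π ∤ η`
(`eg_leading`: `eg (1 + π^m) = 1` modulo `π`). -/
theorem cong_prod {t d : ℕ} {z : 𝓞 C} (hz : IsPrimitiveRoot z (p ^ (k + 1)))
    {g : Fin t ⊕ Fin d → 𝓞 C} {G : Matrix (Fin t) (Fin d) (ZMod p)} {m : Fin t → ℕ}
    (h : CDat p k z g G m) (b : ℕ) (n : Fin t ⊕ Fin d → ℕ) :
    ∃ η : 𝓞 C, ¬ (1 - z) ∣ η ∧ (1 - z) ^ (p ^ (k + 1)) ∣
      z ^ b * ∏ s, eg C p k (g s) ^ n s -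
        (z ^ b * ∏ j, eg C p k (1 + (1 - z) ^ m j) ^
          ((n (Sum.inl j) : ZMod p) - ∑ i, G j i * (n (Sum.inr i) : ZMod p)).val) * η ^ p := by
  classical
  have hp := (Fact.out : p.Prime)
  have hprime := pi_prime (p := p) (k := k) z hz
  obtain ⟨E, hE⟩ : ∃ E : Fin t → 𝓞 C, ∀ j, E j = eg C p k (1 + (1 - z) ^ m j) := ⟨_, fun _ => rfl⟩
  obtain ⟨ee, hee⟩ : ∃ ee : Fin t → ℕ, ∀ j, ee j = n (Sum.inl j) +
      ∑ i, (p - (G j i).val) * n (Sum.inr i) := ⟨_, fun _ => rfl⟩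
  obtain ⟨c, hc⟩ : ∃ c : Fin t → ℕ, ∀ j, c j = ((n (Sum.inl j) : ZMod p) -
      ∑ i, G j i * (n (Sum.inr i) : ZMod p)).val := ⟨_, fun _ => rfl⟩
  have hcast : ∀ j, (ee j : ZMod p) = (n (Sum.inl j) : ZMod p) -
      ∑ i, G j i * (n (Sum.inr i) : ZMod p) := by
    intro j
    rw [hee, Nat.cast_add, Nat.cast_sum, sub_eq_add_neg, ← Finset.sum_neg_distrib]
    congr 1
    refine Finset.sum_congr rfl fun i _ => ?_
    rw [Nat.cast_mul, Nat.cast_sub (ZMod.val_lt _).le, ZMod.natCast_self, zero_sub,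
      ZMod.natCast_zmod_val, neg_mul]
  have hmod : ∀ j, ee j % p = c j := by
    intro j
    rw [hc, ← hcast, ZMod.val_natCast]
  have hdiv : ∀ j, ee j = c j + (ee j / p) * p := by
    intro j
    rw [← hmod, Nat.mul_comm]
    exact (Nat.mod_add_div _ _).symm
  refine ⟨∏ j, E j ^ (ee j / p), ?_, ?_⟩
  · intro h1
    obtain ⟨j, _, hj⟩ := (hprime.dvd_finsetProd_iff _).1 h1
    have h2 := hprime.dvd_of_dvd_pow hj
    rw [hE] at h2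
    exact p3_one z hz (m j) (h.m1 j).le (h.m4 j) h2
  · obtain ⟨q, hq⟩ : ∃ q : 𝓞 C →+* 𝓞 C ⧸ Ideal.span {(1 - z) ^ (p ^ (k + 1))},
        q = Ideal.Quotient.mk _ := ⟨_, rfl⟩
    have hqi : ∀ a b : 𝓞 C, (1 - z) ^ (p ^ (k + 1)) ∣ a - b ↔ q a = q b := by
      intro a b
      rw [hq, Ideal.Quotient.eq, Ideal.mem_span_singleton]
    have hl : ∀ j, q (eg C p k (g (Sum.inl j))) = q (E j) := by
      intro j
      rw [← hqi, hE]
      exact eg_dvd_sub z hz _ _ _ (h.cl j)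
    have hr : ∀ i, q (eg C p k (g (Sum.inr i))) = ∏ j, q (E j) ^ (p - (G j i).val) := by
      intro i
      have h1 := (hqi _ _).1 (eg_dvd_sub z hz _ _ _ (h.cr i))
      rw [h1, eg_prod, map_prod]
      refine Finset.prod_congr rfl fun j _ => ?_
      rw [eg_pow, map_pow, hE]
    have hprod : q (∏ s, eg C p k (g s) ^ n s) = ∏ j, q (E j) ^ ee j := by
      rw [Fintype.prod_sum_type, map_mul, map_prod, map_prod]
      have h1 : ∀ i, q (eg C p k (g (Sum.inr i)) ^ n (Sum.inr i)) =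
          ∏ j, q (E j) ^ ((p - (G j i).val) * n (Sum.inr i)) := by
        intro i
        rw [map_pow, hr, ← Finset.prod_pow]
        exact Finset.prod_congr rfl fun j _ => (pow_mul _ _ _).symm
      rw [Finset.prod_congr rfl fun i _ => h1 i, Finset.prod_comm, ← Finset.prod_mul_distrib]
      refine Finset.prod_congr rfl fun j _ => ?_
      rw [map_pow, hl, hee, pow_add (q (E j)) (n (Sum.inl j)), Finset.prod_pow_eq_pow_sum]
    rw [hqi, map_mul, hprod, map_mul, map_mul, map_prod, mul_assoc]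
    congr 1
    rw [map_pow q _ p, map_prod, ← Finset.prod_pow, ← Finset.prod_mul_distrib]
    refine Finset.prod_congr rfl fun j _ => ?_
    have e1 := hdiv j
    rw [← hE, ← hc, map_pow q (E j) (c j), map_pow q (E j) (ee j / p), ← pow_mul, ← pow_add, ← e1]

/-- (5.3) For `p ∈ P'` the symbols of the `β_i` vanish on `HC ∩ inG P'`: `cong_prod` with `b = 0`,
`n (inr i) = 1`, `n (inl j) = (G j i).val`, other exponents `0`: all `c j = 0`, so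
`bt i = η^p` modulo `π^(p^(k+1))`, and `kum_wild_congr`, `kum_pow`. -/
theorem kum_bt_wild {t d : ℕ} {z : 𝓞 C} {Q : Fin t ⊕ Fin d → Ideal (𝓞 C)}
    {g : Fin t ⊕ Fin d → 𝓞 C} {e : Fin t ⊕ Fin d → ℕ} {b : Fin t ⊕ Fin d → Ideal (𝓞 C)}
    {P : Fin t ⊕ Fin d → Ideal (𝓞 Ω)} {x : Fin t ⊕ Fin d → (Ω ≃ₐ[ℚ] Ω)}
    (h : PDat p k z Q g e b P x) {G : Matrix (Fin t) (Fin d) (ZMod p)} {m : Fin t → ℕ}
    (hc : CDat p k z g G m) (P' : Ideal (𝓞 Ω)) (hP' : P'.IsMaximal) (hp : (p : 𝓞 Ω) ∈ P')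
    (σ : Ω ≃ₐ[ℚ] Ω) (hσ : σ ∈ HC Ω p k) (hσP : σ ∈ inG P') (i : Fin d) :
    kum Ω C p (z ^ (p ^ k)) (bt C p k g G i) σ = 0 := by
  classical
  have hprime := pi_prime (p := p) (k := k) z h.hz
  obtain ⟨n, hnl, hnr⟩ : ∃ n : Fin t ⊕ Fin d → ℕ, (∀ j, n (Sum.inl j) = (G j i).val) ∧
      ∀ i', n (Sum.inr i') = if i' = i then 1 else 0 :=
    ⟨Sum.elim (fun j => (G j i).val) fun i' => if i' = i then 1 else 0, fun _ => rfl,
      fun _ => rfl⟩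
  obtain ⟨η, hη, hηd⟩ := cong_prod h.hz hc 0 n
  have h1 : z ^ 0 * ∏ s, eg C p k (g s) ^ n s = bt C p k g G i := by
    rw [pow_zero, one_mul, Fintype.prod_sum_type]
    unfold bt
    rw [mul_comm]
    congr 1
    · rw [Finset.prod_eq_single i]
      · rw [hnr, if_pos rfl, pow_one]
      · intro i' _ hi'
        rw [hnr, if_neg hi', pow_zero]
      · intro h2
        exact absurd (Finset.mem_univ i) h2
    · exact Finset.prod_congr rfl fun j _ => by rw [hnl]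
  have h2 : (z ^ 0 * ∏ j, eg C p k (1 + (1 - z) ^ m j) ^
      ((n (Sum.inl j) : ZMod p) - ∑ i, G j i * (n (Sum.inr i) : ZMod p)).val) = 1 := by
    rw [pow_zero, one_mul]
    refine Finset.prod_eq_one fun j _ => ?_
    have h3 : ((n (Sum.inl j) : ZMod p) - ∑ i, G j i * (n (Sum.inr i) : ZMod p)) = 0 := by
      rw [Finset.sum_eq_single i]
      · rw [hnl, hnr, if_pos rfl, ZMod.natCast_zmod_val, Nat.cast_one, mul_one, sub_self]
      · intro i' _ hi'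
        rw [hnr, if_neg hi', Nat.cast_zero, mul_zero]
      · intro h4
        exact absurd (Finset.mem_univ i) h4
    rw [h3, ZMod.val_zero, pow_zero]
  rw [h1, h2, one_mul] at hηd
  have hη0 : η ≠ 0 := by
    rintro rfl
    exact hη (dvd_zero _)
  rw [kum_wild_congr z h.hz P' hP' hp _ (η ^ p) (fun h3 => hη (hprime.dvd_of_dvd_pow h3)) hηd σ hσ
    hσP, kum_pow _ (p2_root (C := C) h.hz) η hη0 p σ hσ, ZMod.natCast_self, zero_mul]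

end Pool.Agent.MPca71X
end

section
set_option autoImplicit false
open scoped NumberField
open NumberField

/-! Job M2b (medium): eigenvectors are locally trivial for `k = 0` (paper 286, KW). -/

namespace Pool.Agent.MPca71X

open Pool.Agent.MPca71W

variable {Ω : Type} [Field Ω] [Algebra ℚ Ω] [IsAlgClosed Ω] [Algebra.IsAlgebraic ℚ Ω] {p k : ℕ}
  [Fact p.Prime]

private theorem M2b_pow_congr {R : Type} [CommRing R] {p : ℕ} (hp : p.Prime) (π b c : R)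
    (hpπ : π ^ (p - 1) ∣ (p : R)) (h : π ∣ b - c) : π ^ p ∣ b ^ p - c ^ p := by
  obtain ⟨e, he⟩ := h
  obtain ⟨r, hr⟩ := exists_add_pow_prime_eq hp (π * e) c
  obtain ⟨u, hu⟩ := hpπ
  have h1 : b = π * e + c := by rw [← he]; ring
  have h2 : π ^ p = π ^ (p - 1) * π := by
    rw [← pow_succ, Nat.sub_add_cancel hp.one_lt.le]
  refine ⟨e ^ p + u * e * c * r, ?_⟩
  rw [h1, hr, hu]
  have h3 : (π * e) ^ p = π ^ p * e ^ p := mul_pow _ _ _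
  rw [h3]
  have h4 : π ^ (p - 1) * u * (π * e) * c * r = (π ^ (p - 1) * π) * (u * e * c * r) := by ring
  rw [h4, ← h2]
  ring

private theorem M2b_gen (p m : ℕ) [Fact p.Prime] (hm : 2 ≤ m) (hm' : m < p) :
    ∃ c : ZMod p, c ≠ 0 ∧ c ^ m ≠ c := by
  obtain ⟨g, hg⟩ := IsCyclic.exists_ofOrder_eq_natCard (α := (ZMod p)ˣ)
  rw [Nat.card_eq_fintype_card, ZMod.card_units] at hg
  refine ⟨(g : ZMod p), g.ne_zero, fun h => ?_⟩
  have h1 : g ^ m = g := Units.ext (by rw [Units.val_pow_eq_pow_val]; exact h)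
  have h2 : g ^ (m - 1) = 1 := by
    have h3 : g ^ (m - 1) * g = 1 * g := by
      rw [← pow_succ, Nat.sub_add_cancel (by omega), h1, one_mul]
    exact mul_right_cancel h3
  have h3 : orderOf g ∣ m - 1 := orderOf_dvd_of_pow_eq_one h2
  rw [hg] at h3
  have h4 := Nat.le_of_dvd (by omega) h3
  omega

private theorem M2b_cancel {R : Type} [CommRing R] [IsDomain R] [WfDvdMonoid R] {p : ℕ}
    (hp : p.Prime) (π : R) (hπ : Prime π) (A B b c : R) (hA : ¬ π ∣ A) (hB : ¬ π ∣ B)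
    (hb : b ≠ 0) (hc : c ≠ 0) (h : A * c ^ p = B * b ^ p) :
    ∃ b' c' : R, ¬ π ∣ b' ∧ ¬ π ∣ c' ∧ A * c' ^ p = B * b' ^ p := by
  obtain ⟨b', hb1, hb2⟩ :=
    (FiniteMultiplicity.of_not_isUnit hπ.not_isUnit hb).exists_eq_pow_mul_and_not_dvd
  obtain ⟨c', hc1, hc2⟩ :=
    (FiniteMultiplicity.of_not_isUnit hπ.not_isUnit hc).exists_eq_pow_mul_and_not_dvd
  generalize multiplicity π b = i at hb1
  generalize multiplicity π c = j at hc1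
  have hπ0 := hπ.ne_zero
  have hb3 : ¬ π ∣ B * b' ^ p := fun h => by
    rcases hπ.dvd_or_dvd h with h | h
    · exact hB h
    · exact hb2 (hπ.dvd_of_dvd_pow h)
  have hc3 : ¬ π ∣ A * c' ^ p := fun h => by
    rcases hπ.dvd_or_dvd h with h | h
    · exact hA h
    · exact hc2 (hπ.dvd_of_dvd_pow h)
  refine ⟨b', c', hb2, hc2, ?_⟩
  have h1 : π ^ (j * p) * (A * c' ^ p) = π ^ (i * p) * (B * b' ^ p) := by
    have h2 : A * c ^ p = π ^ (j * p) * (A * c' ^ p) := by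
      rw [hc1, mul_pow, ← pow_mul]
      ring
    have h3 : B * b ^ p = π ^ (i * p) * (B * b' ^ p) := by
      rw [hb1, mul_pow, ← pow_mul]
      ring
    rw [← h2, ← h3, h]
  rcases lt_trichotomy i j with hij | hij | hij
  · exfalso
    have h2 : i * p + 1 ≤ j * p := by
      have := Nat.mul_lt_mul_of_pos_right hij hp.pos
      omega
    obtain ⟨l, hl⟩ := Nat.exists_eq_add_of_le h2
    apply hb3
    rw [hl, pow_add, pow_add, pow_one] at h1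
    have h4 : π ^ (i * p) * (B * b' ^ p) = π ^ (i * p) * (π * (π ^ l * (A * c' ^ p))) := by
      rw [← h1]
      ring
    rw [mul_right_inj' (pow_ne_zero _ hπ0)] at h4
    exact ⟨_, h4⟩
  · subst hij
    exact (mul_right_inj' (pow_ne_zero _ hπ0)).1 h1
  · exfalso
    have h2 : j * p + 1 ≤ i * p := by
      have := Nat.mul_lt_mul_of_pos_right hij hp.pos
      omega
    obtain ⟨l, hl⟩ := Nat.exists_eq_add_of_le h2
    apply hc3
    rw [hl, pow_add, pow_add, pow_one] at h1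
    have h4 : π ^ (j * p) * (A * c' ^ p) = π ^ (j * p) * (π * (π ^ l * (B * b' ^ p))) := by
      rw [h1]
      ring
    rw [mul_right_inj' (pow_ne_zero _ hπ0)] at h4
    exact ⟨_, h4⟩

/-- The case `k = 0`, one step. `Eig x` for `τ` with `kap τ = a` (`a` arbitrary, `GF = ⊤`; take
`rd a` a generator of `(ℤ/p)ˣ`), `d = (rd a).val`: `sga a x * c^p = x^d b^p`. `vQ (π) b = vQ (π) c`,
so after dividing by a power of `π` we may assume `π ∤ b`, `π ∤ c`; then `b^p = c^p` modulo `π`, so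
`b = c mod π` (`frob_pi`), so `b^p = c^p` modulo `π^p` (`p` is associated to `π^(p-1)`), so
`sga a x = x^d` modulo `π^p`. With `x = 1 + π^m y`: `sga a x = 1 + d^m π^m y`,
`x^d = 1 + d π^m y` modulo `π^(m+1)` (`sga_pi`), so `π ∣ (d^m - d) y`, and
`p ∤ d^m - d` since `1 ≤ m - 1 ≤ p - 2`. -/
theorem eig_step {C : Type} [Field C] [NumberField C] [IsCyclotomicExtension {p ^ (0 + 1)} ℚ C]
    [Algebra C Ω] [IsScalarTower ℚ C Ω] (z : 𝓞 C) (hz : IsPrimitiveRoot z (p ^ (0 + 1)))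
    (x : 𝓞 C) (hx : x ≠ 0) (hE : Eig Ω C p 0 x) (m : ℕ) (hm : 2 ≤ m) (hm' : m < p)
    (h : (1 - z) ^ m ∣ x - 1) : (1 - z) ^ (m + 1) ∣ x - 1 := by
  have hp : p.Prime := Fact.out
  have hπ : Prime (1 - z) := pi_prime (k := 0) z hz
  obtain ⟨c0, hc0, hcm⟩ := M2b_gen p m hm hm'
  obtain ⟨τ, hτ, hτc⟩ := exists_GF Ω p 0 c0 hc0
  obtain ⟨b, c, hb, hc, hbc⟩ := hE τ hτ
  generalize kap Ω (p ^ (0 + 1)) τ = a at hτc hbc
  obtain ⟨d, hd⟩ : ∃ d : ℕ, d = (rd a).val := ⟨_, rfl⟩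
  rw [← hd] at hbc
  have hd1 : (d : ZMod p) = rd a := by rw [hd, ZMod.natCast_val, ZMod.cast_id]
  have hx1 : (1 - z) ∣ x - 1 := (dvd_pow_self _ (by omega)).trans h
  have hxn : ¬ (1 - z) ∣ x := fun h1 => hπ.not_dvd_one (by
    have := dvd_sub h1 hx1
    rwa [sub_sub_cancel] at this)
  have hs1 : (1 - z) ∣ sga (p ^ (0 + 1)) C a x - 1 := by
    have h1 := sga_pi (k := 0) z hz a d hd1 0 x
    have h0 : (1 - z) ^ (0 + 1) = 1 - z := by rw [zero_add, pow_one]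
    rw [h0, pow_zero, pow_zero, one_mul, one_mul] at h1
    have h2 := dvd_add h1 hx1
    rwa [sub_add_sub_cancel] at h2
  have hsn : ¬ (1 - z) ∣ sga (p ^ (0 + 1)) C a x := fun h1 => hπ.not_dvd_one (by
    have := dvd_sub h1 hs1
    rwa [sub_sub_cancel] at this)
  have hxd : ¬ (1 - z) ∣ x ^ d := fun h1 => hxn (hπ.dvd_of_dvd_pow h1)
  obtain ⟨b', c', hb', hc', hbc'⟩ := M2b_cancel hp (1 - z) hπ _ _ b c hsn hxd hb hc hbc
  -- `b' = c'` modulo `π`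
  have hxd1 : (1 - z) ∣ x ^ d - 1 := by
    have h1 := sub_dvd_pow_sub_pow x 1 d
    rw [one_pow] at h1
    exact hx1.trans h1
  have hbcπ : (1 - z) ∣ b' - c' := by
    have e1 : (1 - z) ∣ c' ^ p * (sga (p ^ (0 + 1)) C a x - 1) := hs1.mul_left _
    have e2 : (1 - z) ∣ b' ^ p * (x ^ d - 1) := hxd1.mul_left _
    have e3 := frob_pi (k := 0) z hz b'
    have e4 := frob_pi (k := 0) z hz c'
    have e5 : b' - c' = c' ^ p * (sga (p ^ (0 + 1)) C a x - 1) - b' ^ p * (x ^ d - 1)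
        - (b' ^ p - b') + (c' ^ p - c') := by
      linear_combination -hbc'
    rw [e5]
    exact dvd_add (dvd_sub (dvd_sub e1 e2) e3) e4
  have hpd : (1 - z) ^ (p - 1) ∣ (p : 𝓞 C) := by
    have h1 := (p_assoc (k := 0) z hz).symm.dvd
    rwa [pow_zero, mul_one] at h1
  have hpow := M2b_pow_congr hp (1 - z) b' c' hpd hbcπ
  have hdiff : (1 - z) ^ p ∣ sga (p ^ (0 + 1)) C a x - x ^ d := by
    refine hπ.pow_dvd_of_dvd_mul_left p (a := c' ^ p)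
      (fun h1 => hc' (hπ.dvd_of_dvd_pow h1)) ?_
    have e1 : c' ^ p * (sga (p ^ (0 + 1)) C a x - x ^ d) = x ^ d * (b' ^ p - c' ^ p) := by
      linear_combination hbc'
    rw [e1]
    exact hpow.mul_left _
  -- the expansion
  obtain ⟨y, hy⟩ := h
  have hxy : x = 1 + (1 - z) ^ m * y := by rw [← hy]; ring
  have hexp : (1 - z) ^ (m + 1) ∣ x ^ d - 1 - (d : 𝓞 C) * ((1 - z) ^ m * y) := by
    obtain ⟨κ, hκ⟩ := Polynomial.powAddExpansion (1 : 𝓞 C) ((1 - z) ^ m * y) d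
    rw [hxy, hκ]
    have e1 : (1 : 𝓞 C) ^ d + (d : 𝓞 C) * 1 ^ (d - 1) * ((1 - z) ^ m * y) +
        κ * ((1 - z) ^ m * y) ^ 2 - 1 - (d : 𝓞 C) * ((1 - z) ^ m * y) =
        ((1 - z) ^ m) ^ 2 * (κ * y ^ 2) := by
      rw [one_pow, one_pow]
      ring
    rw [e1, ← pow_mul]
    exact (pow_dvd_pow _ (by omega)).mul_right _
  have hsga : (1 - z) ^ (m + 1) ∣
      sga (p ^ (0 + 1)) C a x - 1 - (d : 𝓞 C) ^ m * ((1 - z) ^ m * y) := by
    have h1 := sga_pi (k := 0) z hz a d hd1 m y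
    have h2 : sga (p ^ (0 + 1)) C a x = 1 + sga (p ^ (0 + 1)) C a ((1 - z) ^ m * y) := by
      rw [hxy, map_add, map_one]
    rw [h2, add_sub_cancel_left]
    exact h1
  have hfin : (1 - z) ^ (m + 1) ∣ ((d : 𝓞 C) ^ m - d) * ((1 - z) ^ m * y) := by
    have h1 : (1 - z) ^ (m + 1) ∣ sga (p ^ (0 + 1)) C a x - x ^ d :=
      (pow_dvd_pow _ (by omega)).trans hdiff
    have e1 : ((d : 𝓞 C) ^ m - d) * ((1 - z) ^ m * y) =
        (sga (p ^ (0 + 1)) C a x - x ^ d) -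
          (sga (p ^ (0 + 1)) C a x - 1 - (d : 𝓞 C) ^ m * ((1 - z) ^ m * y)) +
          (x ^ d - 1 - (d : 𝓞 C) * ((1 - z) ^ m * y)) := by
      ring
    rw [e1]
    exact dvd_add (dvd_sub h1 hsga) hexp
  have hπ0 : (1 - z) ^ m ≠ 0 := pow_ne_zero _ hπ.ne_zero
  have hfin2 : (1 - z) ∣ ((d : 𝓞 C) ^ m - d) * y := by
    obtain ⟨w, hw⟩ := hfin
    refine ⟨w, ?_⟩
    rw [← mul_right_inj' hπ0]
    rw [pow_succ] at hw
    linear_combination hw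
  have hdd : ¬ (1 - z) ∣ (d : 𝓞 C) ^ m - d := by
    have hdle : d ≤ d ^ m := Nat.le_self_pow (by omega) d
    have e1 : (d : 𝓞 C) ^ m - d = ((d ^ m - d : ℕ) : 𝓞 C) := by
      rw [Nat.cast_sub hdle, Nat.cast_pow]
    rw [e1, pi_dvd_nat (k := 0) z hz]
    intro h1
    rw [← ZMod.natCast_eq_zero_iff, Nat.cast_sub hdle, Nat.cast_pow, hd1, hτc,
      sub_eq_zero] at h1
    exact hcm h1
  rcases hπ.dvd_or_dvd hfin2 with h1 | h1
  · exact absurd h1 hdd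
  · rw [hy, pow_succ]
    exact mul_dvd_mul_left _ h1

/-- Iterate `eig_step`. -/
theorem eig_top {C : Type} [Field C] [NumberField C] [IsCyclotomicExtension {p ^ (0 + 1)} ℚ C]
    [Algebra C Ω] [IsScalarTower ℚ C Ω] (z : 𝓞 C) (hz : IsPrimitiveRoot z (p ^ (0 + 1)))
    (x : 𝓞 C) (hx : x ≠ 0) (hE : Eig Ω C p 0 x) (h : (1 - z) ^ 2 ∣ x - 1) :
    (1 - z) ^ (p ^ (0 + 1)) ∣ x - 1 := by
  have hp : p.Prime := Fact.out
  have key : ∀ m, 2 ≤ m → m ≤ p → (1 - z) ^ m ∣ x - 1 := by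
    intro m hm
    induction m, hm using Nat.le_induction with
    | base => intro _; exact h
    | succ m hm ih =>
      intro hmp
      exact eig_step z hz x hx hE m hm (by omega) (ih (by omega))
  have h1 : p ^ (0 + 1) = p := by rw [zero_add, pow_one]
  have h2 := key p hp.two_le le_rfl
  rw [← h1] at h2
  exact h2

end Pool.Agent.MPca71X
end

section
set_option autoImplicit false
open scoped NumberField
open NumberField

/-! Job M2 (medium): characters of `G` unramified outside `p` (paper 286, KW). -/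

namespace Pool.Agent.MPca71X

open Pool.Agent.MPca71W

variable {Ω : Type} [Field Ω] [Algebra ℚ Ω] [IsAlgClosed Ω] [Algebra.IsAlgebraic ℚ Ω] {p k : ℕ}
  [Fact p.Prime]

/-- A cyclotomic field with an embedding in `Ω`: `CyclotomicField (p ^ (k+1)) ℚ`, `IsAlgClosed.lift`. -/
theorem exists_cyc (Ω : Type) [Field Ω] [Algebra ℚ Ω] [IsAlgClosed Ω] (p k : ℕ) [Fact p.Prime] :
    ∃ (C : Type) (_ : Field C) (_ : NumberField C) (_ : IsCyclotomicExtension {p ^ (k + 1)} ℚ C)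
      (_ : Algebra C Ω), IsScalarTower ℚ C Ω := by
  have h0 : p ^ (k + 1) ≠ 0 := pow_ne_zero _ (Fact.out : p.Prime).ne_zero
  have _ : NeZero (p ^ (k + 1)) := ⟨h0⟩
  have _ : NeZero ((p ^ (k + 1) : ℕ) : ℚ) := ⟨Nat.cast_ne_zero.2 h0⟩
  have h1 := CyclotomicField.isCyclotomicExtension (p ^ (k + 1)) ℚ
  have h2 : (CyclotomicField.algebra (p ^ (k + 1)) ℚ : Algebra ℚ _) =
    DivisionRing.toRatAlgebra := Subsingleton.elim _ _
  rw [h2] at h1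
  let e : CyclotomicField (p ^ (k + 1)) ℚ →ₐ[ℚ] Ω := IsAlgClosed.lift
  refine ⟨CyclotomicField (p ^ (k + 1)) ℚ, inferInstance, inferInstance, h1,
    e.toRingHom.toAlgebra, ?_⟩
  let _ : Algebra (CyclotomicField (p ^ (k + 1)) ℚ) Ω := e.toRingHom.toAlgebra
  exact IsScalarTower.of_algebraMap_eq fun r => by
    rw [eq_ratCast, eq_ratCast]
    exact (map_ratCast (algebraMap (CyclotomicField (p ^ (k + 1)) ℚ) Ω) r).symm

private theorem M2_exists_z (C : Type) [Field C] [NumberField C] (n : ℕ) [NeZero n]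
    [IsCyclotomicExtension {n} ℚ C] : ∃ z : 𝓞 C, IsPrimitiveRoot z n :=
  ⟨_, (IsCyclotomicExtension.zeta_spec n ℚ C).toInteger_isPrimitiveRoot⟩

private theorem M2_comb (p : ℕ) [Fact p.Prime] (a a' : ℕ) :
    ∃ s t : ℕ, ((s : ZMod p) ≠ 0 ∨ (t : ZMod p) ≠ 0) ∧ p ∣ s * a + t * a' := by
  by_cases ha : (a : ZMod p) = 0
  · refine ⟨1, 0, Or.inl ?_, ?_⟩
    · rw [Nat.cast_one]
      exact one_ne_zero
    · rw [one_mul, zero_mul, add_zero]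
      exact (ZMod.natCast_eq_zero_iff a p).1 ha
  · refine ⟨(-(a' : ZMod p)).val, a, Or.inr ha, ?_⟩
    rw [← ZMod.natCast_eq_zero_iff]
    push_cast
    rw [ZMod.natCast_zmod_val]
    ring

/-- the expansion of a product of powers modulo `π²` -/
private theorem M2_expand {R : Type} [CommRing R] (π x x' : R) (a a' s t : ℕ)
    (h : π ^ 2 ∣ x - (1 + (a : R) * π)) (h' : π ^ 2 ∣ x' - (1 + (a' : R) * π)) :
    π ^ 2 ∣ x ^ s * x' ^ t - (1 + ((s * a + t * a' : ℕ) : R) * π) := by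
  have key : ∀ (y : R) (b n : ℕ), π ^ 2 ∣ y - (1 + (b : R) * π) →
      π ^ 2 ∣ y ^ n - (1 + ((n * b : ℕ) : R) * π) := by
    intro y b n hy
    have h1 := hy.trans (sub_dvd_pow_sub_pow y (1 + (b : R) * π) n)
    obtain ⟨κ, hκ⟩ := Polynomial.powAddExpansion (1 : R) ((b : R) * π) n
    have h2 : (1 + (b : R) * π) ^ n - (1 + ((n * b : ℕ) : R) * π) = π ^ 2 * (κ * (b : R) ^ 2) := by
      rw [hκ, one_pow, one_pow]
      push_cast
      ring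
    have h3 : y ^ n - (1 + ((n * b : ℕ) : R) * π) = (y ^ n - (1 + (b : R) * π) ^ n) +
        ((1 + (b : R) * π) ^ n - (1 + ((n * b : ℕ) : R) * π)) := by ring
    rw [h3]
    refine dvd_add h1 ?_
    rw [h2]
    exact dvd_mul_right _ _
  have k1 := key x a s h
  have k2 := key x' a' t h'
  have h3 : x ^ s * x' ^ t - (1 + ((s * a + t * a' : ℕ) : R) * π) =
      (x ^ s - (1 + ((s * a : ℕ) : R) * π)) * x' ^ t +
      (1 + ((s * a : ℕ) : R) * π) * (x' ^ t - (1 + ((t * a' : ℕ) : R) * π)) +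
      π ^ 2 * (((s * a : ℕ) : R) * ((t * a' : ℕ) : R)) := by
    push_cast
    ring
  rw [h3]
  exact dvd_add (dvd_add (k1.mul_right _) (k2.mul_left _)) (dvd_mul_right _ _)

private theorem M2_norm {C : Type} [Field C] [NumberField C] {p : ℕ} [Fact p.Prime]
    [IsCyclotomicExtension {p ^ (0 + 1)} ℚ C] (z : 𝓞 C) (hz : IsPrimitiveRoot z (p ^ (0 + 1)))
    (x : 𝓞 C) (h : (1 - z) ∣ x - 1) : ∃ a : ℕ, (1 - z) ^ 2 ∣ x - (1 + (a : 𝓞 C) * (1 - z)) := by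
  obtain ⟨e, he⟩ := h
  obtain ⟨a, _, ha⟩ := res_int (k := 0) z hz e
  refine ⟨a, ?_⟩
  have h1 : x - (1 + (a : 𝓞 C) * (1 - z)) = (1 - z) * (e - (a : 𝓞 C)) := by
    linear_combination he
  rw [h1, pow_two]
  exact mul_dvd_mul_left _ ha

/-- (KW) `C` from `exists_cyc` with `k = 0`, `GF Ω p 0 = ⊤`. `x, x'` from `exists_normal` for the
restrictions of `χ, χ'` to `GF Ω p 0`; `x = 1 + a π`, `x' = 1 + a' π` modulo `π^2` with integers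
`a, a'` (`res_int`); choose naturals `(s, t)`, not both divisible by `p`, with
`s a + t a' = 0 mod p`. `y = x^s x'^t = 1 mod π^2`, `Eig y` (`eig_of_kum`, `kum_eig`), so
`y = 1 mod π^p` (`eig_top`), `kum_wild_zero`: `kum y` kills `HC ∩ inG P` for `p ∈ P`; for `p ∉ P`
by hypothesis. `f = s χ + t χ'` equals `kum y` on `HC`, so it kills `HC ∩ inG P` for all `P`, and
`f g = - f (g ^ (p-1))`, `g ^ (p-1) ∈ HC ∩ inG P` (`chi_pow`, `GF_pow_mem`, `inG_pow`). Minkowski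
(`hom_eq_one`): `f = 0`. -/
theorem kw (hp2 : p ≠ 2) (χ χ' : (Ω ≃ₐ[ℚ] Ω) → ZMod p) (hχ : χ ∈ chs p (Ω ≃ₐ[ℚ] Ω))
    (hχ' : χ' ∈ chs p (Ω ≃ₐ[ℚ] Ω)) (ho : IsOpen {g : Ω ≃ₐ[ℚ] Ω | χ g = 0})
    (ho' : IsOpen {g : Ω ≃ₐ[ℚ] Ω | χ' g = 0})
    (hI : ∀ (P : Ideal (𝓞 Ω)), P.IsMaximal → (p : 𝓞 Ω) ∉ P → ∀ g ∈ inG P, χ g = 0)
    (hI' : ∀ (P : Ideal (𝓞 Ω)), P.IsMaximal → (p : 𝓞 Ω) ∉ P → ∀ g ∈ inG P, χ' g = 0) :
    ∃ s t : ZMod p, (s ≠ 0 ∨ t ≠ 0) ∧ ∀ g, s * χ g + t * χ' g = 0 := by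
  have hp : p.Prime := Fact.out
  obtain ⟨C, _, _, _, _, _⟩ := exists_cyc Ω p 0
  have _ : NeZero (p ^ (0 + 1)) := ⟨pow_ne_zero _ hp.ne_zero⟩
  obtain ⟨z, hz⟩ := M2_exists_z C (p ^ (0 + 1))
  have hzp : IsPrimitiveRoot (z ^ (p ^ 0)) p := by
    have h1 := hz
    rw [pow_zero, pow_one]
    rwa [zero_add, pow_one] at h1
  have hmem : ∀ g : Ω ≃ₐ[ℚ] Ω, g ∈ GF Ω p 0 := fun g => by rw [GF_zero]; trivial
  have hres : ∀ χ : (Ω ≃ₐ[ℚ] Ω) → ZMod p, χ ∈ chs p (Ω ≃ₐ[ℚ] Ω) →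
      IsOpen {g : Ω ≃ₐ[ℚ] Ω | χ g = 0} →
      (∀ (P : Ideal (𝓞 Ω)), P.IsMaximal → (p : 𝓞 Ω) ∉ P → ∀ g ∈ inG P, χ g = 0) →
      ∃ x : 𝓞 C, x ≠ 0 ∧ Eig Ω C p 0 x ∧ (1 - z) ∣ x - 1 ∧
        ∀ g ∈ HC Ω p 0, χ g = kum Ω C p (z ^ (p ^ 0)) x g := by
    intro χ hχ ho hI
    obtain ⟨x, hx, hE, h1, h2, _⟩ := exists_normal (Ω := Ω) (C := C) hp2 z hz
      (fun g : GF Ω p 0 => χ (g : Ω ≃ₐ[ℚ] Ω)) (fun g h => hχ (g : Ω ≃ₐ[ℚ] Ω) h)
      (ho.preimage continuous_subtype_val) (fun P hP hpP g hg => hI P hP hpP _ hg)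
    exact ⟨x, hx, hE, h1, fun g hg => h2 ⟨g, hmem g⟩ hg⟩
  obtain ⟨x, hx, hE, hx1, hxk⟩ := hres χ hχ ho hI
  obtain ⟨x', hx', hE', hx1', hxk'⟩ := hres χ' hχ' ho' hI'
  obtain ⟨a, ha⟩ := M2_norm z hz x hx1
  obtain ⟨a', ha'⟩ := M2_norm z hz x' hx1'
  obtain ⟨s, t, hst, hsta⟩ := M2_comb p a a'
  have hy0 : x ^ s * x' ^ t ≠ 0 := mul_ne_zero (pow_ne_zero _ hx) (pow_ne_zero _ hx')
  have hkum : ∀ g ∈ HC Ω p 0, kum Ω C p (z ^ (p ^ 0)) (x ^ s * x' ^ t) g =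
      (s : ZMod p) * kum Ω C p (z ^ (p ^ 0)) x g + (t : ZMod p) * kum Ω C p (z ^ (p ^ 0)) x' g := by
    intro g hg
    rw [kum_mul (k := 0) _ hzp _ _ (pow_ne_zero _ hx) (pow_ne_zero _ hx') g hg,
      kum_pow (k := 0) _ hzp _ hx s g hg, kum_pow (k := 0) _ hzp _ hx' t g hg]
  have hyE : Eig Ω C p 0 (x ^ s * x' ^ t) := by
    refine eig_of_kum (k := 0) _ hzp _ hy0 ?_
    intro τ hτ g hg
    have hg' : τ * g * τ⁻¹ ∈ HC Ω p 0 := (HC_normal Ω p 0).conj_mem g hg τ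
    rw [hkum _ hg', hkum g hg, kum_eig (k := 0) _ hzp x hx hE τ g hτ hg,
      kum_eig (k := 0) _ hzp x' hx' hE' τ g hτ hg]
  have hy2 : (1 - z) ^ 2 ∣ x ^ s * x' ^ t - 1 := by
    have h1 := M2_expand (1 - z) x x' a a' s t ha ha'
    have h2 : (1 - z) ∣ ((s * a + t * a' : ℕ) : 𝓞 C) := (pi_dvd_nat (k := 0) z hz _).2 hsta
    have h3 : (1 - z) ^ 2 ∣ ((s * a + t * a' : ℕ) : 𝓞 C) * (1 - z) := by
      rw [pow_two]
      exact mul_dvd_mul_right h2 _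
    have h4 := dvd_add h1 h3
    have h5 : x ^ s * x' ^ t - (1 + ((s * a + t * a' : ℕ) : 𝓞 C) * (1 - z)) +
        ((s * a + t * a' : ℕ) : 𝓞 C) * (1 - z) = x ^ s * x' ^ t - 1 := by ring
    rwa [h5] at h4
  have hyp := eig_top (Ω := Ω) z hz _ hy0 hyE hy2
  -- the character
  let f : (Ω ≃ₐ[ℚ] Ω) → ZMod p := fun g => (s : ZMod p) * χ g + (t : ZMod p) * χ' g
  have hfdef : ∀ g, f g = (s : ZMod p) * χ g + (t : ZMod p) * χ' g := fun g => rfl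
  have hf : f ∈ chs p (Ω ≃ₐ[ℚ] Ω) := by
    intro g h
    rw [hfdef, hfdef, hfdef, hχ g h, hχ' g h]
    ring
  have hfI : ∀ P : Ideal (𝓞 Ω), P.IsMaximal → ∀ g ∈ inG P, f g = 0 := by
    intro P hP g hg
    by_cases hpP : (p : 𝓞 Ω) ∈ P
    · have h1 : g ^ (p - 1) ∈ HC Ω p 0 := GF_pow_mem Ω p 0 g (hmem g)
      have h2 : g ^ (p - 1) ∈ inG P := inG_pow P g hg _
      have h3 : f (g ^ (p - 1)) = 0 := by
        rw [hfdef, hxk _ h1, hxk' _ h1, ← hkum _ h1]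
        exact kum_wild_zero (k := 0) z hz P hP hpP _ hyp _ h1 h2
      rw [chi_pow p f hf g] at h3
      exact neg_eq_zero.1 h3
    · rw [hfdef, hI P hP hpP g hg, hI' P hP hpP g hg, mul_zero, mul_zero, add_zero]
  have hf1 : f 1 = 0 := by
    have := hf 1 1
    rw [mul_one] at this
    exact left_eq_add.1 this
  let F : (Ω ≃ₐ[ℚ] Ω) →* Multiplicative (ZMod p) :=
    { toFun := fun g => Multiplicative.ofAdd (f g)
      map_one' := by rw [hf1, ofAdd_zero]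
      map_mul' := fun g h => by rw [hf g h, ofAdd_add] }
  have hFdef : ∀ g, F g = Multiplicative.ofAdd (f g) := fun g => rfl
  have hker : ∀ χ : (Ω ≃ₐ[ℚ] Ω) → ZMod p, χ ∈ chs p (Ω ≃ₐ[ℚ] Ω) →
      ∃ K : Subgroup (Ω ≃ₐ[ℚ] Ω), (K : Set (Ω ≃ₐ[ℚ] Ω)) = {g | χ g = 0} := by
    intro χ hχ
    have h1 : χ 1 = 0 := by
      have := hχ 1 1
      rw [mul_one] at this
      exact left_eq_add.1 this
    refine ⟨{ carrier := {g | χ g = 0}
              mul_mem' := fun {a b} ha hb => by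
                change χ (a * b) = 0
                rw [hχ a b, ha, hb, add_zero]
              one_mem' := h1
              inv_mem' := fun {a} ha => by
                change χ a⁻¹ = 0
                have h2 := hχ a⁻¹ a
                rw [inv_mul_cancel, h1, ha, add_zero] at h2
                exact h2.symm }, rfl⟩
  have hopen : IsOpen (F.ker : Set (Ω ≃ₐ[ℚ] Ω)) := by
    obtain ⟨K, hK⟩ := hker χ hχ
    obtain ⟨K', hK'⟩ := hker χ' hχ'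
    refine Subgroup.isOpen_mono (H₁ := K ⊓ K') ?_ ?_
    · intro g hg
      have h1 : g ∈ (K : Set (Ω ≃ₐ[ℚ] Ω)) := hg.1
      have h2 : g ∈ (K' : Set (Ω ≃ₐ[ℚ] Ω)) := hg.2
      rw [hK] at h1
      rw [hK'] at h2
      rw [MonoidHom.mem_ker, hFdef, hfdef, h1, h2, mul_zero, mul_zero, add_zero, ofAdd_zero]
    · rw [Subgroup.coe_inf, hK, hK']
      exact ho.inter ho'
  have hF : F = 1 := by
    refine hom_eq_one F hopen ?_
    rintro g ⟨Q, hQ, hgQ⟩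
    rw [hFdef, hfI Q hQ g hgQ, ofAdd_zero]
  refine ⟨(s : ZMod p), (t : ZMod p), hst, fun g => ?_⟩
  have h1 := DFunLike.congr_fun hF g
  rw [hFdef, MonoidHom.one_apply] at h1
  rw [← hfdef]
  exact Multiplicative.ofAdd.injective (h1.trans ofAdd_zero.symm)

end Pool.Agent.MPca71X
end

section
set_option autoImplicit false
open scoped NumberField
open NumberField

/-! Job M3 (medium): characters of `GF` unramified outside `p` (paper 286, SEL). -/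

namespace Pool.Agent.MPca71X

open Pool.Agent.MPca71W

variable {Ω C : Type} [Field Ω] [Algebra ℚ Ω] [IsAlgClosed Ω] [Algebra.IsAlgebraic ℚ Ω] {p k : ℕ}
  [Fact p.Prime] [Field C] [NumberField C] [IsCyclotomicExtension {p ^ (k + 1)} ℚ C] [Algebra C Ω]
  [IsScalarTower ℚ C Ω]

/-- `z` is an eigenvector: `τ z = z ^ (kap τ)`, and `(kap τ).val = (rd (kap τ)).val + p j`. -/
theorem eig_z (z : 𝓞 C) (hz : IsPrimitiveRoot z (p ^ (k + 1))) : Eig Ω C p k z := by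
  intro τ _
  have hp0 : 0 < p ^ (k + 1) := pow_pos (Fact.out : p.Prime).pos _
  have hz0 : z ≠ 0 := hz.ne_zero hp0.ne'
  obtain ⟨a, ha⟩ : ∃ a : (ZMod (p ^ (k + 1)))ˣ, a = kap Ω (p ^ (k + 1)) τ := ⟨_, rfl⟩
  rw [← ha]
  refine ⟨z ^ ((a : ZMod (p ^ (k + 1))).val / p), 1, pow_ne_zero _ hz0, one_ne_zero, ?_⟩
  rw [sga_root a z hz.pow_eq_one, rd_val, ZMod.val_natCast, one_pow, mul_one, ← pow_mul, ← pow_add]
  congr 1
  rw [mul_comm (_ / p) p]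
  exact (Nat.mod_add_div _ _).symm

private theorem m3_zp (z : 𝓞 C) (hz : IsPrimitiveRoot z (p ^ (k + 1))) :
    IsPrimitiveRoot (z ^ (p ^ k)) p :=
  hz.pow (pow_pos (Fact.out : p.Prime).pos _) (pow_succ p k)

/-- By surjectivity of `kap Ω (p ^ (k+2))` (`kap_surj`) there is `h` with
`kap h = 1 + p^(k+1)` modulo `p^(k+2)`, it is in `HC` and moves the roots `θ` of `θ^p = z`, which are
primitive of order `p^(k+2)`. -/
theorem kum_z_ne (z : 𝓞 C) (hz : IsPrimitiveRoot z (p ^ (k + 1))) :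
    ∃ h ∈ HC Ω p k, kum Ω C p (z ^ (p ^ k)) z h ≠ 0 := by
  have hpr : p.Prime := Fact.out
  have hp1 : 1 < p := hpr.one_lt
  have hN0 : 0 < p ^ (k + 1) := pow_pos hpr.pos _
  have hN1 : 1 < p ^ (k + 1) := Nat.one_lt_pow (Nat.succ_ne_zero k) hp1
  have : NeZero (p ^ (k + 2)) := ⟨(pow_pos hpr.pos _).ne'⟩
  have hz0 : z ≠ 0 := hz.ne_zero hN0.ne'
  have hlt : 1 + p ^ (k + 1) < p ^ (k + 2) := by
    have h1 : p ^ (k + 2) = p ^ (k + 1) * p := pow_succ p (k + 1)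
    rw [h1]
    nlinarith
  have hcop : Nat.Coprime (1 + p ^ (k + 1)) (p ^ (k + 2)) := by
    apply Nat.Coprime.pow_right
    rw [pow_succ]
    exact (Nat.coprime_add_mul_left_left 1 p (p ^ k)).2 (Nat.coprime_one_left p) |> fun h => by
      rwa [mul_comm (p ^ k) p]
  obtain ⟨h, hh⟩ := kap_surj (Ω := Ω) (p ^ (k + 2)) (ZMod.unitOfCoprime _ hcop)
  have hval : ((kap Ω (p ^ (k + 2)) h : (ZMod (p ^ (k + 2)))ˣ) : ZMod (p ^ (k + 2))).val =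
      1 + p ^ (k + 1) := by
    rw [hh, ZMod.coe_unitOfCoprime, ZMod.val_natCast]
    exact Nat.mod_eq_of_lt hlt
  have hioz : io C Ω z ^ (p ^ (k + 1)) = 1 := by
    rw [← map_pow, hz.pow_eq_one, map_one]
  have hioprim : IsPrimitiveRoot (io C Ω z) (p ^ (k + 1)) :=
    hz.map_of_injective (io_injective (Ω := Ω) (C := C))
  have key : ∀ θ : Ω, θ ^ p = io C Ω z → h θ = io C Ω (z ^ (p ^ k)) * θ := by
    intro θ hθ
    have h1 : θ ^ (p ^ (k + 2)) = 1 := by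
      rw [show p ^ (k + 2) = p * p ^ (k + 1) from pow_succ' p (k + 1), pow_mul, hθ, hioz]
    rw [kap_spec (p ^ (k + 2)) h θ h1, hval, pow_add, pow_one, pow_succ' p k, pow_mul, hθ, map_pow,
      mul_comm]
  obtain ⟨θ, hθ⟩ := IsAlgClosed.exists_pow_nat_eq (io C Ω z) hpr.pos
  have hHC : h ∈ HC Ω p k := by
    show kap Ω (p ^ (k + 1)) h = 1
    have h2 : h (io C Ω z) = io C Ω z := by
      conv_lhs => rw [← hθ, map_pow, key θ hθ, mul_pow, hθ, ← map_pow, ← pow_mul, ← pow_succ,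
        hz.pow_eq_one, map_one, one_mul]
    have h3 := kap_spec (p ^ (k + 1)) h (io C Ω z) hioz
    rw [h2] at h3
    have h4 : (io C Ω z) ^ ((kap Ω (p ^ (k + 1)) h : (ZMod (p ^ (k + 1)))ˣ) :
        ZMod (p ^ (k + 1))).val = (io C Ω z) ^ 1 := by
      rw [← h3, pow_one]
    have h5 := hioprim.pow_inj (ZMod.val_lt _) hN1 h4
    apply Units.ext
    rw [Units.val_one]
    have : Fact (1 < p ^ (k + 1)) := ⟨hN1⟩
    apply ZMod.val_injective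
    rw [h5, ZMod.val_one]
  refine ⟨h, hHC, ?_⟩
  have : Fact (1 < p) := ⟨hp1⟩
  rw [kum_unique (z ^ (p ^ k)) (m3_zp z hz) z hz0 h hHC θ hθ 1 (by
    rw [ZMod.val_one, pow_one]
    exact key θ hθ)]
  exact one_ne_zero

/-- (SEL) Let `χz` be the character of `z` (`exists_chi`), `N = {χ = 0} ∩ {χz = 0}`, a normal open
subgroup of `GF` with `p`-quotient, `N''` its core (`exists_core`). A character of `G` which
vanishes on `N''` has open kernel and kills `inG P` for `p ∉ P`: such elements `g` are in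
`HC ≤ GF`, and all `τ g τ⁻¹` are inertial at primes not containing `p`, so `χ` and `χz` (units:
`kum_tame_zero` with `vQ z = 0`) vanish on them, so `g ∈ N''`. By `kw` and `cyclic_of_dependent`
`G / N''` is cyclic, and by `dependent_sub` for `H = GF`: `χ = c χz` (`χz ≠ 0` by `kum_z_ne`). -/
theorem sel (hp2 : p ≠ 2) (z : 𝓞 C) (hz : IsPrimitiveRoot z (p ^ (k + 1)))
    (χ : (GF Ω p k) → ZMod p)
    (hχ : χ ∈ chs p (GF Ω p k)) (ho : IsOpen {g : GF Ω p k | χ g = 0})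
    (hI : ∀ (P : Ideal (𝓞 Ω)), P.IsMaximal → (p : 𝓞 Ω) ∉ P → ∀ g : GF Ω p k,
      (g : Ω ≃ₐ[ℚ] Ω) ∈ inG P → χ g = 0) :
    ∃ c : ZMod p, ∀ h : GF Ω p k, (h : Ω ≃ₐ[ℚ] Ω) ∈ HC Ω p k →
      χ h = c * kum Ω C p (z ^ (p ^ k)) z (h : Ω ≃ₐ[ℚ] Ω) := by
  classical
  have hpr : p.Prime := Fact.out
  have hN0 : 0 < p ^ (k + 1) := pow_pos hpr.pos _
  have hz0 : z ≠ 0 := hz.ne_zero hN0.ne'
  have hzp := m3_zp z hz
  obtain ⟨χz, hχz, hχz1, hoz⟩ := exists_chi (Ω := Ω) (z ^ (p ^ k)) hzp z hz0 (eig_z z hz)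
  -- the common kernel
  have hone : ∀ f ∈ chs p (GF Ω p k), f 1 = 0 := fun f hf => by
    have := hf 1 1
    rw [mul_one] at this
    simpa using this
  have hinv : ∀ f ∈ chs p (GF Ω p k), ∀ g, f g⁻¹ = - f g := fun f hf g => by
    have h1 := hf g g⁻¹
    rw [mul_inv_cancel, hone f hf] at h1
    exact (neg_eq_of_add_eq_zero_right h1.symm).symm
  have hpw : ∀ f ∈ chs p (GF Ω p k), ∀ g (m : ℕ), f (g ^ m) = m * f g := fun f hf g m => by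
    induction m with
    | zero => simp [hone f hf]
    | succ m ih =>
      rw [pow_succ, hf, ih]
      push_cast
      ring
  obtain ⟨N, hN⟩ : ∃ N : Subgroup (GF Ω p k), ∀ g, g ∈ N ↔ χ g = 0 ∧ χz g = 0 :=
    ⟨{ carrier := {g | χ g = 0 ∧ χz g = 0}
       mul_mem' := fun {a b} ha hb => ⟨by rw [hχ, ha.1, hb.1, add_zero],
         by rw [hχz, ha.2, hb.2, add_zero]⟩
       one_mem' := ⟨hone χ hχ, hone χz hχz⟩
       inv_mem' := fun {a} ha => ⟨by rw [hinv χ hχ, ha.1, neg_zero],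
         by rw [hinv χz hχz, ha.2, neg_zero]⟩ }, fun g => Iff.rfl⟩
  have hNn : N.Normal := by
    constructor
    intro n hn g
    rw [hN] at hn ⊢
    constructor
    · rw [hχ, hχ, hinv χ hχ, hn.1]
      ring
    · rw [hχz, hχz, hinv χz hχz, hn.2]
      ring
  have hNo : IsOpen (N : Set (GF Ω p k)) := by
    have : (N : Set (GF Ω p k)) = {g : GF Ω p k | χ g = 0} ∩ {g : GF Ω p k | χz g = 0} := by
      ext g
      exact hN g
    rw [this]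
    exact ho.inter hoz
  have hNp : ∀ g : GF Ω p k, ∃ j : ℕ, g ^ p ^ j ∈ N := fun g => ⟨1, by
    rw [hN, pow_one, hpw χ hχ, hpw χz hχz]
    simp⟩
  obtain ⟨N', hn', hfi, ho', hp', hle, hcore⟩ := exists_core N hNn hNo hNp
  have hNmap : ∀ g : GF Ω p k, (g : Ω ≃ₐ[ℚ] Ω) ∈ N.map (GF Ω p k).subtype → g ∈ N := by
    rintro g ⟨g', hg', h⟩
    have : g' = g := Subtype.ext h
    rwa [this] at hg'
  have hNH : N' ≤ GF Ω p k := by
    intro g hg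
    obtain ⟨g', -, h⟩ := hle hg
    rw [← h]
    exact g'.2
  -- inertial elements outside of `p` are in `N'`
  have hin : ∀ (P : Ideal (𝓞 Ω)), P.IsMaximal → (p : 𝓞 Ω) ∉ P → ∀ g ∈ inG P, g ∈ N' := by
    intro P hP hpP g hg
    apply hcore
    intro τ
    obtain ⟨P', hP', hPn, hPc⟩ := inG_conj_prime P hP τ
    have hpP' : (p : 𝓞 Ω) ∉ P' := fun h => hpP ((hPn p).1 h)
    have hgP' := hPc g hg
    have hHC := inG_le_HC Ω p k P' hP' hpP' _ hgP'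
    have hGF := HC_le_GF Ω p k hHC
    refine ⟨⟨τ * g * τ⁻¹, hGF⟩, ?_, rfl⟩
    rw [SetLike.mem_coe, hN]
    refine ⟨hI P' hP' hpP' ⟨τ * g * τ⁻¹, hGF⟩ hgP', ?_⟩
    rw [hχz1 ⟨τ * g * τ⁻¹, hGF⟩ hHC]
    obtain ⟨hPCp, hPC0⟩ := PC_prime (C := C) P' hP'
    refine kum_tame_zero (z ^ (p ^ k)) hzp P' hP' hpP' z hz0 ?_ _ hHC hgP'
    have hv : vQ (PC C P') z = 0 := by
      rw [vQ_eq_zero_iff (PC C P') hPCp hPC0 z hz0]
      intro hmem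
      exact hPCp.ne_top (Ideal.eq_top_of_isUnit_mem _ hmem (hz.isUnit hN0.ne'))
    rw [hv]
    exact dvd_zero _
  have hopen : ∀ f ∈ chs p (Ω ≃ₐ[ℚ] Ω), (∀ g ∈ N', f g = 0) →
      IsOpen {g : Ω ≃ₐ[ℚ] Ω | f g = 0} := by
    intro f hf hfN
    have h1 : f 1 = 0 := hfN 1 N'.one_mem
    obtain ⟨K, hK⟩ : ∃ K : Subgroup (Ω ≃ₐ[ℚ] Ω), ∀ g, g ∈ K ↔ f g = 0 :=
      ⟨{ carrier := {g | f g = 0}
         mul_mem' := fun {a b} ha hb => by
           show f (a * b) = 0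
           rw [hf, show f a = 0 from ha, show f b = 0 from hb, add_zero]
         one_mem' := h1
         inv_mem' := fun {a} ha => by
           show f a⁻¹ = 0
           have h2 := hf a a⁻¹
           rw [mul_inv_cancel, h1, show f a = 0 from ha, zero_add] at h2
           exact h2.symm }, fun g => Iff.rfl⟩
    have h2 : {g : Ω ≃ₐ[ℚ] Ω | f g = 0} = (K : Set (Ω ≃ₐ[ℚ] Ω)) := by
      ext g
      exact (hK g).symm
    rw [h2]
    exact Subgroup.isOpen_mono (fun g hg => (hK g).2 (hfN g hg)) ho'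
  have hcyc := cyclic_of_dependent p N' hn' hp' (by
    intro f hf f' hf' h1 h2
    exact kw hp2 f f' hf hf' (hopen f hf h1) (hopen f' hf' h2)
      (fun P hP hpP g hg => h1 g (hin P hP hpP g hg))
      (fun P hP hpP g hg => h2 g (hin P hP hpP g hg)))
  obtain ⟨c, hc⟩ := dependent_sub p N' (GF Ω p k) hn' hNH hcyc χ χz hχ hχz
    (fun g hg => ((hN g).1 (hNmap g (hle hg))).1) (fun g hg => ((hN g).1 (hNmap g (hle hg))).2) (by
      obtain ⟨h, hh, hh'⟩ := kum_z_ne (Ω := Ω) z hz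
      exact ⟨⟨h, HC_le_GF Ω p k hh⟩, by rwa [hχz1 ⟨h, HC_le_GF Ω p k hh⟩ hh]⟩)
  exact ⟨c, fun h hh => by rw [hc h, hχz1 h hh]⟩

end Pool.Agent.MPca71X
end

section
set_option autoImplicit false
open scoped NumberField
open NumberField

/-! Job P4a (medium-easy): inertial elements of `K0` (paper 286, 5.3, 5.4). -/

namespace Pool.Agent.MPca71X

open Pool.Agent.MPca71W

variable {Ω C : Type} [Field Ω] [Algebra ℚ Ω] [IsAlgClosed Ω] [Algebra.IsAlgebraic ℚ Ω] {p k : ℕ}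
  [Fact p.Prime] [Field C] [NumberField C] [IsCyclotomicExtension {p ^ (k + 1)} ℚ C] [Algebra C Ω]
  [IsScalarTower ℚ C Ω]

omit [Algebra.IsAlgebraic ℚ Ω] in
private theorem p4a_inG_pow (P : Ideal (𝓞 Ω)) (g : Ω ≃ₐ[ℚ] Ω) (hg : g ∈ inG P) (n : ℕ) :
    g ^ n ∈ inG P := by
  induction n with
  | zero =>
    intro x
    refine ⟨0, P.zero_mem, ?_⟩
    simp
  | succ n ih =>
    rw [pow_succ]
    exact inG_mul P _ _ ih hg

/-- An inertial element `σ ∈ GF` with `∑ χ_i σ = 0` is killed by all `χ_i`. If `p ∉ P'` then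
`σ ∈ HC` (`inG_le_HC`) and `kum_bt_tame`. If `p ∈ P'`: `σ ^ (p-1) ∈ HC ∩ inG P'`,
`χ_i σ = - χ_i (σ ^ (p-1)) = 0` (`chi_pow`, `kum_bt_wild`). -/
theorem chi_inertial {t d : ℕ} {z : 𝓞 C} {Q : Fin t ⊕ Fin d → Ideal (𝓞 C)}
    {g : Fin t ⊕ Fin d → 𝓞 C} {e : Fin t ⊕ Fin d → ℕ} {b : Fin t ⊕ Fin d → Ideal (𝓞 C)}
    {P : Fin t ⊕ Fin d → Ideal (𝓞 Ω)} {x : Fin t ⊕ Fin d → (Ω ≃ₐ[ℚ] Ω)}
    (h : PDat p k z Q g e b P x) {G : Matrix (Fin t) (Fin d) (ZMod p)} {m : Fin t → ℕ}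
    (hc : CDat p k z g G m) (hG : ∀ j, ∑ i, G j i = 1)
    (χ : Fin d → (GF Ω p k) → ZMod p) (hχ : ∀ i, χ i ∈ chs p (GF Ω p k))
    (hχ2 : ∀ i (σ : GF Ω p k), (σ : Ω ≃ₐ[ℚ] Ω) ∈ HC Ω p k →
      χ i σ = kum Ω C p (z ^ (p ^ k)) (bt C p k g G i) (σ : Ω ≃ₐ[ℚ] Ω))
    (σ : GF Ω p k) (hσ : σ ∈ IS Ω p k) (h0 : σ ∈ K0 Ω p k χ hχ) (i : Fin d) : χ i σ = 0 := by
  have hpr : p.Prime := Fact.out
  have h0' : ∑ i, χ i σ = 0 := h0
  obtain ⟨P', hP', hσP⟩ := hσ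
  have hone : ∀ i, χ i 1 = 0 := fun i => by
    have h1 : χ i (1 * 1) = χ i 1 + χ i 1 := hχ i 1 1
    rw [mul_one] at h1
    simpa using h1
  have hpw : ∀ (n : ℕ), χ i (σ ^ n) = (n : ZMod p) * χ i σ := fun n => by
    induction n with
    | zero => simp [hone i]
    | succ n ih =>
      have h1 : χ i (σ ^ n * σ) = χ i (σ ^ n) + χ i σ := hχ i (σ ^ n) σ
      rw [pow_succ, h1, ih]
      push_cast
      ring
  by_cases hp : (p : 𝓞 Ω) ∈ P'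
  · have hH : (σ : Ω ≃ₐ[ℚ] Ω) ^ (p - 1) ∈ HC Ω p k := GF_pow_mem Ω p k _ σ.2
    have h1 := kum_bt_wild h hc P' hP' hp _ hH (p4a_inG_pow P' _ hσP (p - 1)) i
    have h2 : χ i (σ ^ (p - 1)) = 0 := by
      rw [hχ2 i (σ ^ (p - 1)) hH]
      exact h1
    rw [hpw, Nat.cast_sub hpr.one_le, CharP.cast_eq_zero, Nat.cast_one, zero_sub, neg_mul, one_mul,
      neg_eq_zero] at h2
    exact h2
  · have hH : (σ : Ω ≃ₐ[ℚ] Ω) ∈ HC Ω p k := inG_le_HC Ω p k P' hP' hp _ hσP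
    rw [hχ2 i σ hH]
    refine (kum_bt_tame h G hG P' hP' hp _ hH hσP).1 i ?_
    rw [← h0']
    exact Finset.sum_congr rfl fun i _ => (hχ2 i σ hH).symm

/-- For `p ∈ P'` all of `HC ∩ inG P'` lies in `K0`, and for `p ∉ P'` with `PC C P'` in no orbit
as well. -/
theorem inertial_in_K0 {t d : ℕ} {z : 𝓞 C} {Q : Fin t ⊕ Fin d → Ideal (𝓞 C)}
    {g : Fin t ⊕ Fin d → 𝓞 C} {e : Fin t ⊕ Fin d → ℕ} {b : Fin t ⊕ Fin d → Ideal (𝓞 C)}
    {P : Fin t ⊕ Fin d → Ideal (𝓞 Ω)} {x : Fin t ⊕ Fin d → (Ω ≃ₐ[ℚ] Ω)}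
    (h : PDat p k z Q g e b P x) {G : Matrix (Fin t) (Fin d) (ZMod p)} {m : Fin t → ℕ}
    (hc : CDat p k z g G m) (hG : ∀ j, ∑ i, G j i = 1)
    (χ : Fin d → (GF Ω p k) → ZMod p) (hχ : ∀ i, χ i ∈ chs p (GF Ω p k))
    (hχ2 : ∀ i (σ : GF Ω p k), (σ : Ω ≃ₐ[ℚ] Ω) ∈ HC Ω p k →
      χ i σ = kum Ω C p (z ^ (p ^ k)) (bt C p k g G i) (σ : Ω ≃ₐ[ℚ] Ω))
    (P' : Ideal (𝓞 Ω)) (hP' : P'.IsMaximal)
    (hP2 : (p : 𝓞 Ω) ∈ P' ∨ ∀ (s : Fin t ⊕ Fin d) (a : (ZMod (p ^ (k + 1)))ˣ), a ^ (p - 1) = 1 →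
      (PC C P').comap (sga (p ^ (k + 1)) C a : 𝓞 C →+* 𝓞 C) ≠ Q s)
    (σ : GF Ω p k) (hσ : (σ : Ω ≃ₐ[ℚ] Ω) ∈ HC Ω p k) (hσP : (σ : Ω ≃ₐ[ℚ] Ω) ∈ inG P') :
    σ ∈ K0 Ω p k χ hχ := by
  have key : ∀ i, kum Ω C p (z ^ (p ^ k)) (bt C p k g G i) (σ : Ω ≃ₐ[ℚ] Ω) = 0 := by
    intro i
    by_cases hp : (p : 𝓞 Ω) ∈ P'
    · exact kum_bt_wild h hc P' hP' hp _ hσ hσP i
    · rcases hP2 with h2 | h2
      · exact absurd h2 hp
      · exact (kum_bt_tame h G hG P' hP' hp _ hσ hσP).2 h2 i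
  show ∑ i, χ i σ = 0
  exact Finset.sum_eq_zero fun i _ => by rw [hχ2 i σ hσ, key i]

end Pool.Agent.MPca71X
end

section
set_option autoImplicit false
open scoped NumberField
open NumberField

/-! Job P4b (medium-easy): the generator of a character (paper 286, 5.5, first part). -/

namespace Pool.Agent.MPca71X

open Pool.Agent.MPca71W

variable {Ω C : Type} [Field Ω] [Algebra ℚ Ω] [IsAlgClosed Ω] [Algebra.IsAlgebraic ℚ Ω] {p k : ℕ}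
  [Fact p.Prime] [Field C] [NumberField C] [IsCyclotomicExtension {p ^ (k + 1)} ℚ C] [Algebra C Ω]
  [IsScalarTower ℚ C Ω]

private theorem P4b_le {Ω : Type} [Field Ω] [Algebra ℚ Ω] [IsAlgClosed Ω] {p k : ℕ} [Fact p.Prime]
    {g : Ω ≃ₐ[ℚ] Ω} (hg : g ∈ HC Ω p k) : g ∈ GF Ω p k := by
  have h1 : kap Ω (p ^ (k + 1)) g = 1 := hg
  change ((powMonoidHom (p - 1)).comp (kap Ω (p ^ (k + 1)))) g = 1
  rw [MonoidHom.comp_apply, h1, map_one]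

/-- `α` from `exists_alpha`. For `p ∉ P'` with `PC C P'` in no orbit `HC ∩ inG P' ⊆ K0`
(`inertial_in_K0`), so `f = kum α` vanishes there, and `exists_tame` gives the divisibility. -/
theorem gen_alpha {t d : ℕ} {z : 𝓞 C} {Q : Fin t ⊕ Fin d → Ideal (𝓞 C)}
    {g : Fin t ⊕ Fin d → 𝓞 C} {e : Fin t ⊕ Fin d → ℕ} {b : Fin t ⊕ Fin d → Ideal (𝓞 C)}
    {P : Fin t ⊕ Fin d → Ideal (𝓞 Ω)} {x : Fin t ⊕ Fin d → (Ω ≃ₐ[ℚ] Ω)}
    (h : PDat p k z Q g e b P x) {G : Matrix (Fin t) (Fin d) (ZMod p)} {m : Fin t → ℕ}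
    (hc : CDat p k z g G m) (hG : ∀ j, ∑ i, G j i = 1)
    (χ : Fin d → (GF Ω p k) → ZMod p) (hχ : ∀ i, χ i ∈ chs p (GF Ω p k))
    (hχ2 : ∀ i (σ : GF Ω p k), (σ : Ω ≃ₐ[ℚ] Ω) ∈ HC Ω p k →
      χ i σ = kum Ω C p (z ^ (p ^ k)) (bt C p k g G i) (σ : Ω ≃ₐ[ℚ] Ω))
    (f : (GF Ω p k) → ZMod p) (hf : f ∈ chs p (GF Ω p k)) (ho : IsOpen {σ : GF Ω p k | f σ = 0})
    (hf0 : ∀ σ ∈ IS Ω p k, σ ∈ K0 Ω p k χ hχ → f σ = 0) :
    ∃ α : 𝓞 C, α ≠ 0 ∧ Eig Ω C p k α ∧ (∀ σ : GF Ω p k, (σ : Ω ≃ₐ[ℚ] Ω) ∈ HC Ω p k →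
      f σ = kum Ω C p (z ^ (p ^ k)) α (σ : Ω ≃ₐ[ℚ] Ω)) ∧
      ∀ P' : Ideal (𝓞 Ω), P'.IsMaximal → (p : 𝓞 Ω) ∉ P' →
        (∀ (s : Fin t ⊕ Fin d) (a : (ZMod (p ^ (k + 1)))ˣ), a ^ (p - 1) = 1 →
          (PC C P').comap (sga (p ^ (k + 1)) C a : 𝓞 C →+* 𝓞 C) ≠ Q s) →
        p ∣ vQ (PC C P') α := by
  have hp := (Fact.out : p.Prime)
  have hzp : IsPrimitiveRoot (z ^ (p ^ k)) p := h.hz.pow (pow_pos hp.pos _) (pow_succ p k)
  obtain ⟨α, hα, hE, hk⟩ := exists_alpha (Ω := Ω) (C := C) (k := k) (z ^ (p ^ k)) hzp f hf ho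
  refine ⟨α, hα, hE, hk, fun P' hP' _ hQ => ?_⟩
  by_contra hv
  obtain ⟨g', hg, hgP, hne⟩ := exists_tame (Ω := Ω) (C := C) (k := k) (z ^ (p ^ k)) hzp P' hP' α hα hv
  have hGF : g' ∈ GF Ω p k := P4b_le hg
  have h1 : f ⟨g', hGF⟩ = 0 := hf0 ⟨g', hGF⟩ ⟨P', hP', hgP⟩
    (inertial_in_K0 h hc hG χ hχ hχ2 P' hP' (Or.inr hQ) ⟨g', hGF⟩ hg hgP)
  exact hne ((hk ⟨g', hGF⟩ hg).symm.trans h1)

/-- Choose `n s : ℕ` with `vQ (Q s) α + (n s) (e s) = 0` modulo `p` (`1 ≤ e s < p`). At `Q' = PC C P'`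
in no orbit all multiplicities are `0` modulo `p` (`vQ_other`). If `Q'.comap (sga a) = Q s`,
`a^(p-1) = 1`: `vQ (Q s) α = rd a * vQ Q' α` (`vQ_eig`), `vQ Q' (eg (g s)) = (rd a)⁻¹ e s`
(`vQ_orbit`), the other `eg (g s')` contribute `0` (`orbit_unique`, `vQ_other`); so the
multiplicity of the product at `Q'` is `(rd a)⁻¹ (vQ (Q s) α + (n s) (e s)) = 0`. -/
theorem gen_correct {t d : ℕ} {z : 𝓞 C} {Q : Fin t ⊕ Fin d → Ideal (𝓞 C)}
    {g : Fin t ⊕ Fin d → 𝓞 C} {e : Fin t ⊕ Fin d → ℕ} {b : Fin t ⊕ Fin d → Ideal (𝓞 C)}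
    {P : Fin t ⊕ Fin d → Ideal (𝓞 Ω)} {x : Fin t ⊕ Fin d → (Ω ≃ₐ[ℚ] Ω)}
    (h : PDat p k z Q g e b P x) (α : 𝓞 C) (hα : α ≠ 0) (hE : Eig Ω C p k α)
    (hv : ∀ P' : Ideal (𝓞 Ω), P'.IsMaximal → (p : 𝓞 Ω) ∉ P' →
        (∀ (s : Fin t ⊕ Fin d) (a : (ZMod (p ^ (k + 1)))ˣ), a ^ (p - 1) = 1 →
          (PC C P').comap (sga (p ^ (k + 1)) C a : 𝓞 C →+* 𝓞 C) ≠ Q s) →
        p ∣ vQ (PC C P') α) :
    ∃ n : Fin t ⊕ Fin d → ℕ, ∀ P' : Ideal (𝓞 Ω), P'.IsMaximal → (p : 𝓞 Ω) ∉ P' →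
      p ∣ vQ (PC C P') (α * ∏ s, eg C p k (g s) ^ n s) := by
  classical
  have hp := (Fact.out : p.Prime)
  refine ⟨fun s => (-((vQ (Q s) α : ℕ) : ZMod p) * ((e s : ℕ) : ZMod p)⁻¹).val, fun P' hP' hpP => ?_⟩
  obtain ⟨hQ', hQ0⟩ := PC_prime (C := C) P' hP'
  have he : ∀ s, ((e s : ℕ) : ZMod p) ≠ 0 := by
    intro s h0
    rw [ZMod.natCast_eq_zero_iff] at h0
    have h1 := h.e1 s
    exact absurd (Nat.le_of_dvd (by omega) h0) (by have := h.e2 s; omega)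
  have heg : ∀ s, eg C p k (g s) ≠ 0 := fun s => eg_ne_zero _ (h.gne s)
  rw [← ZMod.natCast_eq_zero_iff, vQ_mul _ hQ' hQ0 _ _ hα
    (Finset.prod_ne_zero_iff.2 fun s _ => pow_ne_zero _ (heg s)),
    vQ_prod _ hQ' hQ0 _ _ (fun s _ => pow_ne_zero _ (heg s))]
  push_cast
  simp only [vQ_pow _ hQ' hQ0 _ (heg _)]
  push_cast
  simp only [ZMod.natCast_val, ZMod.cast_id', id_eq]
  by_cases hor : ∃ (s : Fin t ⊕ Fin d) (a : (ZMod (p ^ (k + 1)))ˣ), a ^ (p - 1) = 1 ∧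
      (PC C P').comap (sga (p ^ (k + 1)) C a : 𝓞 C →+* 𝓞 C) = Q s
  · obtain ⟨s, a, ha, hs⟩ := hor
    rw [Finset.sum_eq_single s]
    · rw [vQ_orbit h s _ hQ' hQ0 a ha hs]
      have h1 := vQ_eig (Ω := Ω) (k := k) α hα hE a ha (PC C P') hQ' hQ0
      rw [hs] at h1
      rw [h1]
      have h2 := rd_ne_zero a
      have h3 := he s
      field_simp
      ring
    · intro s' _ hs'
      rw [vQ_other h s' _ hQ' hQ0, mul_zero]
      intro a' _ h1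
      exact hs' (orbit_unique h s' s _ a' a h1 hs)
    · intro h1
      exact absurd (Finset.mem_univ s) h1
  · push Not at hor
    rw [Finset.sum_eq_zero, add_zero]
    · rw [ZMod.natCast_eq_zero_iff]
      exact hv P' hP' hpP hor
    · intro s _
      rw [vQ_other h s _ hQ' hQ0 (fun a ha => hor s a ha), mul_zero]

end Pool.Agent.MPca71X
end

section
set_option autoImplicit false
open scoped NumberField
open NumberField

/-! Job P4c (medium-easy): the symbol of a character (paper 286, 5.5, second part). -/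

namespace Pool.Agent.MPca71X

open Pool.Agent.MPca71W

variable {Ω C : Type} [Field Ω] [Algebra ℚ Ω] [IsAlgClosed Ω] [Algebra.IsAlgebraic ℚ Ω] {p k : ℕ}
  [Fact p.Prime] [Field C] [NumberField C] [IsCyclotomicExtension {p ^ (k + 1)} ℚ C] [Algebra C Ω]
  [IsScalarTower ℚ C Ω]

/-- `α` from `gen_alpha`, `n` from `gen_correct`, `α' = α ∏ eg(g s)^(n s)` is an eigenvector
(`eig_of_kum`, `kum_eig`, `eg_Eig`); its character `χ'` (`exists_chi`) kills `inG P'` for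
`p ∉ P'` (these elements are in `HC`; `kum_tame_zero`). By `sel` `kum α' = c kum z` on `HC`. So
`f = kum α = c kum z - ∑ (n s) kum (eg (g s))` on `HC`; take `c' = c.val` and `n' s < p` with
`n' s = - n s` modulo `p`. -/
theorem gen_symbol (hp2 : p ≠ 2) {t d : ℕ} {z : 𝓞 C} {Q : Fin t ⊕ Fin d → Ideal (𝓞 C)}
    {g : Fin t ⊕ Fin d → 𝓞 C} {e : Fin t ⊕ Fin d → ℕ} {b : Fin t ⊕ Fin d → Ideal (𝓞 C)}
    {P : Fin t ⊕ Fin d → Ideal (𝓞 Ω)} {x : Fin t ⊕ Fin d → (Ω ≃ₐ[ℚ] Ω)}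
    (h : PDat p k z Q g e b P x) {G : Matrix (Fin t) (Fin d) (ZMod p)} {m : Fin t → ℕ}
    (hc : CDat p k z g G m) (hG : ∀ j, ∑ i, G j i = 1)
    (χ : Fin d → (GF Ω p k) → ZMod p) (hχ : ∀ i, χ i ∈ chs p (GF Ω p k))
    (hχ2 : ∀ i (σ : GF Ω p k), (σ : Ω ≃ₐ[ℚ] Ω) ∈ HC Ω p k →
      χ i σ = kum Ω C p (z ^ (p ^ k)) (bt C p k g G i) (σ : Ω ≃ₐ[ℚ] Ω))
    (f : (GF Ω p k) → ZMod p) (hf : f ∈ chs p (GF Ω p k)) (ho : IsOpen {σ : GF Ω p k | f σ = 0})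
    (hf0 : ∀ σ ∈ IS Ω p k, σ ∈ K0 Ω p k χ hχ → f σ = 0) :
    ∃ (c : ℕ) (n : Fin t ⊕ Fin d → ℕ), c < p ∧ (∀ s, n s < p) ∧
      ∀ σ : GF Ω p k, (σ : Ω ≃ₐ[ℚ] Ω) ∈ HC Ω p k →
        f σ = kum Ω C p (z ^ (p ^ k)) (z ^ c * ∏ s, eg C p k (g s) ^ n s)
          (σ : Ω ≃ₐ[ℚ] Ω) := by
  classical
  have hpr : p.Prime := Fact.out
  have hzp : IsPrimitiveRoot (z ^ (p ^ k)) p :=
    h.hz.pow (pow_pos hpr.pos _) (pow_succ p k)
  obtain ⟨α, hα0, hαE, hαf, hαv⟩ := gen_alpha h hc hG χ hχ hχ2 f hf ho hf0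
  obtain ⟨n, hn⟩ := gen_correct h α hα0 hαE hαv
  have hge : ∀ s, eg C p k (g s) ≠ 0 := fun s => eg_ne_zero _ (h.gne s)
  have hsym : ∀ (n : Fin t ⊕ Fin d → ℕ) (β : 𝓞 C), β ≠ 0 → ∀ σ ∈ HC Ω p k,
      kum Ω C p (z ^ (p ^ k)) (β * ∏ s, eg C p k (g s) ^ n s) σ =
        kum Ω C p (z ^ (p ^ k)) β σ +
          ∑ s, (n s : ZMod p) * kum Ω C p (z ^ (p ^ k)) (eg C p k (g s)) σ := by
    intro n β hβ σ hσ
    rw [kum_mul (z ^ (p ^ k)) hzp β _ hβ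
        (Finset.prod_ne_zero_iff.2 fun s _ => pow_ne_zero _ (hge s)) σ hσ,
      kum_prod (z ^ (p ^ k)) hzp _ _ (fun s _ => pow_ne_zero _ (hge s)) σ hσ]
    congr 1
    refine Finset.sum_congr rfl fun s _ => ?_
    rw [kum_pow (z ^ (p ^ k)) hzp _ (hge s) _ σ hσ]
  have hα'0 : α * ∏ s, eg C p k (g s) ^ n s ≠ 0 :=
    mul_ne_zero hα0 (Finset.prod_ne_zero_iff.2 fun s _ => pow_ne_zero _ (hge s))
  have hE' : Eig Ω C p k (α * ∏ s, eg C p k (g s) ^ n s) := by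
    refine eig_of_kum (z ^ (p ^ k)) hzp _ hα'0 fun τ hτ σ hσ => ?_
    have hσ' := (HC_normal Ω p k).conj_mem σ hσ τ
    rw [hsym n α hα0 _ hσ', hsym n α hα0 _ hσ, kum_eig _ hzp α hα0 hαE τ σ hτ hσ]
    congr 1
    refine Finset.sum_congr rfl fun s _ => ?_
    rw [kum_eig _ hzp _ (hge s) (eg_Eig _ (h.gne s)) τ σ hτ hσ]
  obtain ⟨χ', hχ', hχ'1, ho'⟩ := exists_chi (Ω := Ω) (z ^ (p ^ k)) hzp _ hα'0 hE'
  obtain ⟨c, hc'⟩ := sel hp2 z h.hz χ' hχ' ho' (by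
    intro P' hP' hpP' σ hσ
    have hσH := inG_le_HC Ω p k P' hP' hpP' _ hσ
    rw [hχ'1 σ hσH]
    exact kum_tame_zero _ hzp P' hP' hpP' _ hα'0 (hn P' hP' hpP') _ hσH hσ)
  refine ⟨c.val, fun s => (-(n s : ZMod p)).val, ZMod.val_lt c, fun s => ZMod.val_lt _, ?_⟩
  intro σ hσ
  have hz0 : z ≠ 0 := h.hz.ne_zero (pow_pos hpr.pos _).ne'
  have h1 := hc' σ hσ
  rw [hχ'1 σ hσ, hsym n α hα0 _ hσ] at h1
  have h2 : ∀ s, (((-(n s : ZMod p)).val : ℕ) : ZMod p) = -(n s : ZMod p) := fun s =>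
    ZMod.natCast_zmod_val _
  rw [hαf σ hσ, hsym _ (z ^ c.val) (pow_ne_zero _ hz0) _ hσ, kum_pow _ hzp z hz0 _ _ hσ,
    ZMod.natCast_zmod_val, ← h1]
  simp only [h2, neg_mul, Finset.sum_neg_distrib]
  ring

end Pool.Agent.MPca71X
end
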