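import Pool.Agent.Lib.MP_ca71b5_ntX.P6a
import Pool.Agent.Lib.MP_ca71b5_ntX.L1
import Pool.Agent.Lib.MP_ca71b5_ntX.L2
set_option autoImplicit false
open scoped NumberField
open NumberField

/-! Job P6 (medium-easy): existence of the data. -/

namespace Pool.Agent.MPca71X

open Pool.Agent.MPca71W

variable {Ω C : Type} [Field Ω] [Algebra ℚ Ω] [IsAlgClosed Ω] [Algebra.IsAlgebraic ℚ Ω] {p k : ℕ}
  [Fact p.Prime] [Field C] [NumberField C] [IsCyclotomicExtension {p ^ (k + 1)} ℚ C] [Algebra C Ω]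
  [IsScalarTower ℚ C Ω]

private theorem P6_code (p : ℕ) [Fact p.Prime] (hp : 3 ≤ p) (d r : ℕ) (hd : 1 ≤ d) :
    ∃ G : Matrix (Fin (8 * (r * d + r ^ 2 + 1))) (Fin d) (ZMod p), (∀ j, ∑ i, G j i = 1) ∧
      ∀ f : Fin (8 * (r * d + r ^ 2 + 1)) → Fin (8 * (r * d + r ^ 2 + 1)) → ZMod p,
        ∃ S : Matrix (Fin (8 * (r * d + r ^ 2 + 1))) (Fin d) (ZMod p),
          GoodS p (8 * (r * d + r ^ 2 + 1)) d r G S f := by
  classical
  rcases Nat.eq_zero_or_pos r with h0 | hr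
  · subst h0
    refine ⟨fun _ i => if i = ⟨0, hd⟩ then 1 else 0, fun j => ?_, fun f => ⟨0, ?_⟩⟩
    · simp
    · intro U C hne
      refine absurd ?_ hne
      ext i j
      rw [Matrix.mul_apply]
      simp
  · have h1 : d ≤ r * d + r ^ 2 + 1 := by nlinarith
    obtain ⟨G, hG⟩ := exists_code p hp d (r * d + r ^ 2 + 1) hd h1
    exact ⟨G, hG.1, fun f => exists_goodS p _ d r _ (Nat.lt_succ_self _) G hG f⟩

/-- `G` from `exists_code` (`δ = r d + r^2 + 1`, `t = 8 δ`), `stage1`, then `S` from `exists_goodS` with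
`f j j' = kum (eg (g j')) (y j)`, then `stage2`; `CDat` from the congruences; the characters
`χ_i` from `exists_chi` (`bt_Eig`, `bt_ne_zero`); `fm_data`. Independence: take for `w i` the
element `x (inr i)` (in `HC ≤ GF`), `kum_bt_x`. The last statement is `chi_inertial`. -/
theorem exists_FM (hp2 : p ≠ 2) (z : 𝓞 C) (hz : IsPrimitiveRoot z (p ^ (k + 1))) (d r : ℕ)
    (hd : 1 ≤ d) (ht : 8 * (r * d + r ^ 2 + 1) + 1 ≤ p ^ k) :
    ∃ (χ : Fin d → (GF Ω p k) → ZMod p) (hχ : ∀ i, χ i ∈ chs p (GF Ω p k))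
      (x' y' : Fin (8 * (r * d + r ^ 2 + 1)) → GF Ω p k)
      (u : Fin (8 * (r * d + r ^ 2 + 1)) → ZMod p)
      (G S : Matrix (Fin (8 * (r * d + r ^ 2 + 1))) (Fin d) (ZMod p))
      (f : Fin (8 * (r * d + r ^ 2 + 1)) → Fin (8 * (r * d + r ^ 2 + 1)) → ZMod p),
      FMData p (8 * (r * d + r ^ 2 + 1)) d r (GF Ω p k) (IS Ω p k) (K0 Ω p k χ hχ) χ x' y' u G S f ∧
      (∀ i, IsOpen {σ : GF Ω p k | χ i σ = 0}) ∧
      (∃ w : Fin d → GF Ω p k, ∀ i i', (χ i (w i') ≠ 0 ↔ i = i')) ∧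
      ∀ σ ∈ IS Ω p k, σ ∈ K0 Ω p k χ hχ → ∀ i, χ i σ = 0 := by
  classical
  have hpr : p.Prime := Fact.out
  have hp3 : 3 ≤ p := by
    have h2 := hpr.two_le
    omega
  have hzp : IsPrimitiveRoot (z ^ (p ^ k)) p := hz.pow (pow_pos hpr.pos _) (pow_succ p k)
  obtain ⟨G, hG, hGS⟩ := P6_code p hp3 d r hd
  obtain ⟨m, Q, g, e, b, P, x, y, h1, minj, hm, hcl, hy⟩ :=
    stage1 (Ω := Ω) hp2 z hz (8 * (r * d + r ^ 2 + 1)) ht
  obtain ⟨S, hgood⟩ := hGS (fun j j' => kum Ω C p (z ^ (p ^ k)) (eg C p k (g j')) (y j))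
  obtain ⟨Q', g', e', b', P', x', h2, hcr, hsym⟩ :=
    stage2 (Ω := Ω) hp2 h1 m (fun j => (hm j).1) y hy G S
  have hc : CDat p k z (Sum.elim g g') G m :=
    ⟨minj, fun j => (hm j).1, fun j => (hm j).2.1, fun j => (hm j).2.2.1,
      fun j => (hm j).2.2.2, fun j => hcl j, fun i => hcr i⟩
  have hch := fun i => exists_chi (Ω := Ω) (z ^ (p ^ k)) hzp (bt C p k (Sum.elim g g') G i)
    (bt_ne_zero h2 G i) (bt_Eig h2 G i)
  choose χ hχ hχ2 hχo using hch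
  obtain ⟨x1, y1, u, hFM⟩ := fm_data hp2 hd h2 hc hG χ hχ hχo hχ2 y (fun j => hy j) S
    (fun j i => hsym j i) hgood
  refine ⟨χ, hχ, x1, y1, u, G, S, _, hFM, hχo, ?_, ?_⟩
  · refine ⟨fun i => ⟨x' i, HC_le_GF Ω p k (h2.xH (Sum.inr i))⟩, fun i i' => ?_⟩
    have e1 : χ i ⟨x' i', HC_le_GF Ω p k (h2.xH (Sum.inr i'))⟩ =
        wt G (Sum.inr i') i * kum Ω C p (z ^ (p ^ k)) (eg C p k (g' i')) (x' i') := by
      rw [hχ2 i _ (h2.xH (Sum.inr i'))]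
      exact kum_bt_x h2 G i (Sum.inr i')
    have hne : kum Ω C p (z ^ (p ^ k)) (eg C p k (g' i')) (x' i') ≠ 0 := h2.xk (Sum.inr i')
    change (χ i ⟨x' i', HC_le_GF Ω p k (h2.xH (Sum.inr i'))⟩ ≠ 0) ↔ i = i'
    rw [e1]
    have e2 : wt G (Sum.inr i') i = if i' = i then (1 : ZMod p) else 0 := rfl
    rw [e2]
    by_cases h : i' = i
    · rw [if_pos h, one_mul]
      exact ⟨fun _ => h.symm, fun _ => hne⟩
    · rw [if_neg h, zero_mul]
      exact ⟨fun h3 => absurd rfl h3, fun h3 => absurd h3.symm h⟩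
  · intro σ hσ h0 i
    exact chi_inertial h2 hc hG χ hχ hχ2 σ hσ h0 i

end Pool.Agent.MPca71X
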