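import Pool.Agent.Lib.MP_ca71b5_ntX.R5
import Pool.Agent.Lib.MP_ca71b5_ntX.G3
set_option autoImplicit false

/-! Job R6 (medium-easy): finiteness (paper 286, 6.4). -/

namespace Pool.Agent.MPca71X

private theorem r6fm_sep {p : ℕ} [Fact p.Prime] {a : ℤ_[p]}
    (h : ∀ m : ℕ, ((p : ℤ_[p]) ^ m) ∣ a) : a = 0 := by
  apply PadicInt.ext_of_toZModPow.1
  intro m
  rw [map_zero, ← RingHom.mem_ker, PadicInt.ker_toZModPow, Ideal.mem_span_singleton]
  exact h m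

private theorem r6fm_mat {p n : ℕ} [Fact p.Prime]
    {A B : Matrix.GeneralLinearGroup (Fin n) (PadicInt p)}
    (h : ∀ (m : ℕ) i j, ((p : ℤ_[p]) ^ m) ∣
      ((A : Matrix (Fin n) (Fin n) ℤ_[p]) - (B : Matrix (Fin n) (Fin n) ℤ_[p])) i j) : A = B := by
  apply Units.ext
  ext i j
  have h1 := r6fm_sep (fun m => h m i j)
  rw [Matrix.sub_apply, sub_eq_zero] at h1
  exact h1

/-- For every `m` take `N_m` from `exists_Nm`, `r = 2 p n² + 1`. By `quot_abelian`,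
`quot_exponent`, `quot_card`: commutators and `p`-th powers of `K0` lie in `N_m`, and
`[Γ : N_m] ≤ p ^ r`. So `ρ(g)^p = 1 mod p^m`, `ρ(g g' g⁻¹ g'⁻¹) = 1 mod p^m` for all `m`, hence
`ρ(g)^p = 1`, and the image is commutative. If the range of `ρ` had more than `p ^ r` elements,
choose `p ^ r + 1` elements `g_l` of `K0` with distinct `ρ(g_l)`, and `m` such that they are
distinct modulo `p^m`; but `g_l, g_l'` lie in the same coset of `N_m` for some `l ≠ l'`, so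
`ρ(g_l) = ρ(g_l') mod p^m`. -/
theorem fm_finite {p t d n : ℕ} [Fact p.Prime] (hp2 : p ≠ 2) {Γ : Type} [Group Γ]
    [TopologicalSpace Γ] [IsTopologicalGroup Γ] {I : Set Γ} {K0 : Subgroup Γ}
    {χ : Fin d → Γ → ZMod p} {x y : Fin t → Γ} {u : Fin t → ZMod p}
    {G S : Matrix (Fin t) (Fin d) (ZMod p)} {f : Fin t → Fin t → ZMod p}
    (h : FMData p t d (2 * (p * n ^ 2) + 1) Γ I K0 χ x y u G S f)
    (ρ : K0 →* Matrix.GeneralLinearGroup (Fin n) (PadicInt p)) (hc : Continuous ρ)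
    (hρI : ∀ g : K0, (g : Γ) ∈ I → ρ g = 1)
    (hρp : ∀ (m : ℕ) (g : K0), ∃ k : ℕ, ∀ i j,
      ((p : ℤ_[p]) ^ m) ∣ ((ρ (g ^ p ^ k) : Matrix (Fin n) (Fin n) ℤ_[p]) - 1) i j) :
    (Set.range ρ).Finite ∧ (∀ g, ρ g ^ p = 1) ∧ ∀ g g', ρ g * ρ g' = ρ g' * ρ g := by
  have key : ∀ m : ℕ, ∃ N : Subgroup Γ, N.FiniteIndex ∧
      (∀ g g' : Γ, g * g' * g⁻¹ * g'⁻¹ ∈ N) ∧
      (∀ g : Γ, g ^ p ∈ N) ∧ N.index ≤ p ^ (2 * (p * n ^ 2) + 1) ∧
      ∀ g : K0, (g : Γ) ∈ N → ∀ i j,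
        ((p : ℤ_[p]) ^ m) ∣ ((ρ g : Matrix (Fin n) (Fin n) ℤ_[p]) - 1) i j := by
    intro m
    obtain ⟨N, hNn, hNf, hNo, hNp, hNI, hNr, -, hN⟩ :=
      exists_Nm p hp2 I h.Iconj K0 h.K0n h.K0o h.K0i ρ hc hρI hρp m
    have := hNn
    have := hNf
    have hab := quot_abelian h N hNo hNp hNI hNr
    have hexp := quot_exponent h N hNo hNp hNI hNr
    refine ⟨N, hNf, hab, hexp, ?_, hN⟩
    rw [quot_card N hab hexp]
    exact Nat.pow_le_pow_right (Fact.out : p.Prime).pos hNr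
  have h1 : ∀ g : K0, ρ g ^ p = 1 := by
    intro g
    rw [← map_pow]
    apply r6fm_mat
    intro m
    obtain ⟨N, -, -, hexp, -, hN⟩ := key m
    have h3 : ((g ^ p : K0) : Γ) ∈ N := by
      rw [Subgroup.coe_pow]
      exact hexp g
    exact hN (g ^ p) h3
  have h2 : ∀ g g' : K0, ρ g * ρ g' = ρ g' * ρ g := by
    intro g g'
    have h3 : ρ (g * g' * g⁻¹ * g'⁻¹) = 1 := by
      apply r6fm_mat
      intro m
      obtain ⟨N, -, hab, -, -, hN⟩ := key m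
      have h4 : ((g * g' * g⁻¹ * g'⁻¹ : K0) : Γ) ∈ N := by
        simp only [Subgroup.coe_mul, Subgroup.coe_inv]
        exact hab g g'
      exact hN _ h4
    simp only [map_mul, map_inv] at h3
    rw [mul_inv_eq_one, mul_inv_eq_iff_eq_mul] at h3
    exact h3
  refine ⟨?_, h1, h2⟩
  by_contra hinf
  have hinf' : (Set.range ρ).Infinite := hinf
  obtain ⟨T, hT, hTc⟩ := hinf'.exists_subset_card_eq (p ^ (2 * (p * n ^ 2) + 1) + 1)
  have hex : ∀ a : T, ∃ g : K0, ρ g = a := fun a => hT a.2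
  choose s hs using hex
  have hm : ∀ a b : T, ∃ m : ℕ, a ≠ b → ∃ i j, ¬ ((p : ℤ_[p]) ^ m) ∣
      ((ρ (s b) : Matrix (Fin n) (Fin n) ℤ_[p]) -
        (ρ (s a) : Matrix (Fin n) (Fin n) ℤ_[p])) i j := by
    intro a b
    by_cases hab : a = b
    · exact ⟨0, fun hne => absurd hab hne⟩
    · by_contra hcon
      push Not at hcon
      have h3 : ρ (s b) = ρ (s a) := r6fm_mat (fun m i j => (hcon m).2 i j)
      rw [hs, hs] at h3
      exact hab (Subtype.ext h3.symm)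
  choose mm hmm using hm
  obtain ⟨N, hNf, -, -, hNi, hN⟩ := key (Finset.univ.sup (fun q : T × T => mm q.1 q.2))
  have := hNf
  have : Fintype (Γ ⧸ N) := Fintype.ofFinite _
  have hcard : Fintype.card (Γ ⧸ N) < Fintype.card T := by
    rw [← Nat.card_eq_fintype_card, ← Subgroup.index_eq_card, Fintype.card_coe, hTc]
    omega
  obtain ⟨a, b, hab, hq⟩ := Fintype.exists_ne_map_eq_of_card_lt
    (fun a : T => (((s a : K0) : Γ) : Γ ⧸ N)) hcard
  have hq' : ((s a : K0) : Γ)⁻¹ * ((s b : K0) : Γ) ∈ N := QuotientGroup.eq.1 hq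
  obtain ⟨i, j, hij⟩ := hmm a b hab
  apply hij
  have h5 := hN ((s a)⁻¹ * s b) (by simpa using hq')
  have h6 : ((ρ (s b) : Matrix (Fin n) (Fin n) ℤ_[p]) -
      (ρ (s a) : Matrix (Fin n) (Fin n) ℤ_[p])) =
      (ρ (s a) : Matrix (Fin n) (Fin n) ℤ_[p]) *
        ((ρ ((s a)⁻¹ * s b) : Matrix (Fin n) (Fin n) ℤ_[p]) - 1) := by
    rw [mul_sub, mul_one, ← Units.val_mul, ← map_mul, mul_inv_cancel_left]
  rw [h6, Matrix.mul_apply]
  refine Finset.dvd_sum fun l _ => Dvd.dvd.mul_left ?_ _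
  refine (pow_dvd_pow _ ?_).trans (h5 l j)
  exact Finset.le_sup (f := fun q : T × T => mm q.1 q.2) (Finset.mem_univ (a, b))

end Pool.Agent.MPca71X
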