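import Pool.Agent.Lib.MP_ca71b5_ntX.P6
import Pool.Agent.Lib.MP_ca71b5_ntX.R6
import Pool.Agent.Lib.MP_ca71b5_ntX.M2
set_option autoImplicit false
open scoped NumberField
open NumberField

/-! Job P7 (medium): the group theoretic package. -/

namespace Pool.Agent.MPca71X

open Pool.Agent.MPca71W

private theorem P7_one {Γ : Type} [Group Γ] {p : ℕ} {χ : Γ → ZMod p} (h : χ ∈ chs p Γ) : χ 1 = 0 := by
  have := h 1 1
  rw [mul_one] at this
  exact left_eq_add.1 this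

private theorem P7_inv {Γ : Type} [Group Γ] {p : ℕ} {χ : Γ → ZMod p} (h : χ ∈ chs p Γ) (g : Γ) :
    χ g⁻¹ = - χ g := by
  have h1 := h g g⁻¹
  rw [mul_inv_cancel, P7_one h] at h1
  exact (neg_eq_of_add_eq_zero_right h1.symm).symm

private theorem P7_pow {Γ : Type} [Group Γ] {p : ℕ} {χ : Γ → ZMod p} (h : χ ∈ chs p Γ) (g : Γ)
    (m : ℕ) : χ (g ^ m) = (m : ZMod p) * χ g := by
  induction m with
  | zero => rw [pow_zero, P7_one h, Nat.cast_zero, zero_mul]
  | succ m ih =>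
    rw [pow_succ, h, ih]
    push_cast
    ring

/-- the common kernel of additive characters -/
private def P7_D {Γ : Type} [Group Γ] (p d : ℕ) (χ : Fin d → Γ → ZMod p)
    (hχ : ∀ i, χ i ∈ chs p Γ) : Subgroup Γ where
  carrier := {g | ∀ i, χ i g = 0}
  one_mem' := fun i => P7_one (hχ i)
  mul_mem' := fun {a b} ha hb i => by
    rw [hχ i a b, ha i, hb i, add_zero]
  inv_mem' := fun {a} ha i => by
    rw [P7_inv (hχ i), ha i, neg_zero]

private theorem P7_index {Γ : Type} [Group Γ] {p d : ℕ} [Fact p.Prime] (χ : Fin d → Γ → ZMod p)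
    (hχ : ∀ i, χ i ∈ chs p Γ) (w : Fin d → Γ) (hw : ∀ i i', (χ i (w i') ≠ 0 ↔ i = i')) :
    (P7_D p d χ hχ).index = p ^ d := by
  classical
  let F : Γ →* Multiplicative (Fin d → ZMod p) :=
    { toFun := fun g => Multiplicative.ofAdd (fun i => χ i g)
      map_one' := by
        have h1 : (fun i => χ i (1 : Γ)) = 0 := by
          funext i
          exact P7_one (hχ i)
        rw [h1, ofAdd_zero]
      map_mul' := fun x y => by
        have h1 : (fun i => χ i (x * y)) = (fun i => χ i x) + (fun i => χ i y) := by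
          funext i
          exact hχ i x y
        rw [h1, ofAdd_add] }
  have hF : ∀ g, F g = Multiplicative.ofAdd (fun i => χ i g) := fun _ => rfl
  have hker : P7_D p d χ hχ = F.ker := by
    ext g
    rw [MonoidHom.mem_ker, hF]
    constructor
    · intro h
      have h1 : (fun i => χ i g) = 0 := by
        funext i
        exact h i
      rw [h1, ofAdd_zero]
    · intro h i
      have h1 : (fun i => χ i g) = 0 := Multiplicative.ofAdd.injective (h.trans ofAdd_zero.symm)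
      exact congrFun h1 i
  have htop : F.range = ⊤ := by
    rw [eq_top_iff]
    intro v _
    have hv : v = ∏ i, Multiplicative.ofAdd (Pi.single i (Multiplicative.toAdd v i)) := by
      rw [← ofAdd_sum, Finset.univ_sum_single]
      rfl
    rw [hv]
    refine Subgroup.prod_mem _ fun i _ => ?_
    refine ⟨w i ^ (Multiplicative.toAdd v i / χ i (w i)).val, ?_⟩
    rw [hF]
    congr 1
    funext j
    rw [P7_pow (hχ j), ZMod.natCast_zmod_val]
    by_cases hj : j = i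
    · subst hj
      rw [Pi.single_eq_same]
      exact div_mul_cancel₀ _ ((hw j j).2 rfl)
    · have h0 : χ j (w i) = 0 := by
        by_contra hne
        exact hj ((hw j i).1 hne)
      rw [h0, mul_zero, Pi.single_eq_of_ne hj]
  rw [hker, Subgroup.index_ker, htop, Subgroup.card_top, Nat.card_congr Multiplicative.toAdd,
    Nat.card_fun, Nat.card_zmod, Nat.card_eq_fintype_card, Fintype.card_fin]

private theorem P7_root (C : Type) [Field C] [NumberField C] (n : ℕ) [NeZero n]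
    [IsCyclotomicExtension {n} ℚ C] : ∃ z : 𝓞 C, IsPrimitiveRoot z n :=
  ⟨_, (IsCyclotomicExtension.zeta_spec n ℚ C).toInteger_isPrimitiveRoot⟩

private theorem P7_k (p t : ℕ) (hp : 2 ≤ p) (ht : 1 ≤ t) :
    ∃ k : ℕ, t + 1 ≤ p ^ k ∧ p ^ (k + 1) ≤ p ^ 2 * t := by
  have hex : ∃ k : ℕ, t + 1 ≤ p ^ k := ⟨t, Nat.succ_le_of_lt (Nat.lt_pow_self hp)⟩
  classical
  refine ⟨Nat.find hex, Nat.find_spec hex, ?_⟩
  have h1 : Nat.find hex ≠ 0 := by
    intro h0
    have := Nat.find_spec hex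
    rw [h0, pow_zero] at this
    omega
  obtain ⟨j, hj⟩ := Nat.exists_eq_succ_of_ne_zero h1
  have h2 : ¬ t + 1 ≤ p ^ j := Nat.find_min hex (by omega)
  rw [hj]
  have h3 : p ^ (j.succ + 1) = p ^ 2 * p ^ j := by
    rw [Nat.succ_eq_add_one]
    ring
  rw [h3]
  exact Nat.mul_le_mul_left _ (by omega)

/-- Take `k` minimal with `t + 1 ≤ p ^ k`, `t = 8 (r d + r^2 + 1)`, `r = 2 p n^2 + 1`; then
`p ^ k ≤ p t` (`k ≥ 1`, `p^(k-1) ≤ t`). `C, z` from `exists_cyc`, `exists_FM`. `KK` is the image of `K0`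
in `G`, `DD` the image of the common kernel of the `χ_i`. Indices: `GF_index`, `[GF : K0] = p`
(`FMData.K0i`), `[GF : D] = p^d` (the `χ_i` are independent: `g ↦ (χ_i g)_i` is onto
`(ZMod p)^d`, by the elements `w`), so `[K0 : D] = p^(d-1)`. Commutators and `p`-th powers are
killed by all `χ_i`. For `ρ` on `KK ≃ K0`: `fm_finite` (`IS` and `Inertial` are the same
condition). -/
theorem exists_package (Ω : Type) [Field Ω] [Algebra ℚ Ω] [IsAlgClosed Ω]
    [Algebra.IsAlgebraic ℚ Ω] (p : ℕ) [Fact p.Prime] (hp2 : p ≠ 2) (n d : ℕ) (hd : 1 ≤ d) :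
    ∃ (k : ℕ) (KK DD : Subgroup (Ω ≃ₐ[ℚ] Ω)), DD ≤ KK ∧ IsOpen (KK : Set (Ω ≃ₐ[ℚ] Ω)) ∧
      IsOpen (DD : Set (Ω ≃ₐ[ℚ] Ω)) ∧ KK.index = p ^ (k + 1) ∧
      p ^ (k + 1) ≤ p ^ 2 * (8 * ((2 * (p * n ^ 2) + 1) * d + (2 * (p * n ^ 2) + 1) ^ 2 + 1)) ∧
      DD.relIndex KK = p ^ (d - 1) ∧
      (∀ g ∈ KK, ∀ h ∈ KK, g * h * g⁻¹ * h⁻¹ ∈ DD) ∧ (∀ g ∈ KK, g ^ p ∈ DD) ∧
      (∀ g ∈ KK, Inertial Ω g.toRingEquiv → g ∈ DD) ∧
      ∀ ρ : KK →* Matrix.GeneralLinearGroup (Fin n) (PadicInt p), Continuous ρ →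
        (∀ g : KK, Inertial Ω (g : Ω ≃ₐ[ℚ] Ω).toRingEquiv → ρ g = 1) →
        (∀ (m : ℕ) (g : KK), ∃ j : ℕ, ∀ a b,
          ((p : ℤ_[p]) ^ m) ∣ ((ρ (g ^ p ^ j) : Matrix (Fin n) (Fin n) ℤ_[p]) - 1) a b) →
        (Set.range ρ).Finite ∧ (∀ g, ρ g ^ p = 1) ∧ ∀ g g', ρ g * ρ g' = ρ g' * ρ g := by
  have hp : p.Prime := Fact.out
  obtain ⟨k, hk1, hk2⟩ := P7_k p (8 * ((2 * (p * n ^ 2) + 1) * d + (2 * (p * n ^ 2) + 1) ^ 2 + 1))
    hp.two_le (by omega)
  obtain ⟨C, _, _, _, _, _⟩ := exists_cyc Ω p k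
  have _ : NeZero (p ^ (k + 1)) := ⟨pow_ne_zero _ hp.ne_zero⟩
  obtain ⟨z, hz⟩ := P7_root C (p ^ (k + 1))
  obtain ⟨χ, hχ, x', y', u, G, S, f, hFM, hχo, ⟨w, hw⟩, hIn⟩ :=
    exists_FM (Ω := Ω) (C := C) hp2 z hz d (2 * (p * n ^ 2) + 1) hd hk1
  have hDi := P7_index χ hχ w hw
  have hDo : IsOpen ((P7_D p d χ hχ : Subgroup (GF Ω p k)) : Set (GF Ω p k)) := by
    have h1 : ((P7_D p d χ hχ : Subgroup (GF Ω p k)) : Set (GF Ω p k)) =
        ⋂ i, {σ : GF Ω p k | χ i σ = 0} := by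
      ext σ
      rw [Set.mem_iInter]
      exact Iff.rfl
    rw [h1]
    exact isOpen_iInter_of_finite hχo
  have hDK : P7_D p d χ hχ ≤ K0 Ω p k χ hχ := by
    intro σ hσ
    exact Finset.sum_eq_zero fun i _ => hσ i
  have hGo := GF_open Ω p k
  have hmapo : ∀ H : Subgroup (GF Ω p k), IsOpen (H : Set (GF Ω p k)) →
      IsOpen ((H.map (GF Ω p k).subtype : Subgroup (Ω ≃ₐ[ℚ] Ω)) : Set (Ω ≃ₐ[ℚ] Ω)) := by
    intro H hH
    rw [Subgroup.coe_map]
    exact hGo.isOpenMap_subtype_val _ hH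
  have hKi : ((K0 Ω p k χ hχ).map (GF Ω p k).subtype).index = p ^ (k + 1) := by
    rw [Subgroup.index_map_subtype, hFM.K0i, GF_index]
    ring
  have hDi' : ((P7_D p d χ hχ).map (GF Ω p k).subtype).index = p ^ d * p ^ k := by
    rw [Subgroup.index_map_subtype, hDi, GF_index]
  have hDK' : (P7_D p d χ hχ).map (GF Ω p k).subtype ≤ (K0 Ω p k χ hχ).map (GF Ω p k).subtype :=
    Subgroup.map_mono hDK
  refine ⟨k, (K0 Ω p k χ hχ).map (GF Ω p k).subtype, (P7_D p d χ hχ).map (GF Ω p k).subtype, hDK',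
    hmapo _ hFM.K0o, hmapo _ hDo, hKi, hk2, ?_, ?_, ?_, ?_, ?_⟩
  · have h1 := Subgroup.relIndex_mul_index hDK'
    rw [hKi, hDi'] at h1
    obtain ⟨e, rfl⟩ : ∃ e, d = e + 1 := ⟨d - 1, by omega⟩
    have h2 : p ^ (e + 1) * p ^ k = p ^ e * p ^ (k + 1) := by ring
    rw [h2] at h1
    have h3 := Nat.eq_of_mul_eq_mul_right (pow_pos hp.pos (k + 1)) h1
    rw [h3, Nat.add_sub_cancel]
  · rintro _ ⟨g, hg, rfl⟩ _ ⟨h, hh, rfl⟩
    refine ⟨g * h * g⁻¹ * h⁻¹, ?_, ?_⟩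
    · intro i
      rw [hχ i, hχ i, hχ i, P7_inv (hχ i), P7_inv (hχ i)]
      ring
    · simp only [map_mul, map_inv]
  · rintro _ ⟨g, hg, rfl⟩
    refine ⟨g ^ p, ?_, ?_⟩
    · intro i
      rw [P7_pow (hχ i), CharP.cast_eq_zero, zero_mul]
    · rw [map_pow]
  · rintro _ ⟨g, hg, rfl⟩ hin
    refine ⟨g, ?_, rfl⟩
    intro i
    exact hIn g hin hg i
  · intro ρ hc hρI hρp
    let e : K0 Ω p k χ hχ ≃* (K0 Ω p k χ hχ).map (GF Ω p k).subtype :=
      (K0 Ω p k χ hχ).equivMapOfInjective (GF Ω p k).subtype Subtype.val_injective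
    have he : ∀ g : K0 Ω p k χ hχ, ((e g : (K0 Ω p k χ hχ).map (GF Ω p k).subtype) : Ω ≃ₐ[ℚ] Ω) =
        ((g : GF Ω p k) : Ω ≃ₐ[ℚ] Ω) := fun g => rfl
    have hec : Continuous e := by
      refine continuous_induced_rng.2 ?_
      change Continuous (fun g : K0 Ω p k χ hχ => ((g : GF Ω p k) : Ω ≃ₐ[ℚ] Ω))
      exact continuous_subtype_val.comp continuous_subtype_val
    have hfin := fm_finite hp2 hFM (ρ.comp e.toMonoidHom) (hc.comp hec)
      (fun g hg => hρI (e g) (by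
        rw [he]
        exact hg))
      (fun m g => by
        obtain ⟨j, hj⟩ := hρp m (e g)
        refine ⟨j, fun a b => ?_⟩
        have h1 : (ρ.comp e.toMonoidHom) (g ^ p ^ j) = ρ ((e g) ^ p ^ j) := by
          rw [← map_pow]
          rfl
        rw [h1]
        exact hj a b)
    obtain ⟨hf1, hf2, hf3⟩ := hfin
    refine ⟨?_, ?_, ?_⟩
    · have h1 : Set.range ρ = Set.range (ρ.comp e.toMonoidHom) := by
        rw [MonoidHom.coe_comp]
        exact (e.surjective.range_comp ρ).symm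
      rw [h1]
      exact hf1
    · intro g
      obtain ⟨g', rfl⟩ := e.surjective g
      exact hf2 g'
    · intro g h
      obtain ⟨g', rfl⟩ := e.surjective g
      obtain ⟨h', rfl⟩ := e.surjective h
      exact hf3 g' h'

end Pool.Agent.MPca71X
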