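import Pool.Agent.Lib.MP_ca71b5_ntX.N0
set_option autoImplicit false
open scoped NumberField
open NumberField

/-! Elementary abelian unramified extensions. -/

namespace Pool.Agent.MPca71X

open Pool.Agent.MPca71W

/-- `K` has a Galois extension `L` of degree `p ^ s` in `Ω`, unramified at all finite primes, whose
group is abelian and killed by `p`. -/
def UnrElem (p s : ℕ) (K Ω : Type) [Field K] [Field Ω] [Algebra K Ω] : Prop :=
  ∃ L : IntermediateField K Ω, IsGalois K L ∧ Module.finrank K L = p ^ s ∧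
    Algebra.Unramified (𝓞 K) (𝓞 L) ∧ (∀ g : L ≃ₐ[K] L, g ^ p = 1) ∧
    ∀ g h : L ≃ₐ[K] L, g * h = h * g

theorem UnrElem.unrExt {p s : ℕ} {K Ω : Type} [Field K] [Field Ω] [Algebra K Ω]
    (h : UnrElem p s K Ω) : UnrExt p s K Ω := by
  obtain ⟨L, h1, h2, h3, h4, -⟩ := h
  exact ⟨L, h1, h2, h3, h4⟩

theorem unrElem_transfer (p s : ℕ) (K Ω Ω' : Type) [Field K] [NumberField K] [Field Ω] [Field Ω']
    [Algebra K Ω] [Algebra K Ω'] (ψ : Ω ≃ₐ[K] Ω') (h : UnrElem p s K Ω) : UnrElem p s K Ω' := by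
  obtain ⟨L, hG, hf, hU, hp, hc⟩ := h
  let e : L ≃ₐ[K] L.map ψ.toAlgHom := IntermediateField.intermediateFieldMap ψ L
  refine ⟨L.map ψ.toAlgHom, IsGalois.of_algEquiv e, ?_, ?_, ?_, ?_⟩
  · rw [← hf]
    exact (LinearEquiv.finrank_eq e.toLinearEquiv).symm
  · exact Algebra.Unramified.of_equiv (RingOfIntegers.mapAlgEquiv e)
  · intro g
    have h1 := hp (e.autCongr.symm g)
    rw [← map_pow] at h1
    exact e.autCongr.symm.injective (by rw [h1, map_one])
  · intro g g'
    have h1 := hc (e.autCongr.symm g) (e.autCongr.symm g')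
    rw [← map_mul, ← map_mul] at h1
    exact e.autCongr.symm.injective h1

end Pool.Agent.MPca71X
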