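import Pool.Agent.Lib.MP_ca71b5_ntX.P7
import Pool.Agent.Lib.MP_ca71b5_ntX.P8a
import Pool.Agent.Lib.MP_ca71b5_ntX.UE
set_option autoImplicit false
open scoped NumberField
open NumberField

/-! Job P8 (medium): the field `K`. -/

namespace Pool.Agent.MPca71X

open Pool.Agent.MPca71W

/-- `K` is the fixed field of `KK` (`InfiniteGalois`: `KK` open, so closed; `K.fixingSubgroup = KK`,
`[K : ℚ] = KK.index`). `L / K`: the subgroup of `Gal(Ω/K)` corresponding to `DD` under
`exists_galEquiv` is open, normal (it contains the commutators), of index `p^(d-1)`, contains all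
inertial elements: `exists_unramified_of_open` (ntW/Fin1); exponent `p`. For `ρ`: transport to
`KK` along `exists_galEquiv`, use `rho_inertial` (ntW/Inv), `rho_pgroup`. -/
theorem field_package (Ω : Type) [Field Ω] [Algebra ℚ Ω] [IsAlgClosed Ω]
    [Algebra.IsAlgebraic ℚ Ω] (p : ℕ) [Fact p.Prime] (hp2 : p ≠ 2) (n d : ℕ) (hd : 1 ≤ d) :
    ∃ (K : IntermediateField ℚ Ω) (_ : NumberField K),
      Module.finrank ℚ K ≤
        p ^ 2 * (8 * ((2 * (p * n ^ 2) + 1) * d + (2 * (p * n ^ 2) + 1) ^ 2 + 1)) ∧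
      UnrElem p (d - 1) K Ω ∧
      ∀ ρ : (Ω ≃ₐ[K] Ω) →* Matrix.GeneralLinearGroup (Fin n) (PadicInt p), Continuous ρ →
        UnrProP p K Ω ρ →
        (Set.range ρ).Finite ∧ (∀ g, ρ g ^ p = 1) ∧ ∀ g g', ρ g * ρ g' = ρ g' * ρ g := by
  classical
  obtain ⟨k, KK, DD, hle, hKo, hDo, hidx, hbd, hrel, hcomm, hpow, hin, hrho⟩ :=
    exists_package Ω p hp2 n d hd
  have hG : IsGalois ℚ Ω := isGalois_acl
  obtain ⟨K, hK⟩ : ∃ K : IntermediateField ℚ Ω, K.fixingSubgroup = KK :=
    ⟨IntermediateField.fixedField KK, InfiniteGalois.fixingSubgroup_fixedField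
      (⟨KK, Subgroup.isClosed_of_isOpen _ hKo⟩ : ClosedSubgroup (Ω ≃ₐ[ℚ] Ω))⟩
  subst hK
  have hfd : FiniteDimensional ℚ K := (InfiniteGalois.isOpen_iff_finite K).1 hKo
  have hnf : NumberField K :=
    { to_charZero := inferInstance
      to_finiteDimensional := by
        convert hfd
        exact Subsingleton.elim _ _ }
  have hfr : Module.finrank ℚ K = p ^ (k + 1) := by
    rw [IntermediateField.finrank_eq_fixingSubgroup_index, hidx]
  have hac : Algebra.IsAlgebraic K Ω := inferInstance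
  obtain ⟨φ, hφ, hφ', hφx⟩ := exists_galEquiv K
  have hφsx : ∀ (h : Ω ≃ₐ[K] Ω) (x : Ω), ((φ.symm h : K.fixingSubgroup) : Ω ≃ₐ[ℚ] Ω) x = h x := by
    intro h x
    rw [← hφx, MulEquiv.apply_symm_apply]
  refine ⟨K, hnf, hfr.le.trans hbd, ?_, ?_⟩
  · let N : Subgroup (Ω ≃ₐ[K] Ω) := (DD.subgroupOf K.fixingSubgroup).comap φ.symm.toMonoidHom
    have hmem : ∀ g : Ω ≃ₐ[K] Ω, g ∈ N ↔ ((φ.symm g : K.fixingSubgroup) : Ω ≃ₐ[ℚ] Ω) ∈ DD :=
      fun g => Iff.rfl
    have hNn : N.Normal := by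
      refine ⟨fun a ha g => ?_⟩
      rw [hmem] at ha ⊢
      have h1 := hcomm _ (φ.symm g).2 _ (φ.symm a).2
      have h2 := DD.mul_mem h1 ha
      rw [inv_mul_cancel_right] at h2
      rw [map_mul, map_mul, map_inv]
      exact h2
    have hNo : IsOpen (N : Set (Ω ≃ₐ[K] Ω)) :=
      (hDo.preimage continuous_subtype_val).preimage hφ'
    have hNI : ∀ h : Ω ≃ₐ[K] Ω, Inertial Ω h.toRingEquiv → h ∈ N := by
      intro h hh
      rw [hmem]
      exact hin _ (φ.symm h).2 (inertial_congr (fun x => (hφsx h x).symm) hh)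
    obtain ⟨L, h1, -, h2, h3, h4, h5⟩ := exists_unramified_of_open N hNn hNo hNI
    refine ⟨L, h3, ?_, h5, ?_, ?_⟩
    · rw [h4]
      change ((DD.subgroupOf K.fixingSubgroup).comap φ.symm.toMonoidHom).index = _
      rw [Subgroup.index_comap_of_surjective _ φ.symm.surjective]
      exact hrel
    · intro g
      have hGK : IsGalois K Ω := isGalois_acl
      have hn : Normal K L := h3.to_normal
      obtain ⟨g', rfl⟩ := AlgEquiv.restrictNormalHom_surjective (F := K) (K₁ := L) Ω g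
      rw [← map_pow]
      have h6 : g' ^ p ∈ N := by
        rw [hmem, map_pow]
        exact hpow _ (φ.symm g').2
      rw [← h1, IntermediateField.mem_fixingSubgroup_iff] at h6
      ext x
      have h7 := h6 (x : Ω) x.2
      have h8 := AlgEquiv.restrictNormal_commutes (g' ^ p) L x
      change ((AlgEquiv.restrictNormal (g' ^ p) L) x : Ω) = x
      exact h8.trans h7
    · intro g₁ g₂
      have hGK : IsGalois K Ω := isGalois_acl
      have hn : Normal K L := h3.to_normal
      obtain ⟨a, rfl⟩ := AlgEquiv.restrictNormalHom_surjective (F := K) (K₁ := L) Ω g₁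
      obtain ⟨b, rfl⟩ := AlgEquiv.restrictNormalHom_surjective (F := K) (K₁ := L) Ω g₂
      have h6 : a * b * a⁻¹ * b⁻¹ ∈ N := by
        rw [hmem, map_mul, map_mul, map_mul, map_inv, map_inv]
        exact hcomm _ (φ.symm a).2 _ (φ.symm b).2
      rw [← h1, IntermediateField.mem_fixingSubgroup_iff] at h6
      have h9 : AlgEquiv.restrictNormalHom (F := K) (K₁ := Ω) L (a * b * a⁻¹ * b⁻¹) = 1 := by
        ext x
        have h7 := h6 (x : Ω) x.2
        have h8 := AlgEquiv.restrictNormal_commutes (a * b * a⁻¹ * b⁻¹) L x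
        change ((AlgEquiv.restrictNormal (a * b * a⁻¹ * b⁻¹) L) x : Ω) = x
        exact h8.trans h7
      rw [map_mul, map_mul, map_mul, map_inv, map_inv, mul_inv_eq_one, mul_inv_eq_iff_eq_mul] at h9
      exact h9
  · intro ρ hc hu
    have hcont : Continuous (ρ.comp φ.toMonoidHom) := hc.comp hφ
    obtain ⟨r1, r2, r3⟩ := hrho (ρ.comp φ.toMonoidHom) hcont (by
      intro g hg
      exact rho_inertial ρ hc hu (φ g) (inertial_congr (fun x => (hφx g x).symm) hg)) (by
      intro m g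
      obtain ⟨j, hj⟩ := rho_pgroup ρ hc hu m (φ g)
      refine ⟨j, fun a b => ?_⟩
      have h1 : (ρ.comp φ.toMonoidHom) (g ^ p ^ j) = ρ ((φ g) ^ p ^ j) := by
        change ρ (φ (g ^ p ^ j)) = _
        rw [map_pow]
      rw [h1]
      exact hj a b)
    have hval : ∀ g : Ω ≃ₐ[K] Ω, ρ g = (ρ.comp φ.toMonoidHom) (φ.symm g) := by
      intro g
      change ρ g = ρ (φ (φ.symm g))
      rw [MulEquiv.apply_symm_apply]
    refine ⟨r1.subset ?_, fun g => ?_, fun g g' => ?_⟩
    · rintro _ ⟨g, rfl⟩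
      exact ⟨φ.symm g, (hval g).symm⟩
    · rw [hval]
      exact r2 _
    · rw [hval g, hval g']
      exact r3 _ _

end Pool.Agent.MPca71X
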