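import Pool.Agent.Lib.MP_ca71b5_ntX.N0
set_option autoImplicit false
open scoped NumberField
open NumberField

/-! Job P9a (medium): independence of the algebraic closure. -/

namespace Pool.Agent.MPca71X

open Pool.Agent.MPca71W

/-- `UnrExt` does not depend on the algebraic closure: transport `L` along a `K`-isomorphism
`Ω ≃ₐ[K] Ω'` (`IsAlgClosure.equiv`), `L.map`. -/
theorem unrExt_transfer (p s : ℕ) (K Ω Ω' : Type) [Field K] [NumberField K] [Field Ω] [Field Ω']
    [Algebra K Ω] [Algebra K Ω'] (ψ : Ω ≃ₐ[K] Ω') (h : UnrExt p s K Ω) : UnrExt p s K Ω' := by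
  obtain ⟨L, hG, hf, hU, hp⟩ := h
  let e : L ≃ₐ[K] L.map ψ.toAlgHom := IntermediateField.intermediateFieldMap ψ L
  refine ⟨L.map ψ.toAlgHom, IsGalois.of_algEquiv e, ?_, ?_, ?_⟩
  · rw [← hf]
    exact (LinearEquiv.finrank_eq e.toLinearEquiv).symm
  · exact Algebra.Unramified.of_equiv (RingOfIntegers.mapAlgEquiv e)
  · intro g
    have h1 := hp (e.autCongr.symm g)
    rw [← map_pow] at h1
    exact e.autCongr.symm.injective (by rw [h1, map_one])

/-- Transport of representations: `ρ' = ρ ∘ (conjugation by ψ)`. -/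
theorem rho_transfer (p : ℕ) [Fact p.Prime] (K Ω Ω' : Type) [Field K] [NumberField K] [Field Ω]
    [Field Ω'] [Algebra K Ω] [Algebra K Ω'] (ψ : Ω ≃ₐ[K] Ω') {n : ℕ}
    (ρ : (Ω' ≃ₐ[K] Ω') →* Matrix.GeneralLinearGroup (Fin n) (PadicInt p)) (hc : Continuous ρ)
    (hu : UnrProP p K Ω' ρ) :
    ∃ ρ' : (Ω ≃ₐ[K] Ω) →* Matrix.GeneralLinearGroup (Fin n) (PadicInt p), Continuous ρ' ∧
      UnrProP p K Ω ρ' ∧ ∀ g : Ω' ≃ₐ[K] Ω', ∃ g' : Ω ≃ₐ[K] Ω, ρ' g' = ρ g := by
  let c : (Ω ≃ₐ[K] Ω) ≃* (Ω' ≃ₐ[K] Ω') := ψ.autCongr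
  have hcapp : ∀ (g : Ω ≃ₐ[K] Ω) (x : Ω'), c g x = ψ (g (ψ.symm x)) := fun g x => rfl
  have hcont : Continuous c := by
    refine continuous_of_continuousAt_one c ?_
    rw [ContinuousAt, map_one]
    intro V hV
    rw [krullTopology_mem_nhds_one_iff] at hV
    obtain ⟨E, hE, hEV⟩ := hV
    let e : E ≃ₐ[K] E.map ψ.symm.toAlgHom := IntermediateField.intermediateFieldMap ψ.symm E
    have hE' : FiniteDimensional K (E.map ψ.symm.toAlgHom) := e.toLinearEquiv.finiteDimensional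
    rw [Filter.mem_map]
    refine Filter.mem_of_superset ((IntermediateField.fixingSubgroup_isOpen
      (E.map ψ.symm.toAlgHom)).mem_nhds (one_mem _)) ?_
    intro g hg
    refine hEV ?_
    rw [SetLike.mem_coe, IntermediateField.mem_fixingSubgroup_iff]
    intro x hx
    rw [hcapp]
    have h1 : ψ.symm x ∈ E.map ψ.symm.toAlgHom := ⟨x, hx, rfl⟩
    rw [(IntermediateField.mem_fixingSubgroup_iff _ _).1 hg _ h1]
    exact ψ.apply_symm_apply x
  refine ⟨ρ.comp c.toMonoidHom, hc.comp hcont, ?_, fun g => ⟨c.symm g, ?_⟩⟩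
  · intro L hL hfin hgal
    let e : L ≃ₐ[K] L.map ψ.toAlgHom := IntermediateField.intermediateFieldMap ψ L
    have hfin' : FiniteDimensional K (L.map ψ.toAlgHom) := e.toLinearEquiv.finiteDimensional
    have hgal' : IsGalois K (L.map ψ.toAlgHom) := IsGalois.of_algEquiv e
    have hle : L.map ψ.toAlgHom ≤ IntermediateField.fixedField ρ.ker := by
      rintro x ⟨y, hy, rfl⟩
      rw [IntermediateField.mem_fixedField_iff]
      intro f hf
      have h1 := (IntermediateField.mem_fixedField_iff _ y).1 (hL hy) (c.symm f) (by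
        rw [MonoidHom.mem_ker] at hf ⊢
        change ρ (c (c.symm f)) = 1
        rw [MulEquiv.apply_symm_apply, hf])
      have h2 : f (ψ y) = ψ ((c.symm f) y) := by
        have h3 := hcapp (c.symm f) (ψ y)
        rw [MulEquiv.apply_symm_apply, ψ.symm_apply_apply] at h3
        exact h3
      change f (ψ y) = ψ y
      rw [h2, h1]
    obtain ⟨⟨j, hj⟩, hU⟩ := hu _ hle hfin' hgal'
    refine ⟨⟨j, ?_⟩, ?_⟩
    · rw [← hj]
      exact LinearEquiv.finrank_eq e.toLinearEquiv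
    · exact Algebra.Unramified.of_equiv (RingOfIntegers.mapAlgEquiv e).symm
  · change ρ (c (c.symm g)) = ρ g
    rw [MulEquiv.apply_symm_apply]

end Pool.Agent.MPca71X
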