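import Pool.Agent.Lib.MP_ca71b5_ntX.P8
import Pool.Agent.Lib.MP_ca71b5_ntX.P9a
set_option autoImplicit false
open scoped NumberField
open NumberField

/-! Job P9 (medium-easy): the final theorem (FM). -/

namespace Pool.Agent.MPca71X

open Pool.Agent.MPca71W

/-- Numbers: `[K : ℚ] ≤ A d + B` with constants `A, B` depending on `p, n`; for large `d`
`c^2 (A d + B) ≤ (d-1)^2`. -/
theorem exists_d (p n c : ℕ) : ∃ d : ℕ, 1 ≤ d ∧
    c ^ 2 * (p ^ 2 * (8 * ((2 * (p * n ^ 2) + 1) * d + (2 * (p * n ^ 2) + 1) ^ 2 + 1))) ≤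
      (d - 1) ^ 2 := by
  set r : ℕ := 2 * (p * n ^ 2) + 1 with hr
  set m : ℕ := 8 * c ^ 2 * p ^ 2 * (r ^ 2 + 2 * r + 2) + 1 with hm
  refine ⟨m + 1, by omega, ?_⟩
  have h1 : m + 1 - 1 = m := rfl
  rw [h1]
  have h2 : m ^ 2 = m * (8 * c ^ 2 * p ^ 2) * (r ^ 2 + 2 * r + 2) + m := by
    calc m ^ 2 = m * m := by ring
      _ = m * (8 * c ^ 2 * p ^ 2 * (r ^ 2 + 2 * r + 2) + 1) := by rw [← hm]
      _ = _ := by ring
  have h3 : 1 ≤ m := by omega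
  have h4 : c ^ 2 * (p ^ 2 * (8 * (r * (m + 1) + r ^ 2 + 1)))
      = m * (8 * c ^ 2 * p ^ 2) * r + (8 * c ^ 2 * p ^ 2) * (r ^ 2 + r + 1) := by ring
  have h5 : (8 * c ^ 2 * p ^ 2) * (r ^ 2 + r + 1) ≤
      m * ((8 * c ^ 2 * p ^ 2) * (r ^ 2 + r + 2)) := by
    calc (8 * c ^ 2 * p ^ 2) * (r ^ 2 + r + 1) ≤ 1 * ((8 * c ^ 2 * p ^ 2) * (r ^ 2 + r + 2)) := by
          rw [one_mul]
          exact Nat.mul_le_mul_left _ (by omega)
      _ ≤ _ := Nat.mul_le_mul_right _ h3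
  rw [h4, h2]
  have h6 : m * (8 * c ^ 2 * p ^ 2) * (r ^ 2 + 2 * r + 2) =
      m * (8 * c ^ 2 * p ^ 2) * r + m * ((8 * c ^ 2 * p ^ 2) * (r ^ 2 + r + 2)) := by ring
  omega

private theorem P9_isAlg :
    @Algebra.IsAlgebraic ℚ (AlgebraicClosure ℚ) _ _ DivisionRing.toRatAlgebra := by
  have h : (DivisionRing.toRatAlgebra : Algebra ℚ (AlgebraicClosure ℚ)) =
    AlgebraicClosure.instAlgebra ℚ := Subsingleton.elim _ _
  rw [h]
  exact AlgebraicClosure.isAlgebraic ℚ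

private theorem P9_finrank {M : Type} [AddCommGroup M] (i j : Module ℚ M) :
    @Module.finrank ℚ M _ _ i = @Module.finrank ℚ M _ _ j := by
  have h : i = j := Subsingleton.elim _ _
  rw [h]

/-- (FM). `field_package` for `Ω = AlgebraicClosure ℚ` and `exists_d`; the algebraic closure of
`K` is `K`-isomorphic to `Ω` (`IsAlgClosure.equiv`), `unrExt_transfer`, `rho_transfer` (`g ↦ g'`
need not be a homomorphism: the range of `ρ` is contained in the range of `ρ'`). -/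
theorem fm_main (p : ℕ) [Fact p.Prime] (hp2 : p ≠ 2) (n c : ℕ) :
    ∃ (K : Type) (_ : Field K) (_ : NumberField K) (s : ℕ),
      c ^ 2 * Module.finrank ℚ K ≤ s ^ 2 ∧ UnrExt p s K (AlgebraicClosure K) ∧
      ∀ ρ : (AlgebraicClosure K ≃ₐ[K] AlgebraicClosure K) →*
          Matrix.GeneralLinearGroup (Fin n) (PadicInt p),
        Continuous ρ → UnrProP p K (AlgebraicClosure K) ρ →
        (Set.range ρ).Finite ∧ (∀ g, ρ g ^ p = 1) ∧ ∀ g g', ρ g * ρ g' = ρ g' * ρ g := by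
  obtain ⟨d, hd, hd2⟩ := exists_d p n c
  haveI := P9_isAlg
  obtain ⟨K, hK, h1, h2, h3⟩ := field_package (AlgebraicClosure ℚ) p hp2 n d hd
  haveI : Algebra.IsAlgebraic K (AlgebraicClosure ℚ) :=
    Algebra.IsAlgebraic.tower_top (K := ℚ) K
  haveI : IsAlgClosure K (AlgebraicClosure ℚ) := ⟨inferInstance, inferInstance⟩
  have ψ : AlgebraicClosure ℚ ≃ₐ[K] AlgebraicClosure K :=
    IsAlgClosure.equiv K (AlgebraicClosure ℚ) (AlgebraicClosure K)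
  refine ⟨K, inferInstance, hK, d - 1, ?_, ?_, ?_⟩
  · refine le_trans (Nat.mul_le_mul_left _ (le_of_eq_of_le ?_ h1)) hd2
    exact P9_finrank _ _
  · exact unrExt_transfer p (d - 1) K _ _ ψ h2.unrExt
  · intro ρ hc hu
    obtain ⟨ρ', hc', hu', h4⟩ := rho_transfer p K _ _ ψ ρ hc hu
    obtain ⟨h5, h6, h7⟩ := h3 ρ' hc' hu'
    refine ⟨?_, ?_, ?_⟩
    · refine h5.subset ?_
      rintro _ ⟨g, rfl⟩
      obtain ⟨g', hg'⟩ := h4 g
      exact ⟨g', hg'⟩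
    · intro g
      obtain ⟨g', hg'⟩ := h4 g
      rw [← hg']
      exact h6 g'
    · intro g₁ g₂
      obtain ⟨g₁', hg₁'⟩ := h4 g₁
      obtain ⟨g₂', hg₂'⟩ := h4 g₂
      rw [← hg₁', ← hg₂']
      exact h7 g₁' g₂'

end Pool.Agent.MPca71X
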