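import Pool.Agent.Lib.MP_ca71b5_ntX.G0
set_option autoImplicit false

/-! Definitions for the rank estimate (paper 286, 6.1). -/

namespace Pool.Agent.MPca71X

/-- The congruence subgroups of a representation in a ring. -/
def lvl {Λ A : Type} [Group Λ] [Ring A] (p : ℕ) (R : Λ →* A) (i : ℕ) : Subgroup Λ where
  carrier := {g | ∃ a : A, R g = 1 + (p : A) ^ i * a}
  one_mem' := ⟨0, by simp⟩
  mul_mem' := by
    rintro g h ⟨a, ha⟩ ⟨b, hb⟩
    refine ⟨a + b + a * ((p : A) ^ i * b), ?_⟩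
    rw [map_mul, ha, hb]
    noncomm_ring
  inv_mem' := by
    rintro g ⟨a, ha⟩
    refine ⟨-(a * R g⁻¹), ?_⟩
    have h1 : R g * R g⁻¹ = 1 := by rw [← map_mul, mul_inv_cancel, map_one]
    rw [ha, add_mul, one_mul, mul_assoc] at h1
    rw [mul_neg, ← h1]
    abel

end Pool.Agent.MPca71X
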