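import Pool.Agent.Lib.MP_ca71b5_ntX.R0
set_option autoImplicit false

/-! Job R1 (medium-easy): counting characters. -/

namespace Pool.Agent.MPca71X

/-- the complex character belonging to an additive character -/
noncomputable def R1hom (p : ℕ) [Fact p.Prime] {Γ : Type} [Group Γ] (N : Subgroup Γ)
    (φ : chsN p N) : Γ →* ℂ where
  toFun g := ZMod.stdAddChar (N := p) (φ.1 g)
  map_one' := by
    have h : φ.1 1 = 0 := φ.2.2 1 N.one_mem
    rw [h, AddChar.map_zero_eq_one]
  map_mul' x y := by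
    have h : φ.1 (x * y) = φ.1 x + φ.1 y := φ.2.1 x y
    rw [h, AddChar.map_add_eq_mul]

theorem R1hom_inj (p : ℕ) [Fact p.Prime] {Γ : Type} [Group Γ] (N : Subgroup Γ) :
    Function.Injective (R1hom p N) := by
  intro φ ψ h
  apply Subtype.ext
  funext g
  have h1 : ZMod.stdAddChar (N := p) (φ.1 g) = ZMod.stdAddChar (N := p) (ψ.1 g) :=
    DFunLike.congr_fun h g
  exact ZMod.injective_stdAddChar h1

theorem R1_linInd (p : ℕ) [Fact p.Prime] {Γ : Type} [Group Γ] (N : Subgroup Γ) :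
    ∃ v : chsN p N → ((Γ ⧸ N) → ℂ), LinearIndependent ℂ v := by
  have hl : LinearIndependent ℂ (fun φ : chsN p N => ((R1hom p N φ : Γ →* ℂ) : Γ → ℂ)) :=
    (linearIndependent_monoidHom Γ ℂ).comp (R1hom p N) (R1hom_inj p N)
  let L : ((Γ ⧸ N) → ℂ) →ₗ[ℂ] (Γ → ℂ) :=
    { toFun := fun f g => f (QuotientGroup.mk g)
      map_add' := fun f g => rfl
      map_smul' := fun c f => rfl }
  have hφ : ∀ φ : chsN p N, ∀ a b : Γ, (QuotientGroup.leftRel N) a b →
      R1hom p N φ a = R1hom p N φ b := by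
    intro φ a b hab
    rw [QuotientGroup.leftRel_apply] at hab
    have h1 : φ.1 (a⁻¹ * b) = 0 := φ.2.2 _ hab
    have h2 : φ.1 b = φ.1 a := by
      have : φ.1 (a * (a⁻¹ * b)) = φ.1 a + φ.1 (a⁻¹ * b) := φ.2.1 _ _
      rw [mul_inv_cancel_left, h1, add_zero] at this
      exact this
    change ZMod.stdAddChar (N := p) (φ.1 a) = ZMod.stdAddChar (N := p) (φ.1 b)
    rw [h2]
  refine ⟨fun φ q => Quotient.liftOn' q (R1hom p N φ) (hφ φ), ?_⟩
  apply LinearIndependent.of_comp L
  exact hl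

theorem R1_finite (p : ℕ) [Fact p.Prime] {Γ : Type} [Group Γ] (N : Subgroup Γ)
    [N.FiniteIndex] : Finite (chsN p N) := by
  obtain ⟨v, hv⟩ := R1_linInd p N
  haveI : Finite (Γ ⧸ N) := inferInstance
  haveI : Module.Finite ℂ ((Γ ⧸ N) → ℂ) := inferInstance
  exact hv.finite

/-- A subgroup of finite index has at most `index` characters which vanish on it: such a character
is constant on the left cosets of `N`; the functions `g ↦ ζ ^ (φ g)` (`ζ` a primitive `p`-th root
of unity in `ℂ`) are distinct monoid homs `Γ → ℂ`, hence linearly independent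
(`linearIndependent_monoidHom`), and lie in the space of functions on `Γ ⧸ N` of dimension
`index`. -/
theorem chsN_card_le (p : ℕ) [Fact p.Prime] {Γ : Type} [Group Γ] (N : Subgroup Γ)
    [N.FiniteIndex] : Nat.card (chsN p N) ≤ N.index := by
  obtain ⟨v, hv⟩ := R1_linInd p N
  haveI : Finite (Γ ⧸ N) := inferInstance
  haveI := R1_finite p N
  haveI : Fintype (Γ ⧸ N) := Fintype.ofFinite _
  haveI : Fintype (chsN p N) := Fintype.ofFinite _
  have h := hv.fintype_card_le_finrank
  rw [Module.finrank_fintype_fun_eq_card, ← Nat.card_eq_fintype_card,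
    ← Nat.card_eq_fintype_card] at h
  exact h

/-- `Nat.card = p ^ finrank` for a finite module over `ZMod p`. -/
theorem finrank_le_of_card (p : ℕ) [Fact p.Prime] {Γ : Type} [Group Γ] (N : Subgroup Γ)
    [N.FiniteIndex] (e : ℕ) (h : Nat.card (chsN p N) ≤ p ^ e) :
    Module.finrank (ZMod p) (chsN p N) ≤ e := by
  haveI := R1_finite p N
  haveI : Module.Finite (ZMod p) (chsN p N) := Module.Finite.of_finite
  rw [Module.natCard_eq_pow_finrank (K := ZMod p), Nat.card_zmod] at h
  exact (Nat.pow_le_pow_iff_right (Fact.out : p.Prime).one_lt).1 h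

/-- Restriction of the characters of `Γ` which vanish on `N` to a subgroup `H ≥ N`: the kernel is
`chsN p H`, the image lies in the characters of `H` which vanish on `N`. -/
theorem chsN_card_restrict (p : ℕ) [Fact p.Prime] {Γ : Type} [Group Γ] (N H : Subgroup Γ)
    [N.FiniteIndex] (hNH : N ≤ H) :
    Nat.card (chsN p N) ≤ Nat.card (chsN p H) * Nat.card (chsN p (N.subgroupOf H)) := by
  classical
  haveI : H.FiniteIndex := Subgroup.finiteIndex_of_le hNH
  haveI := R1_finite p H
  haveI := R1_finite p (N.subgroupOf H)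
  let ρ : chsN p N → chsN p (N.subgroupOf H) := fun φ =>
    ⟨fun h => φ.1 h.1, fun x y => φ.2.1 x.1 y.1, fun n hn => φ.2.2 n.1
      (Subgroup.mem_subgroupOf.1 hn)⟩
  have hs : ∀ ψ : chsN p (N.subgroupOf H), ∃ φ : chsN p N, (∃ φ', ρ φ' = ψ) → ρ φ = ψ := by
    intro ψ
    by_cases h : ∃ φ', ρ φ' = ψ
    · obtain ⟨φ, hφ⟩ := h
      exact ⟨φ, fun _ => hφ⟩
    · exact ⟨0, fun h' => absurd h' h⟩
  choose s hs using hs
  have hker : ∀ φ φ' : chsN p N, ρ φ = ρ φ' → (φ.1 - φ'.1) ∈ chsN p H := by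
    intro φ φ' h
    refine ⟨(chs p Γ).sub_mem φ.2.1 φ'.2.1, fun n hn => ?_⟩
    have h1 : φ.1 n = φ'.1 n := congrFun (congrArg Subtype.val h) (⟨n, hn⟩ : H)
    rw [Pi.sub_apply, h1, sub_self]
  let F : chsN p N → chsN p H × chsN p (N.subgroupOf H) := fun φ =>
    (⟨φ.1 - (s (ρ φ)).1, hker _ _ (hs (ρ φ) ⟨φ, rfl⟩).symm⟩, ρ φ)
  have hF : Function.Injective F := by
    intro φ φ' h
    have h2 : ρ φ = ρ φ' := congrArg Prod.snd h
    have h1 : φ.1 - (s (ρ φ)).1 = φ'.1 - (s (ρ φ')).1 :=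
      congrArg Subtype.val (congrArg Prod.fst h)
    rw [h2] at h1
    exact Subtype.ext (sub_left_injective h1)
  have := Nat.card_le_card_of_injective F hF
  rwa [Nat.card_prod] at this

end Pool.Agent.MPca71X
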