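import Pool.Agent.Lib.MP_ca71b5_ntX.R0
set_option autoImplicit false

/-! Job R2 (medium): the filtration argument (paper 286, 6.1). -/

namespace Pool.Agent.MPca71X

/-- `[H 1 : H m] = ∏_{i=1}^{m-1} [H i : H (i+1)]` and
`[Φ : H m] = ∏_{i=1}^{m-1} [Φ ∩ H i : Φ ∩ H (i+1)]` (`H m ≤ Φ ≤ H 1`). For `1 ≤ i`, `i + 2 ≤ m` the
map `h ↦ h ^ p` from `H i` to `Φ ∩ H (i+1)` induces (by `hinj`) an injection from
`H i / H (i+1)` (left cosets; choose representatives) to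
`(Φ ∩ H (i+1)) / (Φ ∩ H (i+2))`, so `[Φ ∩ H (i+1) : Φ ∩ H (i+2)] ≥ [H i : H (i+1)]`. Hence
`[Φ : H m] ≥ ∏_{i=1}^{m-2} [H i : H (i+1)]` and
`[H 1 : Φ] = [H 1 : H m] / [Φ : H m] ≤ [H (m-1) : H m] ≤ D`. For `m = 1`, `H 1 = Φ`. -/
theorem filt {Λ : Type} [Group Λ] (p D m : ℕ) (hm : 1 ≤ m) (H : ℕ → Subgroup Λ)
    (hD : 1 ≤ D) (hdesc : ∀ i, H (i + 1) ≤ H i)
    (hrel : ∀ i, (H (i + 1)).relIndex (H i) ≠ 0 ∧ (H (i + 1)).relIndex (H i) ≤ D)
    (hpow : ∀ i, 1 ≤ i → ∀ g ∈ H i, g ^ p ∈ H (i + 1))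
    (hinj : ∀ i, 1 ≤ i → ∀ g ∈ H i, ∀ h ∈ H i, (g ^ p)⁻¹ * h ^ p ∈ H (i + 2) → g⁻¹ * h ∈ H (i + 1))
    (Φ : Subgroup Λ) (h1 : H m ≤ Φ) (h2 : Φ ≤ H 1) (h3 : ∀ g ∈ H 1, g ^ p ∈ Φ) :
    Φ.relIndex (H 1) ≠ 0 ∧ Φ.relIndex (H 1) ≤ D := by
  have hanti : ∀ i j, i ≤ j → H j ≤ H i := fun i j hij => by
    induction hij with
    | refl => exact le_rfl
    | step _ ih => exact (hdesc _).trans ih
  -- `b i ≠ 0`
  have hb0 : ∀ i, (H (i + 1)).relIndex (Φ ⊓ H i) ≠ 0 := fun i h0 =>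
    (hrel i).1 (Subgroup.relIndex_eq_zero_of_le_right inf_le_right h0)
  -- `c i * b i = a i * c (i + 1)`
  have hcb : ∀ i, Φ.relIndex (H i) * (H (i + 1)).relIndex (Φ ⊓ H i) =
      (H (i + 1)).relIndex (H i) * Φ.relIndex (H (i + 1)) := fun i => by
    have e1 := Subgroup.relIndex_mul_relIndex (Φ ⊓ H (i + 1)) (Φ ⊓ H i) (H i)
      (inf_le_inf_left _ (hdesc i)) inf_le_right
    have e2 := Subgroup.relIndex_mul_relIndex (Φ ⊓ H (i + 1)) (H (i + 1)) (H i)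
      inf_le_right (hdesc i)
    have e3 : (Φ ⊓ H (i + 1)).relIndex (Φ ⊓ H i) = (H (i + 1)).relIndex (Φ ⊓ H i) := by
      rw [← Subgroup.inf_relIndex_right (H (i + 1)) (Φ ⊓ H i)]
      congr 1
      apply le_antisymm
      · exact le_inf inf_le_right (inf_le_inf_left _ (hdesc i))
      · exact le_inf (inf_le_right.trans inf_le_left) inf_le_left
    rw [Subgroup.inf_relIndex_right, e3] at e1
    rw [Subgroup.inf_relIndex_right] at e2
    rw [mul_comm, e1, ← e2, mul_comm]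
  -- `a i ≤ b (i + 1)`
  have hab : ∀ i, 1 ≤ i → (H (i + 1)).relIndex (H i) ≤ (H (i + 2)).relIndex (Φ ⊓ H (i + 1)) := by
    intro i hi
    have hfin : Finite ((Φ ⊓ H (i + 1) : Subgroup Λ) ⧸ (H (i + 2)).subgroupOf (Φ ⊓ H (i + 1))) :=
      Nat.finite_of_card_ne_zero (hb0 (i + 1))
    have hmem : ∀ g : H i, (g : Λ) ^ p ∈ Φ ⊓ H (i + 1) := fun g =>
      ⟨h3 _ (hanti 1 i hi g.2), hpow i hi _ g.2⟩
    refine Nat.card_le_card_of_injective (α := H i ⧸ (H (i + 1)).subgroupOf (H i))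
      (β := (Φ ⊓ H (i + 1) : Subgroup Λ) ⧸ (H (i + 2)).subgroupOf (Φ ⊓ H (i + 1)))
      (fun q => QuotientGroup.mk ⟨(q.out : Λ) ^ p, hmem q.out⟩) ?_
    intro q q' hqq
    have h4 := QuotientGroup.eq.1 hqq
    rw [Subgroup.mem_subgroupOf] at h4
    have h5 := hinj i hi _ q.out.2 _ q'.out.2 (by simpa using h4)
    rw [← QuotientGroup.out_eq' q, ← QuotientGroup.out_eq' q']
    apply QuotientGroup.eq.2
    rw [Subgroup.mem_subgroupOf]
    simpa using h5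
  have key : ∀ j i, 1 ≤ i → i + j + 1 = m → Φ.relIndex (H i) ≠ 0 ∧
      Φ.relIndex (H i) * (H (i + 1)).relIndex (Φ ⊓ H i) ≤ D := by
    intro j
    induction j with
    | zero =>
      intro i hi him
      have h4 : Φ.relIndex (H (i + 1)) = 1 := by
        rw [Subgroup.relIndex_eq_one, show i + 1 = m by omega]
        exact h1
      have h5 := hcb i
      rw [h4, mul_one] at h5
      refine ⟨fun h6 => ?_, ?_⟩
      · rw [h6, zero_mul] at h5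
        exact (hrel i).1 h5.symm
      · rw [h5]
        exact (hrel i).2
    | succ j ih =>
      intro i hi him
      obtain ⟨h4, h5⟩ := ih (i + 1) (by omega) (by omega)
      have h6 := hcb i
      refine ⟨fun h7 => ?_, ?_⟩
      · rw [h7, zero_mul] at h6
        rcases Nat.mul_eq_zero.1 h6.symm with h8 | h8
        · exact (hrel i).1 h8
        · exact h4 h8
      · rw [h6, mul_comm]
        exact (Nat.mul_le_mul_left _ (hab i hi)).trans h5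
  rcases Nat.lt_or_ge 1 m with hm1 | hm1
  · obtain ⟨h4, h5⟩ := key (m - 2) 1 le_rfl (by omega)
    refine ⟨h4, le_trans ?_ h5⟩
    exact Nat.le_mul_of_pos_right _ (Nat.pos_of_ne_zero (hb0 1))
  · obtain rfl : m = 1 := le_antisymm hm1 hm
    have h4 : Φ.relIndex (H 1) = 1 := Subgroup.relIndex_eq_one.2 h1
    rw [h4]
    exact ⟨one_ne_zero, hD⟩

end Pool.Agent.MPca71X
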