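import Pool.Agent.Lib.MP_ca71b5_ntX.R0
set_option autoImplicit false

/-! Job R3 (medium): congruence subgroups (paper 286, 6.1). -/

namespace Pool.Agent.MPca71X

variable {Λ A : Type} [Group Λ] [Ring A] (p : ℕ) (R : Λ →* A)

theorem lvl_zero : lvl p R 0 = ⊤ := by
  ext g
  simp only [Subgroup.mem_top, iff_true]
  exact ⟨R g - 1, by simp⟩

theorem lvl_succ_le (i : ℕ) : lvl p R (i + 1) ≤ lvl p R i := by
  rintro g ⟨a, ha⟩
  exact ⟨(p : A) * a, by rw [ha, pow_succ, mul_assoc]⟩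

theorem lvl_normal (i : ℕ) : (lvl p R i).Normal := by
  constructor
  rintro g ⟨a, ha⟩ h
  refine ⟨R h * a * R h⁻¹, ?_⟩
  have h1 : R h * R h⁻¹ = 1 := by rw [← map_mul, mul_inv_cancel, map_one]
  have h2 : R h * (p : A) ^ i = (p : A) ^ i * R h := ((Nat.cast_commute p (R h)).pow_left i).symm
  rw [map_mul, map_mul, ha, mul_add, mul_one, add_mul, h1, ← mul_assoc, h2]
  noncomm_ring

/-- `lvl i / lvl (i+1)` injects into `A / pA` via `1 + p ^ i a ↦ a mod p` (if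
`R g = 1 + p^i a`, `R h = 1 + p^i b`, `a - b = p c` then `R h⁻¹ R g - 1 = R h⁻¹ (R g - R h)`
is divisible by `p^(i+1)`). For `i = 0`: `g ↦ R g mod p`. -/
theorem lvl_relIndex (D : ℕ) (hA : Finite (A ⧸ (Ideal.span {(p : A)})))
    (hD : Nat.card (A ⧸ (Ideal.span {(p : A)})) ≤ D) (i : ℕ) :
    (lvl p R (i + 1)).relIndex (lvl p R i) ≠ 0 ∧ (lvl p R (i + 1)).relIndex (lvl p R i) ≤ D := by
  classical
  have hrep : ∀ q : lvl p R i ⧸ (lvl p R (i + 1)).subgroupOf (lvl p R i), ∃ a : A,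
      R (q.out : Λ) = 1 + (p : A) ^ i * a := fun q => q.out.2
  choose a ha using hrep
  have hinj : Function.Injective fun q : lvl p R i ⧸ (lvl p R (i + 1)).subgroupOf (lvl p R i) =>
      (Submodule.Quotient.mk (a q) : A ⧸ (Ideal.span {(p : A)})) := by
    intro q q' hq
    have h1 := (Submodule.Quotient.eq _).1 hq
    obtain ⟨c, hc⟩ := Ideal.mem_span_singleton'.1 h1
    have h2 : (QuotientGroup.mk q.out : lvl p R i ⧸ (lvl p R (i + 1)).subgroupOf (lvl p R i)) =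
        QuotientGroup.mk q'.out := by
      rw [QuotientGroup.eq, Subgroup.mem_subgroupOf]
      refine ⟨-(R (q.out : Λ)⁻¹ * c), ?_⟩
      have h3 : R (q.out : Λ)⁻¹ * R (q.out : Λ) = 1 := by
        rw [← map_mul, inv_mul_cancel, map_one]
      have h4 : R (q'.out : Λ) = R (q.out : Λ) - (p : A) ^ (i + 1) * c := by
        have h5 : c * (p : A) = (p : A) * c := (Nat.cast_commute p c).symm
        rw [ha q, ha q', pow_succ, mul_assoc, ← h5, hc]
        noncomm_ring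
      have h6 : R (q.out : Λ)⁻¹ * (p : A) ^ (i + 1) = (p : A) ^ (i + 1) * R (q.out : Λ)⁻¹ :=
        ((Nat.cast_commute p (R (q.out : Λ)⁻¹)).pow_left (i + 1)).symm
      have h7 : ((q.out⁻¹ * q'.out : lvl p R i) : Λ) = (q.out : Λ)⁻¹ * (q'.out : Λ) := rfl
      rw [h7, map_mul, h4, mul_sub, h3, ← mul_assoc, h6]
      noncomm_ring
    rwa [QuotientGroup.out_eq', QuotientGroup.out_eq'] at h2
  have hfin : Finite (lvl p R i ⧸ (lvl p R (i + 1)).subgroupOf (lvl p R i)) :=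
    Finite.of_injective _ hinj
  constructor
  · exact Nat.card_pos.ne'
  · exact (Nat.card_le_card_of_injective _ hinj).trans hD

/-- `p` is an odd prime, `i ≥ 1`: `(1 + p^i a)^p = 1 + p^(i+1) a + p^(i+2) c` (binomial theorem:
`p ∣ choose p k` for `0 < k < p`; `2 i + 1 ≥ i + 2`, `i p ≥ i + 2`; `p` is central). -/
theorem one_add_pow (hp : p.Prime) (hp2 : p ≠ 2) (i : ℕ) (hi : 1 ≤ i) (a : A) :
    ∃ c : A, (1 + (p : A) ^ i * a) ^ p = 1 + (p : A) ^ (i + 1) * a + (p : A) ^ (i + 2) * c := by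
  have hp3 : 3 ≤ p := by
    have := hp.two_le
    omega
  obtain ⟨q, rfl⟩ : ∃ q, p = q + 1 := ⟨p - 1, by omega⟩
  have hdvd : ∀ k : ℕ, k < q → ∃ c : ℕ, (q + 1).choose (k + 2) * ((q + 1) ^ i) ^ (k + 2) =
      (q + 1) ^ (i + 2) * c := by
    intro k hk
    suffices h : (q + 1) ^ (i + 2) ∣ (q + 1).choose (k + 2) * ((q + 1) ^ i) ^ (k + 2) from h
    by_cases h1 : k + 2 = q + 1
    · rw [h1, Nat.choose_self, one_mul, ← pow_mul]
      apply pow_dvd_pow
      have h2 : 3 ≤ q + 1 := hp3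
      nlinarith
    · have h2 : (q + 1) ∣ (q + 1).choose (k + 2) := hp.dvd_choose_self (by omega) (by omega)
      obtain ⟨c, hc⟩ := h2
      rw [hc, ← pow_mul]
      have h3 : (q + 1) ^ (i + 2) ∣ (q + 1) ^ (i * (k + 2) + 1) := by
        apply pow_dvd_pow
        nlinarith
      obtain ⟨d, hd⟩ := h3
      refine ⟨c * d, ?_⟩
      calc (q + 1) * c * (q + 1) ^ (i * (k + 2)) = (q + 1) ^ (i * (k + 2) + 1) * c := by ring
        _ = _ := by rw [hd]; ring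
  choose c hc using hdvd
  refine ⟨∑ k : Fin q, (c k k.2 : A) * a ^ (k + 2 : ℕ), ?_⟩
  have hcomm : ∀ k : ℕ, (((q + 1 : ℕ) : A) ^ i * a) ^ k = (((q + 1) ^ i : ℕ) : A) ^ k * a ^ k := by
    intro k
    have h1 : Commute (((q + 1 : ℕ) : A) ^ i) a := (Nat.cast_commute (q + 1) a).pow_left i
    rw [h1.mul_pow]
    push_cast
    rfl
  have h1 : Commute (1 : A) (((q + 1 : ℕ) : A) ^ i * a) := Commute.one_left _
  rw [add_comm, h1.symm.add_pow, Finset.sum_range_succ', Finset.sum_range_succ']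
  simp only [one_pow, mul_one, hcomm]
  rw [Finset.sum_range, Finset.mul_sum]
  have h2 : ∀ k : Fin q, ((((q + 1) ^ i : ℕ) : A) ^ ((k : ℕ) + 1 + 1) * a ^ ((k : ℕ) + 1 + 1)) *
      (((q + 1).choose ((k : ℕ) + 1 + 1) : ℕ) : A) =
      ((q + 1 : ℕ) : A) ^ (i + 2) * ((c k k.2 : A) * a ^ ((k : ℕ) + 2)) := by
    intro k
    have h3 := hc k k.2
    have h4 : (((q + 1).choose ((k : ℕ) + 2) : ℕ) : A) * ((((q + 1) ^ i : ℕ) : A) ^ ((k : ℕ) + 2)) =
        ((q + 1 : ℕ) : A) ^ (i + 2) * (c k k.2 : A) := by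
      exact_mod_cast congrArg (Nat.cast : ℕ → A) h3
    have h5 : ∀ u : A, u * (((q + 1).choose ((k : ℕ) + 1 + 1) : ℕ) : A) =
        (((q + 1).choose ((k : ℕ) + 1 + 1) : ℕ) : A) * u := fun u =>
      (Nat.cast_commute _ u).symm
    rw [h5, ← mul_assoc, h4, mul_assoc]
  simp only [h2]
  have h6 : a * ((q : A) + 1) = ((q : A) + 1) * a := by
    rw [mul_add, add_mul, (Nat.cast_commute q a).eq, mul_one, one_mul]
  simp
  rw [mul_assoc _ a, h6, pow_succ]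
  noncomm_ring

theorem lvl_pow (hp : p.Prime) (hp2 : p ≠ 2) (i : ℕ) (hi : 1 ≤ i) (g : Λ) (hg : g ∈ lvl p R i) :
    g ^ p ∈ lvl p R (i + 1) := by
  obtain ⟨a, ha⟩ := hg
  obtain ⟨c, hc⟩ := one_add_pow p hp hp2 i hi a
  refine ⟨a + (p : A) * c, ?_⟩
  rw [map_pow, ha, hc, pow_succ (p : A) (i + 1)]
  noncomm_ring

/-- `(g^p)⁻¹ h^p ∈ lvl (i+2)` means `R h^p - R g^p ∈ p^(i+2) A`; with `R g = 1 + p^i a`,
`R h = 1 + p^i b` this gives `p^(i+1) (b - a) ∈ p^(i+2) A`, so `b - a ∈ p A` (no `p`-torsion), so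
`R h - R g ∈ p^(i+1) A`. -/
theorem lvl_inj (hp : p.Prime) (hp2 : p ≠ 2) (htf : ∀ a : A, (p : A) * a = 0 → a = 0) (i : ℕ)
    (hi : 1 ≤ i) (g h : Λ) (hg : g ∈ lvl p R i) (hh : h ∈ lvl p R i)
    (hgh : (g ^ p)⁻¹ * h ^ p ∈ lvl p R (i + 2)) : g⁻¹ * h ∈ lvl p R (i + 1) := by
  obtain ⟨a, ha⟩ := hg
  obtain ⟨b, hb⟩ := hh
  obtain ⟨d, hd⟩ := hgh
  obtain ⟨c, hc⟩ := one_add_pow p hp hp2 i hi a
  obtain ⟨c', hc'⟩ := one_add_pow p hp hp2 i hi b
  have htf' : ∀ (k : ℕ) (u : A), (p : A) ^ k * u = 0 → u = 0 := by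
    intro k
    induction k with
    | zero =>
      intro u hu
      simpa using hu
    | succ k ih =>
      intro u hu
      rw [pow_succ, mul_assoc] at hu
      exact htf u (ih _ hu)
  have e1 : R (g ^ p) * R ((g ^ p)⁻¹ * h ^ p) = R (h ^ p) := by
    rw [← map_mul, mul_inv_cancel_left]
  rw [hd, map_pow, map_pow, ha, hb, hc, hc'] at e1
  obtain ⟨u, hu⟩ : ∃ u : A, u = (1 + (p : A) ^ (i + 1) * a + (p : A) ^ (i + 2) * c) := ⟨_, rfl⟩
  have hcu : u * (p : A) ^ (i + 2) = (p : A) ^ (i + 2) * u :=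
    ((Nat.cast_commute p u).pow_left (i + 2)).symm
  have e2 : (p : A) ^ (i + 1) * (b - a - (p : A) * (u * d + c - c')) = 0 := by
    have e3 : u * (1 + (p : A) ^ (i + 2) * d) = 1 + (p : A) ^ (i + 1) * b +
        (p : A) ^ (i + 2) * c' := by rw [hu]; exact e1
    rw [mul_add, mul_one, ← mul_assoc, hcu] at e3
    have e4 : (p : A) ^ (i + 2) = (p : A) ^ (i + 1) * (p : A) := pow_succ _ _
    have e5 : (p : A) ^ (i + 1) * b = u + (p : A) ^ (i + 2) * u * d - 1 -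
        (p : A) ^ (i + 2) * c' := by
      rw [e3]
      abel
    have e6 : (p : A) ^ (i + 1) * (b - a - (p : A) * (u * d + c - c')) =
        (p : A) ^ (i + 1) * b - (p : A) ^ (i + 1) * a - (p : A) ^ (i + 2) * u * d -
          (p : A) ^ (i + 2) * c + (p : A) ^ (i + 2) * c' := by
      rw [e4]
      noncomm_ring
    rw [e6, e5]
    nth_rewrite 1 [hu]
    abel
  have e7 := htf' _ _ e2
  have e8 : b = a + (p : A) * (u * d + c - c') := by
    rw [sub_sub, sub_eq_zero] at e7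
    exact e7
  refine ⟨R g⁻¹ * (u * d + c - c'), ?_⟩
  have h3 : R g⁻¹ * R g = 1 := by rw [← map_mul, inv_mul_cancel, map_one]
  have h4 : R h = R g + (p : A) ^ (i + 1) * (u * d + c - c') := by
    rw [ha, hb, e8, pow_succ]
    noncomm_ring
  have h6 : R g⁻¹ * (p : A) ^ (i + 1) = (p : A) ^ (i + 1) * R g⁻¹ :=
    ((Nat.cast_commute p (R g⁻¹)).pow_left (i + 1)).symm
  rw [map_mul, h4, mul_add, h3, ← mul_assoc, h6, mul_assoc]

end Pool.Agent.MPca71X
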