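import Pool.Agent.Lib.MP_ca71b5_ntX.R1
import Pool.Agent.Lib.MP_ca71b5_ntX.R2
import Pool.Agent.Lib.MP_ca71b5_ntX.R3
set_option autoImplicit false

/-! Job R4 (medium-easy): the rank estimate. -/

namespace Pool.Agent.MPca71X

private lemma r4_one {p : ℕ} {Γ : Type} [Group Γ] {φ : Γ → ZMod p} (h : φ ∈ chs p Γ) :
    φ 1 = 0 := by
  have h1 : φ (1 * 1) = φ 1 + φ 1 := h 1 1
  rw [mul_one] at h1
  exact left_eq_add.1 h1

private lemma r4_pow {p : ℕ} {Γ : Type} [Group Γ] {φ : Γ → ZMod p} (h : φ ∈ chs p Γ) (g : Γ)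
    (k : ℕ) : φ (g ^ k) = k * φ g := by
  induction k with
  | zero => rw [pow_zero, r4_one h, Nat.cast_zero, zero_mul]
  | succ k ih =>
    rw [pow_succ, h, ih]
    push_cast
    ring

private lemma r4_inv {p : ℕ} {Γ : Type} [Group Γ] {φ : Γ → ZMod p} (h : φ ∈ chs p Γ) (g : Γ) :
    φ g⁻¹ = - φ g := by
  have h1 : φ (g⁻¹ * g) = φ g⁻¹ + φ g := h g⁻¹ g
  rw [inv_mul_cancel, r4_one h] at h1
  exact eq_neg_of_add_eq_zero_left h1.symm

/-- the common kernel of the characters which vanish on `N` -/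
private def r4_ker (p : ℕ) {Γ : Type} [Group Γ] (N : Subgroup Γ) : Subgroup Γ where
  carrier := {g | ∀ φ ∈ chsN p N, φ g = 0}
  one_mem' := fun φ hφ => r4_one hφ.1
  mul_mem' := fun {a b} ha hb φ hφ => by
    rw [hφ.1, ha φ hφ, hb φ hφ, add_zero]
  inv_mem' := fun {a} ha φ hφ => by
    rw [r4_inv hφ.1, ha φ hφ, neg_zero]

private lemma r4_le (p : ℕ) {Γ : Type} [Group Γ] (N : Subgroup Γ) : N ≤ r4_ker p N :=
  fun g hg _ hφ => hφ.2 g hg

private lemma r4_eq (p : ℕ) {Γ : Type} [Group Γ] (N : Subgroup Γ) :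
    chsN p N = chsN p (r4_ker p N) := by
  ext φ
  constructor
  · intro h
    exact ⟨h.1, fun n hn => hn φ h⟩
  · intro h
    exact ⟨h.1, fun n hn => h.2 n (r4_le p N hn)⟩

private lemma r4_pow_mem (p : ℕ) {Γ : Type} [Group Γ] (N : Subgroup Γ) (g : Γ) :
    g ^ p ∈ r4_ker p N := by
  intro φ hφ
  rw [r4_pow hφ.1, CharP.cast_eq_zero, zero_mul]

/-- `m = 0`: `lvl 0 = ⊤`, no characters. `m ≥ 1`: `H i = lvl p R i`. By `chsN_card_restrict` and
`chsN_card_le` (`[Λ : H 1] ≤ p^E`) it is enough that the group `H 1` has at most `p ^ E`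
characters vanishing on `H m`. Let `Φ` be the set of the elements of `H 1` on which all of them
vanish (a subgroup containing `H m` and all `g ^ p`, `g ∈ H 1`, as `p = 0` in `ZMod p`); their
number is at most `[H 1 : Φ]` (`chsN_card_le` for the group `H 1`), which is `≤ p ^ E` by
`filt`. -/
theorem lvl_rank {Λ A : Type} [Group Λ] [Ring A] (p : ℕ) [Fact p.Prime] (hp2 : p ≠ 2)
    (R : Λ →* A) (htf : ∀ a : A, (p : A) * a = 0 → a = 0) (E : ℕ)
    (hA : Finite (A ⧸ (Ideal.span {(p : A)})))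
    (hE : Nat.card (A ⧸ (Ideal.span {(p : A)})) ≤ p ^ E) (m : ℕ) :
    (lvl p R m).FiniteIndex ∧ Nat.card (chsN p (lvl p R m)) ≤ p ^ (2 * E) := by
  have hdesc : ∀ i, lvl p R (i + 1) ≤ lvl p R i := lvl_succ_le p R
  have hanti : Antitone (lvl p R) := antitone_nat_of_succ_le hdesc
  have hrel := fun i => lvl_relIndex p R (p ^ E) hA hE i
  have hpr : p.Prime := Fact.out
  have hpE : 1 ≤ p ^ E := Nat.one_le_pow _ _ hpr.pos
  have hfi : ∀ i, (lvl p R i).index ≠ 0 := by
    intro i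
    induction i with
    | zero =>
      rw [lvl_zero, Subgroup.index_top]
      exact one_ne_zero
    | succ i ih =>
      rw [← Subgroup.relIndex_mul_index (hdesc i)]
      exact mul_ne_zero (hrel i).1 ih
  have hFI : ∀ i, (lvl p R i).FiniteIndex := fun i => ⟨hfi i⟩
  refine ⟨hFI m, ?_⟩
  have := hFI m
  have := hFI 1
  rcases Nat.eq_zero_or_pos m with rfl | hm
  · refine (chsN_card_le p (lvl p R 0)).trans ?_
    rw [lvl_zero, Subgroup.index_top]
    exact Nat.one_le_pow _ _ hpr.pos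
  have hN1 : lvl p R m ≤ lvl p R 1 := hanti hm
  refine (chsN_card_restrict p (lvl p R m) (lvl p R 1) hN1).trans ?_
  have c1 : Nat.card (chsN p (lvl p R 1)) ≤ p ^ E := by
    refine (chsN_card_le p (lvl p R 1)).trans ?_
    have h := (hrel 0).2
    rw [lvl_zero, Subgroup.relIndex_top_right] at h
    exact h
  obtain ⟨Φ', hΦ'⟩ : ∃ Φ' : Subgroup (lvl p R 1), Φ' = r4_ker p ((lvl p R m).subgroupOf (lvl p R 1)) :=
    ⟨_, rfl⟩
  have hle : (lvl p R m).subgroupOf (lvl p R 1) ≤ Φ' := by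
    rw [hΦ']
    exact r4_le p _
  have hΦfi : Φ'.FiniteIndex := Subgroup.finiteIndex_of_le hle
  have c2 : Nat.card (chsN p ((lvl p R m).subgroupOf (lvl p R 1))) ≤ p ^ E := by
    rw [r4_eq, ← hΦ']
    refine (chsN_card_le p Φ').trans ?_
    have hsub : (Φ'.map (lvl p R 1).subtype).subgroupOf (lvl p R 1) = Φ' :=
      Subgroup.comap_map_eq_self_of_injective (Subgroup.subtype_injective _) Φ'
    have h := (filt p (p ^ E) m hm (lvl p R) hpE hdesc hrel
      (fun i hi g hg => lvl_pow p R hpr hp2 i hi g hg)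
      (fun i hi g hg h hh hgh => lvl_inj p R hpr hp2 htf i hi g h hg hh hgh)
      (Φ'.map (lvl p R 1).subtype) (by
        intro g hg
        exact ⟨⟨g, hN1 hg⟩, hle (by
          rw [Subgroup.mem_subgroupOf]
          exact hg), rfl⟩) (by
        rintro _ ⟨g, -, rfl⟩
        exact g.2) (by
        intro g hg
        refine ⟨(⟨g, hg⟩ : lvl p R 1) ^ p, ?_, rfl⟩
        rw [hΦ']
        exact r4_pow_mem p _ _)).2
    unfold Subgroup.relIndex at h
    rw [hsub] at h
    exact h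
  calc _ ≤ p ^ E * p ^ E := Nat.mul_le_mul c1 c2
    _ = p ^ (2 * E) := by rw [← pow_add, two_mul]

end Pool.Agent.MPca71X
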