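import Pool.Agent.Lib.MP_ca71b5_ntX.R4
set_option autoImplicit false

/-! Job R5 (medium): the normal subgroups `N_m` (paper 286, section 6). -/

namespace Pool.Agent.MPca71X

/-- The ring `A = Fin p → Matrix (Fin n) (Fin n) ℤ_[p]` has no `p`-torsion and
`A / pA` has `p ^ (p n²)` elements (it embeds in `Fin p → Matrix (Fin n) (Fin n) (ZMod p)` via
`PadicInt.toZMod`, whose kernel is `p ℤ_[p]`). -/
theorem matrix_ring_facts (p : ℕ) [Fact p.Prime] (n : ℕ) :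
    (∀ a : Fin p → Matrix (Fin n) (Fin n) ℤ_[p], (p : Fin p → Matrix (Fin n) (Fin n) ℤ_[p]) * a = 0 →
      a = 0) ∧
    Finite ((Fin p → Matrix (Fin n) (Fin n) ℤ_[p]) ⧸
      (Ideal.span {(p : Fin p → Matrix (Fin n) (Fin n) ℤ_[p])})) ∧
    Nat.card ((Fin p → Matrix (Fin n) (Fin n) ℤ_[p]) ⧸
      (Ideal.span {(p : Fin p → Matrix (Fin n) (Fin n) ℤ_[p])})) ≤ p ^ (p * n ^ 2) := by
  have hpr : p.Prime := Fact.out
  have hp0 : (p : ℤ_[p]) ≠ 0 := by exact_mod_cast hpr.ne_zero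
  have hmul : ∀ (a : Fin p → Matrix (Fin n) (Fin n) ℤ_[p]) (i : Fin p) (j k : Fin n),
      ((p : Fin p → Matrix (Fin n) (Fin n) ℤ_[p]) * a) i j k = (p : ℤ_[p]) * a i j k := by
    intro a i j k
    rw [← nsmul_eq_mul, Pi.smul_apply, Matrix.smul_apply, nsmul_eq_mul]
  refine ⟨?_, ?_⟩
  · intro a ha
    funext i
    ext j k
    have h1 := hmul a i j k
    rw [ha] at h1
    have h2 : (p : ℤ_[p]) * a i j k = 0 := h1.symm
    rcases mul_eq_zero.1 h2 with h3 | h3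
    · exact absurd h3 hp0
    · rw [h3]
      rfl
  · have hsurj := Submodule.Quotient.mk_surjective
      (Ideal.span {(p : Fin p → Matrix (Fin n) (Fin n) ℤ_[p])})
    choose rep hrep using hsurj
    have hinj : Function.Injective fun q : (Fin p → Matrix (Fin n) (Fin n) ℤ_[p]) ⧸
        (Ideal.span {(p : Fin p → Matrix (Fin n) (Fin n) ℤ_[p])}) =>
        (fun i j k => PadicInt.toZMod (rep q i j k) : Fin p → Fin n → Fin n → ZMod p) := by
      intro q q' h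
      have h1 : ∀ i j k, ∃ c : ℤ_[p], rep q i j k - rep q' i j k = c * (p : ℤ_[p]) := by
        intro i j k
        have h2 : PadicInt.toZMod (rep q i j k - rep q' i j k) = 0 := by
          rw [map_sub, sub_eq_zero]
          exact congrFun (congrFun (congrFun h i) j) k
        rw [← RingHom.mem_ker, PadicInt.ker_toZMod, PadicInt.maximalIdeal_eq_span_p] at h2
        obtain ⟨c, hc⟩ := Ideal.mem_span_singleton'.1 h2
        exact ⟨c, hc.symm⟩
      choose c hc using h1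
      rw [← hrep q, ← hrep q']
      apply (Submodule.Quotient.eq _).2
      apply Ideal.mem_span_singleton'.2
      refine ⟨fun i => Matrix.of (c i), ?_⟩
      rw [← (Nat.cast_commute p (fun i => Matrix.of (c i) :
        Fin p → Matrix (Fin n) (Fin n) ℤ_[p])).eq]
      funext i
      ext j k
      rw [hmul, Pi.sub_apply, Matrix.sub_apply, hc, mul_comm]
      rfl
    have hfin : Finite ((Fin p → Matrix (Fin n) (Fin n) ℤ_[p]) ⧸
        (Ideal.span {(p : Fin p → Matrix (Fin n) (Fin n) ℤ_[p])})) := Finite.of_injective _ hinj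
    refine ⟨hfin, (Nat.card_le_card_of_injective _ hinj).trans ?_⟩
    rw [Nat.card_fun, Nat.card_fun, Nat.card_fun, Nat.card_zmod, Nat.card_fin, Nat.card_fin,
      ← pow_mul, ← pow_mul]
    apply le_of_eq
    congr 1
    ring

private lemma r5_mul (p : ℕ) [Fact p.Prime] {n : ℕ} (m : ℕ) (a : Matrix (Fin n) (Fin n) ℤ_[p])
    (j k : Fin n) :
    ((p : Matrix (Fin n) (Fin n) ℤ_[p]) ^ m * a) j k = (p : ℤ_[p]) ^ m * a j k := by
  rw [← Nat.cast_pow, ← nsmul_eq_mul, Matrix.smul_apply, nsmul_eq_mul, Nat.cast_pow]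

private lemma r5_iff (p : ℕ) [Fact p.Prime] {n : ℕ} (m : ℕ) (M : Matrix (Fin n) (Fin n) ℤ_[p]) :
    (∃ a, M = 1 + (p : Matrix (Fin n) (Fin n) ℤ_[p]) ^ m * a) ↔
      ∀ j k, ((p : ℤ_[p]) ^ m) ∣ (M - 1) j k := by
  constructor
  · rintro ⟨a, ha⟩ j k
    refine ⟨a j k, ?_⟩
    rw [ha, add_sub_cancel_left, r5_mul]
  · intro h
    choose a ha using h
    refine ⟨Matrix.of a, ?_⟩
    rw [← sub_eq_iff_eq_add']
    ext j k
    rw [ha, r5_mul]
    rfl

private lemma r5_open (p : ℕ) [Fact p.Prime] (m : ℕ) : IsOpen {x : ℤ_[p] | (p : ℤ_[p]) ^ m ∣ x} := by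
  have h1 : {x : ℤ_[p] | (p : ℤ_[p]) ^ m ∣ x} = {x : ℤ_[p] | ‖x‖ < (p : ℝ) ^ (-(m : ℤ) + 1)} := by
    ext x
    rw [Set.mem_ofPred_eq, Set.mem_ofPred_eq, ← PadicInt.norm_le_pow_iff_norm_lt_pow_add_one,
      PadicInt.norm_le_pow_iff_mem_span_pow, Ideal.mem_span_singleton]
  rw [h1]
  exact isOpen_lt continuous_norm continuous_const

/-- `N = {g ∈ K0 : ρ(τ g τ⁻¹) = 1 mod p^m for all τ ∈ Γ}`, a normal subgroup of `Γ`. Choose
`τ0 ∉ K0`; then `Γ = ⋃ τ0^i K0`, `0 ≤ i < p` (`K0` normal of prime index `p`), and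
`N = {g ∈ K0 : ρ(τ0^i g τ0^(-i)) = 1 mod p^m, i < p}` (for `τ = τ0^i k`:
`ρ(τ g τ⁻¹) = ρ(k') ρ(τ0^i g τ0^(-i)) ρ(k')⁻¹`, `k' = τ0^i k τ0^(-i) ∈ K0`). So `N` is
`lvl p R m` for `R g = (ρ(τ0^i g τ0^(-i)))_i`, `K0 →* (Fin p → Matrix ..)`, mapped to `Γ`. Open:
a finite intersection of preimages of an open set under continuous maps `K0 → GL_n(ℤ_p)`
(`ρ` continuous, conjugation continuous, `K0` open). `p`-power: for `g ∈ K0` take the maximum of
the exponents for the `τ0^i g τ0^(-i)`; for `g ∈ Γ` use `g ^ p ∈ K0`. Inertial elements: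
`τ g τ⁻¹ ∈ I ∩ K0` is killed by `ρ`. Rank: restriction to `K0`
(`chsN_card_restrict` with `H = K0`, `#chsN p K0 ≤ p`, `lvl_rank`, `matrix_ring_facts`). -/
theorem exists_Nm (p : ℕ) [Fact p.Prime] (hp2 : p ≠ 2) {Γ : Type} [Group Γ] [TopologicalSpace Γ]
    [IsTopologicalGroup Γ] (I : Set Γ) (hIc : ∀ g ∈ I, ∀ τ : Γ, τ * g * τ⁻¹ ∈ I)
    (K0 : Subgroup Γ) (hn : K0.Normal) (ho : IsOpen (K0 : Set Γ)) (hi : K0.index = p) {n : ℕ}
    (ρ : K0 →* Matrix.GeneralLinearGroup (Fin n) (PadicInt p)) (hc : Continuous ρ)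
    (hρI : ∀ g : K0, (g : Γ) ∈ I → ρ g = 1)
    (hρp : ∀ (m : ℕ) (g : K0), ∃ k : ℕ, ∀ i j,
      ((p : ℤ_[p]) ^ m) ∣ ((ρ (g ^ p ^ k) : Matrix (Fin n) (Fin n) ℤ_[p]) - 1) i j) (m : ℕ) :
    ∃ N : Subgroup Γ, N.Normal ∧ N.FiniteIndex ∧ IsOpen (N : Set Γ) ∧
      (∀ g : Γ, ∃ k : ℕ, g ^ p ^ k ∈ N) ∧ (∀ g ∈ I, g ∈ K0 → g ∈ N) ∧
      Module.finrank (ZMod p) (chsN p N) ≤ 2 * (p * n ^ 2) + 1 ∧ N ≤ K0 ∧
      ∀ g : K0, (g : Γ) ∈ N → ∀ i j,
        ((p : ℤ_[p]) ^ m) ∣ ((ρ g : Matrix (Fin n) (Fin n) ℤ_[p]) - 1) i j := by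
  have hpr : p.Prime := Fact.out
  obtain ⟨htf, hAf, hAc⟩ := matrix_ring_facts p n
  -- an element outside of `K0`
  obtain ⟨τ0, hτ0⟩ : ∃ τ0 : Γ, τ0 ∉ K0 := by
    by_contra h
    push Not at h
    have h1 : K0 = ⊤ := by
      rw [Subgroup.eq_top_iff']
      exact h
    rw [h1, Subgroup.index_top] at hi
    exact hpr.one_lt.ne hi
  have hcard : Nat.card (Γ ⧸ K0) = p := hi
  have hτ0q : (QuotientGroup.mk τ0 : Γ ⧸ K0) ≠ 1 := by
    rw [Ne, QuotientGroup.eq_one_iff]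
    exact hτ0
  have hdec : ∀ τ : Γ, ∃ (i : Fin p) (k : K0), τ = (k : Γ) * τ0 ^ (i : ℕ) := by
    intro τ
    have h1 := mem_powers_of_prime_card hcard hτ0q (g' := (QuotientGroup.mk τ : Γ ⧸ K0))
    obtain ⟨e, he⟩ := Submonoid.mem_powers_iff _ _ |>.1 h1
    refine ⟨⟨e % p, Nat.mod_lt _ hpr.pos⟩, ⟨τ * (τ0 ^ (e % p))⁻¹, ?_⟩, ?_⟩
    · rw [← QuotientGroup.eq_one_iff, QuotientGroup.mk_mul, QuotientGroup.mk_inv,
        QuotientGroup.mk_pow, ← he]
      have h2 : (QuotientGroup.mk τ0 : Γ ⧸ K0) ^ p = 1 := by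
        rw [← hcard]
        exact pow_card_eq_one'
      have h3 : (QuotientGroup.mk τ0 : Γ ⧸ K0) ^ e = (QuotientGroup.mk τ0 : Γ ⧸ K0) ^ (e % p) := by
        conv_lhs => rw [← Nat.div_add_mod e p, pow_add, pow_mul, h2, one_pow, one_mul]
      rw [h3, mul_inv_cancel]
    · simp
  -- conjugation
  obtain ⟨c, hcdef⟩ : ∃ c : Γ → K0 →* K0, ∀ (τ : Γ) (g : K0), ((c τ g : K0) : Γ) = τ * g * τ⁻¹ :=
    ⟨fun τ => ((MulAut.conjNormal τ : MulAut K0) : K0 ≃* K0).toMonoidHom,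
      fun τ g => MulAut.conjNormal_apply τ g⟩
  have hcc : ∀ (τ σ : Γ) (g : K0), c τ (c σ g) = c (τ * σ) g := by
    intro τ σ g
    apply Subtype.ext
    rw [hcdef, hcdef, hcdef]
    group
  have hck : ∀ (k g : K0), c (k : Γ) g = k * g * k⁻¹ := by
    intro k g
    apply Subtype.ext
    rw [hcdef]
    rfl
  have hccont : ∀ τ, Continuous (c τ) := by
    intro τ
    rw [continuous_induced_rng]
    have h1 : (Subtype.val ∘ c τ : K0 → Γ) = fun g : K0 => τ * (g : Γ) * τ⁻¹ := by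
      funext g
      exact hcdef τ g
    rw [h1]
    exact (continuous_const.mul continuous_subtype_val).mul continuous_const
  obtain ⟨ρ', hρ'⟩ : ∃ ρ' : K0 →* Matrix (Fin n) (Fin n) ℤ_[p],
      ∀ g, ρ' g = (ρ g : Matrix (Fin n) (Fin n) ℤ_[p]) :=
    ⟨(Units.coeHom _).comp ρ, fun g => rfl⟩
  obtain ⟨L, hL⟩ : ∃ L : Subgroup K0, L = lvl p ρ' m := ⟨_, rfl⟩
  have hLmem : ∀ g : K0, g ∈ L ↔ ∀ j k, ((p : ℤ_[p]) ^ m) ∣
      ((ρ g : Matrix (Fin n) (Fin n) ℤ_[p]) - 1) j k := by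
    intro g
    rw [← r5_iff, hL, ← hρ']
    exact Iff.rfl
  have hLn : L.Normal := by
    rw [hL]
    exact lvl_normal p ρ' m
  obtain ⟨R, hR⟩ : ∃ R : K0 →* (Fin p → Matrix (Fin n) (Fin n) ℤ_[p]),
      ∀ g i, R g i = ρ' (c (τ0 ^ (i : ℕ)) g) :=
    ⟨MonoidHom.pi (fun i : Fin p => ρ'.comp (c (τ0 ^ (i : ℕ)))), fun g i => rfl⟩
  obtain ⟨N0, hN0⟩ : ∃ N0 : Subgroup K0, N0 = lvl p R m := ⟨_, rfl⟩
  have hN0mem : ∀ g : K0, g ∈ N0 ↔ ∀ i : Fin p, c (τ0 ^ (i : ℕ)) g ∈ L := by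
    intro g
    rw [hN0, hL]
    constructor
    · rintro ⟨a, ha⟩ i
      refine ⟨a i, ?_⟩
      rw [← hR, ha]
      simp
    · intro h
      choose a ha using h
      refine ⟨a, ?_⟩
      funext i
      rw [hR, ha]
      simp
  have hN0all : ∀ g ∈ N0, ∀ τ : Γ, c τ g ∈ L := by
    intro g hg τ
    obtain ⟨i, k, rfl⟩ := hdec τ
    rw [← hcc, hck]
    exact hLn.conj_mem _ ((hN0mem g).1 hg i) k
  obtain ⟨N, hN⟩ : ∃ N : Subgroup Γ, N = N0.map K0.subtype := ⟨_, rfl⟩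
  have hNmem : ∀ g : K0, (g : Γ) ∈ N ↔ g ∈ N0 := by
    intro g
    rw [hN]
    constructor
    · rintro ⟨g', hg', h⟩
      rwa [Subtype.ext h] at hg'
    · intro h
      exact ⟨g, h, rfl⟩
  have hNK : N ≤ K0 := by
    rw [hN]
    rintro _ ⟨g, -, rfl⟩
    exact g.2
  have hrank := lvl_rank p hp2 R htf (p * n ^ 2) hAf hAc m
  rw [← hN0] at hrank
  have hN0f : N0.FiniteIndex := hrank.1
  have hNf : N.FiniteIndex := by
    constructor
    rw [hN, Subgroup.index_map_subtype, hi]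
    exact mul_ne_zero hN0f.index_ne_zero hpr.ne_zero
  have hLopen : IsOpen (L : Set K0) := by
    have h1 : (L : Set K0) = ⋂ j : Fin n, ⋂ k : Fin n, (fun g : K0 =>
        ((ρ g : Matrix (Fin n) (Fin n) ℤ_[p]) - 1) j k) ⁻¹' {x : ℤ_[p] | (p : ℤ_[p]) ^ m ∣ x} := by
      ext g
      rw [SetLike.mem_coe, hLmem]
      simp only [Set.mem_iInter, Set.mem_preimage, Set.mem_ofPred_eq]
    rw [h1]
    apply isOpen_iInter_of_finite
    intro j
    apply isOpen_iInter_of_finite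
    intro k
    apply (r5_open p m).preimage
    have h2 : Continuous fun g : K0 => (ρ g : Matrix (Fin n) (Fin n) ℤ_[p]) :=
      Units.continuous_val.comp hc
    exact (h2.sub continuous_const).matrix_elem j k
  have hN0open : IsOpen (N0 : Set K0) := by
    have h1 : (N0 : Set K0) = ⋂ i : Fin p, (c (τ0 ^ (i : ℕ))) ⁻¹' (L : Set K0) := by
      ext g
      rw [SetLike.mem_coe, hN0mem]
      simp only [Set.mem_iInter, Set.mem_preimage, SetLike.mem_coe]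
    rw [h1]
    apply isOpen_iInter_of_finite
    intro i
    exact hLopen.preimage (hccont _)
  have hone : (1 : K0) ∈ L := L.one_mem
  refine ⟨N, ?_, hNf, ?_, ?_, ?_, ?_, hNK, ?_⟩
  · constructor
    intro x hx τ
    have hxK := hNK hx
    have h1 : (⟨x, hxK⟩ : K0) ∈ N0 := (hNmem ⟨x, hxK⟩).1 hx
    have h2 : τ * x * τ⁻¹ = ((c τ ⟨x, hxK⟩ : K0) : Γ) := (hcdef τ ⟨x, hxK⟩).symm
    rw [h2, hNmem, hN0mem]
    intro i
    rw [hcc]
    exact hN0all _ h1 _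
  · have h1 : (N : Set Γ) = Subtype.val '' (N0 : Set K0) := by
      rw [hN]
      rfl
    rw [h1]
    exact ho.isOpenMap_subtype_val _ hN0open
  · intro g
    have h1 : g ^ p ∈ K0 := by
      rw [← QuotientGroup.eq_one_iff, QuotientGroup.mk_pow, ← hcard]
      exact pow_card_eq_one'
    have h2 : ∀ i : Fin p, ∃ k : ℕ, (c (τ0 ^ (i : ℕ)) ⟨g ^ p, h1⟩) ^ p ^ k ∈ L := by
      intro i
      obtain ⟨k, hk⟩ := hρp m (c (τ0 ^ (i : ℕ)) ⟨g ^ p, h1⟩)
      exact ⟨k, (hLmem _).2 hk⟩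
    choose k hk using h2
    refine ⟨Finset.univ.sup k + 1, ?_⟩
    have h3 : g ^ p ^ (Finset.univ.sup k + 1) =
        (((⟨g ^ p, h1⟩ : K0) ^ p ^ (Finset.univ.sup k) : K0) : Γ) := by
      rw [SubmonoidClass.coe_pow, ← pow_mul, pow_succ, mul_comm]
    rw [h3, hNmem, hN0mem]
    intro i
    rw [map_pow]
    obtain ⟨d, hd⟩ := Nat.exists_eq_add_of_le (Finset.le_sup (f := k) (Finset.mem_univ i))
    rw [hd, pow_add, pow_mul]
    exact L.pow_mem (hk i) _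
  · intro g hgI hgK
    have h1 : (⟨g, hgK⟩ : K0) ∈ N0 := by
      rw [hN0mem]
      intro i
      have h2 : ρ (c (τ0 ^ (i : ℕ)) ⟨g, hgK⟩) = 1 := by
        apply hρI
        rw [hcdef]
        exact hIc g hgI _
      rw [hLmem, h2]
      intro j k
      simp
    exact (hNmem ⟨g, hgK⟩).2 h1
  · apply finrank_le_of_card p N
    have h1 := chsN_card_restrict p N K0 hNK
    have hK0f : K0.FiniteIndex := ⟨by rw [hi]; exact hpr.ne_zero⟩
    have h2 : Nat.card (chsN p K0) ≤ p := by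
      have := chsN_card_le p K0
      rwa [hi] at this
    have h3 : N.subgroupOf K0 = N0 := by
      ext g
      rw [Subgroup.mem_subgroupOf]
      exact hNmem g
    rw [h3] at h1
    calc _ ≤ p * p ^ (2 * (p * n ^ 2)) := h1.trans (Nat.mul_le_mul h2 hrank.2)
      _ = p ^ (2 * (p * n ^ 2) + 1) := (pow_succ' p (2 * (p * n ^ 2))).symm
  · intro g hg j k
    have h1 := (hNmem g).1 hg
    have h2 := hN0all g h1 1
    have h3 : c 1 g = g := by
      apply Subtype.ext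
      rw [hcdef]
      simp
    rw [h3] at h2
    exact (hLmem g).1 h2 j k

end Pool.Agent.MPca71X
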